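import Pool.Agent.MP_983df8_al.Defs10

namespace Pool.Agent.MP_983df8_al

open Subgroup

universe u

/-- for each prime `p ∉ π`, subgroups of `H` have bases of size three on finite modules of
exponent `p`, and the finite `H`-sets have colourings with `p` colours that only the kernel keeps -/
def HP (π : Set ℕ) (H : Type u) [Group H] : Prop :=
  ∀ p : ℕ, p.Prime → p ∉ π →
    (∀ (D : Subgroup H) (V : Type u) [AddCommGroup V] [Finite V] [DistribMulAction D V],
      (∀ v : V, p • v = 0) →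
        ∃ v : Fin 3 → V, ∀ d : D, (∀ i, d • v i = v i) → ∀ w : V, d • w = w) ∧
    ∀ (Ω : Type u) [Finite Ω] [MulAction H Ω],
      ∃ c : Ω → ZMod p, ∀ h : H, (∀ ω, c (h • ω) = c ω) → ∀ ω : Ω, h • ω = ω

/-- In every homomorphic image of `G`, each non-abelian simple subnormal subgroup `S` is a
`π`-group, or `π` omits a prime below eight, the `π`-subgroups of `Aut S` are soluble and `S` is
alternating, linear, Suzuki, or satisfies `Cnt`, `Gen4`, `IsBN3`, `Rt` or `IsChar` with `Syl`. -/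
def Facs (π : Set ℕ) (G : Type u) [Group G] : Prop :=
  ∀ (Q : Type u) [Group Q] (f : G →* Q), Function.Surjective f →
    ∀ S : Subgroup Q, S.IsSubnormal → IsSimpleGroup S → ¬ IsMulCommutative S →
      IsPi π S ∨ ((∃ p : ℕ, p.Prime ∧ p < 8 ∧ p ∉ π) ∧
        (∀ A : Subgroup (MulAut S), IsPi π A → Group.IsSolvable A) ∧
        (IsAlt S ∨ IsL2 S ∨ IsSz S ∨ ((2 ∉ π ∨ 3 ∉ π) ∧
          (IsLn S ∨ Cnt π S ∨ Gen4 π S ∨ ∃ p : ℕ, p.Prime ∧ ((p ∈ π ∧ IsBN3 p S) ∨
            (p ∉ π ∧ (Rt π p S ∨ (IsChar p S ∧ Syl π p S))))))))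

end Pool.Agent.MP_983df8_al
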