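import Pool.Agent.MP_983df8_al.Max
import Pool.Agent.MP_983df8_al.Defs11

namespace Pool.Agent.MP_983df8_al

open Subgroup

universe u

namespace any

/-- bases of size three -/
def B3 (r : ℕ) (D : Type u) [Group D] : Prop :=
  ∀ (V : Type u) [AddCommGroup V] [Finite V] [DistribMulAction D V], (∀ v : V, r • v = 0) →
    ∃ v : Fin 3 → V, ∀ d : D, (∀ i, d • v i = v i) → ∀ w : V, d • w = w

/-- distinguishing colourings -/
def Col (C : Type) (H : Type u) [Group H] : Prop :=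
  ∀ (Ω : Type u) [Finite Ω] [MulAction H Ω],
    ∃ c : Ω → C, ∀ h : H, (∀ ω, c (h • ω) = c ω) → ∀ ω : Ω, h • ω = ω

theorem B3.of {r : ℕ} {D E : Type u} [Group D] [Group E] (h : B3 r D) (f : D →* E)
    (hf : Function.Surjective f) : B3 r E := fun V _ _ _ hV => by
  let _ := DistribMulAction.compHom V f
  obtain ⟨v, hv⟩ := h V hV
  refine ⟨v, fun d => ?_⟩
  obtain ⟨d, rfl⟩ := hf d
  exact hv d

theorem Col.of {C : Type} {D E : Type u} [Group D] [Group E] (h : Col C D) (f : D →* E)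
    (hf : Function.Surjective f) : Col C E := fun Ω _ _ => by
  let _ := MulAction.compHom Ω f
  obtain ⟨v, hv⟩ := h Ω
  refine ⟨v, fun d => ?_⟩
  obtain ⟨d, rfl⟩ := hf d
  exact hv d

variable {G : Type u} [Group G] {π : Set ℕ}

/-- what is used of the Hall subgroup -/
structure Tm (π : Set ℕ) (H : Subgroup G) : Prop where
  b3 : ∀ r : ℕ, r.Prime → r ∉ π → ∀ D ≤ H, B3 r D
  c7 : (∃ p : ℕ, p.Prime ∧ p < 8 ∧ p ∉ π) → Col (ZMod 7) H
  c3 : 3 ∉ π → Col (ZMod 3) H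
  c2 : 2 ∉ π → Col (ZMod 2) H

theorem Tm.map {Q : Type u} [Group Q] {H : Subgroup G} (h : Tm π H) (f : G →* Q) :
    Tm π (H.map f) :=
  ⟨fun r a b D c => (h.b3 r a b (H ⊓ D.comap f) inf_le_left).of
      ((f.comp (Subgroup.subtype _)).codRestrict D fun x => x.2.2) fun d =>
        (c d.2).elim fun x e => ⟨⟨x, e.1, mem_comap.2 (e.2 ▸ d.2)⟩, Subtype.ext e.2⟩,
    fun a => (h.c7 a).of _ (f.subgroupMap_surjective H),
    fun a => (h.c3 a).of _ (f.subgroupMap_surjective H),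
    fun a => (h.c2 a).of _ (f.subgroupMap_surjective H)⟩

theorem tm_of [Finite G] {H : Subgroup G} (hH : IsPi π H) (h : Group.IsSolvable H ∨ HP π H) :
    Tm π H := by
  rcases h with h | h
  · refine ⟨fun r a b D c V _ _ _ hV => ?_, fun _ Ω _ _ => exists_distinguishing Ω,
      fun a Ω _ _ => dist3 rigX rig2 H (fun c => a (hH 3 Nat.prime_three c)) Ω,
      fun a Ω _ _ => exists_dist2 (hH.odd a) Ω⟩
    have : Group.IsSolvable D := Group.isSolvable_of_isSolvable_injective (inclusion_injective c)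
    exact lin3 a hV fun e => b (hH.mono c r a e)
  refine ⟨fun r a b D c => B3.of ((h r a b).1 (D.subgroupOf H)) (subgroupOfEquivOfLe c).toMonoidHom
    (subgroupOfEquivOfLe c).surjective, ?_, fun a => (h 3 Nat.prime_three a).2,
    fun a => (h 2 Nat.prime_two a).2⟩
  rintro ⟨p, a, b, c⟩ Ω _ _
  obtain ⟨v, hv⟩ := (h p a c).2 Ω
  have := NeZero.mk a.ne_zero
  refine ⟨fun ω => (v ω).val, fun k e => hv k fun ω => ZMod.val_injective p ?_⟩
  have := congrArg ZMod.val (e ω)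
  rwa [ZMod.val_cast_of_lt ((ZMod.val_lt _).trans_le (by omega)),
    ZMod.val_cast_of_lt ((ZMod.val_lt _).trans_le (by omega))] at this

/-- the local condition with colours in `C` -/
def LocC (ι C : Type) (H R : Subgroup G) : Prop :=
  ∃ x : ι → C → G, (∀ a i, x a i ∈ R) ∧ ∀ n ∈ H, ∀ i j, (∀ s ∈ R, n * s * n⁻¹ ∈ R) →
    (∀ a, ∃ n' ∈ H, ∀ s ∈ R,
      n' * s * n'⁻¹ = (x a i * n * (x a j)⁻¹) * s * (x a i * n * (x a j)⁻¹)⁻¹) →
    i = j ∧ ∀ s ∈ R, Commute n s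

open scoped IsMulCommutative in
theorem b3_conj [Finite G] {M D : Subgroup G} [M.Normal] [IsMulCommutative M] {r : ℕ}
    (hM : ∀ m ∈ M, m ^ r = 1) (hD : B3 r D) :
    ∃ v : Fin 3 → G, (∀ i, v i ∈ M) ∧
      ∀ d ∈ D, (∀ i, Commute d (v i)) → ∀ w ∈ M, Commute d w := by
  let _ : DistribMulAction D (Additive M) :=
    { smul := fun d w => Additive.ofMul (MulAut.conjNormal (d : G) w.toMul)
      one_smul := fun w => congrArg Additive.ofMul (Subtype.ext (by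
        show (1 : G) * _ * (1 : G)⁻¹ = (w.toMul : G)
        simp))
      mul_smul := fun c d w => congrArg Additive.ofMul (Subtype.ext (by
        show ((c : G) * d) * _ * ((c : G) * d)⁻¹ = c * (d * _ * (d : G)⁻¹) * (c : G)⁻¹
        group))
      smul_zero := fun d => congrArg Additive.ofMul (map_one (MulAut.conjNormal (d : G)))
      smul_add := fun d v w => congrArg Additive.ofMul
        (map_mul (MulAut.conjNormal (d : G)) v.toMul w.toMul) }
  obtain ⟨v, hv⟩ := hD (Additive M)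
    fun v => congrArg Additive.ofMul (Subtype.ext (hM _ v.toMul.2) : v.toMul ^ r = 1)
  refine ⟨fun i => (v i).toMul, fun i => (v i).toMul.2, fun d hd h w hw => ?_⟩
  have := hv ⟨d, hd⟩ (fun i => congrArg Additive.ofMul (Subtype.ext
    (mul_inv_eq_iff_eq_mul.2 (h i).eq))) (Additive.ofMul ⟨w, hw⟩)
  exact mul_inv_eq_iff_eq_mul.1 (congrArg (fun t : Additive M => (t.toMul : G)) this)

theorem step [Finite G] {H M : Subgroup G} [M.Normal] [IsMulCommutative M] (hH : IsHall π H)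
    {r : ℕ} (hr : r.Prime) (hπ : r ∉ π) (hb : ∀ D ≤ H, B3 r D) (hM : ∀ m ∈ M, m ^ r = 1)
    (X : Fin 3 → G ⧸ M) (hX : ∀ k ∈ H.map (QuotientGroup.mk' M),
      (∀ a, k ∈ conjBy (H.map (QuotientGroup.mk' M)) (X a)) → k ∈ OPi π (G ⧸ M)) :
    ∃ x : Fin 3 → G, ∀ k ∈ H, (∀ a, k ∈ conjBy H (x a)) → k ∈ OPi π G := by
  let L := (OPi π (G ⧸ M)).comap (QuotientGroup.mk' M)
  have hL : ∀ y : Fin 3 → G, (∀ a, y a ∈ M) → ∀ k ∈ H,
      (∀ a, k ∈ conjBy H ((X a).out * y a)) → k ∈ L := fun y hy k hk h =>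
    hX _ ⟨k, hk, rfl⟩ fun a => mem_conjBy.2 ⟨_, mem_conjBy.1 (h a), by
      simp [(QuotientGroup.eq_one_iff _).2 (hy a)]⟩
  have hsup : ∀ E : Subgroup G, IsHall π E → ∀ d ∈ L, ∃ c ∈ M, c * d ∈ E := fun E hE d hd => by
    obtain ⟨e, he, h⟩ := (hE.map _ (QuotientGroup.mk'_surjective M)).OPi_le hd
    refine ⟨e * d⁻¹, (QuotientGroup.eq_one_iff _).1 ?_, by simpa using he⟩
    rw [QuotientGroup.mk_mul, QuotientGroup.mk_inv, mul_inv_eq_one]
    exact h
  have hD : ¬ r ∣ Nat.card (H ⊓ L : Subgroup G) := fun e => hπ (hH.1.mono inf_le_left r hr e)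
  obtain ⟨v, hv, hv'⟩ := b3_conj hM (hb (H ⊓ L) inf_le_left)
  have := fun a => compl_conj hr hM hD (fun d hd => hsup _ (hH.conjBy (X a).out) d hd.2)
    fun m hm h => (hH.conjBy _).1.eq_one hr hπ (hM m hm) h
  choose m hm hm' using this
  refine ⟨fun a => (X a).out * (m a * v a), fun k hk h => ?_⟩
  have hkL := hL _ (fun a => M.mul_mem (hm a) (hv a)) k hk h
  have hc := hv' k ⟨hk, hkL⟩ fun a => by
    have a1 := mem_conjBy.1 (mem_conjBy.1 (hm' a ⟨hk, hkL⟩))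
    have a2 := mem_conjBy.1 (h a)
    have a3 : v a * k * (v a)⁻¹ * k⁻¹ ∈ M := by
      rw [mul_assoc, mul_assoc, ← mul_assoc k]
      exact M.mul_mem (hv a) (‹M.Normal›.conj_mem _ (M.inv_mem (hv a)) k)
    have := (hH.conjBy ((X a).out * m a)).1.eq_one hr hπ (hM _ a3) (mem_conjBy.2 (by
      simpa [mul_assoc] using H.mul_mem a2 (H.inv_mem a1)))
    exact (commutatorElement_eq_one_iff_commute.1 this).symm
  refine le_OPi (K := H ⊓ (L ⊓ centralizer (M : Set G))) ⟨fun k hk g => ?_⟩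
    (hH.1.mono inf_le_left) ⟨hk, hkL, fun w hw => (hc w hw).symm.eq⟩
  have h1 : g * k * g⁻¹ ∈ L ⊓ centralizer (M : Set G) := Normal.conj_mem inferInstance k hk.2 g
  refine ⟨?_, h1⟩
  obtain ⟨c, c1, c2⟩ := hsup H hH _ h1.1
  have e1 : k ^ Nat.card H = 1 := orderOf_dvd_iff_pow_eq_one.1 (H.orderOf_dvd_natCard hk.1)
  have e2 := orderOf_dvd_iff_pow_eq_one.1 (H.orderOf_dvd_natCard c2)
  rw [Commute.mul_pow (h1.2 c c1), conj_pow, e1, mul_one, mul_inv_cancel, mul_one] at e2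
  obtain rfl : c = 1 := orderOf_eq_one_iff.1 (Nat.eq_one_of_dvd_coprimes
    (hr.coprime_iff_not_dvd.2 fun e => hπ (hH.1 r hr e))
    (orderOf_dvd_of_pow_eq_one (hM c c1)) (orderOf_dvd_of_pow_eq_one e2))
  simpa using c2

theorem glueC [Finite G] (hR : RadicalTrivial G) {ι C : Type} {H : Subgroup G} (hc : Col C H)
    (hL : ∀ R, IsComp R → LocC ι C H R) :
    ∃ X : ι → G, ∀ k ∈ H, (∀ a, X a * k * (X a)⁻¹ ∈ H) → k = 1 := by
  let _ := compAct H
  have hmem : ∀ (h : H) (S : {S : Subgroup G // IsComp S}) (g : G),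
      g ∈ (h • S).1 ↔ (h : G)⁻¹ * g * h ∈ S.1 := fun h S g => by
    show g ∈ S.1.map _ ↔ _
    rw [mem_map_equiv]
    rfl
  obtain ⟨col, hcol⟩ := hc {S : Subgroup G // IsComp S}
  choose x hx hx' using fun R : {S : Subgroup G // IsComp S} => hL R.1 R.2
  let r := MulAction.orbitRel H {S : Subgroup G // IsComp S}
  let rep := fun S : {S : Subgroup G // IsComp S} => (Quotient.mk r S).out
  have hrep : ∀ S, ∃ u : H, u • rep S = S := fun S => r.symm (Quotient.mk_out S)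
  choose u hu using hrep
  have hu' : ∀ S g, g ∈ (rep S).1 → (u S : G) * g * (u S : G)⁻¹ ∈ S.1 := fun S g hg => by
    have := (hmem (u S) (rep S) ((u S : G) * g * (u S : G)⁻¹)).2 (by simpa [mul_assoc] using hg)
    rwa [hu] at this
  choose X hX using fun a => exists_glued
    (fun S => (u S : G) * x (rep S) a (col S) * (u S : G)⁻¹) fun S => hu' S _ (hx _ _ _)
  refine ⟨X, fun k hk hXk => ?_⟩
  have key : ∀ S, col ((⟨k, hk⟩ : H) • S) = col S ∧
      ∀ s ∈ (rep S).1, Commute ((u ((⟨k, hk⟩ : H) • S) : G)⁻¹ * k * u S) s := by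
    intro S
    set T := (⟨k, hk⟩ : H) • S with hT
    have hrT : rep T = rep S := congrArg Quotient.out (Quotient.sound (s := r) ⟨⟨k, hk⟩, rfl⟩)
    have hkS : ∀ g ∈ S.1, k * g * k⁻¹ ∈ T.1 := fun g hg =>
      (hmem _ S _).2 (by simpa [mul_assoc] using hg)
    refine hx' (rep S) _ (H.mul_mem (H.mul_mem (H.inv_mem (u T).2) hk) (u S).2) _ _
      (fun s hs => ?_) fun a => ⟨(u T : G)⁻¹ * (X a * k * (X a)⁻¹) * u S,
        H.mul_mem (H.mul_mem (H.inv_mem (u T).2) (hXk a)) (u S).2, fun s hs => ?_⟩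
    · have := hkS _ (hu' S s hs)
      rw [← hu T, hmem, hrT] at this
      simpa [mul_assoc] using this
    · have m1 := hu' S _ ((rep S).1.mul_mem ((rep S).1.mul_mem ((rep S).1.inv_mem
        (hx (rep S) a (col S))) hs) (hx (rep S) a (col S)))
      have e1 := hX a S _ m1
      have e2 := hX a T _ (hkS _ m1)
      rw [hrT] at e2
      have e3 : (u S : G) * ((x (rep S) a (col S))⁻¹ * s * x (rep S) a (col S)) * (u S : G)⁻¹ =
          (X a)⁻¹ * (u S * s * (u S : G)⁻¹) * X a := by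
        rw [mul_assoc (X a)⁻¹, eq_inv_mul_iff_mul_eq, ← mul_inv_eq_iff_eq_mul, e1]
        group
      calc _ = (u T : G)⁻¹ * (X a * (k * ((X a)⁻¹ * (u S * s * (u S : G)⁻¹) * X a) * k⁻¹) *
            (X a)⁻¹) * u T := by group
        _ = _ := by rw [← e3, e2]; group
  have htriv := hcol ⟨k, hk⟩ fun S => (key S).1
  refine eq_one_of_centralizes hR fun S hS s hs => ?_
  have h1 := (key ⟨S, hS⟩).2 ((u ⟨S, hS⟩ : G)⁻¹ * s * u ⟨S, hS⟩)
    ((hmem _ _ _).1 (by rw [hu]; exact hs))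
  rw [htriv] at h1
  have := congrArg (fun t => (u ⟨S, hS⟩ : G) * t * (u ⟨S, hS⟩ : G)⁻¹) h1.eq
  simpa [Commute, SemiconjBy, mul_assoc] using this

theorem locL2 [Finite G] {H S : Subgroup G} [Group.IsSolvable (autOf H S)] (hH : IsHall π H)
    (hW : ∀ X : Subgroup G, IsPi π X → ∃ x, X ≤ conjBy H x) (hS : IsComp S) (hn : ¬ IsPi π S)
    (hA : IsL2 S) : LocG (Fin 3) H S := by
  obtain ⟨K, _, _, h7, h9, ⟨e⟩⟩ := hA
  have h := cov_psl.comp e.symm
  have hle : H.subgroupOf S ≤ (autOf H S).comap MulAut.conj := fun s hs =>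
    ⟨⟨s, le_normalizer s.2⟩, hs, MulEquiv.ext fun _ => rfl⟩
  have hJ : IsHall π ((autOf H S).comap MulAut.conj) :=
    ⟨(hH.1.autOf S).comap_inj _ h.conj_inj, fun p hp hm hd =>
      (hH.subgroupOf hS.1).2 p hp hm (hd.trans (index_dvd_of_le hle))⟩
  have hW3 : ∀ X : Subgroup S, IsPi π X → ∃ α ∈ S.normalizerMonoidHom.range,
      ∀ x ∈ X, α x ∈ (autOf H S).comap MulAut.conj := fun X hX => by
    obtain ⟨y, y1, y2⟩ := hS.exists_norm hH.1 hW (map_subtype_le X) (hX.map _)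
    exact ⟨_, ⟨⟨y, y1⟩, rfl⟩, fun x hx => hle (y2 _ ⟨x, hx, rfl⟩)⟩
  refine Exists.elim (loc_L2 h h7 h9 (hH.1.autOf S) hJ (fun X hX => (hW3 X hX).elim fun α hα =>
    ⟨_, hJ.comap_equiv α, hα.2⟩) (fun h' => hn (h'.of_dvd (by simp)))
    fun p2 p3 g m a1 a2 T hg hm t1 t2 t3 => klein_false h (by omega)
      (fun e => a2 (by rwa [neg_eq_of_add_eq_zero_left (one_add_one_eq_two.trans e)] at a1))
      hJ p2 p3 (A := S.normalizerMonoidHom.range) hW3 ?_ ⟨g, m, rfl, rfl, a1⟩ (t1 _ hg) (t1 _ hm)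
      fun j hj => ⟨⟨t2 _ (t3 _ hj _ hg) _ hg, t2 _ (t3 _ hj _ hg) _ hm⟩,
        t2 _ (t3 _ hj _ hm) _ hg, t2 _ (t3 _ hj _ hm) _ hm⟩) locG_of_aut
  rintro _ ⟨y, rfl⟩
  obtain ⟨a, n, hn, e⟩ := Nat.exists_eq_pow_mul_and_not_dvd (orderOf_pos y).ne' 2 (by norm_num)
  obtain ⟨x, hx⟩ := hW (zpowers ((y ^ n : normalizer (S : Set G)) : G)) fun p hp hd => by
    rw [Nat.card_zpowers, orderOf_coe] at hd
    rwa [(Nat.prime_dvd_prime_iff_eq hp Nat.prime_two).1 (hp.dvd_of_dvd_pow (n := a) (hd.trans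
      (orderOf_dvd_of_pow_eq_one (by rw [← pow_mul, mul_comm, ← e, pow_orderOf_eq_one]))))]
  refine ⟨n, Nat.odd_iff.2 (by omega), _, (hH.conjBy x).subgroupOf hS.1, fun s hs => ?_⟩
  rw [← map_pow]
  exact mul_mem (mul_mem (hx (mem_zpowers _)) hs) (inv_mem (hx (mem_zpowers _)))

theorem loc [Finite G] {H S : Subgroup G} (hH : IsHall π H)
    (hW : ∀ X : Subgroup G, IsPi π X → ∃ x, X ≤ conjBy H x) (c : IsComp S) (hn : ¬ IsPi π S)
    [Group.IsSolvable (autOf H S)] (h : IsAlt S ∨ IsL2 S ∨ IsSz S ∨ ((2 ∉ π ∨ 3 ∉ π) ∧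
      (IsLn S ∨ Cnt π S ∨ Gen4 π S ∨ ∃ p : ℕ, p.Prime ∧ ((p ∈ π ∧ IsBN3 p S) ∨
        (p ∉ π ∧ (Rt π p S ∨ (IsChar p S ∧ Syl π p S))))))) :
    LocG (Fin 3) H S ∨ (2 ∉ π ∨ 3 ∉ π) ∧
      (autOf H S).comap MulAut.conj ≠ ⊤ ∧ ∃ x : Fin 3 → S, ∀ β ∈ autOf H S,
        (∀ a, MulAut.conj (x a) * β * (MulAut.conj (x a))⁻¹ ∈ autOf H S) → β = 1 := by
  have := c.2.1
  have c3 := hH.1.autOf S
  have hle : H.subgroupOf S ≤ (autOf H S).comap MulAut.conj := fun s hs =>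
    ⟨⟨s, le_normalizer s.2⟩, hs, MulEquiv.ext fun _ => rfl⟩
  have c2 : IsHall π ((autOf H S).comap MulAut.conj) := ⟨c3.comap_inj _ c.conj_inj,
    fun p hp hm hd => (hH.subgroupOf c.1).2 p hp hm (hd.trans (index_dvd_of_le hle))⟩
  have c1 : (autOf H S).comap MulAut.conj ≠ ⊤ := fun e => hn (c2.1.of_dvd (by simp [e]))
  rcases h with a | a | a | ⟨b, a | a | a | ⟨p, hp, a | ⟨d, a | ⟨a, e⟩⟩⟩⟩
  · exact Or.inl (locG_alt hH c.1 a (alt_not_both hH hW c.1 a hn)).three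
  · exact Or.inl (locL2 hH hW c hn a)
  · obtain ⟨K, _, _, θ, u, t, w, ρ, a1, a2, a3⟩ := sz1 S a
    by_cases h2 : 2 ∈ π
    · exact Or.inl ((sz4 K θ S u t w a1 a2 c.2.2 c.conj_inj _
        (c2.2 2 Nat.prime_two h2)).elim locG_of_aut)
    · exact Or.inr ⟨Or.inl h2, c1, sz3 K θ S u t w a2 (sz2 K θ S ρ a2.sq a3) c.2.2 c.conj_inj _
        (c3.odd h2)⟩
  · obtain ⟨n, K, _, _, h3, ⟨e⟩⟩ := a
    exact Or.inl ((loc_Ln ((cov_psln (by simpa using h3)).comp e.symm) c.conj_inj c3 c2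
      b).elim locG_of_aut)
  · exact Or.inr ⟨b, c1, loc_cnt c.conj_inj c3 a⟩
  · exact Or.inr ⟨b, c1, loc_gen c3 a⟩
  · exact Or.inr ⟨b, c1, loc_all c.2.2 c.conj_inj c3 c2 b hp (Or.inl a)⟩
  · exact Or.inr ⟨b, c1, loc_rt c.2.2 c.conj_inj c3 c2 b hp d a⟩
  · exact Or.inr ⟨b, c1, loc_char baseTwo zenkov c.2.2 a hp d c3 c.conj_inj (Or.inl e)⟩

theorem base [Finite G] {H : Subgroup G} (hH : IsHall π H)
    (hW : ∀ X : Subgroup G, IsPi π X → ∃ x, X ≤ conjBy H x) (hT : Tm π H) (hF : Facs π G)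
    (hR : RadicalTrivial G) (hO : OPi π G = ⊥) :
    ∃ X : Fin 3 → G, ∀ k ∈ H, (∀ a, X a * k * (X a)⁻¹ ∈ H) → k = 1 := by
  have n : ∀ S : Subgroup G, IsComp S → ¬ IsPi π S := fun S c e =>
    c.ne_bot (eq_bot_iff.2 (hO ▸ subnormal_le_OPi c.1 e))
  have f := fun S (c : IsComp S) =>
    (hF G (MonoidHom.id G) Function.surjective_id S c.1 c.2.1 c.2.2).resolve_left (n S c)
  have k := fun S (c : IsComp S) =>
    have := (f S c).2.1 _ (hH.1.autOf S)
    loc hH hW c (n S c) (f S c).2.2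
  by_cases h3 : 3 ∈ π
  swap
  · exact glueC hR (hT.c3 h3) fun S c => (k S c).elim g3.of_locG fun a =>
      (g3.three_of_one (fun t => h3 (hH.1.autOf S 3 Nat.prime_three t)) a.2.1 a.2.2).elim
        fun x => g3.locG3_of_aut x
  by_cases h2 : 2 ∈ π
  swap
  · exact glueC hR (hT.c2 h2) fun S c => (k S c).elim LocG.two
      fun a => (two_of_one ((hH.1.autOf S).odd h2) a.2.1 a.2.2).elim locG2_of_aut
  by_cases e : ∃ S : Subgroup G, IsComp S
  · obtain ⟨S, c⟩ := e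
    exact glueC hR (hT.c7 (f S c).1) fun S c => (k S c).resolve_right fun a =>
      a.1.elim (· h2) (· h3)
  · exact ⟨1, fun k _ _ => eq_one_of_centralizes hR fun S c => absurd ⟨S, c⟩ e⟩

theorem aux (n : ℕ) : ∀ (G : Type u) [Group G] [Finite G], Nat.card G = n → ∀ H : Subgroup G,
    IsHall π H → (∀ X : Subgroup G, IsPi π X → ∃ x, X ≤ conjBy H x) → Tm π H → Facs π G →
      ∃ x : Fin 3 → G, ∀ k ∈ H, (∀ a, k ∈ conjBy H (x a)) → k ∈ OPi π G := by
  induction n using Nat.strong_induction_on with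
  | _ n ih =>
    rintro G _ _ rfl H hH hW hT hF
    have q := fun (M : Subgroup G) [M.Normal] (m : M ≠ ⊥) => ih (Nat.card (G ⧸ M)) (by
        rw [← M.index_mul_card]
        exact lt_mul_of_one_lt_right Nat.card_pos ((one_lt_card_iff_ne_bot M).2 m))
      (G ⧸ M) rfl (H.map (QuotientGroup.mk' M)) (hH.map _ (QuotientGroup.mk'_surjective M))
      (map_W _ (QuotientGroup.mk'_surjective M) hW) (hT.map _) fun Q _ f a =>
        hF Q (f.comp (QuotientGroup.mk' M)) (a.comp (QuotientGroup.mk'_surjective M))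
    by_cases hO : OPi π G = ⊥
    swap
    · obtain ⟨X, hX⟩ := q _ hO
      refine ⟨fun a => (X a).out, fun k a b => le_OPi inferInstance
        (isPi_OPi.comap (QuotientGroup.mk' (OPi π G)) (by rw [QuotientGroup.ker_mk']; exact isPi_OPi))
        (hX _ ⟨k, a, rfl⟩ fun i => mem_conjBy.2 ⟨_, mem_conjBy.1 (b i), by simp⟩)⟩
    by_cases hR : RadicalTrivial G
    · obtain ⟨X, hX⟩ := base hH hW hT hF hR hO
      exact ⟨X, fun k a b => hX k a (fun i => mem_conjBy.1 (b i)) ▸ one_mem _⟩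
    obtain ⟨R, _, _, a⟩ : ∃ R : Subgroup G, R.Normal ∧ Group.IsSolvable R ∧ R ≠ ⊥ := by
      by_contra! c
      exact hR c
    obtain ⟨M, m1, -, m3, m4, r, hr, m5⟩ := exists_elem_ab a
    have b : r ∉ π := fun b => m3 (eq_bot_iff.2 (hO ▸ le_OPi m1 (isPi_of_orderOf fun m c d => by
      rwa [(Nat.prime_dvd_prime_iff_eq d hr).1 (orderOf_dvd_of_pow_eq_one (m5 m c))])))
    obtain ⟨X, hX⟩ := q M m3
    exact step hH hr b (hT.b3 r hr b) m5 X hX

end any

theorem main_any {G : Type u} [Group G] [Finite G] {π : Set ℕ} (hD : IsD π G) {H : Subgroup G}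
    (hH : IsHall π H) (h : Group.IsSolvable H ∨ HP π H) (hF : Facs π G) :
    ∃ x y z : G, OPi π G = H ⊓ conjBy H x ⊓ conjBy H y ⊓ conjBy H z := by
  obtain ⟨x, hx⟩ := any.aux _ G rfl H hH (fun X hX => hD.exists_le hH hX) (any.tm_of hH.1 h) hF
  refine ⟨x 0, x 1, x 2, le_antisymm (le_inf (le_inf (le_inf hH.OPi_le (hH.conjBy _).OPi_le)
    (hH.conjBy _).OPi_le) (hH.conjBy _).OPi_le) fun k hk => hx k hk.1.1.1 fun a => ?_⟩
  fin_cases a
  exacts [hk.1.1.2, hk.1.2, hk.2]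

end Pool.Agent.MP_983df8_al
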