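import Mathlib.GroupTheory.Solvable
import Mathlib.GroupTheory.SpecificGroups.Alternating
import Mathlib.GroupTheory.IsSubnormal
import Mathlib.Order.CompletePartialOrder

namespace Pool.Agent.MP_983df8_al

variable {G : Type*} [Group G]

/-- `K` is a `π`-subgroup: every prime divisor of its order lies in `π`. -/
def IsPi (π : Set ℕ) (K : Subgroup G) : Prop :=
  ∀ p : ℕ, p.Prime → p ∣ Nat.card K → p ∈ π

/-- `H ^ x = x⁻¹ H x`. -/
def conjBy (H : Subgroup G) (x : G) : Subgroup G :=
  H.comap (MulAut.conj x).toMonoidHom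

/-- `G` is a `D_π`-group: any two maximal `π`-subgroups are conjugate. -/
def IsD (π : Set ℕ) (G : Type*) [Group G] : Prop :=
  ∀ K L : Subgroup G, Maximal (IsPi π) K → Maximal (IsPi π) L → ∃ x : G, L = conjBy K x

/-- `H` is a Hall `π`-subgroup. -/
def IsHall (π : Set ℕ) (H : Subgroup G) : Prop :=
  IsPi π H ∧ ∀ p : ℕ, p.Prime → p ∈ π → ¬ p ∣ H.index

/-- `O_π(G)`, the product of all normal `π`-subgroups. -/
def OPi (π : Set ℕ) (G : Type*) [Group G] : Subgroup G :=
  ⨆ K : {K : Subgroup G // K.Normal ∧ IsPi π K}, K.1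

instance OPi_normal (π : Set ℕ) : (OPi π G).Normal :=
  haveI : ∀ K : {K : Subgroup G // K.Normal ∧ IsPi π K}, (K.1).Normal := fun K => K.2.1
  Subgroup.iSup_normal _

/-- `S` is isomorphic to an alternating group of degree at least five. -/
def IsAlt (S : Type*) [Group S] : Prop :=
  ∃ n : ℕ, 5 ≤ n ∧ Nonempty (S ≃* alternatingGroup (Fin n))

/-- Every non-abelian composition factor of `G` (simple quotient of a subnormal subgroup) is an
alternating group. -/
def FactorsAlt (G : Type*) [Group G] : Prop :=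
  ∀ L : Subgroup G, L.IsSubnormal → ∀ (K : Subgroup L) [K.Normal],
    IsSimpleGroup (L ⧸ K) → ¬ IsMulCommutative (L ⧸ K) → IsAlt (L ⧸ K)

/-- Every non-abelian simple subnormal subgroup of `G` is an alternating group. -/
def SocleAlt (G : Type*) [Group G] : Prop :=
  ∀ S : Subgroup G, S.IsSubnormal → IsSimpleGroup S → ¬ IsMulCommutative S → IsAlt S

/-- The soluble radical of `G` is trivial. -/
def RadicalTrivial (G : Type*) [Group G] : Prop :=
  ∀ N : Subgroup G, N.Normal → Group.IsSolvable N → N = ⊥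

end Pool.Agent.MP_983df8_al
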