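import Mathlib.Algebra.Torsor.Defs
import Mathlib.Tactic.Monotonicity.Lemmas
import Mathlib.Algebra.Field.ZMod
import Mathlib.Algebra.Order.Ring.Star
import Mathlib.Tactic.NormNum.Prime
import Mathlib.GroupTheory.Nilpotent
import Mathlib.GroupTheory.SpecificGroups.Alternating.Simple
import Pool.Agent.MP_983df8_al.Defs

-- ======== part 0: formerly Pool.Agent.MP_983df8_al.Basic
section MrgPart0

namespace Pool.Agent.MP_983df8_al

open Subgroup

variable {G : Type*} [Group G] {G' : Type*} [Group G'] {π : Set ℕ}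

theorem mem_conjBy {H : Subgroup G} {x g : G} : g ∈ conjBy H x ↔ x * g * x⁻¹ ∈ H := by
  simp [conjBy]

theorem IsPi.of_dvd {K : Subgroup G} {L : Subgroup G'} (hK : IsPi π K)
    (h : Nat.card L ∣ Nat.card K) : IsPi π L :=
  fun p hp hd => hK p hp (hd.trans h)

theorem IsPi.mono {K L : Subgroup G} (hK : IsPi π K) (h : L ≤ K) : IsPi π L :=
  hK.of_dvd (card_dvd_of_le h)

theorem IsPi.map {K : Subgroup G} (hK : IsPi π K) (f : G →* G') : IsPi π (K.map f) :=
  hK.of_dvd (card_map_dvd K f)

theorem IsPi.orderOf_mem {K : Subgroup G} (hK : IsPi π K) {g : G} (hg : g ∈ K)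
    {p : ℕ} (hp : p.Prime) (hd : p ∣ orderOf g) : p ∈ π :=
  hK p hp (hd.trans (K.orderOf_dvd_natCard hg))

theorem isPi_of_orderOf [Finite G] {K : Subgroup G}
    (h : ∀ g ∈ K, (orderOf g).Prime → orderOf g ∈ π) : IsPi π K := by
  intro p hp hd
  have := Fact.mk hp
  obtain ⟨g, hg⟩ := exists_prime_orderOf_dvd_card' (G := K) p hd
  have : orderOf (g : G) = p := by rw [Subgroup.orderOf_coe, hg]
  exact this ▸ h g g.2 (this ▸ hp)

theorem isPi_bot : IsPi π (⊥ : Subgroup G) := by
  intro p hp hd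
  rw [card_bot] at hd
  exact absurd (Nat.dvd_one.1 hd) hp.ne_one

theorem IsPi.comap [Finite G] {K : Subgroup G'} (hK : IsPi π K) (f : G →* G')
    (hf : IsPi π f.ker) : IsPi π (K.comap f) := by
  refine isPi_of_orderOf fun g hg hp => ?_
  rcases (Nat.dvd_prime hp).1 (orderOf_map_dvd f g) with h1 | h1
  · exact hf.orderOf_mem (show g ∈ f.ker from orderOf_eq_one_iff.1 h1) hp dvd_rfl
  · exact hK.orderOf_mem hg hp (h1 ▸ dvd_rfl)

theorem IsPi.comap_inj [Finite G] {K : Subgroup G'} (hK : IsPi π K) (f : G →* G')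
    (hf : Function.Injective f) : IsPi π (K.comap f) :=
  hK.comap f (by rw [(MonoidHom.ker_eq_bot_iff f).2 hf]; exact isPi_bot)

theorem IsPi.sup [Finite G] {N K : Subgroup G} [N.Normal] (hN : IsPi π N) (hK : IsPi π K) :
    IsPi π (K ⊔ N) := by
  have := (hK.map (QuotientGroup.mk' N)).comap (QuotientGroup.mk' N)
    (by rw [QuotientGroup.ker_mk']; exact hN)
  rwa [comap_map_eq, QuotientGroup.ker_mk'] at this

theorem le_OPi {K : Subgroup G} (h1 : K.Normal) (h2 : IsPi π K) : K ≤ OPi π G :=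
  le_iSup (fun K : {K : Subgroup G // K.Normal ∧ IsPi π K} => K.1) ⟨K, h1, h2⟩

theorem isPi_OPi [Finite G] : IsPi π (OPi π G) := by
  obtain ⟨M, hM⟩ := exists_maximal_of_wellFoundedGT
    (fun K : Subgroup G => K.Normal ∧ IsPi π K) ⟨⊥, inferInstance, isPi_bot⟩
  refine hM.prop.2.mono (iSup_le fun K => ?_)
  have := hM.prop.1
  have := K.2.1
  exact le_sup_left.trans (hM.le_of_ge ⟨inferInstance, hM.prop.2.sup K.2.2⟩ le_sup_right)

instance OPi_char [Finite G] : (OPi π G).Characteristic :=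
  characteristic_iff_comap_le.2 fun φ =>
    le_OPi inferInstance (isPi_OPi.comap_inj _ φ.injective)

theorem IsHall.conjBy [Finite G] {H : Subgroup G} (hH : IsHall π H) (x : G) :
    IsHall π (conjBy H x) := by
  refine ⟨hH.1.comap_inj _ (MulAut.conj x).injective, fun p hp hm => ?_⟩
  rw [MP_983df8_al.conjBy, index_comap_of_surjective _ (MulAut.conj x).surjective]
  exact hH.2 p hp hm

theorem IsHall.le_of_ge [Finite G] {H K : Subgroup G} (hH : IsHall π H) (hK : IsPi π K)
    (h : H ≤ K) : K ≤ H := by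
  rw [← relIndex_eq_one]
  by_contra hne
  obtain ⟨p, hp, hd⟩ := Nat.exists_prime_and_dvd hne
  exact hH.2 p hp (hK p hp (hd.trans (relIndex_dvd_card H K)))
    (hd.trans (relIndex_dvd_index_of_le h))

theorem IsHall.OPi_le [Finite G] {H : Subgroup G} (hH : IsHall π H) : OPi π G ≤ H :=
  le_sup_right.trans (hH.le_of_ge (isPi_OPi.sup hH.1) le_sup_left)

theorem IsD.exists_le [Finite G] (hD : IsD π G) {H X : Subgroup G} (hH : IsHall π H)
    (hX : IsPi π X) : ∃ x : G, X ≤ conjBy H x := by
  obtain ⟨M, hXM, hM⟩ := exists_maximal_ge_of_wellFoundedGT (IsPi π) X hX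
  obtain ⟨x, hx⟩ := hD H M ⟨hH.1, fun K hK h => hH.le_of_ge hK h⟩ hM
  exact ⟨x, hx ▸ hXM⟩

theorem relIndex_dvd_of_normal [Finite G] (H L : Subgroup G) [L.Normal] :
    H.relIndex L ∣ H.index := by
  obtain ⟨m, hm⟩ := relIndex_dvd_index_of_normal L H
  have h1 := relIndex_mul_index (inf_le_left : H ⊓ L ≤ H)
  have h2 := relIndex_mul_index (inf_le_right : H ⊓ L ≤ L)
  rw [inf_relIndex_left] at h1
  rw [inf_relIndex_right, hm] at h2
  have hpos : L.relIndex H ≠ 0 := (L.subgroupOf H).index_ne_zero_of_finite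
  refine ⟨m, Nat.eq_of_mul_eq_mul_left (Nat.pos_of_ne_zero hpos) ?_⟩
  rw [h1, ← h2]; ring

theorem relIndex_dvd_of_subnormal [Finite G] (H : Subgroup G) {L : Subgroup G}
    (hL : L.IsSubnormal) : H.relIndex L ∣ H.index := by
  induction hL with
  | top => rw [relIndex_top_right]
  | step L K hle _ hN ih =>
    refine Dvd.dvd.trans ?_ ih
    rw [← relIndex_subgroupOf hle]
    exact relIndex_dvd_of_normal _ _

theorem IsHall.subgroupOf [Finite G] {H L : Subgroup G} (hH : IsHall π H) (hL : L.IsSubnormal) :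
    IsHall π (H.subgroupOf L) :=
  ⟨hH.1.comap_inj _ L.subtype_injective, fun p hp hm hd =>
    hH.2 p hp hm (hd.trans (relIndex_dvd_of_subnormal H hL))⟩

theorem IsHall.map {H : Subgroup G} (hH : IsHall π H) (f : G →* G')
    (hf : Function.Surjective f) : IsHall π (H.map f) :=
  ⟨hH.1.map f, fun p hp hm hd => hH.2 p hp hm (hd.trans (index_map_dvd H hf))⟩

theorem exists_conj_of_isPGroup [Finite G] {K Q : Subgroup G} {p : ℕ} (hp : p.Prime)
    (hK : ¬ p ∣ K.index) (hQ : IsPGroup p Q) : ∃ x : G, Q ≤ conjBy K x := by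
  have := Fact.mk hp
  obtain ⟨c, hc⟩ := hQ.nonempty_fixed_point_of_prime_not_dvd_card (G ⧸ K) hK
  obtain ⟨x, rfl⟩ := QuotientGroup.mk_surjective c
  refine ⟨x⁻¹, fun q hq => ?_⟩
  have h := hc ⟨q, hq⟩
  have h' : ((q * x : G) : G ⧸ K) = (x : G ⧸ K) := h
  rw [QuotientGroup.eq] at h'
  rw [mem_conjBy]
  have := K.inv_mem h'
  simpa [mul_assoc] using this

theorem card_lt_of_ne_top [Finite G] {N : Subgroup G} (h : N ≠ ⊤) : Nat.card N < Nat.card G :=
  lt_of_le_of_ne (card_le_card_group N) fun h' => h (eq_top_of_card_eq N h')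

universe u

theorem subnormal_le_OPi_aux (n : ℕ) : ∀ (G : Type u) [Group G] [Finite G], Nat.card G = n →
    ∀ X : Subgroup G, X.IsSubnormal → IsPi π X → X ≤ OPi π G := by
  induction n using Nat.strong_induction_on with
  | _ n ih =>
    intro G _ _ hn X hX hpi
    rcases hX.lt_normal with rfl | ⟨N, hN, hXN, hlt⟩
    · exact le_OPi inferInstance hpi
    · have hc : Nat.card N < n := by
        rw [← hn]
        exact card_lt_of_ne_top hlt.ne
      have h1 := ih _ hc N rfl (X.subgroupOf N) hX.subgroupOf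
        (hpi.comap_inj _ N.subtype_injective)
      have h2 : (OPi π N).map N.subtype ≤ OPi π G := le_OPi inferInstance (isPi_OPi.map _)
      refine le_trans ?_ h2
      rw [← map_subgroupOf_eq_of_le hXN]
      exact map_mono h1

theorem subnormal_le_OPi [Finite G] {X : Subgroup G} (h : X.IsSubnormal) (hpi : IsPi π X) :
    X ≤ OPi π G :=
  subnormal_le_OPi_aux _ G rfl X h hpi

theorem IsPi.isPGroup [Finite G] {K : Subgroup G} {p : ℕ} (hp : p.Prime)
    (hK : IsPi {p} K) : IsPGroup p K := by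
  have := Fact.mk hp
  rw [IsPGroup.iff_card]
  exact ⟨_, Nat.eq_prime_pow_of_unique_prime_dvd Nat.card_pos.ne'
    (fun hq hd => hK _ hq hd)⟩

end Pool.Agent.MP_983df8_al

end MrgPart0

-- ======== part 1: formerly Pool.Agent.MP_983df8_al.Dist
section MrgPart1

namespace Pool.Agent.MP_983df8_al

open Subgroup

theorem exists_irred (W : Type*) [Group W] [Finite W] : ∃ (m : ℕ) (e : ℕ → W),
    closure (e '' {i | i < m}) = ⊤ ∧ ∀ a < m, e a ∉ closure (e '' {i | i < m ∧ i ≠ a}) := by
  classical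
  have hex : ∃ m : ℕ, ∃ e : ℕ → W, closure (e '' {i | i < m}) = ⊤ := by
    obtain ⟨m, ⟨f⟩⟩ := Finite.exists_equiv_fin W
    refine ⟨m, fun i => if h : i < m then f.symm ⟨i, h⟩ else 1, ?_⟩
    rw [eq_top_iff]
    intro w _
    exact subset_closure ⟨(f w).1, (f w).2, by simp⟩
  obtain ⟨e, he⟩ := Nat.find_spec hex
  refine ⟨Nat.find hex, e, he, fun a ha hmem => ?_⟩
  refine Nat.find_min hex (m := Nat.find hex - 1) (by omega)
    ⟨fun i => if i < a then e i else e (i + 1), ?_⟩
  have hle : closure (e '' {i | i < Nat.find hex ∧ i ≠ a}) ≤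
      closure ((fun i => if i < a then e i else e (i + 1)) '' {i | i < Nat.find hex - 1}) := by
    refine closure_mono ?_
    rintro _ ⟨i, ⟨hi, hia⟩, rfl⟩
    by_cases h : i < a
    · exact ⟨i, by simp only [Set.mem_ofPred_eq]; omega, by simp [h]⟩
    · refine ⟨i - 1, by simp only [Set.mem_ofPred_eq]; omega, ?_⟩
      have h1 : ¬ i - 1 < a := by omega
      have h2 : i - 1 + 1 = i := by omega
      simp [h1, h2]
  refine eq_top_iff.2 (he.ge.trans ?_)
  rw [closure_le]
  rintro _ ⟨i, hi, rfl⟩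
  by_cases h : i = a
  · exact hle (h ▸ hmem)
  · exact hle (subset_closure ⟨i, ⟨hi, h⟩, rfl⟩)

theorem exists_rigid0 (W : Type*) [Group W] [Finite W] : ∃ col : W → Fin 5,
    (∀ w, col w = col 1 → w = 1) ∧
    ∀ φ : W →* W, Function.Injective φ → (∀ w, col (φ w) = col w) → ∀ w, φ w = w := by
  classical
  obtain ⟨m, e, hgen, hirr⟩ := exists_irred W
  have hmem : ∀ a i, i < m → i ≠ a → e i ∈ closure (e '' {i | i < m ∧ i ≠ a}) :=
    fun a i h1 h2 => subset_closure ⟨i, ⟨h1, h2⟩, rfl⟩
  have hne1 : ∀ i < m, e i ≠ 1 := fun i hi h => hirr i hi (h ▸ one_mem _)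
  have hinj : ∀ i < m, ∀ j < m, e i = e j → i = j := fun i hi j hj h => by
    by_contra hij
    exact hirr i hi (h ▸ hmem i j hj (Ne.symm hij))
  let col : W → Fin 5 := fun w => if w = 1 then 0 else if w = e 0 then 1 else
    if ∃ i < m, w = e i then 2 else if ∃ i, i + 1 < m ∧ w = e i * e (i + 1) then 3 else 4
  refine ⟨col, fun w hw => ?_, fun φ hφ hc => ?_⟩
  · by_contra h
    simp only [col, if_neg h, if_true] at hw
    split_ifs at hw <;> exact absurd hw (by decide)
  have hb : ∀ i < m, ∃ j < m, φ (e i) = e j := by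
    intro i hi
    have := hc (e i)
    simp only [col, if_neg (hne1 i hi), if_pos (⟨i, hi, rfl⟩ : ∃ j < m, e i = e j)] at this
    by_contra hcon
    have h0 : φ (e i) ≠ e 0 := fun h => hcon ⟨0, by omega, h⟩
    rw [if_neg h0, if_neg hcon] at this
    split_ifs at this <;> exact absurd this (by decide)
  have h0 : 0 < m → φ (e 0) = e 0 := by
    intro hm
    have := hc (e 0)
    simp only [col, if_neg (hne1 0 hm), if_true] at this
    by_contra hcon
    rw [if_neg hcon] at this
    split_ifs at this <;> exact absurd this (by decide)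
  have hs : ∀ i, i + 1 < m → ∃ l, l + 1 < m ∧ φ (e i * e (i + 1)) = e l * e (l + 1) := by
    intro i hi
    have h1 : e i * e (i + 1) ≠ 1 := fun h =>
      hirr i (by omega) (by
        rw [eq_inv_of_mul_eq_one_left h]
        exact inv_mem (hmem i (i + 1) hi (by omega)))
    have h2 : ¬ ∃ j < m, e i * e (i + 1) = e j := by
      rintro ⟨j, hj, h⟩
      by_cases hji : i = j
      · subst hji
        exact hne1 _ hi (by simpa using h)
      by_cases hji' : i + 1 = j
      · subst hji'
        exact hne1 i (by omega) (by simpa using h)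
      exact hirr j hj (h ▸ mul_mem (hmem j i (by omega) hji) (hmem j (i + 1) hi hji'))
    have h3 : e i * e (i + 1) ≠ e 0 := fun h => h2 ⟨0, by omega, h⟩
    have := hc (e i * e (i + 1))
    simp only [col, if_neg h1, if_neg h2, if_neg h3,
      if_pos (⟨i, hi, rfl⟩ : ∃ l, l + 1 < m ∧ e i * e (i + 1) = e l * e (l + 1))] at this
    by_contra hcon
    rw [if_neg hcon] at this
    split_ifs at this <;> exact absurd this (by decide)
  have hfix : ∀ i, i < m → φ (e i) = e i := by
    intro i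
    induction i using Nat.strong_induction_on with
    | _ i ih =>
      intro hi
      rcases i with _ | k
      · exact h0 hi
      obtain ⟨b, hbm, hbe⟩ := hb _ hi
      obtain ⟨l, hl, hle⟩ := hs k hi
      have hbk : k < b := by
        by_contra hcon
        have := hinj _ hbm _ hi (hφ ((ih b (by omega) hbm).trans hbe.symm))
        omega
      rw [map_mul, ih k (by omega) (by omega), hbe] at hle
      have hk : l = k ∨ l + 1 = k := by
        by_contra hcon
        push Not at hcon
        refine hirr k (by omega) ?_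
        rw [eq_mul_inv_of_mul_eq hle]
        exact mul_mem (mul_mem (hmem k l (by omega) hcon.1) (hmem k _ hl hcon.2))
          (inv_mem (hmem k b hbm (by omega)))
      have hb' : l = b ∨ l + 1 = b := by
        by_contra hcon
        push Not at hcon
        refine hirr b hbm ?_
        rw [eq_inv_mul_of_mul_eq hle]
        exact mul_mem (inv_mem (hmem b k (by omega) (by omega)))
          (mul_mem (hmem b l (by omega) hcon.1) (hmem b _ hl hcon.2))
      have : b = k + 1 := by omega
      rw [hbe, this]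
  intro w
  have hw : w ∈ closure (e '' {i | i < m}) := hgen ▸ mem_top w
  induction hw using closure_induction with
  | mem x hx => obtain ⟨i, hi, rfl⟩ := hx; exact hfix i hi
  | one => exact map_one φ
  | mul x y _ _ hx hy => rw [map_mul, hx, hy]
  | inv x _ hx => rw [map_inv, hx]

/-- sum of the colours that occur -/
noncomputable def csum (I : Set (ZMod 7)) : ZMod 7 := ∑ a ∈ (Set.toFinite I).toFinset, a

theorem iota_inj : Function.Injective fun a : Fin 5 => (a.1 : ZMod 7) := by decide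

theorem exists_rigid (W : Type*) [Group W] [Finite W] (γ : ZMod 7) : ∃ col : W → ZMod 7,
    csum (Set.range col) = γ ∧ (∀ w, col w = col 1 → w = 1) ∧
    ∀ φ : W →* W, Function.Injective φ → (∀ w, col (φ w) = col w) → ∀ w, φ w = w := by
  classical
  obtain ⟨c, h1, h2⟩ := exists_rigid0 W
  have := Fintype.ofFinite W
  have : Fact (Nat.Prime 7) := ⟨by norm_num⟩
  let ι : Fin 5 → ZMod 7 := fun a => (a.1 : ZMod 7)
  have hι : Function.Injective ι := iota_inj
  let J : Finset (Fin 5) := Finset.univ.image c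
  have hJ : ((J.card : ℕ) : ZMod 7) ≠ 0 := by
    have a1 : 0 < J.card := Finset.card_pos.2 ⟨c 1, Finset.mem_image_of_mem _ (Finset.mem_univ _)⟩
    have a2 : J.card ≤ 5 := (Finset.card_le_univ J).trans (by simp)
    rw [Ne, ZMod.natCast_eq_zero_iff]
    omega
  let t : ZMod 7 := (γ - ∑ a ∈ J, ι a) / (J.card : ℕ)
  have hinj : Function.Injective fun a => ι a + t := fun a b h => hι (add_right_cancel h)
  refine ⟨fun w => ι (c w) + t, ?_, fun w hw => h1 w (hinj hw), fun φ hφ hc =>
    h2 φ hφ fun w => hinj (hc w)⟩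
  have : (Set.toFinite (Set.range fun w => ι (c w) + t)).toFinset = J.image fun a => ι a + t := by
    ext x
    simp [J]
  unfold csum
  rw [this, Finset.sum_image fun a _ b _ h => hinj h,
    Finset.sum_add_distrib, Finset.sum_const, nsmul_eq_mul]
  simp only [t]
  field_simp
  ring

variable {H : Type*} [Group H]

theorem exists_rigid_orbit [Finite H] {Ω : Type*} [MulAction H Ω] (V : Subgroup H) [V.Normal]
    (hV : ∀ a ∈ V, ∀ b ∈ V, ∀ ω : Ω, (a * b * a⁻¹ * b⁻¹) • ω = ω) (δ : Ω) (γ : ZMod 7) :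
    ∃ c : V → ZMod 7, (∀ v v' : V, (v : H) • δ = (v' : H) • δ → c v = c v') ∧
      csum (Set.range c) = γ ∧ (∀ v : V, c v = c 1 → (v : H) • δ = δ) ∧
      ∀ h : H, h • δ = δ → (∀ v : V, c (MulAut.conjNormal h v) = c v) →
        ∀ v : V, h • (v : H) • δ = (v : H) • δ := by
  let K : Subgroup V := (MulAction.stabilizer H δ).subgroupOf V
  have hK : ∀ v : V, v ∈ K ↔ (v : H) • δ = δ := fun v => Iff.rfl
  have hn : K.Normal := by
    refine ⟨fun k hk v => ?_⟩
    rw [hK] at hk ⊢
    have := hV v v.2 k k.2 ((k : H) • δ)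
    rw [← mul_smul, inv_mul_cancel_right, hk] at this
    exact this
  have heq : ∀ v v' : V, (v : V ⧸ K) = (v' : V ⧸ K) ↔ (v : H) • δ = (v' : H) • δ := by
    intro v v'
    rw [QuotientGroup.eq, hK, Subgroup.coe_mul, mul_smul, Subgroup.coe_inv, inv_smul_eq_iff,
      eq_comm]
  obtain ⟨col, h1, h2, h3⟩ := exists_rigid (V ⧸ K) γ
  refine ⟨fun v => col (v : V ⧸ K), fun v v' h => congrArg col ((heq v v').2 h), ?_,
    fun v hv => (hK v).1 ((QuotientGroup.eq_one_iff v).1 (h2 _ hv)), fun h hh hc v => ?_⟩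
  · rw [← h1]
    congr 1
    exact (QuotientGroup.mk_surjective (s := K)).range_comp col
  have hconj : ∀ v : V, ((MulAut.conjNormal h v : V) : H) • δ = h • (v : H) • δ := by
    intro v
    rw [MulAut.conjNormal_apply, mul_smul, mul_smul, inv_smul_eq_iff.2 hh.symm]
  let φ : V ⧸ K →* V ⧸ K := QuotientGroup.map K K (MulAut.conjNormal h : MulAut V).toMonoidHom
    (fun k hk => by
      rw [mem_comap, hK]
      exact (hconj k).trans (by rw [(hK k).1 hk, hh]))
  have hφ : ∀ v : V, φ (v : V ⧸ K) = ((MulAut.conjNormal h v : V) : V ⧸ K) := fun v => rfl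
  have := h3 φ (fun a b hab => by
      obtain ⟨a, rfl⟩ := QuotientGroup.mk_surjective a
      obtain ⟨b, rfl⟩ := QuotientGroup.mk_surjective b
      rw [hφ, hφ, heq, hconj, hconj] at hab
      exact (heq a b).2 (MulAction.injective h hab))
    (fun a => by
      obtain ⟨a, rfl⟩ := QuotientGroup.mk_surjective a
      exact hc a) (v : V ⧸ K)
  rw [hφ, heq, hconj] at this
  exact this

universe u

theorem exists_distinguishing_aux [Finite H] (n : ℕ) : ∀ (Ω : Type u) [MulAction H Ω],
    (∀ v ∈ derivedSeries H n, ∀ ω : Ω, v • ω = ω) →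
    ∃ col : Ω → ZMod 7, ∀ h : H, (∀ ω, col (h • ω) = col ω) → ∀ ω : Ω, h • ω = ω := by
  induction n with
  | zero => exact fun Ω _ hΩ => ⟨fun _ => 0, fun h _ => hΩ h (mem_top h)⟩
  | succ n ih =>
    intro Ω _ hΩ
    let V := derivedSeries H n
    have hVn : V.Normal := derivedSeries_normal H n
    let r : Setoid Ω := ⟨fun a b => ∃ v : V, (v : H) • b = a, ⟨fun a => ⟨1, by simp⟩,
      fun ⟨v, hv⟩ => ⟨v⁻¹, by simp [← hv]⟩,
      fun ⟨v, hv⟩ ⟨w, hw⟩ => ⟨v * w, by simp [mul_smul, hw, hv]⟩⟩⟩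
    let act : MulAction H (Quotient r) :=
      { smul := fun h => Quotient.map (fun ω => h • ω) (fun a b ⟨v, hv⟩ =>
          ⟨MulAut.conjNormal h v, by simp [mul_smul, hv]⟩)
        one_smul := fun q => Quotient.inductionOn q fun a => congrArg (Quotient.mk r) (one_smul H a)
        mul_smul := fun g h q => Quotient.inductionOn q fun a =>
          congrArg (Quotient.mk r) (mul_smul g h a) }
    have hact : ∀ (h : H) (a : Ω), h • (Quotient.mk r a) = Quotient.mk r (h • a) :=
      fun _ _ => rfl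
    obtain ⟨γ, hγ⟩ := ih (Quotient r) fun v hv q => Quotient.inductionOn q fun a =>
      Quotient.sound ⟨⟨v, hv⟩, rfl⟩
    have hV : ∀ a ∈ V, ∀ b ∈ V, ∀ ω : Ω, (a * b * a⁻¹ * b⁻¹) • ω = ω := fun a ha b hb ω =>
      hΩ _ (commutator_mem_commutator ha hb) ω
    choose c c0 c1 c2 c3 using fun q : Quotient r => exists_rigid_orbit V hV q.out (γ q)
    have hrep : ∀ ω : Ω, ∃ v : V, (v : H) • (Quotient.mk r ω).out = ω := fun ω =>
      r.symm (Quotient.mk_out ω)
    choose u hu using hrep
    let col : Ω → ZMod 7 := fun ω => c (Quotient.mk r ω) (u ω)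
    have hmk : ∀ (q : Quotient r) (v : V), Quotient.mk r ((v : H) • q.out) = q := fun q v =>
      (Quotient.sound (s := r) ⟨v, rfl⟩).trans q.out_eq
    have hcol : ∀ (q : Quotient r) (v : V), col ((v : H) • q.out) = c q v := by
      intro q v
      have := hu ((v : H) • q.out)
      simp only [col]
      rw [hmk] at this ⊢
      exact c0 q _ _ this
    have hrange : ∀ q, Set.range (c q) = col '' {ω | Quotient.mk r ω = q} := by
      intro q
      ext x
      constructor
      · rintro ⟨v, rfl⟩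
        exact ⟨_, hmk q v, hcol q v⟩
      · rintro ⟨ω, rfl, rfl⟩
        exact ⟨u ω, rfl⟩
    refine ⟨col, fun h hh ω => ?_⟩
    have htriv := hγ h fun q => by
      rw [← c1, ← c1, hrange, hrange]
      congr 1
      ext x
      constructor
      · rintro ⟨a, ha, rfl⟩
        refine ⟨h⁻¹ • a, ?_, by rw [← hh, smul_inv_smul]⟩
        rw [Set.mem_ofPred_eq] at ha ⊢
        rw [← hact, ha, inv_smul_smul]
      · rintro ⟨a, ha, rfl⟩
        refine ⟨h • a, ?_, hh a⟩
        rw [Set.mem_ofPred_eq] at ha ⊢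
        rw [← hact, ha]
    set q := Quotient.mk r ω
    have h0 : h • q.out = q.out := by
      have a1 := hu (h • q.out)
      rw [← hact, q.out_eq, htriv] at a1
      have a2 := hh q.out
      have a3 := hcol q 1
      rw [← a1, hcol] at a2
      rw [OneMemClass.coe_one, one_smul] at a3
      rw [← a1]
      exact c2 q _ (a2.trans a3)
    have := c3 q h h0 (fun v => by
      rw [← hcol, ← hcol, MulAut.conjNormal_apply, mul_smul, mul_smul,
        inv_smul_eq_iff.2 h0.symm, hh]) (u ω)
    rwa [hu ω] at this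

theorem exists_distinguishing [Finite H] [hH : Group.IsSolvable H] (Ω : Type*) [MulAction H Ω] :
    ∃ col : Ω → ZMod 7, ∀ h : H, (∀ ω, col (h • ω) = col ω) → ∀ ω : Ω, h • ω = ω := by
  obtain ⟨n, hn⟩ := hH.1
  exact exists_distinguishing_aux n Ω fun v hv ω => by
    rw [hn, mem_bot] at hv
    rw [hv, one_smul]

end Pool.Agent.MP_983df8_al

end MrgPart1

-- ======== part 2: formerly Pool.Agent.MP_983df8_al.Comp
section MrgPart2

namespace Pool.Agent.MP_983df8_al

open Subgroup

variable {G : Type*} [Group G]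

/-- non-abelian simple subnormal subgroup -/
def IsComp (S : Subgroup G) : Prop :=
  S.IsSubnormal ∧ IsSimpleGroup S ∧ ¬ IsMulCommutative S

theorem IsComp.perfect {S : Subgroup G} (h : IsComp S) : ⁅S, S⁆ = S := by
  have := h.2.1
  rcases (inferInstance : (_root_.commutator S).Normal).eq_bot_or_eq_top with h1 | h1
  · exact absurd ((commutator_eq_bot_iff S).1 h1) h.2.2
  · rw [← map_subtype_commutator, h1, ← MonoidHom.range_eq_map, range_subtype]

theorem IsComp.ne_bot {S : Subgroup G} (h : IsComp S) : S ≠ ⊥ := by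
  have := h.2.1
  exact (nontrivial_iff_ne_bot S).1 inferInstance

theorem comm_of_inf_aux {S N : Subgroup G} (hS : ⁅S, S⁆ = S)
    (hN : ∀ s ∈ S, ∀ x ∈ N, s * x * s⁻¹ ∈ N) {L : Subgroup G} (hL : L.IsSubnormal) :
    S ≤ L → ⁅S, N ⊓ L⁆ = ⊥ → ⁅S, N⁆ = ⊥ := by
  induction hL with
  | top => intro _ h; simpa using h
  | step L K hle _ hn ih =>
    intro hSL h
    refine ih (hSL.trans hle) ?_
    have hn' := (normal_subgroupOf_iff hle).1 hn
    have key : ⁅S, N ⊓ K⁆ ≤ N ⊓ L := by
      rw [commutator_le]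
      intro s hs x hx
      refine ⟨?_, ?_⟩
      · exact N.mul_mem (hN s hs x hx.1) (N.inv_mem hx.1)
      · have := L.mul_mem (hSL hs) (hn' s⁻¹ x (L.inv_mem (hSL hs)) hx.2)
        simpa [commutatorElement_def, mul_assoc] using this
    have h1 : ⁅⁅S, N ⊓ K⁆, S⁆ = ⊥ := by
      rw [commutator_comm, eq_bot_iff, ← h]
      exact commutator_mono le_rfl key
    have h2 : ⁅⁅N ⊓ K, S⁆, S⁆ = ⊥ := by rw [commutator_comm (N ⊓ K)]; exact h1
    have := commutator_commutator_eq_bot_of_rotate h1 h2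
    rwa [hS] at this

theorem IsComp.le_or {S : Subgroup G} (hS : IsComp S) {T : Subgroup G} (hT : T.IsSubnormal) :
    S ≤ T ∨ ⁅S, T⁆ = ⊥ := by
  induction hT with
  | top => exact Or.inl le_top
  | step T K hle _ hn ih =>
    rcases ih with ih | ih
    · have hn' := (normal_subgroupOf_iff hle).1 hn
      have := hS.2.1
      have hnorm : (T.subgroupOf S).Normal :=
        ⟨fun x hx s => hn' x s hx (ih s.2)⟩
      rcases hnorm.eq_bot_or_eq_top with h1 | h1
      · right
        refine comm_of_inf_aux hS.perfect (fun s hs x hx => hn' x s hx (ih hs)) hS.1 le_rfl ?_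
        rw [subgroupOf_eq_bot, disjoint_iff] at h1
        rw [h1, commutator_bot_right]
      · exact Or.inl (subgroupOf_eq_top.1 h1)
    · right
      rw [eq_bot_iff, ← ih]
      exact commutator_mono le_rfl hle

theorem IsComp.commute {S T : Subgroup G} (hS : IsComp S) (hT : IsComp T) (hne : S ≠ T)
    {s t : G} (hs : s ∈ S) (ht : t ∈ T) : Commute s t := by
  rcases hS.le_or hT.1 with h | h
  · exfalso
    rcases IsSubnormal.eq_bot_or_top_of_isSimpleGroup hT.2.1
      (hS.1.subgroupOf (K := T)) with h1 | h1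
    · rw [subgroupOf_eq_bot, disjoint_iff, inf_eq_left.2 h] at h1
      exact hS.ne_bot h1
    · exact hne (le_antisymm h (subgroupOf_eq_top.1 h1))
  · rw [commutator_eq_bot_iff_le_centralizer] at h
    exact ((mem_centralizer_iff.1 (h hs)) t ht).symm

theorem IsComp.map_equiv {S : Subgroup G} (hS : IsComp S) (φ : G ≃* G) :
    IsComp (S.map φ.toMonoidHom) := by
  have := hS.2.1
  refine ⟨hS.1.map φ.surjective, (φ.subgroupMap S).symm.isSimpleGroup, fun h => hS.2.2 ?_⟩
  refine ⟨⟨fun a b => (φ.subgroupMap S).injective ?_⟩⟩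
  rw [map_mul, map_mul]
  exact h.1.1 _ _

theorem exists_comp_le [Finite G] (hR : RadicalTrivial G) {C : Subgroup G} (hC : C.IsSubnormal)
    (hne : C ≠ ⊥) : ∃ S, IsComp S ∧ S ≤ C := by
  obtain ⟨X, hX⟩ := exists_minimal_of_wellFoundedLT
    (fun X : Subgroup G => X.IsSubnormal ∧ X ≠ ⊥ ∧ X ≤ C) ⟨C, hC, hne, le_rfl⟩
  obtain ⟨h1, h2, h3⟩ := hX.prop
  have hnt : Nontrivial X := (nontrivial_iff_ne_bot X).2 h2
  have hsimple : IsSimpleGroup X := by
    refine ⟨fun Y hY => ?_⟩
    by_cases hb : Y = ⊥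
    · exact Or.inl hb
    · right
      have hY' : Y.map X.subtype ≠ ⊥ := fun h =>
        hb ((map_eq_bot_iff_of_injective Y X.subtype_injective).1 h)
      have := hX.le_of_le ⟨hY.isSubnormal.trans' h1, hY', (map_subtype_le Y).trans h3⟩
        (map_subtype_le Y)
      rw [eq_top_iff]
      intro x _
      obtain ⟨y, hy, hxy⟩ := this x.2
      rwa [← show y = x from Subtype.ext hxy]
  refine ⟨X, ⟨h1, hsimple, fun hc => ?_⟩, h3⟩
  let _ : CommGroup X := { (inferInstance : Group X) with mul_comm := hc.1.1 }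
  have hp : (Nat.card X).Prime := IsSimpleGroup.prime_card
  have hpi : IsPi {Nat.card X} X := fun q hq hd => (Nat.prime_dvd_prime_iff_eq hq hp).1 hd
  have := Fact.mk hp
  have hnil := (isPi_OPi (π := {Nat.card X}) (G := G)).isPGroup hp |>.isNilpotent
  have hbot := hR (OPi {Nat.card X} G) inferInstance inferInstance
  exact h2 (eq_bot_iff.2 (hbot ▸ subnormal_le_OPi h1 hpi))

theorem eq_one_of_centralizes [Finite G] (hR : RadicalTrivial G) {g : G}
    (hg : ∀ S : Subgroup G, IsComp S → ∀ s ∈ S, Commute g s) : g = 1 := by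
  let C : Subgroup G :=
    { carrier := {g | ∀ S : Subgroup G, IsComp S → ∀ s ∈ S, Commute g s}
      mul_mem' := fun ha hb S hS s hs => (ha S hS s hs).mul_left (hb S hS s hs)
      one_mem' := fun _ _ s _ => Commute.one_left s
      inv_mem' := fun ha S hS s hs => (ha S hS s hs).inv_left }
  have hC : C.Normal := by
    refine ⟨fun a ha x S hS s hs => ?_⟩
    have := ha _ (hS.map_equiv (MulAut.conj x⁻¹)) (x⁻¹ * s * x) ⟨s, hs, by simp⟩
    have h2 := congrArg (fun t => x * t * x⁻¹) this.eq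
    simpa [Commute, SemiconjBy, mul_assoc] using h2
  by_contra hne
  have hb : C ≠ ⊥ := fun h => hne ((mem_bot).1 (h ▸ (show g ∈ C from hg)))
  obtain ⟨S, hS, hle⟩ := exists_comp_le hR hC.isSubnormal hb
  exact hS.2.2 ⟨⟨fun a b => Subtype.ext (hle a.2 S hS b b.2).eq⟩⟩

end Pool.Agent.MP_983df8_al

end MrgPart2

-- ======== part 3: formerly Pool.Agent.MP_983df8_al.Glue
section MrgPart3

namespace Pool.Agent.MP_983df8_al

open Subgroup

variable {G : Type*} [Group G]

/-- seven inequivalent regular tuples in `R` for the action of the normaliser of `R` in `H` -/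
def LocG (ι : Type) (H R : Subgroup G) : Prop :=
  ∃ x : ι → ZMod 7 → G, (∀ a i, x a i ∈ R) ∧ ∀ n ∈ H, ∀ i j, (∀ s ∈ R, n * s * n⁻¹ ∈ R) →
    (∀ a, ∃ n' ∈ H, ∀ s ∈ R,
      n' * s * n'⁻¹ = (x a i * n * (x a j)⁻¹) * s * (x a i * n * (x a j)⁻¹)⁻¹) →
    i = j ∧ ∀ s ∈ R, Commute n s

/-- conjugation action on the components -/
@[reducible] def compAct (H : Subgroup G) : MulAction H {S : Subgroup G // IsComp S} where
  smul h S := ⟨S.1.map (MulAut.conj (h : G)).toMonoidHom, S.2.map_equiv _⟩
  one_smul S := Subtype.ext (by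
    show S.1.map _ = S.1
    ext g
    simp)
  mul_smul a b S := Subtype.ext (by
    show S.1.map _ = (S.1.map _).map _
    ext g
    simp [mul_assoc])

theorem exists_glued [Finite G] (f : {S : Subgroup G // IsComp S} → G) (hf : ∀ S, f S ∈ S.1) :
    ∃ X : G, ∀ S : {S : Subgroup G // IsComp S}, ∀ s ∈ S.1, X * s * X⁻¹ = f S * s * (f S)⁻¹ := by
  classical
  have := Fintype.ofFinite {S : Subgroup G // IsComp S}
  have hc : ∀ S T : {S : Subgroup G // IsComp S}, S ≠ T → ∀ s ∈ S.1, Commute s (f T) :=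
    fun S T h s hs => S.2.commute T.2 (fun e => h (Subtype.ext e)) hs (hf T)
  refine ⟨Finset.univ.noncommProd f fun S _ T _ h => hc S T h _ (hf S), fun S s hs => ?_⟩
  rw [← Finset.mul_noncommProd_erase _ (Finset.mem_univ S), mul_assoc (f S),
    ← (Finset.noncommProd_commute _ f _ s fun T hT =>
      hc S T (Finset.ne_of_mem_erase hT).symm s hs).eq]
  simp [mul_assoc]

theorem glue [Finite G] (hR : RadicalTrivial G) {ι : Type} {H : Subgroup G} [Group.IsSolvable H]
    (hL : ∀ R, IsComp R → LocG ι H R) :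
    ∃ X : ι → G, ∀ k ∈ H, (∀ a, X a * k * (X a)⁻¹ ∈ H) → k = 1 := by
  let _ := compAct H
  have hmem : ∀ (h : H) (S : {S : Subgroup G // IsComp S}) (g : G),
      g ∈ (h • S).1 ↔ (h : G)⁻¹ * g * h ∈ S.1 := fun h S g => by
    show g ∈ S.1.map _ ↔ _
    rw [mem_map_equiv]
    rfl
  obtain ⟨col, hcol⟩ := exists_distinguishing (H := H) {S : Subgroup G // IsComp S}
  choose x hx hx' using fun R : {S : Subgroup G // IsComp S} => hL R.1 R.2
  let r := MulAction.orbitRel H {S : Subgroup G // IsComp S}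
  let rep := fun S : {S : Subgroup G // IsComp S} => (Quotient.mk r S).out
  have hrep : ∀ S, ∃ u : H, u • rep S = S := fun S => r.symm (Quotient.mk_out S)
  choose u hu using hrep
  have hu' : ∀ S g, g ∈ (rep S).1 → (u S : G) * g * (u S : G)⁻¹ ∈ S.1 := fun S g hg => by
    have := (hmem (u S) (rep S) ((u S : G) * g * (u S : G)⁻¹)).2 (by simpa [mul_assoc] using hg)
    rwa [hu] at this
  choose X hX using fun a => exists_glued
    (fun S => (u S : G) * x (rep S) a (col S) * (u S : G)⁻¹) fun S => hu' S _ (hx _ _ _)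
  refine ⟨X, fun k hk hXk => ?_⟩
  have key : ∀ S, col ((⟨k, hk⟩ : H) • S) = col S ∧
      ∀ s ∈ (rep S).1, Commute ((u ((⟨k, hk⟩ : H) • S) : G)⁻¹ * k * u S) s := by
    intro S
    set T := (⟨k, hk⟩ : H) • S with hT
    have hrT : rep T = rep S := congrArg Quotient.out (Quotient.sound (s := r) ⟨⟨k, hk⟩, rfl⟩)
    have hkS : ∀ g ∈ S.1, k * g * k⁻¹ ∈ T.1 := fun g hg =>
      (hmem _ S _).2 (by simpa [mul_assoc] using hg)
    refine hx' (rep S) _ (H.mul_mem (H.mul_mem (H.inv_mem (u T).2) hk) (u S).2) _ _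
      (fun s hs => ?_) fun a => ⟨(u T : G)⁻¹ * (X a * k * (X a)⁻¹) * u S,
        H.mul_mem (H.mul_mem (H.inv_mem (u T).2) (hXk a)) (u S).2, fun s hs => ?_⟩
    · have := hkS _ (hu' S s hs)
      rw [← hu T, hmem, hrT] at this
      simpa [mul_assoc] using this
    · have m1 := hu' S _ ((rep S).1.mul_mem ((rep S).1.mul_mem ((rep S).1.inv_mem
        (hx (rep S) a (col S))) hs) (hx (rep S) a (col S)))
      have e1 := hX a S _ m1
      have e2 := hX a T _ (hkS _ m1)
      rw [hrT] at e2
      have e3 : (u S : G) * ((x (rep S) a (col S))⁻¹ * s * x (rep S) a (col S)) * (u S : G)⁻¹ =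
          (X a)⁻¹ * (u S * s * (u S : G)⁻¹) * X a := by
        rw [mul_assoc (X a)⁻¹, eq_inv_mul_iff_mul_eq, ← mul_inv_eq_iff_eq_mul, e1]
        group
      calc _ = (u T : G)⁻¹ * (X a * (k * ((X a)⁻¹ * (u S * s * (u S : G)⁻¹) * X a) * k⁻¹) *
            (X a)⁻¹) * u T := by group
        _ = _ := by rw [← e3, e2]; group
  have htriv := hcol ⟨k, hk⟩ fun S => (key S).1
  refine eq_one_of_centralizes hR fun S hS s hs => ?_
  have h1 := (key ⟨S, hS⟩).2 ((u ⟨S, hS⟩ : G)⁻¹ * s * u ⟨S, hS⟩)
    ((hmem _ _ _).1 (by rw [hu]; exact hs))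
  rw [htriv] at h1
  have := congrArg (fun t => (u ⟨S, hS⟩ : G) * t * (u ⟨S, hS⟩ : G)⁻¹) h1.eq
  simpa [Commute, SemiconjBy, mul_assoc] using this

/-- the automorphisms of `R` induced by its normaliser in `H` -/
def autOf (H R : Subgroup G) : Subgroup (MulAut R) :=
  (H.subgroupOf (normalizer (R : Set G))).map R.normalizerMonoidHom

theorem IsPi.autOf [Finite G] {π : Set ℕ} {H : Subgroup G} (h : IsPi π H) (R : Subgroup G) :
    IsPi π (autOf H R) :=
  (h.comap_inj _ (Subgroup.subtype_injective _)).map _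

theorem locG_of_aut [Finite G] {ι : Type} {H R : Subgroup G} (x : ι → ZMod 7 → R)
    (h : ∀ β ∈ autOf H R, ∀ i j,
      (∀ a, MulAut.conj (x a i) * β * (MulAut.conj (x a j))⁻¹ ∈ autOf H R) → i = j ∧ β = 1) :
    LocG ι H R := by
  refine ⟨fun a i => x a i, fun a i => (x a i).2, fun n hn i j h1 h2 => ?_⟩
  have hn' : n ∈ normalizer (R : Set G) := mem_normalizer_fintype h1
  have := h (R.normalizerMonoidHom ⟨n, hn'⟩) ⟨⟨n, hn'⟩, hn, rfl⟩ i j fun a => by
    obtain ⟨n', a1, a2⟩ := h2 a
    have a3 : n' ∈ normalizer (R : Set G) := mem_normalizer_fintype fun s hs => by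
      rw [a2 s hs]
      have := R.mul_mem (R.mul_mem (x a i).2 (h1 _ (R.mul_mem (R.mul_mem (R.inv_mem (x a j).2) hs)
        (x a j).2))) (R.inv_mem (x a i).2)
      simpa [mul_assoc] using this
    refine ⟨⟨n', a3⟩, a1, ?_⟩
    ext s
    refine (a2 s s.2).trans ?_
    show _ = (x a i : G) * (n * ((x a j : G)⁻¹ * s * (x a j : G)) * n⁻¹) * (x a i : G)⁻¹
    group
  refine ⟨this.1, fun s hs => ?_⟩
  have e := congrArg Subtype.val (DFunLike.congr_fun this.2 (⟨s, hs⟩ : R))
  exact mul_inv_eq_iff_eq_mul.1 (show n * s * n⁻¹ = s from e)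

end Pool.Agent.MP_983df8_al

end MrgPart3

-- ======== part 4: formerly Pool.Agent.MP_983df8_al.Full
section MrgPart4

namespace Pool.Agent.MP_983df8_al

open Subgroup Equiv Equiv.Perm

variable {α : Type*} [Fintype α] [DecidableEq α]

/-- `K` contains every even permutation supported in `U`. -/
def Full (K : Subgroup (Perm α)) (U : Finset α) : Prop :=
  ∀ σ : Perm α, σ.support ⊆ U → sign σ = 1 → σ ∈ K

variable {K : Subgroup (Perm α)} {U B B' : Finset α}

theorem Full.swap_mem (h : Full K U) {a b c d : α} (ha : a ∈ U) (hb : b ∈ U) (hc : c ∈ U)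
    (hd : d ∈ U) (hab : a ≠ b) (hcd : c ≠ d) : swap a b * swap c d ∈ K := by
  refine h _ ((support_mul_le _ _).trans ?_) (by simp [hab, hcd])
  rw [support_swap hab, support_swap hcd]
  intro x hx
  simp only [Finset.sup_eq_union, Finset.mem_union, Finset.mem_insert, Finset.mem_singleton] at hx
  rcases hx with (rfl | rfl) | rfl | rfl <;> assumption

theorem full_of_base {o : α}
    (h : ∀ x ∈ U, ∀ y ∈ U, x ≠ o → y ≠ o → swap o x * swap o y ∈ K) : Full K U := by
  have A : ∀ x ∈ U, ∀ y ∈ U, x ≠ y → ∀ z ∈ U, z ≠ o → swap x y * swap o z ∈ K := by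
    intro x hx y hy hxy z hz hzo
    by_cases h1 : x = o
    · subst h1; exact h y hy z hz hxy.symm hzo
    by_cases h2 : y = o
    · subst h2; rw [swap_comm]; exact h x hx z hz hxy hzo
    have : swap x y = swap o x * swap o y * swap o x := by
      rw [swap_comm o y, swap_mul_swap_mul_swap h2 (Ne.symm hxy)]
    rw [this, mul_assoc]
    exact K.mul_mem (h x hx y hy h1 h2) (h x hx z hz h1 hzo)
  have Bq : ∀ x ∈ U, ∀ y ∈ U, x ≠ y → ∀ u ∈ U, ∀ v ∈ U, u ≠ v → swap x y * swap u v ∈ K := by
    intro x hx y hy hxy u hu v hv huv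
    obtain ⟨z, hz, hzo⟩ : ∃ z ∈ U, z ≠ o := by
      by_cases h1 : x = o
      · exact ⟨y, hy, h1 ▸ hxy.symm⟩
      · exact ⟨x, hx, h1⟩
    have := K.mul_mem (A x hx y hy hxy z hz hzo) (K.inv_mem (A u hu v hv huv z hz hzo))
    simpa [mul_assoc] using this
  intro σ hσ hs
  have h1 : σ ∈ (alternatingGroup U).map (ofSubtype : Perm U →* Perm α) := by
    rw [alternatingGroup.map_ofSubtype]
    exact ⟨mem_range_ofSubtype_iff.2 (by exact_mod_cast hσ), hs⟩
  refine (map_le_iff_le_comap.2 ?_ : _ ≤ K) h1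
  rw [← closure_three_cycles_eq_alternating, closure_le]
  intro g (hg : IsThreeCycle g)
  obtain ⟨a, ha⟩ : g.support.Nonempty := Finset.card_pos.1 (by rw [hg.card_support]; norm_num)
  have hga : g a ∈ g.support := apply_mem_support.2 ha
  rw [SetLike.mem_coe, mem_comap, hg.eq_swap_mul_swap_iff_mem_support.2 ha, map_mul,
    ofSubtype_swap_eq, ofSubtype_swap_eq]
  exact Bq _ a.2 _ (g a).2 (fun h => mem_support.1 ha (Subtype.ext h).symm) _ (g a).2 _ (g (g a)).2
    (fun h => mem_support.1 hga (Subtype.ext h).symm)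

theorem Full.image (h : Full K U) {g : Perm α} (hg : g ∈ K) : Full K (U.image g) := by
  intro σ hσ hs
  have := h (g⁻¹ * σ * g) (fun x hx => by
    have h1 : g x ∈ σ.support := by
      rw [mem_support] at hx ⊢
      intro h2
      exact hx (by simp [h2])
    obtain ⟨y, hy, hxy⟩ := Finset.mem_image.1 (hσ h1)
    exact g.injective hxy ▸ hy) (by simp [hs])
  have h2 := K.mul_mem (K.mul_mem hg this) (K.inv_mem hg)
  simpa [mul_assoc] using h2

theorem Full.mono (h : Full K U) (hB : B ⊆ U) : Full K B :=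
  fun σ hσ hs => h σ (hσ.trans hB) hs

theorem Full.union2 (h : Full K B) (h' : Full K B') {o o' : α} (hne : o ≠ o') (h1 : o ∈ B)
    (h2 : o' ∈ B) (h1' : o ∈ B') (h2' : o' ∈ B') : Full K (B ∪ B') := by
  have A : ∀ x ∈ B ∪ B', x ≠ o → swap o x * swap o o' ∈ K := by
    intro x hx hxo
    rcases Finset.mem_union.1 hx with hx | hx
    · exact h.swap_mem h1 hx h1 h2 hxo.symm hne
    · exact h'.swap_mem h1' hx h1' h2' hxo.symm hne
  refine full_of_base (o := o) fun x hx y hy hxo hyo => ?_
  have := K.mul_mem (A x hx hxo) (K.inv_mem (A y hy hyo))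
  simpa [mul_assoc] using this

omit [Fintype α] in
theorem exists_third (hB : 3 ≤ B.card) (a b : α) : ∃ c ∈ B, c ≠ a ∧ c ≠ b := by
  by_contra hcon
  push Not at hcon
  have : B ⊆ {a, b} := fun c hc => by
    by_cases h : c = a
    · simp [h]
    · simp [hcon c hc h]
  have := (Finset.card_le_card this).trans (Finset.card_le_two (a := a) (b := b))
  omega

theorem Full.union1 (h : Full K B) (h' : Full K B') (hB : 3 ≤ B.card) (hB' : 3 ≤ B'.card) {o : α}
    (h1 : o ∈ B) (h1' : o ∈ B') : Full K (B ∪ B') := by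
  by_cases hex : ∃ o', o' ≠ o ∧ o' ∈ B ∧ o' ∈ B'
  · obtain ⟨o', a1, a2, a3⟩ := hex
    exact h.union2 h' a1.symm h1 a2 h1' a3
  push Not at hex
  have A : ∀ x ∈ B, ∀ y ∈ B', x ≠ o → y ≠ o → swap o x * swap o y ∈ K := by
    intro x hx y hy hxo hyo
    obtain ⟨x', hx', hx1, hx2⟩ := exists_third hB o x
    obtain ⟨y', hy', hy1, hy2⟩ := exists_third hB' o y
    have hg : swap o x * swap x x' ∈ K := h.swap_mem h1 hx hx hx' hxo.symm hx2.symm
    have hfix : ∀ z ∈ B', z ≠ o → (swap o x * swap x x') z = z := by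
      intro z hz hzo
      have a1 : z ≠ x := fun e => hex x hxo hx (e ▸ hz)
      have a2 : z ≠ x' := fun e => hex x' hx1 hx' (e ▸ hz)
      rw [mul_apply, swap_apply_of_ne_of_ne a1 a2, swap_apply_of_ne_of_ne hzo a1]
    have hox : (swap o x * swap x x') o = x := by
      rw [mul_apply, swap_apply_of_ne_of_ne hxo.symm hx1.symm, swap_apply_left]
    have := h'.union2 (h'.image hg) hy2 hy' hy
      (Finset.mem_image.2 ⟨y', hy', hfix y' hy' hy1⟩) (Finset.mem_image.2 ⟨y, hy, hfix y hy hyo⟩)
    exact this.swap_mem (Finset.mem_union_left _ h1')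
      (Finset.mem_union_right _ (Finset.mem_image.2 ⟨o, h1', hox⟩)) (Finset.mem_union_left _ h1')
      (Finset.mem_union_left _ hy) hxo.symm hyo.symm
  refine full_of_base (o := o) fun x hx y hy hxo hyo => ?_
  rcases Finset.mem_union.1 hx with hx | hx <;> rcases Finset.mem_union.1 hy with hy | hy
  · exact h.swap_mem h1 hx h1 hy hxo.symm hyo.symm
  · exact A x hx y hy hxo hyo
  · simpa using K.inv_mem (A y hy x hx hyo hxo)
  · exact h'.swap_mem h1' hx h1' hy hxo.symm hyo.symm

theorem exists_cycle_support {T : Finset α} (hT : 2 ≤ T.card) :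
    ∃ c : Perm α, c.IsCycle ∧ c.support = T := by
  refine ⟨T.toList.formPerm, List.isCycle_formPerm T.nodup_toList (by simpa using hT), ?_⟩
  rw [List.support_formPerm_of_nodup _ T.nodup_toList, Finset.toList_toFinset]
  intro x hx
  have := congrArg List.length hx
  simp at this
  omega

theorem sign_conj' (x c : Perm α) : sign (x * c * x⁻¹) = sign c := by
  rw [map_mul, map_mul, mul_right_comm, ← map_mul, mul_inv_cancel, map_one, one_mul]

theorem sign_of_odd_order {c : Perm α} (h : Odd (orderOf c)) : sign c = 1 := by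
  have := congrArg sign (pow_orderOf_eq_one c)
  rw [map_pow, map_one] at this
  rcases Int.units_eq_one_or (sign c) with h1 | h1
  · exact h1
  · rw [h1, h.neg_one_pow] at this
    exact absurd this (by decide)

theorem Full.dvd_card (h : Full K U) {r : ℕ} (hr : Odd r) (h2 : 2 ≤ r) (hU : r ≤ U.card) :
    r ∣ Nat.card K := by
  obtain ⟨T, hT, hc⟩ := Finset.exists_subset_card_eq hU
  obtain ⟨c, h1, h3⟩ := exists_cycle_support (T := T) (by omega)
  have ho : orderOf c = r := by rw [h1.orderOf, h3, hc]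
  exact ho ▸ K.orderOf_dvd_natCard (h c (h3 ▸ hT) (sign_of_odd_order (ho ▸ hr)))

/-- `K` is a Hall `π`-subgroup of the alternating group, seen in the symmetric group. -/
structure HallA (π : Set ℕ) (K : Subgroup (Perm α)) : Prop where
  le : K ≤ alternatingGroup α
  pi : IsPi π K
  idx : ∀ p : ℕ, p.Prime → p ∈ π → ¬ p ∣ K.relIndex (alternatingGroup α)

theorem IsHall.hallA {π : Set ℕ} {K : Subgroup (alternatingGroup α)} (h : IsHall π K) :
    HallA π (K.map (alternatingGroup α).subtype) :=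
  ⟨map_subtype_le _, h.1.map _, fun p hp hm => by
    rw [relIndex, Subgroup.subgroupOf, comap_map_eq_self_of_injective (alternatingGroup α).subtype_injective]
    exact h.2 p hp hm⟩

theorem exists_type (α : Type*) [Fintype α] [DecidableEq α] {p : ℕ} (hp : p.Prime) :
    ∃ σ : Perm α, σ ^ p = 1 ∧ σ.support.card = p * (Fintype.card α / p) := by
  have := Fact.mk hp
  obtain ⟨σ, hσ⟩ := (exists_with_cycleType_iff α
    (m := Multiset.replicate (Fintype.card α / p) p)).2
    ⟨by simpa using Nat.div_mul_le_self _ _,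
      fun a ha => Multiset.eq_of_mem_replicate ha ▸ hp.two_le⟩
  refine ⟨σ, pow_prime_eq_one_iff.2 fun c hc => ?_, ?_⟩
  · exact Multiset.eq_of_mem_replicate (hσ ▸ hc)
  · rw [← sum_cycleType, hσ]; simp [mul_comm]

theorem card_factor {σ c : Perm α} {p : ℕ} (hp : p.Prime) (h : σ ^ p = 1)
    (hc : c ∈ σ.cycleFactorsFinset) : c.support.card = p := by
  have := Fact.mk hp
  refine pow_prime_eq_one_iff.1 h _ ?_
  rw [cycleType_def]
  exact Multiset.mem_map.2 ⟨c, hc, rfl⟩

theorem exists_family {p : ℕ} (hp : p.Prime)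
    (hK : ¬ p ∣ K.relIndex (alternatingGroup α)) :
    ∃ σ : Perm α, σ ^ p = 1 ∧ σ.support.card = p * (Fintype.card α / p) ∧
      (∀ c ∈ σ.cycleFactorsFinset, sign c = 1 → c ∈ K) ∧
      ∀ c ∈ σ.cycleFactorsFinset, ∀ d ∈ σ.cycleFactorsFinset, c * d ∈ K := by
  obtain ⟨σ, h1, h2⟩ := exists_type α hp
  let Q : Subgroup (Perm α) := closure (σ.cycleFactorsFinset : Set (Perm α))
  have hcomm : ∀ a ∈ Q, ∀ b ∈ Q, Commute a b := by
    intro a ha b hb
    induction ha, hb using closure_induction₂ with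
    | mem x y hx hy => exact cycleFactorsFinset_mem_commute' σ hx hy
    | one_left x _ => exact Commute.one_left _
    | one_right x _ => exact Commute.one_right _
    | mul_left x y z _ _ _ h1 h2 => exact h1.mul_left h2
    | mul_right x y z _ _ _ h1 h2 => exact h1.mul_right h2
    | inv_left x y _ _ h => exact h.inv_left
    | inv_right x y _ _ h => exact h.inv_right
  have hpow : ∀ a ∈ Q, a ^ p = 1 := by
    intro a ha
    induction ha using closure_induction with
    | mem x hx =>
      rw [← card_factor hp h1 hx, ← (mem_cycleFactorsFinset_iff.1 hx).1.orderOf]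
      exact pow_orderOf_eq_one x
    | one => exact one_pow p
    | mul x y hx hy a1 a2 => rw [(hcomm x hx y hy).mul_pow, a1, a2, one_mul]
    | inv x _ a1 => rw [inv_pow, a1, inv_one]
  have hQ : IsPGroup p (Q.subgroupOf (alternatingGroup α)) := fun a =>
    ⟨1, Subtype.ext (Subtype.ext (by simpa using hpow a.1.1 a.2))⟩
  obtain ⟨x, hx⟩ := exists_conj_of_isPGroup hp hK hQ
  have key : ∀ g ∈ Q, sign g = 1 → (x : Perm α) * g * (x : Perm α)⁻¹ ∈ K := fun g hg hs =>
    mem_conjBy.1 (hx (show (⟨g, hs⟩ : alternatingGroup α) ∈ Q.subgroupOf _ from hg))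
  have hfac : ∀ c ∈ ((x : Perm α) * σ * (x : Perm α)⁻¹).cycleFactorsFinset,
      ∃ c' ∈ σ.cycleFactorsFinset, c = (x : Perm α) * c' * (x : Perm α)⁻¹ := fun c hc =>
    ⟨(x : Perm α)⁻¹ * c * x, (mem_cycleFactorsFinset_conj σ x _).1 (by simpa [mul_assoc] using hc),
      by simp [mul_assoc]⟩
  refine ⟨x * σ * (x : Perm α)⁻¹, by rw [conj_pow, h1]; simp, by rw [card_support_conj, h2],
    fun c hc hs => ?_, fun c hc d hd => ?_⟩
  · obtain ⟨c', hc', rfl⟩ := hfac c hc
    exact key c' (subset_closure hc') (by rwa [sign_conj'] at hs)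
  · obtain ⟨c', hc', rfl⟩ := hfac c hc
    obtain ⟨d', hd', rfl⟩ := hfac d hd
    have := key (c' * d') (Q.mul_mem (subset_closure hc') (subset_closure hd')) (by
      rw [map_mul, (mem_cycleFactorsFinset_iff.1 hc').1.sign,
        (mem_cycleFactorsFinset_iff.1 hd').1.sign, card_factor hp h1 hc', card_factor hp h1 hd']
      exact Int.units_mul_self _)
    simpa [mul_assoc] using this

theorem exists_matching (hK : ¬ 2 ∣ K.relIndex (alternatingGroup α)) :
    ∃ σ : Perm α, (∀ a, σ (σ a) = a) ∧ (∀ a b, σ a = a → σ b = b → a = b) ∧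
      ∀ a b, σ a ≠ a → σ b ≠ b → swap a (σ a) * swap b (σ b) ∈ K := by
  obtain ⟨σ, h1, h2, -, h4⟩ := exists_family Nat.prime_two hK
  have hinv : ∀ a, σ (σ a) = a := fun a => by
    have := DFunLike.congr_fun h1 a
    simpa [pow_two] using this
  have hfac : ∀ a, σ a ≠ a → swap a (σ a) ∈ σ.cycleFactorsFinset := fun a ha => by
    refine mem_cycleFactorsFinset_iff.2 ⟨isCycle_swap ha.symm, fun b hb => ?_⟩
    rw [support_swap ha.symm, Finset.mem_insert, Finset.mem_singleton] at hb
    rcases hb with rfl | rfl <;> simp [hinv]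
  refine ⟨σ, hinv, fun a b ha hb => ?_, fun a b ha hb => h4 _ (hfac a ha) _ (hfac b hb)⟩
  have : σ.supportᶜ.card ≤ 1 := by rw [Finset.card_compl, h2]; omega
  exact Finset.card_le_one.1 this a (by simp [ha]) b (by simp [hb])

theorem exists_cycles {p : ℕ} (hp : p.Prime) (hodd : Odd p)
    (hK : ¬ p ∣ K.relIndex (alternatingGroup α)) :
    ∃ R : Finset α, R.card < p ∧
      ∀ a, a ∉ R → ∃ c ∈ K, c.IsCycle ∧ c.support.card = p ∧ a ∈ c.support := by
  obtain ⟨σ, h1, h2, h3, -⟩ := exists_family hp hK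
  refine ⟨σ.supportᶜ, ?_, fun a ha => ?_⟩
  · rw [Finset.card_compl, h2]
    have := Nat.div_add_mod (Fintype.card α) p
    have := Nat.mod_lt (Fintype.card α) hp.pos
    omega
  · have ha' : a ∈ σ.support := by simpa using ha
    have hc := cycleOf_mem_cycleFactorsFinset_iff.2 ha'
    have hcy := (mem_cycleFactorsFinset_iff.1 hc).1
    refine ⟨σ.cycleOf a, h3 _ hc (sign_of_odd_order ?_), hcy, card_factor hp h1 hc,
      mem_support_cycleOf_iff.2 ⟨SameCycle.rfl, ha'⟩⟩
    rw [hcy.orderOf, card_factor hp h1 hc]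
    exact hodd

end Pool.Agent.MP_983df8_al

end MrgPart4

-- ======== part 5: formerly Pool.Agent.MP_983df8_al.HallA
section MrgPart5

namespace Pool.Agent.MP_983df8_al

open Subgroup Equiv Equiv.Perm

variable {α : Type*} [Fintype α] [DecidableEq α] {K : Subgroup (Perm α)} {π : Set ℕ}

omit [Fintype α] [DecidableEq α] in
theorem fix_of_coprime {g : Perm α} {m : ℕ} (h : m.Coprime (orderOf g)) {a : α}
    (ha : (g ^ m) a = a) : g a = a := by
  obtain ⟨k, hk⟩ := exists_pow_eq_self_of_coprime h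
  rw [← hk]
  exact pow_apply_eq_self_of_apply_eq_self ha k

omit [Fintype α] [DecidableEq α] in
theorem fix_of_prime {m : ℕ} (hm : m.Prime) (hK : ¬ m ∣ Nat.card K) {g : Perm α} (hg : g ∈ K)
    {a : α} (ha : (g ^ m) a = a) : g a = a :=
  fix_of_coprime ((Nat.Prime.coprime_iff_not_dvd hm).2 fun h =>
    hK (h.trans (K.orderOf_dvd_natCard hg))) ha

omit [Fintype α] [DecidableEq α] in
theorem pow_mem_of_inv {c : Perm α} {U : Finset α} (hU : ∀ y ∈ U, c y ∈ U) {x : α} (hx : x ∈ U)
    (i : ℕ) : (c ^ i) x ∈ U := by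
  induction i with
  | zero => exact hx
  | succ i ih => rw [pow_succ', mul_apply]; exact hU _ ih

theorem inv_sub {c : Perm α} (hc : c.IsCycle) {U : Finset α} (hU : ∀ y ∈ U, c y ∈ U) {x : α}
    (hx : x ∈ U) (hx' : x ∈ c.support) : c.support ⊆ U := by
  intro y hy
  obtain ⟨i, rfl⟩ := hc.exists_pow_eq (mem_support.1 hx') (mem_support.1 hy)
  exact pow_mem_of_inv hU hx i

omit [Fintype α] [DecidableEq α] in
theorem even_of_invol {σ : Perm α} (h : ∀ a, σ (σ a) = a) {U : Finset α}
    (h1 : ∀ a ∈ U, σ a ∈ U) (h2 : ∀ a ∈ U, σ a ≠ a) : Even U.card := by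
  have := Finset.sum_involution (s := U) (f := fun _ => (1 : ZMod 2)) (fun a _ => σ a)
    (fun _ _ => by decide) (fun a ha _ => h2 a ha) h1 (fun a _ => h a)
  rw [Finset.sum_const, nsmul_eq_mul, mul_one] at this
  exact (ZMod.natCast_eq_zero_iff_even).1 this

theorem odd_L (hK : ¬ 2 ∣ Nat.card K) {c g : Perm α} (hc : c ∈ K) (hcy : c.IsCycle) (hg : g ∈ K)
    {a : α} (ha : a ∉ c.support) (h1 : g a ∈ c.support) (h2 : g⁻¹ a ∈ c.support) : False := by
  obtain ⟨i, hi⟩ := hcy.exists_pow_eq (mem_support.1 h1) (mem_support.1 h2)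
  have h3 : (c ^ i * g) a = g⁻¹ a := hi
  have := fix_of_prime Nat.prime_two hK (K.mul_mem (K.pow_mem hc i) hg) (a := a) (by
    rw [pow_two, mul_apply, h3, mul_apply]
    simp [pow_apply_eq_self_of_apply_eq_self (notMem_support.1 ha) i])
  rw [h3] at this
  exact ha (this ▸ h2)

theorem odd_big (hK : ¬ 2 ∣ Nat.card K) {c c' : Perm α} (hc : c ∈ K) (hcy : c.IsCycle)
    (hc' : c' ∈ K) (hcy' : c'.IsCycle) {a : α} (ha : a ∉ c.support) (ha' : a ∈ c'.support)
    (h : c'.support.card ≤ 2 * (c.support ∩ c'.support).card) : False := by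
  have hj : ∀ x, ∃ j : ℕ, x ∈ c'.support → (c' ^ j) a = x := fun x => by
    by_cases hx : x ∈ c'.support
    · obtain ⟨j, hj⟩ := hcy'.exists_pow_eq (mem_support.1 ha') (mem_support.1 hx)
      exact ⟨j, fun _ => hj⟩
    · exact ⟨0, fun h => absurd h hx⟩
  choose j hj using hj
  set I := c.support ∩ c'.support with hI
  have hsub : I ⊆ c'.support.erase a := fun x hx =>
    Finset.mem_erase.2 ⟨fun e => ha (e ▸ (Finset.mem_inter.1 hx).1), (Finset.mem_inter.1 hx).2⟩
  have hle := Finset.card_le_card_of_injOn (s := I) (t := c'.support.erase a \ I)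
    (fun x => (c' ^ j x)⁻¹ a) (fun x hx => by
      obtain ⟨hx1, hx2⟩ := Finset.mem_inter.1 hx
      have e := hj x hx2
      refine Finset.mem_coe.2 (Finset.mem_sdiff.2 ⟨Finset.mem_erase.2 ⟨fun h3 => ?_, ?_⟩,
        fun h3 => ?_⟩)
      · rw [Perm.inv_eq_iff_eq, e] at h3
        exact ha (h3 ▸ hx1)
      · rw [← pow_apply_mem_support (n := j x)]
        simpa using ha'
      · exact odd_L hK hc hcy (K.pow_mem hc' (j x)) ha (by rw [e]; exact hx1)
          (Finset.mem_inter.1 h3).1)
    (fun x hx y hy hxy => by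
      have e1 := hj x (Finset.mem_inter.1 hx).2
      have e2 := hj y (Finset.mem_inter.1 hy).2
      have e3 := congrArg (c' ^ j y * c' ^ j x : Perm α) hxy
      rw [mul_apply, (Commute.pow_pow_self c' (j y) (j x)).eq, mul_apply] at e3
      simp only [Perm.coe_inv, Equiv.apply_symm_apply] at e3
      rw [← e1, ← e2, e3])
  rw [Finset.card_sdiff_of_subset hsub, Finset.card_erase_of_mem ha'] at hle
  have := Finset.card_pos.2 ⟨a, ha'⟩
  have := Finset.card_le_card hsub
  rw [Finset.card_erase_of_mem ha'] at this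
  omega

omit [Fintype α] in
theorem exists_notMem_of_card_eq {S T : Finset α} (h : S.card = T.card) (hne : S ≠ T) :
    ∃ a ∈ T, a ∉ S := by
  by_contra hcon
  push Not at hcon
  exact hne (Finset.eq_of_subset_of_card_le hcon h.le).symm

theorem mem_support_conj {g c : Perm α} {x : α} : g x ∈ (g * c * g⁻¹).support ↔ x ∈ c.support := by
  simp [mem_support]

theorem odd_overlap (hK : ¬ 2 ∣ Nat.card K) {c c' : Perm α} (hc : c ∈ K) (hcy : c.IsCycle)
    (hc' : c' ∈ K) (hcy' : c'.IsCycle) (hcard : c.support.card = c'.support.card)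
    (hne : c.support ≠ c'.support) {x : α} (hx : x ∈ c.support) (hx' : x ∈ c'.support) : False := by
  by_cases h : c'.support.card ≤ 2 * (c.support ∩ c'.support).card
  · obtain ⟨a, ha', ha⟩ := exists_notMem_of_card_eq hcard hne
    exact odd_big hK hc hcy hc' hcy' ha ha' h
  have hne' : (c * c' * c⁻¹).support ≠ c'.support := fun e =>
    hne (Finset.eq_of_subset_of_card_le
      (inv_sub hcy (fun y hy => e ▸ mem_support_conj.2 hy) hx' hx) hcard.ge)
  obtain ⟨a, ha', ha⟩ := exists_notMem_of_card_eq (card_support_conj (σ := c) (τ := c')) hne'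
  refine odd_big hK (K.mul_mem (K.mul_mem hc hc') (K.inv_mem hc)) hcy'.conj hc' hcy' ha ha' ?_
  have h1 : c'.support \ c.support ⊆ (c * c' * c⁻¹).support ∩ c'.support := fun y hy => by
    obtain ⟨h1, h2⟩ := Finset.mem_sdiff.1 hy
    exact Finset.mem_inter.2 ⟨notMem_support.1 h2 ▸ mem_support_conj.2 h1, h1⟩
  have h2 := Finset.card_le_card h1
  have h3 := Finset.card_sdiff_add_card_inter c'.support c.support
  rw [Finset.inter_comm] at h3
  omega

theorem exists_notMem_of_lt {R : Finset α} (h : R.card < Fintype.card α) : ∃ a, a ∉ R := by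
  by_contra hcon
  push Not at hcon
  rw [Finset.eq_univ_of_forall hcon, Finset.card_univ] at h
  omega

theorem HallA.exists_cycle (h : HallA π K) {q : ℕ} (hq : q.Prime) (hodd : Odd q) (hm : q ∈ π)
    (hn : q ≤ Fintype.card α) : ∃ d ∈ K, d.IsCycle ∧ d.support.card = q := by
  obtain ⟨R, hR, hc⟩ := exists_cycles hq hodd (h.idx q hq hm)
  obtain ⟨a, ha⟩ := exists_notMem_of_lt (R := R) (by omega)
  obtain ⟨d, h1, h2, h3, -⟩ := hc a ha
  exact ⟨d, h1, h2, h3⟩

theorem hall_odd (h : HallA π K) (h2 : 2 ∉ π) {p q : ℕ} (hp : p.Prime) (hq : q.Prime)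
    (hpm : p ∈ π) (hqm : q ∈ π) (hpq : p < q) (hn : q ≤ Fintype.card α) : False := by
  have hK : ¬ 2 ∣ Nat.card K := fun e => h2 (h.pi 2 Nat.prime_two e)
  have hpo : Odd p := hp.odd_of_ne_two fun e => h2 (e ▸ hpm)
  obtain ⟨d, hd, hdc, hdq⟩ := h.exists_cycle hq (hq.odd_of_ne_two fun e => h2 (e ▸ hqm)) hqm hn
  obtain ⟨R, hR, hc⟩ := exists_cycles hp hpo (h.idx p hp hpm)
  obtain ⟨x, hxd, hxR⟩ : ∃ x ∈ d.support, x ∉ R := by
    by_contra hcon
    push Not at hcon
    have := Finset.card_le_card (show d.support ⊆ R from hcon)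
    omega
  obtain ⟨c, hcK, hcc, hcp, hxc⟩ := hc x hxR
  have key : ∀ g ∈ K, g.IsCycle → g.support = d.support → ∀ y ∈ c.support, g y ∈ c.support →
      False := by
    intro g hg hgc hgs y hy hgy
    refine odd_overlap hK hcK hcc (K.mul_mem (K.mul_mem hg hcK) (K.inv_mem hg)) hcc.conj
      card_support_conj.symm (fun e => ?_) hgy (mem_support_conj.2 hy)
    have := Finset.card_le_card
      (inv_sub hgc (fun z hz => e ▸ mem_support_conj.2 hz) hxc (hgs ▸ hxd))
    rw [hgs] at this
    omega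
  obtain ⟨y, hy, hyx⟩ := Finset.exists_mem_ne (s := c.support) (by have := hp.two_le; omega) x
  by_cases hyd : y ∈ d.support
  · obtain ⟨j, hj⟩ := hdc.exists_pow_eq (mem_support.1 hxd) (mem_support.1 hyd)
    have hnd : ¬ orderOf d ∣ j := fun e => by
      rw [orderOf_dvd_iff_pow_eq_one.1 e] at hj
      exact hyx hj.symm
    refine key (d ^ j) (K.pow_mem hd j) (hdc.pow_iff.2 ?_) (hdc.support_pow_eq_iff.2 hnd) x hxc
      (hj ▸ hy)
    rw [hdc.orderOf, hdq] at hnd ⊢
    exact ((Nat.Prime.coprime_iff_not_dvd hq).2 hnd).symm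
  · exact key d hd hdc rfl y hy ((notMem_support.1 hyd).symm ▸ hy)

/-- a near-perfect matching all of whose double transpositions lie in `K` -/
structure Matching (K : Subgroup (Perm α)) (σ : Perm α) : Prop where
  inv : ∀ a, σ (σ a) = a
  uniq : ∀ a b, σ a = a → σ b = b → a = b
  mem : ∀ a b, σ a ≠ a → σ b ≠ b → swap a (σ a) * swap b (σ b) ∈ K

omit [Fintype α] in
theorem Matching.conj {σ d : Perm α} (h : Matching K σ) (hd : d ∈ K) :
    Matching K (d * σ * d⁻¹) := by
  refine ⟨fun a => by simp [h.inv], fun a b ha hb => ?_, fun a b ha hb => ?_⟩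
  · refine d⁻¹.injective (h.uniq _ _ ?_ ?_)
    · exact d.injective (by simpa using ha)
    · exact d.injective (by simpa using hb)
  · obtain ⟨a, rfl⟩ := d.surjective a
    obtain ⟨b, rfl⟩ := d.surjective b
    have := K.mul_mem (K.mul_mem hd (h.mem a b (by simpa using ha) (by simpa using hb)))
      (K.inv_mem hd)
    simpa [swap_apply_apply, mul_assoc] using this

theorem Matching.exists_moved {σ : Perm α} (h : Matching K σ) (hn : 6 ≤ Fintype.card α)
    (a b c e : α) : ∃ j, σ j ≠ j ∧ j ≠ a ∧ j ≠ b ∧ j ≠ c ∧ j ≠ e := by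
  have h1 : ({a, b, c, e} ∪ Finset.univ.filter fun x => σ x = x : Finset α).card <
      Fintype.card α := by
    have a1 : ({a, b, c, e} : Finset α).card ≤ 4 := Finset.card_le_four
    have a2 : (Finset.univ.filter fun x => σ x = x).card ≤ 1 :=
      Finset.card_le_one.2 fun x hx y hy => h.uniq x y (by simpa using hx) (by simpa using hy)
    have := Finset.card_union_le ({a, b, c, e} : Finset α) (Finset.univ.filter fun x => σ x = x)
    omega
  obtain ⟨j, hj⟩ := exists_notMem_of_lt h1
  simp only [Finset.mem_union, Finset.mem_insert, Finset.mem_singleton, Finset.mem_filter,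
    Finset.mem_univ, true_and, not_or] at hj
  exact ⟨j, hj.2, hj.1⟩

theorem Matching.agree {σ τ : Perm α} (h : Matching K σ) (h' : Matching K τ)
    (hn : 6 ≤ Fintype.card α) (h3 : ¬ 3 ∣ Nat.card K) {b : α} (hb : σ b ≠ b) (hb' : τ b ≠ b) :
    σ b = τ b := by
  by_contra hne
  obtain ⟨j, j0, j1, j2, j3, j4⟩ := h.exists_moved hn (σ b) b (τ b) (σ (τ b))
  obtain ⟨l, l0, l1, l2, l3, l4⟩ := h'.exists_moved hn (τ b) b (σ b) (τ (σ b))
  have j5 : τ b ≠ σ j := fun e => j4 (by rw [e, h.inv])
  have j6 : b ≠ σ j := fun e => j1 (by rw [e, h.inv])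
  have j7 : σ b ≠ σ j := fun e => j2 (σ.injective e).symm
  have l5 : σ b ≠ τ l := fun e => l4 (by rw [e, h'.inv])
  have l6 : b ≠ τ l := fun e => l1 (by rw [e, h'.inv])
  have l7 : τ b ≠ τ l := fun e => l2 (τ.injective e).symm
  set w := swap b (σ b) * swap j (σ j) * (swap b (τ b) * swap l (τ l)) with hw
  have e1 : w b = τ b := by
    simp only [hw, mul_apply, swap_apply_of_ne_of_ne l2.symm l6, swap_apply_left,
      swap_apply_of_ne_of_ne j3.symm j5, swap_apply_of_ne_of_ne hb' (Ne.symm hne)]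
  have e2 : w (τ b) = σ b := by
    simp only [hw, mul_apply, swap_apply_of_ne_of_ne l1.symm l7, swap_apply_right,
      swap_apply_of_ne_of_ne j2.symm j6, swap_apply_left]
  have e3 : w (σ b) = b := by
    simp only [hw, mul_apply, swap_apply_of_ne_of_ne l3.symm l5, swap_apply_of_ne_of_ne hb hne,
      swap_apply_of_ne_of_ne j1.symm j7, swap_apply_right]
  have := fix_of_prime Nat.prime_three h3 (K.mul_mem (h.mem b j hb j0) (h'.mem b l hb' l0))
    (a := b) (by
      rw [← hw, pow_three]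
      show w (w (w b)) = b
      rw [e1, e2, e3])
  exact hb' (e1.symm.trans this)

theorem HallA.matching (h : HallA π K) (h2 : 2 ∈ π) : ∃ σ, Matching K σ := by
  obtain ⟨σ, h1, h3, h4⟩ := exists_matching (h.idx 2 Nat.prime_two h2)
  exact ⟨σ, h1, h3, h4⟩

theorem card_alt_five (hn : Fintype.card α = 5) : Nat.card (alternatingGroup α) = 60 := by
  have : Nontrivial α := Fintype.one_lt_card_iff_nontrivial.1 (by omega)
  rw [nat_card_alternatingGroup, Nat.card_eq_fintype_card, hn]
  rfl

theorem hall_two (h : HallA π K) (h2 : 2 ∈ π) (h3 : 3 ∉ π) {q : ℕ} (hq : q.Prime)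
    (hqm : q ∈ π) (h2q : 2 < q) (hn : q ≤ Fintype.card α) : False := by
  have hK : ¬ 3 ∣ Nat.card K := fun e => h3 (h.pi 3 Nat.prime_three e)
  have hodd : Odd q := hq.odd_of_ne_two (by omega)
  have hq5 : 5 ≤ q := hq.five_le_of_ne_two_of_ne_three (by omega) fun e => h3 (e ▸ hqm)
  by_cases h6 : 6 ≤ Fintype.card α
  · obtain ⟨d, hd, hdc, hdq⟩ := h.exists_cycle hq hodd hqm hn
    obtain ⟨σ, hσ⟩ := h.matching h2
    have hτ := hσ.conj hd
    have hcomm : ∀ a, σ a ≠ a → σ (d a) = d (σ a) := by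
      intro a ha
      have a1 : (d * σ * d⁻¹) (d a) = d (σ a) := by simp
      have a2 : (d * σ * d⁻¹) (d (σ a)) = d a := by simp [hσ.inv]
      have a3 : d (σ a) ≠ d a := fun e => ha (d.injective e)
      by_cases hm : σ (d a) = d a
      · have hm' : σ (d (σ a)) ≠ d (σ a) := fun e => a3 (hσ.uniq _ _ e hm)
        have := hσ.agree hτ h6 hK hm' (a2 ▸ a3.symm)
        rw [a2] at this
        rw [← this, hσ.inv]
      · exact (hσ.agree hτ h6 hK hm (a1 ▸ a3)).trans a1
    have hmoved : d.support ⊆ σ.support := by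
      obtain ⟨a, ha, b, hb, hab⟩ := Finset.one_lt_card.1 (show 1 < d.support.card by omega)
      have hU : ∀ y ∈ σ.support, d y ∈ σ.support := fun y hy => by
        rw [mem_support] at hy ⊢
        rw [hcomm y hy]
        exact fun e => hy (d.injective e)
      by_cases ha' : σ a = a
      · exact inv_sub hdc hU (mem_support.2 fun e => hab (hσ.uniq _ _ ha' e)) hb
      · exact inv_sub hdc hU (mem_support.2 ha') ha
    have := even_of_invol hσ.inv (U := d.support) (fun a ha => by
      rw [mem_support, ← hcomm a (mem_support.1 (hmoved ha))]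
      exact fun e => mem_support.1 ha (σ.injective e)) fun a ha => mem_support.1 (hmoved ha)
    rw [hdq] at this
    exact (Nat.not_even_iff_odd.2 hodd) this
  · have h5 : Fintype.card α = 5 := by omega
    obtain rfl : q = 5 := by omega
    have hA := card_alt_five h5
    set K0 := K.subgroupOf (alternatingGroup α)
    have hc : Nat.card K0 = Nat.card K := Nat.card_congr (subgroupOfEquivOfLe h.le).toEquiv
    have hmul := K0.card_mul_index
    have i2 : ¬ 2 ∣ K0.index := h.idx 2 Nat.prime_two h2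
    have i5 : ¬ 5 ∣ K0.index := h.idx 5 hq hqm
    have i3 : K0.index = 3 := by
      have hd : K0.index ∣ 60 := hA ▸ K0.index_dvd_card
      have hle := Nat.le_of_dvd (by norm_num) hd
      rw [hA, hc] at hmul
      generalize K0.index = i at *
      interval_cases i <;> omega
    have := alternatingGroup.isSimpleGroup (α := α) (by rw [Nat.card_eq_fintype_card]; omega)
    rcases (inferInstance : K0.normalCore.Normal).eq_bot_or_eq_top with hb | hb
    · rw [normalCore_eq_ker, MonoidHom.ker_eq_bot_iff] at hb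
      have := Nat.card_le_card_of_injective _ hb
      rw [hA, Nat.card_perm, ← index, i3] at this
      exact absurd this (by decide)
    · have := K0.normalCore_le
      rw [hb, top_le_iff, ← index_eq_one] at this
      omega

theorem hall_not_both (h : HallA π K) (h23 : 2 ∉ π ∨ 3 ∉ π) {p q : ℕ} (hp : p.Prime)
    (hq : q.Prime) (hpm : p ∈ π) (hqm : q ∈ π) (hpn : p ≤ Fintype.card α)
    (hqn : q ≤ Fintype.card α) : p = q := by
  by_cases h2 : 2 ∈ π
  · have h3 := h23.resolve_left (not_not.2 h2)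
    have a1 : p = 2 := by
      by_contra e
      exact hall_two h h2 h3 hp hpm (by have := hp.two_le; omega) hpn
    have a2 : q = 2 := by
      by_contra e
      exact hall_two h h2 h3 hq hqm (by have := hq.two_le; omega) hqn
    omega
  · rcases lt_trichotomy p q with e | e | e
    · exact (hall_odd h h2 hp hq hpm hqm e hqn).elim
    · exact e
    · exact (hall_odd h h2 hq hp hqm hpm e hpn).elim

end Pool.Agent.MP_983df8_al

end MrgPart5

-- ======== part 6: formerly Pool.Agent.MP_983df8_al.HallB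
section MrgPart6

namespace Pool.Agent.MP_983df8_al

open Subgroup Equiv Equiv.Perm

variable {α : Type*} [Fintype α] [DecidableEq α] {K : Subgroup (Perm α)} {π : Set ℕ}
  {B : Finset α}

/-- a maximal full set with at least three points -/
structure MaxFull (K : Subgroup (Perm α)) (B : Finset α) : Prop where
  full : Full K B
  three : 3 ≤ B.card
  max : ∀ x, Full K (insert x B) → x ∈ B

theorem MaxFull.block (h : MaxFull K B) {g : Perm α} (hg : g ∈ K) {x : α} (hx : x ∈ B)
    (hgx : g x ∈ B) : ∀ y ∈ B, g y ∈ B := by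
  intro y hy
  have h1 := h.full.union1 (h.full.image hg) h.three
    (by rw [Finset.card_image_of_injective _ g.injective]; exact h.three) hgx
    (Finset.mem_image_of_mem g hx)
  exact h.max _ (h1.mono (Finset.insert_subset
    (Finset.mem_union_right _ (Finset.mem_image_of_mem g hy)) Finset.subset_union_left))

theorem MaxFull.exists_fixed (h : MaxFull K B) (hodd : Odd B.card) {σ : Perm α}
    (hσ : Matching K σ) : ∃ a ∈ B, σ a = a := by
  by_contra hcon
  push Not at hcon
  refine (Nat.not_even_iff_odd.2 hodd) (even_of_invol hσ.inv (fun a ha => ?_) hcon)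
  by_contra hna
  obtain ⟨j, hj, hja, -⟩ := exists_third h.three a a
  have hg := hσ.mem a j (hcon a ha) (hcon j hj)
  have e1 : a ≠ σ j := fun e => hna (by rw [e, hσ.inv]; exact hj)
  have e2 : (swap a (σ a) * swap j (σ j)) a = σ a := by
    rw [mul_apply, swap_apply_of_ne_of_ne hja.symm e1, swap_apply_left]
  by_cases hsj : σ j ∈ B
  · refine hna (e2 ▸ h.block hg hj ?_ a ha)
    rw [mul_apply, swap_apply_left,
      swap_apply_of_ne_of_ne e1.symm fun e => hja (σ.injective e)]
    exact hsj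
  · obtain ⟨z, hz, hz1, hz2⟩ := exists_third h.three a j
    refine hna (e2 ▸ h.block hg hz ?_ a ha)
    rw [mul_apply, swap_apply_of_ne_of_ne hz2 (ne_of_mem_of_not_mem hz hsj),
      swap_apply_of_ne_of_ne hz1 (ne_of_mem_of_not_mem hz hna)]
    exact hz

theorem le_card_of_inv {g : Perm α} {t : ℕ} (ht : t.Prime) (hg : g ^ t = 1) {a : α}
    (ha : g a ≠ a) {U : Finset α} (hU : ∀ y ∈ U, g y ∈ U) (haU : a ∈ U) : t ≤ U.card := by
  have ha' := mem_support.2 ha
  rw [← card_factor ht hg (cycleOf_mem_cycleFactorsFinset_iff.2 ha')]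
  refine Finset.card_le_card fun y hy => ?_
  obtain ⟨i, -, rfl⟩ := (mem_support_cycleOf_iff.1 hy).1.exists_pow_eq'
  exact pow_mem_of_inv hU haU i

/-- permutations that respect the fibres of `f` -/
def presRel {β : Type*} (f : α → β) : Subgroup (Perm α) where
  carrier := {σ | ∀ x y, f (σ x) = f (σ y) ↔ f x = f y}
  mul_mem' ha hb x y := (ha _ _).trans (hb x y)
  one_mem' _ _ := Iff.rfl
  inv_mem' {σ} ha x y := by simpa using (ha (σ⁻¹ x) (σ⁻¹ y)).symm

/-- permutations that fix every point outside `U` -/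
def fixOut (U : Finset α) : Subgroup (Perm α) where
  carrier := {σ | ∀ x, x ∉ U → σ x = x}
  mul_mem' ha hb x hx := by rw [mul_apply, hb x hx, ha x hx]
  one_mem' _ _ := rfl
  inv_mem' {σ} ha x hx := by rw [Perm.inv_eq_iff_eq, ha x hx]

/-- permutations that map `B` onto itself -/
def pres (B : Finset α) : Subgroup (Perm α) where
  carrier := {σ | ∀ x, σ x ∈ B ↔ x ∈ B}
  mul_mem' ha hb x := (ha _).trans (hb x)
  one_mem' _ := Iff.rfl
  inv_mem' {σ} ha x := by simpa using (ha (σ⁻¹ x)).symm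

theorem mem_pres_of_support {σ : Perm α} (h : σ.support ⊆ B) : σ ∈ pres B := fun x => by
  by_cases hx : x ∈ σ.support
  · exact iff_of_true (h (apply_mem_support.2 hx)) (h hx)
  · rw [notMem_support.1 hx]

open Pointwise in
theorem choose_dvd (h2 : 2 ≤ B.card) (hK : ∀ g ∈ K, ∀ y ∈ B, g y ∈ B) :
    (Fintype.card α).choose B.card ∣ K.relIndex (alternatingGroup α) := by
  have h1 : K.subgroupOf (alternatingGroup α) ≤ MulAction.stabilizer (alternatingGroup α) B := by
    intro g hg
    refine Finset.eq_of_subset_of_card_le ?_ (by rw [Finset.card_smul_finset])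
    intro y hy
    obtain ⟨x, hx, rfl⟩ := Finset.mem_smul_finset.1 hy
    exact hK _ hg x hx
  refine Dvd.dvd.trans (dvd_of_eq ?_) (index_dvd_of_le h1)
  rw [MulAction.index_stabilizer, ← Finset.card_univ, ← Finset.card_powersetCard,
    ← Set.ncard_coe_finset]
  congr 1
  ext C
  rw [Finset.mem_coe, Finset.mem_powersetCard_univ]
  constructor
  · intro hC
    obtain ⟨σ, hσ⟩ := Perm.exists_map_finset_eq B C hC.symm
    obtain ⟨u, hu, v, hv, huv⟩ := Finset.one_lt_card.1 h2
    have key : ∀ τ : alternatingGroup α, (∀ y ∈ B, (τ : Perm α) y ∈ C) →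
        C ∈ MulAction.orbit (alternatingGroup α) B := fun τ hτ =>
      ⟨τ, Finset.eq_of_subset_of_card_le (fun y hy => by
        obtain ⟨x, hx, rfl⟩ := Finset.mem_smul_finset.1 hy
        exact hτ x hx) (by rw [Finset.card_smul_finset, hC])⟩
    have hσ' : ∀ y ∈ B, σ y ∈ C := fun y hy => hσ ▸ Finset.mem_map_of_mem _ hy
    rcases Int.units_eq_one_or (sign σ) with hs | hs
    · exact key ⟨σ, hs⟩ hσ'
    · refine key ⟨σ * swap u v, by simp [hs, huv]⟩ fun y hy => hσ' _ ?_
      exact ((mem_pres_of_support (σ := swap u v) (by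
        rw [support_swap huv]
        exact Finset.insert_subset hu (Finset.singleton_subset_iff.2 hv))) y).2 hy
  · rintro ⟨g, rfl⟩
    exact Finset.card_smul_finset g B

section
variable {r : ℕ} (hr : r.Prime) (hrm : r ∉ π) (hmin : ∀ t : ℕ, t.Prime → t < r → t ∈ π)
  (hr5 : 5 ≤ r)
  (hW : ∀ X : Subgroup (Perm α), X ≤ alternatingGroup α → IsPi π X → ∃ K, HallA π K ∧ X ≤ K)
include hr hrm hr5

theorem HallA.card_lt (h : HallA π K) {U : Finset α} (hU : Full K U) : U.card < r := by
  by_contra hcon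
  exact hrm (h.pi r hr (hU.dvd_card (hr.odd_of_ne_two (by omega)) hr.two_le (by omega)))

include hmin hW

theorem not_dvd_choose {b : ℕ} (hb1 : r ≤ b + 2) (hb2 : b < r) (hn1 : r ≤ Fintype.card α)
    (hn2 : Fintype.card α + 5 ≤ 2 * r) {t : ℕ} (ht : t.Prime) (htr : t < r) :
    ¬ t ∣ (Fintype.card α).choose b := by
  obtain ⟨B, -, hB⟩ := Finset.exists_subset_card_eq (s := (Finset.univ : Finset α)) (n := b)
    (by rw [Finset.card_univ]; omega)
  obtain ⟨K, hK, hXK⟩ := hW (alternatingGroup α ⊓ pres B) inf_le_left (by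
    refine isPi_of_orderOf fun g hg hp => hmin _ hp ?_
    obtain ⟨a, ha⟩ : ∃ a, g a ≠ a := by
      by_contra hcon
      push Not at hcon
      exact hp.ne_one (orderOf_eq_one_iff.2 (Perm.ext hcon))
    by_cases haB : a ∈ B
    · have := le_card_of_inv hp (pow_orderOf_eq_one g) ha (fun y hy => (hg.2 y).2 hy) haB
      omega
    · have := le_card_of_inv hp (pow_orderOf_eq_one g) ha (U := Bᶜ)
        (fun y hy => by simpa [hg.2 y] using hy) (by simpa using haB)
      rw [Finset.card_compl] at this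
      omega)
  have hfull : Full K B := fun σ h1 h2 => hXK ⟨h2, mem_pres_of_support h1⟩
  have hmax : MaxFull K B := by
    refine ⟨hfull, by omega, fun x hx => ?_⟩
    by_contra hxB
    have c1 := hK.card_lt hr hrm hr5 hx
    rw [Finset.card_insert_of_notMem hxB] at c1
    obtain ⟨x', hx'⟩ := exists_notMem_of_lt (R := insert x B)
      (by rw [Finset.card_insert_of_notMem hxB]; omega)
    rw [Finset.mem_insert, not_or] at hx'
    obtain ⟨u, hu, v, hv, huv⟩ := Finset.one_lt_card.1 (show 1 < B.card by omega)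
    have hsw : swap u v ∈ pres B := mem_pres_of_support (by
      rw [support_swap huv]
      exact Finset.insert_subset hu (Finset.singleton_subset_iff.2 hv))
    have hsw' : swap x x' ∈ pres B := fun y => by
      rw [swap_apply_def]
      split_ifs with e1 e2
      · simp [e1, hxB, hx'.2]
      · simp [e2, hxB, hx'.2]
      · rfl
    have hg := (pres B).mul_mem hsw' hsw
    have him := hx.image (hXK ⟨by simp [huv, Ne.symm hx'.1], hg⟩)
    have hBsub : ∀ y ∈ B, y ∈ (insert x B).image (swap x x' * swap u v : Perm α) := fun y hy =>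
      Finset.mem_image.2 ⟨(swap x x' * swap u v)⁻¹ y,
        Finset.mem_insert_of_mem (((pres B).inv_mem hg y).2 hy), by simp⟩
    have hun := hx.union2 him huv (Finset.mem_insert_of_mem hu) (Finset.mem_insert_of_mem hv)
      (hBsub u hu) (hBsub v hv)
    have c2 := hK.card_lt hr hrm hr5 (hun.mono (B := insert x' (insert x B))
      (Finset.insert_subset (Finset.mem_union_right _ (Finset.mem_image.2
        ⟨x, Finset.mem_insert_self _ _, by
          rw [mul_apply, swap_apply_of_ne_of_ne (ne_of_mem_of_not_mem hu hxB).symm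
            (ne_of_mem_of_not_mem hv hxB).symm, swap_apply_left]⟩)) Finset.subset_union_left))
    rw [Finset.card_insert_of_notMem (by simp [hx'.1, hx'.2]),
      Finset.card_insert_of_notMem hxB] at c2
    omega
  intro hd
  refine hK.idx t ht (hmin t ht htr) (hd.trans (hB ▸ choose_dvd (by omega) fun g hg => ?_))
  obtain ⟨y, hy⟩ : (B ∩ B.image g).Nonempty := by
    rw [← Finset.card_pos]
    have c1 := Finset.card_union_add_card_inter B (B.image g)
    have c2 := Finset.card_le_univ (B ∪ B.image g)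
    rw [Finset.card_image_of_injective _ g.injective] at c1
    omega
  obtain ⟨hy1, hy2⟩ := Finset.mem_inter.1 hy
  obtain ⟨x, hx, rfl⟩ := Finset.mem_image.1 hy2
  exact hmax.block hg hx hy1

theorem hall_small (hn1 : r ≤ Fintype.card α) (hn2 : Fintype.card α + 5 ≤ 2 * r) : False := by
  obtain ⟨b, rfl⟩ : ∃ b, r = b + 2 := ⟨r - 2, by omega⟩
  have h1 := fun t => not_dvd_choose hr hrm hmin hr5 hW (b := b) le_rfl (by omega) hn1 hn2 (t := t)
  have h2 := fun t =>
    not_dvd_choose hr hrm hmin hr5 hW (b := b + 1) (by omega) (by omega) hn1 hn2 (t := t)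
  have e := Nat.choose_succ_right_eq (Fintype.card α) b
  have c1 : (b + 1).Coprime ((Fintype.card α).choose b) :=
    Nat.Coprime.symm (Nat.coprime_of_dvd fun t ht a1 a2 =>
      h1 t ht (by have := Nat.le_of_dvd (by omega) a2; omega) a1)
  have := Nat.le_of_dvd (by omega) (c1.dvd_of_dvd_mul_left ⟨_, by rw [← e, mul_comm]⟩ :
    b + 1 ∣ Fintype.card α - b)
  omega

omit hr hrm hmin hr5 hW in
theorem exists_swapper {B1 B2 : Finset α} (hd : Disjoint B1 B2) (hc : B1.card = B2.card)
    (h2 : 2 ≤ B1.card) : ∃ g : Perm α, sign g = 1 ∧ (∀ x ∈ B1, g x ∈ B2) ∧ (∀ x ∈ B2, g x ∈ B1) ∧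
      ∀ x, x ∉ B1 ∪ B2 → g x = x := by
  let e : B1 ≃ B2 := B1.equivOfCardEq hc
  let f : α → α := fun x => if h : x ∈ B1 then e ⟨x, h⟩ else if h : x ∈ B2 then e.symm ⟨x, h⟩ else x
  have f1 : ∀ x (h : x ∈ B1), f x = e ⟨x, h⟩ := fun x h => dif_pos h
  have f2 : ∀ x (h : x ∈ B2), f x = e.symm ⟨x, h⟩ := fun x h => by
    simp only [f]
    rw [dif_neg (Finset.disjoint_right.1 hd h), dif_pos h]
  have f3 : ∀ x, x ∉ B1 ∪ B2 → f x = x := fun x h => by
    rw [Finset.mem_union, not_or] at h
    simp only [f]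
    rw [dif_neg h.1, dif_neg h.2]
  have hf : Function.Involutive f := fun x => by
    by_cases a1 : x ∈ B1
    · rw [f1 x a1, f2 _ (e ⟨x, a1⟩).2]; simp
    by_cases a2 : x ∈ B2
    · rw [f2 x a2, f1 _ (e.symm ⟨x, a2⟩).2]; simp
    have : x ∉ B1 ∪ B2 := by simp [a1, a2]
    rw [f3 x this, f3 x this]
  have g1 : ∀ x ∈ B1, hf.toPerm f x ∈ B2 := fun x h => by
    rw [Function.Involutive.coe_toPerm, f1 x h]; exact (e _).2
  have g2 : ∀ x ∈ B2, hf.toPerm f x ∈ B1 := fun x h => by
    rw [Function.Involutive.coe_toPerm, f2 x h]; exact (e.symm _).2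
  rcases Int.units_eq_one_or (sign (hf.toPerm f)) with hs | hs
  · exact ⟨_, hs, g1, g2, f3⟩
  obtain ⟨u, hu, v, hv, huv⟩ := Finset.one_lt_card.1 h2
  have hsw : swap u v ∈ pres B1 := mem_pres_of_support (by
    rw [support_swap huv]
    exact Finset.insert_subset hu (Finset.singleton_subset_iff.2 hv))
  have hfix : ∀ x, x ∉ B1 → swap u v x = x := fun x hx =>
    swap_apply_of_ne_of_ne (fun e => hx (e ▸ hu)) fun e => hx (e ▸ hv)
  refine ⟨hf.toPerm f * swap u v, by simp [hs, huv], fun x hx => g1 _ ((hsw x).2 hx),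
    fun x hx => ?_, fun x hx => ?_⟩
  · rw [mul_apply, hfix x (Finset.disjoint_right.1 hd hx)]
    exact g2 x hx
  · rw [mul_apply, hfix x fun h => hx (Finset.mem_union_left _ h)]
    exact f3 x hx

omit hmin hW in
theorem maxFull_of_swap (hK : HallA π K) {B1 B2 : Finset α} (hd : Disjoint B1 B2)
    (c1 : B1.card + 2 = r) (c2 : B2.card + 2 = r) (h1 : Full K B1) (h2 : Full K B2) {g : Perm α}
    (hg : g ∈ K) (g1 : ∀ x ∈ B1, g x ∈ B2) (g3 : ∀ x, x ∉ B1 ∪ B2 → g x = x) : MaxFull K B1 := by
  refine ⟨h1, by omega, fun x hx => ?_⟩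
  by_contra hxB
  have hc : 3 ≤ (insert x B1).card := by rw [Finset.card_insert_of_notMem hxB]; omega
  have fin : ¬ Full K (B1 ∪ B2) := fun h => by
    have := hK.card_lt hr hrm hr5 h
    rw [Finset.card_union_of_disjoint hd] at this
    omega
  by_cases hx2 : x ∈ B2
  · exact fin ((hx.union1 h2 hc (by omega) (Finset.mem_insert_self _ _) hx2).mono
      (Finset.union_subset_union (Finset.subset_insert _ _) le_rfl))
  · have him : B1.image g = B2 := Finset.eq_of_subset_of_card_le (fun y hy => by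
      obtain ⟨z, hz, rfl⟩ := Finset.mem_image.1 hy
      exact g1 z hz) (by rw [Finset.card_image_of_injective _ g.injective]; omega)
    have := hx.image hg
    rw [Finset.image_insert, him, g3 x (by simp [hxB, hx2])] at this
    exact fin ((hx.union1 this hc (by rw [Finset.card_insert_of_notMem hx2]; omega)
      (Finset.mem_insert_self _ _) (Finset.mem_insert_self _ _)).mono
      (Finset.union_subset_union (Finset.subset_insert _ _) (Finset.subset_insert _ _)))

theorem hall_large (hn : 2 * r ≤ Fintype.card α + 4) : False := by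
  obtain ⟨B1, -, c1⟩ := Finset.exists_subset_card_eq (s := (Finset.univ : Finset α)) (n := r - 2)
    (by rw [Finset.card_univ]; omega)
  obtain ⟨B2, hs, c2⟩ := Finset.exists_subset_card_eq (s := B1ᶜ) (n := r - 2)
    (by rw [Finset.card_compl]; omega)
  have hd : Disjoint B1 B2 := Finset.disjoint_right.2 fun x hx => by simpa using hs hx
  let f : α → Option Bool := fun x => if x ∈ B1 then some true else if x ∈ B2 then some false
    else none
  have f1 : ∀ x, f x = some true ↔ x ∈ B1 := fun x => by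
    simp only [f]; split_ifs <;> simp [*]
  have f2 : ∀ x, f x = some false ↔ x ∈ B2 := fun x => by
    simp only [f]; split_ifs with a1 a2
    · simp [Finset.disjoint_left.1 hd a1]
    · simp [a2]
    · simp [a2]
  have f3 : ∀ x, f x = none ↔ x ∉ B1 ∪ B2 := fun x => by
    simp only [f]; split_ifs <;> simp [*]
  obtain ⟨K, hK, hXK⟩ := hW (alternatingGroup α ⊓ (presRel f ⊓ fixOut (B1 ∪ B2))) inf_le_left (by
    refine isPi_of_orderOf fun g hg hp => ?_
    by_contra hcon
    have htr : r ≤ orderOf g := by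
      by_contra h
      exact hcon (hmin _ hp (by omega))
    have hco : Nat.Coprime 2 (orderOf g) := (Nat.coprime_primes Nat.prime_two hp).2 (by omega)
    obtain ⟨a, ha⟩ : ∃ a, g a ≠ a := by
      by_contra hcon
      push Not at hcon
      exact hp.ne_one (orderOf_eq_one_iff.2 (Perm.ext hcon))
    have ha2 : (g ^ 2) a ≠ a := fun e => ha (fix_of_coprime hco e)
    have hmem : ∀ y, g y ≠ y → f y ≠ none := fun y hy e => hy (hg.2.2 y ((f3 y).1 e))
    have m0 := hmem a ha
    have m1 := hmem (g a) fun e => ha (g.injective e)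
    have m2 := hmem (g (g a)) fun e => ha (g.injective (g.injective e))
    have e0 : f (g (g a)) = f a := by
      have := hg.2.1 (g a) a
      revert this m0 m1 m2
      generalize f a = u
      generalize f (g a) = v
      generalize f (g (g a)) = w
      revert u v w
      decide
    have hU : ∀ y, f y = f a → f ((g ^ 2) y) = f a := fun y hy => by
      rw [← e0, pow_two, mul_apply, hg.2.1, hg.2.1, hy]
    have hpow : (g ^ 2) ^ orderOf g = 1 := by rw [← pow_mul, mul_comm, pow_mul, pow_orderOf_eq_one,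
      one_pow]
    rcases Finset.mem_union.1 (not_not.1 fun h => m0 ((f3 a).2 h)) with h | h
    · have := le_card_of_inv hp hpow ha2 (U := B1) (fun y hy =>
        (f1 _).1 ((hU y (((f1 y).2 hy).trans ((f1 a).2 h).symm)).trans ((f1 a).2 h))) h
      omega
    · have := le_card_of_inv hp hpow ha2 (U := B2) (fun y hy =>
        (f2 _).1 ((hU y (((f2 y).2 hy).trans ((f2 a).2 h).symm)).trans ((f2 a).2 h))) h
      omega)
  have hfull : ∀ (C : Finset α) (o : Option Bool), (∀ x, f x = o ↔ x ∈ C) → C ⊆ B1 ∪ B2 →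
      Full K C := by
    intro C o hC hsub σ h1 h2
    have : ∀ x, f (σ x) = f x := fun x => by
      by_cases hx : x ∈ σ.support
      · rw [(hC _).2 (h1 hx), (hC _).2 (h1 (apply_mem_support.2 hx))]
      · rw [notMem_support.1 hx]
    exact hXK ⟨h2, fun x y => by rw [this, this], fun x hx =>
      notMem_support.1 fun h => hx (hsub (h1 h))⟩
  obtain ⟨g, gs, g1, g2, g3⟩ := exists_swapper hd (c1.trans c2.symm) (by omega)
  have hg : g ∈ K := by
    have : ∀ x, f (g x) = (f x).map not := fun x => by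
      by_cases a1 : x ∈ B1
      · rw [(f1 x).2 a1, (f2 _).2 (g1 x a1)]; rfl
      by_cases a2 : x ∈ B2
      · rw [(f2 x).2 a2, (f1 _).2 (g2 x a2)]; rfl
      have a3 : x ∉ B1 ∪ B2 := by simp [a1, a2]
      rw [g3 x a3, (f3 x).2 a3]; rfl
    refine hXK ⟨gs, fun x y => ?_, g3⟩
    rw [this, this]
    generalize f x = u
    generalize f y = v
    revert u v
    decide
  have F1 := hfull B1 _ f1 Finset.subset_union_left
  have F2 := hfull B2 _ f2 Finset.subset_union_right
  have M1 := maxFull_of_swap hr hrm hr5 hK hd (by omega) (by omega) F1 F2 hg g1 g3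
  have M2 := maxFull_of_swap hr hrm hr5 hK hd.symm (by omega) (by omega) F2 F1 hg g2
    (by rwa [Finset.union_comm])
  obtain ⟨σ, hσ⟩ := hK.matching (hmin 2 Nat.prime_two (by omega))
  have hodd : Odd (r - 2) := by
    obtain ⟨k, hk⟩ := hr.odd_of_ne_two (by omega)
    exact ⟨k - 1, by omega⟩
  obtain ⟨a, ha, ha'⟩ := M1.exists_fixed (c1 ▸ hodd) hσ
  obtain ⟨b, hb, hb'⟩ := M2.exists_fixed (c2 ▸ hodd) hσ
  exact Finset.disjoint_left.1 hd ha (hσ.uniq a b ha' hb' ▸ hb)

end

theorem all_mem_of_two_three (h2 : 2 ∈ π) (h3 : 3 ∈ π)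
    (hW : ∀ X : Subgroup (Perm α), X ≤ alternatingGroup α → IsPi π X → ∃ K, HallA π K ∧ X ≤ K)
    {t : ℕ} (ht : t.Prime) (htn : t ≤ Fintype.card α) : t ∈ π := by
  classical
  by_contra hcon
  have hex : ∃ r, r.Prime ∧ r ∉ π := ⟨t, ht, hcon⟩
  obtain ⟨hr, hrm⟩ := Nat.find_spec hex
  have hle : Nat.find hex ≤ t := Nat.find_min' hex ⟨ht, hcon⟩
  have hmin : ∀ s : ℕ, s.Prime → s < Nat.find hex → s ∈ π := fun s hs h => by
    by_contra h'
    exact Nat.find_min hex h ⟨hs, h'⟩
  have hr5 : 5 ≤ Nat.find hex :=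
    hr.five_le_of_ne_two_of_ne_three (fun e => hrm (e ▸ h2)) fun e => hrm (e ▸ h3)
  by_cases h : Fintype.card α + 5 ≤ 2 * Nat.find hex
  · exact hall_small hr hrm hmin hr5 hW (by omega) h
  · exact hall_large hr hrm hmin hr5 hW (by omega)

end Pool.Agent.MP_983df8_al

end MrgPart6

-- marker of a merged file
example : 731051 + 828505 = 731051 + 828505 := rfl
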