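import Mathlib.Data.Int.Star
import Mathlib.NumberTheory.Padics.PadicVal.Basic
import Mathlib.Analysis.SpecialFunctions.RegularizedHypergeometric
import Mathlib.Tactic.Algebra.Basic
import Pool.Agent.MP_983df8_al.HallB

-- ======== part 0: formerly Pool.Agent.MP_983df8_al.Aut
section MrgPart0

namespace Pool.Agent.MP_983df8_al

open Subgroup Equiv Equiv.Perm

variable {α : Type*} [Fintype α] [DecidableEq α]

theorem exists_ne4 (hn : 5 ≤ Fintype.card α) (a b c e : α) :
    ∃ j, j ≠ a ∧ j ≠ b ∧ j ≠ c ∧ j ≠ e := by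
  obtain ⟨j, hj⟩ := exists_notMem_of_lt (R := ({a, b, c, e} : Finset α))
    (lt_of_le_of_lt Finset.card_le_four hn)
  exact ⟨j, by simpa using hj⟩

theorem conjNormal_injective (hn : 5 ≤ Fintype.card α) :
    Function.Injective (MulAut.conjNormal : Perm α →* MulAut (alternatingGroup α)) := by
  rw [injective_iff_map_eq_one]
  intro s hs
  ext a
  by_contra ha
  obtain ⟨b, b1, b2, -⟩ := exists_ne4 hn a (s a) a a
  obtain ⟨c, c1, c2, c3, -⟩ := exists_ne4 hn a (s a) b b
  have h1 := congrArg (fun φ : MulAut (alternatingGroup α) =>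
    ((φ ⟨swap a b * swap a c, by simp [b1.symm, c1.symm]⟩ : alternatingGroup α) : Perm α) (s a)) hs
  have ha' : s a ≠ a := ha
  simp only [MulAut.conjNormal_apply, MulAut.one_apply, mul_apply, Perm.coe_inv,
    symm_apply_apply, swap_apply_left, swap_apply_of_ne_of_ne c1 c3,
    swap_apply_of_ne_of_ne ha' c2.symm, swap_apply_of_ne_of_ne ha' b2.symm] at h1
  exact c1 (s.injective h1)

theorem share_two {c u : Perm α} (hu : u.IsThreeCycle) (h : (c * u) ^ 2 = 1) :
    (u.support \ c.support).card ≤ 1 := by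
  by_contra hcon
  obtain ⟨x, hx, hux⟩ : ∃ x ∈ u.support \ c.support, u x ∈ u.support \ c.support := by
    by_contra h1
    push Not at h1
    have := Finset.card_le_card_of_injOn (s := u.support \ c.support)
      (t := u.support \ (u.support \ c.support)) u (fun x hx => Finset.mem_coe.2
        (Finset.mem_sdiff.2 ⟨apply_mem_support.2 (Finset.mem_sdiff.1 hx).1, h1 x hx⟩))
      u.injective.injOn
    rw [Finset.card_sdiff_of_subset Finset.sdiff_subset, hu.card_support] at this
    omega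
  have e1 := notMem_support.1 (Finset.mem_sdiff.1 hx).2
  have e2 := notMem_support.1 (Finset.mem_sdiff.1 hux).2
  have e3 : c (u (c (u x))) = x := by simpa [pow_two] using DFunLike.congr_fun h x
  rw [e2] at e3
  have e4 : (u ^ 2) x = x := c.injective (e3.trans e1.symm)
  exact mem_support.1 (Finset.mem_sdiff.1 hx).1
    (fix_of_coprime (by rw [hu.orderOf]; norm_num) e4)

theorem alt_trans (hn : 5 ≤ Fintype.card α) (o x : α) :
    ∃ g : alternatingGroup α, (g : Perm α) o = x := by
  by_cases h : o = x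
  · exact ⟨1, h⟩
  obtain ⟨c, c1, c2, -⟩ := exists_ne4 hn o x o o
  exact ⟨⟨swap o x * swap x c, by simp [h, c2.symm]⟩, by
    simp [swap_apply_of_ne_of_ne h c1.symm]⟩

/-- the automorphism maps three-cycles to three-cycles -/
def Pres3 (φ : MulAut (alternatingGroup α)) : Prop :=
  ∀ c : alternatingGroup α, (c : Perm α).IsThreeCycle →
    ((φ c : alternatingGroup α) : Perm α).IsThreeCycle

theorem Pres3.inner (hn : 5 ≤ Fintype.card α) {φ : MulAut (alternatingGroup α)} (h : Pres3 φ) :
    ∃ s : Perm α, MulAut.conjNormal s = φ := by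
  obtain ⟨o⟩ : Nonempty α := Fintype.card_pos_iff.1 (by omega)
  obtain ⟨a, a1, -⟩ := exists_ne4 hn o o o o
  obtain ⟨b, b1, b2, -⟩ := exists_ne4 hn o a o o
  obtain ⟨i0, i1, i2, i3, -⟩ := exists_ne4 hn o a b o
  let t : α → alternatingGroup α := fun i =>
    if hi : i = a then 1 else ⟨swap a b * swap a i, by simp [b2.symm, Ne.symm hi]⟩
  have ht : ∀ i, i ≠ a → (t i : Perm α) = swap a b * swap a i := fun i hi => by
    simp only [t, dif_neg hi]
  have ht3 : ∀ i, i ≠ a → i ≠ b → (t i : Perm α).IsThreeCycle := fun i h1 h2 =>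
    ht i h1 ▸ isThreeCycle_swap_mul_swap_same b2.symm h1.symm h2.symm
  let T : α → Finset α := fun i => ((φ (t i) : alternatingGroup α) : Perm α).support
  let J : Finset α := ({o, a, b, i0} : Finset α)ᶜ
  have hJ : J.card + 4 = Fintype.card α := by
    rw [Finset.card_compl, Finset.card_eq_four.2 ⟨o, a, b, i0, a1.symm, b1.symm, i1.symm, b2.symm,
      i2.symm, i3.symm, rfl⟩]
    omega
  have hW : (T i0 ∪ J.biUnion fun i => T i \ T i0).card < Fintype.card α := by
    have c1 : (T i0).card = 3 := (h _ (ht3 i0 i2 i3)).card_support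
    have c2 := Finset.card_biUnion_le_card_mul J (fun i => T i \ T i0) 1 fun i hi => by
      simp only [J, Finset.mem_compl, Finset.mem_insert, Finset.mem_singleton, not_or] at hi
      refine share_two (h _ (ht3 i hi.2.1 hi.2.2.1)) ?_
      have : (t i0 * t i) ^ 2 = 1 := by
        apply Subtype.ext
        rw [SubgroupClass.coe_pow, Subgroup.coe_mul, ht i0 i2, ht i hi.2.1]
        ext x
        simp only [pow_two, mul_apply, swap_apply_def, OneMemClass.coe_one, Perm.one_apply]
        grind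
      rw [← Subgroup.coe_mul, ← map_mul, ← SubgroupClass.coe_pow, ← map_pow, this, map_one]
      rfl
    have := Finset.card_union_le (T i0) (J.biUnion fun i => T i \ T i0)
    omega
  obtain ⟨o', ho'⟩ := exists_notMem_of_lt hW
  let K : Subgroup (Perm α) := ((MulAction.stabilizer (Perm α) o').comap
    ((alternatingGroup α).subtype.comp φ.toMonoidHom)).map (alternatingGroup α).subtype
  have hK : ∀ g : alternatingGroup α,
      (g : Perm α) ∈ K ↔ ((φ g : alternatingGroup α) : Perm α) o' = o' := fun g =>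
    mem_map_iff_mem (alternatingGroup α).subtype_injective
  have h1 : ∀ x, x ≠ o → x ≠ a → swap a b * swap a x ∈ K := by
    intro x x1 x2
    by_cases x3 : x = b
    · subst x3; simp
    rw [← ht x x2, hK, ← notMem_support]
    rw [Finset.mem_union, not_or] at ho'
    by_cases x4 : x = i0
    · subst x4; exact ho'.1
    · exact fun hm => ho'.2 (Finset.mem_biUnion.2
        ⟨x, by simp [J, x1, x2, x3, x4], Finset.mem_sdiff.2 ⟨hm, ho'.1⟩⟩)
  have hfull : Full K (Finset.univ.erase o) := full_of_base (o := a) fun x hx y hy xa ya => by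
    have := K.mul_mem (K.inv_mem (h1 x (Finset.ne_of_mem_erase hx) xa))
      (h1 y (Finset.ne_of_mem_erase hy) ya)
    simpa [mul_assoc] using this
  have h2 : ∀ g : alternatingGroup α, (g : Perm α) o = o →
      ((φ g : alternatingGroup α) : Perm α) o' = o' := fun g hg =>
    (hK g).1 (hfull g (fun x hx => Finset.mem_erase.2
      ⟨fun e => mem_support.1 hx (e ▸ hg), Finset.mem_univ _⟩) g.2)
  choose γ hγ using alt_trans hn o
  let s0 : α → α := fun x => ((φ (γ x) : alternatingGroup α) : Perm α) o'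
  have heq : ∀ (g : alternatingGroup α) x,
      s0 ((g : Perm α) x) = ((φ g : alternatingGroup α) : Perm α) (s0 x) := by
    intro g x
    have := h2 ((γ ((g : Perm α) x))⁻¹ * (g * γ x)) (by
      rw [Subgroup.coe_mul, mul_apply, Subgroup.coe_inv, Perm.inv_eq_iff_eq, hγ, Subgroup.coe_mul,
        mul_apply, hγ])
    rw [map_mul, map_mul, map_inv, Subgroup.coe_mul, mul_apply, Subgroup.coe_inv,
      Perm.inv_eq_iff_eq] at this
    exact this.symm
  have hsurj : Function.Surjective s0 := fun y => by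
    obtain ⟨g, hg⟩ := alt_trans hn (s0 o) y
    exact ⟨(φ.symm g : alternatingGroup α).1 o, by rw [heq, MulEquiv.apply_symm_apply, hg]⟩
  refine ⟨Equiv.ofBijective s0 (Finite.surjective_iff_bijective.1 hsurj), ?_⟩
  ext g x
  obtain ⟨x, rfl⟩ := hsurj x
  rw [MulAut.conjNormal_apply, ← heq, mul_apply, mul_apply]
  exact congrArg (fun y => s0 ((g : Perm α) y)) (Equiv.ofBijective_symm_apply_apply _ _ x)

theorem fact_ineq (k : ℕ) (hk : 3 ≤ k) : 2 * (3 ^ k * k.factorial) < 3 * (3 * k - 3).factorial := by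
  induction k, hk using Nat.le_induction with
  | base => decide
  | succ k hk ih =>
    obtain ⟨m, rfl⟩ : ∃ m, k = m + 1 := ⟨k - 1, by omega⟩
    have e1 : 3 * (m + 1) - 3 = 3 * m := by omega
    have e2 : 3 * (m + 1 + 1) - 3 = 3 * m + 1 + 1 + 1 := by omega
    rw [e1] at ih
    rw [e2, Nat.factorial_succ (m + 1), pow_succ, Nat.factorial_succ (3 * m + 1 + 1),
      Nat.factorial_succ (3 * m + 1), Nat.factorial_succ (3 * m)]
    have h1 : 3 * (m + 1 + 1) ≤ (3 * m + 1 + 1 + 1) * ((3 * m + 1 + 1) * (3 * m + 1)) := by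
      nlinarith [Nat.zero_le (m * m), Nat.zero_le (m * m * m)]
    calc 2 * (3 ^ (m + 1) * 3 * ((m + 1 + 1) * (m + 1).factorial))
        = (3 * (m + 1 + 1)) * (2 * (3 ^ (m + 1) * (m + 1).factorial)) := by ring
      _ < (3 * (m + 1 + 1)) * (3 * (3 * m).factorial) :=
        Nat.mul_lt_mul_of_pos_left ih (by omega)
      _ ≤ ((3 * m + 1 + 1 + 1) * ((3 * m + 1 + 1) * (3 * m + 1))) * (3 * (3 * m).factorial) :=
        Nat.mul_le_mul_right _ h1
      _ = _ := by ring

theorem fact_ineq' {n k : ℕ} (hk : 2 ≤ k) (hn : 3 * k ≤ n) (h6 : n ≠ 6) :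
    2 * ((n - 3 * k).factorial * 3 ^ k * k.factorial) < (n - 3).factorial * 3 := by
  obtain ⟨j, rfl⟩ := Nat.exists_eq_add_of_le hn
  rw [Nat.add_sub_cancel_left]
  have hj := j.factorial_pos
  rcases Nat.eq_or_lt_of_le hk with rfl | hk
  · have e : 3 * 2 + j - 3 = j + 1 + 1 + 1 := by omega
    rw [e, Nat.factorial_succ (j + 1 + 1), Nat.factorial_succ (j + 1), Nat.factorial_succ j]
    have h1 : 24 ≤ (j + 1 + 1 + 1) * ((j + 1 + 1) * (j + 1)) := by
      have : 1 ≤ j := by omega
      nlinarith [Nat.zero_le (j * j), Nat.zero_le (j * j * j)]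
    have h2 := Nat.mul_le_mul_right j.factorial h1
    have e2 : Nat.factorial 2 = 2 := rfl
    rw [e2]
    nlinarith
  · have h1 := fact_ineq k hk
    have e : 3 * k + j - 3 = j + (3 * k - 3) := by omega
    have h2 := Nat.le_of_dvd (Nat.factorial_pos _)
      (Nat.factorial_mul_factorial_dvd_factorial_add j (3 * k - 3))
    rw [e]
    have h3 := Nat.mul_lt_mul_of_pos_left h1 hj
    nlinarith

theorem card_centralizer_replicate {g : Perm α} {k p : ℕ}
    (h : g.cycleType = Multiset.replicate k p) : Nat.card (centralizer {g}) =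
      (Fintype.card α - p * k).factorial * p ^ k * k.factorial := by
  rw [nat_card_centralizer, h]
  rcases Nat.eq_zero_or_pos k with rfl | hk
  · simp
  · simp [Multiset.toFinset_replicate, hk.ne', mul_comm]

theorem card_le_two_mul (X : Subgroup (Perm α)) :
    Nat.card X ≤ 2 * Nat.card (X.subgroupOf (alternatingGroup α)) := by
  have h1 := ((alternatingGroup α).subgroupOf X).card_mul_index
  have h2 : ((alternatingGroup α).subgroupOf X).index ≤ 2 := by
    have h3 := relIndex_dvd_index_of_normal (alternatingGroup α) X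
    rcases subsingleton_or_nontrivial α with h | h
    · rw [alternatingGroup.index_eq_one] at h3
      exact (Nat.le_of_dvd one_pos h3).trans one_le_two
    · rw [alternatingGroup.index_eq_two] at h3
      exact Nat.le_of_dvd two_pos h3
  have h4 : Nat.card ((alternatingGroup α).subgroupOf X) =
      Nat.card (X.subgroupOf (alternatingGroup α)) := by
    rw [← inf_subgroupOf_right, ← inf_subgroupOf_left X,
      Nat.card_congr (subgroupOfEquivOfLe inf_le_right).toEquiv,
      Nat.card_congr (subgroupOfEquivOfLe inf_le_left).toEquiv]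
  rw [← h1, h4, mul_comm]
  exact Nat.mul_le_mul_right _ h2

theorem type_of_aut (φ : MulAut (alternatingGroup α)) {c : alternatingGroup α}
    (hc : orderOf (c : Perm α) = 3) : ∃ k, 1 ≤ k ∧ 3 * k ≤ Fintype.card α ∧
      ((φ c : alternatingGroup α) : Perm α).cycleType = Multiset.replicate k 3 := by
  have h1 : orderOf ((φ c : alternatingGroup α) : Perm α) = 3 := by
    rw [Subgroup.orderOf_coe, MulEquiv.orderOf_eq, ← Subgroup.orderOf_coe, hc]
  obtain ⟨k, hk⟩ := cycleType_prime_order (h1 ▸ Nat.prime_three)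
  rw [h1] at hk
  refine ⟨k + 1, by omega, ?_, hk⟩
  have := sum_cycleType_le ((φ c : alternatingGroup α) : Perm α)
  rwa [hk, Multiset.sum_replicate, smul_eq_mul, mul_comm] at this

theorem pres3_of_ne_six (h6 : Fintype.card α ≠ 6) (φ : MulAut (alternatingGroup α)) : Pres3 φ := by
  intro c hc
  obtain ⟨k, k1, k2, hk⟩ := type_of_aut φ hc.orderOf
  rcases Nat.eq_or_lt_of_le k1 with rfl | k1
  · exact hk
  exfalso
  have e1 := card_centralizer_replicate hk
  have e2 := card_centralizer_replicate (k := 1) (p := 3) hc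
  have e3 := card_le_two_mul (centralizer {(c : Perm α)})
  have e4 : Nat.card ((centralizer {(c : Perm α)}).subgroupOf (alternatingGroup α)) ≤
      Nat.card (centralizer {((φ c : alternatingGroup α) : Perm α)}) := by
    refine Nat.card_le_card_of_injective (fun x => ⟨((φ x.1 : alternatingGroup α) : Perm α), ?_⟩)
      fun x y hxy => Subtype.ext (φ.injective (Subtype.ext (Subtype.mk.inj hxy)))
    have := mem_centralizer_singleton_iff.1 x.2
    rw [mem_centralizer_singleton_iff, ← Subgroup.coe_mul, ← Subgroup.coe_mul, ← map_mul, ← map_mul]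
    exact congrArg (fun y => ((φ y : alternatingGroup α) : Perm α)) (Subtype.ext this)
  have := fact_ineq' k1 k2 h6
  simp only [mul_one, pow_one, Nat.factorial_one] at e2
  omega

theorem Pres3.pow {φ : MulAut (alternatingGroup α)} (h : Pres3 φ) (m : ℕ) : Pres3 (φ ^ m) := by
  induction m with
  | zero => exact fun c hc => hc
  | succ m ih => exact fun c hc => by rw [pow_succ']; exact h _ (ih c hc)

theorem pres3_of_odd (h6 : Fintype.card α = 6) (φ : MulAut (alternatingGroup α))
    (hφ : Odd (orderOf φ)) : Pres3 φ := by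
  classical
  by_contra hcon
  have hall : ∀ c : alternatingGroup α, (c : Perm α).IsThreeCycle →
      ¬ ((φ c : alternatingGroup α) : Perm α).IsThreeCycle := by
    intro c hc hφc
    refine hcon fun d hd => ?_
    obtain ⟨x, rfl⟩ := isConj_iff.1 (alternatingGroup.isThreeCycle_isConj
      (by rw [Nat.card_eq_fintype_card]; omega) hc hd)
    rw [map_mul, map_mul, map_inv]
    exact (cycleType_conj).trans hφc
  let C1 : Finset (Perm α) := {g | g.cycleType = {3}}
  let C2 : Finset (Perm α) := {g | g.cycleType = {3, 3}}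
  have c1 : C1.card = 40 := by
    have := card_of_cycleType α {3}
    rw [h6] at this
    exact this.trans (by decide)
  have c2 : C2.card = 40 := by
    have := card_of_cycleType α {3, 3}
    rw [h6] at this
    exact this.trans (by decide)
  have ho : ∀ g : Perm α, g.cycleType = {3, 3} → orderOf g = 3 := fun g hg => by
    rw [← lcm_cycleType, hg]; rfl
  have hty : ∀ c : alternatingGroup α, orderOf (c : Perm α) = 3 →
      ((φ c : alternatingGroup α) : Perm α).IsThreeCycle ∨
      ((φ c : alternatingGroup α) : Perm α).cycleType = {3, 3} := by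
    intro c hc
    obtain ⟨k, k1, k2, hk⟩ := type_of_aut φ hc
    obtain rfl | rfl : k = 1 ∨ k = 2 := by omega
    · exact Or.inl hk
    · exact Or.inr hk
  let ψ : Perm α → Perm α := fun g =>
    if h : g ∈ alternatingGroup α then ((φ ⟨g, h⟩ : alternatingGroup α) : Perm α) else g
  have hψ : ∀ g : alternatingGroup α, ψ g = ((φ g : alternatingGroup α) : Perm α) := fun g =>
    dif_pos g.2
  have hsurj := Finset.surjOn_of_injOn_of_card_le (s := C1) (t := C2) ψ (fun g hg => by
      have hg' : g.IsThreeCycle := by simpa [C1, IsThreeCycle] using hg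
      have := (hty ⟨g, hg'.mem_alternatingGroup⟩ hg'.orderOf).resolve_left (hall _ hg')
      rw [← hψ] at this
      simpa [C2] using this)
    (fun g hg g' hg' e => by
      have a1 : g.IsThreeCycle := by simpa [C1, IsThreeCycle] using hg
      have a2 : g'.IsThreeCycle := by simpa [C1, IsThreeCycle] using hg'
      have e' := (hψ ⟨g, a1.mem_alternatingGroup⟩).symm.trans
        (e.trans (hψ ⟨g', a2.mem_alternatingGroup⟩))
      exact congrArg Subtype.val (φ.injective (Subtype.ext e'))) (by omega)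
  have h2 : Pres3 (φ ^ 2) := by
    intro c hc
    have a1 := (hty c hc.orderOf).resolve_left (hall c hc)
    refine (hty (φ c) (ho _ a1)).resolve_right fun a2 => ?_
    obtain ⟨d, hd, e⟩ := hsurj (show ((φ (φ c) : alternatingGroup α) : Perm α) ∈ (C2 : Set _) by
      simpa [C2] using a2)
    have hd' : d.IsThreeCycle := by simpa [C1, IsThreeCycle] using hd
    have := φ.injective (Subtype.ext ((hψ ⟨d, hd'.mem_alternatingGroup⟩).symm.trans e))
    exact hall c hc (this ▸ hd')
  obtain ⟨m, hm⟩ := exists_pow_eq_self_of_coprime (Nat.coprime_two_left.2 hφ)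
  exact hcon (hm ▸ h2.pow m)

theorem aut_inner (hn : 5 ≤ Fintype.card α) (φ : MulAut (alternatingGroup α))
    (h : Fintype.card α ≠ 6 ∨ Odd (orderOf φ)) : ∃ s : Perm α, MulAut.conjNormal s = φ := by
  by_cases h6 : Fintype.card α = 6
  · exact (pres3_of_odd h6 φ (h.resolve_left (not_not.2 h6))).inner hn
  · exact (pres3_of_ne_six h6 φ).inner hn

theorem isPGroup_aut (hn : 5 ≤ Fintype.card α) {π : Set ℕ} {p : ℕ} (hp : p.Prime)
    (h : ∀ t : ℕ, t.Prime → t ∈ π → t ≤ Fintype.card α → t = p)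
    {B : Subgroup (MulAut (alternatingGroup α))} (hB : IsPi π B) : IsPGroup p B := by
  refine IsPi.isPGroup hp (isPi_of_orderOf fun β hβ ht => h _ ht (hB.orderOf_mem hβ ht dvd_rfl) ?_)
  by_contra hcon
  obtain ⟨s, rfl⟩ := aut_inner hn β (Or.inr (ht.odd_of_ne_two (by omega)))
  rw [orderOf_injective _ (conjNormal_injective hn)] at ht hcon
  have := orderOf_dvd_card (x := s)
  rw [Fintype.card_perm] at this
  exact hcon (ht.dvd_factorial.1 this)

end Pool.Agent.MP_983df8_al

end MrgPart0

-- ======== part 1: formerly Pool.Agent.MP_983df8_al.Loc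
section MrgPart1

namespace Pool.Agent.MP_983df8_al

open Subgroup Equiv Equiv.Perm

/-- seven inequivalent regular triples for every `p`-group of automorphisms -/
def Loc (p : ℕ) (S : Type*) [Group S] : Prop :=
  ∀ B : Subgroup (MulAut S), IsPGroup p B → ∃ x y : ZMod 7 → S, ∀ β ∈ B, ∀ i j,
    MulAut.conj (x i) * β * (MulAut.conj (x j))⁻¹ ∈ B →
    MulAut.conj (y i) * β * (MulAut.conj (y j))⁻¹ ∈ B → i = j ∧ β = 1

theorem Loc.congr {p : ℕ} {S S' : Type*} [Group S] [Group S'] (e : S ≃* S') (h : Loc p S') :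
    Loc p S := by
  intro B hB
  obtain ⟨x, y, hxy⟩ := h (B.map (MulAut.congr e).toMonoidHom) (hB.map _)
  have hc : ∀ a : S', MulAut.congr e (MulAut.conj (e.symm a)) = MulAut.conj a := fun a => by
    ext b; simp
  refine ⟨fun i => e.symm (x i), fun i => e.symm (y i), fun β hβ i j h1 h2 => ?_⟩
  have := hxy (MulAut.congr e β) ⟨β, hβ, rfl⟩ i j
    ⟨_, h1, by simp only [MulEquiv.coe_toMonoidHom, map_mul, map_inv, hc]⟩
    ⟨_, h2, by simp only [MulEquiv.coe_toMonoidHom, map_mul, map_inv, hc]⟩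
  exact ⟨this.1, (MulEquiv.map_eq_one_iff _).1 this.2⟩

variable {α : Type*} [Fintype α] [DecidableEq α] {p : ℕ}

/-- the same inside the symmetric group -/
def LocP (P : Subgroup (Perm α)) : Prop :=
  ∃ x y : ZMod 7 → alternatingGroup α, ∀ b ∈ P, ∀ i j,
    (x i : Perm α) * b * (x j : Perm α)⁻¹ ∈ P → (y i : Perm α) * b * (y j : Perm α)⁻¹ ∈ P →
    i = j ∧ b = 1

theorem loc_of_locP (hn : 5 ≤ Fintype.card α) (h : Fintype.card α ≠ 6 ∨ Odd p)
    (hP : ∀ P : Subgroup (Perm α), IsPGroup p P → LocP P) : Loc p (alternatingGroup α) := by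
  intro B hB
  obtain ⟨x, y, hxy⟩ := hP (B.comap MulAut.conjNormal)
    (hB.comap_of_injective _ (conjNormal_injective hn))
  refine ⟨x, y, fun β hβ i j h1 h2 => ?_⟩
  obtain ⟨b, rfl⟩ := aut_inner hn β (h.imp_right fun hp => by
    have := hB.orderOf_coprime (Nat.coprime_two_right.2 hp) ⟨β, hβ⟩
    rw [← Subgroup.orderOf_coe] at this
    exact Nat.coprime_two_right.1 this)
  have := hxy b hβ i j
    (by rwa [mem_comap, map_mul, map_mul, map_inv, MulAut.conjNormal_val, MulAut.conjNormal_val])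
    (by rwa [mem_comap, map_mul, map_mul, map_inv, MulAut.conjNormal_val, MulAut.conjNormal_val])
  exact ⟨this.1, by rw [this.2, map_one]⟩

theorem LocP.of_conj {P : Subgroup (Perm α)} {c : Perm α} (h : LocP (conjBy P c)) : LocP P := by
  obtain ⟨x, y, hxy⟩ := h
  refine ⟨fun i => MulAut.conjNormal c (x i), fun i => MulAut.conjNormal c (y i),
    fun b hb i j h1 h2 => ?_⟩
  have := hxy (c⁻¹ * b * c) (by simpa [mem_conjBy, mul_assoc] using hb) i j
    (by simpa [mem_conjBy, mul_assoc] using h1) (by simpa [mem_conjBy, mul_assoc] using h2)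
  refine ⟨this.1, ?_⟩
  have h3 := congrArg (fun t => c * t * c⁻¹) this.2
  simpa [mul_assoc] using h3

theorem cycleType_eq_replicate (hp : p.Prime) {σ : Perm α} (h1 : σ ^ p = 1) {k : ℕ}
    (h2 : σ.support.card = p * k) : σ.cycleType = Multiset.replicate k p := by
  have := Fact.mk hp
  have e := cycleType_of_pow_prime_eq_one h1
  have e2 := sum_cycleType σ
  rw [e, Multiset.sum_replicate, smul_eq_mul, h2, mul_comm] at e2
  rw [e, Nat.eq_of_mul_eq_mul_left hp.pos e2]

theorem locP_of_centralizer (hp : p.Prime) {σ : Perm α} (h1 : σ ^ p = 1)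
    (h2 : σ.support.card = p * (Fintype.card α / p))
    (h : ∀ P : Subgroup (Perm α), IsPGroup p P → (∀ b ∈ P, Commute b σ) → LocP P)
    (P : Subgroup (Perm α)) (hP : IsPGroup p P) : LocP P := by
  have := Fact.mk hp
  have hidx : ¬ p ∣ (centralizer {σ}).index := by
    rintro ⟨m, hm⟩
    have e := (centralizer {σ}).card_mul_index
    rw [card_centralizer_replicate (cycleType_eq_replicate hp h1 h2), hm, Nat.card_perm,
      Nat.card_eq_fintype_card] at e
    set k := Fintype.card α / p
    have d : p ^ (k + 1) * k.factorial ∣ (Fintype.card α).factorial :=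
      ⟨(Fintype.card α - p * k).factorial * m, by rw [← e]; ring⟩
    have v1 : padicValNat p (Fintype.card α).factorial = padicValNat p k.factorial + k := by
      rw [← padicValNat_factorial_mul, ← padicValNat_factorial_mul_add k (Nat.mod_lt
        (Fintype.card α) hp.pos), Nat.div_add_mod]
    have v2 := (padicValNat_dvd_iff_le (p := p) (Nat.factorial_ne_zero _)).1
      ((pow_add p _ _).dvd.trans ((Nat.mul_dvd_mul_left (p ^ (k + 1))
        (pow_padicValNat_dvd (p := p) (n := k.factorial))).trans d))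
    omega
  obtain ⟨x, hx⟩ := exists_conj_of_isPGroup hp hidx hP
  refine LocP.of_conj (c := x⁻¹) (h _ (hP.comap_of_injective _ (MulAut.conj x⁻¹).injective)
    fun b hb => ?_)
  have := mem_conjBy.1 (hx (mem_conjBy.1 hb))
  simpa [mul_assoc, mem_centralizer_singleton_iff, Commute, SemiconjBy] using this

theorem exists_reps (hn : 5 ≤ Fintype.card α) (hp : p.Prime) {P : Subgroup (Perm α)}
    (hP : IsPGroup p P) : ∃ y : ZMod 7 → alternatingGroup α,
      ∀ i j, (y i : Perm α) * (y j : Perm α)⁻¹ ∈ P → i = j := by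
  have := Fact.mk hp
  set P0 := P.subgroupOf (alternatingGroup α)
  obtain ⟨a, ha⟩ := (IsPGroup.iff_card (G := P0)).1
    (hP.comap_of_injective _ (alternatingGroup α).subtype_injective)
  have : Nontrivial α := Fintype.one_lt_card_iff_nontrivial.1 (by omega)
  have h60 : 60 ∣ p ^ a * P0.index := by
    rw [← ha, P0.card_mul_index]
    have e := two_mul_nat_card_alternatingGroup (α := α)
    rw [Nat.card_perm, Nat.card_eq_fintype_card (α := α)] at e
    have d : Nat.factorial 5 ∣ 2 * Nat.card (alternatingGroup α) :=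
      e ▸ Nat.factorial_dvd_factorial hn
    exact Nat.dvd_of_mul_dvd_mul_left two_pos d
  have hd : ∀ q m : ℕ, q.Prime → q ≠ p → q ^ m ∣ 60 → q ^ m ∣ P0.index := fun q m hq hne d =>
    (Nat.Coprime.pow m a ((Nat.coprime_primes hq hp).2 hne)).dvd_of_dvd_mul_left (d.trans h60)
  have h0 : P0.index ≠ 0 := P0.index_ne_zero_of_finite
  have h7 : 7 ≤ P0.index := by
    have a2 := fun h => hd 2 2 Nat.prime_two h (by norm_num)
    have a3 := fun h => hd 3 1 Nat.prime_three h (by norm_num)
    have a5 := fun h => hd 5 1 Nat.prime_five h (by norm_num)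
    omega
  obtain ⟨f⟩ : Nonempty (ZMod 7 ↪ alternatingGroup α ⧸ P0) := by
    have := Fintype.ofFinite (alternatingGroup α ⧸ P0)
    refine Function.Embedding.nonempty_of_card_le ?_
    rwa [ZMod.card, ← Nat.card_eq_fintype_card]
  refine ⟨fun i => (f i).out⁻¹, fun i j h => f.injective ?_⟩
  rw [← (f i).out_eq, ← (f j).out_eq]
  exact QuotientGroup.eq.2 (by simpa [P0, mem_subgroupOf] using h)

omit [Fintype α] [DecidableEq α] in
theorem commute_conj {σ b x : Perm α} (h : Commute (x * b * x⁻¹) σ) : Commute b (x⁻¹ * σ * x) := by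
  have := congrArg (fun t => x⁻¹ * t * x) h.eq
  simpa [Commute, SemiconjBy, mul_assoc] using this

theorem locP_of_pair (hn : 5 ≤ Fintype.card α) (hp : p.Prime) {P : Subgroup (Perm α)}
    (hP : IsPGroup p P) {σ : Perm α} (hσ : ∀ b ∈ P, Commute b σ) {h : Perm α} (hs : sign h = 1)
    (hr : ∀ b ∈ P, Commute b (h * σ * h⁻¹) → b = 1) : LocP P := by
  obtain ⟨y, hy⟩ := exists_reps hn hp hP
  refine ⟨fun _ => ⟨h⁻¹, by simpa using hs⟩, y, fun b hb i j h1 h2 => ?_⟩
  obtain rfl := hr b hb (by simpa using commute_conj (hσ _ h1))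
  exact ⟨hy i j (by simpa using h2), rfl⟩

theorem exists_even_conj {σ o : Perm α} (ho : Commute o σ) (hs : sign o = -1) (h : Perm α) :
    ∃ h' : Perm α, sign h' = 1 ∧ h' * σ * h'⁻¹ = h * σ * h⁻¹ := by
  rcases Int.units_eq_one_or (sign h) with e | e
  · exact ⟨h, e, rfl⟩
  · refine ⟨h * o, by simp [e, hs], ?_⟩
    rw [mul_assoc h, ho.eq]
    simp [mul_assoc]

theorem split7 : ∃ u v : ZMod 7 → ℕ, (∀ i, u i < 3) ∧ (∀ i, v i < 3) ∧
    ∀ i j, u i = u j → v i = v j → i = j :=
  ⟨fun i => i.val / 3, fun i => i.val % 3, by decide, by decide, by decide⟩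

theorem locP_of_triple {P : Subgroup (Perm α)} (hP : IsPGroup 2 P) {σ : Perm α}
    (hσ : ∀ b ∈ P, Commute b σ) {z : Perm α} (hz : orderOf z = 3) (hzσ : Commute z σ)
    {h h' : Perm α} (hs : sign h = 1) (hs' : sign h' = 1)
    (hr : ∀ b ∈ P, Commute b (h * σ * h⁻¹) → Commute b (h' * σ * h'⁻¹) → b = 1) : LocP P := by
  obtain ⟨u, v, hu, hv, huv⟩ := split7
  have hzs : sign z = 1 := sign_of_odd_order (hz ▸ by decide)
  have key : ∀ (g b : Perm α) (m l : ℕ), z ^ m * g⁻¹ * b * (z ^ l * g⁻¹)⁻¹ ∈ P →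
      Commute b (g * σ * g⁻¹) := by
    intro g b m l hm
    have := ((hzσ.pow_left m).inv_left.mul_left (hσ _ hm)).mul_left (hzσ.pow_left l)
    simpa using commute_conj (x := g⁻¹) (b := b) (σ := σ) (by simpa [mul_assoc] using this)
  have key2 : ∀ (g : Perm α) (m l : ℕ), m < 3 → l < 3 →
      z ^ m * g⁻¹ * 1 * (z ^ l * g⁻¹)⁻¹ ∈ P → m = l := by
    intro g m l hm hl h1
    have h2 : z ^ m * (z ^ l)⁻¹ ∈ P := by simpa [mul_assoc] using h1
    have h3 : (z ^ m * (z ^ l)⁻¹) ^ 3 = 1 := by
      rw [((Commute.refl z).pow_pow m l).inv_right.mul_pow, inv_pow, ← pow_mul, ← pow_mul,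
        mul_comm m, mul_comm l, pow_mul, pow_mul, ← hz, pow_orderOf_eq_one]
      simp
    have h4 := hP.orderOf_coprime (n := 3) (by norm_num) ⟨_, h2⟩
    rw [← Subgroup.orderOf_coe] at h4
    have h5 := orderOf_eq_one_iff.1 (h4.eq_one_of_dvd (orderOf_dvd_of_pow_eq_one h3))
    exact pow_injOn_Iio_orderOf (by simpa [hz] using hm) (by simpa [hz] using hl)
      (mul_inv_eq_one.1 h5)
  refine ⟨fun i => ⟨z ^ u i * h⁻¹, by simp [hzs, hs]⟩, fun i => ⟨z ^ v i * h'⁻¹, by simp [hzs, hs']⟩,
    fun b hb i j h1 h2 => ?_⟩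
  obtain rfl := hr b hb (key _ _ _ _ h1) (key _ _ _ _ h2)
  exact ⟨huv i j (key2 _ _ _ (hu i) (hu j) h1) (key2 _ _ _ (hv i) (hv j) h2), rfl⟩

theorem eq_one_of_support_lt (hp : p.Prime) {P : Subgroup (Perm α)} (hP : IsPGroup p P)
    {b : Perm α} (hb : b ∈ P) (h : b.support.card < p) : b = 1 := by
  by_contra hne
  obtain ⟨l, hl⟩ := Multiset.card_pos_iff_exists_mem.1 (card_cycleType_pos.2 hne)
  obtain ⟨k, hk⟩ := hP ⟨b, hb⟩
  have h1 : l ∣ p ^ k := (dvd_of_mem_cycleType hl).trans
    (orderOf_dvd_of_pow_eq_one (congrArg Subtype.val hk))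
  obtain ⟨m, -, rfl⟩ := (Nat.dvd_prime_pow hp).1 h1
  have h2 := two_le_of_mem_cycleType hl
  have h3 := le_card_support_of_mem_cycleType hl
  rcases m with _ | m
  · simp at h2
  · have := Nat.le_of_dvd (by omega) (dvd_pow_self p (n := m + 1) (by omega))
    omega

theorem loc_large (hn : 5 ≤ Fintype.card α) (hp : p.Prime) (h : Fintype.card α < p) :
    Loc p (alternatingGroup α) :=
  loc_of_locP hn (Or.inr (hp.odd_of_ne_two (by omega))) fun _ hP =>
    locP_of_pair hn hp hP (σ := 1) (fun b _ => Commute.one_right b) (h := 1) (by simp)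
      fun _ hb _ => eq_one_of_support_lt hp hP hb ((Finset.card_le_univ _).trans_lt h)

end Pool.Agent.MP_983df8_al

end MrgPart1

-- ======== part 2: formerly Pool.Agent.MP_983df8_al.Rigid
section MrgPart2

namespace Pool.Agent.MP_983df8_al

open Subgroup Equiv Equiv.Perm Sum

/-- `k` blocks of `p` points and `s` further points -/
abbrev Pt (k p s : ℕ) := (ZMod k × ZMod p) ⊕ Fin s

variable {k p s : ℕ}

/-- lift a permutation of the block points -/
def liftB (s : ℕ) (e : Perm (ZMod k × ZMod p)) : Perm (Pt k p s) := e.sumCongr (Equiv.refl _)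

@[simp] theorem liftB_inl (e : Perm (ZMod k × ZMod p)) (x) : liftB s e (inl x) = inl (e x) := rfl
@[simp] theorem liftB_inr (e : Perm (ZMod k × ZMod p)) (r) : liftB s e (inr r) = inr r := rfl

/-- rotate every block -/
def rot (k p s : ℕ) : Perm (Pt k p s) := liftB s (prodCongrRight fun _ => Equiv.addRight 1)

@[simp] theorem rot_inl (i a) : rot k p s (inl (i, a)) = inl (i, a + 1) := rfl
@[simp] theorem rot_inr (r) : rot k p s (inr r) = inr r := rfl

theorem rot_pow_inl (m : ℕ) (i a) : (rot k p s ^ m) (inl (i, a)) = inl (i, a + m) := by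
  induction m with
  | zero => simp
  | succ m ih => rw [pow_succ', mul_apply, ih, rot_inl, Nat.cast_succ, add_assoc]

theorem rot_pow : rot k p s ^ p = 1 := by
  ext (⟨i, a⟩ | r)
  · simp [rot_pow_inl]
  · rw [pow_apply_eq_self_of_apply_eq_self (rot_inr r), Perm.one_apply]

/-- move the point `0` of every block to the next block -/
def shf (k p s : ℕ) : Perm (Pt k p s) :=
  liftB s (prodCongrLeft fun a => if a = 0 then Equiv.addRight 1 else Equiv.refl _)

theorem shf_zero (i) : shf k p s (inl (i, 0)) = inl (i + 1, 0) := by simp [shf]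
theorem shf_ne (i) {a : ZMod p} (h : a ≠ 0) : shf k p s (inl (i, a)) = inl (i, a) := by
  simp [shf, h]
theorem shf_inr (r) : shf k p s (inr r) = inr r := rfl

theorem fix_block [NeZero p] {b h : Perm (Pt k p s)} (hb : Commute b (h * rot k p s * h⁻¹)) {i a}
    (ha : b (h (inl (i, a))) = h (inl (i, a))) (a') : b (h (inl (i, a'))) = h (inl (i, a')) := by
  have e : inl (i, a') = (rot k p s ^ (a' - a).val) (inl (i, a)) := by simp [rot_pow_inl]
  have := DFunLike.congr_fun (hb.pow_right (a' - a).val).eq (h (inl (i, a)))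
  rw [conj_pow] at this
  simp only [mul_apply, Perm.coe_inv, symm_apply_apply, ha] at this
  rw [e, this]

theorem fix_all [NeZero k] [Fact p.Prime] {b h : Perm (Pt k p s)} (hb : Commute b (rot k p s))
    (hb' : Commute b (h * rot k p s * h⁻¹)) (h1 : ∀ i, i ≠ 0 → h (inl (i, 1)) = inl (i, 1))
    (h0 : ∀ i, i ≠ 0 → h (inl (i, 0)) = inl (i + 1, 0)) {a} (ha : b (inl (0, a)) = inl (0, a))
    (i a') : b (inl (i, a')) = inl (i, a') := by
  have hb1 : Commute b (1 * rot k p s * 1⁻¹) := by simpa using hb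
  have key : ∀ m : ℕ, ∀ a', b (inl (-(m : ZMod k), a')) = inl (-(m : ZMod k), a') := by
    intro m
    induction m with
    | zero => simpa using fix_block hb1 ha
    | succ m ih =>
      by_cases e : -((m + 1 : ℕ) : ZMod k) = 0
      · rw [e]; exact fix_block hb1 ha
      · have e1 := h0 _ e
        rw [show -((m + 1 : ℕ) : ZMod k) + 1 = -(m : ZMod k) by push_cast; ring] at e1
        have e2 := fix_block hb' (e1 ▸ ih 0) 1
        rw [h1 _ e] at e2
        exact fix_block hb1 e2
  simpa using key (-i).val a'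

/-- reverse the block `0` -/
def rev (k p s : ℕ) : Perm (Pt k p s) :=
  liftB s (prodCongrRight fun i => if i = 0 then Equiv.neg _ else Equiv.refl _)

theorem rev_zero (a) : rev k p s (inl (0, a)) = inl (0, -a) := by simp [rev]
theorem rev_ne {i : ZMod k} (h : i ≠ 0) (a) : rev k p s (inl (i, a)) = inl (i, a) := by
  simp [rev, h]

variable [NeZero k] [hp : Fact p.Prime]

theorem card_Pt : Fintype.card (Pt k p s) = p * k + s := by simp [mul_comm]

theorem card_support_rot (hs : s < p) :
    (rot k p s).support.card = p * (Fintype.card (Pt k p s) / p) := by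
  have : (rot k p s).support = Finset.univ.map ⟨inl, inl_injective⟩ := by
    ext (⟨i, a⟩ | r) <;> simp
  rw [this, card_Pt, Nat.mul_add_div hp.out.pos, Nat.div_eq_of_lt hs]
  simp [mul_comm]

theorem eq_one_of_fix (hs : s < p) {P : Subgroup (Perm (Pt k p s))} (hP : IsPGroup p P) {b}
    (hb : b ∈ P) (h : ∀ i a, b (inl (i, a)) = inl (i, a)) : b = 1 := by
  refine eq_one_of_support_lt hp.out hP hb (lt_of_le_of_lt ?_ hs)
  refine (Finset.card_le_card (t := Finset.univ.map ⟨inr, inr_injective⟩) ?_).trans (by simp)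
  rintro (⟨i, a⟩ | r) hx
  · exact absurd (h i a) (mem_support.1 hx)
  · simp

theorem loc_rest (hs0 : 0 < s) (hs : s < p) (hn : 5 ≤ p * k + s) (h6 : p * k + s ≠ 6 ∨ Odd p) :
    Loc p (alternatingGroup (Pt k p s)) := by
  refine loc_of_locP (card_Pt (k := k) (p := p) (s := s) ▸ hn)
    (card_Pt (k := k) (p := p) (s := s) ▸ h6)
    (locP_of_centralizer hp.out rot_pow (card_support_rot hs) fun P hP hσ => ?_)
  let r0 : Fin s := ⟨0, hs0⟩
  let g : Perm (Pt k p s) := swap (inr r0) (inl (0, 1)) * shf k p s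
  obtain ⟨h, hsign, hr, hl⟩ : ∃ h : Perm (Pt k p s), sign h = 1 ∧ (∀ r, h (inr r) = g (inr r)) ∧
      ∀ i a, i ≠ 0 → h (inl (i, a)) = g (inl (i, a)) := by
    rcases Int.units_eq_one_or (sign g) with e | e
    · exact ⟨g, e, fun _ => rfl, fun _ _ _ => rfl⟩
    · refine ⟨g * swap (inl (0, 0)) (inl (0, 1)), by simp [e], fun r => ?_, fun i a hi => ?_⟩
      · rw [mul_apply, swap_apply_of_ne_of_ne (by simp) (by simp)]
      · rw [mul_apply, swap_apply_of_ne_of_ne (by simp [hi]) (by simp [hi])]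
  refine locP_of_pair (card_Pt (k := k) (p := p) (s := s) ▸ hn) hp.out hP hσ hsign
    fun b hb hb' => eq_one_of_fix hs hP hb (fix_all (hσ b hb) hb' (fun i hi => ?_)
      (fun i hi => ?_) (a := 1) ?_)
  · rw [hl i 1 hi, mul_apply, shf_ne i one_ne_zero, swap_apply_of_ne_of_ne (by simp) (by simp [hi])]
  · rw [hl i 0 hi, mul_apply, shf_zero, swap_apply_of_ne_of_ne (by simp) (by simp)]
  · have e0 : h (inr r0) = inl (0, 1) := by rw [hr, mul_apply, shf_inr, swap_apply_left]
    have e1 := DFunLike.congr_fun hb'.eq (h (inr r0))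
    have e2 := DFunLike.congr_fun (hσ b hb).eq (inl (0, 1))
    simp only [mul_apply, Perm.coe_inv, symm_apply_apply, rot_inr] at e1 e2
    rw [e0] at e1
    obtain ⟨y, hy⟩ := h.surjective (b (inl (0, 1)))
    rw [← hy, symm_apply_apply] at e1
    rcases y with ⟨i, a⟩ | r
    · simpa using h.injective e1
    · by_cases e : r = r0
      · rw [← hy, e, e0]
      · rw [hr, mul_apply, shf_inr, swap_apply_of_ne_of_ne (by simpa using e) (by simp)] at hy
        rw [← hy, rot_inr, hy] at e2
        simpa using b.injective e2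

theorem loc_odd (hk : 2 ≤ k) (hodd : Odd p) : Loc p (alternatingGroup (Pt k p 0)) := by
  have h3 : 3 ≤ p := by
    have := hp.out.two_le
    obtain ⟨m, hm⟩ := hodd
    omega
  have hn : 5 ≤ Fintype.card (Pt k p 0) := by rw [card_Pt]; nlinarith
  have : Fact (1 < k) := ⟨hk⟩
  have h2 : (2 : ZMod p) ≠ 0 := fun e => by
    have := Nat.le_of_dvd two_pos ((ZMod.natCast_eq_zero_iff 2 p).1 e)
    omega
  refine loc_of_locP hn (Or.inr hodd)
    (locP_of_centralizer hp.out rot_pow (card_support_rot hp.out.pos) fun P hP hσ => ?_)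
  let h : Perm (Pt k p 0) := shf k p 0 * rev k p 0
  obtain ⟨h', hs, hh⟩ := exists_even_conj (σ := rot k p 0)
    (o := liftB 0 (prodCongrLeft fun _ => swap (0 : ZMod k) 1))
    (by ext (⟨i, a⟩ | r) <;> simp) (by
      simp [liftB, sign_sumCongr, sign_prodCongrLeft, hodd.neg_one_pow]) h
  refine locP_of_pair hn hp.out hP hσ hs fun b hb hb' => ?_
  rw [hh] at hb'
  have hval : ∀ i a, h (inl (i, a)) =
      inl (if a = 0 then i + 1 else i, if i = 0 then -a else a) := by
    intro i a
    by_cases hi : i = 0 <;> by_cases ha : a = 0 <;>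
      simp [h, hi, ha, rev_zero, rev_ne, shf_zero, shf_ne]
  have hU : ∀ x, rot k p 0 ((h * rot k p 0 * h⁻¹) x) = x ↔
      ∃ c : ZMod p, c ≠ 0 ∧ c ≠ 1 ∧ x = inl (0, c) := by
    intro x
    obtain ⟨(⟨i, a⟩ | r), rfl⟩ := h.surjective x
    swap
    · exact r.elim0
    rw [mul_apply, mul_apply, Perm.coe_inv, symm_apply_apply]
    simp only [rot_inl, hval, inl.injEq, Prod.mk.injEq]
    by_cases hi : i = 0
    · subst hi
      by_cases ha : a = 0
      · simp [ha]
      by_cases ha' : a + 1 = 0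
      · have : a = -1 := eq_neg_of_add_eq_zero_left ha'
        simp [this]
      · simp only [ha, ha', if_true, if_false, true_and]
        exact iff_of_true (by ring) ⟨-a, by simpa using ha,
          fun e => ha' (by rw [← e]; ring), rfl⟩
    · simp only [hi, if_false]
      refine iff_of_false (fun e => h2 (by linear_combination e.2)) ?_
      rintro ⟨c, c0, -, e1, rfl⟩
      exact hi (by simpa [c0] using e1)
  have hinv : ∀ x, rot k p 0 ((h * rot k p 0 * h⁻¹) (b x)) = b x ↔
      rot k p 0 ((h * rot k p 0 * h⁻¹) x) = x := fun x => by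
    have : b (rot k p 0 ((h * rot k p 0 * h⁻¹) x)) = rot k p 0 ((h * rot k p 0 * h⁻¹) (b x)) :=
      DFunLike.congr_fun ((hσ b hb).mul_right hb').eq x
    rw [← this, b.apply_eq_iff_eq]
  refine eq_one_of_fix hp.out.pos hP hb (fix_all (hσ b hb) hb' (fun i hi => by simp [hval, hi])
    (fun i hi => by simp [hval, hi]) (a := 2) ?_)
  obtain ⟨c, c0, c1, hc⟩ := (hU _).1 ((hinv _).2 ((hU (inl (0, 2))).2
    ⟨2, h2, fun e => one_ne_zero (α := ZMod p) (by linear_combination e), rfl⟩))
  have e1 : b (inl (0, 1)) = inl (0, c - 1) := (rot k p 0).injective (by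
    have := DFunLike.congr_fun (hσ b hb).eq (inl (0, 1))
    rw [mul_apply, mul_apply, rot_inl, one_add_one_eq_two, hc] at this
    rw [← this, rot_inl, sub_add_cancel])
  by_cases e2 : c - 1 = 1
  · rw [hc, show c = 2 by linear_combination e2]
  · obtain ⟨c', -, a1, a2⟩ := (hU _).1 ((hinv _).1 ((hU _).2 ⟨c - 1, sub_ne_zero.2 c1, e2, e1⟩))
    exact absurd (by simpa using a2.symm) a1

theorem loc_prime (h5 : 5 ≤ p) : Loc p (alternatingGroup (ZMod p)) := by
  have hn : 5 ≤ Fintype.card (ZMod p) := by rwa [ZMod.card]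
  have hne : ∀ m : ℕ, 0 < m → m < 5 → (m : ZMod p) ≠ 0 := fun m a1 a2 e => by
    have := Nat.le_of_dvd a1 ((ZMod.natCast_eq_zero_iff m p).1 e)
    omega
  have h2 : (2 : ZMod p) ≠ 0 := by simpa using hne 2 (by omega) (by omega)
  have h3 : (3 : ZMod p) ≠ 0 := by simpa using hne 3 (by omega) (by omega)
  have h21 : (2 : ZMod p) ≠ 1 := fun e => one_ne_zero (α := ZMod p) (by linear_combination e)
  let σ : Perm (ZMod p) := Equiv.addRight 1
  have hlin : ∀ (f : Perm (ZMod p)) (m : ZMod p), (∀ a, f (a + m) = f a + m) →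
      ∀ (j : ℕ) a, f (a + j * m) = f a + j * m := fun f m h j a => by
    induction j with
    | zero => simp
    | succ j ih => rw [Nat.cast_succ, add_mul, one_mul, ← add_assoc, h, ih, add_assoc]
  refine loc_of_locP hn (Or.inr (hp.out.odd_of_ne_two (by omega)))
    (locP_of_centralizer hp.out (σ := σ) (by ext a; simp [σ]) ?_ fun P hP hσ => ?_)
  · have : σ.support = Finset.univ := by ext a; simp [σ]
    rw [this, Finset.card_univ, ZMod.card, Nat.div_self hp.out.pos, mul_one]
  refine locP_of_pair hn hp.out hP hσ (h := swap 0 2 * swap 0 1) (by simp [h2.symm])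
    fun b hb hb' => ?_
  have hb1 : ∀ a, b a = a + b 0 := fun a => by
    have := hlin b 1 (fun a => DFunLike.congr_fun (hσ b hb).eq a) a.val 0
    simpa [add_comm] using this
  by_cases hm : b 0 = 0
  · ext a
    rw [hb1, hm, add_zero, Perm.one_apply]
  exfalso
  set τ := swap 0 2 * swap 0 1 * σ * (swap 0 2 * swap 0 1)⁻¹ with hτ
  have e := hlin τ (b 0) (fun a => by
    have : b (τ a) = τ (b a) := DFunLike.congr_fun hb'.eq a
    rw [hb1, hb1 a] at this
    exact this.symm) (b 0)⁻¹.val 1
  rw [ZMod.natCast_zmod_val, inv_mul_cancel₀ hm, one_add_one_eq_two] at e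
  have e1 : τ 1 = 2 := by
    simp [hτ, σ, swap_apply_of_ne_of_ne one_ne_zero h21.symm]
  have e2 : τ 2 = 0 := by
    simp [hτ, σ, one_add_one_eq_two, swap_apply_of_ne_of_ne h2 h21]
  rw [e1, e2] at e
  exact h3 (by linear_combination -e)

/-- an involution of `Fin n` given by a function on numbers -/
def mkInv (n : ℕ) (f : ℕ → ℕ) (h1 : ∀ x < n, f x < n) (h2 : ∀ x < n, f (f x) = x) : Perm (Fin n) :=
  Function.Involutive.toPerm (fun x => ⟨f x, h1 x x.2⟩) fun x => Fin.ext (h2 x x.2)

theorem mkInv_val {n f h1 h2} (x : Fin n) : (mkInv n f h1 h2 x).1 = f x := rfl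

theorem mkInv_sq {n f h1 h2} : mkInv n f h1 h2 ^ 2 = 1 := Perm.ext fun x => Fin.ext (h2 x x.2)

theorem mkInv_support {n f h1 h2} (h : ∀ x < n, f x ≠ x) (hn : n % 2 = 0) :
    (mkInv n f h1 h2).support.card = 2 * (n / 2) := by
  rw [Finset.eq_univ_of_forall (s := (mkInv n f h1 h2).support)
    fun x => mem_support.2 fun e => h x x.2 (congrArg Fin.val e),
    Finset.card_univ, Fintype.card_fin]
  omega

theorem exists_f0 : ∃ f : ℕ → ℕ, ∀ x, (x % 2 = 0 ∧ f x = x + 1) ∨ (x % 2 = 1 ∧ f x + 1 = x) :=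
  ⟨fun x => if x % 2 = 0 then x + 1 else x - 1, fun x => by dsimp only; split_ifs <;> omega⟩

theorem exists_f1 {n : ℕ} (h8 : 8 ≤ n) : ∃ f : ℕ → ℕ, ∀ x, (x = 0 ∧ f x + 1 = n) ∨
    (x + 1 = n ∧ f x = 0) ∨ (x ≠ 0 ∧ x + 1 ≠ n ∧ x % 2 = 0 ∧ f x + 1 = x) ∨
    (x + 1 ≠ n ∧ x % 2 = 1 ∧ f x = x + 1) :=
  ⟨fun x => if x = 0 then n - 1 else if x + 1 = n then 0 else if x % 2 = 0 then x - 1 else x + 1,
    fun x => by dsimp only; split_ifs <;> omega⟩

theorem exists_f2 : ∃ f : ℕ → ℕ, ∀ x, (x = 0 ∧ f x = 2) ∨ (x = 2 ∧ f x = 0) ∨ (x = 1 ∧ f x = 5) ∨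
    (x = 5 ∧ f x = 1) ∨ (x = 3 ∧ f x = 4) ∨ (x = 4 ∧ f x = 3) ∨
    (6 ≤ x ∧ x % 2 = 0 ∧ f x = x + 1) ∨ (6 ≤ x ∧ x % 2 = 1 ∧ f x + 1 = x) :=
  ⟨fun x => if x = 0 then 2 else if x = 2 then 0 else if x = 1 then 5 else
    if x = 5 then 1 else if x = 3 then 4 else if x = 4 then 3 else
    if x % 2 = 0 then x + 1 else x - 1, fun x => by dsimp only; split_ifs <;> omega⟩

theorem loc_even {n : ℕ} (h8 : 8 ≤ n) (hn : n % 2 = 0) : Loc 2 (alternatingGroup (Fin n)) := by
  obtain ⟨f0, g0⟩ := exists_f0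
  obtain ⟨f1, g1⟩ := exists_f1 h8
  obtain ⟨f2, g2⟩ := exists_f2
  let σ0 := mkInv n f0 (fun x hx => by have := g0 x; omega)
    (fun x hx => by have := g0 x; have := g0 (f0 x); omega)
  let σ1 := mkInv n f1 (fun x hx => by have := g1 x; omega)
    (fun x hx => by have := g1 x; have := g1 (f1 x); omega)
  let σ2 := mkInv n f2 (fun x hx => by have := g2 x; omega)
    (fun x hx => by have := g2 x; have := g2 (f2 x); omega)
  have c0 : σ0.support.card = 2 * (n / 2) :=
    mkInv_support (fun x hx => by have := g0 x; omega) hn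
  have c1 : σ1.support.card = 2 * (n / 2) :=
    mkInv_support (fun x hx => by have := g1 x; omega) hn
  have c2 : σ2.support.card = 2 * (n / 2) :=
    mkInv_support (fun x hx => by have := g2 x; omega) hn
  have t0 := cycleType_eq_replicate Nat.prime_two mkInv_sq c0
  refine loc_of_locP (by simp; omega) (Or.inl (by simp; omega))
    (locP_of_centralizer Nat.prime_two (σ := σ0) mkInv_sq (by simpa using c0) fun P hP hσ => ?_)
  have hconj : ∀ τ : Perm (Fin n), τ ^ 2 = 1 → τ.support.card = 2 * (n / 2) →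
      ∃ h : Perm (Fin n), sign h = 1 ∧ h * σ0 * h⁻¹ = τ := by
    intro τ a1 a2
    obtain ⟨h, hh⟩ := isConj_iff.1 (isConj_of_cycleType_eq
      (t0.trans (cycleType_eq_replicate Nat.prime_two a1 a2).symm))
    have u0 : σ0 ⟨0, by omega⟩ = ⟨1, by omega⟩ := Fin.ext (show f0 0 = 1 by have := g0 0; omega)
    have u1 : σ0 ⟨1, by omega⟩ = ⟨0, by omega⟩ := Fin.ext (show f0 1 = 0 by have := g0 1; omega)
    obtain ⟨h', b1, b2⟩ := exists_even_conj (σ := σ0) (o := swap ⟨0, by omega⟩ ⟨1, by omega⟩)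
      (by rw [Commute, SemiconjBy, mul_swap_eq_swap_mul, u0, u1, swap_comm]) (by simp) h
    exact ⟨h', b1, b2.trans hh⟩
  obtain ⟨h1, s1, e1⟩ := hconj σ1 mkInv_sq c1
  obtain ⟨h2, s2, e2⟩ := hconj σ2 mkInv_sq c2
  obtain ⟨z, hz⟩ := @exists_prime_orderOf_dvd_card' (centralizer {σ0}) _ _ 3 ⟨Nat.prime_three⟩ (by
    rw [card_centralizer_replicate t0]
    exact Dvd.dvd.mul_left (Nat.prime_three.dvd_factorial.2 (by omega)) _)
  refine locP_of_triple hP hσ (z := z) (by rw [Subgroup.orderOf_coe, hz])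
    (mem_centralizer_singleton_iff.1 z.2) s1 s2 fun b hb b1 b2 => ?_
  rw [e1] at b1
  rw [e2] at b2
  have b0 := hσ b hb
  have hfix : ∀ τ : Perm (Fin n), Commute b τ → ∀ x, b x = x → b (τ x) = τ x := fun τ h x hx => by
    rw [← mul_apply, h.eq, mul_apply, hx]
  have hy : ∀ y : Fin n, σ2 y = σ0 (σ1 y) ↔ y.1 = 2 := fun y => by
    have := y.2
    have := g2 y
    have := g1 y
    have := g0 (f1 y)
    rw [Fin.ext_iff]
    show f2 y = f0 (f1 y) ↔ _
    omega
  have f2' : b ⟨2, by omega⟩ = ⟨2, by omega⟩ := Fin.ext ((hy _).1 (by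
    rw [← mul_apply, ← b2.eq, mul_apply, (hy _).2 rfl, ← mul_apply b, b0.eq, mul_apply,
      ← mul_apply b, b1.eq, mul_apply]))
  have key : ∀ m (hm : m < n), b ⟨m, hm⟩ = ⟨m, hm⟩ := by
    intro m
    induction m with
    | zero =>
      intro hm
      have : σ2 ⟨2, by omega⟩ = ⟨0, hm⟩ := Fin.ext (show f2 2 = 0 by have := g2 2; omega)
      exact this ▸ hfix σ2 b2 _ f2'
    | succ m ih =>
      intro hm
      by_cases e : m % 2 = 0
      · have : σ0 ⟨m, by omega⟩ = ⟨m + 1, hm⟩ := Fin.ext (show f0 m = m + 1 by have := g0 m; omega)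
        exact this ▸ hfix σ0 b0 _ (ih (by omega))
      · have : σ1 ⟨m, by omega⟩ = ⟨m + 1, hm⟩ := 
          Fin.ext (show f1 m = m + 1 by have := g1 m; omega)
        exact this ▸ hfix σ1 b1 _ (ih (by omega))
  exact Perm.ext fun x => key x.1 x.2

end Pool.Agent.MP_983df8_al

end MrgPart2

-- marker of a merged file
example : 731051 + 400051 = 731051 + 400051 := rfl
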