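import Pool.Agent.MP_983df8_al.Defs

namespace Pool.Agent.MP_983df8_al

/-- the soluble radical: the product of all soluble normal subgroups -/
def Rad (G : Type*) [Group G] : Subgroup G :=
  ⨆ K : {K : Subgroup G // K.Normal ∧ Group.IsSolvable K}, K.1

instance Rad_normal (G : Type*) [Group G] : (Rad G).Normal :=
  haveI : ∀ K : {K : Subgroup G // K.Normal ∧ Group.IsSolvable K}, (K.1).Normal := fun K => K.2.1
  Subgroup.iSup_normal _

end Pool.Agent.MP_983df8_al
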