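import Mathlib.RingTheory.Flat.TorsionFree
import Mathlib.RingTheory.PicardGroup
import Mathlib.RingTheory.SimpleRing.Principal
import Mathlib.RingTheory.TotallySplit
import Mathlib.RingTheory.Etale.Weakly
import Mathlib.RingTheory.Henselian
import Mathlib.RingTheory.RegularLocalRing.Defs

namespace Pool.Agent.MP_983df8_al

open Matrix

/-- the special linear group -/
abbrev SLn (ι K : Type*) [Fintype ι] [DecidableEq ι] [CommRing K] :=
  Matrix.SpecialLinearGroup ι K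

variable {ι K : Type*} [Fintype ι] [DecidableEq ι] [Field K]

/-- linear dependence of two vectors -/
def Dep (v w : ι → K) : Prop := ∀ i j, v i * w j = v j * w i

omit [Fintype ι] [DecidableEq ι] in
theorem Dep.symm {v w : ι → K} (h : Dep v w) : Dep w v := fun i j => by
  linear_combination h j i

omit [Fintype ι] [DecidableEq ι] in
theorem dep_smul (v : ι → K) (a b : K) : Dep (a • v) (b • v) := fun i j => by
  simp only [Pi.smul_apply, smul_eq_mul]; ring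

omit [Fintype ι] [DecidableEq ι] in
theorem dep_smul' (v : ι → K) (b : K) : Dep v (b • v) := by simpa using dep_smul v 1 b

omit [Fintype ι] [DecidableEq ι] in
theorem Dep.exists {v w : ι → K} (h : Dep v w) (hv : v ≠ 0) : ∃ c : K, w = c • v := by
  obtain ⟨i, hi⟩ := Function.ne_iff.1 hv
  refine ⟨w i / v i, funext fun j => ?_⟩
  have hi' : v i ≠ 0 := hi
  simp only [Pi.smul_apply, smul_eq_mul]
  field_simp
  linear_combination h i j

omit [Fintype ι] [DecidableEq ι] in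
theorem Dep.trans {u v w : ι → K} (h : Dep u v) (h' : Dep v w) (hv : v ≠ 0) : Dep u w := by
  obtain ⟨a, rfl⟩ := h.symm.exists hv
  obtain ⟨b, rfl⟩ := h'.exists hv
  exact dep_smul v a b

theorem exists_dual {v w : ι → K} (h : ¬ Dep v w) (a b : K) :
    ∃ u, v ⬝ᵥ u = a ∧ w ⬝ᵥ u = b := by
  simp only [Dep, not_forall] at h
  obtain ⟨i, j, h⟩ := h
  have := sub_ne_zero.2 h
  refine ⟨Pi.single i ((a * w j - b * v j) / (v i * w j - v j * w i)) +
    Pi.single j ((b * v i - a * w i) / (v i * w j - v j * w i)), ?_, ?_⟩ <;>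
    simp only [dotProduct_add, dotProduct_single, ← mul_div_assoc, ← add_div] <;>
    rw [div_eq_iff this] <;> ring

theorem exists_dot {v : ι → K} (h : v ≠ 0) : ∃ u, v ⬝ᵥ u = 1 := by
  obtain ⟨i, hi⟩ := Function.ne_iff.1 h
  exact ⟨Pi.single i (v i)⁻¹, by simpa using mul_inv_cancel₀ hi⟩

omit [DecidableEq ι] in
theorem exists_perp (h3 : 3 ≤ Fintype.card ι) (f g : ι → K) :
    ∃ u, u ≠ 0 ∧ f ⬝ᵥ u = 0 ∧ g ⬝ᵥ u = 0 := by
  obtain ⟨u, h1, h2⟩ := (Submodule.ne_bot_iff _).1 (LinearMap.ker_ne_bot_of_finrank_lt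
    (f := (dotProductBilin K K f).prod (dotProductBilin K K g)) (by simp; omega))
  exact ⟨u, h2, by simpa using h1⟩

theorem exists_indep (h3 : 3 ≤ Fintype.card ι) (v : ι → K) {f : ι → K} (hf : f ≠ 0) :
    ∃ g, g ⬝ᵥ v = 0 ∧ ¬ Dep f g := by
  obtain ⟨u, hu⟩ := exists_dot hf
  obtain ⟨g, h1, h2, h4⟩ := exists_perp h3 v u
  refine ⟨g, by rwa [dotProduct_comm], fun h => ?_⟩
  obtain ⟨c, rfl⟩ := h.exists hf
  rw [dotProduct_smul, dotProduct_comm, hu, smul_eq_mul, mul_one] at h4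
  exact h1 (by rw [h4, zero_smul])

omit [Fintype ι] [DecidableEq ι] in
theorem ne_of_not_dep {v w : ι → K} (h : ¬ Dep v w) : v ≠ 0 ∧ w ≠ 0 :=
  ⟨fun e => h fun i j => by simp [e], fun e => h fun i j => by simp [e]⟩

/-- `g` is the transvection with centre `v` and axis `f` -/
def Tv (g : SLn ι K) (v f : ι → K) : Prop := g.1 = 1 + vecMulVec v f

theorem sn_mul (g h : SLn ι K) : (g * h).1 = g.1 * h.1 := rfl

theorem sn_inv_mul (g : SLn ι K) : (g⁻¹).1 * g.1 = 1 := by rw [← sn_mul, inv_mul_cancel]; rfl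

theorem sn_mul_inv (g : SLn ι K) : g.1 * (g⁻¹).1 = 1 := by rw [← sn_mul, mul_inv_cancel]; rfl

theorem det_tv (v f : ι → K) : (1 + vecMulVec v f).det = 1 + f ⬝ᵥ v := by
  rw [vecMulVec_eq Unit, det_one_add_replicateCol_mul_replicateRow]

omit [DecidableEq ι] in
theorem vmv_mulVec (v f u : ι → K) : vecMulVec v f *ᵥ u = (f ⬝ᵥ u) • v := by
  rw [vecMulVec_mulVec, op_smul_eq_smul]

variable {g g' : SLn ι K} {v f v' f' : ι → K}

theorem Tv.dot (h : Tv g v f) : f ⬝ᵥ v = 0 := by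
  have := g.2
  rwa [h, det_tv, add_eq_left] at this

theorem exists_tv (h : f ⬝ᵥ v = 0) : ∃ g : SLn ι K, Tv g v f :=
  ⟨⟨_, by rw [det_tv, h, add_zero]⟩, rfl⟩

theorem Tv.eq (h : Tv g v f) (h' : Tv g' v f) : g = g' := Subtype.ext (h.trans h'.symm)

theorem Tv.act (h : Tv g v f) (u : ι → K) : g.1 *ᵥ u = u + (f ⬝ᵥ u) • v := by
  rw [h, add_mulVec, one_mulVec, vmv_mulVec]

theorem Tv.mul_val (h : Tv g v f) (h' : Tv g' v' f') :
    (g * g').1 = 1 + vecMulVec v (f + (f ⬝ᵥ v') • f') + vecMulVec v' f' := by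
  rw [sn_mul, h, h', add_mul, mul_add, mul_add, vecMulVec_mul_vecMulVec, vecMulVec_add]
  simp only [mul_one, one_mul]
  abel

theorem Tv.mul (h : Tv g v f) (h' : Tv g' v f') : Tv (g * g') v (f + f') := by
  rw [Tv, h.mul_val h', h.dot, zero_smul, add_zero, vecMulVec_add, add_assoc]

theorem tv_one (v : ι → K) : Tv 1 v 0 := by simp [Tv]

theorem Tv.eq_one_iff (h : Tv g v f) : g = 1 ↔ v = 0 ∨ f = 0 := by
  rw [← vecMulVec_eq_zero, ← add_eq_left (a := (1 : Matrix ι ι K)), ← h]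
  exact Subtype.ext_iff

theorem Tv.inv (h : Tv g v f) : Tv g⁻¹ v (-f) := by
  obtain ⟨g', h'⟩ := exists_tv (v := v) (f := -f) (by rw [neg_dotProduct, h.dot, neg_zero])
  have := h.mul h'
  rw [add_neg_cancel] at this
  rwa [inv_eq_of_mul_eq_one_right (this.eq (tv_one v))]

theorem Tv.pow (h : Tv g v f) (k : ℕ) : Tv (g ^ k) v ((k : K) • f) := by
  induction k with
  | zero => simpa using tv_one v
  | succ k ih => simpa [pow_succ, add_smul] using ih.mul h

theorem tv_smul {c : K} : Tv g (c • v) f ↔ Tv g v (c • f) := by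
  rw [Tv, Tv, smul_vecMulVec, vecMulVec_smul]

theorem Tv.conj (h : Tv g v f) (s : SLn ι K) : Tv (s * g * s⁻¹) (s.1 *ᵥ v) (f ᵥ* (s⁻¹).1) := by
  rw [Tv, sn_mul, sn_mul, h, mul_add, add_mul, mul_one, sn_mul_inv, mul_vecMulVec, vecMulVec_mul]

/-- the inverse transpose -/
def tau : SLn ι K →* SLn ι K where
  toFun g := ⟨(g⁻¹).1ᵀ, by rw [det_transpose, (g⁻¹).2]⟩
  map_one' := Subtype.ext (by simp)
  map_mul' g h := Subtype.ext (by
    show ((g * h)⁻¹).1ᵀ = (g⁻¹).1ᵀ * (h⁻¹).1ᵀ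
    rw [_root_.mul_inv_rev, sn_mul, transpose_mul])

theorem tau_val (g : SLn ι K) : (tau g).1 = (g⁻¹).1ᵀ := rfl

theorem tau_tau (g : SLn ι K) : tau (tau g) = g :=
  Subtype.ext (by rw [tau_val, ← map_inv, tau_val, inv_inv, transpose_transpose])

theorem Tv.tau (h : Tv g v f) : Tv (tau g) f (-v) := by
  rw [Tv, tau_val, h.inv, transpose_add, transpose_one, transpose_vecMulVec, neg_vecMulVec,
    vecMulVec_neg]

theorem Tv.mul' (h : Tv g v f) (h' : Tv g' v' f) : Tv (g * g') (v + v') f := by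
  rw [Tv, h.mul_val h', h'.dot, zero_smul, add_zero, add_vecMulVec, add_assoc]

theorem Tv.scal (h : Tv g' v f) {c : K} (e : g.1 = c • g'.1) {u : ι → K} (h0 : u ≠ 0)
    (hu : g.1 *ᵥ u = u) : g = g' := by
  have e1 := hu
  rw [e, smul_mulVec, h.act] at e1
  have e2 := congrArg (f ⬝ᵥ ·) e1
  simp only [dotProduct_smul, dotProduct_add, h.dot, smul_eq_mul, mul_zero, add_zero] at e2
  have : c = 1 := by
    by_cases a : f ⬝ᵥ u = 0
    · rw [a, zero_smul, add_zero] at e1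
      exact smul_left_injective K h0 (e1.trans (one_smul K u).symm)
    · exact mul_right_cancel₀ a (e2.trans (one_mul _).symm)
  exact Subtype.ext (by rw [e, this, one_smul])

theorem exists_move (h3 : 3 ≤ Fintype.card ι) (hv : v ≠ 0) (hv' : v' ≠ 0) {f : ι → K}
    (h1 : f ⬝ᵥ v = 0) (h2 : f ⬝ᵥ v' = 0) :
    ∃ s : SLn ι K, s.1 *ᵥ v = v' ∧ f ᵥ* (s⁻¹).1 = f := by
  have key : ∀ v v' : ι → K, ¬ Dep v v' → f ⬝ᵥ v = 0 → f ⬝ᵥ v' = 0 →
      ∃ s : SLn ι K, s.1 *ᵥ v = v' ∧ f ᵥ* (s⁻¹).1 = f := fun v v' h h1 h2 => by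
    obtain ⟨u, a1, a2⟩ := exists_dual h 1 1
    rw [dotProduct_comm] at a1 a2
    obtain ⟨s, hs⟩ := exists_tv (v := v' - v) (f := u) (by rw [dotProduct_sub, a1, a2, sub_self])
    refine ⟨s, by rw [hs.act, a1, one_smul, add_sub_cancel], ?_⟩
    rw [hs.inv, vecMul_add, vecMul_one, vecMul_vecMulVec, dotProduct_sub, h1, h2, sub_self,
      zero_smul, add_zero]
  by_cases h : Dep v v'
  · obtain ⟨u, a1, a2⟩ := exists_indep h3 f hv
    rw [dotProduct_comm] at a1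
    obtain ⟨s, b1, b2⟩ := key v u a2 h1 a1
    obtain ⟨t, c1, c2⟩ := key u v' (fun e => a2 (h.trans e.symm hv')) a1 h2
    exact ⟨t * s, by rw [sn_mul, ← mulVec_mulVec, b1, c1],
      by rw [_root_.mul_inv_rev, sn_mul, ← vecMul_vecMul, b2, c2]⟩
  · exact key v v' h h1 h2

theorem Tv.isConj (h3 : 3 ≤ Fintype.card ι) (h : Tv g v f) (h' : Tv g' v' f') (hg : g ≠ 1)
    (hg' : g' ≠ 1) : IsConj g g' := by
  have k1 : ∀ {g g' : SLn ι K} {v f v' : ι → K}, Tv g v f → Tv g' v' f → v ≠ 0 → v' ≠ 0 →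
      IsConj g g' := fun h h' a b => by
    obtain ⟨s, b1, b2⟩ := exists_move h3 a b h.dot h'.dot
    have := h.conj s
    rw [b1, b2] at this
    exact isConj_iff.2 ⟨s, this.eq h'⟩
  have k2 : ∀ {g g' : SLn ι K} {v f f' : ι → K}, Tv g v f → Tv g' v f' → f ≠ 0 → f' ≠ 0 →
      IsConj g g' := fun h h' a b => by
    simpa [tau_tau] using MP_983df8_al.tau.map_isConj (k1 h.tau h'.tau a b)
  rw [Ne, h.eq_one_iff, not_or] at hg
  rw [Ne, h'.eq_one_iff, not_or] at hg'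
  obtain ⟨u, a1, a2, a3⟩ := exists_perp h3 v v'
  rw [dotProduct_comm] at a2 a3
  obtain ⟨s, hs⟩ := exists_tv a2
  obtain ⟨t, ht⟩ := exists_tv a3
  exact ((k2 h hs hg.2 a1).trans (k1 hs ht hg.1 hg'.1)).trans (k2 ht h' a1 hg'.2)

variable {S : Type*} [Group S] {ρ : SLn ι K →* S}

/-- `ρ` is onto with kernel the scalars -/
structure CovN (ρ : SLn ι K →* S) : Prop where
  three : 3 ≤ Fintype.card ι
  surj : Function.Surjective ρ
  ker : ∀ g, ρ g = 1 ↔ ∃ c : K, g.1 = c • (1 : Matrix ι ι K)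

theorem CovN.eq_iff (h : CovN ρ) : ρ g = ρ g' ↔ ∃ c : K, g.1 = c • g'.1 := by
  rw [← mul_inv_eq_one, ← map_inv, ← map_mul, h.ker]
  refine exists_congr fun ε => ⟨fun e => ?_, fun e => ?_⟩
  · rw [← inv_mul_cancel_right g g', sn_mul, e, smul_mul, one_mul]
  · rw [sn_mul, e, smul_mul, sn_mul_inv]

theorem CovN.comp (h : CovN ρ) {S' : Type*} [Group S'] (e : S ≃* S') :
    CovN (e.toMonoidHom.comp ρ) :=
  ⟨h.three, e.surjective.comp h.surj, fun g => by simpa using h.ker g⟩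

theorem CovN.tau (h : CovN ρ) : CovN (ρ.comp tau) := by
  refine ⟨h.three, h.surj.comp fun g => ⟨MP_983df8_al.tau g, tau_tau g⟩, fun g => ?_⟩
  have key : ∀ g : SLn ι K, ρ g = 1 → ρ (MP_983df8_al.tau g) = 1 := fun g e => by
    obtain ⟨c, hc⟩ := (h.ker g⁻¹).1 (by rw [map_inv, e, inv_one])
    exact (h.ker _).2 ⟨c, by rw [tau_val, hc, transpose_smul, transpose_one]⟩
  rw [← h.ker]
  exact ⟨fun e => tau_tau g ▸ key _ e, key g⟩

theorem CovN.tv_eq (h : CovN ρ) (a : Tv g v f) (b : Tv g' v' f') (e : ρ g = ρ g') : g = g' := by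
  obtain ⟨c, hc⟩ := h.eq_iff.1 e
  obtain ⟨u, a1, a2, -⟩ := exists_perp h.three f f
  exact b.scal hc a1 (by rw [a.act, a2, zero_smul, add_zero])

theorem CovN.tv_ne (h : CovN ρ) (a : Tv g v f) (hg : g ≠ 1) : ρ g ≠ 1 := fun e =>
  hg (h.tv_eq a (tv_one v) (e.trans (map_one ρ).symm))

theorem CovN.pair (h : CovN ρ) (a : Tv g v f) (b : Tv g' v' f') {t : SLn ι K} {w φ : ι → K}
    (c : Tv t w φ) (e : ρ (g * g') = ρ t) : Dep v v' ∨ Dep f f' := by
  by_contra hcon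
  rw [not_or] at hcon
  obtain ⟨d, hd⟩ := h.eq_iff.1 e
  obtain ⟨u, a1, a2, a3⟩ := exists_perp h.three f f'
  obtain rfl := c.scal hd a1 (by
    rw [sn_mul, ← mulVec_mulVec, b.act, a3, zero_smul, add_zero, a.act, a2, zero_smul, add_zero])
  have key : ∀ u, (f ⬝ᵥ u + (f ⬝ᵥ v') * (f' ⬝ᵥ u)) • v + (f' ⬝ᵥ u) • v' = (φ ⬝ᵥ u) • w := by
    intro u
    have := c.act u
    rw [a.mul_val b, add_mulVec, add_mulVec, one_mulVec, vmv_mulVec, vmv_mulVec, add_assoc,
      add_dotProduct, smul_dotProduct] at this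
    exact add_left_cancel this
  obtain ⟨x, x1, x2⟩ := exists_dual hcon.2 1 0
  obtain ⟨y, y1, y2⟩ := exists_dual hcon.2 (-(f ⬝ᵥ v')) 1
  have k1 := key x
  have k2 := key y
  simp only [x1, x2, y1, y2, mul_zero, add_zero, one_smul, zero_smul, mul_one, neg_add_cancel,
    zero_add] at k1 k2
  exact hcon.1 (k1 ▸ k2 ▸ dep_smul w _ _)

theorem cov_psln (h3 : 3 ≤ Fintype.card ι) :
    CovN (QuotientGroup.mk' (Subgroup.center (SLn ι K))) := by
  refine ⟨h3, QuotientGroup.mk'_surjective _, fun g => ?_⟩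
  rw [QuotientGroup.mk'_apply, QuotientGroup.eq_one_iff, Matrix.SpecialLinearGroup.mem_center_iff]
  refine exists_congr fun c => ⟨fun e => by rw [← e.2, scalar_apply, smul_one_eq_diagonal],
    fun e => ⟨?_, by rw [e, scalar_apply, smul_one_eq_diagonal]⟩⟩
  simpa [e] using g.2

end Pool.Agent.MP_983df8_al
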