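import Mathlib.Order.CompleteLattice.Defs
import Mathlib.Data.Int.ConditionallyCompleteOrder
import Mathlib.Data.Int.Star
import Mathlib.Data.Nat.Choose.Dvd
import Mathlib.GroupTheory.SpecificGroups.ZGroup
import Mathlib.LinearAlgebra.Matrix.CharP
import Pool.Agent.MP_983df8_al.HallB
import Pool.Agent.MP_983df8_al.TV
import Pool.Agent.MP_983df8_al.Defs2

-- ======== part 0: formerly Pool.Agent.MP_983df8_al.Layer
section MrgPart0

namespace Pool.Agent.MP_983df8_al

open Subgroup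

variable {D : Type*} [Group D]

theorem comm_pow_left {a b c : D} (h : a * b = c * (b * a)) (ha : Commute c a) (i : ℕ) :
    a ^ i * b = c ^ i * (b * a ^ i) := by
  induction i with
  | zero => simp
  | succ i ih =>
    rw [pow_succ', mul_assoc, ih, ← mul_assoc, ← (ha.pow_left i).eq, mul_assoc, ← mul_assoc a, h,
      pow_succ c]
    simp [mul_assoc]

theorem comm_pow_right {a b c : D} (h : a * b = c * (b * a)) (hb : Commute c b) (j : ℕ) :
    a * b ^ j = c ^ j * (b ^ j * a) := by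
  induction j with
  | zero => simp
  | succ j ih =>
    rw [pow_succ, ← mul_assoc, ih, mul_assoc, mul_assoc, h, ← mul_assoc (b ^ j),
      ← (hb.pow_right j).eq, pow_succ c]
    simp [mul_assoc]

theorem comm_pow {a b c : D} (h : a * b = c * (b * a)) (ha : Commute c a) (hb : Commute c b)
    (i j : ℕ) : a ^ i * b ^ j = c ^ (i * j) * (b ^ j * a ^ i) := by
  rw [comm_pow_right (comm_pow_left h ha i) (hb.pow_left i), pow_mul]

theorem mul_pow_comm {a b c : D} (h : b * a = c * (a * b)) (ha : Commute c a) (hb : Commute c b)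
    (n : ℕ) : (a * b) ^ n = c ^ n.choose 2 * (a ^ n * b ^ n) := by
  induction n with
  | zero => simp
  | succ n ih =>
    rw [pow_succ, ih, Nat.choose_succ_succ', Nat.choose_one_right, add_comm, pow_add, mul_assoc,
      mul_assoc, ← mul_assoc (b ^ n), comm_pow_left h hb, mul_assoc (c ^ n), ← mul_assoc (a ^ n),
      ← ((ha.pow_left n).pow_right n).eq, pow_succ a, pow_succ b]
    simp [mul_assoc]

/-- maximal among the abelian normal subgroups -/
def MaxAb (U : Subgroup D) : Prop :=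
  Maximal (fun U : Subgroup D => U.Normal ∧ ∀ a ∈ U, ∀ b ∈ U, Commute a b) U

theorem exists_maxAb [Finite D] : ∃ U : Subgroup D, MaxAb U :=
  exists_maximal_of_wellFoundedGT _ ⟨⊥, inferInstance, by simp⟩

theorem MaxAb.mem {U : Subgroup D} (hU : MaxAb U) {x : D} (h1 : ∀ g, Commute (g * x * g⁻¹) x)
    (h2 : ∀ u ∈ U, Commute u x) : x ∈ U := by
  have := hU.prop.1
  have key : ∀ a ∈ Group.conjugatesOfSet (insert x (U : Set D)),
      a ∈ U ∨ ∃ g, a = g * x * g⁻¹ := by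
    intro a ha
    obtain ⟨y, hy, hc⟩ := Group.mem_conjugatesOfSet_iff.1 ha
    obtain ⟨g, rfl⟩ := isConj_iff.1 hc
    rcases hy with rfl | hy
    · exact Or.inr ⟨g, rfl⟩
    · exact Or.inl (this.conj_mem _ hy g)
  have h3 : ∀ u ∈ U, ∀ g, Commute u (g * x * g⁻¹) := fun u hu g => by
    have := congrArg (fun t => g * t * g⁻¹) (h2 _ (this.conj_mem' u hu g)).eq
    simpa [Commute, SemiconjBy, mul_assoc] using this
  have hc := isMulCommutative_closure (k := Group.conjugatesOfSet (insert x (U : Set D)))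
    fun a ha b hb => by
      rcases key a ha with h | ⟨g, rfl⟩ <;> rcases key b hb with h' | ⟨g', rfl⟩
      · exact (hU.prop.2 a h b h').eq
      · exact (h3 a h g').eq
      · exact (h3 b h' g).symm.eq
      · have := congrArg (fun t => g' * t * g'⁻¹) (h1 (g'⁻¹ * g)).eq
        simpa [mul_assoc] using this
  refine hU.le_of_ge (y := normalClosure (insert x (U : Set D))) ⟨inferInstance, fun a ha b hb =>
    congrArg Subtype.val (hc.1.1 ⟨a, ha⟩ ⟨b, hb⟩)⟩
    (fun u hu => subset_normalClosure (Or.inr hu)) (subset_normalClosure (Or.inl rfl))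

theorem exists_layer [Finite D] {E U : Subgroup D} [E.Normal] [Group.IsSolvable E]
    (h : ¬ E ≤ U) : ∃ F : Subgroup D, F.Normal ∧ F ≤ E ∧ ¬ F ≤ U ∧
      ∀ a ∈ F, ∀ b ∈ F, a * b * a⁻¹ * b⁻¹ ∈ U := by
  obtain ⟨F, hF⟩ := exists_minimal_of_wellFoundedLT
    (fun F : Subgroup D => F.Normal ∧ F ≤ E ∧ ¬ F ≤ U) ⟨E, inferInstance, le_rfl, h⟩
  obtain ⟨h1, h2, h3⟩ := hF.prop
  refine ⟨F, h1, h2, h3, fun a ha b hb => ?_⟩
  have hle : ⁅F, F⁆ ≤ U := by
    by_contra hc
    have h4 := hF.le_of_le ⟨inferInstance, (commutator_le_left F F).trans h2, hc⟩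
      (commutator_le_left F F)
    have : Group.IsSolvable F := Group.isSolvable_of_isSolvable_injective (f := inclusion h2)
      (inclusion_injective h2)
    have : Nontrivial F := (nontrivial_iff_ne_bot F).2 fun e => h3 (e ▸ bot_le)
    refine (Group.IsSolvable.commutator_lt_top_of_nontrivial F).ne (eq_top_iff.2 fun g _ => ?_)
    rw [← map_subtype_commutator] at h4
    exact (mem_map_iff_mem F.subtype_injective).1 (h4 g.2)
  exact hle (commutator_mem_commutator ha hb)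

/-- the class two layer above a maximal abelian normal subgroup -/
structure GS (U N : Subgroup D) : Prop where
  nU : U.Normal
  nN : N.Normal
  le : U ≤ N
  cent : ∀ u ∈ U, ∀ n ∈ N, Commute u n
  comm : ∀ a ∈ N, ∀ b ∈ N, a * b * a⁻¹ * b⁻¹ ∈ U
  self : ∀ g, (∀ n ∈ N, Commute g n) → g ∈ U
  sqf : ∀ p : ℕ, ∀ n ∈ N, n ^ (p * p) ∈ U → n ^ p ∈ U

theorem MaxAb.exists_gs [Finite D] [Group.IsSolvable D] {U : Subgroup D} (hU : MaxAb U) :
    ∃ N, GS U N := by
  have hUn := hU.prop.1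
  obtain ⟨N, hN⟩ := exists_maximal_of_wellFoundedGT (fun N : Subgroup D => N.Normal ∧ U ≤ N ∧
    (∀ u ∈ U, ∀ n ∈ N, Commute u n) ∧ ∀ a ∈ N, ∀ b ∈ N, a * b * a⁻¹ * b⁻¹ ∈ U)
    ⟨U, hUn, le_rfl, hU.prop.2, fun a ha b hb =>
      U.mul_mem (U.mul_mem (U.mul_mem ha hb) (U.inv_mem ha)) (U.inv_mem hb)⟩
  obtain ⟨h1, h2, h3, h4⟩ := hN.prop
  refine ⟨N, hUn, h1, h2, h3, h4, fun g hg => ?_, fun p n hn hp => ?_⟩
  · by_contra hc
    obtain ⟨F, f1, f2, f3, f4⟩ := exists_layer (E := centralizer (N : Set D)) (U := U)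
      fun e => hc (e fun n hn => (hg n hn).symm.eq)
    have f5 : ∀ f ∈ F, ∀ n ∈ N, Commute n f := fun f hf n hn => f2 hf n hn
    have hle : N ⊔ F ≤ N := hN.le_of_ge ⟨inferInstance, h2.trans le_sup_left, fun u hu x hx => ?_,
      fun x hx y hy => ?_⟩ le_sup_left
    · refine f3 fun f hf => hU.mem (fun g => f5 f hf _ (hle (mem_sup_right (f1.conj_mem f hf g))))
        fun u hu => f5 f hf u (h2 hu)
    · obtain ⟨n, hn, f, hf, rfl⟩ := mem_sup_of_normal_right.1 hx
      exact (h3 u hu n hn).mul_right (f5 f hf u (h2 hu))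
    · obtain ⟨n, hn, f, hf, rfl⟩ := mem_sup_of_normal_right.1 hx
      obtain ⟨m, hm, k, hk, rfl⟩ := mem_sup_of_normal_right.1 hy
      have e : n * f * (m * k) * (n * f)⁻¹ * (m * k)⁻¹ =
          (n * m * n⁻¹ * m⁻¹) * (f * k * f⁻¹ * k⁻¹) := by
        calc _ = n * (f * m) * (k * f⁻¹ * n⁻¹) * (k⁻¹ * m⁻¹) := by group
          _ = n * (m * f) * (n⁻¹ * (k * f⁻¹)) * (k⁻¹ * m⁻¹) := by
            rw [(f5 f hf m hm).eq, (f5 _ (F.mul_mem hk (F.inv_mem hf)) _ (N.inv_mem hn)).eq]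
          _ = n * m * (f * n⁻¹) * (k * f⁻¹ * k⁻¹ * m⁻¹) := by group
          _ = n * m * n⁻¹ * (f * k * f⁻¹ * k⁻¹ * m⁻¹) := by
            rw [← (f5 f hf _ (N.inv_mem hn)).eq]; group
          _ = _ := by
            rw [← (f5 _ (F.mul_mem (F.mul_mem (F.mul_mem hf hk) (F.inv_mem hf)) (F.inv_mem hk)) _
              (N.inv_mem hm)).eq]
            group
      rw [e]
      exact U.mul_mem (h4 n hn m hm) (f4 f hf k hk)
  · refine hU.mem (fun g => ?_) fun u hu => h3 u hu _ (N.pow_mem hn p)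
    have hm := h1.conj_mem n hn g
    have e : g * n * g⁻¹ * n = (g * n * g⁻¹ * n * (g * n * g⁻¹)⁻¹ * n⁻¹) * (n * (g * n * g⁻¹)) := by
      group
    have c1 := h3 _ (h4 _ hm n hn) _ hm
    have c2 := h3 _ (h4 _ hm n hn) _ hn
    have e1 := comm_pow_right e c2 (p * p)
    rw [← (h3 _ hp _ hm).eq, right_eq_mul] at e1
    have e2 := comm_pow e c1 c2 p p
    rw [e1, one_mul, conj_pow] at e2
    exact e2

theorem card_hom_le (X K : Type*) [Group X] [Finite X] [CommRing K] [IsDomain K] :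
    Finite (X →* K) ∧ Nat.card (X →* K) ≤ Nat.card X := by
  have := Fintype.ofFinite X
  have h := linearIndependent_monoidHom X K
  have h1 := h.finite
  have := Fintype.ofFinite (X →* K)
  refine ⟨h1, ?_⟩
  simpa using h.fintype_card_le_finrank

theorem GS.pair_le [Finite D] {U N : Subgroup D} (h : GS U N) {K : Type*} [CommRing K] [IsDomain K]
    (ι : U →* K) (hι : Function.Injective ι) {X X0 Y Y0 : Subgroup D} (hX : X ≤ N) (hY : Y ≤ N)
    (h0 : U ≤ Y0) (h1 : ∀ x ∈ X, ∀ y ∈ Y, y ∈ Y0 → Commute x y)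
    (h2 : ∀ x ∈ X, (∀ y ∈ Y, Commute x y) → x ∈ X0) : X0.relIndex X ≤ Y0.relIndex Y := by
  have : (Y0.subgroupOf Y).Normal := ⟨fun y hy g => by
    have := Y0.mul_mem (h0 (h.comm _ (hY g.2) _ (hY y.2))) hy
    simpa [mem_subgroupOf] using this⟩
  let f : X → Y →* K := fun x => ι.comp (MonoidHom.mk'
    (fun y : Y => (⟨_, h.comm _ (hX x.2) _ (hY y.2)⟩ : U)) fun a b => Subtype.ext (by
      have := (h.cent _ (h.comm _ (hX x.2) _ (hY b.2)) _ (N.inv_mem (hY a.2))).eq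
      calc _ = (x : D) * a * (x : D)⁻¹ * ((x : D) * b * (x : D)⁻¹ * (b : D)⁻¹ * (a : D)⁻¹) := by
            simp [mul_assoc]
        _ = _ := by rw [this]; simp [mul_assoc]))
  let g : X → (Y ⧸ Y0.subgroupOf Y) →* K := fun x => QuotientGroup.lift _ (f x) fun y hy => by
    rw [MonoidHom.mem_ker, ← ι.map_one]
    refine congrArg ι (Subtype.ext ?_)
    simp [(h1 _ x.2 _ y.2 hy).eq]
  obtain ⟨a1, a2⟩ := card_hom_le (Y ⧸ Y0.subgroupOf Y) K
  refine le_trans (Nat.card_le_card_of_injective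
    (fun q : X ⧸ X0.subgroupOf X => g q.out) fun q q' e => ?_) a2
  rw [← q.out_eq, ← q'.out_eq]
  refine QuotientGroup.eq.2 (h2 _ (X.mul_mem (X.inv_mem q.out.2) q'.out.2) fun y hy => ?_)
  have e1 := congrArg Subtype.val (hι (DFunLike.congr_fun e ((⟨y, hy⟩ : Y) : Y ⧸ Y0.subgroupOf Y)))
  have e2 : (q.out : D) * y * (q.out : D)⁻¹ = q'.out * y * (q'.out : D)⁻¹ := mul_right_cancel e1
  calc (q.out : D)⁻¹ * q'.out * y
      = (q.out : D)⁻¹ * (q'.out * y * (q'.out : D)⁻¹) * q'.out := by group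
    _ = y * ((q.out : D)⁻¹ * q'.out) := by rw [← e2]; group

theorem GS.dual [Finite D] {U N : Subgroup D} (h : GS U N) {K : Type*} [CommRing K] [IsDomain K]
    (ι : U →* K) (hι : Function.Injective ι) {A : Subgroup D} (h1 : U ≤ A) (h2 : A ≤ N) {x : D}
    (hx : x ∈ N) (hc : ∀ b ∈ N, (∀ a ∈ A, Commute a b) → Commute b x) : x ∈ A := by
  set B := N ⊓ centralizer (A : Set D)
  set C := N ⊓ centralizer (B : Set D)
  have hAC : A ≤ C := fun a ha => ⟨h2 ha, fun b hb => (hb.2 a ha).symm⟩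
  have hUB : U ≤ B := fun u hu => ⟨h.le hu, fun a ha => (h.cent u hu a (h2 ha)).symm.eq⟩
  have e1 := h.pair_le ι hι (X := N) (X0 := B) (Y := A) (Y0 := U) le_rfl h2 le_rfl
    (fun n hn u _ hu => (h.cent u hu n hn).symm) fun n hn hn' => ⟨hn, fun a ha => (hn' a ha).symm.eq⟩
  have e2 := h.pair_le ι hι (X := B) (X0 := U) (Y := N) (Y0 := C) inf_le_left le_rfl (h1.trans hAC)
    (fun b hb c _ hc => hc.2 b hb) fun b _ hb => h.self b hb
  have e3 := relIndex_mul_relIndex U B N hUB inf_le_left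
  have e4 := relIndex_mul_relIndex U C N (h1.trans hAC) inf_le_left
  have e5 := relIndex_mul_relIndex U A C h1 hAC
  have p1 : 0 < U.relIndex A := Nat.pos_of_ne_zero (U.subgroupOf A).index_ne_zero_of_finite
  have p2 : 0 < C.relIndex N := Nat.pos_of_ne_zero (C.subgroupOf N).index_ne_zero_of_finite
  have p3 : 0 < A.relIndex C := Nat.pos_of_ne_zero (A.subgroupOf C).index_ne_zero_of_finite
  have e6 : A.relIndex C ≤ 1 := by
    have := Nat.mul_le_mul e2 e1
    rw [e3, ← e4, ← e5] at this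
    refine Nat.le_of_mul_le_mul_left (c := U.relIndex A * C.relIndex N) ?_ (Nat.mul_pos p1 p2)
    nlinarith
  exact relIndex_eq_one.1 (le_antisymm e6 p3) ⟨hx, fun b hb => (hc b hb.1 hb.2).eq⟩

end Pool.Agent.MP_983df8_al

end MrgPart0

-- ======== part 1: formerly Pool.Agent.MP_983df8_al.Prim
section MrgPart1

namespace Pool.Agent.MP_983df8_al

open Subgroup

variable {D V : Type*} [Group D] [AddCommGroup V] [DistribMulAction D V]

/-- the quasi-primitive situation -/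
structure PS (V : Type*) [AddCommGroup V] [DistribMulAction D V] (U N : Subgroup D) : Prop
    extends GS U N where
  fpf : ∀ u ∈ U, ∀ v : V, u • v = v → u ≠ 1 → v = 0
  cyc : ∃ u0 ∈ U, ∀ u ∈ U, ∃ k : ℕ, u = u0 ^ k
  dual : ∀ A, U ≤ A → A ≤ N → ∀ x ∈ N,
    (∀ b ∈ N, (∀ a ∈ A, Commute a b) → Commute b x) → x ∈ A
  cop : ∀ v : V, Nat.card D • v = 0 → v = 0

variable {U N : Subgroup D}

theorem PS.cancel (h : PS V U N) {u u' : D} (hu : u ∈ U) (hu' : u' ∈ U) {v : V} (hv : v ≠ 0)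
    (e : u • v = u' • v) : u = u' := by
  by_contra hc
  exact hv (h.fpf (u'⁻¹ * u) (U.mul_mem (U.inv_mem hu') hu) v
    (by rw [mul_smul, e, inv_smul_smul]) fun e' => hc (inv_mul_eq_one.1 e').symm)

theorem smul_comm_of {a b : D} (h : Commute a b) (v : V) : a • b • v = b • a • v := by
  rw [← mul_smul, h.eq, mul_smul]

theorem pow_smul_eq {n u : D} (h : Commute u n) {w : V} (e : n • w = u • w) (k : ℕ) :
    n ^ k • w = u ^ k • w := by
  induction k with
  | zero => simp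
  | succ k ih => rw [pow_succ', mul_smul, ih, smul_comm_of (h.pow_left k).symm, e, pow_succ, mul_smul]

/-- the stabiliser in `N` of the `U`-orbit of `w` -/
def PS.line (h : PS V U N) (w : V) : Subgroup D where
  carrier := {n | n ∈ N ∧ ∃ u ∈ U, n • w = u • w}
  one_mem' := ⟨N.one_mem, 1, U.one_mem, rfl⟩
  mul_mem' := by
    rintro a b ⟨ha, u, hu, e⟩ ⟨hb, u', hu', e'⟩
    exact ⟨N.mul_mem ha hb, u' * u, U.mul_mem hu' hu, by
      rw [mul_smul, e', ← smul_comm_of (h.cent _ hu' _ ha), e, mul_smul]⟩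
  inv_mem' := by
    rintro a ⟨ha, u, hu, e⟩
    exact ⟨N.inv_mem ha, u⁻¹, U.inv_mem hu, by
      rw [inv_smul_eq_iff, ← smul_comm_of (h.cent _ (U.inv_mem hu) _ ha), e, inv_smul_smul]⟩

theorem PS.le_line (h : PS V U N) (w : V) : U ≤ h.line w := fun u hu => ⟨h.le hu, u, hu, rfl⟩

theorem PS.line_comm (h : PS V U N) {w : V} (hw : w ≠ 0) {a b : D} (ha : a ∈ h.line w)
    (hb : b ∈ h.line w) : Commute a b := by
  obtain ⟨a1, u, hu, e⟩ := ha
  obtain ⟨b1, u', hu', e'⟩ := hb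
  have := h.cancel (h.comm _ (N.inv_mem a1) _ (N.inv_mem b1)) U.one_mem hw (by
    simp only [mul_smul, inv_inv, inv_smul_eq_iff, one_smul]
    rw [e', e, ← smul_comm_of (h.cent _ hu' _ a1), ← smul_comm_of (h.cent _ hu _ b1), e, e',
      smul_comm_of (h.cent _ hu _ (h.le hu'))])
  rw [inv_inv, inv_inv, mul_assoc, mul_assoc, inv_mul_eq_one, eq_inv_mul_iff_mul_eq] at this
  exact this.symm

/-- the centraliser in `N` of the line stabiliser -/
def PS.cen (h : PS V U N) (w : V) : Subgroup D := N ⊓ centralizer (h.line w : Set D)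

theorem PS.line_le_cen (h : PS V U N) {w : V} (hw : w ≠ 0) : h.line w ≤ h.cen w :=
  fun _ ha => ⟨ha.1, fun _ hb => (h.line_comm hw hb ha).eq⟩

theorem PS.exists_noncomm (h : PS V U N) {w : V} {x : D} (hx : x ∈ h.cen w) (hx' : x ∉ h.line w) :
    ∃ y ∈ h.cen w, ¬ Commute y x := by
  by_contra hc
  push Not at hc
  exact hx' (h.dual _ (h.le_line w) (fun _ ha => ha.1) x hx.1 fun b hb hb' => hc b ⟨hb, hb'⟩)

theorem geom_fix {g : D} {v : V} {p : ℕ} (h : g ^ p • v = v) :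
    g • ∑ j ∈ Finset.range p, g ^ j • v = ∑ j ∈ Finset.range p, g ^ j • v := by
  have e1 := Finset.sum_range_succ (fun j => g ^ j • v) p
  have e2 := Finset.sum_range_succ' (fun j => g ^ j • v) p
  rw [e1, h, pow_zero, one_smul, add_left_inj] at e2
  rw [Finset.smul_sum, e2]
  simp only [← mul_smul, ← pow_succ']

theorem PS.comm_pow_eq (h : PS V U N) {w : V} {x y : D} (hx : x ∈ N) (hy : y ∈ h.cen w) {p : ℕ}
    (hp : x ^ p ∈ h.line w) : (y * x * y⁻¹ * x⁻¹) ^ p = 1 := by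
  have e := comm_pow_right (a := y) (b := x) (c := y * x * y⁻¹ * x⁻¹) (by group)
    (h.cent _ (h.comm _ hy.1 _ hx) _ hx) p
  rwa [hy.2 _ hp, right_eq_mul] at e

/-- `w` has a maximal line stabiliser -/
def PS.IsMaxV (h : PS V U N) (w : V) : Prop :=
  w ≠ 0 ∧ ∀ w', w' ≠ 0 → h.line w ≤ h.line w' → h.line w' ≤ h.line w

theorem PS.eigen [Finite D] {h : PS V U N} {w : V} (hw : h.IsMaxV w) {x : D} (hx : x ∈ h.cen w)
    {p : ℕ} (hp : p.Prime) {t : D} (ht : t ∈ U) (e : x ^ p • w = t ^ p • w) : x ∈ h.line w := by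
  by_contra hc
  obtain ⟨y, hy, hxy⟩ := h.exists_noncomm hx hc
  have hz := h.comm_pow_eq hx.1 hy ⟨N.pow_mem hx.1 p, _, U.pow_mem ht p, e⟩
  have hzU := h.comm _ hy.1 _ hx.1
  have hz1 : y * x * y⁻¹ * x⁻¹ ≠ 1 := fun e' => hxy (commutatorElement_eq_one_iff_commute.1 e')
  generalize y * x * y⁻¹ * x⁻¹ = z at hz hzU hz1
  have := Fact.mk hp
  have ho : orderOf z = p := orderOf_eq_prime hz hz1
  have hUB : U ≤ h.cen w := (h.le_line w).trans (h.line_le_cen hw.1)
  have hs : t⁻¹ * x ∈ h.cen w := mul_mem (inv_mem (hUB ht)) hx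
  have hsp : (t⁻¹ * x) ^ p • w = w := by
    rw [(h.cent _ (U.inv_mem ht) _ hx.1).mul_pow, mul_smul, e, inv_pow, inv_smul_smul]
  have hxs : x = t * (t⁻¹ * x) := by group
  generalize t⁻¹ * x = s at hs hsp hxs
  have hzs : ∀ k, Commute (z ^ k) s := fun k => h.cent _ (U.pow_mem hzU k) _ hs.1
  have hsum : ∑ k ∈ Finset.range p, ∑ j ∈ Finset.range p, (z ^ k * s) ^ j • w = p • w := by
    rw [Finset.sum_comm, Finset.sum_eq_single 0 (fun j hj hj0 => ?_) (by simp [hp.pos])]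
    · simp
    simp only [(hzs _).mul_pow, mul_smul, ← pow_mul, mul_comm _ j]
    simp only [pow_mul]
    refine h.fpf (z ^ j) (U.pow_mem hzU j) _ (geom_fix ?_) (pow_ne_one_of_lt_orderOf hj0 ?_)
    · rw [← pow_mul, mul_comm, pow_mul, hz, one_pow, one_smul]
    · rw [ho]; exact Finset.mem_range.1 hj
  have hpw : p • w ≠ 0 := fun e0 => hw.1 (h.cop w (by
    obtain ⟨m, hm⟩ := ho ▸ orderOf_dvd_natCard z
    rw [hm, mul_comm, mul_smul, e0, smul_zero]))
  rw [← hsum] at hpw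
  obtain ⟨k, -, hk⟩ := Finset.exists_ne_zero_of_sum_ne_zero hpw
  have hB : z ^ k * s ∈ h.cen w := mul_mem (hUB (U.pow_mem hzU k)) hs
  have hm := hw.2 _ hk (fun a ha => by
    obtain ⟨a1, u, hu, e'⟩ := id ha
    refine ⟨a1, u, hu, ?_⟩
    simp only [Finset.smul_sum]
    refine Finset.sum_congr rfl fun j _ => ?_
    rw [smul_comm_of (a := a) ((pow_mem hB j).2 a ha), e',
      smul_comm_of (h.cent _ hu _ (pow_mem hB j).1)])
    (x := z ^ k * s) ⟨hB.1, 1, U.one_mem, by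
      rw [one_smul]
      refine geom_fix ?_
      rw [(hzs k).mul_pow, ← pow_mul, mul_comm k, pow_mul, hz, one_pow, one_mul, hsp]⟩
  refine hc (hxs ▸ mul_mem (h.le_line w ht) ?_)
  simpa using mul_mem (h.le_line w (U.inv_mem (U.pow_mem hzU k))) hm

theorem GS.exists_pow [Finite D] (h : GS U N) {n : D} (hn : n ∈ N) {p : ℕ} (hp : p.Prime) :
    ∃ k, ¬ p ∣ k ∧ (n ^ k) ^ p ∈ U := by
  obtain ⟨a, k, hk, e⟩ := Nat.exists_eq_pow_mul_and_not_dvd (orderOf_pos n).ne' p hp.ne_one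
  refine ⟨k, hk, ?_⟩
  have h0 : (n ^ k) ^ p ^ a ∈ U := by
    rw [← pow_mul, mul_comm, ← e, pow_orderOf_eq_one]
    exact U.one_mem
  have hm := N.pow_mem hn k
  generalize n ^ k = m at h0 hm
  clear e
  induction a with
  | zero => exact U.pow_mem (by simpa using h0) p
  | succ a ih =>
    rcases a with _ | a
    · simpa using h0
    refine ih ?_
    rw [pow_succ, pow_mul]
    refine h.sqf p _ (N.pow_mem hm _) ?_
    rwa [← pow_mul, ← mul_assoc, ← pow_succ, ← pow_succ]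

theorem PS.prime_two [Finite D] {h : PS V U N} {w : V} (hw : h.IsMaxV w) {x : D}
    (hx : x ∈ h.cen w) (hx' : x ∉ h.line w) {p : ℕ} (hp : p.Prime) (hxp : x ^ p ∈ h.line w) :
    p = 2 := by
  by_contra h2
  obtain ⟨y0, hy0, hxy0⟩ := h.exists_noncomm hx hx'
  obtain ⟨l, hl, hyp⟩ := h.exists_pow hy0.1 hp
  have := Fact.mk hp
  have hxy : ¬ Commute (y0 ^ l) x := fun hc => by
    have e := comm_pow_left (a := y0) (b := x) (c := y0 * x * y0⁻¹ * x⁻¹) (by group)
      (h.cent _ (h.comm _ hy0.1 _ hx.1) _ hy0.1) l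
    rw [hc.eq, right_eq_mul] at e
    exact hl (orderOf_eq_prime (h.comm_pow_eq hx.1 hy0 hxp) (fun e' =>
      hxy0 (commutatorElement_eq_one_iff_commute.1 e')) ▸ orderOf_dvd_of_pow_eq_one e)
  have hy := pow_mem hy0 l
  generalize y0 ^ l = y at hyp hxy hy
  obtain ⟨u0, hu0, hcyc⟩ := h.cyc
  obtain ⟨-, u, hu, e⟩ := id hxp
  obtain ⟨a, rfl⟩ := hcyc u hu
  obtain ⟨b, hb⟩ := hcyc _ hyp
  have ha : ¬ p ∣ a := by
    rintro ⟨c, rfl⟩
    exact hx' (PS.eigen hw hx hp (U.pow_mem hu0 c) (by rw [e, mul_comm, pow_mul]))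
  obtain ⟨k, m, hk⟩ : ∃ k, p ∣ a * k + b := by
    refine ⟨(-(b : ZMod p) / a).val, (ZMod.natCast_eq_zero_iff _ _).1 ?_⟩
    have : (a : ZMod p) ≠ 0 := fun e => ha ((ZMod.natCast_eq_zero_iff _ _).1 e)
    push_cast
    rw [ZMod.natCast_zmod_val]
    field_simp
    ring
  have hxk := pow_mem hx k
  have hc := h.comm _ hy.1 _ hxk.1
  have e1 := mul_pow_comm (a := x ^ k) (b := y) (c := y * x ^ k * y⁻¹ * (x ^ k)⁻¹) (by group)
    (h.cent _ hc _ hxk.1) (h.cent _ hc _ hy.1) p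
  obtain ⟨c, hc'⟩ := hp.dvd_choose_self (k := 2) (by omega) (lt_of_le_of_ne hp.two_le (Ne.symm h2))
  rw [hc', pow_mul, h.comm_pow_eq hxk.1 hy (by rw [← pow_mul, mul_comm, pow_mul]; exact pow_mem hxp k),
    one_pow, one_mul] at e1
  have hz := PS.eigen hw (mul_mem hxk hy) hp (U.pow_mem hu0 m) (by
    rw [e1, hb, ← (h.cent _ (U.pow_mem hu0 b) _ (pow_mem hxk p).1).eq, mul_smul, ← pow_mul,
      mul_comm k, pow_mul, pow_smul_eq (h.cent _ hu _ hxp.1) e, ← mul_smul, ← pow_mul, ← pow_add,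
      add_comm, hk, mul_comm, pow_mul])
  have e2 : x ^ k * y * x = x * (x ^ k * y) := hx.2 _ hz
  rw [← mul_assoc, ← pow_succ', pow_succ, mul_assoc, mul_assoc] at e2
  exact hxy (mul_left_cancel e2)

theorem exists_prime_pow {A : Subgroup D} {b : D} (hb : b ∉ A) {k : ℕ} (hk : k ≠ 0)
    (h : b ^ k ∈ A) : ∃ p j : ℕ, p.Prime ∧ p ∣ k ∧ b ^ j ∉ A ∧ (b ^ j) ^ p ∈ A := by
  induction k using Nat.strong_induction_on with
  | _ k ih =>
    obtain ⟨p, hp, j, rfl⟩ := Nat.exists_prime_and_dvd (n := k) (by rintro rfl; simp_all)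
    by_cases hj : b ^ j ∈ A
    · have hj0 : j ≠ 0 := by rintro rfl; simp at hk
      obtain ⟨q, i, h1, h2, h3⟩ := ih j
        (by have := hp.two_le; have := Nat.pos_of_ne_zero hj0; nlinarith) hj0 hj
      exact ⟨q, i, h1, h2.mul_left p, h3⟩
    · exact ⟨p, j, hp, dvd_mul_right p j, hj, by rwa [← pow_mul, mul_comm]⟩

theorem PS.sq_mem [Finite D] {h : PS V U N} {w : V} (hw : h.IsMaxV w) {b : D}
    (hb : b ∈ h.cen w) : b ^ 2 ∈ h.line w := by
  by_contra hc
  obtain ⟨k, hk, e⟩ := h.exists_pow hb.1 Nat.prime_two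
  obtain ⟨p, j, h1, h2, h3, h4⟩ := exists_prime_pow hc (k := k) (by rintro rfl; simp at hk)
    (by rw [← pow_mul, mul_comm, pow_mul]; exact h.le_line w e)
  exact hk (PS.prime_two hw (pow_mem (pow_mem hb 2) j) h3 h1 h4 ▸ h2)

theorem PS.exists_odd [Finite D] {h : PS V U N} {w : V} (hw : h.IsMaxV w) {u0 : D} (hu0 : u0 ∈ U)
    (hcyc : ∀ u ∈ U, ∃ k : ℕ, u = u0 ^ k) {b : D} (hb : b ∈ h.cen w) (hb' : b ∉ h.line w) :
    ∃ m, b ^ 2 • w = u0 ^ (2 * m + 1) • w := by
  obtain ⟨-, u, hu, e⟩ := PS.sq_mem hw hb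
  obtain ⟨a, rfl⟩ := hcyc u hu
  obtain ⟨m, rfl | rfl⟩ := Nat.even_or_odd' a
  · exact absurd (PS.eigen hw hb Nat.prime_two (U.pow_mem hu0 m) (by rw [e, mul_comm, pow_mul])) hb'
  · exact ⟨m, e⟩

theorem PS.mul_mem_line [Finite D] {h : PS V U N} {w : V} (hw : h.IsMaxV w) {b c : D}
    (hb : b ∈ h.cen w) (hb' : b ∉ h.line w) (hc : c ∈ h.cen w) (hc' : c ∉ h.line w)
    (hbc : Commute b c) : b * c ∈ h.line w := by
  obtain ⟨u0, hu0, hcyc⟩ := h.cyc
  obtain ⟨m, e⟩ := PS.exists_odd hw hu0 hcyc hb hb'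
  obtain ⟨l, e'⟩ := PS.exists_odd hw hu0 hcyc hc hc'
  refine PS.eigen hw (mul_mem hb hc) Nat.prime_two (U.pow_mem hu0 (l + m + 1)) ?_
  rw [hbc.mul_pow, mul_smul, e', ← smul_comm_of (h.cent _ (U.pow_mem hu0 _) _ (N.pow_mem hb.1 2)), e,
    ← mul_smul, ← pow_add, ← pow_mul]
  congr 2
  ring

theorem PS.neg_of_inv (h : PS V U N) {z : D} (hz : z ∈ U) (h1 : z ≠ 1) (h2 : z ^ 2 = 1) (v : V) :
    z • v = -v := by
  refine eq_neg_of_add_eq_zero_left (h.fpf z hz _ ?_ h1)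
  rw [smul_add, ← mul_smul, ← sq, h2, one_smul, add_comm]

theorem PS.four [Finite D] {h : PS V U N} {w : V} (hw : h.IsMaxV w) {x y b : D}
    (hx : x ∈ h.cen w) (hy : y ∈ h.cen w) (hxy : ¬ Commute y x) (hb : b ∈ h.cen w) :
    b ∈ h.line w ∨ b * x ∈ h.line w ∨ b * y ∈ h.line w ∨ b * (x * y) ∈ h.line w := by
  by_contra hc
  push Not at hc
  obtain ⟨c1, c2, c3, c4⟩ := hc
  have hx' : x ∉ h.line w := fun e => hxy (Commute.symm (hy.2 _ e))
  have hy' : y ∉ h.line w := fun e => hxy (hx.2 _ e)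
  have key : ∀ c ∈ h.cen w, c ∉ h.line w → b * c ∉ h.line w →
      (b * c * b⁻¹ * c⁻¹) • w = -w := fun c hc hc' hbc =>
    h.neg_of_inv (h.comm _ hb.1 _ hc.1) (fun e => hbc (PS.mul_mem_line hw hb c1 hc hc'
      (commutatorElement_eq_one_iff_commute.1 e))) (h.comm_pow_eq hc.1 hb (PS.sq_mem hw hc)) w
  refine c4 (PS.mul_mem_line hw hb c1 (mul_mem hx hy) (fun e => hxy ?_) ?_)
  · have e2 : x * y * x = x * (x * y) := hx.2 _ e
    exact mul_left_cancel (a := x) (by rw [← mul_assoc, e2])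
  · refine commutatorElement_eq_one_iff_commute.1
      (h.cancel (h.comm _ hb.1 _ (N.mul_mem hx.1 hy.1)) U.one_mem hw.1 ?_)
    have e := (h.cent _ (h.comm _ hb.1 _ hy.1) _ (N.inv_mem hx.1)).eq
    have e' : b * (x * y) * b⁻¹ * (x * y)⁻¹ = (b * x * b⁻¹ * x⁻¹) * (b * y * b⁻¹ * y⁻¹) := by
      calc _ = b * x * b⁻¹ * (b * y * b⁻¹ * y⁻¹ * x⁻¹) := by group
        _ = _ := by rw [e]; group
    rw [commutatorElement_def, e', mul_smul, key y hy hy' c3, smul_neg, key x hx hx' c2, neg_neg, one_smul]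

end Pool.Agent.MP_983df8_al

end MrgPart1

-- ======== part 2: formerly Pool.Agent.MP_983df8_al.Pin
section MrgPart2

namespace Pool.Agent.MP_983df8_al

open Subgroup

variable {D V : Type*} [Group D] [AddCommGroup V] [DistribMulAction D V] {U N : Subgroup D}

theorem conj_smul_eq {g : D} {w : V} (hg : g • w = w) (n : D) : (g * n * g⁻¹) • w = g • n • w := by
  rw [mul_smul, mul_smul, inv_smul_eq_iff.2 hg.symm]

theorem PS.fix_mul (h : PS V U N) {w : V} {g n b : D} (hg : g • w = w) (hn : n ∈ N)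
    (hb : b ∈ h.cen w) (e1 : g • n • w = n • w) (e2 : g • b • w = b • w) :
    g • (n * b) • w = (n * b) • w := by
  have e3 : (n⁻¹ * (g * n * g⁻¹)) • w = w := by rw [mul_smul, conj_smul_eq hg, e1, inv_smul_smul]
  have ha : n⁻¹ * (g * n * g⁻¹) ∈ h.line w :=
    ⟨N.mul_mem (N.inv_mem hn) (h.nN.conj_mem n hn g), 1, U.one_mem, by rw [e3, one_smul]⟩
  calc _ = n • (n⁻¹ * (g * n * g⁻¹)) • g • b • w := by simp only [← mul_smul]; congr 1; group
    _ = _ := by rw [e2, smul_comm_of (hb.2 _ ha), e3, mul_smul]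

theorem PS.fix_of_mul [Finite D] {h : PS V U N} {w : V} (hw : h.IsMaxV w) {g b c : D}
    (hg : g • w = w) (hA : ∀ a ∈ h.line w, g • a • w = a • w) (hc : c ∈ h.cen w)
    (e : g • c • w = c • w) (hbc : b * c ∈ h.line w) : g • b • w = b • w := by
  have ha := mul_mem hbc (inv_mem (PS.sq_mem hw hc))
  have := h.fix_mul hg ha.1 hc (hA _ ha) e
  rwa [show b * c * (c ^ 2)⁻¹ * c = b by group] at this

theorem PS.pin [Finite D] {h : PS V U N} {w : V} (hw : h.IsMaxV w) :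
    ∃ s ∈ h.cen w, ∃ s' ∈ h.cen w, ∀ g : D, g • w = w → g • s • w = s • w →
      g • s' • w = s' • w → (∀ u ∈ U, Commute g u) ∧ ∀ b ∈ h.cen w, g • b • w = b • w := by
  obtain ⟨u0, hu0, hcyc⟩ := h.cyc
  have key : ∀ g : D, g • w = w → g • u0 • w = u0 • w →
      (∀ u ∈ U, Commute g u) ∧ ∀ a ∈ h.line w, g • a • w = a • w := by
    intro g hg e
    have h1 : ∀ u ∈ U, Commute g u := fun u hu => by
      obtain ⟨k, rfl⟩ := hcyc u hu
      refine Commute.pow_right (mul_inv_eq_iff_eq_mul.1 ?_) k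
      exact h.cancel (h.nU.conj_mem _ hu0 g) hu0 hw.1 (by rw [conj_smul_eq hg, e])
    refine ⟨h1, ?_⟩
    rintro a ⟨-, u, hu, e'⟩
    rw [e', smul_comm_of (h1 u hu), hg]
  have hUB : U ≤ h.cen w := (h.le_line w).trans (h.line_le_cen hw.1)
  by_cases hle : h.cen w ≤ h.line w
  · exact ⟨u0, hUB hu0, 1, one_mem _, fun g hg e _ =>
      ⟨(key g hg e).1, fun b hb => (key g hg e).2 b (hle hb)⟩⟩
  obtain ⟨x, hx, hx'⟩ := SetLike.not_le_iff_exists.1 hle
  obtain ⟨y0, hy0, hxy0⟩ := h.exists_noncomm hx hx'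
  obtain ⟨m, e0⟩ := PS.exists_odd hw hu0 hcyc hy0 fun e => hxy0 (hx.2 _ e)
  have hum := U.inv_mem (U.pow_mem hu0 m)
  have hy := mul_mem (hUB hum) hy0
  have hxy : ¬ Commute ((u0 ^ m)⁻¹ * y0) x := fun e => hxy0 (by
    simpa using (h.cent _ (U.pow_mem hu0 m) _ hx.1).mul_left e)
  have e1 : ((u0 ^ m)⁻¹ * y0) ^ 2 • w = u0 • w := by
    rw [(h.cent _ hum _ hy0.1).mul_pow, mul_smul, e0, ← mul_smul]
    congr 1
    group
  generalize (u0 ^ m)⁻¹ * y0 = y at hy hxy e1
  refine ⟨x, hx, y, hy, fun g hg a1 a2 => ?_⟩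
  obtain ⟨k1, k2⟩ := key g hg (by rw [← e1, sq]; exact h.fix_mul hg hy.1 hy a2 a2)
  refine ⟨k1, fun b hb => ?_⟩
  rcases PS.four hw hx hy hxy hb with e | e | e | e
  · exact k2 b e
  · exact PS.fix_of_mul hw hg k2 hx a1 e
  · exact PS.fix_of_mul hw hg k2 hy a2 e
  · exact PS.fix_of_mul hw hg k2 (mul_mem hx hy) (h.fix_mul hg hx.1 hy a1 a2) e

/-- `z` has the same weight as `n • w` -/
def PS.HasWt (h : PS V U N) (w : V) (n : D) (z : V) : Prop :=
  ∀ a ∈ h.line w, ∀ u ∈ U, (n⁻¹ * a * n) • w = u • w → a • z = u • z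

theorem PS.line_conj (h : PS V U N) {w : V} {a n : D} (ha : a ∈ h.line w) (hn : n ∈ N) :
    n⁻¹ * a * n ∈ h.line w := by
  have := mul_mem (h.le_line w (h.comm _ (N.inv_mem hn) _ ha.1)) ha
  simpa using this

theorem PS.cen_conj (h : PS V U N) {w : V} (hw : w ≠ 0) {a n : D} (ha : a ∈ h.cen w) (hn : n ∈ N) :
    n * a * n⁻¹ ∈ h.cen w := by
  have := mul_mem (h.line_le_cen hw (h.le_line w (h.comm _ hn _ ha.1))) ha
  simpa using this

theorem PS.hasWt_self (h : PS V U N) (w : V) {n : D} (hn : n ∈ N) : h.HasWt w n (n • w) :=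
  fun a _ u hu e => by
    rw [smul_comm_of (h.cent u hu n hn), ← e]
    simp [← mul_smul, mul_assoc]

theorem PS.HasWt.congr {h : PS V U N} {w : V} {n n' : D} {z : V} (hz : h.HasWt w n z) (hn : n ∈ N)
    (hb : n⁻¹ * n' ∈ h.cen w) : h.HasWt w n' z := fun a ha u hu e => hz a ha u hu (by
  rw [← e]
  congr 1
  calc _ = (n⁻¹ * n')⁻¹ * ((n⁻¹ * n') * (n⁻¹ * a * n)) := by group
    _ = _ := by rw [← hb.2 _ (h.line_conj ha hn)]; group)

theorem PS.HasWt.smul {h : PS V U N} {w : V} {n b : D} {z : V} (hz : h.HasWt w n z)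
    (hb : b ∈ h.cen w) : h.HasWt w n (b • z) := fun a ha u hu e => by
  rw [smul_comm_of (hb.2 a ha), hz a ha u hu e, smul_comm_of (h.cent u hu b hb.1)]

theorem PS.HasWt.sub {h : PS V U N} {w : V} {n : D} {z z' : V} (hz : h.HasWt w n z)
    (hz' : h.HasWt w n z') : h.HasWt w n (z - z') := fun a ha u hu e => by
  rw [smul_sub, smul_sub, hz a ha u hu e, hz' a ha u hu e]

theorem PS.line_fix (h : PS V U N) {w : V} {g a : D} (hg : g • w = w) (ha : a ∈ h.line w) :
    g * a * g⁻¹ ∈ h.line w := by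
  obtain ⟨a1, u, hu, e⟩ := ha
  exact ⟨h.nN.conj_mem a a1 g, _, h.nU.conj_mem u hu g, by
    rw [conj_smul_eq hg, conj_smul_eq hg, e]⟩

theorem PS.cen_fix (h : PS V U N) {w : V} {g b : D} (hg : g • w = w) (hb : b ∈ h.cen w) :
    g * b * g⁻¹ ∈ h.cen w := by
  refine ⟨h.nN.conj_mem b hb.1 g, fun a ha => ?_⟩
  have := congrArg (fun t => g * t * g⁻¹)
    (hb.2 _ (h.line_fix (g := g⁻¹) (inv_smul_eq_iff.2 hg.symm) ha))
  simpa [mul_assoc] using this

theorem PS.HasWt.conj {h : PS V U N} {w : V} {n g : D} {z : V} (hz : h.HasWt w n z)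
    (hg : g • w = w) : h.HasWt w (g * n * g⁻¹) (g • z) := fun a ha u hu e => by
  have hg' : g⁻¹ • w = w := inv_smul_eq_iff.2 hg.symm
  have := hz _ (h.line_fix hg' ha) _ (h.nU.conj_mem u hu g⁻¹) (by
    rw [conj_smul_eq hg', ← e, ← conj_smul_eq hg']
    congr 1
    group)
  simpa [mul_smul] using this

theorem PS.indep (h : PS V U N) {w : V} (hw : w ≠ 0) {Q : Type*} {x : Q → D} (hx : ∀ q, x q ∈ N)
    (hinj : ∀ q q', (x q)⁻¹ * x q' ∈ h.cen w → q = q') (s : Finset Q) :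
    ∀ z : Q → V, (∀ q, h.HasWt w (x q) (z q)) → ∑ q ∈ s, z q = 0 → ∀ q ∈ s, z q = 0 := by
  classical
  induction s using Finset.strongInduction with
  | H s ih =>
    intro z hz hs q hq
    by_cases h1 : ∃ q' ∈ s, q' ≠ q
    swap
    · push Not at h1
      rwa [Finset.sum_eq_single_of_mem q hq fun b hb hb' => absurd (h1 b hb) hb'] at hs
    obtain ⟨q', hq', hne⟩ := h1
    obtain ⟨a, ha, hane⟩ : ∃ a ∈ h.line w, (x q)⁻¹ * a * x q ≠ (x q')⁻¹ * a * x q' := by
      by_contra hc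
      push Not at hc
      refine hne (hinj _ _ ?_)
      have : x q * (x q')⁻¹ ∈ h.cen w := ⟨N.mul_mem (hx q) (N.inv_mem (hx q')), fun a ha => by
        calc _ = x q * ((x q)⁻¹ * a * x q) * (x q')⁻¹ := by group
          _ = _ := by rw [hc a ha]; group⟩
      simpa [mul_assoc] using h.cen_conj hw this (N.inv_mem (hx q'))
    obtain ⟨a1, u, hu, e⟩ := h.line_conj ha (hx q)
    obtain ⟨a2, u', hu', e'⟩ := h.line_conj ha (hx q')
    have hs' : ∑ r ∈ s.erase q', (a • z r - u' • z r) = 0 := by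
      rw [Finset.sum_erase _ (by rw [hz q' a ha u' hu' e', sub_self]), Finset.sum_sub_distrib,
        ← Finset.smul_sum, ← Finset.smul_sum, hs, smul_zero, smul_zero, sub_self]
    have h0 := ih _ (Finset.erase_ssubset hq') _ (fun r => ((hz r).smul (h.line_le_cen hw ha)).sub
      ((hz r).smul (h.line_le_cen hw (h.le_line w hu')))) hs' q (Finset.mem_erase.2 ⟨hne.symm, hq⟩)
    by_contra hc
    rw [hz q a ha u hu e, sub_eq_zero] at h0
    obtain rfl := h.cancel hu hu' hc h0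
    have hU : ((x q')⁻¹ * a * x q')⁻¹ * ((x q)⁻¹ * a * x q) ∈ U := by
      have := U.mul_mem (h.comm _ (N.inv_mem (hx q')) _ (N.inv_mem ha.1))
        (h.comm _ (N.inv_mem ha.1) _ (N.inv_mem (hx q)))
      simpa [mul_assoc] using this
    have := h.cancel hU U.one_mem hw (by rw [mul_smul, e, ← e', inv_smul_smul, one_smul])
    exact hane (inv_mul_eq_one.1 this).symm

theorem PS.eq_one_of_fix (h : PS V U N) {w : V} (hw : w ≠ 0) {g : D}
    (hg : ∀ n ∈ N, g • n • w = n • w) : g = 1 := by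
  have key : ∀ m ∈ N, (∀ n ∈ N, m • n • w = n • w) → m = 1 := fun m hm hf => by
    have h1 : m • w = w := by simpa using hf 1 N.one_mem
    refine h.cancel (h.self m fun n hn => ?_) U.one_mem hw (by rw [h1, one_smul])
    have := h.cancel (h.comm _ (N.inv_mem hm) _ (N.inv_mem hn)) U.one_mem hw (by
      simp only [mul_smul, inv_inv, hf n hn, inv_smul_smul, one_smul]
      exact inv_smul_eq_iff.2 h1.symm)
    rw [inv_inv, inv_inv, mul_assoc, mul_assoc, inv_mul_eq_one, eq_inv_mul_iff_mul_eq] at this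
    exact this.symm
  refine h.cancel (h.self g fun n hn => ?_) U.one_mem hw (by simpa using hg 1 N.one_mem)
  have := key _ (N.mul_mem (N.inv_mem hn) (h.nN.conj_mem n hn g)) fun m hm => by
    rw [mul_smul, mul_smul, mul_smul, inv_smul_eq_iff.2 (hg m hm).symm, ← mul_smul n,
      hg _ (N.mul_mem hn hm), mul_smul, inv_smul_smul]
  exact mul_inv_eq_iff_eq_mul.1 (inv_mul_eq_one.1 this).symm

/-- first component of a colour -/
def colA (d : Fin 5) (z : V) : V := if d = 2 then 0 else z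

/-- second component of a colour -/
def colB (t : D) (d : Fin 5) (z : V) : V := if d = 1 then 0 else if d = 4 then t • z else z

theorem col_inj {t : D} (ht : ∀ v : V, t • v = v → v = 0) {d d' : Fin 5} (hd : d ≠ 0) (hd' : d' ≠ 0)
    {y z : V} (hy : y ≠ 0) (hz : z ≠ 0) (e1 : colA d y = colA d' z)
    (e2 : colB t d y = colB t d' z) : d = d' ∧ y = z := by
  have h3 : ∀ e : Fin 5, e ≠ 0 → e = 1 ∨ e = 2 ∨ e = 3 ∨ e = 4 := by decide
  rcases h3 d hd with rfl | rfl | rfl | rfl <;> rcases h3 d' hd' with rfl | rfl | rfl | rfl <;>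
    simp only [colA, colB, Fin.reduceEq, if_true, if_false] at e1 e2 <;>
    first
    | exact ⟨rfl, e1⟩
    | exact ⟨rfl, e2⟩
    | exact absurd e1 hy
    | exact absurd e1.symm hz
    | exact absurd e2 hy
    | exact absurd e2.symm hz
    | exact absurd (ht _ (e2.trans e1.symm)) hy
    | exact absurd (ht _ (e2.symm.trans e1)) hz
    | exact absurd ((smul_eq_zero_iff_eq t).1 e2) hy
    | exact absurd ((smul_eq_zero_iff_eq t).1 e2.symm) hz

theorem PS.exists_base [Finite D] (h : PS V U N) [Nontrivial V] :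
    ∃ v : Fin 3 → V, ∀ g : D, (∀ i, g • v i = v i) → g = 1 := by
  classical
  by_cases hU : U = ⊥
  · refine ⟨0, fun g _ => mem_bot.1 (hU ▸ h.self g fun n hn => ?_)⟩
    obtain rfl := mem_bot.1 (hU ▸ h.self n fun m hm =>
      commutatorElement_eq_one_iff_commute.1 (mem_bot.1 (hU ▸ h.comm n hn m hm)))
    exact Commute.one_right g
  obtain ⟨⟨t, ht⟩, ht1⟩ := ne_bot_iff_exists_ne_one.1 hU
  have ht2 : ∀ v : V, t • v = v → v = 0 := fun v e => h.fpf t ht v e fun e => ht1 (Subtype.ext e)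
  obtain ⟨w1, hw1⟩ := exists_ne (0 : V)
  obtain ⟨A, hA⟩ := exists_maximal_of_wellFoundedGT
    (fun A : Subgroup D => ∃ w ≠ 0, A = h.line w) ⟨_, w1, hw1, rfl⟩
  obtain ⟨w, hw0, rfl⟩ := hA.prop
  have hw : h.IsMaxV w := ⟨hw0, fun w' h1 h2 => hA.le_of_ge ⟨w', h1, rfl⟩ h2⟩
  obtain ⟨s, hs, s', hs', hpin⟩ := PS.pin hw
  have hn : ((h.cen w).subgroupOf N).Normal := ⟨fun b hb n => h.cen_conj hw0 hb n.2⟩
  let Q := N ⧸ (h.cen w).subgroupOf N
  have := Fintype.ofFinite Q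
  obtain ⟨col, hc1, hc2⟩ := exists_rigid0 Q
  let x : Q → D := fun q => (q.out : N)
  have hx : ∀ q, x q ∈ N := fun q => q.out.2
  have hxe : ∀ q (n : N), (x q)⁻¹ * n ∈ h.cen w ↔ q = n := fun q n => by
    rw [← q.out_eq]
    exact (QuotientGroup.eq (s := (h.cen w).subgroupOf N)).symm.trans (by simp)
  have hx1 : x 1 ∈ h.cen w := by simpa using (hxe 1 1).2 rfl
  have hne : ∀ q, x q • w ≠ 0 := fun q => (smul_ne_zero_iff_ne _).2 hw0
  let f : Q → V := fun q => if q = 1 then s • w else colA (col q - col 1) (x q • w)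
  let f' : Q → V := fun q => if q = 1 then s' • w else colB t (col q - col 1) (x q • w)
  have h0 : ∀ n, h.HasWt w n 0 := fun n a _ u _ _ => by simp
  have h1 : ∀ b ∈ h.cen w, h.HasWt w (x 1) (b • w) := fun b hb =>
    (h.hasWt_self w hb.1).congr hb.1 (mul_mem (inv_mem hb) hx1)
  have hf : ∀ q, h.HasWt w (x q) (f q) := fun q => by
    simp only [f, colA]
    split_ifs with a1
    exacts [a1 ▸ h1 s hs, h0 _, h.hasWt_self w (hx q)]
  have hf' : ∀ q, h.HasWt w (x q) (f' q) := fun q => by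
    simp only [f', colB]
    split_ifs with a1
    exacts [a1 ▸ h1 s' hs', h0 _,
      (h.hasWt_self w (hx q)).smul (h.line_le_cen hw0 (h.le_line w ht)), h.hasWt_self w (hx q)]
  refine ⟨![w, ∑ q, f q, ∑ q, f' q], fun g hg => h.eq_one_of_fix hw0 ?_⟩
  have hg0 : g • w = w := hg 0
  have := h.nN
  let φ : Q →* Q := QuotientGroup.map _ _ (MulAut.conjNormal (H := N) g).toMonoidHom
    fun b hb => by exact h.cen_fix hg0 hb
  have hφ : Function.Injective φ := by
    rw [injective_iff_map_eq_one]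
    intro q hq
    obtain ⟨n, rfl⟩ := QuotientGroup.mk_surjective q
    have := h.cen_fix (g := g⁻¹) (inv_smul_eq_iff.2 hg0.symm)
      ((QuotientGroup.eq_one_iff (N := (h.cen w).subgroupOf N) (MulAut.conjNormal g n)).1 hq)
    exact (QuotientGroup.eq_one_iff _).2 (by simpa [mul_assoc, mem_subgroupOf] using this)
  have hφx : ∀ q, (x (φ q))⁻¹ * (g * x q * g⁻¹) ∈ h.cen w := fun q =>
    (hxe (φ q) (MulAut.conjNormal g q.out)).2 ((congrArg φ q.out_eq).symm.trans rfl)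
  have key : ∀ z : Q → V, (∀ q, h.HasWt w (x q) (z q)) → g • ∑ q, z q = ∑ q, z q →
      ∀ q, g • z q = z (φ q) := fun z hz e q => by
    refine sub_eq_zero.1 (h.indep hw0 (x := fun q => x (φ q)) (fun q => hx _)
      (fun q q' e => hφ (by simpa using (hxe _ (φ q').out).1 e)) Finset.univ
      (fun q => g • z q - z (φ q)) (fun q => (((hz q).conj hg0).congr (h.nN.conj_mem _ (hx q) g)
        (by simpa using inv_mem (hφx q))).sub (hz _)) ?_ q (Finset.mem_univ q))
    rw [Finset.sum_sub_distrib, ← Finset.smul_sum, e,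
      (Finite.injective_iff_bijective.1 hφ).sum_comp, sub_self]
  have k1 := key f hf (hg 1)
  have k2 := key f' hf' (hg 2)
  obtain ⟨p1, p2⟩ := hpin g hg0 (by simpa [f] using k1 1) (by simpa [f'] using k2 1)
  have k3 : ∀ q, q ≠ 1 → col (φ q) = col q ∧ g • x q • w = x (φ q) • w := fun q hq => by
    have hq' : φ q ≠ 1 := fun e => hq (hφ (e.trans φ.map_one.symm))
    have a1 := k1 q
    have a2 := k2 q
    simp only [f, f', if_neg hq, if_neg hq'] at a1 a2
    have := col_inj ht2 (d := col q - col 1) (d' := col (φ q) - col 1)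
      (fun e => hq (hc1 _ (sub_eq_zero.1 e))) (fun e => hq' (hc1 _ (sub_eq_zero.1 e)))
      ((smul_ne_zero_iff_ne g).2 (hne q)) (hne _)
      (by rw [← a1]; unfold colA; split_ifs <;> simp)
      (by rw [← a2]; unfold colB; split_ifs <;> simp [smul_comm_of (p1 t ht)])
    exact ⟨(sub_left_injective this.1).symm, this.2⟩
  have k4 := hc2 φ hφ fun q => by
    by_cases hq : q = 1
    · rw [hq, φ.map_one]
    · exact (k3 q hq).1
  intro n hn
  by_cases hq : ((⟨n, hn⟩ : N) : Q) = 1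
  · exact p2 n ((QuotientGroup.eq_one_iff (N := (h.cen w).subgroupOf N) ⟨n, hn⟩).1 hq)
  · have hb := (hxe _ ⟨n, hn⟩).2 rfl
    have := h.fix_mul hg0 (hx _) hb (by rw [(k3 _ hq).2, k4]) (p2 _ hb)
    simpa using this

end Pool.Agent.MP_983df8_al

end MrgPart2

-- ======== part 3: formerly Pool.Agent.MP_983df8_al.Rob
section MrgPart3

namespace Pool.Agent.MP_983df8_al

open Subgroup

variable {D V : Type*} [Group D] [AddCommGroup V] [DistribMulAction D V]

theorem shift_zero (hc : ∀ v : V, Nat.card D • v = 0 → v = 0) {d : D} {x w : V} (h1 : d • w = w)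
    (h2 : d • x = x + w) : w = 0 := by
  have key : ∀ k : ℕ, d ^ k • x = x + k • w := fun k => by
    induction k with
    | zero => simp
    | succ k ih => rw [pow_succ', mul_smul, ih, smul_add, h2, smul_comm d k w, h1, succ_nsmul]; abel
  have := key (Nat.card D)
  rw [pow_card_eq_one', one_smul, left_eq_add] at this
  exact hc w this

/-- a triple in `W` whose stabiliser in `E` acts trivially on `W` -/
def RegOn (E : Subgroup D) (W : AddSubgroup V) (v : Fin 3 → V) : Prop :=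
  (∀ i, v i ∈ W) ∧ ∀ d ∈ E, (∀ i, d • v i = v i) → ∀ w ∈ W, d • w = w

theorem exists_pat : ∃ p : ZMod 7 → Fin 3 → Fin 2, Function.Injective p ∧ ∀ a, ∃ i, p a i = 1 :=
  ⟨fun a i => ⟨(a.val + 1) / 2 ^ i.1 % 2, Nat.mod_lt _ (by norm_num)⟩, by decide, by decide⟩

theorem bit_one {x : V} (h0 : x ≠ 0) {s t : Fin 2} (h : t.1 • x = s.1 • x) : s = t := by
  fin_cases s <;> fin_cases t <;> simp at h ⊢ <;> first | exact h0 h | exact h0 h.symm

theorem bit_two {x y : V} (h0 : x ≠ 0) (h1 : y ≠ 0) (h2 : y ≠ x) (h3 : x + y ≠ 0)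
    {s t s' t' : Fin 2} (h : t.1 • x + t'.1 • y = s.1 • x + s'.1 • y) : s = t ∧ s' = t' := by
  fin_cases s <;> fin_cases t <;> fin_cases s' <;> fin_cases t' <;> simp at h ⊢ <;>
    first
    | exact h0 h | exact h0 h.symm | exact h1 h | exact h1 h.symm | exact h2 h | exact h2 h.symm
    | exact h3 h | exact h3 h.symm

theorem rob_pair' (hc : ∀ v : V, Nat.card D • v = 0 → v = 0) {E : Subgroup D} {W : AddSubgroup V}
    {x y z : V} (hx : x ∈ W) (hy : y ∈ W) (hz : z ∈ W) (h0 : x ≠ 0) (h1 : y ≠ 0) (h2 : y ≠ x)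
    (h3 : y ≠ -x) (h : ∀ d ∈ E, d • x = x → d • y = y → d • z = z → ∀ w ∈ W, d • w = w) :
    ∃ T : ZMod 7 → Fin 3 → V, ((∀ a, RegOn E W (T a)) ∧
      ∀ a b, ∀ d : D, (∀ i, d • T a i = T b i) → a = b) ∧
      ∀ a, T a 0 = x ∧ ∃ k : ℕ, T a 1 = y + k • x := by
  obtain ⟨p, hp, -⟩ := exists_pat
  have key : ∀ a b, ∀ d : D, d • x = x → d • (y + (p a 0).1 • x) = y + (p b 0).1 • x →
      d • (z + (p a 1).1 • x + (p a 2).1 • y) = z + (p b 1).1 • x + (p b 2).1 • y →
      a = b ∧ d • y = y ∧ d • z = z := by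
    intro a b d e0 e1 e2
    rw [smul_add, smul_comm d _ x, e0] at e1
    have a1 := shift_zero hc (d := d) (x := y) (w := (p b 0).1 • x - (p a 0).1 • x)
      (by rw [smul_sub, smul_comm d _ x, smul_comm d _ x, e0])
      (by rw [← add_sub_assoc, ← e1, add_sub_cancel_right])
    have a2 : d • y = y := by rw [sub_eq_zero.1 a1] at e1; exact add_right_cancel e1
    rw [smul_add, smul_add, smul_comm d _ x, smul_comm d _ y, e0, a2] at e2
    have a3 := shift_zero hc (d := d) (x := z)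
      (w := (p b 1).1 • x + (p b 2).1 • y - ((p a 1).1 • x + (p a 2).1 • y))
      (by simp only [smul_sub, smul_add, smul_comm d (_ : ℕ), e0, a2])
      (by rw [← add_sub_assoc, ← add_assoc, ← e2]; abel)
    have a4 : d • z = z := by
      rw [add_assoc, add_assoc, sub_eq_zero.1 a3] at e2; exact add_right_cancel e2
    refine ⟨hp (funext fun i => ?_), a2, a4⟩
    have h3' : x + y ≠ 0 := fun e => h3 (eq_neg_of_add_eq_zero_right e)
    rw [sub_eq_zero] at a1 a3
    have b0 := bit_one h0 a1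
    have b1 := bit_two h0 h1 h2 h3' a3
    fin_cases i
    exacts [b0, b1.1, b1.2]
  refine ⟨fun a => ![x, y + (p a 0).1 • x, z + (p a 1).1 • x + (p a 2).1 • y], ⟨fun a =>
    ⟨fun i => ?_, fun d hd e => ?_⟩, fun a b d e => (key a b d (e 0) (e 1) (e 2)).1⟩,
    fun a => ⟨rfl, _, rfl⟩⟩
  · fin_cases i
    exacts [hx, add_mem hy (nsmul_mem hx _), add_mem (add_mem hz (nsmul_mem hx _)) (nsmul_mem hy _)]
  · have := key a a d (e 0) (e 1) (e 2)
    exact h d hd (e 0) this.2.1 this.2.2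

theorem rob (hc : ∀ v : V, Nat.card D • v = 0 → v = 0) {E : Subgroup D} {W : AddSubgroup V}
    (hW : ∃ w ∈ W, w ≠ 0) {v : Fin 3 → V} (hv : RegOn E W v) :
    ∃ T : ZMod 7 → Fin 3 → V, (∀ a, RegOn E W (T a)) ∧
      ∀ a b, ∀ d : D, (∀ i, d • T a i = T b i) → a = b := by
  by_cases h : ∃ u ∈ W, ∀ d ∈ E, d • u = u → ∀ w ∈ W, d • w = w
  · obtain ⟨u, h1, h2, h3⟩ : ∃ u ∈ W, u ≠ 0 ∧ ∀ d ∈ E, d • u = u → ∀ w ∈ W, d • w = w := by
      obtain ⟨u, h1, h2⟩ := h
      by_cases h0 : u = 0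
      · obtain ⟨w, a1, a2⟩ := hW
        exact ⟨w, a1, a2, fun d hd _ => h2 d hd (by simp [h0])⟩
      · exact ⟨u, h1, h0, h2⟩
    obtain ⟨p, hp, hp'⟩ := exists_pat
    refine ⟨fun a i => (p a i).1 • u, fun a => ⟨fun i => nsmul_mem h1 _, fun d hd e => h3 d hd ?_⟩,
      fun a b d e => hp (funext fun i => ?_)⟩
    · obtain ⟨i, hi⟩ := hp' a
      simpa [hi] using e i
    · have := e i
      dsimp only at this
      generalize p a i = s, p b i = t at this
      fin_cases s <;> fin_cases t <;> simp at this ⊢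
      exacts [h2 this.symm, h2 ((smul_eq_zero_iff_eq d).1 this)]
  push Not at h
  have key : ∀ u ∈ W, ∃ i, v i ≠ 0 ∧ v i ≠ u ∧ v i ≠ -u := fun u hu => by
    by_contra hcon
    obtain ⟨d, hd, e, w, hw, hne⟩ := h u hu
    refine hne (hv.2 d hd (fun i => ?_) w hw)
    by_contra hi
    exact hcon ⟨i, fun e' => hi (by simp [e']), fun e' => hi (by rw [e', e]),
      fun e' => hi (by rw [e', smul_neg, e])⟩
  obtain ⟨i, hi, -⟩ := key 0 W.zero_mem
  obtain ⟨j, j1, j2, j3⟩ := key _ (hv.1 i)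
  obtain ⟨k, hk⟩ : ∃ k : Fin 3, ∀ l, l = i ∨ l = j ∨ l = k := by
    have : ∀ i j : Fin 3, j ≠ i → ∃ k : Fin 3, ∀ l, l = i ∨ l = j ∨ l = k := by decide
    exact this i j fun e => j2 (e ▸ rfl)
  refine (rob_pair' hc (hv.1 i) (hv.1 j) (hv.1 k) hi j1 j2 j3
    fun d hd a1 a2 a3 => hv.2 d hd fun l => ?_).imp fun _ h => h.1
  rcases hk l with rfl | rfl | rfl
  exacts [a1, a2, a3]

theorem glue_lin [Finite D] [Group.IsSolvable D] {Ω : Type*} [Fintype Ω] [MulAction D Ω]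
    (hc : ∀ v : V, Nat.card D • v = 0 → v = 0) (e : Ω → V →+ V) (h1 : ∀ v, ∑ ω, e ω v = v)
    (h2 : ∀ ω ω' v, ω ≠ ω' → e ω (e ω' v) = 0) (h3 : ∀ ω v, e ω (e ω v) = e ω v)
    (h4 : ∀ (d : D) ω v, e (d • ω) (d • v) = d • e ω v) (h5 : ∀ ω, e ω ≠ 0)
    (h6 : ∀ ω, ∃ v, RegOn (MulAction.stabilizer D ω) (e ω).range v) :
    ∃ v : Fin 3 → V, ∀ d : D, (∀ i, d • v i = v i) → ∀ w : V, d • w = w := by
  obtain ⟨col, hcol⟩ := exists_distinguishing (H := D) Ω
  have hT := fun ω => (h6 ω).elim fun v hv => rob hc (by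
    by_contra hcon
    push Not at hcon
    exact h5 ω (AddMonoidHom.ext fun v => hcon _ ⟨v, rfl⟩)) hv
  choose T hT hT' using hT
  let r := MulAction.orbitRel D Ω
  let rep := fun ω : Ω => (Quotient.mk r ω).out
  have hrep : ∀ ω, ∃ u : D, u • rep ω = ω := fun ω => r.symm (Quotient.mk_out ω)
  choose u hu using hrep
  have hcomp : ∀ ω i, e ω (∑ ω', u ω' • T (rep ω') (col ω') i) = u ω • T (rep ω) (col ω) i := by
    have a : ∀ ω i, ∃ y, u ω • T (rep ω) (col ω) i = e ω y := fun ω i => by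
      obtain ⟨y, hy⟩ := (hT (rep ω) (col ω)).1 i
      exact ⟨u ω • y, by rw [← hy, ← h4, hu]⟩
    intro ω i
    rw [map_sum, Finset.sum_eq_single_of_mem ω (Finset.mem_univ _) fun ω' _ hne => ?_]
    · obtain ⟨y, hy⟩ := a ω i
      rw [hy, h3]
    · obtain ⟨y, hy⟩ := a ω' i
      rw [hy, h2 _ _ _ hne.symm]
  refine ⟨fun i => ∑ ω, u ω • T (rep ω) (col ω) i, fun d hd w => ?_⟩
  have key : ∀ ω i, ((u (d • ω))⁻¹ * d * u ω) • T (rep ω) (col ω) i = T (rep ω) (col (d • ω)) i := by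
    intro ω i
    have hr : rep (d • ω) = rep ω := congrArg Quotient.out (Quotient.sound (s := r) ⟨d, rfl⟩)
    rw [mul_smul, mul_smul, ← hcomp, ← h4, hd i, hcomp, hr, inv_smul_smul]
  have htriv := hcol d fun ω => (hT' _ _ _ _ (key ω)).symm
  rw [← h1 w, Finset.smul_sum]
  refine Finset.sum_congr rfl fun ω _ => ?_
  have k := key ω
  rw [htriv] at k
  have := (hT (rep ω) (col ω)).2 _ (by
    rw [MulAction.mem_stabilizer_iff, mul_smul, mul_smul, hu, htriv, inv_smul_eq_iff, hu]) k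
    _ ⟨(u ω)⁻¹ • w, rfl⟩
  rw [mul_smul, mul_smul, inv_smul_eq_iff, ← h4, hu, smul_inv_smul] at this
  exact this

end Pool.Agent.MP_983df8_al

end MrgPart3

-- ======== part 4: formerly Pool.Agent.MP_983df8_al.Lin
section MrgPart4

namespace Pool.Agent.MP_983df8_al

open Subgroup

section Atoms

variable {A : Type*} [Ring A] {R : Subring A}

/-- primitive idempotents of `R` -/
def IsAtomE (R : Subring A) (e : A) : Prop :=
  e ∈ R ∧ e * e = e ∧ e ≠ 0 ∧ ∀ f ∈ R, f * f = f → f * e = 0 ∨ f * e = e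

theorem exists_atomE [Finite A] (hR : ∀ x ∈ R, ∀ y ∈ R, x * y = y * x) {e : A} (h1 : e ∈ R)
    (h2 : e * e = e) (h3 : e ≠ 0) : ∃ a, IsAtomE R a ∧ e * a = a := by
  obtain ⟨a, ⟨a1, a2, a3, a4⟩, ha⟩ := exists_minimalFor_of_wellFoundedLT
    (fun a => a ∈ R ∧ a * a = a ∧ a ≠ 0 ∧ e * a = a) (fun a => Set.range (a * ·))
    ⟨e, h1, h2, h3, h2⟩
  refine ⟨a, ⟨a1, a2, a3, fun f f1 f2 => ?_⟩, a4⟩
  by_cases h0 : f * a = 0
  · exact Or.inl h0
  right
  have e1 : f * a * (f * a) = f * a := by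
    rw [mul_assoc, ← mul_assoc a, hR a a1 f f1, mul_assoc, a2, ← mul_assoc, f2]
  obtain ⟨y, hy⟩ := ha (j := f * a) ⟨R.mul_mem f1 a1, e1, h0, by
    rw [← mul_assoc, hR e h1 f f1, mul_assoc, a4]⟩ (by
      rintro _ ⟨y, rfl⟩
      exact ⟨f * y, by simp only [← mul_assoc, hR a a1 f f1]⟩) ⟨1, rfl⟩
  simp only [mul_one] at hy
  calc f * a = f * (f * a * y) := by rw [hy]
    _ = a := by rw [← mul_assoc, ← mul_assoc, f2, hy]

theorem IsAtomE.orth (hR : ∀ x ∈ R, ∀ y ∈ R, x * y = y * x) {a b : A} (ha : IsAtomE R a)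
    (hb : IsAtomE R b) (h : a ≠ b) : a * b = 0 := by
  rcases hb.2.2.2 a ha.1 ha.2.1 with e | e
  · exact e
  rcases ha.2.2.2 b hb.1 hb.2.1 with e' | e'
  · rw [hR a ha.1 b hb.1, e']
  · exact absurd (e'.symm.trans ((hR b hb.1 a ha.1).trans e)) h

theorem sum_atomE [Finite A] (hR : ∀ x ∈ R, ∀ y ∈ R, x * y = y * x)
    [Fintype {a // IsAtomE R a}] : ∑ a : {a // IsAtomE R a}, a.1 = 1 := by
  have h1 : ∀ b : {a // IsAtomE R a}, (∑ a : {a // IsAtomE R a}, a.1) * b.1 = b.1 := fun b => by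
    rw [Finset.sum_mul, Finset.sum_eq_single_of_mem b (Finset.mem_univ _)
      fun a _ hne => a.2.orth hR b.2 fun e => hne (Subtype.ext e), b.2.2.1]
  have h2 : (∑ a : {a // IsAtomE R a}, a.1) ∈ R := sum_mem fun a _ => a.2.1
  have h3 : (∑ a : {a // IsAtomE R a}, a.1) * ∑ a : {a // IsAtomE R a}, a.1 =
      ∑ a : {a // IsAtomE R a}, a.1 := by
    rw [Finset.mul_sum]
    exact Finset.sum_congr rfl fun b _ => h1 b
  by_contra hne
  obtain ⟨a, a1, a2⟩ := exists_atomE hR (R.sub_mem R.one_mem h2)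
    (by rw [sub_mul, one_mul, mul_sub, mul_one, h3, sub_self, sub_zero])
    (sub_ne_zero.2 (Ne.symm hne))
  rw [sub_mul, one_mul, h1 ⟨a, a1⟩, sub_self] at a2
  exact a1.2.2.1 a2.symm

theorem closure_pow [Nontrivial A] {s : Set A} (hs : ∀ x ∈ s, ∀ y ∈ s, x * y = y * x) {r m : ℕ}
    (hr : r.Prime) (h0 : (r : A) = 0) (h : ∀ x ∈ s, x ^ r ^ m = x) {x : A}
    (hx : x ∈ Subring.closure s) : x ^ r ^ m = x := by
  have := Fact.mk hr
  have := (CharP.charP_iff_prime_eq_zero (R := A) hr).2 h0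
  have hc := Subring.isMulCommutative_closure hs
  have hc' : ∀ x ∈ Subring.closure s, ∀ y ∈ Subring.closure s, Commute x y := fun x hx y hy =>
    congrArg Subtype.val (hc.1.1 ⟨x, hx⟩ ⟨y, hy⟩)
  induction hx using Subring.closure_induction with
  | mem x hx => exact h x hx
  | zero => exact zero_pow (pow_pos hr.pos m).ne'
  | one => exact one_pow _
  | add x y hx hy e e' => rw [add_pow_char_pow_of_commute _ _ (hc' x hx y hy), e, e']
  | neg x hx e => rw [neg_pow, neg_one_pow_char_pow, e, neg_one_mul]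
  | mul x y hx hy e e' => rw [(hc' x hx y hy).mul_pow, e, e']

end Atoms

variable {D V : Type*} [Group D] [AddCommGroup V] [DistribMulAction D V]

theorem cop_of {r : ℕ} (hr : r.Prime) (hV : ∀ v : V, r • v = 0) {n : ℕ} (hn : ¬ r ∣ n) (v : V)
    (h : n • v = 0) : v = 0 :=
  AddMonoid.addOrderOf_eq_one_iff.1 (Nat.eq_one_of_dvd_coprimes ((hr.coprime_iff_not_dvd).2 hn)
    (addOrderOf_dvd_of_nsmul_eq_zero (hV v)) (addOrderOf_dvd_of_nsmul_eq_zero h))

open scoped IsMulCommutative in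
theorem lin_step [Finite D] [Group.IsSolvable D] [Finite V] {r : ℕ} (hr : r.Prime)
    (hV : ∀ v : V, r • v = 0) (hD : ¬ r ∣ Nat.card D) (hf : ∀ d : D, (∀ v : V, d • v = v) → d = 1)
    (ih : ∀ (E : Subgroup D) (W : AddSubgroup V), W ≠ ⊤ → (∀ d ∈ E, ∀ w ∈ W, d • w ∈ W) →
      ∃ v, RegOn E W v) :
    ∃ v : Fin 3 → V, ∀ d : D, (∀ i, d • v i = v i) → ∀ w : V, d • w = w := by
  classical
  rcases subsingleton_or_nontrivial V with hs | hs
  · exact ⟨0, fun d _ w => Subsingleton.elim _ _⟩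
  have hc := cop_of hr hV hD
  obtain ⟨U, hU⟩ := exists_maxAb (D := D)
  let ρ := DistribMulAction.toAddMonoidEnd D V
  have hρ : ∀ d v, ρ d v = d • v := fun _ _ => rfl
  have hs' : ∀ x ∈ ρ '' U, ∀ y ∈ ρ '' U, x * y = y * x := by
    rintro _ ⟨a, ha, rfl⟩ _ ⟨b, hb, rfl⟩
    rw [← map_mul, (hU.prop.2 a ha b hb).eq, map_mul]
  let R := Subring.closure (ρ '' U)
  have hcomm : IsMulCommutative R := Subring.isMulCommutative_closure hs'
  have hR : ∀ x ∈ R, ∀ y ∈ R, x * y = y * x := fun x hx y hy =>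
    congrArg Subtype.val (hcomm.1.1 ⟨x, hx⟩ ⟨y, hy⟩)
  have hfin : Finite (AddMonoid.End V) := Finite.of_injective _ (DFunLike.coe_injective)
  by_cases h1 : IsAtomE R 1
  · have hnt : Nontrivial (AddMonoid.End V) := nontrivial_of_ne _ _ h1.2.2.1
    have hpow : ∀ x ∈ R, x ^ r ^ (Nat.card D).totient = x := fun x hx => closure_pow hs' hr
      (AddMonoidHom.ext fun v => (AddMonoid.End.natCast_apply r v).trans (hV v)) (by
        rintro _ ⟨a, -, rfl⟩
        rw [← map_pow]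
        exact congrArg ρ ((pow_eq_pow_iff_modEq.2 ((Nat.ModEq.pow_totient
          (hr.coprime_iff_not_dvd.2 hD)).of_dvd (orderOf_dvd_natCard a))).trans (pow_one a))) hx
    obtain ⟨k, hk⟩ : ∃ k, r ^ (Nat.card D).totient = k + 2 := Nat.exists_eq_add_of_le'
      (Nat.one_lt_pow (Nat.totient_pos.2 Nat.card_pos).ne' hr.one_lt)
    have hunit : ∀ x ∈ R, x ≠ 0 → x ^ k * x = 1 := fun x hx h0 => by
      have e := hpow x hx
      rw [hk] at e
      rcases h1.2.2.2 (x ^ (k + 1)) (R.pow_mem hx _) (by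
        rw [← pow_add, show k + 1 + (k + 1) = (k + 2) + k by ring, pow_add, e, ← pow_succ'])
        with e' | e'
      · rw [pow_succ, ← mul_one (x ^ (k + 1)), e', zero_mul] at e
        exact absurd e.symm h0
      · rwa [mul_one, pow_succ] at e'
    have : NoZeroDivisors R := ⟨fun {a b} hab => by
      by_cases ha : a = 0
      · exact Or.inl ha
      · refine Or.inr (Subtype.ext ?_)
        have := hunit a a.2 fun e => ha (Subtype.ext e)
        calc (b : AddMonoid.End V) = a ^ k * a * b := by rw [this, one_mul]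
          _ = 0 := by rw [mul_assoc, show (a : AddMonoid.End V) * b = 0 from
            congrArg Subtype.val hab, mul_zero]⟩
    have : IsDomain R := NoZeroDivisors.to_isDomain R
    let ι : U →* R := (ρ.comp U.subtype).codRestrict R.toSubmonoid
      fun u => Subring.subset_closure ⟨u, u.2, rfl⟩
    have hι : Function.Injective ι := by
      rw [injective_iff_map_eq_one]
      exact fun u hu => Subtype.ext (hf _ fun v => DFunLike.congr_fun (congrArg Subtype.val hu) v)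
    obtain ⟨N, hN⟩ := hU.exists_gs
    have hP : PS V U N := ⟨hN, fun u hu v e hne => ?_, ?_,
      fun A a1 a2 x hx hx' => hN.dual ι hι a1 a2 hx hx', hc⟩
    · obtain ⟨v, hv⟩ := hP.exists_base
      exact ⟨v, fun d hd w => by rw [hv d hd, one_smul]⟩
    · have := hunit _ (R.sub_mem (Subring.subset_closure ⟨u, hu, rfl⟩) R.one_mem) fun e' =>
        hne (hf u fun v => DFunLike.congr_fun (sub_eq_zero.1 e') v)
      have e' := DFunLike.congr_fun this v
      rw [AddMonoid.End.coe_mul, Function.comp_apply, show (ρ u - 1) v = 0 from sub_eq_zero.2 e,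
        map_zero] at e'
      exact e'.symm
    · obtain ⟨g, hg⟩ := (isCyclic_of_injective_ringHom ι hι).exists_monoid_generator
      exact ⟨g, g.2, fun u hu => (hg ⟨u, hu⟩).imp fun k hk => (congrArg Subtype.val hk).symm⟩
  have hi : ∀ d : D, ρ d⁻¹ * ρ d = 1 := fun d => by rw [← map_mul, inv_mul_cancel, map_one]
  have hi' : ∀ (d : D) x, ρ d⁻¹ * (ρ d * x) = x := fun d x => by rw [← mul_assoc, hi, one_mul]
  have hi2 : ∀ (d : D) x, ρ d * (ρ d⁻¹ * x) = x := fun d x => by simpa using hi' d⁻¹ x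
  have hconj : ∀ (d : D), ∀ x ∈ R, ρ d * x * ρ d⁻¹ ∈ R := fun d x hx => by
    induction hx using Subring.closure_induction with
    | mem x hx =>
      obtain ⟨a, ha, rfl⟩ := hx
      exact Subring.subset_closure ⟨_, hU.prop.1.conj_mem a ha d, by simp only [map_mul]⟩
    | zero => simp
    | one => simp [← map_mul]
    | add x y hx hy e e' => simpa only [mul_add, add_mul] using R.add_mem e e'
    | neg x hx e => simpa only [mul_neg, neg_mul] using R.neg_mem e
    | mul x y hx hy e e' => simpa only [mul_assoc, hi'] using R.mul_mem e e'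
  have hat : ∀ (d : D) a, IsAtomE R a → IsAtomE R (ρ d * a * ρ d⁻¹) := fun d a ha => by
    refine ⟨hconj d a ha.1, by simp only [mul_assoc, hi']; rw [← mul_assoc a, ha.2.1], fun e => ?_,
      fun f f1 f2 => ?_⟩
    · have := congrArg (fun t => ρ d⁻¹ * t * ρ d) e
      simp only [mul_assoc, hi', hi, mul_one, mul_zero, zero_mul] at this
      exact ha.2.2.1 this
    · refine (ha.2.2.2 _ (hconj d⁻¹ f f1) (by
        simp only [mul_assoc, inv_inv, hi2]; rw [← mul_assoc f, f2])).imp (fun e => ?_) fun e => ?_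
      · have := congrArg (fun t => ρ d * t * ρ d⁻¹) e
        simpa only [mul_assoc, inv_inv, hi2, mul_zero, zero_mul] using this
      · have := congrArg (fun t => ρ d * t * ρ d⁻¹) e
        simpa only [mul_assoc, inv_inv, hi2] using this
  let _ : MulAction D {a // IsAtomE R a} :=
    { smul := fun d a => ⟨_, hat d a.1 a.2⟩
      one_smul := fun a => Subtype.ext (by
        show ρ 1 * a.1 * ρ 1⁻¹ = a.1
        simp)
      mul_smul := fun c d a => Subtype.ext (by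
        show ρ (c * d) * a.1 * ρ (c * d)⁻¹ = ρ c * (ρ d * a.1 * ρ d⁻¹) * ρ c⁻¹
        simp only [mul_inv_rev, map_mul, mul_assoc]) }
  have := Fintype.ofFinite {a // IsAtomE R a}
  have h4 : ∀ (d : D) (a : {a // IsAtomE R a}) v, (d • a).1 (d • v) = d • a.1 v := fun d a v => by
    show d • a.1 (d⁻¹ • d • v) = _
    rw [inv_smul_smul]
  refine glue_lin (Ω := {a // IsAtomE R a}) hc (fun a => a.1) (fun v => ?_)
    (fun a b v hne => DFunLike.congr_fun (a.2.orth hR b.2 fun e => hne (Subtype.ext e)) v)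
    (fun a v => DFunLike.congr_fun a.2.2.1 v) h4 (fun a => a.2.2.2.1) fun a => ih _ _ (fun e => ?_) ?_
  · exact (AddMonoidHom.finsetSum_apply _ _ v).symm.trans (DFunLike.congr_fun (sum_atomE hR) v)
  · refine h1 ((?_ : a.1 = 1) ▸ a.2)
    refine AddMonoidHom.ext fun v => ?_
    obtain ⟨y, rfl⟩ := AddMonoidHom.range_eq_top.1 e v
    exact DFunLike.congr_fun a.2.2.1 y
  · rintro d hd _ ⟨y, rfl⟩
    have := h4 d a y
    rw [MulAction.mem_stabilizer_iff.1 hd] at this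
    exact ⟨d • y, this⟩

universe u

theorem lin_range {V : Type u} [AddCommGroup V] [DistribMulAction D V] [Finite D]
    [Group.IsSolvable D] {r : ℕ} (hD : ¬ r ∣ Nat.card D)
    (h : ∀ (E : Type u) [Group E] [Finite E] [Group.IsSolvable E] [DistribMulAction E V],
      ¬ r ∣ Nat.card E → (∀ d : E, (∀ v : V, d • v = v) → d = 1) →
      ∃ v : Fin 3 → V, ∀ d : E, (∀ i, d • v i = v i) → ∀ w : V, d • w = w) :
    ∃ v : Fin 3 → V, ∀ d : D, (∀ i, d • v i = v i) → ∀ w : V, d • w = w := by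
  let ρ := (DistribMulAction.toAddMonoidEnd D V).toHomUnits
  have := Finite.of_surjective _ ρ.rangeRestrict_surjective
  have := Group.isSolvable_of_surjective ρ.rangeRestrict_surjective
  obtain ⟨v, hv⟩ := h ρ.range (fun e => hD (e.trans (card_range_dvd ρ)))
    fun d hd => Subtype.ext (Units.ext (AddMonoidHom.ext hd))
  exact ⟨v, fun d hd => hv (ρ.rangeRestrict d) hd⟩

theorem lin_aux {r : ℕ} (hr : r.Prime) (n : ℕ) : ∀ (V : Type u) [AddCommGroup V] [Finite V],
    Nat.card V = n → (∀ v : V, r • v = 0) →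
    ∀ (D : Type u) [Group D] [Finite D] [Group.IsSolvable D] [DistribMulAction D V],
      ¬ r ∣ Nat.card D → (∀ d : D, (∀ v : V, d • v = v) → d = 1) →
      ∃ v : Fin 3 → V, ∀ d : D, (∀ i, d • v i = v i) → ∀ w : V, d • w = w := by
  induction n using Nat.strong_induction_on with
  | _ n ih =>
    intro V _ _ hn hV D _ _ _ _ hD hf
    refine lin_step hr hV hD hf fun E W hW hE => ?_
    let _ : DistribMulAction E W :=
      { smul := fun d w => ⟨d.1 • w.1, hE _ d.2 _ w.2⟩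
        one_smul := fun w => Subtype.ext (one_smul D w.1)
        mul_smul := fun c d w => Subtype.ext (mul_smul c.1 d.1 w.1)
        smul_zero := fun d => Subtype.ext (smul_zero d.1)
        smul_add := fun d v w => Subtype.ext (smul_add d.1 v.1 w.1) }
    obtain ⟨v, hv⟩ := lin_range (D := E) (V := W) (fun e => hD (e.trans (card_subgroup_dvd_card E)))
      (ih _ (hn ▸ lt_of_le_of_ne (AddSubgroup.card_le_card_addGroup W)
        fun e => hW (AddSubgroup.eq_top_of_card_eq W e)) W rfl fun w => Subtype.ext (hV w.1))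
    exact ⟨fun i => v i, fun i => (v i).2, fun d hd e w hw =>
      congrArg Subtype.val (hv ⟨d, hd⟩ (fun i => Subtype.ext (e i)) ⟨w, hw⟩)⟩

/-- a soluble group acting coprimely on an elementary abelian group has a base of size three -/
theorem lin3 [Finite D] [Group.IsSolvable D] [Finite V] {r : ℕ} (hr : r.Prime)
    (hV : ∀ v : V, r • v = 0) (hD : ¬ r ∣ Nat.card D) :
    ∃ v : Fin 3 → V, ∀ d : D, (∀ i, d • v i = v i) → ∀ w : V, d • w = w :=
  lin_range hD (lin_aux hr _ V rfl hV)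

end Pool.Agent.MP_983df8_al

end MrgPart4

-- ======== part 5: formerly Pool.Agent.MP_983df8_al.AutN
section MrgPart5

namespace Pool.Agent.MP_983df8_al

open Matrix Matrix.SpecialLinearGroup

variable {ι K : Type*} [Fintype ι] [DecidableEq ι] [Field K]
variable {g g' : SLn ι K} {v f v' f' : ι → K}

/-- semilinear conjugation -/
def sem (μ : K →+* K) (A B : Matrix ι ι K) (h : B * A = 1) : SLn ι K →* SLn ι K where
  toFun g := ⟨A * g.1.map μ * B, by
    rw [det_mul_comm, ← mul_assoc, h, one_mul, ← RingHom.mapMatrix_apply, ← RingHom.map_det, g.2,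
      map_one]⟩
  map_one' := Subtype.ext (by
    show A * (1 : Matrix ι ι K).map μ * B = 1
    rw [Matrix.map_one _ μ.map_zero μ.map_one, mul_one, mul_eq_one_comm.1 h])
  map_mul' g g' := Subtype.ext (by
    show A * (g.1 * g'.1).map μ * B = A * g.1.map μ * B * (A * g'.1.map μ * B)
    rw [Matrix.map_mul, mul_assoc (A * _) B, ← mul_assoc B, ← mul_assoc B, h, one_mul]
    simp only [mul_assoc])

variable {μ : K →+* K} {A B : Matrix ι ι K}

theorem sem_val (h : B * A = 1) (g : SLn ι K) : (sem μ A B h g).1 = A * g.1.map μ * B := rfl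

theorem Tv.sem (a : Tv g v f) (h : B * A = 1) : Tv (sem μ A B h g) (A *ᵥ (μ ∘ v)) ((μ ∘ f) ᵥ* B) := by
  have : (1 + vecMulVec v f).map μ = 1 + vecMulVec (μ ∘ v) (μ ∘ f) := by
    ext i j
    simp [one_apply, vecMulVec_apply, apply_ite μ]
  rw [Tv, sem_val, a, this, mul_add, add_mul, mul_one, mul_eq_one_comm.1 h, mul_vecMulVec,
    vecMulVec_mul]

theorem tv_x {i j : ι} (h : i ≠ j) (s : K) :
    Tv (transvection h s) (Pi.single i 1) (Pi.single j s) := by
  rw [Tv, transvection_coe]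
  ext k l
  by_cases a : i = k <;> by_cases b : j = l <;>
    simp [single, vecMulVec_apply, Pi.single_apply, a, b, eq_comm]

theorem Tv.inj (h : Tv g v f) (h' : Tv g v f') (hv : v ≠ 0) : f = f' := by
  have := add_left_cancel (h.symm.trans h')
  rwa [← sub_eq_zero, ← vecMulVec_sub, vecMulVec_eq_zero, or_iff_right hv, sub_eq_zero] at this

theorem Tv.dep (h : Tv g v f) (h' : Tv g v' f') (hg : g ≠ 1) : Dep v v' ∧ Dep f f' := by
  have key : ∀ {g : SLn ι K} {v f v' f' : ι → K}, Tv g v f → Tv g v' f' → f ≠ 0 → Dep v v' :=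
    fun h h' a => by
      obtain ⟨u, hu⟩ := exists_dot a
      have := (h.act u).symm.trans (h'.act u)
      rw [hu, one_smul, add_left_cancel_iff] at this
      exact this ▸ (dep_smul' _ _).symm
  rw [Ne, h.eq_one_iff, not_or] at hg
  exact ⟨key h h' hg.2, key h.tau h'.tau (neg_ne_zero.2 hg.1)⟩

theorem Tv.comm (a : Tv g v f) (b : Tv g' v' f') (h : f' ⬝ᵥ v = 0) :
    Tv (g * g' * g⁻¹ * g'⁻¹) v ((f ⬝ᵥ v') • f') := by
  have c := b.conj g
  rw [a.act, a.inv, vecMul_add, vecMul_one, vecMul_vecMulVec, h, zero_smul, add_zero] at c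
  have d : Tv g'⁻¹ (-v') f' := by simpa using tv_smul.2 (show Tv g'⁻¹ v' ((-1 : K) • f') by
    simpa using b.inv)
  simpa [tv_smul] using c.mul' d

theorem diag2n_decomp {i j : ι} (hij : i ≠ j) (a : K) (ha : a ≠ 0) :
    diag2n hij a ha = transvection hij a * transvection hij.symm (- a⁻¹) *
      transvection hij a * transvection hij (-1) * transvection hij.symm 1 *
      transvection hij (-1) := by
  apply Subtype.ext
  simp only [coe_mul, transvection_coe, diag2n_coe, mul_add, add_mul,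
    one_mul, mul_one, single_mul_single_same, single_mul_single_of_ne _ _ _ _ hij,
    single_mul_single_of_ne _ _ _ _ hij.symm, add_zero, zero_mul]
  ext k l
  simp only [Matrix.add_apply, single_apply, diagonal_apply, one_apply]
  by_cases a1 : k = i <;> by_cases a2 : k = j <;> by_cases a3 : l = i <;> by_cases a4 : l = j <;>
    simp_all [eq_comm] <;> field_simp <;> ring

theorem sn_gen [Nontrivial ι] (H : Subgroup (SLn ι K))
    (h : ∀ (i j : ι) (hij : i ≠ j) (c : K), transvection hij c ∈ H) (g : SLn ι K) : g ∈ H := by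
  refine diagonal_transvection_induction' (fun M => M ∈ H) g ?_ h (fun A B => H.mul_mem)
  intro i j hij c hc
  rw [diag2n_decomp]
  refine H.mul_mem (H.mul_mem (H.mul_mem (H.mul_mem (H.mul_mem ?_ ?_) ?_) ?_) ?_) ?_ <;>
    exact h _ _ _ _

omit [DecidableEq ι] in
theorem exists_third_idx (h3 : 3 ≤ Fintype.card ι) (i j : ι) : ∃ k, k ≠ i ∧ k ≠ j := by
  classical
  by_contra h
  have := Finset.card_le_card (show Finset.univ ⊆ ({i, j} : Finset ι) from fun k _ => by
    by_contra h'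
    exact h ⟨k, by simpa using h'⟩)
  have := Finset.card_le_two (a := i) (b := j)
  simp only [Finset.card_univ] at *
  omega

omit [DecidableEq ι] in
theorem coef_alg (h3 : 3 ≤ Fintype.card ι) (C : ι → ι → K → K)
    (h0 : ∀ i j, i ≠ j → C i j 1 ≠ 0) (ha : ∀ i j, i ≠ j → ∀ s t, C i j (s + t) = C i j s + C i j t)
    (hm : ∀ i j k, i ≠ j → j ≠ k → i ≠ k → ∀ s t, C i k (s * t) = C i j s * C j k t) :
    ∃ (μ : K →+* K) (d : ι → K), (∀ i, d i ≠ 0) ∧ ∀ i j, i ≠ j → ∀ s, C i j s = d i * μ s / d j := by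
  classical
  have hr : ∀ i j k, i ≠ j → i ≠ k → ∀ s, C i j s / C i j 1 = C i k s / C i k 1 := by
    intro i j k a b s
    by_cases c : j = k
    · rw [c]
    have e1 := hm i j k a c b s 1
    have e2 := hm i j k a c b 1 1
    rw [mul_one] at e1 e2
    rw [e1, e2, mul_div_mul_right _ _ (h0 j k c)]
  have hc : ∀ i j k, i ≠ k → j ≠ k → ∀ s, C i k s / C i k 1 = C j k s / C j k 1 := by
    intro i j k a b s
    by_cases c : i = j
    · rw [c]
    have e1 := hm i j k c b a 1 s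
    have e2 := hm i j k c b a 1 1
    rw [one_mul] at e1 e2
    rw [e1, e2, mul_div_mul_left _ _ (h0 i j c)]
  have hall : ∀ i j k l, i ≠ j → k ≠ l → ∀ s, C i j s / C i j 1 = C k l s / C k l 1 := by
    intro i j k l a b s
    by_cases c : k = j
    · obtain ⟨r, r1, r2⟩ := exists_third_idx h3 i k
      rw [hr i j r a r1.symm, hc i k r r1.symm r2.symm, hr k r l r2.symm b]
    · rw [hc i k j a c, hr k j l c b]
  obtain ⟨o⟩ : Nonempty ι := Fintype.card_pos_iff.1 (by omega)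
  obtain ⟨q, hq, -⟩ := exists_third_idx h3 o o
  obtain ⟨r, r1, r2⟩ := exists_third_idx h3 o q
  have hq' := h0 o q hq.symm
  refine ⟨⟨⟨⟨fun s => C o q s / C o q 1, div_self hq'⟩, fun s t => ?_⟩, ?_, fun s t => ?_⟩,
    fun i => if i = o then 1 else C i o 1, fun i => ?_, fun i j hij s => ?_⟩
  · have e := hm o r q r1.symm r2 hq.symm 1 1
    rw [mul_one] at e
    show C o q (s * t) / C o q 1 = C o q s / C o q 1 * (C o q t / C o q 1)
    rw [hall o q o r hq.symm r1.symm s, hall o q r q hq.symm r2 t, hm o r q r1.symm r2 hq.symm, e,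
      mul_div_mul_comm]
  · have := ha o q hq.symm 0 0
    rw [add_zero, left_eq_add] at this
    show C o q 0 / C o q 1 = 0
    rw [this, zero_div]
  · show C o q (s + t) / C o q 1 = C o q s / C o q 1 + C o q t / C o q 1
    rw [← add_div, ← ha o q hq.symm]
  · dsimp only
    split_ifs with h
    exacts [one_ne_zero, h0 i o h]
  · show _ = (if i = o then 1 else C i o 1) * (C o q s / C o q 1) / (if j = o then 1 else C j o 1)
    have b := h0 i j hij
    rw [hall o q i j hq.symm hij]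
    split_ifs with h h' h'
    · exact absurd (h.trans h'.symm) hij
    · subst h
      obtain ⟨k, k1, k2⟩ := exists_third_idx h3 i j
      have e1 := hm i j k hij k2.symm k1.symm 1 1
      have e2 := hm j i k h' k1.symm k2.symm 1 1
      rw [mul_one] at e1 e2
      rw [one_mul, div_div, mul_right_cancel₀ (h0 i k k1.symm)
        (show C i j 1 * C j i 1 * C i k 1 = 1 * C i k 1 by rw [mul_assoc, ← e2, ← e1, one_mul]),
        div_one]
    · subst h'
      field_simp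
    · have e1 := hm i j o hij h' h 1 1
      have := h0 j o h'
      rw [mul_one] at e1
      rw [e1]
      field_simp

end Pool.Agent.MP_983df8_al

end MrgPart5

-- ======== part 6: formerly Pool.Agent.MP_983df8_al.AutM
section MrgPart6

namespace Pool.Agent.MP_983df8_al

open Matrix Matrix.SpecialLinearGroup

variable {ι K : Type*} [Fintype ι] [DecidableEq ι] [Field K]
variable {g g' : SLn ι K} {v f v' f' : ι → K}
variable {S : Type*} [Group S] {ρ ρ' : SLn ι K →* S}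

section Order

variable [LinearOrder ι] {A B : Matrix ι ι K}

omit [DecidableEq ι] in
theorem up_diag (hA : A.IsUpperTriangular) (hB : B.IsUpperTriangular) (i : ι) :
    (A * B) i i = A i i * B i i := by
  rw [mul_apply, Finset.sum_eq_single_of_mem i (Finset.mem_univ _) fun k _ hk => ?_]
  rcases hk.lt_or_gt with h | h
  · rw [hA h, zero_mul]
  · rw [hB h, mul_zero]

theorem up_inv (h : B * A = 1) (hA : A.IsUpperTriangular) : B.IsUpperTriangular := by
  have := invertibleOfLeftInverse A B h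
  rw [← inv_eq_left_inv h]
  exact blockTriangular_inv_of_blockTriangular hA

/-- the upper unitriangular group -/
def UU (ι K : Type*) [Fintype ι] [DecidableEq ι] [Field K] [LinearOrder ι] :
    Subgroup (SLn ι K) where
  carrier := {g | g.1.IsUpperTriangular ∧ ∀ i, g.1 i i = 1}
  mul_mem' a b := ⟨a.1.mul b.1, fun i => by rw [sn_mul, up_diag a.1 b.1, a.2, b.2, mul_one]⟩
  one_mem' := ⟨blockTriangular_one, fun i => one_apply_eq i⟩
  inv_mem' {g} a := ⟨up_inv (sn_inv_mul g) a.1, fun i => by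
    have := up_diag (up_inv (sn_inv_mul g) a.1) a.1 i
    rwa [sn_inv_mul, a.2, mul_one, one_apply_eq, eq_comm] at this⟩

theorem x_mem_UU {i j : ι} (h : i < j) (s : K) : transvection h.ne s ∈ UU ι K :=
  ⟨blockTriangular_transvection h.le s, fun k => by
    rw [transvection_coe, Matrix.add_apply, one_apply_eq, single_apply_of_ne, add_zero]
    exact fun e => h.ne (e.1.trans e.2.symm)⟩

theorem isPGroup_UU [Nonempty ι] {p : ℕ} [Fact p.Prime] [CharP K p] : IsPGroup p (UU ι K) := by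
  intro g
  have h1 : (g.1.1 - 1) ^ Fintype.card ι = 0 := by
    have := aeval_self_charpoly (g.1.1 - 1)
    rw [charpoly_of_isUpperTriangular _ (g.2.1.sub blockTriangular_one)] at this
    simpa [g.2.2] using this
  refine ⟨Fintype.card ι, Subtype.ext (Subtype.ext ?_)⟩
  show g.1.1 ^ p ^ Fintype.card ι = 1
  rw [← add_sub_cancel 1 g.1.1, add_pow_char_pow_of_commute _ _ (Commute.one_left _), one_pow,
    pow_eq_zero_of_le (Nat.lt_pow_self (Fact.out : p.Prime).one_lt).le h1, add_zero]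

theorem CovN.cent (h : CovN ρ) (hg : ∀ u ∈ UU ι K, Commute (ρ g) (ρ u)) :
    ∃ t v f, Tv t v f ∧ ρ g = ρ t := by
  have : Nontrivial ι := Fintype.one_lt_card_iff_nontrivial.1 (by have := h.three; omega)
  obtain ⟨a, ha⟩ := Finite.exists_min (id : ι → ι)
  obtain ⟨b, hb⟩ := Finite.exists_max (id : ι → ι)
  have hab : a < b := by
    obtain ⟨i, j, hij⟩ := exists_pair_lt ι
    exact (ha i).trans_lt (hij.trans_le (hb j))
  have key : ∀ i j, i < j → ∀ k l, g.1 k i * (if j = l then 1 else 0) =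
      (if i = k then 1 else 0) * g.1 j l := fun i j hij k l => by
    have e := h.tv_eq ((tv_x hij.ne 1).conj g) (tv_x hij.ne 1) (by
      rw [map_mul, map_mul, map_inv, (hg _ (x_mem_UU hij 1)).eq, mul_inv_cancel_right])
    have := congrArg (fun y : SLn ι K => y.1 k l) (mul_inv_eq_iff_eq_mul.1 e)
    rw [sn_mul, sn_mul, transvection_coe, mul_add, add_mul, mul_one, one_mul, Matrix.add_apply,
      Matrix.add_apply, add_left_cancel_iff] at this
    simpa [mul_apply, single, ite_and] using this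
  have h1 : ∀ j l, j ≠ a → g.1 j l = g.1 a a * (if j = l then 1 else 0) := fun j l hj => by
    rw [key a j ((ha j).lt_of_ne' hj) a l, if_pos rfl, one_mul]
  have h0 : g.1 a a ≠ 0 := fun e => one_ne_zero (g.2.symm.trans (det_eq_zero_of_row_eq_zero b
    fun l => by rw [h1 b l hab.ne', e, zero_mul]))
  refine ⟨_, _, _, tv_x hab.ne (g.1 a b / g.1 a a), h.eq_iff.2 ⟨g.1 a a, ?_⟩⟩
  ext k l
  rw [transvection_coe, Matrix.smul_apply, Matrix.add_apply, one_apply, single_apply, smul_eq_mul]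
  by_cases c : k = a
  · subst c
    by_cases d : l = b
    · subst d
      simp [hab.ne, mul_div_cancel₀ _ h0]
    · have := key l b ((hb l).lt_of_ne d) k b
      rw [if_pos rfl, mul_one, h1 b b hab.ne', if_pos rfl, mul_one, mul_comm] at this
      simp [this, Ne.symm d, eq_comm]
  · simp [h1 k l c, Ne.symm c]

end Order

/-- transvections correspond to transvections -/
def Tp (ρ ρ' : SLn ι K →* S) : Prop :=
  ∀ g v f, Tv g v f → ∃ g' v' f', Tv g' v' f' ∧ ρ g = ρ' g'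

theorem CovN.tp [Finite K] [Finite S] (h : CovN ρ) (h' : CovN ρ') : Tp ρ ρ' := by
  let _ : LinearOrder ι := LinearOrder.lift' _ (Fintype.equivFin ι).injective
  have : Nontrivial ι := Fintype.one_lt_card_iff_nontrivial.1 (by have := h.three; omega)
  obtain ⟨p, hp⟩ := CharP.exists K
  have := Fact.mk (CharP.char_is_prime K p)
  obtain ⟨P⟩ : Nonempty (Sylow p S) := inferInstance
  have k1 : ∀ ρ : SLn ι K →* S, ∃ x, ∀ u ∈ UU ι K, x * ρ u * x⁻¹ ∈ P := fun ρ =>
    (exists_conj_of_isPGroup this.out P.not_dvd_index (isPGroup_UU.map ρ)).imp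
      fun x hx u hu => mem_conjBy.1 (hx ⟨u, hu, rfl⟩)
  have k2 : ∀ ρ : SLn ι K →* S, CovN ρ → ∀ z : Subgroup.center P, ∃ t v f, Tv t v f ∧
      IsConj (ρ t) z.1.1 := fun ρ h z => by
    obtain ⟨x, hx⟩ := k1 ρ
    obtain ⟨g, hg⟩ := h.surj (x⁻¹ * z.1.1 * x)
    obtain ⟨t, v, f, a, b⟩ := h.cent (g := g) fun u hu => by
      have := congrArg (fun y : P => x⁻¹ * y.1 * x) (Subgroup.mem_center_iff.1 z.2 ⟨_, hx u hu⟩)
      simpa [hg, Commute, SemiconjBy, mul_assoc] using this.symm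
    exact ⟨t, v, f, a, isConj_iff.2 ⟨x, by rw [← b, hg]; group⟩⟩
  have : Nontrivial P := by
    obtain ⟨x, hx⟩ := k1 ρ
    obtain ⟨i, j, hij⟩ := exists_pair_lt ι
    refine ⟨⟨_, hx _ (x_mem_UU hij 1)⟩, 1, fun e => h.tv_ne (tv_x hij.ne 1) ?_
      (by simpa using congrArg Subtype.val e)⟩
    simp [(tv_x hij.ne (1 : K)).eq_one_iff]
  have := P.2.center_nontrivial
  obtain ⟨z, hz⟩ := exists_ne (1 : Subgroup.center P)
  obtain ⟨t, w, φ, a, b⟩ := k2 ρ h z
  obtain ⟨t', w', φ', a', b'⟩ := k2 ρ' h' z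
  intro g v f c
  by_cases e : g = 1
  · exact ⟨1, v, 0, tv_one v, by simp [e]⟩
  obtain ⟨r, hr⟩ := isConj_iff.1 (b'.trans (b.symm.trans (ρ.map_isConj (a.isConj h.three c
    (fun e => hz (Subtype.ext (Subtype.ext (by simpa [e, eq_comm] using b)))) e))))
  obtain ⟨s, rfl⟩ := h'.surj r
  exact ⟨_, _, _, a'.conj s, by rw [← hr, map_mul, map_mul, map_inv]⟩

/-- centre `v` corresponds to centre `v'` -/
def CC (ρ ρ' : SLn ι K →* S) (v v' : ι → K) : Prop :=
  v' ≠ 0 ∧ ∀ g f, Tv g v f → ∃ g' f', Tv g' v' f' ∧ ρ g = ρ' g'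

theorem Tv.of_dep (a : Tv g v f) (h : Dep v' v) (h0 : v' ≠ 0) : ∃ f', Tv g v' f' := by
  obtain ⟨c, rfl⟩ := h.exists h0
  exact ⟨_, tv_smul.1 a⟩

theorem CovN.dich (h : CovN ρ) (h' : CovN ρ') (tp : Tp ρ ρ') (v : ι → K) (hv : v ≠ 0) :
    (∃ v', CC ρ ρ' v v') ∨ ∃ f', CC ρ (ρ'.comp MP_983df8_al.tau) v f' := by
  obtain ⟨f, a1, a2, -⟩ := exists_perp h.three v v
  obtain ⟨t, ht⟩ := exists_tv ((dotProduct_comm _ _).trans a2)
  obtain ⟨t1, v1, f1, b1, c1⟩ := tp t v f ht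
  have d1 : ¬ (v1 = 0 ∨ f1 = 0) := fun e => h.tv_ne ht (by simp [ht.eq_one_iff, hv, a1])
    (by rw [c1, b1.eq_one_iff.2 e, map_one])
  rw [not_or] at d1
  have key : ∀ {s s' : SLn ι K} {φ φ' : ι → K}, Tv s v φ → Tv s' v φ' → ∀ {r r' : SLn ι K}
      {w ψ w' ψ' : ι → K}, Tv r w ψ → Tv r' w' ψ' → ρ s = ρ' r → ρ s' = ρ' r' →
      Dep w w' ∨ Dep ψ ψ' := fun a a' _ _ _ _ _ _ b b' e e' => by
    obtain ⟨_, _, _, c, e''⟩ := tp _ _ _ (a.mul a')
    exact h'.pair b b' c (by rw [← e'', map_mul, map_mul, e, e'])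
  refine or_iff_not_imp_left.2 fun hn => ⟨f1, d1.2, fun s φ hs => ?_⟩
  have hn' : ¬ ∀ g f, Tv g v f → ∃ g' f', Tv g' v1 f' ∧ ρ g = ρ' g' := fun a => hn ⟨v1, d1.1, a⟩
  push Not at hn'
  obtain ⟨s2, φ2, hs2, hn'⟩ := hn'
  obtain ⟨t2, v2, f2, b2, c2⟩ := tp _ _ _ hs2
  have d2 : ¬ Dep v1 v2 := fun e => (b2.of_dep e d1.1).elim fun _ a => hn' _ _ a c2
  have d3 : f2 ≠ 0 := fun e => hn' _ _ (tv_one v1) (by rw [c2, b2.eq_one_iff.2 (Or.inr e)])
  obtain ⟨t3, v3, f3, b3, c3⟩ := tp _ _ _ hs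
  by_cases e : v3 = 0
  · exact ⟨1, 0, tv_one _, by simp [c3, b3.eq_one_iff.2 (Or.inl e)]⟩
  have d4 : Dep f1 f3 := by
    by_contra d4
    exact d2 (((key ht hs b1 b3 c1 c3).resolve_right d4).trans ((key hs2 hs b2 b3 c2 c3).resolve_right
      fun a => d4 (((key ht hs2 b1 b2 c1 c2).resolve_left d2).trans a d3)).symm e)
  obtain ⟨_, a⟩ := b3.tau.of_dep d4 d1.2
  exact ⟨_, _, a, by simp [tau_tau, c3]⟩

theorem sn_ne (s : SLn ι K) (hv : v ≠ 0) : s.1 *ᵥ v ≠ 0 := fun e => hv (by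
  rw [← one_mulVec v, ← sn_inv_mul s, ← mulVec_mulVec, e, mulVec_zero])

theorem CC.move (c : CC ρ ρ' v v') (h : CovN ρ) (h' : CovN ρ') (hv : v ≠ 0) (u : ι → K)
    (hu : u ≠ 0) : ∃ u', CC ρ ρ' u u' := by
  obtain ⟨s, hs, -⟩ := exists_move h.three hu hv (zero_dotProduct _) (zero_dotProduct _)
  obtain ⟨s', hs'⟩ := h'.surj (ρ s⁻¹)
  refine ⟨_, sn_ne s' c.1, fun g f a => ?_⟩
  obtain ⟨g', f', b, e⟩ := c.2 _ _ (hs ▸ a.conj s)
  exact ⟨_, _, b.conj s', by simp [← e, hs', mul_assoc]⟩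

theorem CovN.axis (h : CovN ρ) (h' : CovN ρ') (tp : Tp (ρ.comp MP_983df8_al.tau) ρ')
    (tp' : Tp ρ' ρ) (hC : ∀ u, u ≠ 0 → ∃ u', CC ρ ρ' u u') (f : ι → K) (hf : f ≠ 0) :
    ∃ f', CC (ρ.comp MP_983df8_al.tau) (ρ'.comp MP_983df8_al.tau) f f' := by
  refine (h.tau.dich h' tp f hf).resolve_left fun ⟨w, w0, hw⟩ => ?_
  obtain ⟨u1, a1, a2, -⟩ := exists_perp h.three f f
  obtain ⟨u2, a3, a4⟩ := exists_indep h.three f a1
  obtain ⟨φ, a5, a6⟩ := exists_indep h.three u2 hf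
  obtain ⟨t1, b1⟩ := exists_tv a2
  obtain ⟨t2, b2⟩ := exists_tv ((dotProduct_comm _ _).trans a3)
  obtain ⟨s, b3⟩ := exists_tv a5
  obtain ⟨r1, _, c1, e1⟩ := hw _ _ b1.tau
  obtain ⟨r2, _, c2, e2⟩ := hw _ _ b2.tau
  rw [MonoidHom.comp_apply, tau_tau] at e1 e2
  obtain ⟨u', u0, hu⟩ := hC u2 (ne_of_not_dep a4).2
  obtain ⟨r3, _, c3, e3⟩ := hu _ _ b2
  obtain ⟨r4, _, c4, e4⟩ := hu _ _ b3
  obtain rfl := h'.tv_eq c2 c3 (e2.symm.trans e3)
  obtain ⟨_, c5⟩ := c4.of_dep (c2.dep c3 fun e => h.tv_ne b2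
    (by simp [b2.eq_one_iff, hf, (ne_of_not_dep a4).2]) (by rw [e2, e, map_one])).1 w0
  obtain ⟨_, _, _, c6, e6⟩ := tp' _ _ _ (c1.mul c5)
  exact (h.pair b1 b3 c6 (by rw [← e6, map_mul, map_mul, e1, e4])).elim a4 a6

theorem CovN.aut_plus [Finite K] [Finite S] (h : CovN ρ) (h' : CovN ρ')
    (hC : ∀ u, u ≠ 0 → ∃ u', CC ρ ρ' u u') :
    ∃ μ A B e, ∀ g, ρ g = ρ' (sem μ A B e g) := by
  have : Nontrivial ι := Fintype.one_lt_card_iff_nontrivial.1 (by have := h.three; omega)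
  have h0 : ∀ i : ι, (Pi.single i 1 : ι → K) ≠ 0 := fun i => by simp
  choose v hv using fun i : ι => hC _ (h0 i)
  choose φ hφ using fun i : ι => h.axis h' (h.tau.tp h') (h'.tp h) hC _ (h0 i)
  have key : ∀ (i j : ι) (s : K), ∃ c : K, ∀ hij : i ≠ j, ∃ g', Tv g' (v i) (c • φ j) ∧
      ρ (transvection hij s) = ρ' g' := fun i j s => by
    by_cases hij : i = j
    · exact ⟨0, fun e => absurd hij e⟩
    obtain ⟨a, ψ, a1, a2⟩ := (hv i).2 _ _ (tv_x hij s)
    obtain ⟨b, χ, b1, b2⟩ := (hφ j).2 _ _ (tv_smul.1 (show Tv _ (s • Pi.single j 1) _ by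
      simpa [← Pi.single_smul] using (tv_x hij s).tau))
    simp only [MonoidHom.comp_apply, tau_tau] at b2
    by_cases e : a = 1
    · exact ⟨0, fun _ => ⟨a, by simpa [e] using tv_one (v i), a2⟩⟩
    obtain ⟨c, rfl⟩ := ((h'.tv_eq a1 b1.tau (a2.symm.trans b2) ▸ b1.tau).dep a1 e).2.exists
      (neg_ne_zero.2 (hφ j).1)
    exact ⟨-c, fun _ => ⟨a, by simpa using a1, a2⟩⟩
  choose c x hx hx' using key
  have c0 : ∀ i j, i ≠ j → c i j 1 ≠ 0 := fun i j hij e => h.tv_ne (tv_x hij 1)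
    (by simp [(tv_x hij (1 : K)).eq_one_iff]) (by
      rw [hx', (hx i j 1 hij).eq_one_iff.2 (Or.inr (by rw [e, zero_smul])), map_one])
  have p0 : ∀ i j, i ≠ j → φ j ⬝ᵥ v i = 0 := fun i j hij => by
    simpa [c0 i j hij] using (hx i j 1 hij).dot
  have inj : ∀ {i j s hij d y}, Tv y (v i) (d • φ j) → ρ (transvection hij s) = ρ' y →
      c i j s = d := fun {i j s hij d y} a e =>
    smul_left_injective K (hφ j).1 ((hx i j s hij).inj
      (h'.tv_eq a (hx i j s hij) (e.symm.trans (hx' i j s hij)) ▸ a) (hv i).1)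
  have cm : ∀ i j k, i ≠ j → j ≠ k → i ≠ k → ∀ s t,
      c i k (s * t) = c i j s * (φ j ⬝ᵥ v j) * c j k t := fun i j k a b d s t => by
    have e := ((tv_x a s).comm (tv_x b t) (by simp [d])).eq (show Tv _ _ _ by
      simpa [← Pi.single_smul] using tv_x d (s * t))
    refine inj (hij := d) (by
      simpa [smul_smul] using (hx i j s a).comm (hx j k t b) (by simp [p0 i k d])) ?_
    simp only [← e, map_mul, map_inv, hx']
  have p1 : ∀ j, φ j ⬝ᵥ v j ≠ 0 := fun j e => by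
    obtain ⟨i, a, -⟩ := exists_third_idx h.three j j
    obtain ⟨k, b, d⟩ := exists_third_idx h.three i j
    have := cm i j k a d.symm b.symm 1 1
    rw [e, mul_zero, zero_mul, mul_one] at this
    exact c0 i k b.symm this
  obtain ⟨μ, d, d0, hd⟩ := coef_alg h.three (fun i j s => c i j s * (φ j ⬝ᵥ v j))
    (fun i j a => mul_ne_zero (c0 i j a) (p1 j))
    (fun i j a s t => by
      rw [← add_mul, inj (hij := a) (by simpa [← add_smul] using (hx i j s a).mul (hx i j t a))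
        (by rw [transvection_add, map_mul, map_mul, hx', hx'])])
    fun i j k a b d s t => by rw [cm i j k a b d, mul_assoc]
  have e : (of fun j l => (d j * (φ j ⬝ᵥ v j))⁻¹ * φ j l) * (of fun k i => d i * v i k) = 1 := by
    ext j i
    have : ((of fun j l => (d j * (φ j ⬝ᵥ v j))⁻¹ * φ j l) * (of fun k i => d i * v i k)) j i =
        (d j * (φ j ⬝ᵥ v j))⁻¹ * (d i * (φ j ⬝ᵥ v i)) := by
      simp only [mul_apply, of_apply, dotProduct, Finset.mul_sum]
      exact Finset.sum_congr rfl fun _ _ => by ring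
    rw [this, one_apply]
    split_ifs with a
    · rw [a, inv_mul_cancel₀ (mul_ne_zero (d0 i) (p1 i))]
    · rw [p0 i j (Ne.symm a), mul_zero, mul_zero]
  refine ⟨μ, _, _, e, sn_gen (ρ.eqLocus (ρ'.comp (sem μ _ _ e))) fun i j a s => ?_⟩
  have b := (tv_x a s).sem (μ := μ) e
  have e1 : (of fun k i => d i * v i k) *ᵥ (μ ∘ Pi.single i 1) = d i • v i := by
    ext k
    simp [mulVec, dotProduct, Pi.single_apply, apply_ite μ]
  have e2 : (μ ∘ Pi.single j s) ᵥ* (of fun j l => (d j * (φ j ⬝ᵥ v j))⁻¹ * φ j l) =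
      (μ s * (d j * (φ j ⬝ᵥ v j))⁻¹) • φ j := by
    ext k
    simp [vecMul, dotProduct, Pi.single_apply, apply_ite μ, mul_assoc]
  rw [e1, e2, tv_smul, smul_smul] at b
  refine (hx' i j s a).trans (congrArg ρ' ((hx i j s a).eq ?_))
  rwa [eq_div_of_mul_eq (p1 j) (hd i j a s), div_div, div_eq_mul_inv, mul_assoc]

theorem tau_sem {μ : K →+* K} {A B : Matrix ι ι K} (e : B * A = 1) (e' : Aᵀ * Bᵀ = 1) (g : SLn ι K) :
    tau (sem μ A B e g) = sem μ Bᵀ Aᵀ e' (tau g) := Subtype.ext (by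
  rw [tau_val, ← map_inv, sem_val, sem_val, tau_val, transpose_mul, transpose_mul, transpose_map,
    mul_assoc])

theorem CovN.aut [Finite K] [Finite S] (h : CovN ρ) (h' : CovN ρ') :
    ∃ μ A B e, (∀ g, ρ g = ρ' (sem μ A B e g)) ∨
      ∀ g, ρ g = ρ' (sem μ A B e (MP_983df8_al.tau g)) := by
  obtain ⟨v, hv, -⟩ := exists_perp h.three (0 : ι → K) 0
  rcases h.dich h' (h.tp h') v hv with ⟨w, c⟩ | ⟨w, c⟩
  · obtain ⟨μ, A, B, e, a⟩ := h.aut_plus h' (c.move h h' hv)
    exact ⟨μ, A, B, e, Or.inl a⟩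
  · obtain ⟨μ, A, B, e, a⟩ := h.aut_plus h'.tau (c.move h h'.tau hv)
    have e' : Aᵀ * Bᵀ = 1 := by rw [← transpose_mul, e, transpose_one]
    exact ⟨μ, _, _, e', Or.inr fun g => by rw [a, ← tau_sem e]; rfl⟩

end Pool.Agent.MP_983df8_al

end MrgPart6

-- ======== part 7: formerly Pool.Agent.MP_983df8_al.Red
section MrgPart7

namespace Pool.Agent.MP_983df8_al

open Subgroup

variable {G : Type*} [Group G] {π : Set ℕ}

open scoped IsMulCommutative in
theorem lin3_conj [Finite G] {M D : Subgroup G} [M.Normal] [IsMulCommutative M]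
    [Group.IsSolvable D] {r : ℕ} (hr : r.Prime) (hM : ∀ m ∈ M, m ^ r = 1) (hD : ¬ r ∣ Nat.card D) :
    ∃ v : Fin 3 → G, (∀ i, v i ∈ M) ∧
      ∀ d ∈ D, (∀ i, Commute d (v i)) → ∀ w ∈ M, Commute d w := by
  let _ : DistribMulAction D (Additive M) :=
    { smul := fun d w => Additive.ofMul (MulAut.conjNormal (d : G) w.toMul)
      one_smul := fun w => congrArg Additive.ofMul (Subtype.ext (by
        show (1 : G) * _ * (1 : G)⁻¹ = (w.toMul : G)
        simp))
      mul_smul := fun c d w => congrArg Additive.ofMul (Subtype.ext (by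
        show ((c : G) * d) * _ * ((c : G) * d)⁻¹ = c * (d * _ * (d : G)⁻¹) * (c : G)⁻¹
        group))
      smul_zero := fun d => congrArg Additive.ofMul (map_one (MulAut.conjNormal (d : G)))
      smul_add := fun d v w => congrArg Additive.ofMul
        (map_mul (MulAut.conjNormal (d : G)) v.toMul w.toMul) }
  obtain ⟨v, hv⟩ := lin3 (D := D) (V := Additive M) hr
    (fun v => congrArg Additive.ofMul (Subtype.ext (hM _ v.toMul.2) : v.toMul ^ r = 1)) hD
  refine ⟨fun i => (v i).toMul, fun i => (v i).toMul.2, fun d hd h w hw => ?_⟩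
  have := hv ⟨d, hd⟩ (fun i => congrArg Additive.ofMul (Subtype.ext
    (mul_inv_eq_iff_eq_mul.2 (h i).eq))) (Additive.ofMul ⟨w, hw⟩)
  exact mul_inv_eq_iff_eq_mul.1 (congrArg (fun t : Additive M => (t.toMul : G)) this)

open scoped IsMulCommutative in
theorem compl_conj [Finite G] {M D E : Subgroup G} [M.Normal] [IsMulCommutative M] {r : ℕ}
    (hr : r.Prime) (hM : ∀ m ∈ M, m ^ r = 1) (hD : ¬ r ∣ Nat.card D)
    (h1 : ∀ d ∈ D, ∃ c ∈ M, c * d ∈ E) (h2 : ∀ m ∈ M, m ∈ E → m = 1) :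
    ∃ m ∈ M, D ≤ conjBy E m := by
  have := Fintype.ofFinite D
  choose c hc hc' using h1
  let a : D → M := fun d => ⟨c d d.2, hc d d.2⟩
  have ha : ∀ d : D, (a d : G) * d ∈ E := fun d => hc' d d.2
  have hcoc : ∀ d d' : D, a (d * d') = a d * MulAut.conjNormal (d : G) (a d') := fun d d' => by
    refine (mul_inv_eq_one.1 (Subtype.ext (h2 _ (Subtype.prop _) ?_)))
    have := E.mul_mem (ha (d * d')) (E.inv_mem (E.mul_mem (ha d) (ha d')))
    simpa [mul_assoc] using this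
  have hb : ∀ d : D, ∏ x, a x = a d ^ Nat.card D * MulAut.conjNormal (d : G) (∏ x, a x) := by
    intro d
    conv_lhs => rw [← (Group.mulLeft_bijective d).prod_comp]
    simp only [hcoc, Finset.prod_mul_distrib, map_prod, Finset.prod_const, Finset.card_univ,
      Nat.card_eq_fintype_card]
  obtain ⟨k, hk⟩ := Nat.exists_mul_mod_eq_one_of_coprime
    (hr.coprime_iff_not_dvd.2 hD).symm hr.one_lt
  refine ⟨((∏ x, a x) ^ k : M), Subtype.prop _, fun d hd => mem_conjBy.2 ?_⟩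
  have e : (∏ x, a x) ^ k = a ⟨d, hd⟩ * MulAut.conjNormal d ((∏ x, a x) ^ k) := by
    conv_lhs => rw [hb ⟨d, hd⟩]
    rw [mul_pow, map_pow, ← pow_mul, ← Nat.div_add_mod (Nat.card D * k) r, hk.2, pow_add, pow_mul,
      show a ⟨d, hd⟩ ^ r = 1 from Subtype.ext (hM _ (Subtype.prop _)), one_pow, one_mul, pow_one]
  generalize (∏ x, a x) ^ k = m at e
  have e' : (m : G) = a ⟨d, hd⟩ * (d * m * d⁻¹) := congrArg Subtype.val e
  have : (m : G) * d * (m : G)⁻¹ = a ⟨d, hd⟩ * d := by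
    rw [mul_inv_eq_iff_eq_mul]
    conv_lhs => rw [e']
    group
  exact this ▸ ha ⟨d, hd⟩

theorem exists_elem_ab [Finite G] {R : Subgroup G} [R.Normal] [Group.IsSolvable R] (h : R ≠ ⊥) :
    ∃ M : Subgroup G, M.Normal ∧ M ≤ R ∧ M ≠ ⊥ ∧ IsMulCommutative M ∧
      ∃ r : ℕ, r.Prime ∧ ∀ m ∈ M, m ^ r = 1 := by
  obtain ⟨F, f1, f2, f3, f4⟩ := exists_layer (E := R) (U := ⊥) fun e => h (le_bot_iff.1 e)
  have hc : ∀ a ∈ F, ∀ b ∈ F, Commute a b := fun a ha b hb =>
    commutatorElement_eq_one_iff_commute.1 (f4 a ha b hb)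
  obtain ⟨r, hr, hd⟩ := Nat.exists_prime_and_dvd (n := Nat.card F)
    fun e => f3 (card_eq_one.1 e).le
  have := Fact.mk hr
  obtain ⟨g, hg⟩ := exists_prime_orderOf_dvd_card' r hd
  let M : Subgroup G :=
    { carrier := {m | m ∈ F ∧ m ^ r = 1}
      one_mem' := ⟨F.one_mem, one_pow r⟩
      mul_mem' := fun ha hb => ⟨F.mul_mem ha.1 hb.1, by
        rw [(hc _ ha.1 _ hb.1).mul_pow, ha.2, hb.2, one_mul]⟩
      inv_mem' := fun ha => ⟨F.inv_mem ha.1, by rw [inv_pow, ha.2, inv_one]⟩ }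
  refine ⟨M, ⟨fun m hm x => ⟨f1.conj_mem m hm.1 x, by rw [conj_pow, hm.2]; simp⟩⟩,
    fun m hm => f2 hm.1, fun e => ?_, ⟨⟨fun a b => Subtype.ext (hc _ a.2.1 _ b.2.1).eq⟩⟩,
    r, hr, fun m hm => hm.2⟩
  have : (g : G) ∈ M := ⟨g.2, congrArg Subtype.val (hg ▸ pow_orderOf_eq_one g)⟩
  rw [e, mem_bot, OneMemClass.coe_eq_one] at this
  rw [this, orderOf_one] at hg
  exact hr.ne_one hg.symm

theorem IsPi.eq_one [Finite G] {H : Subgroup G} (hH : IsPi π H) {r : ℕ} (hr : r.Prime) (h : r ∉ π)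
    {m : G} (h1 : m ^ r = 1) (h2 : m ∈ H) : m = 1 := by
  by_contra hne
  have := Fact.mk hr
  exact h (hH.orderOf_mem h2 hr (orderOf_eq_prime h1 hne).symm.dvd)

theorem red_step [Finite G] {H M : Subgroup G} [M.Normal] [IsMulCommutative M]
    [Group.IsSolvable H] (hH : IsHall π H) {r : ℕ} (hr : r.Prime) (hM : ∀ m ∈ M, m ^ r = 1)
    (X : Fin 3 → G ⧸ M) (hX : ∀ k ∈ H.map (QuotientGroup.mk' M),
      (∀ a, k ∈ conjBy (H.map (QuotientGroup.mk' M)) (X a)) → k ∈ OPi π (G ⧸ M)) :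
    ∃ x : Fin 3 → G, ∀ k ∈ H, (∀ a, k ∈ conjBy H (x a)) → k ∈ OPi π G := by
  let L := (OPi π (G ⧸ M)).comap (QuotientGroup.mk' M)
  have hL : ∀ y : Fin 3 → G, (∀ a, y a ∈ M) → ∀ k ∈ H,
      (∀ a, k ∈ conjBy H ((X a).out * y a)) → k ∈ L := fun y hy k hk h =>
    hX _ ⟨k, hk, rfl⟩ fun a => mem_conjBy.2 ⟨_, mem_conjBy.1 (h a), by
      simp [(QuotientGroup.eq_one_iff _).2 (hy a)]⟩
  by_cases hπ : r ∈ π
  · refine ⟨fun a => (X a).out * 1, fun k hk h => le_OPi inferInstance (isPi_OPi.comap _ ?_)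
      (hL 1 (fun _ => M.one_mem) k hk h)⟩
    rw [QuotientGroup.ker_mk']
    refine isPi_of_orderOf fun m hm hp => ?_
    rwa [(Nat.prime_dvd_prime_iff_eq hp hr).1 (orderOf_dvd_of_pow_eq_one (hM m hm))]
  have hsup : ∀ E : Subgroup G, IsHall π E → ∀ d ∈ L, ∃ c ∈ M, c * d ∈ E := fun E hE d hd => by
    obtain ⟨e, he, h⟩ := (hE.map _ (QuotientGroup.mk'_surjective M)).OPi_le hd
    refine ⟨e * d⁻¹, (QuotientGroup.eq_one_iff _).1 ?_, by simpa using he⟩
    rw [QuotientGroup.mk_mul, QuotientGroup.mk_inv, mul_inv_eq_one]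
    exact h
  have hD : ¬ r ∣ Nat.card (H ⊓ L : Subgroup G) := fun e => hπ (hH.1.mono inf_le_left r hr e)
  have : Group.IsSolvable (H ⊓ L : Subgroup G) := Group.isSolvable_of_isSolvable_injective
    (f := inclusion inf_le_left) (inclusion_injective _)
  obtain ⟨v, hv, hv'⟩ := lin3_conj hr hM hD
  have := fun a => compl_conj hr hM hD (fun d hd => hsup _ (hH.conjBy (X a).out) d hd.2)
    fun m hm h => (hH.conjBy _).1.eq_one hr hπ (hM m hm) h
  choose m hm hm' using this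
  refine ⟨fun a => (X a).out * (m a * v a), fun k hk h => ?_⟩
  have hkL := hL _ (fun a => M.mul_mem (hm a) (hv a)) k hk h
  have hc := hv' k ⟨hk, hkL⟩ fun a => by
    have a1 := mem_conjBy.1 (mem_conjBy.1 (hm' a ⟨hk, hkL⟩))
    have a2 := mem_conjBy.1 (h a)
    have a3 : v a * k * (v a)⁻¹ * k⁻¹ ∈ M := by
      rw [mul_assoc, mul_assoc, ← mul_assoc k]
      exact M.mul_mem (hv a) (‹M.Normal›.conj_mem _ (M.inv_mem (hv a)) k)
    have := (hH.conjBy ((X a).out * m a)).1.eq_one hr hπ (hM _ a3) (mem_conjBy.2 (by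
      simpa [mul_assoc] using H.mul_mem a2 (H.inv_mem a1)))
    exact (commutatorElement_eq_one_iff_commute.1 this).symm
  refine le_OPi (K := H ⊓ (L ⊓ centralizer (M : Set G))) ⟨fun k hk g => ?_⟩
    (hH.1.mono inf_le_left) ⟨hk, hkL, fun w hw => (hc w hw).symm.eq⟩
  have h1 : g * k * g⁻¹ ∈ L ⊓ centralizer (M : Set G) := Normal.conj_mem inferInstance k hk.2 g
  refine ⟨?_, h1⟩
  obtain ⟨c, c1, c2⟩ := hsup H hH _ h1.1
  have e1 : k ^ Nat.card H = 1 := orderOf_dvd_iff_pow_eq_one.1 (H.orderOf_dvd_natCard hk.1)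
  have e2 := orderOf_dvd_iff_pow_eq_one.1 (H.orderOf_dvd_natCard c2)
  rw [Commute.mul_pow (h1.2 c c1), conj_pow, e1, mul_one, mul_inv_cancel, mul_one] at e2
  obtain rfl : c = 1 := orderOf_eq_one_iff.1 (Nat.eq_one_of_dvd_coprimes
    (hr.coprime_iff_not_dvd.2 fun e => hπ (hH.1 r hr e))
    (orderOf_dvd_of_pow_eq_one (hM c c1)) (orderOf_dvd_of_pow_eq_one e2))
  simpa using c2

universe u

theorem red_aux {Q : Type*} [Group Q] (n : ℕ) : ∀ (G : Type u) [Group G] [Finite G],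
    Nat.card G = n → ∀ (H : Subgroup G) [Group.IsSolvable H] (f : G →* Q) [Group.IsSolvable f.ker],
      Function.Surjective f → IsHall π H →
      (∃ X : Fin 3 → Q, ∀ k ∈ H.map f, (∀ a, X a * k * (X a)⁻¹ ∈ H.map f) → k = 1) →
      ∃ x : Fin 3 → G, ∀ k ∈ H, (∀ a, k ∈ conjBy H (x a)) → k ∈ OPi π G := by
  induction n using Nat.strong_induction_on with
  | _ n ih =>
    rintro G _ _ hn H _ f _ hf hH ⟨X, hX⟩
    by_cases hk : f.ker = ⊥
    · choose x hx using fun a => hf (X a)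
      refine ⟨x, fun k hk' h => ?_⟩
      have := hX _ ⟨k, hk', rfl⟩ fun a => ⟨_, mem_conjBy.1 (h a), by simp [hx]⟩
      rw [← MonoidHom.mem_ker, hk, mem_bot] at this
      exact this ▸ one_mem _
    obtain ⟨M, m1, m2, m3, m4, r, hr, m5⟩ := exists_elem_ab hk
    let f' : G ⧸ M →* Q := QuotientGroup.lift M f m2
    have e : f'.comp (QuotientGroup.mk' M) = f := MonoidHom.ext fun _ => rfl
    have : Group.IsSolvable (H.map (QuotientGroup.mk' M)) :=
      Group.isSolvable_of_surjective (MonoidHom.subgroupMap_surjective _ H)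
    have : Group.IsSolvable f'.ker := by
      rw [QuotientGroup.ker_lift]
      exact Group.isSolvable_of_surjective (MonoidHom.subgroupMap_surjective _ _)
    obtain ⟨Y, hY⟩ := ih (Nat.card (G ⧸ M)) (by
        rw [← hn, ← M.index_mul_card]
        exact lt_mul_of_one_lt_right Nat.card_pos ((one_lt_card_iff_ne_bot M).2 m3))
      (G ⧸ M) rfl (H.map (QuotientGroup.mk' M)) f' (fun q => (hf q).elim fun g hg => ⟨g, hg⟩)
      (hH.map _ (QuotientGroup.mk'_surjective M)) ⟨X, by rwa [map_map, e]⟩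
    exact red_step hH hr m5 Y hY

theorem isPi_of_minimal [Finite G] {Q : Type*} [Group Q] (f : G →* Q) (hQ : IsPi π f.range)
    (h : ∀ Z : Subgroup G, Z ⊔ f.ker = ⊤ → Z = ⊤) : IsPi π (⊤ : Subgroup G) := by
  intro p hp hd
  by_contra hπ
  have := Fact.mk hp
  obtain ⟨P⟩ : Nonempty (Sylow p G) := inferInstance
  have hP : (P : Subgroup G) ≤ f.ker := fun g hg => by
    obtain ⟨k, hk⟩ := P.2 ⟨g, hg⟩
    by_contra hne
    obtain ⟨j, -, hj⟩ := (Nat.dvd_prime_pow hp).1 ((orderOf_map_dvd f g).trans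
      (orderOf_dvd_of_pow_eq_one (congrArg Subtype.val hk)))
    refine hπ (hQ.orderOf_mem ⟨g, rfl⟩ hp (hj ▸ dvd_pow_self p ?_))
    rintro rfl
    exact hne (orderOf_eq_one_iff.1 hj)
  have := normalizer_eq_top_iff.1 (h _ (Sylow.normalizer_sup_eq_top' P hP))
  obtain ⟨C, hC⟩ := exists_right_complement'_of_coprime P.card_coprime_index
  obtain rfl := h C (eq_top_iff.2 (hC.sup_eq_top ▸ sup_le (hP.trans le_sup_right) le_sup_left))
  exact P.ne_bot_of_dvd_card (by simpa using hd) (disjoint_top.1 hC.disjoint)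

theorem exists_pi_lift [Finite G] {Q : Type*} [Group Q] (f : G →* Q) (hf : Function.Surjective f)
    {X : Subgroup Q} (hX : IsPi π X) : ∃ Y : Subgroup G, IsPi π Y ∧ Y.map f = X := by
  obtain ⟨Y, hY⟩ := exists_minimal_of_wellFoundedLT (fun Y : Subgroup G => Y.map f = X)
    ⟨X.comap f, map_comap_eq_self_of_surjective hf X⟩
  refine ⟨Y, (isPi_of_minimal (f.comp Y.subtype) ?_ fun Z hZ => ?_).of_dvd (by simp), hY.prop⟩
  · rwa [MonoidHom.range_comp, range_subtype, hY.prop]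
  · have e : (Z.map Y.subtype).map f = X := by
      have := congrArg (Subgroup.map (f.comp Y.subtype)) hZ
      rwa [Subgroup.map_sup, (Subgroup.map_eq_bot_iff _).2 le_rfl, sup_bot_eq, ← MonoidHom.range_eq_map,
        MonoidHom.range_comp, range_subtype, hY.prop, ← map_map] at this
    exact eq_top_iff.2 fun g _ => (mem_map_iff_mem Y.subtype_injective).1
      (hY.le_of_le e (map_subtype_le Z) g.2)

theorem map_W [Finite G] {Q : Type*} [Group Q] (f : G →* Q) (hf : Function.Surjective f)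
    {H : Subgroup G} (hW : ∀ X : Subgroup G, IsPi π X → ∃ x, X ≤ conjBy H x) (X : Subgroup Q)
    (hX : IsPi π X) : ∃ x, X ≤ conjBy (H.map f) x := by
  obtain ⟨Y, h1, rfl⟩ := exists_pi_lift f hf hX
  obtain ⟨x, hx⟩ := hW Y h1
  refine ⟨f x, ?_⟩
  rintro _ ⟨g, hg, rfl⟩
  exact mem_conjBy.2 ⟨_, mem_conjBy.1 (hx hg), by simp⟩

theorem solvable_comap {Q : Type*} [Group Q] (f : G →* Q) [Group.IsSolvable f.ker] (K : Subgroup Q)
    [Group.IsSolvable K] : Group.IsSolvable (K.comap f) :=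
  Group.isSolvable_of_ker_le_range (inclusion (ker_le_comap f K)) (f.subgroupComap K)
    fun a ha => ⟨⟨a.1, congrArg Subtype.val ha⟩, rfl⟩

theorem le_Rad {K : Subgroup G} (h1 : K.Normal) (h2 : Group.IsSolvable K) : K ≤ Rad G :=
  le_iSup (fun K : {K : Subgroup G // K.Normal ∧ Group.IsSolvable K} => K.1) ⟨K, h1, h2⟩

instance solvable_Rad [Finite G] : Group.IsSolvable (Rad G) := by
  obtain ⟨M, hM⟩ := exists_maximal_of_wellFoundedGT
    (fun K : Subgroup G => K.Normal ∧ Group.IsSolvable K) ⟨⊥, inferInstance, inferInstance⟩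
  obtain ⟨h1, h2⟩ := hM.prop
  have hle : Rad G ≤ M := iSup_le fun K => by
    obtain ⟨a1, a2⟩ := K.2
    have : Group.IsSolvable (QuotientGroup.mk' M).ker := by rwa [QuotientGroup.ker_mk']
    have : Group.IsSolvable (K.1.map (QuotientGroup.mk' M)) :=
      Group.isSolvable_of_surjective (MonoidHom.subgroupMap_surjective _ _)
    have := solvable_comap (QuotientGroup.mk' M) (K.1.map (QuotientGroup.mk' M))
    rw [comap_map_eq, QuotientGroup.ker_mk'] at this
    exact le_sup_left.trans (hM.le_of_ge ⟨inferInstance, this⟩ le_sup_right)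
  exact Group.isSolvable_of_isSolvable_injective (f := inclusion hle) (inclusion_injective _)

theorem radicalTrivial_quot [Finite G] : RadicalTrivial (G ⧸ Rad G) := fun N h1 h2 => by
  have : Group.IsSolvable (QuotientGroup.mk' (Rad G)).ker := by
    rw [QuotientGroup.ker_mk']; infer_instance
  have := le_Rad (h1.comap _) (solvable_comap (QuotientGroup.mk' (Rad G)) N)
  refine eq_bot_iff.2 fun q hq => ?_
  obtain ⟨g, rfl⟩ := QuotientGroup.mk'_surjective _ q
  exact (QuotientGroup.eq_one_iff g).2 (this hq)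

/-- reduction to the quotient by the soluble radical -/
theorem red [Finite G] {H : Subgroup G} [Group.IsSolvable H] (hH : IsHall π H)
    (h : ∃ X : Fin 3 → G ⧸ Rad G, ∀ k ∈ H.map (QuotientGroup.mk' (Rad G)),
      (∀ a, X a * k * (X a)⁻¹ ∈ H.map (QuotientGroup.mk' (Rad G))) → k = 1) :
    ∃ x y z : G, OPi π G = H ⊓ conjBy H x ⊓ conjBy H y ⊓ conjBy H z := by
  have : Group.IsSolvable (QuotientGroup.mk' (Rad G)).ker := by
    rw [QuotientGroup.ker_mk']; infer_instance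
  obtain ⟨x, hx⟩ := red_aux _ G rfl H _ (QuotientGroup.mk'_surjective _) hH h
  refine ⟨x 0, x 1, x 2, le_antisymm (le_inf (le_inf (le_inf hH.OPi_le (hH.conjBy _).OPi_le)
    (hH.conjBy _).OPi_le) (hH.conjBy _).OPi_le) fun k hk => hx k hk.1.1.1 fun a => ?_⟩
  fin_cases a
  exacts [hk.1.1.2, hk.1.2, hk.2]

end Pool.Agent.MP_983df8_al

end MrgPart7

-- marker of a merged file
example : 731051 + 763662 = 731051 + 763662 := rfl
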