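import Pool.Agent.MP_983df8_al.Defs3

namespace Pool.Agent.MP_983df8_al

/-- `S` is isomorphic to `PSL(n, q)` for some `n ≥ 3` and some prime power `q`. -/
def IsLn (S : Type*) [Group S] : Prop :=
  ∃ (n : ℕ) (K : Type) (_ : Field K) (_ : Finite K), 3 ≤ n ∧
    Nonempty (S ≃* Matrix.ProjectiveSpecialLinearGroup (Fin n) K)

/-- Every non-abelian simple subnormal subgroup of `G` is an alternating group, a group
`PSL(2, q)`, or, provided one of the primes 2, 3 is not in `π`, a group `PSL(n, q)`, `n ≥ 3`. -/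
def SocleLin (π : Set ℕ) (G : Type*) [Group G] : Prop :=
  ∀ S : Subgroup G, S.IsSubnormal → IsSimpleGroup S → ¬ IsMulCommutative S →
    IsAlt S ∨ IsL2 S ∨ ((2 ∉ π ∨ 3 ∉ π) ∧ IsLn S)

end Pool.Agent.MP_983df8_al
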