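import Mathlib.GroupTheory.PGroup
import Mathlib.Algebra.Lie.Basic
import Pool.Agent.MP_983df8_al.Defs4

namespace Pool.Agent.MP_983df8_al

open Subgroup

section

variable {K L S : Type*} [Field K] [LieRing L] [LieAlgebra K L] [Group S]

/-- the Premet identity for `x` -/
def Premet (g : L →ₗ[K] L →ₗ[K] K) (x : L) : Prop :=
  ∀ y z, ⁅⁅x, y⁆, ⁅x, z⁆⁆ = g x ⁅y, z⁆ • x + g x z • ⁅x, y⁆ - g x y • ⁅x, z⁆

/-- `x` is extremal for the form `g` (the defining identity and the Premet identity) -/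
def IsExt (g : L →ₗ[K] L →ₗ[K] K) (x : L) : Prop :=
  g x x = 0 ∧ (∀ y, ⁅x, ⁅x, y⁆⁆ = (2 * g x y) • x) ∧ Premet g x

/-- `g` is a symmetric invariant non-degenerate form -/
def IsForm (g : L →ₗ[K] L →ₗ[K] K) : Prop :=
  (∀ a b, g a b = g b a) ∧ (∀ a b c, g ⁅a, b⁆ c = g a ⁅b, c⁆) ∧ ∀ a, g a = 0 → a = 0

/-- `s` acts as the exponential of `x` -/
def ActsExp (g : L →ₗ[K] L →ₗ[K] K) (ρ : S →* Module.End K L) (s : S) (x : L) : Prop :=
  ∀ y, ρ s y = y + ⁅x, y⁆ + g x y • x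

/-- `E` is a set of extremal elements, stable under scalars and under `S`, and `e x` acts as the
exponential of `x` -/
def IsExpSet (g : L →ₗ[K] L →ₗ[K] K) (ρ : S →* Module.End K L) (E : Set L) (e : L → S) : Prop :=
  ∀ x ∈ E, IsExt g x ∧ (∀ t : K, t • x ∈ E) ∧ (∀ s, ρ s x ∈ E) ∧ ActsExp g ρ (e x) x

end

/-- automorphisms of odd order permute the root subgroups `e (K x)`, `x ∈ E` -/
def OddStable (K : Type*) {L S : Type*} [SMul K L] [Group S] (E : Set L) (e : L → S) : Prop :=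
  ∀ β : MulAut S, Odd (orderOf β) → ∀ x ∈ E, ∃ y ∈ E,
    β '' Set.range (fun t : K => e (t • x)) = Set.range fun t : K => e (t • y)

/-- `S` acts faithfully on a Lie algebra over a finite field of characteristic `p` with at least
three elements, and is generated by the long root elements `exp x`, `x` extremal; automorphisms
of odd order permute the long root subgroups -/
def IsRoot (p : ℕ) (S : Type*) [Group S] : Prop :=
  ∃ (K L : Type) (_ : Field K) (_ : Finite K) (_ : CharP K p) (_ : LieRing L) (_ : LieAlgebra K L)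
    (g : L →ₗ[K] L →ₗ[K] K) (ρ : S →* Module.End K L) (E : Set L) (e : L → S),
    3 ≤ Nat.card K ∧ IsForm g ∧ Function.Injective ρ ∧ Submodule.span K E = ⊤ ∧
    closure (e '' E) = ⊤ ∧ IsExpSet g ρ E e ∧ OddStable K E e

section

variable {S : Type*} [Group S]

/-- `(B, N)` is a BN-pair and `R` is a set of representatives of the simple reflections -/
def IsTits (B N : Subgroup S) (R : Set S) : Prop :=
  B ⊔ N = ⊤ ∧ (∀ n ∈ N, B ⊓ N ≤ conjBy B n) ∧ closure R ⊔ B ⊓ N = N ∧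
    ∀ r ∈ R, r * r ∈ B ∧ ¬ B ≤ conjBy B r ∧ ∀ b ∈ B, ∀ n ∈ N, ∃ c ∈ B, ∃ d ∈ B,
      r * b * n = c * (r * n) * d ∨ r * b * n = c * n * d

/-- the BN-pair is saturated and split of characteristic `p` -/
def IsSplit (p : ℕ) (B N U : Subgroup S) : Prop :=
  IsPGroup p U ∧ U ⊔ B ⊓ N = B ∧ B ≤ normalizer U ∧ IsMulCommutative ↥(B ⊓ N) ∧
    ¬ p ∣ Nat.card ↥(B ⊓ N) ∧ (⨅ n ∈ N, conjBy B n) ≤ N

/-- `Z` is normal in `U` and there is a greatest proper `T`-invariant subgroup of `U` above `Z` -/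
def Irr (T U Z : Subgroup S) : Prop :=
  U ≤ normalizer Z ∧ ∃ M, IsGreatest {Y | Z ≤ Y ∧ Y < U ∧ T ≤ normalizer Y} M

end

/-- `S` has a saturated split BN-pair of characteristic `p` in which, for each simple reflection
`r`, the group `U ∩ U ^ r` is normal in `U` and `T = B ∩ N` acts irreducibly on the Frattini
quotient of `U / (U ∩ U ^ r)` -/
def IsBN (p : ℕ) (S : Type*) [Group S] : Prop :=
  ∃ (B N U : Subgroup S) (R : Set S), IsTits B N R ∧ IsSplit p B N U ∧
    ∀ r ∈ R, Irr (B ⊓ N) U (U ⊓ conjBy U r)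

/-- Every non-abelian simple subnormal subgroup of `G` is an alternating group, a group
`PSL(n, q)`, or of Lie type in some characteristic `p` in the sense of `IsBN` (for `p ∈ π`) or
`IsRoot` (for `p ∉ π`). -/
def SocleLie (π : Set ℕ) (G : Type*) [Group G] : Prop :=
  ∀ S : Subgroup G, S.IsSubnormal → IsSimpleGroup S → ¬ IsMulCommutative S →
    IsAlt S ∨ IsLn S ∨ ∃ p : ℕ, p.Prime ∧ ((p ∈ π ∧ IsBN p S) ∨ (p ∉ π ∧ IsRoot p S))

end Pool.Agent.MP_983df8_al
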