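import Mathlib.LinearAlgebra.Matrix.ProjectiveSpecialLinearGroup
import Pool.Agent.MP_983df8_al.Defs2

namespace Pool.Agent.MP_983df8_al

/-- `S` is isomorphic to `PSL(2, q)` for a prime power `q ≥ 7`, `q ≠ 9`. -/
def IsL2 (S : Type*) [Group S] : Prop :=
  ∃ (K : Type) (_ : Field K) (_ : Finite K), 7 ≤ Nat.card K ∧ Nat.card K ≠ 9 ∧
    Nonempty (S ≃* Matrix.ProjectiveSpecialLinearGroup (Fin 2) K)

/-- Every non-abelian simple subnormal subgroup of `G` is an alternating group or a group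
`PSL(2, q)`. -/
def SocleAL (G : Type*) [Group G] : Prop :=
  ∀ S : Subgroup G, S.IsSubnormal → IsSimpleGroup S → ¬ IsMulCommutative S → IsAlt S ∨ IsL2 S

end Pool.Agent.MP_983df8_al
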