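import Pool.Agent.MP_983df8_al.Rigid

namespace Pool.Agent.MP_983df8_al

open Subgroup Equiv Equiv.Perm

/-- product of two transpositions -/
def sw2 (a b c d : Fin 6) : Perm (Fin 6) := swap a b * swap c d

/-- first conjugators -/
def sixX : Fin 7 → Perm (Fin 6) :=
  ![sw2 0 1 0 4, sw2 0 2 0 4, sw2 0 1 0 4, sw2 0 2 0 4, sw2 0 2 0 4, sw2 0 4 2 5, sw2 0 2 0 4]

/-- second conjugators -/
def sixY : Fin 7 → Perm (Fin 6) :=
  ![sw2 0 2 1 5, sw2 0 1 1 5, sw2 0 2 0 5, sw2 0 1 0 5, sw2 0 3 2 5, sw2 0 2 1 5, sw2 1 5 3 4]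

/-- words for the three-cycles -/
def sixW : Fin 7 → Fin 6 → List (Fin 3) :=
  ![![[], [], [1, 2, 1, 0, 2, 0], [2, 0, 1, 2, 1, 0], [1, 0], [0, 1, 2, 1, 2]],
    ![[], [], [0, 2, 1, 2, 0, 1], [0, 1, 0, 2, 1, 2], [1, 2, 1, 2, 0], [0, 2]],
    ![[], [], [1, 0, 2, 0, 1, 2], [1, 2, 0, 1, 2, 1], [1, 0], [2, 0, 1, 0, 2, 0, 1]],
    ![[], [], [2, 0, 1, 0, 2, 1], [2, 1, 0, 2, 1, 2], [1, 0, 2, 0, 1, 0, 2], [2, 0]],
    ![[], [], [0, 1, 2, 1, 2, 0, 1], [0, 1, 0, 1, 2, 1, 2], [2, 1, 2, 0], [1, 2, 1, 2, 0, 1, 0, 2]],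
    ![[], [], [1, 2, 1, 2, 0, 2, 0], [2, 0, 1, 2, 1, 2, 0], [2, 1, 0, 2, 0, 2, 0, 1, 2, 1],
      [0, 1, 2, 1]],
    ![[], [], [0, 1, 2, 1, 2, 0, 1], [0, 1, 0, 1, 2, 1, 2], [2, 1, 2, 0],
      [1, 2, 1, 2, 0, 1, 0, 1, 2, 1]]]

/-- the three involutions -/
def sixG (j : Fin 7) : Fin 3 → Perm (Fin 6) :=
  ![sw2 0 1 2 3, (sixX j)⁻¹ * sw2 0 1 2 3 * sixX j, (sixY j)⁻¹ * sw2 0 1 2 3 * sixY j]

theorem six_sign : ∀ j, sign (sixX j) = 1 ∧ sign (sixY j) = 1 := by decide +kernel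

theorem six_words : ∀ j, ∀ x : Fin 6, x ≠ 0 →
    ((sixW j x).map (sixG j)).prod = swap 0 1 * swap 0 x := by decide +kernel

theorem six_inv : ∀ i j : Fin 7, (∀ l ∈ [[0, 1], [0, 2], [1, 2], [0, 1, 2]], ∀ e ∈ [3, 4, 5],
    ((l.map (sixG i)).prod ^ e = 1 ↔ (l.map (sixG j)).prod ^ e = 1)) → i = j := by decide +kernel

theorem six_rigid : ∃ (z : alternatingGroup (Fin 6)) (x y : ZMod 7 → alternatingGroup (Fin 6)),
    (z : Perm (Fin 6)).cycleType = {2, 2} ∧
    ∀ β : MulAut (alternatingGroup (Fin 6)), β z = z → ∀ i j,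
      β ((x j)⁻¹ * z * x j) = (x i)⁻¹ * z * x i → β ((y j)⁻¹ * z * y j) = (y i)⁻¹ * z * y i →
      i = j ∧ β = 1 := by
  let z : alternatingGroup (Fin 6) := ⟨sw2 0 1 2 3, by simp [sw2]⟩
  let x : Fin 7 → alternatingGroup (Fin 6) := fun j => ⟨sixX j, (six_sign j).1⟩
  let y : Fin 7 → alternatingGroup (Fin 6) := fun j => ⟨sixY j, (six_sign j).2⟩
  let g : Fin 7 → Fin 3 → alternatingGroup (Fin 6) := fun j =>
    ![z, (x j)⁻¹ * z * x j, (y j)⁻¹ * z * y j]
  have hg : ∀ j (l : List (Fin 3)),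
      (((l.map (g j)).prod : alternatingGroup (Fin 6)) : Perm (Fin 6)) = (l.map (sixG j)).prod := by
    intro j l
    induction l with
    | nil => rfl
    | cons a l ih =>
      rw [List.map_cons, List.map_cons, List.prod_cons, List.prod_cons, Subgroup.coe_mul, ih]
      congr 1
      fin_cases a <;> rfl
  refine ⟨z, x, y, cycleType_swap_mul_swap_of_nodup (by decide), fun β h0 i j h1 h2 => ?_⟩
  have hβ : ∀ l : List (Fin 3), β (l.map (g j)).prod = (l.map (g i)).prod := by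
    intro l
    induction l with
    | nil => exact map_one β
    | cons a l ih =>
      rw [List.map_cons, List.map_cons, List.prod_cons, List.prod_cons, map_mul, ih]
      congr 1
      fin_cases a
      exacts [h0, h1, h2]
  obtain rfl : i = j := six_inv i j fun l _ e _ => by
    rw [← hg, ← hg, ← hβ, ← SubgroupClass.coe_pow, ← SubgroupClass.coe_pow, ← map_pow,
      OneMemClass.coe_eq_one, OneMemClass.coe_eq_one, MulEquiv.map_eq_one_iff]
  refine ⟨rfl, ?_⟩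
  let K : Subgroup (Perm (Fin 6)) :=
    (β.toMonoidHom.eqLocus (MonoidHom.id _)).map (alternatingGroup (Fin 6)).subtype
  have h3 : ∀ u : Fin 6, u ≠ 0 → swap 0 1 * swap 0 u ∈ K := fun u hu =>
    ⟨_, hβ (sixW i u), (hg i _).trans (six_words i u hu)⟩
  have hfull : Full K Finset.univ := full_of_base (o := 0) fun u _ v _ hu hv => by
    have := K.mul_mem (K.inv_mem (h3 u hu)) (h3 v hv)
    simpa [mul_assoc] using this
  ext1 a
  exact (mem_map_iff_mem (alternatingGroup (Fin 6)).subtype_injective).1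
    (hfull a (Finset.subset_univ _) a.2)

theorem loc_six : Loc 2 (alternatingGroup (Fin 6)) := by
  intro B hB
  obtain ⟨z, x, y, hz, h⟩ := six_rigid
  have hcard : Nat.card (alternatingGroup (Fin 6)) = 360 := by
    rw [nat_card_alternatingGroup, Nat.card_fin]; rfl
  have h1 := hB.card_modEq_card_fixedPoints (alternatingGroup (Fin 6))
  obtain ⟨w, hw⟩ := exists_prime_orderOf_dvd_card'
    (G := FixedPoints.subgroup B (alternatingGroup (Fin 6))) 2
    ((Nat.modEq_zero_iff_dvd).1 (h1.symm.trans (by rw [hcard]; decide)))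
  have hw' : orderOf ((w : alternatingGroup (Fin 6)) : Perm (Fin 6)) = 2 := by
    rw [Subgroup.orderOf_coe, Subgroup.orderOf_coe, hw]
  obtain ⟨k, hk⟩ := cycleType_prime_order (hw' ▸ Nat.prime_two)
  rw [hw'] at hk
  have a1 := sum_cycleType_le ((w : alternatingGroup (Fin 6)) : Perm (Fin 6))
  have a2 := (sign_of_cycleType _).symm.trans (mem_alternatingGroup.1 w.1.2)
  rw [hk] at a1 a2
  simp only [Multiset.sum_replicate, smul_eq_mul, Fintype.card_fin, Multiset.card_replicate]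
    at a1 a2
  obtain rfl : k = 1 := by
    have : k = 0 ∨ k = 1 ∨ k = 2 := by omega
    rcases this with rfl | rfl | rfl
    · exact absurd a2 (by decide)
    · rfl
    · exact absurd a2 (by decide)
  obtain ⟨c, hc⟩ := isConj_iff.1 (alternatingGroup.isConj_of (σ := z) (τ := w)
    (isConj_of_cycleType_eq (hz.trans hk.symm)) (by rw [← sum_cycleType, hz]; decide))
  have hfix : ∀ β ∈ B, β (c * z * c⁻¹) = c * z * c⁻¹ := fun β hβ => hc ▸ w.2 ⟨β, hβ⟩
  have key : ∀ β : MulAut (alternatingGroup (Fin 6)), ∀ u v : alternatingGroup (Fin 6),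
      MulAut.conj (c * u * c⁻¹) * β * (MulAut.conj (c * v * c⁻¹))⁻¹ ∈ B →
      ((MulAut.conj c)⁻¹ * β * MulAut.conj c) (v⁻¹ * z * v) = u⁻¹ * z * u := by
    intro β u v hm
    have := congrArg (fun t => u⁻¹ * c⁻¹ * t * c * u) (hfix _ hm)
    simpa [mul_assoc] using this
  refine ⟨fun i => c * x i * c⁻¹, fun i => c * y i * c⁻¹, fun β hβ i j h1 h2 => ?_⟩
  have := h ((MulAut.conj c)⁻¹ * β * MulAut.conj c) (by
    have := congrArg (fun t => c⁻¹ * t * c) (hfix _ hβ)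
    simpa [mul_assoc] using this) i j (key _ _ _ h1) (key _ _ _ h2)
  refine ⟨this.1, ?_⟩
  have h3 := congrArg (fun t => MulAut.conj c * t * (MulAut.conj c)⁻¹) this.2
  simpa [mul_assoc] using h3

end Pool.Agent.MP_983df8_al
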