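import Mathlib.GroupTheory.SpecificGroups.ZGroup
import Pool.Agent.MP_983df8_al.HallB
import Pool.Agent.MP_983df8_al.Rigid
import Pool.Agent.MP_983df8_al.Six

namespace Pool.Agent.MP_983df8_al

open Subgroup Equiv Equiv.Perm

theorem loc_alt {n p : ℕ} (hn : 5 ≤ n) (hp : p.Prime) : Loc p (alternatingGroup (Fin n)) := by
  by_cases h : n < p
  · exact loc_large (by simpa) hp (by simpa)
  have := Fact.mk hp
  have e := Nat.div_add_mod n p
  have hk : 0 < n / p := Nat.div_pos (by omega) hp.pos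
  have : NeZero (n / p) := ⟨hk.ne'⟩
  by_cases h2 : p = 2 ∧ n % 2 = 0
  · obtain ⟨rfl, h2⟩ := h2
    by_cases h6 : n = 6
    · subst h6; exact loc_six
    · exact loc_even (by omega) h2
  by_cases hs : n % p = 0
  · have hodd : Odd p := hp.odd_of_ne_two fun e => h2 ⟨e, e ▸ hs⟩
    by_cases h1 : n / p = 1
    · have : n = p := by rw [h1] at e; omega
      exact (loc_prime (p := p) (by omega)).congr
        (Fintype.equivOfCardEq (by simp [this])).altCongrHom
    · exact (loc_odd (k := n / p) (by omega) hodd).congr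
        (Fintype.equivOfCardEq (by rw [card_Pt, Fintype.card_fin]; omega)).altCongrHom
  · refine (loc_rest (k := n / p) (s := n % p) (by omega) (Nat.mod_lt _ hp.pos) (by omega)
      ?_).congr (Fintype.equivOfCardEq (by rw [card_Pt, Fintype.card_fin]; omega)).altCongrHom
    rcases hp.eq_two_or_odd' with rfl | h
    · left; omega
    · exact Or.inr h

variable {G : Type*} [Group G] [Finite G] {π : Set ℕ}

theorem exists_prime_of_hall {n : ℕ} {K : Subgroup (alternatingGroup (Fin n))} (hK : IsHall π K)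
    (h23 : 2 ∉ π ∨ 3 ∉ π) : ∃ p : ℕ, p.Prime ∧
      ∀ t : ℕ, t.Prime → t ∈ π → t ≤ Fintype.card (Fin n) → t = p := by
  by_cases h : ∃ p : ℕ, p.Prime ∧ p ∈ π ∧ p ≤ Fintype.card (Fin n)
  · obtain ⟨p, h1, h2, h3⟩ := h
    exact ⟨p, h1, fun t a1 a2 a3 => hall_not_both hK.hallA h23 a1 h1 a2 h2 a3 h3⟩
  · exact ⟨2, Nat.prime_two, fun t a1 a2 a3 => absurd ⟨t, a1, a2, a3⟩ h⟩

theorem le_of_dvd_card_alt {n t : ℕ} (ht : t.Prime) {K : Subgroup (alternatingGroup (Fin n))}
    (h : t ∣ Nat.card K) : t ≤ Fintype.card (Fin n) := by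
  have := h.trans ((card_subgroup_dvd_card K).trans (card_subgroup_dvd_card _))
  rw [Nat.card_perm, Nat.card_eq_fintype_card] at this
  exact ht.dvd_factorial.1 this

theorem alt_not_both {H S : Subgroup G} (hH : IsHall π H)
    (hW : ∀ X : Subgroup G, IsPi π X → ∃ x, X ≤ conjBy H x) (hS : S.IsSubnormal) (hA : IsAlt S)
    (hpi : ¬ IsPi π S) : 2 ∉ π ∨ 3 ∉ π := by
  obtain ⟨n, -, ⟨e⟩⟩ := hA
  by_contra hcon
  push Not at hcon
  refine hpi fun t ht hd => all_mem_of_two_three (α := Fin n) hcon.1 hcon.2 (fun X h1 h2 => ?_) ht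
    (le_of_dvd_card_alt (K := ⊤) ht (by rwa [card_top, ← Nat.card_congr e.toEquiv]))
  obtain ⟨x, hx⟩ := hW (((X.subgroupOf _).comap e.toMonoidHom).map S.subtype)
    (((h2.comap_inj _ (Subgroup.subtype_injective _)).comap_inj _ e.injective).map _)
  refine ⟨_, (((hH.conjBy x).subgroupOf hS).map e.toMonoidHom e.surjective).hallA, fun g hg => ?_⟩
  exact ⟨⟨g, h1 hg⟩, ⟨e.symm ⟨g, h1 hg⟩, hx ⟨_, by simpa [mem_subgroupOf] using hg, rfl⟩,
    by simp⟩, rfl⟩

theorem locG_alt {H S : Subgroup G} (hH : IsHall π H) (hS : S.IsSubnormal) (hA : IsAlt S)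
    (h23 : 2 ∉ π ∨ 3 ∉ π) : LocG (Fin 2) H S := by
  obtain ⟨n, hn, ⟨e⟩⟩ := hA
  obtain ⟨p, hp, h⟩ := exists_prime_of_hall ((hH.subgroupOf hS).map e.toMonoidHom e.surjective) h23
  have hB : IsPGroup p (autOf H S) :=
    ((isPGroup_aut (by simpa) hp h ((hH.1.autOf S).map (MulAut.congr e).toMonoidHom)).comap_of_injective
      _ (MulAut.congr e).injective).to_le (le_comap_map _ _)
  obtain ⟨x, y, hxy⟩ := (loc_alt hn hp).congr e _ hB
  exact locG_of_aut ![x, y] fun β hβ i j h => hxy β hβ i j (h 0) (h 1)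

theorem solvable_aux {H : Subgroup G} (hH : IsHall π H) (h23 : 2 ∉ π ∨ 3 ∉ π) (hF : FactorsAlt G)
    (L : Subgroup G) : L.IsSubnormal → Group.IsSolvable (H.subgroupOf L) := by
  induction L using WellFoundedLT.induction with
  | ind L ih =>
    intro hL
    by_cases hb : L = ⊥
    · subst hb; infer_instance
    have hnt : Nontrivial L := (nontrivial_iff_ne_bot L).2 hb
    obtain ⟨K, hK⟩ := exists_maximal_of_wellFoundedGT
      (fun K : Subgroup L => K.Normal ∧ K ≠ ⊤) ⟨⊥, inferInstance, bot_ne_top⟩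
    have := hK.prop.1
    have hsimple : IsSimpleGroup (L ⧸ K) := by
      have : Nontrivial (L ⧸ K) := QuotientGroup.nontrivial_iff.2 hK.prop.2
      refine ⟨fun N hN => ?_⟩
      by_cases h : N.comap (QuotientGroup.mk' K) = ⊤
      · right
        exact comap_injective (QuotientGroup.mk'_surjective K) (h.trans (comap_top _).symm)
      · left
        have h1 := hK.le_of_ge ⟨hN.comap _, h⟩ (QuotientGroup.le_comap_mk' K N)
        rw [eq_bot_iff]
        intro q hq
        obtain ⟨g, rfl⟩ := QuotientGroup.mk'_surjective K q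
        exact (QuotientGroup.eq_one_iff g).2 (h1 hq)
    have hlt : K.map L.subtype < L := lt_of_le_of_ne (map_subtype_le K) fun e => hK.prop.2 (by
      rw [eq_top_iff]
      intro g _
      exact (mem_map_iff_mem L.subtype_injective).1 (e.ge g.2))
    have h1 := ih _ hlt (this.isSubnormal.trans' hL)
    have hJ := (hH.subgroupOf hL).map (QuotientGroup.mk' K) (QuotientGroup.mk'_surjective K)
    have h2 : Group.IsSolvable ((H.subgroupOf L).map (QuotientGroup.mk' K)) := by
      by_cases hc : IsMulCommutative (L ⧸ K)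
      · exact Group.isSolvable_of_comm fun a b => Subtype.ext (hc.1.1 _ _)
      obtain ⟨n, -, ⟨e⟩⟩ := hF L hL K hsimple hc
      have hJ' := hJ.map e.toMonoidHom e.surjective
      obtain ⟨p, hp, h⟩ := exists_prime_of_hall hJ' h23
      have := Fact.mk hp
      have := (((IsPi.isPGroup hp fun t ht hd => h t ht (hJ'.1 t ht hd)
        (le_of_dvd_card_alt ht hd)).comap_of_injective _ e.injective).to_le
        (le_comap_map _ _)).isNilpotent
      infer_instance
    let f : H.subgroupOf (K.map L.subtype) →* H.subgroupOf L :=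
      { toFun := fun a => ⟨⟨a.1.1, map_subtype_le K a.1.2⟩, a.2⟩
        map_one' := rfl
        map_mul' := fun _ _ => rfl }
    refine Group.isSolvable_of_ker_le_range f ((QuotientGroup.mk' K).subgroupMap (H.subgroupOf L))
      fun a ha => ⟨⟨⟨a.1.1, a.1, ?_, rfl⟩, a.2⟩, rfl⟩
    exact (QuotientGroup.eq_one_iff a.1).1 (congrArg Subtype.val ha)

theorem solvable_of_factorsAlt {H : Subgroup G} (hH : IsHall π H) (h23 : 2 ∉ π ∨ 3 ∉ π)
    (hF : FactorsAlt G) : Group.IsSolvable H := by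
  have := solvable_aux hH h23 hF ⊤ IsSubnormal.top
  exact Group.isSolvable_of_surjective
    (f := (subgroupOfEquivOfLe (le_top : H ≤ ⊤)).toMonoidHom)
    (subgroupOfEquivOfLe (le_top : H ≤ ⊤)).surjective

omit [Finite G] in
theorem FactorsAlt.socleAlt (hF : FactorsAlt G) (N : Subgroup G) [N.Normal] : SocleAlt (G ⧸ N) := by
  intro S hS h1 h2
  let f : S.comap (QuotientGroup.mk' N) →* S := (QuotientGroup.mk' N).subgroupComap S
  have hf : Function.Surjective f :=
    MonoidHom.subgroupComap_surjective_of_surjective _ _ (QuotientGroup.mk'_surjective N)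
  let e := QuotientGroup.quotientKerEquivOfSurjective f hf
  obtain ⟨n, hn, ⟨e'⟩⟩ := hF _ (hS.comap _) f.ker e.isSimpleGroup fun h => h2 ⟨⟨fun a b =>
    e.symm.injective (by rw [map_mul, map_mul]; exact h.1.1 _ _)⟩⟩
  exact ⟨n, hn, ⟨e.symm.trans e'⟩⟩

theorem quot_W (hD : IsD π G) {H : Subgroup G} (hH : IsHall π H) (X : Subgroup (G ⧸ OPi π G))
    (hX : IsPi π X) : ∃ x, X ≤ conjBy (H.map (QuotientGroup.mk' (OPi π G))) x := by
  obtain ⟨x, hx⟩ := hD.exists_le hH (hX.comap (QuotientGroup.mk' (OPi π G))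
    (by rw [QuotientGroup.ker_mk']; exact isPi_OPi))
  refine ⟨x, fun q hq => ?_⟩
  obtain ⟨g, rfl⟩ := QuotientGroup.mk'_surjective _ q
  exact mem_conjBy.2 ⟨_, mem_conjBy.1 (hx hq), by simp⟩

theorem quot_not_pi {S : Subgroup (G ⧸ OPi π G)} (hS : IsComp S) : ¬ IsPi π S := fun h => by
  have := subnormal_le_OPi (hS.1.comap (QuotientGroup.mk' (OPi π G)))
    (h.comap _ (by rw [QuotientGroup.ker_mk']; exact isPi_OPi))
  refine hS.ne_bot (eq_bot_iff.2 fun q hq => ?_)
  obtain ⟨g, rfl⟩ := QuotientGroup.mk'_surjective _ q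
  exact (QuotientGroup.eq_one_iff g).2 (this hq)

omit [Finite G] in
theorem lift_glue {ι : Type} {H : Subgroup G} (X : ι → G ⧸ OPi π G)
    (hX : ∀ k ∈ H.map (QuotientGroup.mk' (OPi π G)),
      (∀ a, X a * k * (X a)⁻¹ ∈ H.map (QuotientGroup.mk' (OPi π G))) → k = 1) :
    ∃ x : ι → G, ∀ k ∈ H, (∀ a, k ∈ conjBy H (x a)) → k ∈ OPi π G := by
  refine ⟨fun a => (X a).out, fun k hk h => (QuotientGroup.eq_one_iff k).1
    (hX _ ⟨k, hk, rfl⟩ fun a => ⟨_, mem_conjBy.1 (h a), by simp⟩)⟩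

theorem main_alt (hD : IsD π G) {H : Subgroup G} (hH : IsHall π H)
    (hR : RadicalTrivial (G ⧸ OPi π G))
    (hA : FactorsAlt G ∨ (SocleAlt (G ⧸ OPi π G) ∧ Group.IsSolvable H)) :
    ∃ x y : G, OPi π G = H ⊓ conjBy H x ⊓ conjBy H y := by
  have hH' := hH.map (QuotientGroup.mk' (OPi π G)) (QuotientGroup.mk'_surjective _)
  have hS : SocleAlt (G ⧸ OPi π G) := hA.elim (fun h => h.socleAlt _) And.left
  have h23 : ∀ S : Subgroup (G ⧸ OPi π G), IsComp S → 2 ∉ π ∨ 3 ∉ π := fun S h =>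
    alt_not_both hH' (quot_W hD hH) h.1 (hS S h.1 h.2.1 h.2.2) (quot_not_pi h)
  have hsol : Group.IsSolvable (H.map (QuotientGroup.mk' (OPi π G))) := by
    by_cases hex : ∃ S : Subgroup (G ⧸ OPi π G), IsComp S
    · obtain ⟨S, h⟩ := hex
      have : Group.IsSolvable H :=
        hA.elim (fun h' => solvable_of_factorsAlt hH (h23 S h) h') And.right
      exact Group.isSolvable_of_surjective (MonoidHom.subgroupMap_surjective _ H)
    · exact Group.isSolvable_of_comm fun a b => Subtype.ext (by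
        rw [eq_one_of_centralizes hR (g := ((a * b : H.map _) : G ⧸ OPi π G))
          fun S h => absurd ⟨S, h⟩ hex,
          eq_one_of_centralizes hR (g := ((b * a : H.map _) : G ⧸ OPi π G))
          fun S h => absurd ⟨S, h⟩ hex])
  obtain ⟨X, hX⟩ := glue hR fun S h => locG_alt hH' h.1 (hS S h.1 h.2.1 h.2.2) (h23 S h)
  obtain ⟨x, hx⟩ := lift_glue X hX
  refine ⟨x 0, x 1, le_antisymm (le_inf (le_inf hH.OPi_le (hH.conjBy _).OPi_le)
    (hH.conjBy _).OPi_le) fun k hk => hx k hk.1.1 fun a => ?_⟩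
  fin_cases a
  exacts [hk.1.2, hk.2]

end Pool.Agent.MP_983df8_al
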