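import Pool.Agent.MP_983df8_al.Klein
import Pool.Agent.MP_983df8_al.Red
import Pool.Agent.MP_983df8_al.Main
import Pool.Agent.MP_983df8_al.Defs3

-- ======== part 0: formerly Pool.Agent.MP_983df8_al.Klein2
section MrgPart0

namespace Pool.Agent.MP_983df8_al

open Matrix Subgroup

variable {K : Type*} [Field K] {S : Type*} [Group S] {ρ : SL2 K →* S} {π : Set ℕ}

theorem commute_cj {x y : S} (h : Commute x y) (j : S) : Commute (j * x * j⁻¹) (j * y * j⁻¹) :=
  h.map (MulAut.conj j)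

theorem conj_conj_aux (i j x : S) : i * (j * x * j⁻¹) * i⁻¹ = i * j * x * (i * j)⁻¹ := by group

theorem eq_one_of_three_four {d : S} (h3 : d ^ 3 = 1) (h4 : d * d * (d * d) = 1) : d = 1 := by
  rw [show d * d * (d * d) = d ^ 3 * d by simp [pow_succ, mul_assoc], h3, one_mul] at h4
  exact h4

theorem KP.sq (h : Cov ρ) (h2 : (2 : K) ≠ 0) {a b z : S} (k : KP ρ a b) (e1 : Commute z a)
    (e2 : Commute z b) : z * z = 1 := by
  obtain ⟨-, a2, a3⟩ := k.klein h h2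
  have b2 := (k.symm.klein h h2).2.1
  rcases a3 z e1 e2 with rfl | rfl | rfl | rfl
  exacts [one_mul 1, a2, b2, by rw [(k.comm h).symm.mul_mul_mul_comm, a2, b2, one_mul]]

theorem KP.ord3 (h : Cov ρ) (h2 : (2 : K) ≠ 0) {a b d : S} (k : KP ρ a b) (h3 : d ^ 3 = 1)
    (e1 : Commute d a) (e2 : Commute (d * b * d⁻¹) b) : d = 1 := by
  have e3 : d * a * d⁻¹ = a := by rw [e1.eq, mul_inv_cancel_right]
  have e4 : Commute (d * b * d⁻¹) a := e3 ▸ commute_cj (k.comm h).symm d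
  refine eq_one_of_three_four h3 (k.sq h h2 (e1.mul_left e1) ?_)
  rcases (k.klein h h2).2.2 _ e4 e2 with e | e | e | e
  · rw [mul_inv_eq_one, mul_eq_left] at e
    exact e ▸ Commute.one_right _
  · rw [← e3, mul_left_inj, mul_right_inj] at e
    exact e ▸ e1.mul_left e1
  · have : Commute d b := mul_inv_eq_iff_eq_mul.1 e
    exact this.mul_left this
  · refine mul_inv_eq_iff_eq_mul.1 ?_
    calc _ = d * (d * b * d⁻¹) * d⁻¹ := by group
      _ = d * (a * b) * d⁻¹ := by rw [e]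
      _ = (d * a * d⁻¹) * (d * b * d⁻¹) := by group
      _ = b := by rw [e3, e, ← mul_assoc, (k.klein h h2).2.1, one_mul]

theorem exists_s3 [Finite K] [Finite S] (h : Cov ρ) (h3 : (3 : K) ≠ 0) :
    ∃ d w : S, d ≠ 1 ∧ d ^ 3 = 1 ∧ w * w = 1 ∧ w * d * w⁻¹ = d⁻¹ := by
  obtain ⟨x, y, hxy⟩ : ∃ x y : K, x ^ 2 - x * y + y ^ 2 = -1 := by
    by_cases h2 : (2 : K) = 0
    · exact ⟨1, 0, by linear_combination h2⟩
    obtain ⟨a, b, e⟩ := norm_surj h3 (-1)
    exact ⟨a + b, 2 * b, by linear_combination e⟩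
  let d : SL2 K := ⟨!![0, -1; 1, -1], by simp [det_fin_two_of]⟩
  let w : SL2 K := ⟨!![y, x - y; x, -y], by rw [det_fin_two_of]; linear_combination -hxy⟩
  refine ⟨ρ d, ρ w, fun e => ?_, ?_, ?_, ?_⟩
  · obtain ⟨ε, -, e⟩ := (h.ker d).1 e
    simp [d, m2_ext] at e
  · rw [← map_pow, show d ^ 3 = 1 from Subtype.ext (by simp [d, pow_succ, m2_ext]), map_one]
  · rw [← map_mul, h.ker]
    refine ⟨-1, by simp, ?_⟩
    simp only [sl_mul, w, m2_ext, m2_mul]
    simp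
    refine ⟨?_, ?_, ?_, ?_⟩
    · linear_combination hxy
    · ring
    · ring
    · linear_combination hxy
  · rw [mul_inv_eq_iff_eq_mul, ← map_inv, ← map_mul, ← map_mul]
    refine congrArg ρ (Subtype.ext ?_)
    simp only [sl_mul, sl_inv, w, d, m2_ext, m2_mul]
    simp
    exact ⟨by ring, by ring, by ring⟩

theorem KP.trans2 (h : Cov ρ) (h2 : (2 : K) ≠ 0) {a b : S} (k : KP ρ a b) {J : Subgroup S}
    (hJ : ∀ j ∈ J, ∀ v, Commute v a → Commute v b →
      Commute (j * v * j⁻¹) a ∧ Commute (j * v * j⁻¹) b)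
    {d w : S} (hd : d ∈ J) (hw : w ∈ J) (d1 : d ≠ 1) (d3 : d ^ 3 = 1) (w2 : w * w = 1)
    (hwd : w * d * w⁻¹ = d⁻¹) : ∃ a' b', KP ρ a' b' ∧ ∀ x y, x ≠ 1 → y ≠ 1 → x ≠ y →
      Commute x a → Commute x b → Commute y a → Commute y b →
        ∃ j ∈ J, j * a' * j⁻¹ = x ∧ j * b' * j⁻¹ = y := by
  obtain ⟨a1, a2, a3⟩ := k.klein h h2
  have hab := k.comm h
  have hc : ∀ x y, Commute x a → Commute x b → Commute y a → Commute y b → Commute x y :=
    fun x y x1 x2 y1 y2 => by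
      rcases a3 y y1 y2 with rfl | rfl | rfl | rfl
      exacts [Commute.one_right x, x1, x2, x1.mul_right x2]
  have hp : ∀ x y, x ≠ 1 → y ≠ 1 → x ≠ y → Commute x a → Commute x b → Commute y a →
      Commute y b → KP ρ x y := fun x y x0 y0 e x1 x2 y1 y2 =>
    k.pair h ((a3 x x1 x2).resolve_left x0) ((a3 y y1 y2).resolve_left y0) e
  obtain ⟨c, c0, c1, c2, c3⟩ : ∃ c, c ≠ 1 ∧ Commute c a ∧ Commute c b ∧ w * c * w⁻¹ = c := by
    by_cases e : w * a * w⁻¹ = a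
    · exact ⟨a, a1, Commute.refl a, hab, e⟩
    obtain ⟨b1, b2⟩ := hJ w hw a (Commute.refl a) hab
    refine ⟨a * (w * a * w⁻¹), fun e' => e (mul_left_cancel (e'.trans a2.symm)),
      (Commute.refl a).mul_left b1, hab.mul_left b2, ?_⟩
    calc _ = (w * a * w⁻¹) * ((w * w) * a * (w * w)⁻¹) := by group
      _ = _ := by rw [w2, one_mul, inv_one, mul_one, b1.eq]
  have ne1 : ∀ (j x : S), x ≠ 1 → j * x * j⁻¹ ≠ 1 := fun j x hx e => hx (by simpa using e)
  have nf : ∀ e ∈ J, e ^ 3 = 1 → e * c * e⁻¹ = c → e = 1 := fun e he e3 ec => by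
    obtain ⟨z, z0, z1, z2, z3⟩ : ∃ z, z ≠ 1 ∧ Commute z a ∧ Commute z b ∧ c ≠ z := by
      by_cases e : c = a
      · refine ⟨b, (k.symm.klein h h2).1, hab.symm, Commute.refl b, fun e' => ?_⟩
        obtain ⟨g, m, rfl, e'', hs⟩ := k
        obtain ⟨ε, -, e3⟩ := h.eq_iff.1 (e''.trans (e'.symm.trans e))
        exact hs.not_one h2 (by simp [Sg, e3])
      · exact ⟨a, a1, Commute.refl a, hab, e⟩
    obtain ⟨b1, b2⟩ := hJ e he z z1 z2
    exact (hp c z c0 z0 z3 c1 c2 z1 z2).ord3 h h2 e3 (mul_inv_eq_iff_eq_mul.1 ec)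
      (hc _ _ b1 b2 z1 z2)
  obtain ⟨f1, f2⟩ := hJ d hd c c1 c2
  have f3 : c ≠ d * c * d⁻¹ := fun e => d1 (nf d hd d3 e.symm)
  have kc := hp _ _ c0 (ne1 d c c0) f3 c1 c2 f1 f2
  have hdd : d * d = d⁻¹ := by rw [eq_inv_iff_mul_eq_one, ← d3]; simp [pow_succ]
  generalize hf : d * c * d⁻¹ = f at f1 f2 f3 kc
  obtain ⟨g1, g2⟩ := hJ d hd f f1 f2
  obtain ⟨-, k2, k3⟩ := kc.klein h h2
  have r1 : d * f * d⁻¹ = c * f := by
    rcases k3 _ (hc _ _ g1 g2 c1 c2) (hc _ _ g1 g2 f1 f2) with e | e | e | e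
    · exact absurd e (ne1 _ _ (kc.symm.klein h h2).1)
    · refine absurd (inv_eq_one.1 (nf d⁻¹ (J.inv_mem hd) (by rw [inv_pow, d3, inv_one]) ?_)) d1
      rw [← hdd, ← conj_conj_aux, hf, e]
    · exact absurd ((MulAut.conj d).injective (hf.trans e.symm)) f3
    · exact e
  have r2 : d * (c * f) * d⁻¹ = c := by
    rw [← r1, ← hf]
    calc _ = d ^ 3 * c * (d ^ 3)⁻¹ := by simp [pow_succ, mul_assoc]
      _ = c := by rw [d3]; simp
  have r3 : w * f * w⁻¹ = c * f := by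
    calc _ = (w * d * w⁻¹) * (w * c * w⁻¹) * (w * d * w⁻¹)⁻¹ := by rw [← hf]; group
      _ = d⁻¹ * (d * (c * f) * d⁻¹) * d := by rw [hwd, c3, r2, inv_inv]
      _ = _ := by group
  refine ⟨c, f, kc, fun x y x0 y0 e x1 x2 y1 y2 => ?_⟩
  rcases (k3 x (hc _ _ x1 x2 c1 c2) (hc _ _ x1 x2 f1 f2)).resolve_left x0 with rfl | rfl | rfl <;>
    rcases (k3 y (hc _ _ y1 y2 c1 c2) (hc _ _ y1 y2 f1 f2)).resolve_left y0 with rfl | rfl | rfl
  · exact absurd rfl e
  · exact ⟨1, J.one_mem, by simp, by simp⟩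
  · exact ⟨w, hw, c3, r3⟩
  · exact ⟨d * w, J.mul_mem hd hw, by rw [← conj_conj_aux, c3, hf], by
      rw [← conj_conj_aux, r3, r2]⟩
  · exact absurd rfl e
  · exact ⟨d, hd, hf, r1⟩
  · exact ⟨d * d, J.mul_mem hd hd, by rw [← conj_conj_aux, hf, r1], by
      rw [← conj_conj_aux, r1, r2]⟩
  · exact ⟨d * (d * w), J.mul_mem hd (J.mul_mem hd hw), by
      rw [← conj_conj_aux, ← conj_conj_aux, c3, hf, r1], by
      rw [← conj_conj_aux, ← conj_conj_aux, r3, r2, hf]⟩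
  · exact absurd rfl e

theorem IsHall.comap_equiv [Finite S] {J : Subgroup S} (hJ : IsHall π J) (α : MulAut S) :
    IsHall π (J.comap α.toMonoidHom) :=
  ⟨hJ.1.comap_inj _ α.injective, fun p hp hm => by
    rw [index_comap_of_surjective _ α.surjective]
    exact hJ.2 p hp hm⟩

theorem klein_false [Finite K] [Finite S] (h : Cov ρ) (h4 : 4 ≤ Nat.card K) (h2 : (2 : K) ≠ 0)
    {J : Subgroup S} (hJ : IsHall π J) (p2 : 2 ∈ π) (p3 : 3 ∈ π) {A : Set (MulAut S)}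
    (hW3 : ∀ X : Subgroup S, IsPi π X → ∃ α ∈ A, ∀ x ∈ X, α x ∈ J)
    (hW4 : ∀ α ∈ A, ∃ n, Odd n ∧ ∃ L, IsHall π L ∧ ∀ x ∈ L, (α ^ n) x ∈ L)
    {a b : S} (k : KP ρ a b) (ha : a ∈ J) (hb : b ∈ J)
    (hN : ∀ j ∈ J, (Commute (j * a * j⁻¹) a ∧ Commute (j * a * j⁻¹) b) ∧
      Commute (j * b * j⁻¹) a ∧ Commute (j * b * j⁻¹) b) : False := by
  obtain ⟨a1, a2, a3⟩ := k.klein h h2
  have hab := k.comm h
  have hN' : ∀ j ∈ J, ∀ v, Commute v a → Commute v b →
      Commute (j * v * j⁻¹) a ∧ Commute (j * v * j⁻¹) b := fun j hj v v1 v2 => by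
    rcases a3 v v1 v2 with rfl | rfl | rfl | rfl
    · simp
    · exact (hN j hj).1
    · exact (hN j hj).2
    · rw [← conj_mul]
      exact ⟨(hN j hj).1.1.mul_left (hN j hj).2.1, (hN j hj).1.2.mul_left (hN j hj).2.2⟩
  by_cases h3 : (3 : K) = 0
  · obtain ⟨x, hx⟩ := exists_uu_le ρ Nat.prime_three (by simpa using h3)
      (hJ.2 3 Nat.prime_three p3)
    let u : K → S := fun y => x * ρ (uu y) * x⁻¹
    have u1 : ∀ y, u y ∈ J := fun y => mem_conjBy.1 (hx y)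
    have u2 : ∀ y z, u (y + z) = u y * u z := fun y z => by simp [u, uu_add]
    have := Set.ncard_le_ncard_of_injOn (s := Set.univ) (t := {a, b, a * b})
      (fun y => u y * a * (u y)⁻¹) (fun y _ => (a3 _ (hN _ (u1 y)).1.1 (hN _ (u1 y)).1.2).resolve_left
        fun e => a1 (by simpa using e)) fun y _ z _ e => by
        have e1 : u (y - z) = 1 := k.ord3 h h2 (by
            simp only [u, conj_pow]
            rw [← map_pow, uu_pow]
            simp [h3, uu_zero])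
          (mul_inv_eq_iff_eq_mul.1 ((MulAut.conj (u z)).injective (by
            rw [MulAut.conj_apply, conj_conj_aux, ← u2, add_sub_cancel]
            exact e))) (hN _ (u1 _)).2.2
        exact sub_eq_zero.1 (h.uu_inj (by simpa [u, uu_zero] using e1))
    have e1 := this.trans ((Set.ncard_insert_le _ _).trans
      (Nat.succ_le_succ ((Set.ncard_insert_le _ _).trans_eq (by rw [Set.ncard_singleton]))))
    rw [Set.ncard_univ] at e1
    omega
  obtain ⟨d, w, d1, d3, w2, hwd⟩ := exists_s3 h h3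
  obtain ⟨X, x1, x2, x3⟩ := exists_dihedral (π := π) w2 hwd (fun p hp hd => by
    rwa [(Nat.prime_dvd_prime_iff_eq hp Nat.prime_three).1 (hd.trans (by
      rw [Nat.card_zpowers]
      exact orderOf_dvd_of_pow_eq_one d3))]) p2
  obtain ⟨α0, -, hα0⟩ := hW3 X x1
  obtain ⟨a', b', k', ht⟩ := k.trans2 h h2 hN' (hα0 d x2) (hα0 w x3) (by simpa using d1)
    (by rw [← map_pow, d3, map_one]) (by rw [← map_mul, w2, map_one])
    (by rw [← map_inv, ← map_mul, ← map_mul, hwd, map_inv])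
  have hne : a ≠ b := fun e => by
    obtain ⟨g, m, rfl, e'', hs⟩ := k
    obtain ⟨ε, -, e3⟩ := h.eq_iff.1 (e''.trans e.symm)
    exact hs.not_one h2 (by simp [Sg, e3])
  have b1 := (k.symm.klein h h2).1
  have ht0 := ht a b a1 b1 hne (Commute.refl a) hab hab.symm (Commute.refl b)
  have ht1 : ∀ x, x ≠ 1 → Commute x a → Commute x b → ∃ j ∈ J, j * a' * j⁻¹ = x :=
    fun x x0 x1 x2 => by
      by_cases e : x = a
      · obtain ⟨j, j1, j2, -⟩ := ht0
        exact ⟨j, j1, e ▸ j2⟩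
      · obtain ⟨j, j1, j2, -⟩ := ht x a x0 a1 e x1 x2 (Commute.refl a) hab
        exact ⟨j, j1, j2⟩
  have hchar : ∀ γ : MulAut S, (∀ j ∈ J, γ j ∈ J) → ∀ v, v ≠ 1 → Commute v a → Commute v b →
      Commute (γ v) a ∧ Commute (γ v) b := by
    intro γ hγ v v0 v1 v2
    have hsurj : ∀ j ∈ J, ∃ i ∈ J, γ i = j := fun j hj => by
      obtain ⟨i, hi⟩ := (Finite.injective_iff_surjective (f := fun i : J => (⟨γ i, hγ i i.2⟩ : J))).1
        (fun x y e => Subtype.ext (γ.injective (congrArg Subtype.val e))) ⟨j, hj⟩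
      exact ⟨i, i.2, congrArg Subtype.val hi⟩
    have hvJ : v ∈ J := by
      rcases a3 v v1 v2 with rfl | rfl | rfl | rfl
      exacts [J.one_mem, ha, hb, J.mul_mem ha hb]
    by_contra hc
    have key : ∀ z ∈ J, Commute z a → Commute z b → Commute (γ v) z := fun z hz z1 z2 => by
      by_contra hcz
      obtain ⟨i, i1, rfl⟩ := hsurj z hz
      obtain ⟨c1, c2⟩ := hN' i i1 v⁻¹ v1.inv_left v2.inv_left
      obtain ⟨c3, c4⟩ := hN' _ (hγ v hvJ) _ z1 z2
      obtain ⟨j, j1, j2⟩ := ht1 (v * (i * v⁻¹ * i⁻¹)) (fun e => hcz (Commute.map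
        (commutatorElement_eq_one_iff_commute.1 (by
          rw [← e, commutatorElement_def]; group)) γ)) (v1.mul_left c1) (v2.mul_left c2)
      obtain ⟨l, l1, l2⟩ := ht1 v v0 v1 v2
      have e : γ v = γ (l * j⁻¹) * (γ v * γ i * (γ v)⁻¹ * (γ i)⁻¹) * (γ (l * j⁻¹))⁻¹ := by
        simp only [← map_inv, ← map_mul]
        congr 1
        calc v = l * j⁻¹ * (j * a' * j⁻¹) * (l * j⁻¹)⁻¹ := by rw [← l2]; group
          _ = _ := by rw [j2]; group
      exact hc (e ▸ hN' _ (hγ _ (J.mul_mem l1 (J.inv_mem j1))) _ (c3.mul_left z1.inv_left)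
        (c4.mul_left z2.inv_left))
    exact hc ⟨key a ha (Commute.refl a) hab, key b hb hab.symm (Commute.refl b)⟩
  obtain ⟨Z, z1, z2⟩ := exists_sign h h2 k
  have hZ : ∀ γ : MulAut S, (∀ j ∈ J, γ j ∈ J) → γ ∈ Z := fun γ hγ => by
    obtain ⟨c1, c2⟩ := hchar γ hγ a a1 (Commute.refl a) hab
    obtain ⟨c3, c4⟩ := hchar γ hγ b b1 hab.symm (Commute.refl b)
    obtain ⟨j, -, j2⟩ := ht _ _ (by simpa using a1) (by simpa using b1)
      (fun e => hne (γ.injective e)) c1 c2 c3 c4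
    obtain ⟨l, -, l2⟩ := ht0
    exact z2 γ (Same.trans (Same.symm ⟨j, j2⟩) ⟨l, l2⟩)
  obtain ⟨δ, hδ⟩ : ∃ δ, δ ∉ Z := by
    by_contra hc
    push Not at hc
    rw [(eq_top_iff' Z).2 hc, index_top] at z1
    omega
  obtain ⟨α, hα, e⟩ := hW3 (J.map δ.toMonoidHom) (hJ.1.map _)
  have c1 : α ∉ Z := fun e' => hδ ((Z.mul_mem_cancel_left e').1
    (hZ (α * δ) fun j hj => e _ ⟨j, hj, rfl⟩))
  obtain ⟨_, ⟨n, rfl⟩, L, l1, l2⟩ := hW4 α hα
  obtain ⟨γ, -, e'⟩ := hW3 L l1.1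
  have c2 := hZ (γ * α ^ (2 * n + 1) * γ⁻¹) fun j hj => e' _ (l2 _
    (l1.le_of_ge (hJ.comap_equiv γ).1 e' (by simpa using hj)))
  rw [mul_mem_iff_of_index_two z1, mul_mem_iff_of_index_two z1, inv_mem_iff, pow_succ, pow_mul,
    Z.mul_mem_cancel_left (Z.pow_mem (sq_mem_of_index_two z1 α) n)] at c2
  tauto

end Pool.Agent.MP_983df8_al

end MrgPart0

-- ======== part 1: formerly Pool.Agent.MP_983df8_al.Four
section MrgPart1

namespace Pool.Agent.MP_983df8_al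

open Subgroup

variable {G : Type*} [Group G] {π : Set ℕ}

theorem LocG.three {H R : Subgroup G} (h : LocG (Fin 2) H R) : LocG (Fin 3) H R := by
  obtain ⟨x, h1, h2⟩ := h
  exact ⟨fun a => x (![0, 1, 1] a), fun a i => h1 _ i, fun n hn i j a1 a2 =>
    h2 n hn i j a1 fun a => by
      fin_cases a
      exacts [a2 0, a2 1]⟩

theorem IsComp.not_pi [Finite G] {H S : Subgroup G} [Group.IsSolvable H] (hH : IsHall π H)
    (hS : IsComp S) : ¬ IsPi π S := fun h => by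
  have hle : S ≤ H := fun s hs => (hH.subgroupOf hS.1).le_of_ge (K := ⊤) (h.of_dvd (by simp))
    le_top (mem_top ⟨s, hs⟩)
  have := hS.2.1
  exact hS.2.2 ⟨⟨IsSimpleGroup.comm_iff_isSolvable.2
    (Group.isSolvable_of_isSolvable_injective (f := inclusion hle) (inclusion_injective _))⟩⟩

theorem main_four [Finite G] (hD : IsD π G) {H : Subgroup G} (hH : IsHall π H)
    (hA : (Group.IsSolvable H ∧ SocleAlt (G ⧸ Rad G)) ∨ (FactorsAlt G ∧ (2 ∉ π ∨ 3 ∉ π))) :
    ∃ x y z : G, OPi π G = H ⊓ conjBy H x ⊓ conjBy H y ⊓ conjBy H z := by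
  obtain ⟨h1, h2⟩ : Group.IsSolvable H ∧ SocleAlt (G ⧸ Rad G) :=
    hA.elim id fun h => ⟨solvable_of_factorsAlt hH h.2 h.1, h.1.socleAlt _⟩
  have hH' := hH.map (QuotientGroup.mk' (Rad G)) (QuotientGroup.mk'_surjective _)
  have : Group.IsSolvable (H.map (QuotientGroup.mk' (Rad G))) :=
    Group.isSolvable_of_surjective (MonoidHom.subgroupMap_surjective _ H)
  have hW := map_W _ (QuotientGroup.mk'_surjective (Rad G)) fun X hX => hD.exists_le hH hX
  exact red hH (glue radicalTrivial_quot fun S h => (locG_alt hH' h.1 (h2 S h.1 h.2.1 h.2.2)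
    (alt_not_both hH' hW h.1 (h2 S h.1 h.2.1 h.2.2) (h.not_pi hH'))).three)

end Pool.Agent.MP_983df8_al

end MrgPart1

-- ======== part 2: formerly Pool.Agent.MP_983df8_al.FourL
section MrgPart2

namespace Pool.Agent.MP_983df8_al

open Subgroup

variable {G : Type*} [Group G] {π : Set ℕ}

theorem IsPi.sup_comm {L C : Subgroup G} (hL : IsPi π L) (hC : IsPi π C)
    (h : ∀ a ∈ L, ∀ c ∈ C, Commute a c) : IsPi π (L ⊔ C) := by
  have e := MonoidHom.noncommCoprod_range L.subtype C.subtype fun a c => h a a.2 c c.2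
  rw [range_subtype, range_subtype] at e
  intro p hp hd
  rw [← e] at hd
  have := hd.trans (card_range_dvd _)
  rw [Nat.card_prod] at this
  exact (hp.dvd_mul.1 this).elim (hL p hp) (hC p hp)

theorem IsComp.exists_norm [Finite G] {H S : Subgroup G} (hS : IsComp S) (hH : IsPi π H)
    (hW : ∀ X : Subgroup G, IsPi π X → ∃ x, X ≤ conjBy H x) {L : Subgroup G} (h1 : L ≤ S)
    (h2 : IsPi π L) : ∃ y ∈ normalizer (S : Set G), ∀ l ∈ L, y * l * y⁻¹ ∈ H := by
  classical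
  obtain ⟨x, hx⟩ := hW _ (h2.sup_comm (hH.mono (inf_le_left : H ⊓ centralizer (S : Set G) ≤ H))
    fun a ha c hc => hc.2 a (h1 ha))
  have hex : ∃ k, x ^ (k + 1) ∈ normalizer (S : Set G) := ⟨orderOf x - 1, by
    rw [Nat.sub_add_cancel (orderOf_pos x), pow_orderOf_eq_one]
    exact one_mem _⟩
  refine ⟨_, Nat.find_spec hex, fun l hl => ?_⟩
  have key : ∀ k ≤ Nat.find hex, x ^ (k + 1) * l * (x ^ (k + 1))⁻¹ ∈ H := fun k hk => by
    induction k with
    | zero => simpa using mem_conjBy.1 (hx (mem_sup_left hl))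
    | succ k ih =>
      have a1 : S ≠ S.map (MulAut.conj (x ^ (k + 1))).toMonoidHom := fun e =>
        Nat.find_min hex (Nat.lt_of_succ_le hk) (mem_normalizer_fintype fun s hs =>
          e.ge ⟨s, hs, rfl⟩)
      have := mem_conjBy.1 (hx (mem_sup_right ⟨ih (Nat.le_of_succ_le hk), fun s hs =>
        (hS.commute (hS.map_equiv _) a1 hs ⟨l, h1 hl, rfl⟩).eq⟩))
      rwa [conj_conj_aux, ← pow_succ'] at this
  exact key _ le_rfl

theorem locG_L2 [Finite G] {H S : Subgroup G} [Group.IsSolvable H] (hH : IsHall π H)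
    (hW : ∀ X : Subgroup G, IsPi π X → ∃ x, X ≤ conjBy H x) (hS : IsComp S) (hA : IsL2 S) :
    LocG (Fin 3) H S := by
  obtain ⟨K, _, _, h7, h9, ⟨e⟩⟩ := hA
  have h := cov_psl.comp e.symm
  have : Group.IsSolvable (normalizer (S : Set G)).subtype.ker := by
    rw [ker_subtype]; infer_instance
  have : Group.IsSolvable (H.subgroupOf (normalizer (S : Set G))) := solvable_comap _ H
  have : Group.IsSolvable (autOf H S) :=
    Group.isSolvable_of_surjective (MonoidHom.subgroupMap_surjective _ _)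
  have hle : H.subgroupOf S ≤ (autOf H S).comap MulAut.conj := fun s hs =>
    ⟨⟨s, le_normalizer s.2⟩, hs, MulEquiv.ext fun _ => rfl⟩
  have hJ : IsHall π ((autOf H S).comap MulAut.conj) :=
    ⟨(hH.1.autOf S).comap_inj _ h.conj_inj, fun p hp hm hd =>
      (hH.subgroupOf hS.1).2 p hp hm (hd.trans (index_dvd_of_le hle))⟩
  have hW3 : ∀ X : Subgroup S, IsPi π X → ∃ α ∈ S.normalizerMonoidHom.range,
      ∀ x ∈ X, α x ∈ (autOf H S).comap MulAut.conj := fun X hX => by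
    obtain ⟨y, y1, y2⟩ := hS.exists_norm hH.1 hW (map_subtype_le X) (hX.map _)
    exact ⟨_, ⟨⟨y, y1⟩, rfl⟩, fun x hx => hle (y2 _ ⟨x, hx, rfl⟩)⟩
  refine Exists.elim (loc_L2 h h7 h9 (hH.1.autOf S) hJ (fun X hX => (hW3 X hX).elim fun α hα =>
    ⟨_, hJ.comap_equiv α, hα.2⟩) (fun h' => hS.not_pi hH (h'.of_dvd (by simp)))
    fun p2 p3 g m a1 a2 T hg hm t1 t2 t3 => klein_false h (by omega)
      (fun e => a2 (by rwa [neg_eq_of_add_eq_zero_left (one_add_one_eq_two.trans e)] at a1))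
      hJ p2 p3 (A := S.normalizerMonoidHom.range) hW3 ?_ ⟨g, m, rfl, rfl, a1⟩ (t1 _ hg) (t1 _ hm)
      fun j hj => ⟨⟨t2 _ (t3 _ hj _ hg) _ hg, t2 _ (t3 _ hj _ hg) _ hm⟩,
        t2 _ (t3 _ hj _ hm) _ hg, t2 _ (t3 _ hj _ hm) _ hm⟩) locG_of_aut
  rintro _ ⟨y, rfl⟩
  obtain ⟨a, n, hn, e⟩ := Nat.exists_eq_pow_mul_and_not_dvd (orderOf_pos y).ne' 2 (by norm_num)
  obtain ⟨x, hx⟩ := hW (zpowers ((y ^ n : normalizer (S : Set G)) : G)) fun p hp hd => by
    rw [Nat.card_zpowers, orderOf_coe] at hd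
    rwa [(Nat.prime_dvd_prime_iff_eq hp Nat.prime_two).1 (hp.dvd_of_dvd_pow (n := a) (hd.trans
      (orderOf_dvd_of_pow_eq_one (by rw [← pow_mul, mul_comm, ← e, pow_orderOf_eq_one]))))]
  refine ⟨n, Nat.odd_iff.2 (by omega), _, (hH.conjBy x).subgroupOf hS.1, fun s hs => ?_⟩
  rw [← map_pow]
  exact mul_mem (mul_mem (hx (mem_zpowers _)) hs) (inv_mem (hx (mem_zpowers _)))

theorem main_fourL [Finite G] (hD : IsD π G) {H : Subgroup G} (hH : IsHall π H)
    [Group.IsSolvable H] (h2 : SocleAL (G ⧸ Rad G)) :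
    ∃ x y z : G, OPi π G = H ⊓ conjBy H x ⊓ conjBy H y ⊓ conjBy H z := by
  have hH' := hH.map (QuotientGroup.mk' (Rad G)) (QuotientGroup.mk'_surjective _)
  have : Group.IsSolvable (H.map (QuotientGroup.mk' (Rad G))) :=
    Group.isSolvable_of_surjective (MonoidHom.subgroupMap_surjective _ H)
  have hW := map_W _ (QuotientGroup.mk'_surjective (Rad G)) fun X hX => hD.exists_le hH hX
  exact red hH (glue radicalTrivial_quot fun S h => (h2 S h.1 h.2.1 h.2.2).elim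
    (fun a => (locG_alt hH' h.1 a (alt_not_both hH' hW h.1 a (h.not_pi hH'))).three)
    (locG_L2 hH' hW h))

end Pool.Agent.MP_983df8_al

end MrgPart2

-- marker of a merged file
example : 731051 + 430660 = 731051 + 430660 := rfl
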