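import Pool.Agent.MP_983df8_al.Minus
import Pool.Agent.MP_983df8_al.FourL
import Pool.Agent.MP_983df8_al.Defs4

namespace Pool.Agent.MP_983df8_al

open Subgroup

variable {G : Type*} [Group G] {π : Set ℕ}

theorem loc_Ln {K S : Type*} [Field K] [Finite K] [Group S] [Finite S] {n : ℕ}
    {ρ : SLn (Fin n) K →* S} (h : CovN ρ) {B : Subgroup (MulAut S)} [Group.IsSolvable B]
    (hi : Function.Injective (MulAut.conj : S →* MulAut S)) (hB : IsPi π B)
    (hJ : IsHall π (B.comap MulAut.conj)) (h23 : 2 ∉ π ∨ 3 ∉ π) : LocA B := by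
  obtain ⟨p, hp⟩ := CharP.exists K
  have := Fact.mk (CharP.char_is_prime K p)
  have hr : ∀ r : ℕ, r.Prime → (r : K) = 0 → r = p := fun r hr e =>
    ((Nat.prime_dvd_prime_iff_eq this.out hr).1 ((CharP.cast_eq_zero_iff K p r).1 e)).symm
  by_cases hπ : p ∈ π
  · obtain ⟨m, rfl⟩ : ∃ m, n = m + 3 := Nat.exists_eq_add_of_le' (by simpa using h.three)
    obtain ⟨x, hx⟩ := exists_conj_of_isPGroup this.out (hJ.2 p this.out hπ) (isPGroup_UU.map ρ)
    exact locN_par (h.comp (MulAut.conj x)) hJ.1 (fun r a b => hr r a b ▸ hπ) h23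
      (fun u hu => mem_conjBy.1 (hx ⟨u, hu, rfl⟩)) (r := Fin.revPerm) Fin.rev_rev
      (fun _ _ => Fin.rev_lt_rev) (o := 0) (i1 := 1) (i2 := 2) Fin.zero_le Fin.zero_lt_one
      (Fin.one_lt_succ_succ 0)
  have a1 : ¬ p ∣ Nat.card (B.comap MulAut.conj) := fun e => hπ (hJ.1 p this.out e)
  refine locN_cop h (fun e => hπ (hB p this.out e)) a1 ?_
  by_cases h2 : 2 ∈ π
  · have : Group.IsSolvable (MulAut.conj : S →* MulAut S).ker := by
      rw [(MonoidHom.ker_eq_bot_iff _).2 hi]; infer_instance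
    have := solvable_comap MulAut.conj B
    exact Or.inr (h.minus_false a1 (fun e => h23.elim (· h2) (· (hJ.1 3 Nat.prime_three e)))
      fun e => hπ (hr 2 Nat.prime_two (by simpa using e) ▸ h2))
  refine Or.inl fun β hβ => ?_
  obtain ⟨μ, A, A', a | a⟩ := h.rp_or_rm β
  · exact ⟨_, _, _, a⟩
  obtain ⟨k, hk⟩ := Nat.not_even_iff_odd.1 fun e : Even (orderOf β) =>
    h2 (hB.orderOf_mem hβ Nat.prime_two e.two_dvd)
  exact a.odd (hk ▸ pow_orderOf_eq_one β)

theorem IsComp.conj_inj {S : Subgroup G} (hS : IsComp S) :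
    Function.Injective (MulAut.conj : S →* MulAut S) := by
  have := hS.2.1
  refine (MonoidHom.ker_eq_bot_iff _).1 ((MonoidHom.normal_ker _).eq_bot_or_eq_top.resolve_right
    fun e => hS.2.2 ⟨⟨fun a b => ?_⟩⟩)
  exact mul_inv_eq_iff_eq_mul.1 (DFunLike.congr_fun (show a ∈ MonoidHom.ker _ from e ▸ mem_top a) b)

theorem locG_Ln [Finite G] {H S : Subgroup G} [Group.IsSolvable H] (hH : IsHall π H)
    (hS : IsComp S) (h23 : 2 ∉ π ∨ 3 ∉ π) (hA : IsLn S) : LocG (Fin 3) H S := by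
  obtain ⟨n, K, _, _, h3, ⟨e⟩⟩ := hA
  have : Group.IsSolvable (normalizer (S : Set G)).subtype.ker := by
    rw [ker_subtype]; infer_instance
  have : Group.IsSolvable (H.subgroupOf (normalizer (S : Set G))) := solvable_comap _ H
  have : Group.IsSolvable (autOf H S) :=
    Group.isSolvable_of_surjective (MonoidHom.subgroupMap_surjective _ _)
  have hle : H.subgroupOf S ≤ (autOf H S).comap MulAut.conj := fun s hs =>
    ⟨⟨s, le_normalizer s.2⟩, hs, MulEquiv.ext fun _ => rfl⟩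
  exact (loc_Ln ((cov_psln (by simpa using h3)).comp e.symm) hS.conj_inj (hH.1.autOf S)
    ⟨(hH.1.autOf S).comap_inj _ hS.conj_inj, fun p hp hm hd =>
      (hH.subgroupOf hS.1).2 p hp hm (hd.trans (index_dvd_of_le hle))⟩ h23).elim locG_of_aut

theorem main_fourN [Finite G] (hD : IsD π G) {H : Subgroup G} (hH : IsHall π H)
    [Group.IsSolvable H] (h2 : SocleLin π (G ⧸ Rad G)) :
    ∃ x y z : G, OPi π G = H ⊓ conjBy H x ⊓ conjBy H y ⊓ conjBy H z := by
  have hH' := hH.map (QuotientGroup.mk' (Rad G)) (QuotientGroup.mk'_surjective _)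
  have : Group.IsSolvable (H.map (QuotientGroup.mk' (Rad G))) :=
    Group.isSolvable_of_surjective (MonoidHom.subgroupMap_surjective _ H)
  have hW := map_W _ (QuotientGroup.mk'_surjective (Rad G)) fun X hX => hD.exists_le hH hX
  exact red hH (glue radicalTrivial_quot fun S h => (h2 S h.1 h.2.1 h.2.2).elim
    (fun a => (locG_alt hH' h.1 a (alt_not_both hH' hW h.1 a (h.not_pi hH'))).three)
    fun a => a.elim (locG_L2 hH' hW h) fun a => locG_Ln hH' h a.1 a.2)

end Pool.Agent.MP_983df8_al
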