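import Mathlib.Algebra.CubicDiscriminant
import Mathlib.RingTheory.Flat.TorsionFree
import Mathlib.RingTheory.PicardGroup
import Mathlib.RingTheory.Finiteness.ModuleFinitePresentation
import Mathlib.RingTheory.SimpleRing.Principal
import Mathlib.RingTheory.TotallySplit
import Mathlib.RingTheory.Etale.Weakly
import Mathlib.RingTheory.Henselian
import Mathlib.RingTheory.RegularLocalRing.Defs

namespace Pool.Agent.MP_983df8_al

open Matrix

variable {F : Type*} [Field F]

/-- three by three matrices -/
abbrev M3 (F : Type*) := Matrix (Fin 3) (Fin 3) F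

theorem adj3 (A : M3 F) : adjugate A = A * A - A.trace • A + (adjugate A).trace • (1 : M3 F) := by
  ext i j
  fin_cases i <;> fin_cases j <;>
    simp [adjugate_fin_three, mul_apply, Fin.sum_univ_three, trace_fin_three] <;> ring

theorem rank_one {B : M3 F} (h : adjugate B = 0) (X : M3 F) : B * X * B = (X * B).trace • B := by
  have key : ∀ i j k l, B i k * B l j = B l k * B i j := by
    have h' := fun a b => congrFun (congrFun h a) b
    have h00 := h' 0 0
    have h01 := h' 0 1
    have h02 := h' 0 2
    have h10 := h' 1 0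
    have h11 := h' 1 1
    have h12 := h' 1 2
    have h20 := h' 2 0
    have h21 := h' 2 1
    have h22 := h' 2 2
    simp [adjugate_fin_three] at h00 h01 h02 h10 h11 h12 h20 h21 h22
    intro i j k l
    fin_cases i <;> fin_cases j <;> fin_cases k <;> fin_cases l <;> simp only [Fin.zero_eta,
      Fin.mk_one, Fin.reduceFinMk, Fin.isValue] <;> grind
  ext i j
  simp only [mul_apply, trace, diag_apply, Matrix.smul_apply, smul_eq_mul, Finset.sum_mul]
  rw [Finset.sum_comm]
  exact Finset.sum_congr rfl fun k _ => Finset.sum_congr rfl fun l _ => by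
    linear_combination X k l * key i j k l

theorem exists_simple [IsAlgClosed F] (M : M3 F) (h : ∀ a : F, (M - a • 1) ^ 3 ≠ 0) :
    ∃ a : F, (M - a • 1).det = 0 ∧ (adjugate (M - a • 1)).trace ≠ 0 := by
  let P : Cubic F := ⟨1, -M.trace, (adjugate M).trace, -M.det⟩
  obtain ⟨x, y, z, e⟩ := (Cubic.splits_iff_roots_eq_three (P := P) (φ := RingHom.id F)
    one_ne_zero).1 (IsAlgClosed.splits _)
  have e1 := Cubic.b_eq_three_roots one_ne_zero e
  have e2 := Cubic.c_eq_three_roots one_ne_zero e
  have e3 := Cubic.d_eq_three_roots one_ne_zero e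
  simp only [P, RingHom.id_apply, one_mul] at e1 e2 e3
  have k1 : ∀ a : F, (M - a • 1).det = -(a ^ 3 - M.trace * a ^ 2 + (adjugate M).trace * a - M.det) :=
    fun a => by simp [det_fin_three, adjugate_fin_three, trace_fin_three]; ring
  have k2 : ∀ a : F, (adjugate (M - a • 1)).trace = 3 * a ^ 2 - 2 * M.trace * a +
      (adjugate M).trace := fun a => by simp [adjugate_fin_three, trace_fin_three]; ring
  have k3 : ∀ a : F, (M - a • 1).trace = M.trace - 3 * a := fun a => by
    simp [trace_fin_three]; ring
  by_contra hc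
  push Not at hc
  have a1 := hc x (by rw [k1]; linear_combination -x ^ 2 * e1 - x * e2 - e3)
  have a2 := hc y (by rw [k1]; linear_combination -y ^ 2 * e1 - y * e2 - e3)
  have a3 := hc z (by rw [k1]; linear_combination -z ^ 2 * e1 - z * e2 - e3)
  have a4 := a1
  rw [k2] at a1 a2 a3
  have b1 : (x - y) * (x - z) = 0 := by linear_combination a1 - 2 * x * e1 - e2
  have b2 : (y - x) * (y - z) = 0 := by linear_combination a2 - 2 * y * e1 - e2
  have b3 : (z - x) * (z - y) = 0 := by linear_combination a3 - 2 * z * e1 - e2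
  have c1 : x = y := by grind
  have c2 : x = z := by grind
  refine h x ?_
  have := mul_adjugate (M - x • 1)
  rw [adj3, a4, k3, k1, show M.trace - 3 * x = 0 by linear_combination -e1 - c1 - c2,
    show -(x ^ 3 - M.trace * x ^ 2 + (adjugate M).trace * x - M.det) = 0 by
      linear_combination -x ^ 2 * e1 - x * e2 - e3] at this
  simpa [pow_succ, mul_assoc] using this

theorem cliff [IsAlgClosed F] (h2 : (2 : F) ≠ 0) {L : Type*} [Group L] [Finite L] (θ : L →* M3 F)
    (Z : Subgroup L) (hZ : ∀ z ∈ Z, ∃ c : F, θ z = c • (1 : M3 F)) (h3 : ¬ 3 ∣ Z.index) {n : L}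
    (hn : ∀ g, Commute (θ n) (θ (g * n * g⁻¹))) (hn' : ∀ a : F, (θ n - a • 1) ^ 3 ≠ 0)
    (hc : ∀ X : M3 F, (∀ g, θ g * X = X * θ g) → ∃ c : F, X = c • (1 : M3 F)) : False := by
  have hi : ∀ g, θ g⁻¹ * θ g = 1 := fun g => by rw [← map_mul, inv_mul_cancel, map_one]
  have hi' : ∀ g, θ g * θ g⁻¹ = 1 := fun g => by rw [← map_mul, mul_inv_cancel, map_one]
  let _ : MulSemiringAction L (M3 F) :=
    { smul := fun g X => θ g * X * θ g⁻¹
      one_smul := fun X => by show θ 1 * X * θ 1⁻¹ = X; simp
      mul_smul := fun a b X => by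
        show θ (a * b) * X * θ (a * b)⁻¹ = θ a * (θ b * X * θ b⁻¹) * θ a⁻¹
        simp only [_root_.mul_inv_rev, map_mul, mul_assoc]
      smul_zero := fun a => by show θ a * 0 * θ a⁻¹ = 0; simp
      smul_add := fun a X Y => by
        show θ a * (X + Y) * θ a⁻¹ = θ a * X * θ a⁻¹ + θ a * Y * θ a⁻¹
        rw [mul_add, add_mul]
      smul_one := fun a => by show θ a * 1 * θ a⁻¹ = 1; rw [mul_one, hi']
      smul_mul := fun a X Y => by
        show θ a * (X * Y) * θ a⁻¹ = θ a * X * θ a⁻¹ * (θ a * Y * θ a⁻¹)
        rw [mul_assoc (θ a * X), ← mul_assoc (θ a⁻¹), ← mul_assoc (θ a⁻¹), hi, one_mul]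
        simp only [mul_assoc] }
  have hs : ∀ (g : L) (X : M3 F), g • X = θ g * X * θ g⁻¹ := fun _ _ => rfl
  have hs' : ∀ (g : L) (c : F) (X : M3 F), g • c • X = c • g • X := fun g c X => by
    rw [hs, hs, Matrix.mul_smul, smul_mul]
  have ht : ∀ (g : L) (X : M3 F), (g • X).trace = X.trace := fun g X => by
    rw [hs, trace_mul_comm, ← mul_assoc, hi, one_mul]
  obtain ⟨a, a1, a2⟩ := exists_simple _ hn'
  set A := θ n - a • 1 with hA
  set E := (adjugate A).trace⁻¹ • adjugate A with hE
  have e1 : adjugate E = 0 := by rw [hE, adjugate_smul, adjugate_adjugate', a1]; simp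
  have e2 : E.trace = 1 := by rw [hE, trace_smul, smul_eq_mul, inv_mul_cancel₀ a2]
  have e3 : E * E = E := by simpa [e2] using rank_one e1 1
  have e4 : ∀ X, Commute X A → Commute X E := fun X h => by
    rw [hE, adj3]
    exact (((h.mul_right h).sub_right (h.smul_right _)).add_right
      ((Commute.one_right X).smul_right _)).smul_right _
  have e5 : ∀ g : L, Commute E (g • E) := fun g => by
    have b1 : Commute (g⁻¹ • A) A := by
      have : g⁻¹ • θ n = θ (g⁻¹ * n * g⁻¹⁻¹) := by rw [hs, map_mul, map_mul]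
      rw [hA, smul_sub, hs', smul_one, this]
      exact (((hn _).symm.sub_right ((Commute.one_right _).smul_right _)).sub_left
        ((Commute.one_left _).smul_left _))
    have b2 := e4 _ (show Commute (g • E) A by
      simpa only [Commute, SemiconjBy, smul_mul', smul_inv_smul] using
        congrArg (g • ·) (e4 _ b1).symm.eq)
    exact b2.symm
  have e6 : ∀ g : L, g • E = E ∨ E * g • E = 0 := fun g => by
    have b1 : E * g • E = (g • E * E).trace • E := by
      rw [← rank_one e1, mul_assoc, ← (e5 g).eq, ← mul_assoc, e3]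
    have b2 : E * g • E = (g • E * E).trace • g • E := by
      have := congrArg (g • ·) (rank_one e1 (g⁻¹ • E))
      simp only [smul_mul', smul_inv_smul, hs'] at this
      rw [← ht g, smul_mul', smul_inv_smul, ← (e5 g).eq, mul_assoc, ← smul_mul', e3] at this
      rwa [← (e5 g).eq]
    by_cases b : (g • E * E).trace = 0
    · exact Or.inr (by rw [b1, b, zero_smul])
    · exact Or.inl (smul_right_injective _ b (b2.symm.trans b1))
  have e7 : ∀ X Y : MulAction.orbit L E, X ≠ Y → X.1 * Y.1 = 0 := by
    rintro ⟨_, g, rfl⟩ ⟨_, g', rfl⟩ h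
    refine (e6 (g⁻¹ * g')).elim (fun e => (h (Subtype.ext ?_)).elim) fun e => ?_
    · rw [mul_smul, inv_smul_eq_iff] at e
      exact e.symm
    · simpa [smul_mul', mul_smul] using congrArg (g • ·) e
  have e8 : ∀ X : MulAction.orbit L E, X.1 * X.1 = X.1 ∧ X.1.trace = 1 := by
    rintro ⟨_, g, rfl⟩
    exact ⟨by rw [← smul_mul', e3], (ht g E).trans e2⟩
  have : Finite (MulAction.orbit L E) := (Set.finite_range _).to_subtype
  have := Fintype.ofFinite (MulAction.orbit L E)
  obtain ⟨c, hc'⟩ := hc (∑ X : MulAction.orbit L E, X.1) fun g => by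
    have : g • ∑ X : MulAction.orbit L E, X.1 = ∑ X : MulAction.orbit L E, X.1 := by
      rw [Finset.smul_sum]
      exact Equiv.sum_comp (MulAction.toPerm g) fun X : MulAction.orbit L E => X.1
    conv_rhs => rw [← this, hs, mul_assoc, hi, mul_one]
  have b1 := congrArg (fun X => (X * E).trace) hc'
  have b2 := congrArg trace hc'
  simp only [Finset.sum_mul] at b1
  rw [Finset.sum_eq_single_of_mem ⟨E, MulAction.mem_orbit_self E⟩ (Finset.mem_univ _)
    fun X _ h => e7 X _ h, e3, smul_mul, one_mul, e2, trace_smul, e2, smul_eq_mul, mul_one] at b1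
  simp only [trace_sum, (e8 _).2, ← b1, one_smul, trace_one, Fintype.card_fin, Finset.sum_const,
    Finset.card_univ, nsmul_eq_mul, mul_one] at b2
  have b3 : Fintype.card (MulAction.orbit L E) ≤ 3 := by
    have : ∀ X : MulAction.orbit L E, ∃ u, X.1 *ᵥ u ≠ 0 := fun X => by
      by_contra h
      push Not at h
      have := (e8 X).2
      rw [ext_iff_mulVec.2 fun u => (h u).trans (zero_mulVec u).symm, trace_zero] at this
      exact zero_ne_one this
    choose u hu using this
    simpa using (Fintype.linearIndependent_iff.2 fun s hs X => by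
      have := congrArg (X.1 *ᵥ ·) hs
      simp only [mulVec_sum, mulVec_smul, mulVec_mulVec, mulVec_zero] at this
      rw [Finset.sum_eq_single_of_mem X (Finset.mem_univ _) fun Y _ h => by
        rw [e7 X Y h.symm, zero_mulVec, smul_zero], (e8 X).1] at this
      exact (smul_eq_zero.1 this).resolve_right (hu X) :
        LinearIndependent F fun X : MulAction.orbit L E => X.1 *ᵥ u X).fintype_card_le_finrank
  have b4 : Fintype.card (MulAction.orbit L E) ∣ Z.index := by
    rw [← Nat.card_eq_fintype_card, Nat.card_coe_set_eq, ← MulAction.index_stabilizer]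
    refine Subgroup.index_dvd_of_le fun z hz => ?_
    obtain ⟨c, e⟩ := hZ z hz
    rw [MulAction.mem_stabilizer_iff, hs, e, smul_mul, one_mul, smul_mul, ← Matrix.mul_smul,
      ← one_mul (θ z⁻¹), ← smul_mul, ← e, hi', mul_one]
  have b5 : 0 < Fintype.card (MulAction.orbit L E) :=
    Fintype.card_pos_iff.2 ⟨⟨E, MulAction.mem_orbit_self E⟩⟩
  generalize Fintype.card (MulAction.orbit L E) = k at b2 b3 b4 b5
  interval_cases k
  · exact h2 (by push_cast at b2; linear_combination -b2)
  · exact one_ne_zero (α := F) (by push_cast at b2; linear_combination -b2)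
  · exact h3 b4

end Pool.Agent.MP_983df8_al
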