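import Pool.Agent.MP_983df8_al.LocC
import Pool.Agent.MP_983df8_al.Cliff

namespace Pool.Agent.MP_983df8_al

open Matrix Matrix.SpecialLinearGroup

variable {ι K : Type*} [Fintype ι] [DecidableEq ι] [Field K]
variable {S : Type*} [Group S] {ρ : SLn ι K →* S}
variable {p : ℕ} [Fact p.Prime] [CharP K p] {J : Subgroup S}

theorem pow_char_sq {R : Type*} [Ring R] [CharP R p] {x c : R} (hc : Commute x c)
    (h : (x - c) ^ 3 = 0) : x ^ p ^ 2 = c ^ p ^ 2 := by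
  have := (Fact.out : p.Prime).two_le
  rw [← sub_eq_zero, ← sub_pow_char_pow_of_commute _ _ hc,
    pow_eq_zero_of_le (show 3 ≤ p ^ 2 by nlinarith) h]

theorem eq_one_of_cop {s : S} {m : ℕ} (hJ : m.Coprime (Nat.card J)) (hs : s ∈ J) (h : s ^ m = 1) :
    s = 1 :=
  orderOf_eq_one_iff.1 (Nat.eq_one_of_dvd_coprimes hJ (orderOf_dvd_of_pow_eq_one h)
    (J.orderOf_dvd_natCard hs))

theorem CovN.unip (h : CovN ρ) (hJ : ¬ p ∣ Nat.card J) {x y : SLn ι K} {v f w φ : ι → K}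
    (hx : Tv x v f) (hy : Tv y w φ) (hj : ρ (x * y⁻¹) ∈ J) (e : (φ ⬝ᵥ v) * (f ⬝ᵥ w) = 0) :
    x = y := by
  have : Nonempty ι := Fintype.card_pos_iff.1 (by have := h.three; omega)
  refine h.tv_eq hx hy (mul_inv_eq_one.1 ?_)
  rw [← map_inv, ← map_mul]
  refine eq_one_of_cop (((Fact.out : p.Prime).coprime_iff_not_dvd.2 hJ).pow_left 2) hj ?_
  rw [← map_pow, show (x * y⁻¹) ^ p ^ 2 = 1 from Subtype.ext ?_, map_one]
  refine (pow_char_sq (Commute.one_right _) ?_).trans (one_pow _)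
  rw [sn_mul, hx, hy.inv, show ∀ N M : Matrix ι ι K, (1 + N) * (1 + M) - 1 = N + M + N * M from
    fun N M => by noncomm_ring]
  refine (cube_alg (c := (0 : K)) ?_ ?_ ?_ ?_).2.2 rfl <;>
    simp [vecMulVec_mul_vecMulVec, hx.dot, hy.dot, smul_smul, e, mul_comm (f ⬝ᵥ w)]

theorem comm3 {F : Type*} [Field F] (σ : K →+* F) {a b c d e : K} (hc : c ≠ 0) (ha : a ≠ 0)
    (he : e ≠ 0) {X : M3 F}
    (h0 : (1 + !![-a, 1, 0; -1, 0, 0; 0, 0, 0] * !![c, 0, 0; 0, a, b; 0, d, e]).map σ * X =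
      X * (1 + !![-a, 1, 0; -1, 0, 0; 0, 0, 0] * !![c, 0, 0; 0, a, b; 0, d, e]).map σ)
    (h1 : (1 + !![-e, 0, 1; 0, 0, 0; -1, 0, 0] * !![c, 0, 0; 0, a, b; 0, d, e]).map σ * X =
      X * (1 + !![-e, 0, 1; 0, 0, 0; -1, 0, 0] * !![c, 0, 0; 0, a, b; 0, d, e]).map σ) :
    ∃ s : F, X = s • (1 : M3 F) := by
  have a1 := congrFun (congrFun h0 2) 1
  have a2 := congrFun (congrFun h0 2) 0
  have a3 := congrFun (congrFun h1 1) 2
  have a4 := congrFun (congrFun h1 1) 0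
  have a5 := congrFun (congrFun h0 1) 1
  have a6 := congrFun (congrFun h0 1) 2
  have a7 := congrFun (congrFun h0 1) 0
  have a8 := congrFun (congrFun h1 2) 0
  simp [mul_apply, Fin.sum_univ_three, one_apply, ha, he] at a1 a2 a3 a4 a5 a6 a7 a8
  simp [a1, a3, hc, mul_comm (σ c)] at a2 a4 a5 a6 a7 a8
  refine ⟨X 0 0, ?_⟩
  ext i j
  fin_cases i <;> fin_cases j <;> simp [a1, a2, a3, a4, a5, a6, ← a7, ← a8]

theorem CovN.minus_false [Finite K] [Finite S] (h : CovN ρ) [Group.IsSolvable J]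
    (hJ : ¬ p ∣ Nat.card J) (h3 : ¬ 3 ∣ Nat.card J) (h2 : (2 : K) ≠ 0) (v φ : ι → K)
    (f w : Fin 3 → ι → K) (x y : Fin 3 → SLn ι K) (hx : ∀ a, Tv (x a) v (f a))
    (hy : ∀ a, Tv (y a) (w a) φ) (hf : ¬ Dep (f 0) (f 1)) (hv : v ≠ 0)
    (hj : ∀ a, ρ (x a * (y a)⁻¹) ∈ J) : False := by
  have : Nonempty ι := Fintype.card_pos_iff.1 (by have := h.three; omega)
  have f0 := ne_of_not_dep hf
  have k1 : ∀ a, f a ≠ 0 → (φ ⬝ᵥ v) * (f a ⬝ᵥ w a) = 0 → Dep (f a) φ ∧ φ ⬝ᵥ v = 0 ∧ φ ≠ 0 :=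
    fun a a0 e => by
      have e' := h.unip hJ (hx a) (hy a) (hj a) e
      have b : x a ≠ 1 := by simp [(hx a).eq_one_iff, hv, a0]
      have c := (hx a).dep (e' ▸ hy a) b
      rw [e', Ne, (hy a).eq_one_iff, not_or] at b
      obtain ⟨s, hs⟩ := c.1.symm.exists b.1
      exact ⟨c.2, by rw [hs, dotProduct_smul, (hy a).dot, smul_zero], b.2⟩
  have c0 : φ ⬝ᵥ v ≠ 0 := fun e => by
    have a := k1 0 f0.1 (by rw [e, zero_mul])
    exact hf (a.1.trans (k1 1 f0.2 (by rw [e, zero_mul])).1.symm a.2.2)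
  have g0 : f 0 ⬝ᵥ w 0 ≠ 0 := fun e => c0 (k1 0 f0.1 (by rw [e, mul_zero])).2.1
  have g1 : f 1 ⬝ᵥ w 1 ≠ 0 := fun e => c0 (k1 1 f0.2 (by rw [e, mul_zero])).2.1
  have act : ∀ a u, (x a * (y a)⁻¹).1 *ᵥ u - u =
      (f a ⬝ᵥ u - (φ ⬝ᵥ u) * (f a ⬝ᵥ w a)) • v + (-(φ ⬝ᵥ u)) • w a := fun a u => by
    rw [sn_mul, ← mulVec_mulVec, (hy a).inv.act, (hx a).act]
    simp only [dotProduct_add, dotProduct_smul, neg_dotProduct, smul_eq_mul]
    module
  have hG : (f 0 ⬝ᵥ w 0) * (f 1 ⬝ᵥ w 1) - (f 0 ⬝ᵥ w 1) * (f 1 ⬝ᵥ w 0) ≠ 0 := by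
    let L := inW ρ J (Submodule.span K {v, w 0, w 1}).toAddSubgroup
    have hn : ((Nat.card L : ℕ) : K) ≠ 0 := fun e =>
      h.not_dvd hJ (L := L) (fun g hg => hg.1) ((CharP.cast_eq_zero_iff K p _).1 e)
    have key : ∀ u, ∃ s t : K, ∀ a, a = 0 ∨ a = 1 →
        (Nat.card L : K) * (f a ⬝ᵥ u) + s * (f a ⬝ᵥ w 0) + t * (f a ⬝ᵥ w 1) = 0 := fun u => by
      obtain ⟨z, z1, z2⟩ := exists_avg L _ u fun d hd => hd.2 u
      obtain ⟨r, s, t, e⟩ := Submodule.mem_span_triple.1 z2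
      refine ⟨s, t, fun a ha => ?_⟩
      have e1 := act a z
      rw [show (x a * (y a)⁻¹).1 *ᵥ z = z from z1 _ ⟨hj a, fun u => (act a u).symm ▸
        Submodule.mem_span_triple.2 (by
          rcases ha with rfl | rfl
          exacts [⟨_, _, 0, by rw [zero_smul K (w 1), add_zero]⟩,
            ⟨_, 0, _, by rw [zero_smul K (w 0), add_zero]⟩])⟩,
        sub_self] at e1
      have e2 := congrArg (φ ⬝ᵥ ·) e1
      have e3 := congrArg (f a ⬝ᵥ ·) e1
      have e4 := congrArg (f a ⬝ᵥ ·) e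
      simp only [dotProduct_add, dotProduct_sub, dotProduct_smul, (hx a).dot, (hy a).dot,
        smul_eq_mul, ← Nat.cast_smul_eq_nsmul K, dotProduct_zero, mul_zero, add_zero,
        zero_eq_mul, c0, or_false] at e2 e3 e4
      linear_combination e4 + e2 + e3
    obtain ⟨u, u1, u2⟩ := exists_dual hf 1 0
    obtain ⟨u', u3, u4⟩ := exists_dual hf 0 1
    obtain ⟨s, t, ht⟩ := key u
    obtain ⟨s', t', ht'⟩ := key u'
    have a1 := ht 0 (Or.inl rfl)
    have a2 := ht 1 (Or.inr rfl)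
    have a3 := ht' 0 (Or.inl rfl)
    have a4 := ht' 1 (Or.inr rfl)
    simp only [u1, u2, u3, u4, mul_one, mul_zero, zero_add] at a1 a2 a3 a4
    exact fun e => hn (mul_self_eq_zero.1 (by grind))
  let P : Matrix ι (Fin 3) K := of fun i k => ![v, w 0, w 1] k i
  let R : Matrix (Fin 3) ι K := of ![φ, f 0, f 1]
  have hRP : R * P = !![φ ⬝ᵥ v, 0, 0; 0, f 0 ⬝ᵥ w 0, f 0 ⬝ᵥ w 1; 0, f 1 ⬝ᵥ w 0, f 1 ⬝ᵥ w 1] := by
    ext i j
    fin_cases i <;> fin_cases j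
    exacts [rfl, (hy 0).dot, (hy 1).dot, (hx 0).dot, rfl, rfl, (hx 1).dot, rfl, rfl]
  have hu : IsUnit (R * P).det := by
    simpa [hRP, det_fin_three, ← mul_sub, mul_assoc, c0] using hG
  obtain ⟨Q, hQ, hR⟩ : ∃ Q : Matrix (Fin 3) ι K, Q * P = 1 ∧ R * P * Q = R :=
    ⟨(R * P)⁻¹ * R, by rw [Matrix.mul_assoc, nonsing_inv_mul _ hu],
      by rw [← Matrix.mul_assoc, mul_nonsing_inv _ hu, Matrix.one_mul]⟩
  have hQ' : ∀ Y : Matrix (Fin 3) ι K, Q * (P * Y) = Y := fun Y => by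
    rw [← Matrix.mul_assoc, hQ, Matrix.one_mul]
  let L : Subgroup (SLn ι K) :=
    { carrier := {g | ρ g ∈ J ∧ ∃ Y : M3 K, g.1 = 1 + P * Y * Q}
      mul_mem' := fun {a b} ⟨a1, Y, a2⟩ ⟨b1, Y', b2⟩ => ⟨map_mul ρ a b ▸ J.mul_mem a1 b1,
        Y + Y' + Y * Y', by
          simp only [sn_mul, a2, b2, Matrix.mul_add, Matrix.add_mul, Matrix.mul_assoc, hQ',
            Matrix.mul_one, Matrix.one_mul]
          abel⟩
      one_mem' := ⟨by simp, 0, by simp⟩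
      inv_mem' := fun {a} ⟨a1, Y, a2⟩ => ⟨map_inv ρ a ▸ J.inv_mem a1,
        -Y + Y * Q * (a⁻¹).1 * P * Y, by
          have e1 := sn_inv_mul a
          have e2 := sn_mul_inv a
          rw [a2] at e1 e2
          rw [show P * (-Y + Y * Q * (a⁻¹).1 * P * Y) * Q =
            -(P * Y * Q) + P * Y * Q * (a⁻¹).1 * (P * Y * Q) by
              simp only [Matrix.mul_add, Matrix.add_mul, Matrix.mul_assoc, Matrix.mul_neg,
                Matrix.neg_mul]]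
          generalize P * Y * Q = N, (a⁻¹).1 = I at e1 e2 ⊢
          have : I = 1 - N * I := eq_sub_of_add_eq (by rw [← e2]; noncomm_ring)
          calc I = I * (1 + N) - I * N := by noncomm_ring
            _ = 1 - (1 - N * I) * N := by rw [e1, ← this]
            _ = _ := by noncomm_ring⟩ }
  have hθ : ∀ (g : SLn ι K) (Y : M3 K), g.1 = 1 + P * Y * Q → Q * g.1 * P = 1 + Y := fun g Y e => by
    simp only [e, Matrix.mul_add, Matrix.add_mul, Matrix.mul_assoc, hQ', hQ, Matrix.mul_one]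
  let θ : L →* M3 K :=
    { toFun := fun g => Q * g.1.1 * P
      map_one' := by simpa using hQ
      map_mul' := fun a b => by
        obtain ⟨Y, e⟩ := a.2.2
        obtain ⟨Y', e'⟩ := b.2.2
        show Q * (a.1.1 * b.1.1) * P = Q * a.1.1 * P * (Q * b.1.1 * P)
        simp only [e, e', Matrix.mul_add, Matrix.add_mul, Matrix.mul_assoc, hQ', hQ, Matrix.mul_one,
          Matrix.one_mul] }
  have hθ' : ∀ g, θ g = Q * g.1.1 * P := fun _ => rfl
  have hdet : ∀ g, (θ g).det = 1 := fun g => by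
    obtain ⟨Y, e⟩ := g.2.2
    rw [hθ', hθ _ _ e, ← g.1.2, e, det_one_add_mul_comm, ← Matrix.mul_assoc, hQ, Matrix.one_mul]
  have hinj : ∀ g, θ g = 1 → g = 1 := fun g e => by
    obtain ⟨Y, e'⟩ := g.2.2
    rw [hθ', hθ _ _ e', add_eq_left] at e
    exact Subtype.ext (Subtype.ext (by simpa [e] using e'))
  let F := AlgebraicClosure K
  let θ' : L →* M3 F := (algebraMap K F).mapMatrix.toMonoidHom.comp θ
  have hθ2 : ∀ g, θ' g = (θ g).map (algebraMap K F) := fun _ => rfl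
  let σ : L →* S := ρ.comp L.subtype
  have hσ : σ.range ≤ J := by
    rintro _ ⟨g, rfl⟩
    exact g.2.1
  have hZ : ∀ z ∈ σ.ker, ∃ c : F, θ' z = c • (1 : M3 F) := fun z hz => by
    obtain ⟨c, e⟩ := (h.ker z.1).1 hz
    exact ⟨algebraMap K F c, by
      rw [hθ2, hθ', e, Matrix.mul_smul, Matrix.mul_one, smul_mul, hQ]
      ext i j
      simp [one_apply, apply_ite (algebraMap K F)]⟩
  have hcube : ∀ g (c : F), θ' g = c • (1 : M3 F) → g ^ 3 = 1 := fun g c e => by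
    have := congrArg det e
    rw [hθ2, ← RingHom.mapMatrix_apply, ← RingHom.map_det, hdet, map_one, det_smul, det_one,
      mul_one, Fintype.card_fin] at this
    refine hinj _ (Matrix.map_injective (algebraMap K F).injective ?_)
    show θ' (g ^ 3) = _
    rw [map_pow, e, _root_.smul_pow, ← this]
    simp
  have e0 : (x 0 * (y 0)⁻¹).1 =
      1 + P * (!![-(f 0 ⬝ᵥ w 0), 1, 0; -1, 0, 0; 0, 0, 0] * (R * P)) * Q := by
    rw [Matrix.mul_assoc, Matrix.mul_assoc, hR, (hx 0).mul_val (hy 0).inv, add_assoc]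
    ext i j
    simp [P, R, mul_apply, Fin.sum_univ_three, vecMulVec_apply, -mul_eq_mul_left_iff]
    ring
  have e1 : (x 1 * (y 1)⁻¹).1 =
      1 + P * (!![-(f 1 ⬝ᵥ w 1), 0, 1; 0, 0, 0; -1, 0, 0] * (R * P)) * Q := by
    rw [Matrix.mul_assoc, Matrix.mul_assoc, hR, (hx 1).mul_val (hy 1).inv, add_assoc]
    ext i j
    simp [P, R, mul_apply, Fin.sum_univ_three, vecMulVec_apply, -mul_eq_mul_left_iff]
    ring
  have m0 : x 0 * (y 0)⁻¹ ∈ L := ⟨hj 0, _, e0⟩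
  have m1 : x 1 * (y 1)⁻¹ ∈ L := ⟨hj 1, _, e1⟩
  have : Group.IsSolvable σ.range :=
    Group.isSolvable_of_isSolvable_injective (Subgroup.inclusion_injective hσ)
  obtain ⟨N, n1, -, n2, n3, -⟩ := exists_elem_ab (G := σ.range) (R := ⊤) fun e => by
    have : σ.rangeRestrict ⟨_, m0⟩ ∈ (⊥ : Subgroup σ.range) := e ▸ Subgroup.mem_top _
    have e' := h.tv_eq (hx 0) (hy 0) (mul_inv_eq_one.1 (by
      simpa [σ] using congrArg Subtype.val (Subgroup.mem_bot.1 this)))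
    obtain ⟨s, hs⟩ := ((hy 0).dep (e' ▸ hx 0) fun e => by
      simpa [hv, f0.1] using (hx 0).eq_one_iff.1 (e'.trans e)).2.symm.exists f0.1
    exact c0 (by rw [hs, smul_dotProduct, (hx 0).dot, smul_zero])
  obtain ⟨⟨_, n, rfl⟩, n4, n5⟩ := (Subgroup.nontrivial_iff_exists_ne_one N).1
    ((Subgroup.nontrivial_iff_ne_bot N).2 n2)
  have cop3 := Nat.prime_three.coprime_iff_not_dvd.2 h3
  refine cliff (F := F) (fun e => h2 ((algebraMap K F).injective (by simpa [map_ofNat] using e)))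
    θ' σ.ker hZ (fun e => h3 (e.trans (Subgroup.index_ker σ ▸ Subgroup.card_dvd_of_le hσ)))
    (n := n) (fun g => ?_) (fun a e => n5 (Subtype.ext ?_)) fun X hX => ?_
  · have e1 : n * (g * n * g⁻¹) * n⁻¹ * (g * n * g⁻¹)⁻¹ ∈ σ.ker := by
      have := congrArg (fun y : N => y.1.1) (n3.1.1 ⟨_, n4⟩ ⟨_, n1.conj_mem _ n4 (σ.rangeRestrict g)⟩)
      simp only [MonoidHom.mem_ker, map_mul, map_inv]
      exact commutatorElement_eq_one_iff_mul_comm.2 this
    have cz : ∀ z ∈ σ.ker, ∀ u, Commute z u := fun z hz u => by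
      obtain ⟨c, e⟩ := (h.ker z.1).1 hz
      exact Subtype.ext (Subtype.ext (show z.1.1 * u.1.1 = u.1.1 * z.1.1 by simp [e]))
    have e2 := comm_pow_left (a := n) (b := g * n * g⁻¹) (by group) (cz _ e1 n) (Nat.card J)
    rw [(cz _ ((map_pow σ n _).trans (orderOf_dvd_iff_pow_eq_one.1
      (J.orderOf_dvd_natCard n.2.1))) _).eq, right_eq_mul] at e2
    have e3 := (hZ _ e1).elim (hcube _)
    exact (commutatorElement_eq_one_iff_commute.1 (orderOf_eq_one_iff.1 (Nat.eq_one_of_dvd_coprimes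
      cop3 (orderOf_dvd_of_pow_eq_one e3) (orderOf_dvd_of_pow_eq_one e2)))).map θ'
  · have := pow_char_sq ((Commute.one_right _).smul_right a) e
    rw [← map_pow, _root_.smul_pow, one_pow] at this
    refine eq_one_of_cop (J := J) ((((Fact.out : p.Prime).coprime_iff_not_dvd.2 hJ).pow_left 2).mul_left
      cop3) n.2.1 ?_
    show σ n ^ _ = 1
    rw [← map_pow, pow_mul, hcube _ _ this, map_one]
  · have a0 := hX ⟨_, m0⟩
    have a1 := hX ⟨_, m1⟩
    rw [hθ2, hθ', hθ _ _ e0, hRP] at a0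
    rw [hθ2, hθ', hθ _ _ e1, hRP] at a1
    exact comm3 (algebraMap K F) c0 g0 g1 a0 a1

end Pool.Agent.MP_983df8_al
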