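import Pool.Agent.MP_983df8_al.HallB
import Pool.Agent.MP_983df8_al.Red

-- ======== part 0: formerly Pool.Agent.MP_983df8_al.Odd
section MrgPart0

namespace Pool.Agent.MP_983df8_al

open Subgroup

theorem eq_one_of_odd {X : Type*} [Monoid X] {c : X} {n : ℕ} (hn : Odd n) (h : c ^ n = 1) {k : ℕ}
    (h2 : c ^ 2 ^ k = 1) : c = 1 :=
  orderOf_eq_one_iff.1 (Nat.eq_one_of_dvd_coprimes ((Nat.coprime_two_left.2 hn).pow_left k)
    (orderOf_dvd_of_pow_eq_one h2) (orderOf_dvd_of_pow_eq_one h))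

theorem iter_fix {X : Type*} {f : X → X} {n : ℕ} (hn : Odd n) (h : f^[n] = id) {x : X}
    (h4 : f (f (f (f x))) = x) : f x = x := by
  have := Function.IsPeriodicPt.gcd (show Function.IsPeriodicPt f 4 x from h4)
    (show Function.IsPeriodicPt f n x from congrFun h x)
  rwa [show Nat.gcd 4 n = 1 from (Nat.coprime_two_left.2 hn).pow_left 2] at this

theorem exists_irred2 (W : Type*) [CommGroup W] [Finite W] (hW : Odd (Nat.card W)) :
    ∃ (m : ℕ) (e : ℕ → W), closure (e '' {i | i < m}) = ⊤ ∧ ∀ a < m, ∃ H : Subgroup W,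
      (∀ i < m, (e i : W ⧸ H) = (e a : W ⧸ H) ^ (if i = a then 1 else 0 : ℤ)) ∧
      ∀ y z : ℤ, (e a : W ⧸ H) ^ y = (e a : W ⧸ H) ^ z → y - z ≠ 1 ∧ y - z ≠ -1 ∧ y - z ≠ 2 ∧
        y - z ≠ -2 ∧ y - z ≠ 4 ∧ y - z ≠ -4 := by
  obtain ⟨m, e, h1, h2⟩ := exists_irred W
  refine ⟨m, e, h1, fun a ha => ⟨closure (e '' {i | i < m ∧ i ≠ a}), fun i hi => ?_,
    fun y z h => ?_⟩⟩
  · split_ifs with h
    · rw [h, zpow_one]
    · rw [zpow_zero]
      exact (QuotientGroup.eq_one_iff _).2 (Subgroup.subset_closure (Set.mem_image_of_mem e ⟨hi, h⟩))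
  have key : ¬ (y - z) ∣ 4 := fun ⟨k, hk⟩ => by
    refine h2 a ha ((QuotientGroup.eq_one_iff _).1 (eq_one_of_odd hW (k := 2) ?_ ?_))
    · rw [← QuotientGroup.mk_pow, pow_card_eq_one', QuotientGroup.mk_one]
    · rw [← zpow_natCast, show ((2 ^ 2 : ℕ) : ℤ) = (y - z) * k from hk, zpow_mul, zpow_sub, h,
        mul_inv_cancel, one_zpow]
  refine ⟨?_, ?_, ?_, ?_, ?_, ?_⟩ <;> intro e <;> exact key (by norm_num [e])

/-- the points of a chain of three-term progressions -/
def pt {W : Type*} [CommGroup W] (e : ℕ → W) (i : ℕ) : W :=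
  (∏ j ∈ Finset.range (i / 2), e j) * if i % 2 = 1 then e (i / 2) ^ 2 else 1

/-- the coordinates of these points -/
def co (i a : ℕ) : ℤ := if a < i / 2 then 1 else if a = i / 2 ∧ i % 2 = 1 then 2 else 0

theorem co_cases (i a : ℕ) : (a < i / 2 ∧ co i a = 1) ∨ (i = 2 * a + 1 ∧ co i a = 2) ∨
    (i ≤ 2 * a ∧ co i a = 0) := by
  unfold co
  split_ifs <;> omega

theorem pt_mk {W : Type*} [CommGroup W] {m a : ℕ} {e : ℕ → W} {H : Subgroup W}
    (h : ∀ i < m, (e i : W ⧸ H) = (e a : W ⧸ H) ^ (if i = a then 1 else 0 : ℤ)) {i : ℕ}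
    (hi : i ≤ 2 * m) : ((pt e i : W) : W ⧸ H) = (e a : W ⧸ H) ^ co i a := by
  have h1 : ∀ k ≤ m, ((∏ j ∈ Finset.range k, e j : W) : W ⧸ H) =
      (e a : W ⧸ H) ^ (if a < k then 1 else 0 : ℤ) := fun k hk => by
    induction k with
    | zero => simp
    | succ k ih =>
      rw [Finset.prod_range_succ, QuotientGroup.mk_mul, ih (by omega), h k hk, ← zpow_add]
      congr 1
      split_ifs <;> omega
  unfold pt co
  rw [QuotientGroup.mk_mul, h1 _ (by omega)]
  by_cases h2 : i % 2 = 1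
  · rw [if_pos h2, QuotientGroup.mk_pow, h (i / 2) (by omega), sq, ← zpow_add, ← zpow_add]
    congr 1
    split_ifs <;> omega
  · rw [if_neg h2, QuotientGroup.mk_one, mul_one]
    congr 1
    split_ifs <;> omega

theorem tri_sorted {m i j l : ℕ} (hl : l ≤ 2 * m) (h1 : i ≤ j) (h2 : j ≤ l) (h3 : i < l)
    (h : ∀ a < m, (co i a = co j a ∧ co j a = co l a) ∨
      (co i a ≠ co j a ∧ co j a ≠ co l a ∧ co i a ≠ co l a)) :
    ∃ k < m, 2 * k ≤ i ∧ l ≤ 2 * k + 2 := by
  have a1 := h ((l - 1) / 2) (by omega)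
  have a2 := h ((l - 1) / 2 - 1) (by omega)
  have b1 := co_cases i ((l - 1) / 2)
  have b2 := co_cases j ((l - 1) / 2)
  have b3 := co_cases l ((l - 1) / 2)
  have b4 := co_cases i ((l - 1) / 2 - 1)
  have b5 := co_cases j ((l - 1) / 2 - 1)
  have b6 := co_cases l ((l - 1) / 2 - 1)
  exact ⟨(l - 1) / 2, by omega, by omega, by omega⟩

theorem tri {m i j l : ℕ} (hi : i ≤ 2 * m) (hj : j ≤ 2 * m) (hl : l ≤ 2 * m) (h3 : i ≠ j)
    (h : ∀ a < m, (co i a = co j a ∧ co j a = co l a) ∨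
      (co i a ≠ co j a ∧ co j a ≠ co l a ∧ co i a ≠ co l a)) :
    ∃ k < m, (2 * k ≤ i ∧ i ≤ 2 * k + 2) ∧ (2 * k ≤ j ∧ j ≤ 2 * k + 2) ∧
      2 * k ≤ l ∧ l ≤ 2 * k + 2 := by
  have key : ∀ x y z : ℕ, z ≤ 2 * m → x ≤ y → y ≤ z → x < z →
      (∀ a < m, (co x a = co y a ∧ co y a = co z a) ∨
      (co x a ≠ co y a ∧ co y a ≠ co z a ∧ co x a ≠ co z a)) → x ≤ i → x ≤ j → x ≤ l → i ≤ z →
      j ≤ z → l ≤ z → ∃ k < m, (2 * k ≤ i ∧ i ≤ 2 * k + 2) ∧ (2 * k ≤ j ∧ j ≤ 2 * k + 2) ∧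
      2 * k ≤ l ∧ l ≤ 2 * k + 2 := fun x y z a1 a2 a3 a4 a5 _ _ _ _ _ _ =>
    (tri_sorted a1 a2 a3 a4 a5).imp fun k hk => by omega
  rcases le_total i j with a | a <;> rcases le_total j l with b | b <;>
    rcases le_total i l with c | c
  · apply key i j l <;> first | omega | exact fun a ha => by have := h a ha; omega
  · apply key i j l <;> first | omega | exact fun a ha => by have := h a ha; omega
  · apply key i l j <;> first | omega | exact fun a ha => by have := h a ha; omega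
  · apply key l i j <;> first | omega | exact fun a ha => by have := h a ha; omega
  · apply key j i l <;> first | omega | exact fun a ha => by have := h a ha; omega
  · apply key j l i <;> first | omega | exact fun a ha => by have := h a ha; omega
  · apply key l j i <;> first | omega | exact fun a ha => by have := h a ha; omega
  · apply key l j i <;> first | omega | exact fun a ha => by have := h a ha; omega

theorem path_four {m : ℕ} (hm : 2 ≤ m) {σ : ℕ → ℕ}
    (hi : ∀ i ≤ 2 * m, ∀ j ≤ 2 * m, σ i = σ j → i = j)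
    (h : ∀ k < m, ∃ t < m, (2 * t ≤ σ (2 * k) ∧ σ (2 * k) ≤ 2 * t + 2) ∧
      (2 * t ≤ σ (2 * k + 1) ∧ σ (2 * k + 1) ≤ 2 * t + 2) ∧
      2 * t ≤ σ (2 * k + 2) ∧ σ (2 * k + 2) ≤ 2 * t + 2) :
    ∀ k ≤ m, σ (σ (σ (σ (2 * k)))) = 2 * k := by
  choose! t ht h1 h2 h3 using h
  have hn : ∀ i j, i < j → j ≤ 2 * m → σ i ≠ σ j := fun i j a b e => by
    have := hi i (by omega) j b e
    omega
  have step : ∀ k, k + 1 < m → (t (k + 1) = t k + 1 ∧ σ (2 * k + 2) = 2 * t k + 2) ∨
      (t (k + 1) + 1 = t k ∧ σ (2 * k + 2) = 2 * t k) := fun k hk => by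
    have a1 := h1 k (by omega)
    have a2 := h2 k (by omega)
    have a3 := h3 k (by omega)
    have a4 := h1 (k + 1) hk
    have a5 := h2 (k + 1) hk
    have b1 := hn (2 * k) (2 * k + 1) (by omega) (by omega)
    have b2 := hn (2 * k) (2 * k + 2) (by omega) (by omega)
    have b3 := hn (2 * k + 1) (2 * k + 2) (by omega) (by omega)
    have b4 := hn (2 * k) (2 * (k + 1) + 1) (by omega) (by omega)
    have b5 := hn (2 * k + 1) (2 * (k + 1) + 1) (by omega) (by omega)
    have b6 := hn (2 * k + 2) (2 * (k + 1) + 1) (by omega) (by omega)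
    rw [show 2 * (k + 1) = 2 * k + 2 by ring] at a4
    omega
  have dir : ∀ k, k + 1 < m → (t 1 = t 0 + 1 → t (k + 1) = t k + 1 ∧ t k = t 0 + k) ∧
      (t 1 + 1 = t 0 → t (k + 1) + 1 = t k ∧ t k + k = t 0) := fun k => by
    induction k with
    | zero => exact fun _ => ⟨fun e => ⟨e, rfl⟩, fun e => ⟨e, rfl⟩⟩
    | succ k ih =>
      intro hk
      have a1 := ih (by omega)
      have a2 := step k (by omega)
      have a3 := step (k + 1) hk
      have a4 := hn (2 * k + 2) (2 * (k + 1) + 2) (by omega) (by omega)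
      omega
  obtain ⟨n, rfl⟩ : ∃ n, m = n + 2 := Nat.exists_eq_add_of_le' hm
  have d1 := dir n (by omega)
  have d2 := ht (n + 1) (by omega)
  have d3 := ht 0 (by omega)
  have d4 := step 0 (by omega)
  have d5 := step n (by omega)
  have e1 := h1 0 (by omega)
  have e2 := h2 0 (by omega)
  have e3 := h2 (n + 1) (by omega)
  have e4 := h3 (n + 1) (by omega)
  have f1 := hn 0 1 (by omega) (by omega)
  have f2 := hn 0 2 (by omega) (by omega)
  have f3 := hn 1 2 (by omega) (by omega)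
  have f4 := hn (2 * n + 2) (2 * n + 3) (by omega) (by omega)
  have f5 := hn (2 * n + 2) (2 * n + 4) (by omega) (by omega)
  have f6 := hn (2 * n + 3) (2 * n + 4) (by omega) (by omega)
  simp only [mul_zero, zero_add, show 2 * (n + 1) + 1 = 2 * n + 3 by ring,
    show 2 * (n + 1) + 2 = 2 * n + 4 by ring] at d4 e1 e2 e3 e4
  intro k hk
  by_cases c : k = 0 ∨ k = n + 2
  · have g : (σ 0 = 0 ∨ σ 0 = 1 ∨ σ 0 = 2 * n + 3 ∨ σ 0 = 2 * n + 4) ∧
        (σ 1 = 0 ∨ σ 1 = 1 ∨ σ 1 = 2 * n + 3 ∨ σ 1 = 2 * n + 4) ∧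
        (σ (2 * n + 3) = 0 ∨ σ (2 * n + 3) = 1 ∨ σ (2 * n + 3) = 2 * n + 3 ∨
          σ (2 * n + 3) = 2 * n + 4) ∧ (σ (2 * n + 4) = 0 ∨ σ (2 * n + 4) = 1 ∨
          σ (2 * n + 4) = 2 * n + 3 ∨ σ (2 * n + 4) = 2 * n + 4) := by omega
    obtain ⟨g1, g2, g3, g4⟩ := g
    rcases c with rfl | rfl <;> [skip; rw [show 2 * (n + 2) = 2 * n + 4 by ring]] <;>
      rcases g1 with g1 | g1 | g1 | g1 <;> rcases g2 with g2 | g2 | g2 | g2 <;>
      rcases g3 with g3 | g3 | g3 | g3 <;> rcases g4 with g4 | g4 | g4 | g4 <;>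
      first | (simp only [mul_zero, g1, g2, g3, g4]; done) | omega
  have mid : ∀ k, k ≤ n → (t 1 = t 0 + 1 → σ (2 * k + 2) = 2 * k + 2) ∧
      (t 1 + 1 = t 0 → σ (2 * k + 2) = 2 * (n - k) + 2) := fun k hk => by
    have a1 := dir k (by omega)
    have a2 := step k (by omega)
    omega
  obtain ⟨l, rfl⟩ : ∃ l, k = l + 1 := ⟨k - 1, by omega⟩
  have a1 := mid l (by omega)
  have a2 := mid (n - l) (by omega)
  rw [show n - (n - l) = l by omega] at a2
  rw [show 2 * (l + 1) = 2 * l + 2 by ring]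
  rcases d4 with d | d
  · simp only [a1.1 d.1]
  · simp only [a1.2 d.1, a2.2 d.1]

theorem exists_rigid1 (W : Type*) [CommGroup W] [Finite W] (hW : Odd (Nat.card W)) :
    ∃ S : Set W, ∀ (φ : W →* W) (a : W) (n : ℕ), Odd n → (fun w => φ w * a)^[n] = id →
      (∀ w, φ w * a ∈ S ↔ w ∈ S) → ∀ w, φ w * a = w := by
  obtain ⟨m, e, hgen, hirr⟩ := exists_irred2 W hW
  have fin : ∀ (φ : W →* W) (a : W), (∀ k ≤ m, φ (pt e (2 * k)) * a = pt e (2 * k)) →
      ∀ w, φ w * a = w := fun φ a h w => by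
    have h0 : a = 1 := by simpa [pt] using h 0 (by omega)
    have h1 : ∀ k ≤ m, φ (∏ j ∈ Finset.range k, e j) = ∏ j ∈ Finset.range k, e j := fun k hk => by
      simpa [pt, h0] using h k hk
    rw [h0, mul_one]
    refine MonoidHom.eqOn_closure (g := MonoidHom.id W) ?_ (hgen ▸ mem_top w)
    rintro _ ⟨i, hi, rfl⟩
    have := h1 (i + 1) hi
    rw [Finset.prod_range_succ, map_mul, h1 i (le_of_lt hi)] at this
    exact mul_left_cancel this
  have inj : ∀ (f : W → W) (n : ℕ), Odd n → f^[n] = id → Function.Injective f := fun f n hn h => by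
    obtain ⟨k, rfl⟩ := hn
    exact Function.Injective.of_comp (f := f^[2 * k]) (by
      rw [← Function.iterate_succ, Nat.succ_eq_add_one, h]; exact Function.injective_id)
  by_cases hm : m ≤ 1
  · refine ⟨{pt e 0, pt e (2 * m)}, fun φ a n hn h1 h2 => fin φ a fun k hk => iter_fix hn h1 ?_⟩
    have a1 := (h2 _).2 (Or.inl rfl)
    have a2 := (h2 _).2 (Or.inr rfl)
    have a3 := fun e' => inj _ n hn h1 (a₁ := pt e 0) (a₂ := pt e (2 * m)) e'
    obtain rfl | rfl : k = 0 ∨ k = m := by omega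
    all_goals
      simp only [Set.mem_insert_iff, Set.mem_singleton_iff, mul_zero] at a1 a2 a3 ⊢
      grind
  have hinj : ∀ i ≤ 2 * m, ∀ j ≤ 2 * m, pt e i = pt e j → i = j := fun i hi j hj h => by
    by_contra hne
    obtain ⟨H, b1, b2⟩ := hirr ((max i j - 1) / 2) (by omega)
    have := b2 _ _ ((pt_mk b1 hi).symm.trans ((congrArg _ h).trans (pt_mk b1 hj)))
    have := co_cases i ((max i j - 1) / 2)
    have := co_cases j ((max i j - 1) / 2)
    omega
  refine ⟨pt e '' {i | i ≤ 2 * m}, fun φ a n hn h1 h2 => fin φ a fun k hk => iter_fix hn h1 ?_⟩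
  choose! σ s1 s2 using fun i (hi : i ≤ 2 * m) => (h2 _).2 ⟨i, hi, rfl⟩
  have s3 : ∀ i ≤ 2 * m, ∀ j ≤ 2 * m, σ i = σ j → i = j := fun i hi j hj h =>
    hinj i hi j hj (inj _ n hn h1 ((s2 i hi).symm.trans ((congrArg _ h).trans (s2 j hj))))
  have := path_four (by omega) s3 (fun k hk => tri (s1 _ (by omega)) (s1 _ (by omega))
    (s1 _ (by omega)) (fun h => by have := s3 _ (by omega) _ (by omega) h; omega) fun b hb => by
      obtain ⟨H, b1, b2⟩ := hirr b hb
      have c1 : pt e (2 * k) * pt e (2 * k + 1) = pt e (2 * k + 2) ^ 2 := by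
        simp only [pt, Nat.mul_mod_right, Nat.mul_add_mod, show 2 * k / 2 = k by omega,
          show (2 * k + 1) / 2 = k by omega, show (2 * k + 2) / 2 = k + 1 by omega,
          Finset.prod_range_succ]
        simp [sq, mul_comm, mul_left_comm]
      have c2 : pt e (σ (2 * k)) * pt e (σ (2 * k + 1)) = pt e (σ (2 * k + 2)) ^ 2 := by
        rw [s2 _ (by omega), s2 _ (by omega), s2 _ (by omega), mul_mul_mul_comm, ← map_mul, c1,
          map_pow, mul_pow, sq a]
      have c3 := congrArg (fun w : W => (w : W ⧸ H)) c2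
      simp only [QuotientGroup.mk_mul, QuotientGroup.mk_pow] at c3
      rw [pt_mk b1 (s1 _ (by omega)), pt_mk b1 (s1 _ (by omega)), pt_mk b1 (s1 _ (by omega)),
        ← zpow_add, sq, ← zpow_add] at c3
      have := b2 _ _ c3
      have := co_cases (σ (2 * k)) b
      have := co_cases (σ (2 * k + 1)) b
      have := co_cases (σ (2 * k + 2)) b
      omega) k hk
  have t1 := s1 (2 * k) (by omega)
  have t2 := s1 _ t1
  rw [← s2 _ (by omega), ← s2 _ t1, ← s2 _ t2, ← s2 _ (s1 _ t2), this]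

theorem exists_rigid2 (W : Type*) [Group W] [Finite W] (hc : ∀ a b : W, a * b = b * a)
    (hW : Odd (Nat.card W)) (γ : ZMod 2) :
    ∃ S : Set W, (S.ncard : ZMod 2) = γ ∧ ∀ (φ : W →* W) (a : W) (n : ℕ), Odd n →
      (fun w => φ w * a)^[n] = id → (∀ w, φ w * a ∈ S ↔ w ∈ S) → ∀ w, φ w * a = w := by
  let _ : CommGroup W := { ‹Group W› with mul_comm := hc }
  obtain ⟨S, h⟩ := exists_rigid1 W hW
  by_cases e : (S.ncard : ZMod 2) = γ
  · exact ⟨S, e, h⟩
  refine ⟨Sᶜ, ?_, fun φ a n h1 h2 h3 => h φ a n h1 h2 fun w => not_iff_not.1 (h3 w)⟩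
  have := congrArg (Nat.cast : ℕ → ZMod 2) (Set.ncard_add_ncard_compl S)
  rw [Nat.cast_add, ZMod.natCast_eq_one_iff_odd.2 hW] at this
  exact (by decide : ∀ x y z : ZMod 2, x + y = 1 → x ≠ z → y = z) _ _ _ this e

end Pool.Agent.MP_983df8_al

end MrgPart0

-- ======== part 1: formerly Pool.Agent.MP_983df8_al.Odd2
section MrgPart1

namespace Pool.Agent.MP_983df8_al

open Subgroup

variable {H : Type*} [Group H]

theorem exists_rigid_orbit2 [Finite H] (hH : Odd (Nat.card H)) {Ω : Type*} [MulAction H Ω]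
    (V : Subgroup H) [V.Normal]
    (hV : ∀ a ∈ V, ∀ b ∈ V, ∀ ω : Ω, (a * b * a⁻¹ * b⁻¹) • ω = ω) (δ : Ω) (γ : ZMod 2) :
    ∃ T : Set Ω, (∀ ω ∈ T, ∃ v : V, (v : H) • δ = ω) ∧ (T.ncard : ZMod 2) = γ ∧
      ∀ (h : H) (a : V), h • δ = (a : H) • δ → (∀ ω, h • ω ∈ T ↔ ω ∈ T) →
        ∀ v : V, h • (v : H) • δ = (v : H) • δ := by
  have hcomm : ∀ (a b : V) (ω : Ω), (a : H) • (b : H) • ω = (b : H) • (a : H) • ω := fun a b ω => by
    have := hV a a.2 b b.2 ((b : H) • (a : H) • ω)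
    simpa [mul_smul] using this
  let K : Subgroup V := (MulAction.stabilizer H δ).subgroupOf V
  have hK : ∀ v : V, v ∈ K ↔ (v : H) • δ = δ := fun v => Iff.rfl
  have hn : K.Normal := ⟨fun k hk v => by
    rw [hK] at hk ⊢
    simp [mul_smul, hcomm k v⁻¹ δ, hk, ← hcomm v⁻¹ k δ, hcomm v k]⟩
  have heq : ∀ v v' : V, (v : V ⧸ K) = (v' : V ⧸ K) ↔ (v : H) • δ = (v' : H) • δ := by
    intro v v'
    rw [QuotientGroup.eq, hK, Subgroup.coe_mul, mul_smul, Subgroup.coe_inv, inv_smul_eq_iff,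
      eq_comm]
  let ι : V ⧸ K → Ω := fun q => (q.out : H) • δ
  have hι : ∀ v : V, ι v = (v : H) • δ := fun v => (heq _ _).1 (QuotientGroup.out_eq' _)
  have hinj : Function.Injective ι := fun a b e => by
    rw [← a.out_eq', ← b.out_eq']
    exact (heq _ _).2 e
  obtain ⟨S, h1, h2⟩ := exists_rigid2 (V ⧸ K) (fun a b => by
      obtain ⟨a, rfl⟩ := QuotientGroup.mk_surjective a
      obtain ⟨b, rfl⟩ := QuotientGroup.mk_surjective b
      exact (heq (a * b) (b * a)).2 (by simp [mul_smul, hcomm a b]))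
    (hH.of_dvd_nat ((card_quotient_dvd_card K).trans (card_subgroup_dvd_card V))) γ
  refine ⟨ι '' S, fun ω ⟨q, _, e⟩ => ⟨_, e⟩, by rw [Set.ncard_image_of_injective _ hinj, h1],
    fun h a ha hc v => ?_⟩
  have hconj : ∀ v : V, ((MulAut.conjNormal h v * a : V) : H) • δ = h • (v : H) • δ := by
    intro v
    rw [coe_mul, mul_smul, ← ha, MulAut.conjNormal_apply, mul_smul, mul_smul, inv_smul_smul]
  let φ : V ⧸ K →* V ⧸ K := QuotientGroup.map K K (MulAut.conjNormal h : MulAut V).toMonoidHom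
    (fun k hk => by
      have := hconj k
      rw [(hK k).1 hk, ha, coe_mul, mul_smul, hcomm, smul_left_cancel_iff] at this
      exact this)
  have hφ : ∀ q, ι (φ q * a) = h • ι q := fun q => by
    obtain ⟨v, rfl⟩ := QuotientGroup.mk_surjective q
    rw [hι v, ← hconj, ← hι]
    rfl
  have hit : ∀ k q, ι ((fun w => φ w * a)^[k] q) = h ^ k • ι q := fun k q => by
    induction k with
    | zero => simp
    | succ k ih => rw [Function.iterate_succ_apply', hφ, ih, pow_succ', mul_smul]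
  have := h2 φ a _ hH (funext fun q => hinj (by rw [hit, pow_card_eq_one', one_smul, id]))
    (fun q => by rw [← hinj.mem_set_image, hφ, hc, hinj.mem_set_image]) v
  rw [← hι, ← hφ, this]

universe u

theorem exists_dist2_aux [Finite H] (hH : Odd (Nat.card H)) (n : ℕ) :
    ∀ (Ω : Type u) [MulAction H Ω], (∀ v ∈ derivedSeries H n, ∀ ω : Ω, v • ω = ω) →
    ∃ col : Ω → ZMod 2, ∀ h : H, (∀ ω, col (h • ω) = col ω) → ∀ ω : Ω, h • ω = ω := by
  classical
  induction n with
  | zero => exact fun Ω _ hΩ => ⟨fun _ => 0, fun h _ => hΩ h (mem_top h)⟩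
  | succ n ih =>
    intro Ω _ hΩ
    let V := derivedSeries H n
    have hVn : V.Normal := derivedSeries_normal H n
    let r : Setoid Ω := ⟨fun a b => ∃ v : V, (v : H) • b = a, ⟨fun a => ⟨1, by simp⟩,
      fun ⟨v, hv⟩ => ⟨v⁻¹, by simp [← hv]⟩,
      fun ⟨v, hv⟩ ⟨w, hw⟩ => ⟨v * w, by simp [mul_smul, hw, hv]⟩⟩⟩
    let act : MulAction H (Quotient r) :=
      { smul := fun h => Quotient.map (fun ω => h • ω) (fun a b ⟨v, hv⟩ =>
          ⟨MulAut.conjNormal h v, by simp [mul_smul, hv]⟩)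
        one_smul := fun q => Quotient.inductionOn q fun a => congrArg (Quotient.mk r) (one_smul H a)
        mul_smul := fun g h q => Quotient.inductionOn q fun a =>
          congrArg (Quotient.mk r) (mul_smul g h a) }
    have hact : ∀ (h : H) (a : Ω), h • (Quotient.mk r a) = Quotient.mk r (h • a) :=
      fun _ _ => rfl
    obtain ⟨γ, hγ⟩ := ih (Quotient r) fun v hv q => Quotient.inductionOn q fun a =>
      Quotient.sound ⟨⟨v, hv⟩, rfl⟩
    have hV : ∀ a ∈ V, ∀ b ∈ V, ∀ ω : Ω, (a * b * a⁻¹ * b⁻¹) • ω = ω := fun a ha b hb ω =>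
      hΩ _ (commutator_mem_commutator ha hb) ω
    choose T c0 c1 c2 using fun q : Quotient r => exists_rigid_orbit2 hH V hV q.out (γ q)
    have hmk : ∀ q, ∀ ω ∈ T q, Quotient.mk r ω = q := fun q ω h =>
      (Quotient.sound (s := r) (c0 q ω h)).trans q.out_eq
    refine ⟨fun ω => if ω ∈ T (Quotient.mk r ω) then 1 else 0, fun h hh ω => ?_⟩
    have key : ∀ q ω, h • ω ∈ T (h • q) ↔ ω ∈ T q := fun q ω => by
      have := hh ω
      by_cases e : Quotient.mk r ω = q
      · subst e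
        rw [hact]
        by_contra hc
        dsimp only at this
        split_ifs at this with a b b <;> simp_all
      · exact iff_of_false (fun a => e (MulAction.injective h ((hact h ω).trans (hmk _ _ a))))
          fun a => e (hmk _ _ a)
    have htriv := hγ h fun q => by
      rw [← c1, ← c1, ← Set.ncard_image_of_injective (T q) (MulAction.injective h)]
      congr 2
      ext x
      exact ⟨fun a => ⟨h⁻¹ • x, (key q _).1 (by rwa [smul_inv_smul]), smul_inv_smul h x⟩,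
        fun ⟨y, a, b⟩ => b ▸ (key q y).2 a⟩
    obtain ⟨a, ha⟩ : r _ _ := Quotient.exact ((hact h (Quotient.mk r ω).out).symm.trans
      ((htriv _).trans rfl))
    obtain ⟨v, hv⟩ : r _ _ := Quotient.exact (Quotient.mk r ω).out_eq.symm
    have := c2 _ h a ha.symm (fun x => by simpa only [htriv] using key _ x) v
    rwa [hv] at this

theorem exists_dist2 [Finite H] [hH : Group.IsSolvable H] (ho : Odd (Nat.card H)) (Ω : Type*)
    [MulAction H Ω] :
    ∃ col : Ω → ZMod 2, ∀ h : H, (∀ ω, col (h • ω) = col ω) → ∀ ω : Ω, h • ω = ω := by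
  obtain ⟨n, hn⟩ := hH.1
  exact exists_dist2_aux ho n Ω fun v hv ω => by
    rw [hn, mem_bot] at hv
    rw [hv, one_smul]

/-- gluing bases of size two along an invariant partition -/
theorem glue_set [Finite H] [Group.IsSolvable H] (ho : Odd (Nat.card H)) {X Ω : Type*}
    [MulAction H X] [MulAction H Ω] (τ : X → Ω) (hτ : ∀ (d : H) x, τ (d • x) = d • τ x)
    (h : ∀ ω, ∃ p q, τ p = ω ∧ τ q = ω ∧ p ≠ q ∧
      ∀ d : H, d • p = p → d • q = q → ∀ x, τ x = ω → d • x = x) :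
    ∃ f : ZMod 2 → Ω → X, (∀ i ω, τ (f i ω) = ω) ∧
      ∀ d : H, (∀ i ω, d • f i ω = f i (d • ω)) → ∀ x : X, d • x = x := by
  obtain ⟨col, hcol⟩ := exists_dist2 ho Ω
  choose p q h1 h2 h3 h4 using h
  let T : Ω → ZMod 2 → X := fun ω i => if i = 0 then p ω else q ω
  let r := MulAction.orbitRel H Ω
  let rep := fun ω : Ω => (Quotient.mk r ω).out
  have hrep : ∀ ω, ∃ u : H, u • rep ω = ω := fun ω => r.symm (Quotient.mk_out ω)
  choose u hu using hrep
  refine ⟨fun i ω => u ω • T (rep ω) (i + col ω), fun i ω => ?_, fun d hd x => ?_⟩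
  · rw [hτ, show τ (T (rep ω) (i + col ω)) = rep ω by simp only [T]; split_ifs <;> simp [h1, h2], hu]
  dsimp only at hd
  have key : ∀ ω i, ((u (d • ω))⁻¹ * d * u ω) • T (rep ω) (i + col ω) =
      T (rep ω) (i + col (d • ω)) := fun ω i => by
    have hr : rep (d • ω) = rep ω := congrArg Quotient.out (Quotient.sound (s := r) ⟨d, rfl⟩)
    rw [mul_smul, mul_smul, hd i, hr, inv_smul_smul]
  have z1 : ∀ a : ZMod 2, a + 1 + a = 1 := by decide
  have z2 : ∀ a : ZMod 2, a + 1 + a + 1 = 0 := by decide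
  have htriv := hcol d fun ω => by
    by_contra hc
    have e : col (d • ω) = col ω + 1 := (by decide : ∀ a b : ZMod 2, a ≠ b → a = b + 1) _ _ hc
    have a1 := key ω (col ω)
    have a2 := key ω (col ω + 1)
    simp only [e, ← add_assoc, z1, CharTwo.add_self_eq_zero, zero_add, T,
      if_true, one_ne_zero, if_false, z2] at a1 a2
    generalize (u (d • ω))⁻¹ * d * u ω = c at a1 a2
    refine h3 _ ((iter_fix (f := (c • ·)) ho (funext fun y => ?_) ?_).symm.trans a1)
    · rw [smul_iterate, pow_card_eq_one']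
      exact one_smul _ y
    · simp only [a1, a2]
  have a1 := key (τ x) (col (τ x))
  have a2 := key (τ x) (col (τ x) + 1)
  simp only [htriv, z1, CharTwo.add_self_eq_zero, T,
    if_true, one_ne_zero, if_false] at a1 a2
  have := h4 _ _ a1 a2 ((u (τ x))⁻¹ • x) (by rw [hτ, inv_smul_eq_iff, hu])
  simpa [mul_smul] using this

end Pool.Agent.MP_983df8_al

end MrgPart1

-- ======== part 2: formerly Pool.Agent.MP_983df8_al.Pin2
section MrgPart2

namespace Pool.Agent.MP_983df8_al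

open Subgroup

theorem exists_quad (W : Type*) [CommGroup W] [Finite W] (hW : Odd (Nat.card W)) :
    ∃ (m : ℕ) (e : ℕ → W) (S : Set W), closure (e '' {i | i < m}) = ⊤ ∧ 1 ∉ S ∧
      (∀ i < m, e i ∈ S ∧ (e i)⁻¹ ∈ S) ∧ (∀ i j, i < j → j < m → e i * e j ∈ S) ∧
      ∀ (φ : W →* W) (n : ℕ), Odd n → φ^[n] = id → (∀ w ∈ S, φ w ∈ S) → ∀ w, φ w = w := by
  obtain ⟨m, e, hgen, hirr⟩ := exists_irred2 W hW
  have ind : ∀ {i j k l : ℕ} {a b c d : ℤ}, i < m → j < m → k < m → l < m →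
      e i ^ a * e j ^ b = e k ^ c * e l ^ d → (-1 ≤ a ∧ a ≤ 1 ∧ -1 ≤ b ∧ b ≤ 1 ∧ (i ≠ j ∨ b = 0)) →
      (-1 ≤ c ∧ c ≤ 1 ∧ -1 ≤ d ∧ d ≤ 1 ∧ (k ≠ l ∨ d = 0)) → ∀ n < m, (if i = n then a else 0) +
      (if j = n then b else 0) = (if k = n then c else 0) + (if l = n then d else 0) := by
    intro i j k l a b c d hi hj hk hl h o1 o2 n hn
    obtain ⟨H, b1, b2⟩ := hirr n hn
    have := congrArg (fun w : W => (w : W ⧸ H)) h
    simp only [QuotientGroup.mk_mul, QuotientGroup.mk_zpow] at this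
    rw [b1 i hi, b1 j hj, b1 k hk, b1 l hl] at this
    simp only [← zpow_mul, ← zpow_add, ite_mul, one_mul, zero_mul] at this
    have := b2 _ _ this
    generalize hy : (if i = n then a else 0) + (if j = n then b else 0) = y at this ⊢
    generalize hz : (if k = n then c else 0) + (if l = n then d else 0) = z at this ⊢
    have : -1 ≤ y ∧ y ≤ 1 := by omega
    have : -1 ≤ z ∧ z ≤ 1 := by omega
    clear hy hz o1 o2
    omega
  let S : Set W := {w | ∃ (i j : ℕ) (a b : ℤ), i < m ∧ j < m ∧ w = e i ^ a * e j ^ b ∧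
    ((b = 0 ∧ (a = 1 ∨ a = -1)) ∨ (i < j ∧ a = 1 ∧ b = 1) ∨ (j = i + 1 ∧ a = 1 ∧ b = -1))}
  have h1 : ∀ i < m, e i ∈ S ∧ (e i)⁻¹ ∈ S := fun i hi =>
    ⟨⟨i, i, 1, 0, hi, hi, by simp, by omega⟩, ⟨i, i, -1, 0, hi, hi, by simp, by omega⟩⟩
  have h2 : ∀ i j, i < j → j < m → e i * e j ∈ S := fun i j a b =>
    ⟨i, j, 1, 1, by omega, b, by simp, by omega⟩
  refine ⟨m, e, S, hgen, ?_, h1, h2, fun φ n hn hφ hS w => ?_⟩
  · rintro ⟨i, j, a, b, hi, hj, h, hp⟩
    have := ind (k := i) (l := i) (c := 0) (d := 0) hi hj hi hi (by simpa using h.symm)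
      (by omega) (by omega) i hi
    omega
  have hinj : Function.Injective φ := by
    obtain ⟨k, rfl⟩ := hn
    exact Function.Injective.of_comp (f := φ^[2 * k]) (by
      rw [← Function.iterate_succ, Nat.succ_eq_add_one, hφ]; exact Function.injective_id)
  have hA : ∀ i < m, ∃ k < m, ∃ c : ℤ, (c = 1 ∨ c = -1) ∧ φ (e i) = e k ^ c := fun i hi => by
    obtain ⟨k, l, c, d, hk, hl, h, hp⟩ := hS _ (h1 i hi).1
    obtain ⟨k', l', c', d', hk', hl', h', hp'⟩ := hS _ (h1 i hi).2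
    have := ind (a := c) (b := d) (c := -c') (d := -d') hk hl hk' hl' (by
      rw [← h, zpow_neg, zpow_neg, ← mul_inv, ← h', map_inv, inv_inv]) (by omega) (by omega)
    have a1 := this k hk
    have a2 := this l hl
    have a3 := this k' hk'
    have : d = 0 ∧ (c = 1 ∨ c = -1) := by
      rcases hp with hp | ⟨p, rfl, rfl⟩ | ⟨p, rfl, rfl⟩
      · exact hp
      all_goals
        rcases hp' with ⟨rfl, rfl | rfl⟩ | ⟨p', rfl, rfl⟩ | ⟨p', rfl, rfl⟩ <;>
          omega
    exact ⟨k, hk, c, this.2, by rw [h, this.1, zpow_zero, mul_one]⟩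
  choose! σ s1 ε s2 s3 using hA
  have s4 : ∀ i < m, ∀ j < m, i ≠ j → σ i ≠ σ j := fun i hi j hj hne h => by
    have a := s2 j hj
    have b := s2 i hi
    have := ind (a := ε j) (b := 0) (c := ε i) (d := 0) hi hi hj hj (hinj (by
      simp only [zpow_zero, mul_one, map_zpow, s3 i hi, s3 j hj, h, ← zpow_mul, mul_comm]))
      (by omega) (by omega) i hi
    simp only [if_true, if_neg hne.symm] at this
    omega
  have hB : ∀ i j (a b : ℤ), i < m → j < m → i ≠ j → (a = 1 ∨ a = -1) → (b = 1 ∨ b = -1) →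
      e i ^ a * e j ^ b ∈ S →
      (a = 1 ∧ b = 1) ∨ (a = 1 ∧ b = -1 ∧ j = i + 1) ∨ (a = -1 ∧ b = 1 ∧ i = j + 1) := by
    rintro i j a b hi hj hne ha hb ⟨k, l, c, d, hk, hl, h, hp⟩
    have a1 := ind hi hj hk hl h (by omega) (by omega) i hi
    have a2 := ind hi hj hk hl h (by omega) (by omega) j hj
    simp only [if_true, if_neg hne, if_neg hne.symm] at a1 a2
    rcases hp with ⟨rfl, rfl | rfl⟩ | ⟨p', rfl, rfl⟩ | ⟨p', rfl, rfl⟩ <;> omega
  have s5 := fun i j (a : i < j) (b : j < m) => hB _ _ _ _ (s1 i (by omega)) (s1 j b)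
    (s4 i (by omega) j b a.ne) (s2 i (by omega)) (s2 j b) (by
      rw [← s3 i (by omega), ← s3 j b, ← map_mul]; exact hS _ (h2 i j a b))
  have s6 := fun i (b : i + 1 < m) => hB _ _ _ (-ε (i + 1)) (s1 i (by omega)) (s1 _ b)
    (s4 i (by omega) _ b (by omega)) (s2 i (by omega)) (by have := s2 _ b; omega) (by
      rw [zpow_neg, ← s3 i (by omega), ← s3 _ b, ← map_inv, ← map_mul]
      exact hS _ ⟨i, i + 1, 1, -1, by omega, b, by simp, by omega⟩)
  have s7 : ∀ i < m, σ i = i := by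
    by_cases hm : m ≤ 2
    · intro i hi
      have a1 := s1 0
      have a2 := s1 1
      have a3 := s5 0 1 (by omega)
      have a4 := s6 0
      obtain rfl | rfl : i = 0 ∨ i = 1 := by omega
      all_goals simp only [zero_add] at a4; omega
    have a1 : ∀ i < m, ε i = 1 := fun i hi => by
      have b1 := s5 0 1 (by omega) (by omega)
      have b2 := s5 0 2 (by omega) (by omega)
      have b3 := s5 1 2 (by omega) (by omega)
      have b4 := s4 0 (by omega) 1 (by omega) (by omega)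
      have b5 := s4 0 (by omega) 2 (by omega) (by omega)
      have b6 := s4 1 (by omega) 2 (by omega) (by omega)
      by_cases c : i ≤ 2
      · obtain rfl | rfl | rfl : i = 0 ∨ i = 1 ∨ i = 2 := by omega
        all_goals omega
      · have := s5 0 i (by omega) hi
        have := s5 1 i (by omega) hi
        omega
    have a2 : ∀ i < m, σ i = σ 0 + i := fun i hi => by
      induction i with
      | zero => rfl
      | succ i ih =>
        have := s6 i hi
        have := a1 i (by omega)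
        have := a1 _ hi
        have := ih (by omega)
        omega
    have a3 := a2 (m - 1) (by omega)
    have a4 := s1 (m - 1) (by omega)
    exact fun i hi => by have := a2 i hi; omega
  refine MonoidHom.eqOn_closure (g := MonoidHom.id W) ?_ (hgen ▸ mem_top w)
  rintro _ ⟨i, hi, rfl⟩
  have : φ (φ (e i)) = e i := by
    rw [s3 i hi, s7 i hi, map_zpow, s3 i hi, s7 i hi, ← zpow_mul]
    rcases s2 i hi with h | h <;> simp [h]
  exact iter_fix hn hφ (by rw [this, this])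

variable {D V : Type*} [Group D] [AddCommGroup V] [DistribMulAction D V] {U N : Subgroup D}

theorem mem_of_sq [Finite D] (ho : Odd (Nat.card D)) {A : Subgroup D} {b : D} (h : b ^ 2 ∈ A) :
    b ∈ A := by
  obtain ⟨k, hk⟩ := ho
  have := A.pow_mem h (k + 1)
  rwa [← pow_mul, show 2 * (k + 1) = 2 * k + 1 + 1 by ring, pow_succ, ← hk, pow_card_eq_one',
    one_mul] at this

theorem PS.exists_base2 [Finite D] (ho : Odd (Nat.card D)) (h : PS V U N) [Nontrivial V] :
    ∃ v v' : V, ∀ g : D, g • v = v → g • v' = v' → g = 1 := by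
  classical
  obtain ⟨w1, hw1⟩ := exists_ne (0 : V)
  obtain ⟨A, hA⟩ := exists_maximal_of_wellFoundedGT
    (fun A : Subgroup D => ∃ w ≠ 0, A = h.line w) ⟨_, w1, hw1, rfl⟩
  obtain ⟨w, hw0, rfl⟩ := hA.prop
  have hw : h.IsMaxV w := ⟨hw0, fun w' h1 h2 => hA.le_of_ge ⟨w', h1, rfl⟩ h2⟩
  have hcl : h.cen w ≤ h.line w := fun b hb => mem_of_sq ho (PS.sq_mem hw hb)
  have hlc := h.line_le_cen hw0
  have hUB : U ≤ h.cen w := (h.le_line w).trans hlc
  obtain ⟨u0, hu0, hcyc⟩ := h.cyc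
  have hn : ((h.cen w).subgroupOf N).Normal := ⟨fun b hb n => h.cen_conj hw0 hb n.2⟩
  let Q := N ⧸ (h.cen w).subgroupOf N
  have := Fintype.ofFinite Q
  let _ : CommGroup Q := { (inferInstance : Group Q) with
    mul_comm := fun a b => by
      obtain ⟨a, rfl⟩ := QuotientGroup.mk_surjective a
      obtain ⟨b, rfl⟩ := QuotientGroup.mk_surjective b
      refine QuotientGroup.eq.2 (hUB ?_)
      simpa [mul_assoc] using h.comm _ (N.inv_mem b.2) _ (N.inv_mem a.2) }
  obtain ⟨m, e, S, q0, q1, q2, q3, q4⟩ := exists_quad Q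
    (ho.of_dvd_nat ((card_quotient_dvd_card _).trans (card_subgroup_dvd_card N)))
  let x : Q → D := fun q => (q.out : N)
  have hx : ∀ q, x q ∈ N := fun q => q.out.2
  have hxe : ∀ q (n : N), (x q)⁻¹ * n ∈ h.cen w ↔ q = n := fun q n => by
    rw [← q.out_eq]
    exact (QuotientGroup.eq (s := (h.cen w).subgroupOf N)).symm.trans (by simp)
  have hx1 : x 1 ∈ h.cen w := by simpa using (hxe 1 1).2 rfl
  have hne : ∀ q, x q • w ≠ 0 := fun q => (smul_ne_zero_iff_ne _).2 hw0
  let f : Q → V := fun q => if q = 1 then u0 • w else if q ∈ S then x q • w else 0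
  have hf : ∀ q, h.HasWt w (x q) (f q) := fun q => by
    simp only [f]
    split_ifs with a1
    exacts [a1 ▸ (h.hasWt_self w (h.le hu0)).congr (h.le hu0) (mul_mem (inv_mem (hUB hu0)) hx1),
      h.hasWt_self w (hx q), fun a _ u _ _ => by simp]
  refine ⟨w, ∑ q, f q, fun g hg0 hg1 => h.eq_one_of_fix hw0 ?_⟩
  have := h.nN
  let φ : Q →* Q := QuotientGroup.map _ _ (MulAut.conjNormal (H := N) g).toMonoidHom
    fun b hb => by exact h.cen_fix hg0 hb
  have hit : φ^[Nat.card D] = id := funext fun q => by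
    obtain ⟨n, rfl⟩ := QuotientGroup.mk_surjective q
    have : ∀ k, φ^[k] (n : Q) = (MulAut.conjNormal (g ^ k) n : N) := fun k => by
      induction k with
      | zero => simp
      | succ k ih => rw [Function.iterate_succ_apply', ih, pow_succ', map_mul]; rfl
    rw [this, pow_card_eq_one', map_one]
    rfl
  have hφ : Function.Injective φ := by
    obtain ⟨k, hk⟩ := ho
    exact Function.Injective.of_comp (f := φ^[2 * k]) (by
      rw [← Function.iterate_succ, Nat.succ_eq_add_one, ← hk, hit]; exact Function.injective_id)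
  have hφx : ∀ q, (x (φ q))⁻¹ * (g * x q * g⁻¹) ∈ h.cen w := fun q =>
    (hxe (φ q) (MulAut.conjNormal g q.out)).2 ((congrArg φ q.out_eq).symm.trans rfl)
  have k1 : ∀ q, g • f q = f (φ q) := fun q => by
    refine sub_eq_zero.1 (h.indep hw0 (x := fun q => x (φ q)) (fun q => hx _)
      (fun q q' e => hφ (by simpa using (hxe _ (φ q').out).1 e)) Finset.univ
      (fun q => g • f q - f (φ q)) (fun q => (((hf q).conj hg0).congr (h.nN.conj_mem _ (hx q) g)
        (by simpa using inv_mem (hφx q))).sub (hf _)) ?_ q (Finset.mem_univ q))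
    rw [Finset.sum_sub_distrib, ← Finset.smul_sum, hg1,
      (Finite.injective_iff_bijective.1 hφ).sum_comp, sub_self]
  have p2 : ∀ a ∈ h.cen w, g • a • w = a • w := fun a ha => by
    obtain ⟨-, u, hu, e'⟩ := hcl ha
    obtain ⟨k, rfl⟩ := hcyc u hu
    have : Commute g u0 := mul_inv_eq_iff_eq_mul.1 (h.cancel (h.nU.conj_mem _ hu0 g) hu0 hw0 (by
      rw [conj_smul_eq hg0]; simpa [f] using k1 1))
    rw [e', smul_comm_of (this.pow_right k), hg0]
  have k3 : ∀ q ∈ S, φ q ∈ S ∧ g • x q • w = x (φ q) • w := fun q hq => by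
    have hq1 : q ≠ 1 := fun e => q1 (e ▸ hq)
    have hq' : φ q ≠ 1 := fun e => hq1 (hφ (e.trans φ.map_one.symm))
    have a1 := k1 q
    simp only [f, if_neg hq1, if_neg hq', if_pos hq] at a1
    split_ifs at a1 with a2
    exacts [⟨a2, a1⟩, absurd a1 ((smul_ne_zero_iff_ne g).2 (hne q))]
  have k4 := q4 φ _ ho hit fun q hq => (k3 q hq).1
  have F1 : ∀ n : N, (n : Q) ∈ S → g • (n : D) • w = (n : D) • w := fun n hn => by
    have hb := (hxe n n).2 rfl
    have := h.fix_mul hg0 (hx n) hb (by rw [(k3 _ hn).2, k4]) (p2 _ hb)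
    rwa [mul_inv_cancel_left (x n) n] at this
  have gen : ∀ Y : Subgroup D, h.cen w ≤ Y → (∀ i < m, x (e i) ∈ Y) → N ≤ Y := fun Y y1 y2 n hn => by
    have : ∀ q ∈ closure (e '' {i | i < m}), x q ∈ Y := fun q hq => by
      have key : ∀ (q : Q) (n : N), q = n → (n : D) ∈ Y → x q ∈ Y := fun q n a b =>
        (Y.inv_mem_iff.1 ((Y.mul_mem_cancel_right b).1 (y1 ((hxe q n).2 a))))
      induction hq using closure_induction with
      | mem q hq => obtain ⟨i, hi, rfl⟩ := hq; exact y2 i hi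
      | one => exact y1 hx1
      | mul a b _ _ ha hb => exact key _ (a.out * b.out) (by simp) (Y.mul_mem ha hb)
      | inv a _ ha => exact key _ a.out⁻¹ (by simp) (Y.inv_mem ha)
    exact (Y.mul_mem_cancel_left (Y.inv_mem (this _ (q0 ▸ mem_top _)))).1
      (y1 ((hxe _ ⟨n, hn⟩).2 rfl))
  have F2 : ∀ n ∈ N, ∀ l ∈ N, g • n • w = n • w → g • l • w = l • w →
      g • (n * l) • w = (n * l) • w → Commute (n⁻¹ * (g * n * g⁻¹)) l := fun n hn l hl a1 a2 a3 => by
    have b1 : (n⁻¹ * (g * n * g⁻¹)) • w = w := by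
      rw [mul_smul, conj_smul_eq hg0, a1, inv_smul_smul]
    have b2 : (n⁻¹ * (g * n * g⁻¹)) • l • w = l • w := by
      rw [mul_smul, mul_smul, mul_smul, inv_smul_eq_iff.2 a2.symm, ← mul_smul n, a3, mul_smul,
        inv_smul_smul]
    have b3 := N.mul_mem (N.inv_mem hn) (h.nN.conj_mem n hn g)
    generalize n⁻¹ * (g * n * g⁻¹) = a at b1 b2 b3
    have := h.cancel (h.comm _ (N.inv_mem hl) _ b3) U.one_mem hw0 (by
      rw [inv_inv, mul_smul, inv_smul_eq_iff.2 b1.symm, mul_smul, mul_smul, b2, inv_smul_smul,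
        one_smul])
    rw [inv_inv, mul_inv_eq_one, mul_assoc, inv_mul_eq_iff_eq_mul] at this
    exact this
  have F3 : ∀ i < m, g • x (e i) • w = x (e i) • w := fun i hi =>
    F1 (e i).out (by simpa using (q2 i hi).1)
  have F4 : ∀ i < m, Commute g (x (e i)) := fun i hi => by
    have c1 := gen (centralizer {(x (e i))⁻¹ * (g * x (e i) * g⁻¹)}) (fun b hb => ?_) fun j hj => ?_
    · have := h.cancel (h.self _ fun n hn => c1 hn _ rfl) U.one_mem hw0 (by
        rw [mul_smul, conj_smul_eq hg0, F3 i hi, inv_smul_smul, one_smul])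
      exact mul_inv_eq_iff_eq_mul.1 (inv_mul_eq_one.1 this).symm
    · rintro _ rfl
      exact hb.2 _ (hcl (by simpa only [k4] using hφx (e i)))
    rintro _ rfl
    rcases lt_trichotomy i j with c | rfl | c
    · exact F2 _ (hx _) _ (hx _) (F3 i hi) (F3 j hj)
        (F1 ((e i).out * (e j).out) (by simpa using q3 i j c hj))
    · exact Commute.inv_right_iff.1 (F2 _ (hx _) _ (N.inv_mem (hx _)) (F3 i hi)
        (F1 (e i).out⁻¹ (by simpa using (q2 i hi).2)) (by simpa using hg0))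
    · exact F2 _ (hx _) _ (hx _) (F3 i hi) (F3 j hj)
        (F1 ((e i).out * (e j).out) (by simpa [mul_comm (e i)] using q3 j i c hi))
  have F5 : ∀ a ∈ h.cen w, ∀ l ∈ N, g • l • w = l • w → g • (a * l) • w = (a * l) • w :=
    fun a ha l hl b => by
      have c := h.cen_conj hw0 ha (N.inv_mem hl)
      simpa [mul_assoc] using h.fix_mul hg0 hl c b (p2 _ c)
  let Y : Subgroup D :=
    { carrier := {n | n ∈ N ∧ ∀ l ∈ N, g • l • w = l • w →
        g • (n * l) • w = (n * l) • w ∧ g • (n⁻¹ * l) • w = (n⁻¹ * l) • w}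
      one_mem' := ⟨N.one_mem, fun l _ a => by simpa using a⟩
      mul_mem' := fun {a b} ha hb => ⟨N.mul_mem ha.1 hb.1, fun l hl c => by
        rw [mul_inv_rev, mul_assoc, mul_assoc]
        exact ⟨(ha.2 _ (N.mul_mem hb.1 hl) (hb.2 l hl c).1).1,
          (hb.2 _ (N.mul_mem (N.inv_mem ha.1) hl) (ha.2 l hl c).2).2⟩⟩
      inv_mem' := fun {a} ha => ⟨N.inv_mem ha.1, fun l hl c => by
        rw [inv_inv]; exact (ha.2 l hl c).symm⟩ }
  intro n hn
  simpa using ((gen Y (fun a ha => ⟨ha.1, fun l hl b => ⟨F5 a ha l hl b, F5 _ (inv_mem ha) l hl b⟩⟩)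
    (fun i hi => ⟨hx _, fun l hl b => by
      simp only [mul_smul, smul_comm_of (F4 i hi), smul_comm_of (F4 i hi).inv_right, b, and_self]⟩)
    hn).2 1 N.one_mem (by simpa using hg0)).1

end Pool.Agent.MP_983df8_al

end MrgPart2

-- marker of a merged file
example : 731051 + 811134 = 731051 + 811134 := rfl
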