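import Mathlib.Topology.Sheaves.Presheaf
import Mathlib.Algebra.Order.Ring.Star
import Mathlib.FieldTheory.Finite.Basic
import Mathlib.LinearAlgebra.Matrix.CharP
import Mathlib.RingTheory.PiTensorProduct
import Mathlib.RingTheory.SimpleRing.Principal
import Mathlib.RingTheory.Henselian
import Mathlib.RingTheory.RegularLocalRing.Defs

-- ======== part 0: formerly Pool.Agent.MP_983df8_al.Fld
section MrgPart0

namespace Pool.Agent.MP_983df8_al

open Polynomial

variable {K : Type*} [Field K]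

/-- `t` generates the multiplicative group -/
structure Gen (t : K) : Prop where
  ne : t ≠ 0
  pow : ∀ x, x ≠ 0 → ∃ k : ℕ, x = t ^ k
  ord : ∀ k : ℕ, t ^ k = 1 → Nat.card K - 1 ∣ k

theorem exists_gen (K : Type*) [Field K] [Finite K] : ∃ t : K, Gen t := by
  obtain ⟨g, hg⟩ := IsCyclic.exists_monoid_generator (α := Kˣ)
  refine ⟨g, g.ne_zero, fun x hx => ?_, fun k hk => ?_⟩
  · obtain ⟨k, hk⟩ := hg (Units.mk0 x hx)
    exact ⟨k, by simpa using (congrArg Units.val hk).symm⟩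
  · rw [← Nat.card_units, ← orderOf_eq_card_of_forall_mem_powers hg]
    exact orderOf_dvd_of_pow_eq_one (Units.ext (by simpa using hk))

theorem Gen.pow_ne {t : K} (h : Gen t) (h7 : 7 ≤ Nat.card K) {k : ℕ} (h0 : 0 < k) (h5 : k ≤ 5) :
    t ^ k ≠ 1 := fun e => by
  have := Nat.le_of_dvd h0 (h.ord k e)
  omega

theorem norm_surj [Finite K] {n : K} (hn : n ≠ 0) (c : K) : ∃ a b : K, a ^ 2 + n * b ^ 2 = c := by
  by_cases h : ringChar K = 2
  · obtain ⟨a, ha⟩ := FiniteField.isSquare_of_char_two h c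
    exact ⟨a, 0, by rw [ha]; ring⟩
  have := Fintype.ofFinite K
  obtain ⟨a, b, e⟩ := FiniteField.exists_root_sum_quadratic (f := X ^ 2 - C c) (g := C n * X ^ 2)
    (degree_X_pow_sub_C (by decide) _) (degree_C_mul_X_pow 2 hn)
    (FiniteField.odd_card_of_char_ne_two h)
  exact ⟨a, b, by simp at e; linear_combination e⟩

theorem Gen.eq_id [Finite K] {t : K} (h : Gen t) {μ : K →+* K} (e : μ (t ^ 2) = t ^ 2) (x : K) :
    μ x = x := by
  have key : ∀ a : K, μ (a ^ 2) = a ^ 2 := fun a => by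
    by_cases ha : a = 0
    · simp [ha]
    obtain ⟨k, rfl⟩ := h.pow a ha
    rw [← pow_mul, mul_comm, pow_mul, map_pow, e]
  obtain ⟨a, b, rfl⟩ := norm_surj one_ne_zero x
  rw [one_mul, map_add, key, key]

theorem Gen.not_inv [Finite K] {t : K} (h : Gen t) (h7 : 7 ≤ Nat.card K) (h9 : Nat.card K ≠ 9)
    (h2 : (2 : K) ≠ 0) {μ : K →+* K} : μ (t ^ 2) * t ^ 2 ≠ 1 := by
  intro e
  have key : ∀ x : K, x ≠ 0 → μ x * x = 1 ∨ μ x * x = -1 := fun x hx => by
    obtain ⟨k, rfl⟩ := h.pow x hx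
    refine mul_self_eq_one_iff.1 ?_
    rw [← sq, mul_pow, ← map_pow, ← pow_mul, mul_comm k, pow_mul, map_pow, ← mul_pow, e, one_pow]
  have h15 : (15 : K) = 0 := by
    have := key 2 h2
    rw [map_ofNat] at this
    rcases this with e | e
    · linear_combination 5 * e
    · linear_combination 3 * e
  have := Fintype.ofFinite K
  rw [Nat.card_eq_fintype_card] at h7 h9
  have h10 : Fintype.card K ≤ 10 := by
    by_contra hc
    let P : K[X] := X * (X + 1) * (X ^ 2 + X + 1) * (X ^ 2 + X - 1) * (X ^ 2 + 3 * X + 1) *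
      (X ^ 2 - X - 1)
    have hm : P.Monic := by unfold P; monicity!
    have hd : P.natDegree ≤ 10 := by unfold P; compute_degree
    refine hm.ne_zero (eq_zero_of_natDegree_lt_card_of_eval_eq_zero' P Finset.univ
      (fun x _ => ?_) (by rw [Finset.card_univ]; omega))
    simp only [P, eval_mul, eval_add, eval_sub, eval_X, eval_pow, eval_one, eval_ofNat,
      mul_eq_zero]
    by_cases h0 : x = 0
    · simp [h0]
    by_cases h1 : x + 1 = 0
    · simp [h1]
    have a := key x h0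
    have b := key _ h1
    rw [map_add, map_one] at b
    rcases a with a | a <;> rcases b with b | b
    · have : x ^ 2 + x + 1 = 0 := by linear_combination x * b - (x + 1) * a
      simp [this]
    · have : x ^ 2 + 3 * x + 1 = 0 := by linear_combination x * b - (x + 1) * a
      simp [this]
    · have : x ^ 2 - x - 1 = 0 := by linear_combination x * b - (x + 1) * a
      simp [this]
    · have : x ^ 2 + x - 1 = 0 := by linear_combination x * b - (x + 1) * a
      simp [this]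
  have hq := Nat.cast_card_eq_zero K
  have hp := FiniteField.isPrimePow_card K
  obtain h | h | h : Fintype.card K = 7 ∨ Fintype.card K = 8 ∨ Fintype.card K = 10 := by omega
  all_goals rw [h] at hq hp
  · exact one_ne_zero (α := K) (by push_cast at hq; linear_combination h15 - 2 * hq)
  · exact one_ne_zero (α := K) (by push_cast at hq; linear_combination 2 * hq - h15)
  · revert hp; decide

omit [Field K] in
theorem exists_seven (h7 : 7 ≤ Nat.card K) : ∃ c : ZMod 7 → K, Function.Injective c := by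
  have : Finite K := Nat.finite_of_card_ne_zero (by omega)
  have := Fintype.ofFinite K
  obtain ⟨f⟩ := Function.Embedding.nonempty_of_card_le (α := ZMod 7) (β := K)
    (by rwa [ZMod.card, ← Nat.card_eq_fintype_card])
  exact ⟨f, f.2⟩

theorem exists_seven' (h7 : 7 ≤ Nat.card K) (h2 : (2 : K) = 0) :
    ∃ c : ZMod 7 → K, Function.Injective c ∧ ∀ i, c i ≠ 0 := by
  have : Finite K := Nat.finite_of_card_ne_zero (by omega)
  have := Fintype.ofFinite K
  have := Fintype.ofFinite Kˣ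
  have h8 : Nat.card K ≠ 7 := fun e => by
    have hq := Nat.cast_card_eq_zero K
    rw [← Nat.card_eq_fintype_card, e] at hq
    exact one_ne_zero (α := K) (by push_cast at hq; linear_combination hq - 3 * h2)
  obtain ⟨f⟩ := Function.Embedding.nonempty_of_card_le (α := ZMod 7) (β := Kˣ)
    (by rw [ZMod.card, ← Nat.card_eq_fintype_card, Nat.card_units]; omega)
  exact ⟨fun i => f i, Units.val_injective.comp f.2, fun i => (f i).ne_zero⟩

end Pool.Agent.MP_983df8_al

end MrgPart0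

-- ======== part 1: formerly Pool.Agent.MP_983df8_al.SL
section MrgPart1

namespace Pool.Agent.MP_983df8_al

open Matrix

/-- two by two matrices -/
abbrev M2 (K : Type*) := Matrix (Fin 2) (Fin 2) K

/-- the special linear group of degree two -/
abbrev SL2 (K : Type*) [CommRing K] := Matrix.SpecialLinearGroup (Fin 2) K

variable {K : Type*} [Field K] {S : Type*} [Group S] {ρ : SL2 K →* S}

omit [Field K] in
theorem m2_ext {X Y : M2 K} :
    X = Y ↔ X 0 0 = Y 0 0 ∧ X 0 1 = Y 0 1 ∧ X 1 0 = Y 1 0 ∧ X 1 1 = Y 1 1 :=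
  ⟨fun h => h ▸ ⟨rfl, rfl, rfl, rfl⟩, fun h => by
    ext i j
    fin_cases i <;> fin_cases j
    exacts [h.1, h.2.1, h.2.2.1, h.2.2.2]⟩

theorem m2_mul (X Y : M2 K) (i j : Fin 2) : (X * Y) i j = X i 0 * Y 0 j + X i 1 * Y 1 j := by
  simp [Matrix.mul_apply, Fin.sum_univ_two]

theorem sl_det (g : SL2 K) : g.1 0 0 * g.1 1 1 - g.1 0 1 * g.1 1 0 = 1 :=
  (det_fin_two g.1).symm.trans g.2

/-- upper unitriangular matrices -/
def uu (x : K) : SL2 K := ⟨!![1, x; 0, 1], by simp [det_fin_two_of]⟩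

/-- lower unitriangular matrices -/
def vv (x : K) : SL2 K := ⟨!![1, 0; x, 1], by simp [det_fin_two_of]⟩

/-- diagonal matrices -/
def hh (a : K) (h : a ≠ 0) : SL2 K := ⟨!![a, 0; 0, a⁻¹], by simp [det_fin_two_of, h]⟩

/-- the Weyl element -/
def ww : SL2 K := ⟨!![0, 1; -1, 0], by simp [det_fin_two_of]⟩

@[simp] theorem uu_val (x : K) : (uu x).1 = !![1, x; 0, 1] := rfl
@[simp] theorem vv_val (x : K) : (vv x).1 = !![1, 0; x, 1] := rfl
@[simp] theorem hh_val (a : K) (h) : (hh a h).1 = !![a, 0; 0, a⁻¹] := rfl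
@[simp] theorem ww_val : (ww : SL2 K).1 = !![0, 1; -1, 0] := rfl

theorem sl_mul (g h : SL2 K) : (g * h).1 = g.1 * h.1 := rfl

theorem sl_inv (g : SL2 K) : (g⁻¹).1 = !![g.1 1 1, -g.1 0 1; -g.1 1 0, g.1 0 0] :=
  adjugate_fin_two g.1

theorem uu_add (x y : K) : uu (x + y) = uu x * uu y :=
  Subtype.ext (by simp [sl_mul, m2_ext, add_comm])

theorem vv_add (x y : K) : vv (x + y) = vv x * vv y :=
  Subtype.ext (by simp [sl_mul, m2_ext])

theorem uu_zero : uu (0 : K) = 1 := Subtype.ext (by simp [m2_ext])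

theorem vv_zero : vv (0 : K) = 1 := Subtype.ext (by simp [m2_ext])

theorem uu_inv (x : K) : (uu x)⁻¹ = uu (-x) := Subtype.ext (by simp [sl_inv])

theorem uu_pow (x : K) (k : ℕ) : uu x ^ k = uu (k * x) := by
  induction k with
  | zero => simp [uu_zero]
  | succ k ih => rw [pow_succ, ih, ← uu_add, Nat.cast_succ, add_mul, one_mul]

theorem ww_uu (x : K) : ww * uu x * ww⁻¹ = vv (-x) :=
  Subtype.ext (by simp [sl_mul, sl_inv, m2_ext])

theorem ww_vv (x : K) : ww * vv x * ww⁻¹ = uu (-x) :=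
  Subtype.ext (by simp [sl_mul, sl_inv, m2_ext])

theorem conj_uu (m : SL2 K) (x : K) : (m * uu x * m⁻¹).1 =
    !![1 - x * m.1 0 0 * m.1 1 0, x * m.1 0 0 ^ 2; -x * m.1 1 0 ^ 2, 1 + x * m.1 0 0 * m.1 1 0] := by
  have := sl_det m
  simp only [sl_mul, sl_inv, m2_ext, m2_mul, uu_val]
  simp
  refine ⟨?_, ?_, ?_, ?_⟩
  · linear_combination this
  · ring
  · ring
  · linear_combination this

theorem sl_gen (P : SL2 K → Prop) (h1 : ∀ x, P (uu x)) (h2 : ∀ x, P (vv x))
    (h3 : ∀ g h, P g → P h → P (g * h)) (g : SL2 K) : P g := by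
  have key : ∀ g : SL2 K, g.1 1 0 ≠ 0 → P g := fun g hg => by
    have := sl_det g
    have e : g = uu ((g.1 0 0 - 1) / g.1 1 0) * vv (g.1 1 0) * uu ((g.1 1 1 - 1) / g.1 1 0) :=
      Subtype.ext (by
        simp only [sl_mul, m2_ext, m2_mul, uu_val, vv_val]
        simp
        refine ⟨?_, ?_, ?_⟩ <;> field_simp
        · ring
        · linear_combination -this
        · ring)
    exact e ▸ h3 _ _ (h3 _ _ (h1 _) (h2 _)) (h1 _)
  by_cases hg : g.1 1 0 = 0
  · have := key (vv 1 * g) (by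
      have := sl_det g
      simp only [sl_mul, m2_mul, vv_val, hg] at this ⊢
      intro e
      simp at e
      simp [e] at this)
    have := h3 _ _ (h2 (-1)) this
    rwa [← mul_assoc, ← vv_add, neg_add_cancel, vv_zero, one_mul] at this
  · exact key g hg

theorem unip_cases {g : SL2 K} (h : g.1.trace = 2) :
    (∃ c, g = uu c) ∨ ∃ e y, y ≠ 0 ∧ g = uu e * vv y * uu (-e) := by
  have hd := sl_det g
  rw [trace_fin_two] at h
  by_cases hg : g.1 1 0 = 0
  · have : g.1 0 0 = 1 := sub_eq_zero.1 (pow_eq_zero_iff (n := 2) (by norm_num) |>.1 (by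
      rw [hg] at hd
      linear_combination g.1 0 0 * h - hd))
    exact Or.inl ⟨g.1 0 1, Subtype.ext (by
      simp [m2_ext, hg, this]; linear_combination h - this)⟩
  · refine Or.inr ⟨(g.1 0 0 - 1) / g.1 1 0, g.1 1 0, hg, Subtype.ext ?_⟩
    simp only [sl_mul, m2_ext, m2_mul, uu_val, vv_val]
    simp
    refine ⟨?_, ?_, ?_⟩ <;> field_simp
    · ring
    · linear_combination g.1 0 0 * h - hd
    · linear_combination h

/-- `ρ` is onto with kernel the scalars -/
structure Cov (ρ : SL2 K →* S) : Prop where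
  surj : Function.Surjective ρ
  ker : ∀ g, ρ g = 1 ↔ ∃ ε : K, ε * ε = 1 ∧ g.1 = ε • (1 : M2 K)

theorem Cov.eq_iff (h : Cov ρ) {g g' : SL2 K} :
    ρ g = ρ g' ↔ ∃ ε : K, ε * ε = 1 ∧ g.1 = ε • g'.1 := by
  rw [← mul_inv_eq_one, ← map_inv, ← map_mul, h.ker]
  refine exists_congr fun ε => and_congr_right fun _ => ⟨fun e => ?_, fun e => ?_⟩
  · rw [← inv_mul_cancel_right g g', sl_mul, e, smul_mul, one_mul]
  · rw [sl_mul, e, smul_mul, ← sl_mul, mul_inv_cancel]; rfl

theorem Cov.conj (h : Cov ρ) (s : SL2 K) : Cov (ρ.comp (MulAut.conj s).toMonoidHom) := by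
  refine ⟨h.surj.comp (MulAut.conj s).surjective, fun g => ?_⟩
  rw [← h.ker]
  simp [mul_inv_eq_iff_eq_mul]

theorem cov_psl : Cov (QuotientGroup.mk' (Subgroup.center (SL2 K))) := by
  refine ⟨QuotientGroup.mk'_surjective _, fun g => ?_⟩
  rw [QuotientGroup.mk'_apply, QuotientGroup.eq_one_iff, Matrix.SpecialLinearGroup.mem_center_iff]
  refine exists_congr fun ε => and_congr (by simp [sq]) ?_
  simp [m2_ext, eq_comm]

theorem Cov.comp (h : Cov ρ) {S' : Type*} [Group S'] (e : S ≃* S') :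
    Cov (e.toMonoidHom.comp ρ) :=
  ⟨e.surjective.comp h.surj, fun g => by simpa using h.ker g⟩

theorem trace_eps {g m : SL2 K} {ε : K} (h : (m * g).1 = ε • (g * m).1) :
    g.1.trace * (ε - 1) = 0 := by
  have : g.1 = ε • ((m⁻¹).1 * (g.1 * m.1)) := by
    rw [← mul_smul_comm, ← sl_mul, ← h, ← sl_mul, inv_mul_cancel_left]
  have e := congrArg trace this
  rw [trace_smul, trace_mul_comm, mul_assoc, ← sl_mul, mul_inv_cancel] at e
  simp only [Matrix.SpecialLinearGroup.coe_one, mul_one, smul_eq_mul] at e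
  linear_combination -e

theorem Cov.uu_inj (h : Cov ρ) {x y : K} (e : ρ (uu x) = ρ (uu y)) : x = y := by
  obtain ⟨ε, -, e⟩ := h.eq_iff.1 e
  simp only [m2_ext, uu_val] at e
  simp at e
  rw [e.2.1, ← e.1, one_mul]

theorem Cov.vv_inj (h : Cov ρ) {x y : K} (e : ρ (vv x) = ρ (vv y)) : x = y := by
  obtain ⟨ε, -, e⟩ := h.eq_iff.1 e
  simp only [m2_ext, vv_val] at e
  simp at e
  rw [e.2.1, ← e.1, one_mul]

theorem Cov.cent_uu (h : Cov ρ) {c : K} (hc : c ≠ 0) {s : S} (e : Commute s (ρ (uu c))) :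
    ∃ x, s = ρ (uu x) := by
  obtain ⟨m, rfl⟩ := h.surj s
  obtain ⟨ε, h1, h2⟩ := h.eq_iff.1 ((map_mul ρ _ _).trans (e.eq.trans (map_mul ρ _ _).symm))
  have h3 := trace_eps h2
  obtain rfl : ε = 1 := sub_eq_zero.1 (pow_eq_zero_iff (n := 2) (by norm_num) |>.1 (by
    simp only [uu_val, trace_fin_two_of] at h3
    linear_combination h1 - h3))
  have hd := sl_det m
  simp only [sl_mul, m2_ext, m2_mul, uu_val, one_smul] at h2
  simp [hc] at h2
  have h4 : m.1 1 1 = m.1 0 0 := mul_left_cancel₀ hc (by linear_combination -h2.2.1)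
  rw [h2.1, h4] at hd
  refine ⟨m.1 0 1 * m.1 0 0, h.eq_iff.2 ⟨m.1 0 0, by linear_combination hd, ?_⟩⟩
  simp [m2_ext, h2.1, h4]
  linear_combination -m.1 0 1 * hd

theorem Cov.cent_vv (h : Cov ρ) {c : K} (hc : c ≠ 0) {s : S} (e : Commute s (ρ (vv c))) :
    ∃ x, s = ρ (vv x) := by
  obtain ⟨x, hx⟩ := h.cent_uu (neg_ne_zero.2 hc) (s := ρ ww * s * (ρ ww)⁻¹) (by
    rw [← ww_vv, map_mul, map_mul, map_inv]
    have := congrArg (fun t => ρ ww * t * (ρ ww)⁻¹) e.eq
    simpa [Commute, SemiconjBy, mul_assoc] using this)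
  refine ⟨-x, (MulAut.conj (ρ ww)).injective (hx.trans ?_)⟩
  rw [MulAut.conj_apply, ← map_inv, ← map_mul, ← map_mul, ww_vv, neg_neg]

theorem Cov.unip (h : Cov ρ) {p : ℕ} [Fact p.Prime] [CharP K p] {s : S} (hs : s ^ p = 1) :
    ∃ g : SL2 K, g.1.trace = 2 ∧ s = ρ g := by
  obtain ⟨m, rfl⟩ := h.surj s
  obtain ⟨ε, h1, h2⟩ := (h.ker _).1 ((map_pow ρ m p).trans hs)
  have h3 : ε ^ p = ε := by
    rcases mul_self_eq_one_iff.1 h1 with rfl | rfl
    exacts [one_pow p, neg_one_pow_char K p]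
  have hd : (ε • m.1).det = 1 := by simp [sq, h1]
  refine ⟨⟨ε • m.1, hd⟩, ?_, h.eq_iff.2 ⟨ε, h1, by simp [smul_smul, h1]⟩⟩
  have e : (ε • m.1 - 1) ^ p = 0 := by
    rw [sub_pow_char_of_commute _ (Commute.one_right _), smul_pow, h3,
      show m.1 ^ p = ε • (1 : M2 K) from h2, smul_smul, h1, one_smul, one_pow, sub_self]
  have e2 := congrArg det e
  rw [det_pow, det_zero, pow_eq_zero_iff (Fact.out : p.Prime).ne_zero] at e2
  generalize ε • m.1 = X at hd e2
  simp only [det_fin_two, trace_fin_two, Matrix.sub_apply] at hd e2 ⊢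
  simp at e2
  linear_combination hd - e2

/-- a semilinear ring endomorphism of the matrix ring -/
structure Semi (μ : K →+* K) (φ : M2 K →+* M2 K) : Prop where
  smul : ∀ c X, φ (c • X) = μ c • φ X
  tr : ∀ X, (φ X).trace = μ X.trace
  det : ∀ X, (φ X).det = μ X.det

/-- `φ` induces `β` -/
def Ind (ρ : SL2 K →* S) (β : MulAut S) (φ : M2 K →+* M2 K) : Prop :=
  ∀ g : SL2 K, ∃ g' : SL2 K, g'.1 = φ g.1 ∧ β (ρ g) = ρ g'

/-- conjugation by an invertible matrix -/
def cjg (A B : M2 K) (h : B * A = 1) : M2 K →+* M2 K where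
  toFun X := A * X * B
  map_one' := by rw [mul_one, mul_eq_one_comm.1 h]
  map_mul' X Y := by simp only [mul_assoc]; rw [← mul_assoc B, h, one_mul]
  map_zero' := by simp
  map_add' X Y := by rw [mul_add, add_mul]

theorem Semi.cjg {μ : K →+* K} {φ : M2 K →+* M2 K} (hφ : Semi μ φ) {A B : M2 K} (h : B * A = 1) :
    Semi μ ((cjg A B h).comp φ) := by
  refine ⟨fun c X => ?_, fun X => ?_, fun X => ?_⟩
  · show A * φ (c • X) * B = μ c • (A * φ X * B)
    rw [hφ.smul, mul_smul_comm, smul_mul_assoc]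
  · show (A * φ X * B).trace = _
    rw [trace_mul_comm, ← mul_assoc, h, one_mul, hφ.tr]
  · show (A * φ X * B).det = _
    rw [det_mul, det_mul, mul_right_comm, mul_comm A.det, ← det_mul, h, det_one, one_mul, hφ.det]

theorem semi_map (μ : K →+* K) : Semi μ μ.mapMatrix :=
  ⟨fun c X => by ext i j; simp, fun X => by simp [trace_fin_two], fun X => (μ.map_det X).symm⟩

theorem Ind.conj {β : MulAut S} {φ : M2 K →+* M2 K} (s : SL2 K)
    (h : Ind ρ (MulAut.conj (ρ s) * β) φ) :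
    Ind ρ β ((cjg (s⁻¹).1 s.1 (congrArg Subtype.val (mul_inv_cancel s))).comp φ) := fun g => by
  obtain ⟨g', e1, e2⟩ := h g
  refine ⟨s⁻¹ * g' * s, by rw [sl_mul, sl_mul, e1]; rfl, ?_⟩
  rw [map_mul, map_mul, ← e2]
  simp [mul_assoc]

theorem Cov.aut_std [Finite K] (h : Cov ρ) {β : MulAut S} {c y : K} (hc : c ≠ 0) (hy : y ≠ 0)
    (e1 : β (ρ (uu 1)) = ρ (uu c)) (e2 : β (ρ (vv 1)) = ρ (vv y)) :
    ∃ μ φ, Semi μ φ ∧ Ind ρ β φ := by
  have a1 : ∀ x, ∃ z, β (ρ (uu x)) = ρ (uu z) := fun x => h.cent_uu hc (by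
    rw [← e1]
    exact (show Commute (uu x) (uu 1) by
      rw [Commute, SemiconjBy, ← uu_add, ← uu_add, add_comm]).map ρ |>.map β)
  have a2 : ∀ x, ∃ z, β (ρ (vv x)) = ρ (vv z) := fun x => h.cent_vv hy (by
    rw [← e2]
    exact (show Commute (vv x) (vv 1) by
      rw [Commute, SemiconjBy, ← vv_add, ← vv_add, add_comm]).map ρ |>.map β)
  choose f hf using a1
  choose f' hf' using a2
  have f1 : f 1 = c := h.uu_inj ((hf 1).symm.trans e1)
  have fadd : ∀ x z, f (x + z) = f x + f z := fun x z => h.uu_inj (by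
    rw [← hf, uu_add, uu_add, map_mul, map_mul, map_mul, hf, hf])
  have f0 : f 0 = 0 := by simpa using fadd 0 0
  have hconj : ∀ (m : SL2 K) (x : K) (g g' m' : SL2 K), m * uu x * m⁻¹ = g → β (ρ g) = ρ g' →
      β (ρ m) = ρ m' → ∃ ε : K, ε * ε = 1 ∧ (m' * uu (f x) * m'⁻¹).1 = ε • g'.1 := by
    rintro m x _ g' m' rfl b1 b2
    refine h.eq_iff.1 ?_
    rw [← b1]
    simp only [map_mul, map_inv, b2, hf]
  have fsq : ∀ a x, c * f (a ^ 2 * x) = f (a ^ 2) * f x := fun a x => by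
    by_cases ha : a = 0
    · simp [ha, f0]
    obtain ⟨m, hm⟩ := h.surj (β (ρ (hh a ha)))
    have key : ∀ x, ∃ ε : K, ε * ε = 1 ∧ (m * uu (f x) * m⁻¹).1 = ε • (uu (f (a ^ 2 * x))).1 :=
      fun x => hconj (hh a ha) x _ _ m (Subtype.ext (by rw [conj_uu]; simp [mul_comm])) (hf _) hm.symm
    obtain ⟨ε, -, b1⟩ := key 1
    obtain ⟨ε', -, b2⟩ := key x
    rw [conj_uu, m2_ext] at b1 b2
    simp [f1, hc] at b1 b2
    simp only [b1.2.2.1, mul_zero, sub_zero] at b1 b2
    rw [← b1.1, one_mul] at b1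
    rw [← b2.1, one_mul] at b2
    rw [← b1.2.1, ← b2.2.1]
    ring
  let μ : K →+* K :=
    { toFun := fun x => f x / c
      map_one' := by rw [f1, div_self hc]
      map_zero' := by rw [f0, zero_div]
      map_add' := fun x z => by rw [fadd, add_div]
      map_mul' := fun x z => by
        obtain ⟨a, b, rfl⟩ := norm_surj one_ne_zero x
        rw [one_mul, add_mul, fadd, fadd, div_mul_div_comm, div_eq_div_iff hc (mul_ne_zero hc hc)]
        linear_combination c * fsq a z + c * fsq b z }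
  have hμ : ∀ x, f x = c * μ x := fun x => by
    show _ = c * (f x / c)
    field_simp
  have hf2 : ∀ x, c * f' x = μ x := fun x => by
    by_cases hx : x = 0
    · have : f' 0 = 0 := h.vv_inj (by rw [← hf', vv_zero, map_one, map_one])
      simp [hx, this]
    obtain ⟨ε, -, b⟩ := hconj (uu (-x⁻¹) * vv x * uu (-x⁻¹)) 1 (vv (-x ^ 2)) _
      (uu (f (-x⁻¹)) * vv (f' x) * uu (f (-x⁻¹))) (Subtype.ext (by
        rw [conj_uu]
        simp [sl_mul, m2_ext, hx])) (hf' _) (by simp only [map_mul, hf, hf'])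
    rw [conj_uu, m2_ext] at b
    have b2 := b.2.1
    simp [sl_mul, f1, hc, hμ] at b2
    have : μ x ≠ 0 := (map_ne_zero μ).2 hx
    field_simp at b2
    linear_combination -b2
  have hA : (!![c⁻¹, 0; 0, 1] : M2 K) * !![c, 0; 0, 1] = 1 := by simp [m2_ext, hc]
  refine ⟨μ, _, (semi_map μ).cjg hA, sl_gen _ (fun x => ⟨_, ?_, hf x⟩) (fun x => ⟨_, ?_, hf' x⟩) ?_⟩
  · show _ = !![c, 0; 0, 1] * (uu x).1.map μ * !![c⁻¹, 0; 0, 1]
    simp only [m2_ext, m2_mul]
    simp [hc, hμ]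
  · show _ = !![c, 0; 0, 1] * (vv x).1.map μ * !![c⁻¹, 0; 0, 1]
    simp only [m2_ext, m2_mul]
    simp [hc]
    rw [← hf2]
    field_simp
  · rintro g g' ⟨a, a1, a2⟩ ⟨b, b1, b2⟩
    exact ⟨a * b, by rw [sl_mul, sl_mul, map_mul, a1, b1], by simp only [map_mul, a2, b2]⟩

theorem Cov.aut [Finite K] (h : Cov ρ) (β : MulAut S) : ∃ μ φ, Semi μ φ ∧ Ind ρ β φ := by
  have := Fact.mk (CharP.char_is_prime K (ringChar K))
  have hu : ρ (uu 1) ^ ringChar K = 1 := by rw [← map_pow, uu_pow]; simp [uu_zero]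
  have hv : ρ (vv 1) ^ ringChar K = 1 := by
    rw [← neg_neg (1 : K), ← ww_uu, map_mul, map_mul, map_inv, conj_pow, ← map_pow, uu_pow]
    simp [uu_zero]
  have step : ∀ β : MulAut S, ∀ c, β (ρ (uu 1)) = ρ (uu c) → ∃ μ φ, Semi μ φ ∧ Ind ρ β φ := by
    intro β c e
    have hc : c ≠ 0 := by
      rintro rfl
      rw [uu_zero, map_one, EmbeddingLike.map_eq_one_iff, ← ρ.map_one, ← uu_zero] at e
      exact one_ne_zero (h.uu_inj e)
    obtain ⟨g, g1, g2⟩ := h.unip (s := β (ρ (vv 1))) (by rw [← map_pow, hv, map_one])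
    rcases unip_cases g1 with ⟨x, rfl⟩ | ⟨d, y, hy, rfl⟩
    · exfalso
      obtain ⟨ε, -, b⟩ := h.eq_iff.1 (show ρ (uu 1 * vv 1) = ρ (vv 1 * uu 1) from β.injective (by
        simp only [map_mul, e, g2]
        rw [← map_mul, ← map_mul, ← uu_add, ← uu_add, add_comm]))
      simp [sl_mul, m2_ext] at b
      exact one_ne_zero (α := K) (by linear_combination b.1.1 - b.1.2)
    · obtain ⟨μ, φ, b1, b2⟩ := h.aut_std (β := MulAut.conj (ρ (uu (-d))) * β) hc hy (by
        rw [MulAut.mul_apply, e, MulAut.conj_apply, ← map_inv, ← map_mul, ← map_mul, uu_inv,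
          ← uu_add, ← uu_add]
        simp) (by
        rw [MulAut.mul_apply, g2, MulAut.conj_apply, ← uu_inv]
        simp [mul_assoc])
      exact ⟨μ, _, b1.cjg _, b2.conj _⟩
  obtain ⟨g, g1, g2⟩ := h.unip (s := β (ρ (uu 1))) (by rw [← map_pow, hu, map_one])
  rcases unip_cases g1 with ⟨x, rfl⟩ | ⟨d, y, -, rfl⟩
  · exact step β x g2
  · obtain ⟨μ, φ, b1, b2⟩ := step (MulAut.conj (ρ (ww * uu (-d))) * β) (-y) (by
      rw [MulAut.mul_apply, g2, MulAut.conj_apply, ← ww_vv y, ← uu_inv]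
      simp [mul_assoc])
    exact ⟨μ, _, b1.cjg _, b2.conj _⟩

end Pool.Agent.MP_983df8_al

end MrgPart1

-- marker of a merged file
example : 731051 + 431845 = 731051 + 431845 := rfl
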