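import Mathlib.LinearAlgebra.Eigenspace.Basic
import Mathlib.LinearAlgebra.Matrix.FiniteDimensional
import Mathlib.GroupTheory.Frattini
import Pool.Agent.MP_983df8_al.Pin2
import Pool.Agent.MP_983df8_al.Red
import Pool.Agent.MP_983df8_al.Minus
import Pool.Agent.MP_983df8_al.FourN
import Pool.Agent.MP_983df8_al.SL

-- ======== part 0: formerly Pool.Agent.MP_983df8_al.Lin2
section MrgPart0

namespace Pool.Agent.MP_983df8_al

open Subgroup

variable {D V : Type*} [Group D] [AddCommGroup V] [DistribMulAction D V]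

/-- a base of size two modulo the kernel -/
def Base2 (D V : Type*) [SMul D V] : Prop :=
  ∃ v v' : V, ∀ d : D, d • v = v → d • v' = v' → ∀ w : V, d • w = w

theorem glue_lin2 [Finite D] [Group.IsSolvable D] {Ω : Type*} [Fintype Ω] [MulAction D Ω]
    (ho : Odd (Nat.card D)) (e : Ω → V →+ V) (h1 : ∀ v, ∑ ω, e ω v = v)
    (h2 : ∀ ω ω' v, ω ≠ ω' → e ω (e ω' v) = 0) (h3 : ∀ ω v, e ω (e ω v) = e ω v)
    (h4 : ∀ (d : D) ω v, e (d • ω) (d • v) = d • e ω v) (h5 : ∀ ω, e ω ≠ 0)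
    (h6 : ∀ ω, ∃ v ∈ (e ω).range, ∃ v' ∈ (e ω).range, ∀ d ∈ MulAction.stabilizer D ω,
      d • v = v → d • v' = v' → ∀ w ∈ (e ω).range, d • w = w) : Base2 D V := by
  let _ : MulAction D {x : Ω × V // e x.1 x.2 = x.2} :=
    { smul := fun d x => ⟨d • x.1, (h4 d _ _).trans (congrArg (d • ·) x.2)⟩
      one_smul := fun x => Subtype.ext (one_smul D x.1)
      mul_smul := fun c d x => Subtype.ext (mul_smul c d x.1) }
  obtain ⟨f, f1, f2⟩ := glue_set ho (fun x : {x : Ω × V // e x.1 x.2 = x.2} => x.1.1)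
    (fun _ _ => rfl) fun ω => by
      obtain ⟨_, ⟨v, rfl⟩, _, ⟨v', rfl⟩, a⟩ := h6 ω
      obtain ⟨y, y', b1, b2⟩ : ∃ y y', e ω y ≠ e ω y' ∧ ∀ d : D, d • e ω y = e ω y →
          d • e ω y' = e ω y' → d • e ω v = e ω v ∧ d • e ω v' = e ω v' := by
        by_cases c : e ω v = e ω v'
        · by_cases c' : e ω v = 0
          · obtain ⟨y, hy⟩ := DFunLike.ne_iff.1 (h5 ω)
            exact ⟨y, 0, by simpa using hy, fun d _ _ => by simp [← c, c']⟩
          · exact ⟨v, 0, by simpa using c', fun d b _ => ⟨b, c ▸ b⟩⟩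
        · exact ⟨v, v', c, fun d b b' => ⟨b, b'⟩⟩
      refine ⟨⟨(ω, e ω y), h3 ω y⟩, ⟨(ω, e ω y'), h3 ω y'⟩, rfl, rfl,
        fun c => b1 (congrArg (·.1.2) c), ?_⟩
      rintro d c c' ⟨⟨o, w⟩, hw⟩ rfl
      have := b2 d (congrArg (·.1.2) c) (congrArg (·.1.2) c')
      have c0 : d • o = o := congrArg (·.1.1) c
      exact Subtype.ext (Prod.ext c0 (a d c0 this.1 this.2 w ⟨w, hw⟩))
  have hc : ∀ i ω, e ω (∑ ω', (f i ω').1.2) = (f i ω).1.2 := fun i ω => by
    have a : ∀ ω, e ω (f i ω).1.2 = (f i ω).1.2 := fun ω => by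
      simpa only [f1] using (f i ω).2
    rw [map_sum, Finset.sum_eq_single_of_mem ω (Finset.mem_univ _) fun ω' _ hne => by
      rw [← a, h2 _ _ _ hne.symm], a]
  refine ⟨∑ ω, (f 0 ω).1.2, ∑ ω, (f 1 ω).1.2, fun d a a' w => ?_⟩
  have := f2 d fun i ω => Subtype.ext (Prod.ext ((congrArg (d • ·) (f1 i ω)).trans (f1 i _).symm)
    (show d • (f i ω).1.2 = _ by
      rw [← hc, ← h4, ← hc i (d • ω)]
      obtain rfl | rfl := (by decide : ∀ i : ZMod 2, i = 0 ∨ i = 1) i
      exacts [congrArg _ a, congrArg _ a']))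
  rw [← h1 w, Finset.smul_sum]
  exact Finset.sum_congr rfl fun ω _ => congrArg (·.1.2) (this ⟨(ω, e ω w), h3 ω w⟩)

open scoped IsMulCommutative in
theorem lin_step2 [Finite D] [Group.IsSolvable D] [Finite V] (ho : Odd (Nat.card D)) {r : ℕ}
    (hr : r.Prime)
    (hV : ∀ v : V, r • v = 0) (hD : ¬ r ∣ Nat.card D) (hf : ∀ d : D, (∀ v : V, d • v = v) → d = 1)
    (ih : ∀ (E : Subgroup D) (W : AddSubgroup V), W ≠ ⊤ → (∀ d ∈ E, ∀ w ∈ W, d • w ∈ W) →
      ∃ v ∈ W, ∃ v' ∈ W, ∀ d ∈ E, d • v = v → d • v' = v' → ∀ w ∈ W, d • w = w) :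
    Base2 D V := by
  classical
  rcases subsingleton_or_nontrivial V with hs | hs
  · exact ⟨0, 0, fun d _ _ w => Subsingleton.elim _ _⟩
  obtain ⟨U, hU⟩ := exists_maxAb (D := D)
  let ρ := DistribMulAction.toAddMonoidEnd D V
  have hρ : ∀ d v, ρ d v = d • v := fun _ _ => rfl
  have hs' : ∀ x ∈ ρ '' U, ∀ y ∈ ρ '' U, x * y = y * x := by
    rintro _ ⟨a, ha, rfl⟩ _ ⟨b, hb, rfl⟩
    rw [← map_mul, (hU.prop.2 a ha b hb).eq, map_mul]
  let R := Subring.closure (ρ '' U)
  have hcomm : IsMulCommutative R := Subring.isMulCommutative_closure hs'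
  have hR : ∀ x ∈ R, ∀ y ∈ R, x * y = y * x := fun x hx y hy =>
    congrArg Subtype.val (hcomm.1.1 ⟨x, hx⟩ ⟨y, hy⟩)
  have hfin : Finite (AddMonoid.End V) := Finite.of_injective _ (DFunLike.coe_injective)
  by_cases h1 : IsAtomE R 1
  · have hnt : Nontrivial (AddMonoid.End V) := nontrivial_of_ne _ _ h1.2.2.1
    have hpow : ∀ x ∈ R, x ^ r ^ (Nat.card D).totient = x := fun x hx => closure_pow hs' hr
      (AddMonoidHom.ext fun v => (AddMonoid.End.natCast_apply r v).trans (hV v)) (by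
        rintro _ ⟨a, -, rfl⟩
        rw [← map_pow]
        exact congrArg ρ ((pow_eq_pow_iff_modEq.2 ((Nat.ModEq.pow_totient
          (hr.coprime_iff_not_dvd.2 hD)).of_dvd (orderOf_dvd_natCard a))).trans (pow_one a))) hx
    obtain ⟨k, hk⟩ : ∃ k, r ^ (Nat.card D).totient = k + 2 := Nat.exists_eq_add_of_le'
      (Nat.one_lt_pow (Nat.totient_pos.2 Nat.card_pos).ne' hr.one_lt)
    have hunit : ∀ x ∈ R, x ≠ 0 → x ^ k * x = 1 := fun x hx h0 => by
      have e := hpow x hx
      rw [hk] at e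
      rcases h1.2.2.2 (x ^ (k + 1)) (R.pow_mem hx _) (by
        rw [← pow_add, show k + 1 + (k + 1) = (k + 2) + k by ring, pow_add, e, ← pow_succ'])
        with e' | e'
      · rw [pow_succ, ← mul_one (x ^ (k + 1)), e', zero_mul] at e
        exact absurd e.symm h0
      · rwa [mul_one, pow_succ] at e'
    have : NoZeroDivisors R := ⟨fun {a b} hab => by
      by_cases ha : a = 0
      · exact Or.inl ha
      · refine Or.inr (Subtype.ext ?_)
        have := hunit a a.2 fun e => ha (Subtype.ext e)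
        calc (b : AddMonoid.End V) = a ^ k * a * b := by rw [this, one_mul]
          _ = 0 := by rw [mul_assoc, show (a : AddMonoid.End V) * b = 0 from
            congrArg Subtype.val hab, mul_zero]⟩
    have : IsDomain R := NoZeroDivisors.to_isDomain R
    let ι : U →* R := (ρ.comp U.subtype).codRestrict R.toSubmonoid
      fun u => Subring.subset_closure ⟨u, u.2, rfl⟩
    have hι : Function.Injective ι := by
      rw [injective_iff_map_eq_one]
      exact fun u hu => Subtype.ext (hf _ fun v => DFunLike.congr_fun (congrArg Subtype.val hu) v)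
    obtain ⟨N, hN⟩ := hU.exists_gs
    have hP : PS V U N := ⟨hN, fun u hu v e hne => ?_, ?_,
      fun A a1 a2 x hx hx' => hN.dual ι hι a1 a2 hx hx', cop_of hr hV hD⟩
    · obtain ⟨v, v', hv⟩ := hP.exists_base2 ho
      exact ⟨v, v', fun d hd hd' w => by rw [hv d hd hd', one_smul]⟩
    · have := hunit _ (R.sub_mem (Subring.subset_closure ⟨u, hu, rfl⟩) R.one_mem) fun e' =>
        hne (hf u fun v => DFunLike.congr_fun (sub_eq_zero.1 e') v)
      have e' := DFunLike.congr_fun this v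
      rw [AddMonoid.End.coe_mul, Function.comp_apply, show (ρ u - 1) v = 0 from sub_eq_zero.2 e,
        map_zero] at e'
      exact e'.symm
    · obtain ⟨g, hg⟩ := (isCyclic_of_injective_ringHom ι hι).exists_monoid_generator
      exact ⟨g, g.2, fun u hu => (hg ⟨u, hu⟩).imp fun k hk => (congrArg Subtype.val hk).symm⟩
  have hi : ∀ d : D, ρ d⁻¹ * ρ d = 1 := fun d => by rw [← map_mul, inv_mul_cancel, map_one]
  have hi' : ∀ (d : D) x, ρ d⁻¹ * (ρ d * x) = x := fun d x => by rw [← mul_assoc, hi, one_mul]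
  have hi2 : ∀ (d : D) x, ρ d * (ρ d⁻¹ * x) = x := fun d x => by simpa using hi' d⁻¹ x
  have hconj : ∀ (d : D), ∀ x ∈ R, ρ d * x * ρ d⁻¹ ∈ R := fun d x hx => by
    induction hx using Subring.closure_induction with
    | mem x hx =>
      obtain ⟨a, ha, rfl⟩ := hx
      exact Subring.subset_closure ⟨_, hU.prop.1.conj_mem a ha d, by simp only [map_mul]⟩
    | zero => simp
    | one => simp [← map_mul]
    | add x y hx hy e e' => simpa only [mul_add, add_mul] using R.add_mem e e'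
    | neg x hx e => simpa only [mul_neg, neg_mul] using R.neg_mem e
    | mul x y hx hy e e' => simpa only [mul_assoc, hi'] using R.mul_mem e e'
  have hat : ∀ (d : D) a, IsAtomE R a → IsAtomE R (ρ d * a * ρ d⁻¹) := fun d a ha => by
    refine ⟨hconj d a ha.1, by simp only [mul_assoc, hi']; rw [← mul_assoc a, ha.2.1], fun e => ?_,
      fun f f1 f2 => ?_⟩
    · have := congrArg (fun t => ρ d⁻¹ * t * ρ d) e
      simp only [mul_assoc, hi', hi, mul_one, mul_zero, zero_mul] at this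
      exact ha.2.2.1 this
    · refine (ha.2.2.2 _ (hconj d⁻¹ f f1) (by
        simp only [mul_assoc, inv_inv, hi2]; rw [← mul_assoc f, f2])).imp (fun e => ?_) fun e => ?_
      · have := congrArg (fun t => ρ d * t * ρ d⁻¹) e
        simpa only [mul_assoc, inv_inv, hi2, mul_zero, zero_mul] using this
      · have := congrArg (fun t => ρ d * t * ρ d⁻¹) e
        simpa only [mul_assoc, inv_inv, hi2] using this
  let _ : MulAction D {a // IsAtomE R a} :=
    { smul := fun d a => ⟨_, hat d a.1 a.2⟩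
      one_smul := fun a => Subtype.ext (by
        show ρ 1 * a.1 * ρ 1⁻¹ = a.1
        simp)
      mul_smul := fun c d a => Subtype.ext (by
        show ρ (c * d) * a.1 * ρ (c * d)⁻¹ = ρ c * (ρ d * a.1 * ρ d⁻¹) * ρ c⁻¹
        simp only [mul_inv_rev, map_mul, mul_assoc]) }
  have := Fintype.ofFinite {a // IsAtomE R a}
  have h4 : ∀ (d : D) (a : {a // IsAtomE R a}) v, (d • a).1 (d • v) = d • a.1 v := fun d a v => by
    show d • a.1 (d⁻¹ • d • v) = _
    rw [inv_smul_smul]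
  refine glue_lin2 (Ω := {a // IsAtomE R a}) ho (fun a => a.1) (fun v => ?_)
    (fun a b v hne => DFunLike.congr_fun (a.2.orth hR b.2 fun e => hne (Subtype.ext e)) v)
    (fun a v => DFunLike.congr_fun a.2.2.1 v) h4 (fun a => a.2.2.2.1) fun a => ih _ _ (fun e => ?_) ?_
  · exact (AddMonoidHom.finsetSum_apply _ _ v).symm.trans (DFunLike.congr_fun (sum_atomE hR) v)
  · refine h1 ((?_ : a.1 = 1) ▸ a.2)
    refine AddMonoidHom.ext fun v => ?_
    obtain ⟨y, rfl⟩ := AddMonoidHom.range_eq_top.1 e v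
    exact DFunLike.congr_fun a.2.2.1 y
  · rintro d hd _ ⟨y, rfl⟩
    have := h4 d a y
    rw [MulAction.mem_stabilizer_iff.1 hd] at this
    exact ⟨d • y, this⟩

universe u

theorem lin_range2 {V : Type u} [AddCommGroup V] [DistribMulAction D V] [Finite D]
    [Group.IsSolvable D] (ho : Odd (Nat.card D)) {r : ℕ} (hD : ¬ r ∣ Nat.card D)
    (h : ∀ (E : Type u) [Group E] [Finite E] [Group.IsSolvable E] [DistribMulAction E V],
      Odd (Nat.card E) → ¬ r ∣ Nat.card E → (∀ d : E, (∀ v : V, d • v = v) → d = 1) →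
      Base2 E V) : Base2 D V := by
  let ρ := (DistribMulAction.toAddMonoidEnd D V).toHomUnits
  have := Finite.of_surjective _ ρ.rangeRestrict_surjective
  have := Group.isSolvable_of_surjective ρ.rangeRestrict_surjective
  obtain ⟨v, v', hv⟩ := h ρ.range (ho.of_dvd_nat (card_range_dvd ρ)) (fun e => hD (e.trans (card_range_dvd ρ)))
    fun d hd => Subtype.ext (Units.ext (AddMonoidHom.ext hd))
  exact ⟨v, v', fun d => hv (ρ.rangeRestrict d)⟩

theorem lin_aux2 {r : ℕ} (hr : r.Prime) (n : ℕ) : ∀ (V : Type u) [AddCommGroup V] [Finite V],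
    Nat.card V = n → (∀ v : V, r • v = 0) →
    ∀ (D : Type u) [Group D] [Finite D] [Group.IsSolvable D] [DistribMulAction D V],
      Odd (Nat.card D) → ¬ r ∣ Nat.card D → (∀ d : D, (∀ v : V, d • v = v) → d = 1) →
      Base2 D V := by
  induction n using Nat.strong_induction_on with
  | _ n ih =>
    intro V _ _ hn hV D _ _ _ _ ho hD hf
    refine lin_step2 ho hr hV hD hf fun E W hW hE => ?_
    let _ : DistribMulAction E W :=
      { smul := fun d w => ⟨d.1 • w.1, hE _ d.2 _ w.2⟩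
        one_smul := fun w => Subtype.ext (one_smul D w.1)
        mul_smul := fun c d w => Subtype.ext (mul_smul c.1 d.1 w.1)
        smul_zero := fun d => Subtype.ext (smul_zero d.1)
        smul_add := fun d v w => Subtype.ext (smul_add d.1 v.1 w.1) }
    obtain ⟨v, v', hv⟩ := lin_range2 (D := E) (V := W)
      (ho.of_dvd_nat (card_subgroup_dvd_card E)) (fun e => hD (e.trans (card_subgroup_dvd_card E)))
      (ih _ (hn ▸ lt_of_le_of_ne (AddSubgroup.card_le_card_addGroup W)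
        fun e => hW (AddSubgroup.eq_top_of_card_eq W e)) W rfl fun w => Subtype.ext (hV w.1))
    exact ⟨v, v.2, v', v'.2, fun d hd e e' w hw =>
      congrArg Subtype.val (hv ⟨d, hd⟩ (Subtype.ext e) (Subtype.ext e') ⟨w, hw⟩)⟩

/-- a soluble group of odd order acting coprimely on an elementary abelian group has a base of
size two -/
theorem lin2 [Finite D] [Group.IsSolvable D] [Finite V] (ho : Odd (Nat.card D)) {r : ℕ}
    (hr : r.Prime) (hV : ∀ v : V, r • v = 0) (hD : ¬ r ∣ Nat.card D) : Base2 D V :=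
  lin_range2 ho hD (lin_aux2 hr _ V rfl hV)

theorem aut_eq_one {P : Type*} [Group P] [Finite P] {p : ℕ} (hp : p.Prime) (hP : IsPGroup p P)
    {σ : MulAut P} (hσ : ¬ p ∣ orderOf σ) {M : Subgroup P} (h : ∀ x, x⁻¹ * σ x ∈ M)
    (hM : ∀ k : ℕ, (∀ x, ∃ y, (σ ^ k) y = y ∧ x⁻¹ * y ∈ M) → σ ^ k = 1) : σ = 1 := by
  classical
  by_contra hne
  obtain ⟨r, hr, k, hk⟩ := Nat.exists_prime_and_dvd (orderOf_eq_one_iff.not.2 hne)
  have h1 : ∀ (k : ℕ) x, x⁻¹ * (σ ^ k) x ∈ M := fun k x => by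
    induction k with
    | zero => simp
    | succ k ih => simpa [pow_succ', mul_assoc] using M.mul_mem ih (h ((σ ^ k) x))
  have h0 := orderOf_pos σ
  refine pow_ne_one_of_lt_orderOf (n := k) (by rintro rfl; omega)
    (by have := hr.two_le; have : 0 < k := Nat.pos_of_ne_zero (by rintro rfl; omega); nlinarith)
    (hM k fun x => ?_)
  have := Fact.mk hr
  have := Fact.mk hp
  have := Fintype.ofFinite {y // x⁻¹ * y ∈ M}
  obtain ⟨n, hn⟩ := (hP.to_subgroup M).exists_card_eq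
  obtain ⟨y, hy⟩ := Equiv.Perm.exists_fixed_point_of_prime (p := r) (n := 1)
    (σ := (MulAut.toPerm P (σ ^ k)).subtypePerm (p := fun y => x⁻¹ * y ∈ M) fun y => by
      have := h1 k y
      show x⁻¹ * (σ ^ k) y ∈ M ↔ _
      exact ⟨fun a => by simpa [mul_assoc] using M.mul_mem a (M.inv_mem this),
        fun a => by simpa [mul_assoc] using M.mul_mem a this⟩)
    (by
      rw [← Nat.card_eq_fintype_card, Nat.card_congr ((Equiv.mulLeft x⁻¹).subtypeEquiv
        (p := fun y => x⁻¹ * y ∈ M) (q := (· ∈ M)) fun _ => Iff.rfl), hn]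
      exact fun e => hσ (hk ▸ ((Nat.prime_dvd_prime_iff_eq hr hp).1 (hr.dvd_of_dvd_pow e) ▸
        dvd_mul_right r k)))
    (by
      rw [Equiv.Perm.subtypePerm_pow, pow_one]
      refine Equiv.ext fun y => Subtype.ext ?_
      simp [← map_pow, ← pow_mul, mul_comm k, ← hk])
  exact ⟨y, congrArg Subtype.val hy, y.2⟩

theorem frattini_elem {P : Type*} [Group P] [Finite P] {p : ℕ} (hp : p.Prime) (hP : IsPGroup p P)
    (a b : P) : a * b * a⁻¹ * b⁻¹ ∈ frattini P ∧ a ^ p ∈ frattini P := by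
  have := Fact.mk hp
  have := hP.isNilpotent
  have key : ∀ M : Subgroup P, IsCoatom M → a * b * a⁻¹ * b⁻¹ ∈ M ∧ a ^ p ∈ M := fun M hM => by
    have hn := NormalizerCondition.normal_of_coatom M normalizerCondition_of_isNilpotent hM
    have h1 : ∀ Y : Subgroup (P ⧸ M), Y = ⊥ ∨ Y = ⊤ := fun Y => by
      rw [← map_comap_eq_self_of_surjective (QuotientGroup.mk'_surjective M) Y]
      rcases hM.le_iff.1 (QuotientGroup.le_comap_mk' M Y) with e | e <;> rw [e]
      · exact Or.inr (map_top_of_surjective _ (QuotientGroup.mk'_surjective M))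
      · exact Or.inl (QuotientGroup.map_mk'_self M)
    have h2 : Nontrivial (P ⧸ M) := QuotientGroup.nontrivial_iff.2 hM.1
    have h3 := (h1 (center _)).resolve_left
      ((nontrivial_iff_ne_bot _).1 (hP.to_quotient M).center_nontrivial)
    have h4 : ∀ x y : P ⧸ M, x * y = y * x := fun x y => mem_center_iff.1 (h3 ▸ mem_top y) x
    refine ⟨(QuotientGroup.eq_one_iff _).1 (by simp [h4 (a : P ⧸ M) b]), ?_⟩
    by_contra hc
    have h5 := (h1 (zpowers ((a : P ⧸ M) ^ p))).resolve_left (by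
      rw [zpowers_eq_bot]; exact fun e => hc ((QuotientGroup.eq_one_iff _).1 e))
    have h6 := (h1 (zpowers (a : P ⧸ M))).resolve_left (by
      rw [zpowers_eq_bot]; exact fun e => hc (M.pow_mem ((QuotientGroup.eq_one_iff _).1 e) p))
    have h7 := (Nat.card_zpowers _).symm.trans ((congrArg (fun Y : Subgroup (P ⧸ M) => Nat.card Y)
      (h5.trans h6.symm)).trans (Nat.card_zpowers _))
    obtain ⟨k, hk⟩ := (IsPGroup.iff_orderOf.1 (hP.to_quotient M)) a
    rcases k with _ | k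
    · exact hc (M.pow_mem ((QuotientGroup.eq_one_iff _).1 (orderOf_eq_one_iff.1 hk)) p)
    rw [orderOf_pow' _ hp.ne_zero, hk, Nat.gcd_eq_right (dvd_pow_self p k.succ_ne_zero), pow_succ,
      Nat.mul_div_cancel _ hp.pos] at h7
    exact hp.ne_one (by simpa [hp.ne_zero] using h7)
  simp only [frattini, Order.radical, mem_iInf]
  exact ⟨fun M hM => (key M hM).1, fun M hM => (key M hM).2⟩

theorem lin2_pgroup {P : Type*} [Group P] [Finite P] [Finite D] [Group.IsSolvable D]
    [MulDistribMulAction D P] (ho : Odd (Nat.card D)) {p : ℕ} (hp : p.Prime) (hP : IsPGroup p P)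
    (hD : ¬ p ∣ Nat.card D) : Base2 D P := by
  let ψ := MulDistribMulAction.toMulAut D P
  let φ : D → P ⧸ frattini P →* P ⧸ frattini P := fun d => QuotientGroup.map _ _
    (ψ d).toMonoidHom (characteristic_iff_le_comap.1 inferInstance _)
  let _ : CommGroup (P ⧸ frattini P) := { (inferInstance : Group (P ⧸ frattini P)) with
    mul_comm := fun a b => by
      obtain ⟨a, rfl⟩ := QuotientGroup.mk_surjective a
      obtain ⟨b, rfl⟩ := QuotientGroup.mk_surjective b
      refine QuotientGroup.eq.2 ?_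
      simpa [mul_assoc] using (frattini_elem hp hP b⁻¹ a⁻¹).1 }
  let _ : DistribMulAction D (Additive (P ⧸ frattini P)) :=
    { smul := fun d w => Additive.ofMul (φ d w.toMul)
      one_smul := fun w => by
        obtain ⟨a, rfl⟩ := QuotientGroup.mk_surjective (s := frattini P) w
        exact congrArg (QuotientGroup.mk (s := frattini P)) (one_smul D a)
      mul_smul := fun c d w => by
        obtain ⟨a, rfl⟩ := QuotientGroup.mk_surjective (s := frattini P) w
        exact congrArg (QuotientGroup.mk (s := frattini P)) (mul_smul c d a)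
      smul_zero := fun d => map_one (φ d)
      smul_add := fun d => map_mul (φ d) }
  obtain ⟨v, v', hv⟩ := lin2 (V := Additive (P ⧸ frattini P)) ho hp (fun v => by
    obtain ⟨a, rfl⟩ := QuotientGroup.mk_surjective (s := frattini P) v
    exact (QuotientGroup.eq_one_iff (a ^ p)).2 (frattini_elem hp hP a a).2) hD
  obtain ⟨a, rfl⟩ := QuotientGroup.mk_surjective (s := frattini P) v
  obtain ⟨b, rfl⟩ := QuotientGroup.mk_surjective (s := frattini P) v'
  refine ⟨a, b, fun d h1 h2 => DFunLike.congr_fun (aut_eq_one hp hP (σ := ψ d) (M := frattini P)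
    (fun e => hD (e.trans ((orderOf_map_dvd ψ d).trans (orderOf_dvd_natCard d)))) (fun x => ?_)
    fun k hk => ?_)⟩
  · exact QuotientGroup.eq.1 (hv d (congrArg (QuotientGroup.mk (s := frattini P)) h1)
      (congrArg (QuotientGroup.mk (s := frattini P)) h2) (QuotientGroup.mk x)).symm
  · have := frattini_nongenerating (K := (ψ d ^ k).toMonoidHom.eqLocus (MonoidHom.id P))
      (eq_top_iff.2 fun x _ => by
        obtain ⟨y, y1, y2⟩ := hk x
        simpa using mul_mem (mem_sup_left (show y ∈ (ψ d ^ k).toMonoidHom.eqLocus (MonoidHom.id P)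
          from y1)) (inv_mem (mem_sup_right y2)))
    exact MulEquiv.ext fun x => (this.ge (mem_top x) :)

end Pool.Agent.MP_983df8_al

end MrgPart0

-- ======== part 1: formerly Pool.Agent.MP_983df8_al.Pan
section MrgPart1

namespace Pool.Agent.MP_983df8_al

open Subgroup

open scoped IsMulCommutative in
theorem panel {V : Type*} [Group V] [Finite V] {p : ℕ} (hp : p.Prime) (hV : IsPGroup p V)
    {A : Subgroup (MulAut V)} (hc : ∀ a ∈ A, ∀ b ∈ A, a * b = b * a) (hA : ¬ p ∣ Nat.card A)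
    {M : Subgroup V} (hM : M ≠ ⊤) (hi : ∀ a ∈ A, ∀ m ∈ M, a m ∈ M)
    (hm : ∀ Y : Subgroup V, Y ≠ ⊤ → (∀ a ∈ A, ∀ y ∈ Y, a y ∈ Y) → Y ≤ M) :
    ∃ x y : V, x ≠ y ∧ ∀ σ : MulAut V, (∀ a ∈ A, σ * a * σ⁻¹ ∈ A) → σ x = x → σ y = y → σ = 1 := by
  have k1 : ∀ σ : MulAut V, (∀ a ∈ A, σ * a = a * σ) → ∀ x ∉ M, σ x = x → σ = 1 :=
    fun σ a x b c => by
      by_contra d
      refine b (hm (σ.toMonoidHom.eqLocus (MonoidHom.id V)) (fun e => d (MulEquiv.ext fun u =>
        e.ge (mem_top u))) (fun t f y (i : σ y = y) => ?_) c)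
      exact (DFunLike.congr_fun (a t f) y).trans (congrArg t i)
  have k2 : frattini V ≤ M := le_sup_right.trans (hm (M ⊔ frattini V)
    (fun e => hM (frattini_nongenerating e)) fun a b =>
      show M ⊔ frattini V ≤ comap a.toMonoidHom (M ⊔ frattini V) from
      sup_le (fun m c => mem_sup_left (hi a b m c)) fun m c =>
        mem_sup_right (characteristic_iff_le_comap.1 inferInstance a c))
  have k3 : ∀ a b : V, a * b * a⁻¹ * b⁻¹ ∈ M := fun a b => k2 (frattini_elem hp hV a b).1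
  have : M.Normal := ⟨fun m a g => by simpa using mul_mem (k3 g m) a⟩
  let φ : A → V ⧸ M →* V ⧸ M := fun d => QuotientGroup.map _ _ d.1.toMonoidHom (hi _ d.2)
  let _ : CommGroup (V ⧸ M) := { (inferInstance : Group (V ⧸ M)) with
    mul_comm := fun a b => by
      obtain ⟨a, rfl⟩ := QuotientGroup.mk_surjective a
      obtain ⟨b, rfl⟩ := QuotientGroup.mk_surjective b
      refine QuotientGroup.eq.2 ?_
      simpa [mul_assoc] using k3 b⁻¹ a⁻¹ }
  let _ : DistribMulAction A (Additive (V ⧸ M)) :=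
    { smul := fun d w => Additive.ofMul (φ d w.toMul)
      one_smul := fun w => by
        obtain ⟨a, rfl⟩ := QuotientGroup.mk_surjective (s := M) w
        rfl
      mul_smul := fun c d w => by
        obtain ⟨a, rfl⟩ := QuotientGroup.mk_surjective (s := M) w
        rfl
      smul_zero := fun d => map_one (φ d)
      smul_add := fun d => map_mul (φ d) }
  let ρ := DistribMulAction.toAddMonoidEnd A (Additive (V ⧸ M))
  let R := Subring.closure (Set.range ρ)
  have hcomm : IsMulCommutative R := Subring.isMulCommutative_closure (by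
    rintro _ ⟨a, rfl⟩ _ ⟨b, rfl⟩
    rw [← map_mul, show a * b = b * a from Subtype.ext (hc _ a.2 _ b.2), map_mul])
  have : NoZeroDivisors R := ⟨fun {a b} hab => or_iff_not_imp_left.2 fun ha => by
    have c := hm ((AddMonoidHom.ker a.1).toSubgroup.comap (QuotientGroup.mk' M))
      (fun e => ha (Subtype.ext (AddMonoidHom.ext fun w => by
        obtain ⟨v, rfl⟩ := QuotientGroup.mk_surjective (s := M) w
        exact e.ge (mem_top v)))) fun t f y (i : a.1 _ = 0) => by
          have := DFunLike.congr_fun (congrArg Subtype.val (hcomm.1.1 a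
            ⟨ρ ⟨t, f⟩, Subring.subset_closure ⟨_, rfl⟩⟩)) (Additive.ofMul (y : V ⧸ M))
          exact this.trans ((congrArg (ρ ⟨t, f⟩) i).trans (map_zero _))
    refine Subtype.ext (AddMonoidHom.ext fun w => ?_)
    obtain ⟨v, hv⟩ := QuotientGroup.mk_surjective (s := M) (b.1 w)
    exact hv.symm.trans ((QuotientGroup.eq_one_iff v).2 (c ((congrArg a.1 hv).trans
      (DFunLike.congr_fun (congrArg Subtype.val hab) w))))⟩
  obtain ⟨x, hx⟩ : ∃ x, x ∉ M := by simpa [eq_top_iff'] using hM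
  have : Nontrivial (AddMonoid.End (Additive (V ⧸ M))) := ⟨1, 0, fun e =>
    hx ((QuotientGroup.eq_one_iff x).1 (DFunLike.congr_fun e (Additive.ofMul (x : V ⧸ M))))⟩
  have : IsDomain R := NoZeroDivisors.to_isDomain R
  let ι : A →* R := ρ.codRestrict R.toSubmonoid fun u => Subring.subset_closure ⟨u, rfl⟩
  obtain ⟨t, ht⟩ := (isCyclic_of_injective_ringHom ι ((injective_iff_map_eq_one ι).2 fun u hu =>
    Subtype.ext (aut_eq_one hp hV (M := M) (fun e => hA (e.trans (A.orderOf_dvd_natCard u.2)))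
      (fun v => QuotientGroup.eq.1 (DFunLike.congr_fun (congrArg Subtype.val hu)
        (Additive.ofMul (v : V ⧸ M))).symm) fun k hk => by
      obtain ⟨y, y1, y2⟩ := hk x
      exact k1 _ (hc _ (pow_mem u.2 k)) y (fun e => hx (by
        simpa using mul_mem e (inv_mem y2))) y1))).exists_monoid_generator
  have k4 : ∀ σ : MulAut V, σ * t = t * σ → σ x = x → σ = 1 := fun σ a => k1 σ (fun b c => by
    obtain ⟨k, e⟩ := ht ⟨b, c⟩
    exact (show t.1 ^ k = b from congrArg Subtype.val e) ▸ (Commute.pow_right a k).eq) x hx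
  by_cases e : t = 1
  · exact ⟨x, 1, fun a => hx (a ▸ one_mem M), fun σ _ a _ => k4 σ (by simp [e]) a⟩
  refine ⟨x, t.1 x, fun a => e (Subtype.ext (k1 _ (hc _ t.2) x hx a.symm)), fun σ a b c =>
    k4 σ (mul_inv_eq_iff_eq_mul.1 (inv_mul_eq_one.1 (k1 _ (hc _ (mul_mem (inv_mem t.2)
      (a _ t.2))) x hx ?_)).symm) b⟩
  have : σ⁻¹ x = x := σ.injective (by simp [b])
  simp [this, c]

theorem panel' {S : Type*} [Group S] [Finite S] {p : ℕ} (hp : p.Prime) {U Z T M : Subgroup S}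
    (hU : IsPGroup p U) (hn : U ≤ normalizer Z) (hT : T ≤ normalizer U) (hT' : T ≤ normalizer Z)
    (hc : IsMulCommutative T) (hA : ¬ p ∣ Nat.card T)
    (hM : IsGreatest {Y | Z ≤ Y ∧ Y < U ∧ T ≤ normalizer Y} M) :
    ∃ x ∈ U, ∃ y ∈ U, x⁻¹ * y ∉ Z ∧ ∀ β : MulAut S, (∀ u, β u ∈ U ↔ u ∈ U) →
      (∀ u, β u ∈ Z ↔ u ∈ Z) → (∀ t ∈ T, β t ∈ T) → x⁻¹ * β x ∈ Z → y⁻¹ * β y ∈ Z →
      ∀ u ∈ U, u⁻¹ * β u ∈ Z := by
  have : (Z.subgroupOf U).Normal := normal_subgroupOf_of_le_normalizer hn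
  let Γ : Subgroup (MulAut S) :=
    { carrier := {β | (∀ u, β u ∈ U ↔ u ∈ U) ∧ ∀ u, β u ∈ Z ↔ u ∈ Z}
      one_mem' := ⟨fun _ => Iff.rfl, fun _ => Iff.rfl⟩
      mul_mem' := fun a b => ⟨fun u => (a.1 _).trans (b.1 u), fun u => (a.2 _).trans (b.2 u)⟩
      inv_mem' := fun {β} a => ⟨fun u => by rw [← a.1]; simp, fun u => by rw [← a.2]; simp⟩ }
  let φ : Γ → U ⧸ Z.subgroupOf U →* U ⧸ Z.subgroupOf U := fun β => QuotientGroup.map _ _
    ((β.1.toMonoidHom.comp U.subtype).codRestrict U fun u => (β.2.1 u).2 u.2) fun u a => (β.2.2 u).2 a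
  let _ : MulDistribMulAction Γ (U ⧸ Z.subgroupOf U) :=
    { smul := fun d => φ d
      one_smul := fun w => by
        obtain ⟨a, rfl⟩ := QuotientGroup.mk_surjective w
        rfl
      mul_smul := fun c d w => by
        obtain ⟨a, rfl⟩ := QuotientGroup.mk_surjective w
        rfl
      smul_one := fun d => map_one (φ d)
      smul_mul := fun d => map_mul (φ d) }
  let ψ := MulDistribMulAction.toMulAut Γ (U ⧸ Z.subgroupOf U)
  let c : T →* Γ := (MulAut.conj.comp T.subtype).codRestrict Γ fun t =>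
    ⟨fun u => (mem_normalizer_iff.1 (hT t.2) u).symm, fun u => (mem_normalizer_iff.1 (hT' t.2) u).symm⟩
  let q := QuotientGroup.mk' (Z.subgroupOf U)
  have hq := QuotientGroup.mk'_surjective (Z.subgroupOf U)
  have k : ∀ u : U, q u ∈ (M.subgroupOf U).map q ↔ u.1 ∈ M := fun u => by
    rw [← mem_comap, comap_map_eq_self (by
      rw [QuotientGroup.ker_mk']; exact comap_mono hM.1.1), mem_subgroupOf]
  obtain ⟨x, y, a1, a2⟩ := panel hp (hU.to_quotient _) (A := (ψ.comp c).range) (by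
      rintro _ ⟨a, rfl⟩ _ ⟨b, rfl⟩
      rw [← map_mul, hc.1.1, map_mul]) (fun e => hA (e.trans (card_range_dvd _)))
    (M := (M.subgroupOf U).map q)
    (fun e => hM.1.2.1.not_ge fun u a => (k ⟨u, a⟩).1 (e.ge (mem_top _))) (by
      rintro _ ⟨t, rfl⟩ _ ⟨m, a, rfl⟩
      exact (k ⟨_, _⟩).2 ((mem_normalizer_iff.1 (hM.1.2.2 t.2) m).1 a)) fun Y a b v d => by
      obtain ⟨u, rfl⟩ := hq v
      have m := hM.2
      refine (k u).2 (m (a := (Y.comap q).map U.subtype) ⟨fun z f => ⟨⟨z, hM.1.2.1.le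
        (hM.1.1 f)⟩, ?_, rfl⟩, lt_of_le_of_ne (map_subtype_le _) fun e => a (eq_top_iff.2 fun v _ => ?_),
        fun t f => mem_normalizer_fintype ?_⟩ ⟨u, d, rfl⟩)
      · rw [SetLike.mem_coe, mem_comap, show q _ = 1 from (QuotientGroup.eq_one_iff _).2 f]
        exact one_mem Y
      · obtain ⟨u, rfl⟩ := hq v
        obtain ⟨u', f, i⟩ := e.ge u.2
        exact Subtype.ext i ▸ f
      · rintro _ ⟨u, i, rfl⟩
        exact ⟨⟨_, (mem_normalizer_iff.1 (hT f) u).1 u.2⟩, b _ ⟨⟨t, f⟩, rfl⟩ _ i, rfl⟩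
  obtain ⟨x, rfl⟩ := hq x
  obtain ⟨y, rfl⟩ := hq y
  refine ⟨x, x.2, y, y.2, fun e => a1 (QuotientGroup.eq.2 e), fun β b1 b2 b3 b4 b5 u b6 => ?_⟩
  have := a2 (ψ ⟨β, b1, b2⟩) (by
      rintro _ ⟨t, rfl⟩
      refine ⟨⟨β t, b3 t t.2⟩, ?_⟩
      rw [MonoidHom.comp_apply, MonoidHom.comp_apply, ← map_inv, ← map_mul, ← map_mul]
      exact congrArg ψ (Subtype.ext (MulEquiv.ext fun u => by simp [c])))
    ((QuotientGroup.eq (s := Z.subgroupOf U) (a := x) (b := ⟨_, (b1 x).2 x.2⟩)).2 b4).symm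
    ((QuotientGroup.eq (s := Z.subgroupOf U) (a := y) (b := ⟨_, (b1 y).2 y.2⟩)).2 b5).symm
  exact (QuotientGroup.eq (s := Z.subgroupOf U) (a := ⟨u, b6⟩) (b := ⟨_, (b1 u).2 b6⟩)).1
    (DFunLike.congr_fun this (q ⟨u, b6⟩)).symm

end Pool.Agent.MP_983df8_al

end MrgPart1

-- ======== part 2: formerly Pool.Agent.MP_983df8_al.Clif3
section MrgPart2

namespace Pool.Agent.MP_983df8_al

open Matrix Subgroup

theorem exists_central {G : Type*} [Group G] [Finite G] (ho : Odd (Nat.card G)) {W : Subgroup G}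
    [W.Normal] (hc : ∀ a ∈ W, ∀ b ∈ W, a * b = b * a) (h3 : ∀ a ∈ W, a ^ 3 = 1)
    (h9 : Nat.card W ≤ 9) {w : G} (hw : w ∈ W) (h1 : w ≠ 1) :
    ∃ w ∈ W, w ≠ 1 ∧ ∀ g, g * w * g⁻¹ = w := by
  have hf : ∀ g a b : G, g * a * g⁻¹ = b → g * b * g⁻¹ = a → b = a := fun g a b e e' =>
    e ▸ mul_inv_eq_iff_eq_mul.2 (mem_of_sq ho (A := centralizer {a}) (b := g) (by
      rintro _ rfl
      rw [← e] at e'
      rw [sq]
      conv_lhs => rw [← e']
      group) a rfl).symm
  let O := MulAction.orbit (ConjAct G) w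
  have hO : ∀ a, a ∈ O ↔ ∃ g, g * w * g⁻¹ = a := fun a => Iff.rfl
  have hW : ∀ a ∈ O, a ∈ W := fun a ⟨g, e⟩ => e ▸ ‹W.Normal›.conj_mem w hw _
  have hcl : ∀ a ∈ O, ∀ g, g * a * g⁻¹ ∈ O := fun a ha g =>
    ((hO a).1 ha).elim fun k e => (hO _).2 ⟨g * k, by rw [← e]; group⟩
  have a1 : Odd O.ncard := MulAction.index_stabilizer (ConjAct G) w ▸
    ho.of_dvd_nat (index_dvd_card _)
  have a2 : Disjoint O O⁻¹ := Set.disjoint_left.2 fun a ha hb => by
    obtain ⟨g, e⟩ := (hO _).1 ha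
    obtain ⟨k, e'⟩ := (hO _).1 (Set.mem_inv.1 hb)
    have b := hf (k * g⁻¹) a a⁻¹ (by rw [← e', ← e]; group) (by
      calc _ = (k * (g⁻¹ * a * g) * k⁻¹)⁻¹ := by group
        _ = _ := by rw [show g⁻¹ * a * g = w by rw [← e]; group, e', inv_inv])
    have c := h3 a (hW a ha)
    rw [pow_succ, sq, ← eq_inv_iff_mul_eq_one.1 b.symm, mul_eq_left, ← e, conj_eq_one_iff] at c
    exact h1 c
  have a3 := Set.ncard_le_ncard (s := O ∪ O⁻¹) (t := W) (Set.union_subset hW
    fun a ha => W.inv_mem_iff.1 (hW _ ha))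
  rw [Set.ncard_union_eq a2, Set.ncard_inv] at a3
  have a4 : O.ncard = 1 ∨ O.ncard = 3 := by
    obtain ⟨k, hk⟩ := a1
    have : (W : Set G).ncard = Nat.card W := rfl
    omega
  have m := (hO w).2 ⟨1, by simp⟩
  rcases a4 with a4 | a4
  · obtain ⟨a, ha⟩ := Set.ncard_eq_one.1 a4
    exact ⟨w, hw, h1, fun g => (ha.le (hcl w m g)).trans (ha.le m).symm⟩
  obtain ⟨a, b, c, n1, n2, n3, e⟩ := Set.ncard_eq_three.1 a4
  have ma : a ∈ O := e ▸ by simp
  have mb : b ∈ O := e ▸ by simp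
  have mc : c ∈ O := e ▸ by simp
  have key : ∀ g, (g * a * g⁻¹ = a ∧ g * b * g⁻¹ = b ∧ g * c * g⁻¹ = c) ∨
      (g * a * g⁻¹ = b ∧ g * b * g⁻¹ = c ∧ g * c * g⁻¹ = a) ∨
      (g * a * g⁻¹ = c ∧ g * b * g⁻¹ = a ∧ g * c * g⁻¹ = b) := fun g => by
    have b1 := e.le (hcl a ma g)
    have b2 := e.le (hcl b mb g)
    have b3 := e.le (hcl c mc g)
    have c1 := hf g a b
    have c2 := hf g a c
    have c3 := hf g b c
    have d1 : g * a * g⁻¹ ≠ g * b * g⁻¹ := by simpa using n1
    have d2 : g * a * g⁻¹ ≠ g * c * g⁻¹ := by simpa using n2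
    have d3 : g * b * g⁻¹ ≠ g * c * g⁻¹ := by simpa using n3
    simp only [Set.mem_insert_iff, Set.mem_singleton_iff] at b1 b2 b3
    grind
  let _ : CommGroup W := { (inferInstance : Group W) with
    mul_comm := fun x y => Subtype.ext (hc _ x.2 _ y.2) }
  obtain ⟨a, rfl⟩ : ∃ x : W, x = a := ⟨⟨a, hW a ma⟩, rfl⟩
  obtain ⟨b, rfl⟩ : ∃ x : W, x = b := ⟨⟨b, hW b mb⟩, rfl⟩
  obtain ⟨c, rfl⟩ : ∃ x : W, x = c := ⟨⟨c, hW c mc⟩, rfl⟩
  by_cases z : a * b * c = 1
  · refine ⟨a * (b : G)⁻¹, (a * b⁻¹).2, fun e => n1 (mul_inv_eq_one.1 e), fun g => ?_⟩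
    have t1 : a ^ 3 = 1 := Subtype.ext (h3 _ a.2)
    have t2 : b ^ 3 = 1 := Subtype.ext (h3 _ b.2)
    obtain rfl : c = (a * b)⁻¹ := eq_inv_of_mul_eq_one_right z
    have u1 : b * (a * b)⁻¹⁻¹ = a * b⁻¹ := by
      rw [inv_inv, mul_left_comm, mul_right_inj, eq_inv_iff_mul_eq_one, ← t2, pow_three']
    have u2 : (a * b)⁻¹ * a⁻¹ = a * b⁻¹ := by
      rw [mul_inv, mul_right_comm, mul_left_inj, ← mul_inv, inv_eq_iff_mul_eq_one, ← t1, pow_three']
    rw [show g * (a * (b : G)⁻¹) * g⁻¹ = g * a * g⁻¹ * (g * b * g⁻¹)⁻¹ by group]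
    rcases key g with k | k | k <;> rw [k.1, k.2.1]
    exacts [congrArg Subtype.val u1, congrArg Subtype.val u2]
  · refine ⟨a * b * c, (a * b * c).2, fun e => z (Subtype.ext e), fun g => ?_⟩
    rw [show g * (a * b * c : G) * g⁻¹ = g * a * g⁻¹ * (g * b * g⁻¹) * (g * c * g⁻¹) by group]
    rcases key g with k | k | k <;> rw [k.1, k.2.1, k.2.2]
    exacts [congrArg Subtype.val (mul_rotate a b c).symm, congrArg Subtype.val (mul_rotate c a b)]

variable {F : Type*} [Field F] {p : ℕ} [Fact p.Prime] [CharP F p]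
variable {Γ : Type*} [Group Γ] [Finite Γ]

/-- the elements acting as scalars -/
def scal {n : Type*} [Fintype n] [DecidableEq n] (θ : Γ →* Matrix n n F) : Subgroup Γ where
  carrier := {z | ∃ c : F, θ z = c • 1}
  one_mem' := ⟨1, by simp⟩
  mul_mem' := fun ⟨c, hc⟩ ⟨d, hd⟩ => ⟨d * c, by simp [hc, hd, smul_smul]⟩
  inv_mem' := fun {z} ⟨c, hc⟩ => by
    have : θ z * θ z⁻¹ = 1 := by rw [← map_mul, mul_inv_cancel, map_one]
    by_cases h : c = 0
    · exact ⟨0, by rw [← mul_one (θ z⁻¹), ← this, hc, h]; simp⟩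
    · exact ⟨c⁻¹, by rw [← this, hc, smul_mul, one_mul, inv_smul_smul₀ h]⟩

instance scal_normal {n : Type*} [Fintype n] [DecidableEq n] (θ : Γ →* Matrix n n F) :
    (scal θ).Normal := ⟨fun z ⟨c, hc⟩ g => ⟨c, by
  rw [map_mul, map_mul, hc, Matrix.mul_smul, mul_one, smul_mul, ← map_mul, mul_inv_cancel,
    map_one]⟩⟩

theorem scal_of_unip {n : Type*} [Fintype n] [DecidableEq n] [Nonempty n] {θ : Γ →* Matrix n n F}
    (hp : ¬ p ∣ (scal θ).index) {g : Γ} {a : F} (h : (θ g - a • 1) ^ 3 = 0) : g ∈ scal θ :=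
  (QuotientGroup.eq_one_iff g).1 (eq_one_of_cop (J := ⊤) (m := p ^ 2) (by
    rw [card_top]; exact ((Fact.out : p.Prime).coprime_iff_not_dvd.2 hp).pow_left 2) (mem_top _)
    ((QuotientGroup.eq_one_iff (g ^ p ^ 2)).2 ⟨a ^ p ^ 2, by
      rw [map_pow, pow_char_sq ((Commute.one_right _).smul_right a) h, smul_pow, one_pow]⟩))

theorem exists_comm_conj [Group.IsSolvable Γ] {θ : Γ →* M3 F} (hd : ∀ g, (θ g).det = 1)
    (ho : Odd (scal θ).index) (h : scal θ ≠ ⊤) :
    ∃ n ∉ scal θ, ∀ g, Commute (θ n) (θ (g * n * g⁻¹)) := by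
  obtain ⟨N, f1, -, f3, f4⟩ := exists_layer (E := ⊤) (U := scal θ) fun e => h (top_le_iff.1 e)
  by_contra hcon
  have h0 : ∀ n ∈ N, (∀ m ∈ N, Commute (θ n) (θ m)) → n ∈ scal θ := fun n hn a => by
    by_contra b
    exact hcon ⟨n, b, fun g => a _ (f1.conj_mem n hn g)⟩
  have h1 : ∀ n ∈ N, ∀ m ∈ N, ∃ c : F, c ^ 3 = 1 ∧ θ n * θ m = c • (θ m * θ n) := fun n hn m hm => by
    obtain ⟨c, hc⟩ := f4 n hn m hm
    refine ⟨c, by simpa [hc] using hd (n * m * n⁻¹ * m⁻¹), ?_⟩
    rw [← map_mul, show n * m = n * m * n⁻¹ * m⁻¹ * (m * n) by group, map_mul, hc, smul_mul, one_mul,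
      map_mul]
  have h2 : ∀ n ∈ N, n ∉ scal θ → (θ n).trace = 0 ∧ (3 : F) ≠ 0 := fun n hn a => by
    obtain ⟨m, hm, b⟩ : ∃ m ∈ N, ¬ Commute (θ n) (θ m) := by
      by_contra b
      push Not at b
      exact a (h0 n hn b)
    obtain ⟨c, c1, c2⟩ := h1 n hn m hm
    have c3 : c ≠ 1 := fun e => b (show _ * _ = _ * _ by simpa [e] using c2)
    have := congrArg (fun X => (θ m⁻¹ * X).trace) c2
    simp only [Matrix.mul_smul, ← mul_assoc, trace_smul, smul_eq_mul] at this
    rw [trace_mul_cycle, ← map_mul, ← map_mul θ m⁻¹, mul_inv_cancel, inv_mul_cancel, map_one,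
      one_mul] at this
    exact ⟨by grind, fun e => c3 (by grind)⟩
  obtain ⟨n, n1, n2⟩ := SetLike.not_le_iff_exists.1 f3
  let π := QuotientGroup.mk' (scal θ)
  have := f1.map π (QuotientGroup.mk'_surjective _)
  have hk : ∀ g, π g = 1 ↔ g ∈ scal θ := QuotientGroup.eq_one_iff
  obtain ⟨_, ⟨m, m1, rfl⟩, m2, m3⟩ := exists_central (G := Γ ⧸ scal θ) ho (W := N.map π) (by
      rintro _ ⟨a, ha, rfl⟩ _ ⟨b, hb, rfl⟩
      rw [← mul_inv_eq_one, _root_.mul_inv_rev, ← mul_assoc]
      exact (hk (a * b * a⁻¹ * b⁻¹)).2 (f4 a ha b hb)) (by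
      rintro _ ⟨a, ha, rfl⟩
      refine (hk (a ^ 3)).2 (h0 _ (N.pow_mem ha 3) fun b hb => ?_)
      obtain ⟨c, c1, c2⟩ := h1 a ha b hb
      have k : ∀ X, θ a * (θ b * X) = c • (θ b * (θ a * X)) := fun X => by
        rw [← mul_assoc, c2, smul_mul, mul_assoc]
      simp only [Commute, SemiconjBy, pow_three, map_mul, mul_assoc, c2, Matrix.mul_smul, k,
        smul_smul]
      rw [← pow_three, c1, one_smul]) (by
      choose f f1 f2 using fun w : N.map π => w.2
      have := Fintype.ofFinite (N.map π)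
      rw [Nat.card_eq_fintype_card]
      exact (Fintype.linearIndependent_iff.2 fun s hs w => by
        have := congrArg (fun X => (θ (f w)⁻¹ * X).trace) hs
        simp only [Finset.mul_sum, Matrix.mul_smul, ← map_mul, trace_sum, trace_smul] at this
        rw [Finset.sum_eq_single_of_mem w (Finset.mem_univ _) fun v _ hv => by
          rw [(h2 _ (N.mul_mem (N.inv_mem (f1 w)) (f1 v)) fun e => hv (Subtype.ext (by
            have := (hk _).2 e
            rwa [map_mul, map_inv, f2, f2, inv_mul_eq_one, eq_comm] at this))).1, smul_zero]] at this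
        simpa [(h2 n n1 n2).2] using this :
        LinearIndependent F fun w : N.map π => θ (f w)).fintype_card_le_finrank.trans
        (by simp [Module.finrank_matrix]))
    ⟨n, n1, rfl⟩ (mt (hk n).1 n2)
  refine hcon ⟨m, mt (hk m).2 m2, fun g => ?_⟩
  obtain ⟨c, hc⟩ := (hk (g * m * g⁻¹ * m⁻¹)).1 (mul_inv_eq_one.2 (m3 g))
  rw [show g * m * g⁻¹ = g * m * g⁻¹ * m⁻¹ * m by group, map_mul, hc, smul_mul, one_mul]
  exact (Commute.refl _).smul_right c

end Pool.Agent.MP_983df8_al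

end MrgPart2

-- ======== part 3: formerly Pool.Agent.MP_983df8_al.Clif4
section MrgPart3

namespace Pool.Agent.MP_983df8_al

open Matrix Subgroup

variable {F : Type*} [Field F] {p : ℕ} [Fact p.Prime] [CharP F p]
variable {Γ : Type*} [Group Γ] [Finite Γ]

theorem mem_of_sq' {A Z : Subgroup Γ} [Z.Normal] (ho : Odd Z.index) (h : Z ≤ A) {g : Γ}
    (hg : g * g ∈ A) : g ∈ A := by
  obtain ⟨k, hk⟩ := ho
  have := A.mul_mem (A.inv_mem (h (Z.pow_index_mem g))) (A.pow_mem hg (k + 1))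
  rwa [hk, ← sq, ← pow_mul, show 2 * (k + 1) = 2 * k + 1 + 1 by ring, pow_succ _ (2 * k + 1),
    inv_mul_cancel_left] at this

theorem cliff3 [IsAlgClosed F] [Group.IsSolvable Γ] {θ : Γ →* M3 F} (hd : ∀ g, (θ g).det = 1)
    (ho : Odd (scal θ).index) (hp : ¬ p ∣ (scal θ).index)
    (hc : ∀ X : M3 F, (∀ g, θ g * X = X * θ g) → ∃ c : F, X = c • (1 : M3 F)) :
    3 ∣ (scal θ).index ∧ ∃ A : Subgroup Γ, (∀ g, g * g ∈ A → g ∈ A) ∧
      (∀ g ∈ A, ∀ g' ∈ A, Commute (θ g) (θ g')) ∧ ∀ g ∉ A, (θ g).trace = 0 := by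
  obtain ⟨n, hn', hn⟩ := exists_comm_conj hd ho fun e => by
    obtain ⟨c, a⟩ := hc (single 0 1 1) fun g => by
      obtain ⟨c, a⟩ := e.ge (mem_top g)
      simp [a]
    simpa using congrFun (congrFun a 0) 1
  have hi : ∀ g, θ g⁻¹ * θ g = 1 := fun g => by rw [← map_mul, inv_mul_cancel, map_one]
  have hi' : ∀ g, θ g * θ g⁻¹ = 1 := fun g => by rw [← map_mul, mul_inv_cancel, map_one]
  let _ : MulSemiringAction Γ (M3 F) :=
    { smul := fun g X => θ g * X * θ g⁻¹
      one_smul := fun X => by show θ 1 * X * θ 1⁻¹ = X; simp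
      mul_smul := fun a b X => by
        show θ (a * b) * X * θ (a * b)⁻¹ = θ a * (θ b * X * θ b⁻¹) * θ a⁻¹
        simp only [_root_.mul_inv_rev, map_mul, mul_assoc]
      smul_zero := fun a => by show θ a * 0 * θ a⁻¹ = 0; simp
      smul_add := fun a X Y => by
        show θ a * (X + Y) * θ a⁻¹ = θ a * X * θ a⁻¹ + θ a * Y * θ a⁻¹
        rw [mul_add, add_mul]
      smul_one := fun a => by show θ a * 1 * θ a⁻¹ = 1; rw [mul_one, hi']
      smul_mul := fun a X Y => by
        show θ a * (X * Y) * θ a⁻¹ = θ a * X * θ a⁻¹ * (θ a * Y * θ a⁻¹)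
        rw [mul_assoc (θ a * X), ← mul_assoc (θ a⁻¹), ← mul_assoc (θ a⁻¹), hi, one_mul]
        simp only [mul_assoc] }
  have hs : ∀ (g : Γ) (X : M3 F), g • X = θ g * X * θ g⁻¹ := fun _ _ => rfl
  have hs' : ∀ (g : Γ) (c : F) (X : M3 F), g • c • X = c • g • X := fun g c X => by
    rw [hs, hs, Matrix.mul_smul, smul_mul]
  have ht : ∀ (g : Γ) (X : M3 F), (g • X).trace = X.trace := fun g X => by
    rw [hs, trace_mul_comm, ← mul_assoc, hi, one_mul]
  obtain ⟨a, a1, a2⟩ := exists_simple (θ n) fun a e => hn' (scal_of_unip hp e)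
  set A := θ n - a • 1 with hA
  set E := (adjugate A).trace⁻¹ • adjugate A with hE
  have e1 : adjugate E = 0 := by rw [hE, adjugate_smul, adjugate_adjugate', a1]; simp
  have e2 : E.trace = 1 := by rw [hE, trace_smul, smul_eq_mul, inv_mul_cancel₀ a2]
  have e3 : E * E = E := by simpa [e2] using rank_one e1 1
  have e4 : ∀ X, Commute X A → Commute X E := fun X h => by
    rw [hE, adj3]
    exact (((h.mul_right h).sub_right (h.smul_right _)).add_right
      ((Commute.one_right X).smul_right _)).smul_right _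
  have e5 : ∀ g : Γ, Commute E (g • E) := fun g => by
    have b1 : Commute (g⁻¹ • A) A := by
      have : g⁻¹ • θ n = θ (g⁻¹ * n * g⁻¹⁻¹) := by rw [hs, map_mul, map_mul]
      rw [hA, smul_sub, hs', smul_one, this]
      exact (((hn _).symm.sub_right ((Commute.one_right _).smul_right _)).sub_left
        ((Commute.one_left _).smul_left _))
    have b2 := e4 _ (show Commute (g • E) A by
      simpa only [Commute, SemiconjBy, smul_mul', smul_inv_smul] using
        congrArg (g • ·) (e4 _ b1).symm.eq)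
    exact b2.symm
  have e6 : ∀ g : Γ, g • E = E ∨ E * g • E = 0 := fun g => by
    have b1 : E * g • E = (g • E * E).trace • E := by
      rw [← rank_one e1, mul_assoc, ← (e5 g).eq, ← mul_assoc, e3]
    have b2 : E * g • E = (g • E * E).trace • g • E := by
      have := congrArg (g • ·) (rank_one e1 (g⁻¹ • E))
      simp only [smul_mul', smul_inv_smul, hs'] at this
      rw [← ht g, smul_mul', smul_inv_smul, ← (e5 g).eq, mul_assoc, ← smul_mul', e3] at this
      rwa [← (e5 g).eq]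
    by_cases b : (g • E * E).trace = 0
    · exact Or.inr (by rw [b1, b, zero_smul])
    · exact Or.inl (smul_right_injective _ b (b2.symm.trans b1))
  have e7 : ∀ X Y : MulAction.orbit Γ E, X ≠ Y → X.1 * Y.1 = 0 := by
    rintro ⟨_, g, rfl⟩ ⟨_, g', rfl⟩ h
    refine (e6 (g⁻¹ * g')).elim (fun e => (h (Subtype.ext ?_)).elim) fun e => ?_
    · rw [mul_smul, inv_smul_eq_iff] at e
      exact e.symm
    · simpa [smul_mul', mul_smul] using congrArg (g • ·) e
  have e8 : ∀ X : MulAction.orbit Γ E, X.1 * X.1 = X.1 ∧ X.1.trace = 1 := by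
    rintro ⟨_, g, rfl⟩
    exact ⟨by rw [← smul_mul', e3], (ht g E).trans e2⟩
  have : Finite (MulAction.orbit Γ E) := (Set.finite_range _).to_subtype
  have := Fintype.ofFinite (MulAction.orbit Γ E)
  obtain ⟨c, hc'⟩ := hc (∑ X : MulAction.orbit Γ E, X.1) fun g => by
    have : g • ∑ X : MulAction.orbit Γ E, X.1 = ∑ X : MulAction.orbit Γ E, X.1 := by
      rw [Finset.smul_sum]
      exact Equiv.sum_comp (MulAction.toPerm g) fun X : MulAction.orbit Γ E => X.1
    conv_rhs => rw [← this, hs, mul_assoc, hi, mul_one]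
  have b1 := congrArg (fun X => (X * E).trace) hc'
  simp only [Finset.sum_mul] at b1
  rw [Finset.sum_eq_single_of_mem ⟨E, MulAction.mem_orbit_self E⟩ (Finset.mem_univ _)
    fun X _ h => e7 X _ h, e3, smul_mul, one_mul, e2, trace_smul, e2, smul_eq_mul, mul_one] at b1
  rw [← b1, one_smul] at hc'
  have hZ : ∀ z ∈ scal θ, ∀ X : M3 F, z • X = X := fun z ⟨c, e⟩ X => by
    rw [hs, e, smul_mul, one_mul, smul_mul, ← Matrix.mul_smul, ← one_mul (θ z⁻¹), ← smul_mul, ← e,
      hi', mul_one]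
  have b3 : Fintype.card (MulAction.orbit Γ E) ≤ 3 := by
    have : ∀ X : MulAction.orbit Γ E, ∃ u, X.1 *ᵥ u ≠ 0 := fun X => by
      by_contra h
      push Not at h
      have := (e8 X).2
      rw [ext_iff_mulVec.2 fun u => (h u).trans (zero_mulVec u).symm, trace_zero] at this
      exact zero_ne_one this
    choose u hu using this
    simpa using (Fintype.linearIndependent_iff.2 fun s hs X => by
      have := congrArg (X.1 *ᵥ ·) hs
      simp only [mulVec_sum, mulVec_smul, mulVec_mulVec, mulVec_zero] at this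
      rw [Finset.sum_eq_single_of_mem X (Finset.mem_univ _) fun Y _ h => by
        rw [e7 X Y h.symm, zero_mulVec, smul_zero], (e8 X).1] at this
      exact (smul_eq_zero.1 this).resolve_right (hu X) :
        LinearIndependent F fun X : MulAction.orbit Γ E => X.1 *ᵥ u X).fintype_card_le_finrank
  have b4 : Fintype.card (MulAction.orbit Γ E) ∣ (scal θ).index := by
    rw [← Nat.card_eq_fintype_card, Nat.card_coe_set_eq, ← MulAction.index_stabilizer]
    exact Subgroup.index_dvd_of_le fun z hz => hZ z hz E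
  have b5 : 0 < Fintype.card (MulAction.orbit Γ E) :=
    Fintype.card_pos_iff.2 ⟨⟨E, MulAction.mem_orbit_self E⟩⟩
  have b6 : Fintype.card (MulAction.orbit Γ E) = 3 := by
    have c1 : Fintype.card (MulAction.orbit Γ E) ≠ 1 := fun e => by
      obtain ⟨X, hX⟩ := Fintype.card_eq_one_iff.1 e
      rw [Finset.sum_eq_single_of_mem ⟨E, MulAction.mem_orbit_self E⟩ (Finset.mem_univ _)
        fun Y _ h => absurd ((hX _).trans (hX _).symm) h] at hc'
      rw [show E = 1 from hc', adjugate_one] at e1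
      exact one_ne_zero e1
    obtain ⟨k, hk⟩ := ho.of_dvd_nat b4
    omega
  let A := (MulAction.toPermHom Γ (MulAction.orbit Γ E)).ker
  have hA' : ∀ g, g ∈ A ↔ ∀ X : MulAction.orbit Γ E, g • X = X := fun g => Equiv.ext_iff
  have c1 : ∀ g, g * g ∈ A → g ∈ A := fun g => mem_of_sq' ho fun z hz =>
    (hA' z).2 fun X => Subtype.ext (hZ z hz X)
  have c2 : ∀ (g : Γ) (X : M3 F), θ g * X = g • X * θ g := fun g X => by
    rw [hs, mul_assoc, hi, mul_one]
  have c3 : ∀ X : MulAction.orbit Γ E, adjugate X.1 = 0 := by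
    rintro ⟨_, g, rfl⟩
    show adjugate (θ g * E * θ g⁻¹) = 0
    simp [adjugate_mul_distrib, e1]
  refine ⟨by rwa [b6] at b4, A, c1, fun g hg g' hg' => ?_, fun g hg => ?_⟩
  · have d : ∀ g ∈ A, ∀ X : MulAction.orbit Γ E, θ g * X.1 = (θ g * X.1).trace • X.1 :=
      fun g hg X => by
        rw [← rank_one (c3 X), mul_assoc]
        conv_rhs => rw [c2, show g • X.1 = X.1 from congrArg Subtype.val ((hA' g).1 hg X),
          ← mul_assoc, (e8 X).1, ← show g • X.1 = X.1 from congrArg Subtype.val ((hA' g).1 hg X),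
          ← c2]
    show _ * _ = _ * _
    rw [← mul_one (θ g * θ g'), ← mul_one (θ g' * θ g), ← hc', Finset.mul_sum, Finset.mul_sum]
    refine Finset.sum_congr rfl fun X _ => ?_
    rw [mul_assoc, mul_assoc, d g' hg', d g hg, Matrix.mul_smul, Matrix.mul_smul, d g' hg', d g hg,
      trace_smul, trace_smul, (e8 X).2, smul_comm]
    simp
  rw [← mul_one (θ g), ← hc', Finset.mul_sum, trace_sum]
  refine Finset.sum_eq_zero fun X _ => ?_
  have d : X ≠ g • X := fun e => hg (c1 g (by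
    let ε := Fintype.equivFinOfCardEq b6
    have := (by decide : ∀ (σ : Equiv.Perm (Fin 3)) x, σ x = x → ∀ y, σ (σ y) = y)
      (ε.permCongr (MulAction.toPerm g)) (ε X) (by simp [← e])
    exact (hA' _).2 fun Y => by simpa [mul_smul] using this (ε Y)))
  rw [← (e8 X).1, ← mul_assoc, c2, trace_mul_cycle, show X.1 * g • X.1 = 0 from e7 X _ d, zero_mul,
    trace_zero]

theorem cliff2 [Group.IsSolvable Γ] {θ : Γ →* M2 F} (hd : ∀ g, (θ g).det = 1)
    (ho : Odd (scal θ).index) (hp : ¬ p ∣ (scal θ).index) (g g' : Γ) : Commute (θ g) (θ g') := by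
  by_cases h : ⊤ ≤ scal θ
  · obtain ⟨c, e⟩ := h (mem_top g)
    rw [e]
    exact (Commute.one_left _).smul_left c
  obtain ⟨N, f1, -, f3, f4⟩ := exists_layer (E := ⊤) h
  obtain ⟨n, n1, n2⟩ := SetLike.not_le_iff_exists.1 f3
  have n3 : ∀ c : F, θ n ≠ c • 1 := fun c e => n2 ⟨c, e⟩
  let C : Subgroup Γ :=
    { carrier := {g | Commute (θ g) (θ n)}
      one_mem' := by simp
      mul_mem' := fun a b => by simpa using Commute.mul_left a b
      inv_mem' := fun {a} b => by
        have := congrArg (fun X => θ a⁻¹ * X * θ a⁻¹) b.eq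
        simp only [← map_mul, mul_assoc, mul_inv_cancel, inv_mul_cancel_left, mul_one] at this
        simpa only [Set.mem_setOf_eq, Commute, SemiconjBy, ← map_mul] using this.symm }
  have hC : ∀ g, g * g ∈ C → g ∈ C := fun g => mem_of_sq' ho fun z ⟨c, e⟩ =>
    show Commute (θ z) _ from e ▸ (Commute.one_left _).smul_left c
  have h1 : ∀ m ∈ N, m ∈ C := fun m hm => hC m (by
    obtain ⟨c, e⟩ := f4 m hm n n1
    have c1 : c ^ 2 = 1 := by simpa [e] using hd (m * n * m⁻¹ * n⁻¹)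
    have c2 : ∀ X, θ m * (θ n * X) = c • (θ n * (θ m * X)) := fun X => by
      rw [← mul_assoc, ← map_mul, show m * n = m * n * m⁻¹ * n⁻¹ * (n * m) by group, map_mul, e,
        smul_mul, one_mul, map_mul, smul_mul, mul_assoc]
    have := c2 1
    simp only [mul_one] at this
    show θ (m * m) * _ = _ * _
    rw [map_mul, mul_assoc, this, Matrix.mul_smul, c2, smul_smul, ← sq, c1, one_smul])
  have h2 : ∀ g, g ∈ C := fun g => hC g (by
    obtain ⟨a, b, e⟩ := cent_alg n3 (h1 _ (f1.conj_mem n n1 g)).eq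
    have hi : θ g⁻¹ * θ g = 1 := by rw [← map_mul, inv_mul_cancel, map_one]
    have t1 := congrArg trace e
    have t2 := hd (g * n * g⁻¹)
    have t3 := hd n
    have t4 : (θ n).trace ^ 2 ≠ 4 := fun e' => n2 (by
      obtain ⟨a, a1, a2⟩ : ∃ a : F, a ^ 2 = 1 ∧ (θ n).trace = 2 * a := by
        by_cases c : (θ n).trace = 2
        exacts [⟨1, by simp, by simp [c]⟩, ⟨-1, by simp, by grind⟩]
      refine scal_of_unip hp (a := a) (pow_eq_zero_of_le (by norm_num : 2 ≤ 3) ?_)
      rw [trace_fin_two] at a2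
      rw [det_fin_two] at t3
      simp [sq, m2_ext, m2_mul]
      grind)
    rw [map_mul, map_mul, trace_mul_cycle, hi, one_mul] at t1
    rw [e] at t2
    have t5 : (a = 0 ∧ b = 1) ∨ (a = (θ n).trace ∧ b = -1) := by
      simp [trace_fin_two, det_fin_two] at t1 t2 t3 t4 ⊢
      grind
    have k : ∀ X, θ g * (θ n * X) = (a • 1 + b • θ n) * (θ g * X) := fun X => by
      rw [← e]
      simp only [← map_mul, ← mul_assoc, inv_mul_cancel_right]
    have := k 1
    simp only [mul_one] at this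
    show θ (g * g) * _ = _ * _
    rw [map_mul, mul_assoc, this, add_mul, mul_add, smul_mul, smul_mul, one_mul, Matrix.mul_smul,
      Matrix.mul_smul, k]
    rcases t5 with ⟨rfl, rfl⟩ | ⟨rfl, rfl⟩ <;> simp [sub_mul, add_mul])
  obtain ⟨a, b, e⟩ := cent_alg n3 (h2 g).eq
  rw [e]
  exact ((Commute.one_left _).smul_left a).add_left ((h2 g').symm.smul_left b)

end Pool.Agent.MP_983df8_al

end MrgPart3

-- ======== part 4: formerly Pool.Agent.MP_983df8_al.Glue2
section MrgPart4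

namespace Pool.Agent.MP_983df8_al

open Subgroup

variable {G : Type*} [Group G]

/-- two inequivalent regular tuples in `R` for the action of the normaliser of `R` in `H` -/
def LocG2 (ι : Type) (H R : Subgroup G) : Prop :=
  ∃ x : ι → ZMod 2 → G, (∀ a i, x a i ∈ R) ∧ ∀ n ∈ H, ∀ i j, (∀ s ∈ R, n * s * n⁻¹ ∈ R) →
    (∀ a, ∃ n' ∈ H, ∀ s ∈ R,
      n' * s * n'⁻¹ = (x a i * n * (x a j)⁻¹) * s * (x a i * n * (x a j)⁻¹)⁻¹) →
    i = j ∧ ∀ s ∈ R, Commute n s

theorem LocG.two {ι : Type} {H R : Subgroup G} (h : LocG ι H R) : LocG2 ι H R := by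
  obtain ⟨x, h1, h2⟩ := h
  exact ⟨fun a i => x a i.val, fun a i => h1 _ _, fun n hn i j a1 a2 => (h2 n hn _ _ a1 a2).imp_left
    ((by decide : ∀ i j : ZMod 2, (i.val : ZMod 7) = j.val → i = j) i j)⟩

theorem glue2 [Finite G] (hR : RadicalTrivial G) {ι : Type} {H : Subgroup G} [Group.IsSolvable H]
    (ho : Odd (Nat.card H)) (hL : ∀ R, IsComp R → LocG2 ι H R) :
    ∃ X : ι → G, ∀ k ∈ H, (∀ a, X a * k * (X a)⁻¹ ∈ H) → k = 1 := by
  let _ := compAct H
  have hmem : ∀ (h : H) (S : {S : Subgroup G // IsComp S}) (g : G),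
      g ∈ (h • S).1 ↔ (h : G)⁻¹ * g * h ∈ S.1 := fun h S g => by
    show g ∈ S.1.map _ ↔ _
    rw [mem_map_equiv]
    rfl
  obtain ⟨col, hcol⟩ := exists_dist2 ho {S : Subgroup G // IsComp S}
  choose x hx hx' using fun R : {S : Subgroup G // IsComp S} => hL R.1 R.2
  let r := MulAction.orbitRel H {S : Subgroup G // IsComp S}
  let rep := fun S : {S : Subgroup G // IsComp S} => (Quotient.mk r S).out
  have hrep : ∀ S, ∃ u : H, u • rep S = S := fun S => r.symm (Quotient.mk_out S)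
  choose u hu using hrep
  have hu' : ∀ S g, g ∈ (rep S).1 → (u S : G) * g * (u S : G)⁻¹ ∈ S.1 := fun S g hg => by
    have := (hmem (u S) (rep S) ((u S : G) * g * (u S : G)⁻¹)).2 (by simpa [mul_assoc] using hg)
    rwa [hu] at this
  choose X hX using fun a => exists_glued
    (fun S => (u S : G) * x (rep S) a (col S) * (u S : G)⁻¹) fun S => hu' S _ (hx _ _ _)
  refine ⟨X, fun k hk hXk => ?_⟩
  have key : ∀ S, col ((⟨k, hk⟩ : H) • S) = col S ∧
      ∀ s ∈ (rep S).1, Commute ((u ((⟨k, hk⟩ : H) • S) : G)⁻¹ * k * u S) s := by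
    intro S
    set T := (⟨k, hk⟩ : H) • S with hT
    have hrT : rep T = rep S := congrArg Quotient.out (Quotient.sound (s := r) ⟨⟨k, hk⟩, rfl⟩)
    have hkS : ∀ g ∈ S.1, k * g * k⁻¹ ∈ T.1 := fun g hg =>
      (hmem _ S _).2 (by simpa [mul_assoc] using hg)
    refine hx' (rep S) _ (H.mul_mem (H.mul_mem (H.inv_mem (u T).2) hk) (u S).2) _ _
      (fun s hs => ?_) fun a => ⟨(u T : G)⁻¹ * (X a * k * (X a)⁻¹) * u S,
        H.mul_mem (H.mul_mem (H.inv_mem (u T).2) (hXk a)) (u S).2, fun s hs => ?_⟩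
    · have := hkS _ (hu' S s hs)
      rw [← hu T, hmem, hrT] at this
      simpa [mul_assoc] using this
    · have m1 := hu' S _ ((rep S).1.mul_mem ((rep S).1.mul_mem ((rep S).1.inv_mem
        (hx (rep S) a (col S))) hs) (hx (rep S) a (col S)))
      have e1 := hX a S _ m1
      have e2 := hX a T _ (hkS _ m1)
      rw [hrT] at e2
      have e3 : (u S : G) * ((x (rep S) a (col S))⁻¹ * s * x (rep S) a (col S)) * (u S : G)⁻¹ =
          (X a)⁻¹ * (u S * s * (u S : G)⁻¹) * X a := by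
        rw [mul_assoc (X a)⁻¹, eq_inv_mul_iff_mul_eq, ← mul_inv_eq_iff_eq_mul, e1]
        group
      calc _ = (u T : G)⁻¹ * (X a * (k * ((X a)⁻¹ * (u S * s * (u S : G)⁻¹) * X a) * k⁻¹) *
            (X a)⁻¹) * u T := by group
        _ = _ := by rw [← e3, e2]; group
  have htriv := hcol ⟨k, hk⟩ fun S => (key S).1
  refine eq_one_of_centralizes hR fun S hS s hs => ?_
  have h1 := (key ⟨S, hS⟩).2 ((u ⟨S, hS⟩ : G)⁻¹ * s * u ⟨S, hS⟩)
    ((hmem _ _ _).1 (by rw [hu]; exact hs))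
  rw [htriv] at h1
  have := congrArg (fun t => (u ⟨S, hS⟩ : G) * t * (u ⟨S, hS⟩ : G)⁻¹) h1.eq
  simpa [Commute, SemiconjBy, mul_assoc] using this

theorem locG2_of_aut [Finite G] {ι : Type} {H R : Subgroup G} (x : ι → ZMod 2 → R)
    (h : ∀ β ∈ autOf H R, ∀ i j,
      (∀ a, MulAut.conj (x a i) * β * (MulAut.conj (x a j))⁻¹ ∈ autOf H R) → i = j ∧ β = 1) :
    LocG2 ι H R := by
  refine ⟨fun a i => x a i, fun a i => (x a i).2, fun n hn i j h1 h2 => ?_⟩
  have hn' : n ∈ normalizer (R : Set G) := mem_normalizer_fintype h1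
  have := h (R.normalizerMonoidHom ⟨n, hn'⟩) ⟨⟨n, hn'⟩, hn, rfl⟩ i j fun a => by
    obtain ⟨n', a1, a2⟩ := h2 a
    have a3 : n' ∈ normalizer (R : Set G) := mem_normalizer_fintype fun s hs => by
      rw [a2 s hs]
      have := R.mul_mem (R.mul_mem (x a i).2 (h1 _ (R.mul_mem (R.mul_mem (R.inv_mem (x a j).2) hs)
        (x a j).2))) (R.inv_mem (x a i).2)
      simpa [mul_assoc] using this
    refine ⟨⟨n', a3⟩, a1, ?_⟩
    ext s
    refine (a2 s s.2).trans ?_
    show _ = (x a i : G) * (n * ((x a j : G)⁻¹ * s * (x a j : G)) * n⁻¹) * (x a i : G)⁻¹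
    group
  refine ⟨this.1, fun s hs => ?_⟩
  have e := congrArg Subtype.val (DFunLike.congr_fun this.2 (⟨s, hs⟩ : R))
  exact mul_inv_eq_iff_eq_mul.1 (show n * s * n⁻¹ = s from e)

theorem two_of_one {S : Type*} [Group S] {B : Subgroup (MulAut S)} (ho : Odd (Nat.card B))
    (hJ : B.comap MulAut.conj ≠ ⊤) (h : ∃ x : Fin 3 → S, ∀ β ∈ B,
      (∀ a, MulAut.conj (x a) * β * (MulAut.conj (x a))⁻¹ ∈ B) → β = 1) :
    ∃ x : Fin 3 → ZMod 2 → S, ∀ β ∈ B, ∀ i j,
      (∀ a, MulAut.conj (x a i) * β * (MulAut.conj (x a j))⁻¹ ∈ B) → i = j ∧ β = 1 := by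
  obtain ⟨x, y, z, h0, h⟩ : ∃ x y z : S, MulAut.conj (x * y⁻¹) ∉ B ∧ ∀ β ∈ B,
      MulAut.conj x * β * (MulAut.conj x)⁻¹ ∈ B → MulAut.conj y * β * (MulAut.conj y)⁻¹ ∈ B →
      MulAut.conj z * β * (MulAut.conj z)⁻¹ ∈ B → β = 1 := by
    obtain ⟨x, h⟩ := h
    by_cases a : MulAut.conj (x 0 * (x 1)⁻¹) ∈ B
    · obtain ⟨u, hu⟩ : ∃ u, u ∉ B.comap MulAut.conj := by simpa [eq_top_iff'] using hJ
      refine ⟨x 0, u⁻¹ * x 0, x 2, by simpa using hu, fun β b c _ d => h β b fun i => ?_⟩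
      fin_cases i
      exacts [c, by simpa [mul_assoc] using B.mul_mem (B.mul_mem (B.inv_mem a) c) a, d]
    · exact ⟨x 0, x 1, x 2, a, fun β b c d f => h β b fun i => by fin_cases i <;> assumption⟩
  have k : ∀ β ∈ B, MulAut.conj x * β * (MulAut.conj y)⁻¹ ∈ B →
      MulAut.conj y * β * (MulAut.conj x)⁻¹ ∈ B → MulAut.conj z * β * (MulAut.conj z)⁻¹ ∈ B →
      False := fun β b c d f => by
    have := h _ (B.mul_mem b b) (by simpa [mul_assoc] using B.mul_mem c d)
      (by simpa [mul_assoc] using B.mul_mem d c) (by simpa [mul_assoc] using B.mul_mem f f)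
    have := eq_one_of_odd (c := β) ho (congrArg Subtype.val (pow_card_eq_one' (x := (⟨β, b⟩ : B))))
      (k := 1) (by simpa [sq] using this)
    exact h0 (by simpa [this] using c)
  refine ⟨fun a i => if i = 0 then ![x, y, z] a else ![y, x, z] a, fun β b i j c => ?_⟩
  have c0 := c 0
  have c1 := c 1
  have c2 := c 2
  fin_cases i <;> fin_cases j
  exacts [⟨rfl, h β b c0 c1 c2⟩, (k β b c0 c1 c2).elim, (k β b c1 c0 c2).elim,
    ⟨rfl, h β b c1 c0 c2⟩]

end Pool.Agent.MP_983df8_al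

end MrgPart4

-- ======== part 5: formerly Pool.Agent.MP_983df8_al.Spec6
section MrgPart5

/-! Statements for the case `2 ∈ π`, `3 ∉ π`. -/

namespace Pool.Agent.MP_983df8_al

universe u v w

/-- a rigid subset of an abelian group of order prime to six -/
def RigX : Prop := ∀ (W : Type u) [CommGroup W] [Finite W], (Nat.card W).Coprime 6 →
  ∃ X : Set W, 1 ∉ X ∧ ∀ φ : W →* W, Function.Injective φ → (∀ w, φ w ∈ X ↔ w ∈ X) → ∀ w, φ w = w

/-- an asymmetric colouring of a binary affine space of dimension at least four -/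
def Rig2 : Prop := ∀ (W : Type u) [CommGroup W] [Finite W], (∀ w : W, w ^ 2 = 1) →
  16 ≤ Nat.card W → ∃ col : W → ZMod 3, ∀ (φ : W →* W) (a : W), Function.Injective φ →
    (∀ w, col (φ w * a) = col w) → ∀ w, φ w * a = w

/-- three colours distinguish the points for a soluble group of order prime to three -/
def Dist3 : Prop := ∀ (H : Type u) [Group H] [Finite H] [Group.IsSolvable H], ¬ 3 ∣ Nat.card H →
  ∀ (Ω : Type v) [Finite Ω] [MulAction H Ω],
    ∃ col : Ω → ZMod 3, ∀ h : H, (∀ ω, col (h • ω) = col ω) → ∀ ω : Ω, h • ω = ω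

/-- a base of size two, primitive case -/
def PinK : Prop := ∀ (K : Type w) [Field K] [Finite K] (D : Type u) [Group D] [Finite D]
  (V : Type v) [AddCommGroup V] [Module K V] [DistribMulAction D V] [SMulCommClass D K V]
  [Nontrivial V] (U N : Subgroup D), 32 < Nat.card K → (2 : K) ≠ 0 → ¬ 3 ∣ Nat.card D → PS V U N →
    ∃ v v' : V, ∀ g : D, g • v = v → g • v' = v' → g = 1

/-- a base of size two over a large field -/
def LinK : Prop := ∀ (K : Type w) [Field K] [Finite K] (D : Type u) [Group D] [Finite D]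
  [Group.IsSolvable D] (V : Type v) [AddCommGroup V] [Finite V] [Module K V] [DistribMulAction D V]
  [SMulCommClass D K V], 32 < Nat.card K → (2 : K) ≠ 0 → ¬ 3 ∣ Nat.card D →
    (Nat.card D : K) ≠ 0 → Base2 D V

/-- a large cyclic subgroup in dimension two -/
def Cyc2 : Prop := ∀ (F : Type v) [Field F] [IsAlgClosed F] (Γ : Type u) [Group Γ] [Finite Γ]
  [Group.IsSolvable Γ] (θ : Γ →* M2 F), Function.Injective θ → (∀ γ, (θ γ).det = 1) →
    (2 : F) ≠ 0 → (Nat.card Γ : F) ≠ 0 → ¬ 3 ∣ Nat.card Γ →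
    ∃ (γ : Γ) (l : F), l ≠ 0 ∧ (θ γ).trace = l + l⁻¹ ∧ Nat.card Γ ≤ 2 * orderOf l

/-- the eigenvalues of `t` are among `l ^ i`, `|i| ≤ 2`, and `l` has order above sixteen -/
def Five {F W : Type*} [Field F] [AddCommGroup W] [Module F W] (t : Module.End F W) : Prop :=
  ∃ l : F, l ≠ 0 ∧ (∀ k : ℕ, 0 < k → k ≤ 16 → l ^ k ≠ 1) ∧
    ∀ m : F, t.HasEigenvalue m → ∃ i : ℤ, -2 ≤ i ∧ i ≤ 2 ∧ m = l ^ i

/-- elements with five eigenvalues commute -/
def HH : Prop := ∀ (F : Type w) [Field F] [IsAlgClosed F] (W : Type v) [AddCommGroup W]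
  [Module F W] [FiniteDimensional F W] (Γ : Type u) [Group Γ] [Finite Γ] [Group.IsSolvable Γ]
  (θ : Γ →* Module.End F W), Function.Injective θ → (Nat.card Γ : F) ≠ 0 →
    ∀ t t' : Γ, Five (θ t) → Five (θ t') → Commute t t'

end Pool.Agent.MP_983df8_al

end MrgPart5

-- ======== part 6: formerly Pool.Agent.MP_983df8_al.Dist3
section MrgPart6

/-! Three colours distinguish the points for a soluble group of order prime to three. -/

namespace Pool.Agent.MP_983df8_al

open Subgroup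

universe u v w

namespace d3

theorem min_normal (G : Type*) [Group G] [Finite G] [Group.IsSolvable G] [Nontrivial G] :
    ∃ V : Subgroup G, V.Normal ∧ V ≠ ⊥ ∧ (∀ Y : Subgroup G, Y.Normal → Y ≤ V → Y ≠ ⊥ → V ≤ Y) ∧
      (∀ a ∈ V, ∀ b ∈ V, Commute a b) ∧ ∃ p : ℕ, p.Prime ∧ p ∣ Nat.card G ∧ ∀ a ∈ V, a ^ p = 1 := by
  obtain ⟨V, hV⟩ := exists_minimal_of_wellFoundedLT (fun V : Subgroup G => V.Normal ∧ V ≠ ⊥)
    ⟨⊤, inferInstance, top_ne_bot⟩
  obtain ⟨h1, h2⟩ := hV.prop
  have hm : ∀ Y : Subgroup G, Y.Normal → Y ≤ V → Y ≠ ⊥ → V ≤ Y := fun Y a b c =>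
    hV.le_of_le ⟨a, c⟩ b
  have hc : ∀ a ∈ V, ∀ b ∈ V, Commute a b := by
    obtain ⟨F, f1, f2, f3, f4⟩ := exists_layer (E := V) (U := ⊥) fun e => h2 (le_bot_iff.1 e)
    have := hm F f1 f2 fun e => f3 e.le
    intro a ha b hb
    have k := mem_bot.1 (f4 a (this ha) b (this hb))
    rw [mul_inv_eq_one, mul_inv_eq_iff_eq_mul] at k
    exact k
  refine ⟨V, h1, h2, hm, hc, ?_⟩
  obtain ⟨p, hp, hd⟩ := Nat.exists_prime_and_dvd (n := Nat.card V) fun e => h2 (card_eq_one.1 e)
  have := Fact.mk hp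
  obtain ⟨g, hg⟩ := exists_prime_orderOf_dvd_card' (G := V) p hd
  let Y : Subgroup G :=
    { carrier := {a | a ∈ V ∧ a ^ p = 1}
      one_mem' := ⟨V.one_mem, one_pow p⟩
      mul_mem' := fun {a b} ha hb =>
        ⟨V.mul_mem ha.1 hb.1, by rw [(hc a ha.1 b hb.1).mul_pow, ha.2, hb.2, one_mul]⟩
      inv_mem' := fun {a} ha => ⟨V.inv_mem ha.1, by rw [inv_pow, ha.2, inv_one]⟩ }
  have hY : V ≤ Y := by
    refine hm Y ⟨fun a ha x => ⟨h1.conj_mem a ha.1 x, by rw [conj_pow, ha.2]; simp⟩⟩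
      (fun a ha => ha.1) fun e => ?_
    have a1 : (g : G) ∈ Y := ⟨g.2, by rw [← hg, ← Subgroup.coe_pow, pow_orderOf_eq_one]; rfl⟩
    rw [e, mem_bot] at a1
    have a2 : g = 1 := Subtype.ext a1
    rw [a2, orderOf_one] at hg
    exact hp.ne_one hg.symm
  exact ⟨p, hp, hd.trans (card_subgroup_dvd_card V), fun a ha => (hY ha).2⟩

/-- the colouring distinguishes the points -/
def Dis (H : Type*) {Ω : Type*} [SMul H Ω] (col : Ω → ZMod 3) : Prop :=
  ∀ h : H, (∀ ω, col (h • ω) = col ω) → ∀ ω : Ω, h • ω = ω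

theorem glue {H Ω Q : Type*} [Group H] [Finite Ω] [MulAction H Ω] [MulAction H Q] (π : Ω → Q)
    (hπ : ∀ (h : H) ω, π (h • ω) = h • π ω) (c : Q → ZMod 3) (hc : Dis H c)
    (hn : ∀ q, ¬ 3 ∣ Nat.card {ω // π ω = q}) (f : ∀ q, {ω // π ω = q} → ZMod 3)
    (hf : ∀ q (h : H) (hq : h • q = q),
      (∀ x, f q ⟨h • x.1, by rw [hπ, x.2, hq]⟩ = f q x) → ∀ x : {ω // π ω = q}, h • x.1 = x.1) :
    ∃ col : Ω → ZMod 3, Dis H col := by
  classical
  have : Fact (Nat.Prime 3) := ⟨Nat.prime_three⟩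
  have := Fintype.ofFinite Ω
  let t : Q → ZMod 3 := fun q => (c q - ∑ x, f q x) / (Fintype.card {ω // π ω = q} : ℕ)
  let col : Ω → ZMod 3 := fun ω => f (π ω) ⟨ω, rfl⟩ + t (π ω)
  have h1 : ∀ q (x : {ω // π ω = q}), col x.1 = f q x + t q := by
    rintro _ ⟨ω, rfl⟩
    rfl
  have h2 : ∀ q, ∑ x : {ω // π ω = q}, col x.1 = c q := by
    intro q
    have k : ((Fintype.card {ω // π ω = q} : ℕ) : ZMod 3) ≠ 0 := by
      rw [Ne, ZMod.natCast_eq_zero_iff, ← Nat.card_eq_fintype_card]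
      exact hn q
    simp only [h1, Finset.sum_add_distrib, Finset.sum_const, Finset.card_univ, nsmul_eq_mul, t]
    field_simp
    ring
  refine ⟨col, fun h hh ω => ?_⟩
  have h3 := hc h fun q => by
    rw [← h2, ← h2]
    symm
    refine Fintype.sum_equiv ((MulAction.toPerm h).subtypeEquiv fun a => ?_) _ _
      fun x => (hh x.1).symm
    rw [MulAction.toPerm_apply, hπ]
    exact (MulAction.injective h).eq_iff.symm
  refine hf (π ω) h (h3 _) (fun x => ?_) ⟨ω, rfl⟩
  have := hh x.1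
  rw [h1 _ x, h1 (π ω) ⟨h • x.1, by rw [hπ, x.2, h3]⟩] at this
  exact add_right_cancel this

theorem aff7 : ∀ k c : ZMod 7, (∀ i : ZMod 7, (c + i * k = 0 ∨ c + i * k = 1 ∨ c + i * k = 3) ↔
    (i = 0 ∨ i = 1 ∨ i = 3)) → k ^ 3 = 1 ∧ (k = 1 → c = 0) := by decide

variable {H Ω : Type*} [Group H] [Finite H] [MulAction H Ω] [FaithfulSMul H Ω]

omit [Finite H] in
/-- eight points and a normal subgroup of exponent seven in the stabiliser -/
theorem seven (h3 : ¬ 3 ∣ Nat.card H) (h8 : Nat.card Ω = 8) (δ : Ω) (t : H) (t1 : t ≠ 1)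
    (t7 : t ^ 7 = 1) (tδ : t • δ = δ) (hc : ∀ h : H, h • δ = δ → Commute (h * t * h⁻¹) t) :
    ∃ col : Ω → ZMod 3, Dis H col := by
  classical
  have : Fact (Nat.Prime 7) := ⟨by norm_num⟩
  have : Finite Ω := Nat.finite_of_card_ne_zero (by omega)
  obtain ⟨v, hv⟩ : ∃ v : Ω, t • v ≠ v := by
    by_contra c
    push Not at c
    exact t1 (eq_of_smul_eq_smul (α := Ω) fun a => by rw [c, one_smul])
  let w : ZMod 7 → Ω := fun i => t ^ i.val • v
  have w0 : w 0 = v := by simp [w]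
  have wn : ∀ n : ℕ, w n = t ^ n • v := fun n => by
    simp only [w, ZMod.val_natCast]
    rw [← pow_eq_pow_mod n t7]
  have wa : ∀ i j, w (i + j) = t ^ i.val • w j := fun i j => by
    rw [← ZMod.natCast_zmod_val i, ← ZMod.natCast_zmod_val j, ← Nat.cast_add, wn, wn, pow_add,
      mul_smul, ZMod.natCast_zmod_val]
  have winj : Function.Injective w := by
    intro i j e
    by_contra ne
    have a1 : ∀ x, w (x + (i - j)) = w x := fun x => by
      rw [show x + (i - j) = (x - j) + i by ring, wa, e, ← wa, sub_add_cancel]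
    have a2 : ∀ n : ℕ, w (n * (i - j)) = v := fun n => by
      induction n with
      | zero => simpa using w0
      | succ n ih => rw [Nat.cast_succ, add_mul, one_mul, a1, ih]
    have a3 := a2 ((i - j)⁻¹).val
    rw [ZMod.natCast_zmod_val, inv_mul_cancel₀ (sub_ne_zero.2 ne), ← Nat.cast_one, wn, pow_one] at a3
    exact hv a3
  have tp : ∀ n : ℕ, t ^ n • δ = δ := fun n => (MulAction.stabilizer H δ).pow_mem tδ n
  have vδ : v ≠ δ := fun e => hv (by rw [e, tδ])
  have wδ : ∀ i, w i ≠ δ := fun i e => vδ (MulAction.injective (t ^ i.val) (e.trans (tp _).symm))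
  have wsur : ∀ ω, ω ≠ δ → ∃ i, w i = ω := by
    have hb : Function.Bijective (fun o : Option (ZMod 7) => o.elim δ w) := by
      refine (Nat.bijective_iff_injective_and_card _).2 ⟨?_, by simp [h8]⟩
      rintro (_ | a) (_ | b) e
      · rfl
      · exact (wδ b e.symm).elim
      · exact (wδ a e).elim
      · exact congrArg some (winj e)
    intro ω hω
    obtain ⟨_ | i, e⟩ := hb.2 ω
    · exact (hω e.symm).elim
    · exact ⟨i, e⟩
  let col : Ω → ZMod 3 := fun ω => if ω = δ then 1 else if ω = w 0 ∨ ω = w 1 ∨ ω = w 3 then 2 else 0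
  have cw : ∀ i, col (w i) = if i = 0 ∨ i = 1 ∨ i = 3 then 2 else 0 := fun i => by
    simp only [col, if_neg (wδ i), winj.eq_iff]
  refine ⟨col, fun h hh ω => ?_⟩
  have hδ : h • δ = δ := by
    by_contra c
    obtain ⟨i, e⟩ := wsur _ c
    have := hh δ
    rw [← e, cw] at this
    simp only [col, if_true] at this
    split_ifs at this <;> exact absurd this (by decide)
  have mv : ∀ g : H, g • δ = δ → ∃ i, w i = g • v := fun g hg =>
    wsur _ fun e => vδ (MulAction.injective g (e.trans hg.symm))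
  obtain ⟨c, hcv⟩ := mv h hδ
  obtain ⟨k, hk⟩ := mv (h * t * h⁻¹) (by rw [mul_smul, mul_smul, inv_smul_eq_iff.2 hδ.symm, tδ, hδ])
  have s1 : ∀ i, (h * t * h⁻¹) • w i = w (i + k) := fun i => by
    rw [wa, hk, ← mul_smul, ((hc h hδ).pow_right i.val).eq, mul_smul]
  have s2 : ∀ (n : ℕ) i, (h * t * h⁻¹) ^ n • w i = w (i + n * k) := fun n i => by
    induction n with
    | zero => simp
    | succ n ih => rw [pow_succ', mul_smul, ih, s1, Nat.cast_succ, add_mul, one_mul, add_assoc]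
  have s3 : ∀ i, h • w i = w (c + i * k) := fun i => by
    have := s2 i.val c
    rw [ZMod.natCast_zmod_val, hcv, conj_pow, mul_smul, mul_smul, inv_smul_smul] at this
    exact this
  have s4 : ∀ n : ℕ, ∃ c', ∀ i, h ^ n • w i = w (c' + i * k ^ n) := fun n => by
    induction n with
    | zero => exact ⟨0, fun i => by simp⟩
    | succ n ih =>
      obtain ⟨c', e⟩ := ih
      exact ⟨c + c' * k, fun i => by rw [pow_succ', mul_smul, e, s3]; congr 1; ring⟩
  obtain ⟨c', e⟩ := s4 (Nat.card H)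
  simp only [pow_card_eq_one', one_smul, winj.eq_iff] at e
  have kN : k ^ Nat.card H = 1 := by
    have e0 := e 0
    have e1 := e 1
    rw [zero_mul, add_zero] at e0
    rw [← e0, zero_add, one_mul] at e1
    exact e1.symm
  obtain ⟨k3, kc⟩ := aff7 k c fun i => by
    have := hh (w i)
    rw [s3, cw, cw] at this
    split_ifs at this with a b b
    · exact iff_of_true a b
    · exact absurd this (by decide)
    · exact absurd this (by decide)
    · exact iff_of_false a b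
  have k1 : k = 1 := by
    have := pow_gcd_eq_one.2 ⟨k3, kN⟩
    rwa [(Nat.prime_three.coprime_iff_not_dvd.2 h3).gcd_eq_one, pow_one] at this
  by_cases c0 : ω = δ
  · rw [c0, hδ]
  · obtain ⟨i, rfl⟩ := wsur ω c0
    rw [s3, kc k1, k1, zero_add, mul_one]

/-- a regular normal subgroup of order two, four or eight -/
theorem small [Group.IsSolvable H] (h3 : ¬ 3 ∣ Nat.card H) (V : Subgroup H) [hV : V.Normal]
    (hm : ∀ Y : Subgroup H, Y.Normal → Y ≤ V → Y ≠ ⊥ → V ≤ Y)
    (hc : ∀ a ∈ V, ∀ b ∈ V, Commute a b) (δ : Ω) (htr : ∀ ω, ∃ v ∈ V, v • δ = ω)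
    (hreg : ∀ a ∈ V, ∀ b ∈ V, a • δ = b • δ → a = b)
    (hn : Nat.card Ω = 2 ∨ Nat.card Ω = 4 ∨ Nat.card Ω = 8) : ∃ col : Ω → ZMod 3, Dis H col := by
  classical
  have : Finite Ω := Nat.finite_of_card_ne_zero (by omega)
  set K := MulAction.stabilizer H δ with hK
  rcases subsingleton_or_nontrivial K with k1 | k1
  · refine ⟨fun ω => if ω = δ then 1 else 0, fun h hh ω => ?_⟩
    have hδ : h • δ = δ := by
      by_contra c
      have := hh δ
      simp only [if_neg c, if_true] at this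
      exact absurd this (by decide)
    have : h = 1 := congrArg Subtype.val (Subsingleton.elim (⟨h, hδ⟩ : K) 1)
    rw [this, one_smul]
  obtain ⟨M, m1, m2, -, m4, s, hs, sd, m5⟩ := min_normal K
  have := Fact.mk hs
  obtain ⟨t, tM, t1⟩ := (M.bot_or_exists_ne_one).resolve_left m2
  have t1' : (t : H) ≠ 1 := fun e => t1 (Subtype.ext e)
  let Y : Subgroup H := V ⊓ centralizer (M.map K.subtype : Set H)
  have hY : Y.Normal := ⟨fun y hy g => by
    obtain ⟨a, ha, e⟩ := htr (g • δ)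
    have hk : a⁻¹ * g ∈ K := by
      rw [hK, MulAction.mem_stabilizer_iff, mul_smul, ← e, inv_smul_smul]
    have e1 : g * y * g⁻¹ = (a⁻¹ * g) * y * (a⁻¹ * g)⁻¹ := by
      have := (hc a ha _ (hV.conj_mem y hy.1 g)).eq
      calc _ = a⁻¹ * (a * (g * y * g⁻¹)) := by group
        _ = _ := by rw [this]; group
    refine ⟨hV.conj_mem y hy.1 g, ?_⟩
    rintro _ ⟨m, hm, rfl⟩
    have e2 := hy.2 _ ⟨_, m1.conj_mem' m hm ⟨_, hk⟩, rfl⟩
    simp only [coe_subtype, coe_mul, coe_inv] at e2 ⊢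
    rw [e1]
    generalize a⁻¹ * g = x at e2
    calc _ = x * (x⁻¹ * m * x * y) * x⁻¹ := by group
      _ = _ := by rw [e2]; group⟩
  have Y1 : Y = ⊥ := by
    by_contra c
    refine t1' (eq_of_smul_eq_smul (α := Ω) fun ω => ?_)
    obtain ⟨a, ha, rfl⟩ := htr ω
    have e : (t : H) * a = a * t := (hm Y hY inf_le_left c ha).2 _ ⟨t, tM, rfl⟩
    rw [← mul_smul, e, mul_smul, show (t : H) • δ = δ from t.2, one_smul]
  have hP : IsPGroup s M := fun g => ⟨1, Subtype.ext (by simpa using m5 g g.2)⟩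
  have hf : MulAction.fixedPoints M Ω = {δ} := by
    refine Set.eq_singleton_iff_unique_mem.2 ⟨fun m => m.1.2, fun ω hω => ?_⟩
    obtain ⟨a, ha, rfl⟩ := htr ω
    have : a ∈ Y := by
      refine ⟨ha, ?_⟩
      rintro _ ⟨m, hm, rfl⟩
      have e : (m : H) • a • δ = a • δ := hω ⟨m, hm⟩
      have e1 := hreg _ (hV.conj_mem a ha m) a ha (by
        rw [mul_smul, mul_smul, show (m : H)⁻¹ • δ = δ from (K.inv_mem m.2), e])
      exact mul_inv_eq_iff_eq_mul.1 e1
    rw [Y1, mem_bot] at this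
    rw [this, one_smul]
  have hq := hP.card_modEq_card_fixedPoints Ω
  rw [hf, Nat.card_unique (α := ({δ} : Set Ω))] at hq
  have hd := (Nat.modEq_iff_dvd' (by omega)).1 hq.symm
  have s3 : s ≠ 3 := fun e => h3 (e ▸ sd.trans (card_subgroup_dvd_card K))
  rcases hn with e | e | e <;> rw [e] at hd
  · exact absurd (Nat.dvd_one.1 hd) hs.ne_one
  · exact absurd ((Nat.prime_dvd_prime_iff_eq hs Nat.prime_three).1 hd) s3
  obtain rfl : s = 7 := (Nat.prime_dvd_prime_iff_eq hs (by norm_num)).1 hd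
  refine seven h3 e δ t t1' (congrArg Subtype.val (m5 t tM)) t.2 fun h hh => ?_
  exact congrArg Subtype.val (m4 _ (m1.conj_mem t tM ⟨h, hh⟩) t tM).eq

/-- a transitive abelian minimal normal subgroup -/
theorem affine (hX : RigX.{v}) (h2 : Rig2.{v}) {H : Type v} [Group H] [Finite H] [MulAction H Ω]
    [FaithfulSMul H Ω] [Group.IsSolvable H] (h3 : ¬ 3 ∣ Nat.card H) (V : Subgroup H)
    [hV : V.Normal] (h0 : V ≠ ⊥) (hm : ∀ Y : Subgroup H, Y.Normal → Y ≤ V → Y ≠ ⊥ → V ≤ Y)
    (hc : ∀ a ∈ V, ∀ b ∈ V, Commute a b) {p : ℕ} (hp : p.Prime) (hd : p ∣ Nat.card H)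
    (he : ∀ a ∈ V, a ^ p = 1) (δ : Ω) (htr : ∀ ω, ∃ v ∈ V, v • δ = ω) :
    ∃ col : Ω → ZMod 3, Dis H col := by
  classical
  have := Fact.mk hp
  have hreg : ∀ a ∈ V, ∀ b ∈ V, a • δ = b • δ → a = b := fun a ha b hb e =>
    eq_of_smul_eq_smul (α := Ω) fun ω => by
      obtain ⟨x, hx, rfl⟩ := htr ω
      rw [← mul_smul, ← mul_smul, (hc a ha x hx).eq, (hc b hb x hx).eq, mul_smul, mul_smul, e]
  let e : V ≃ Ω := Equiv.ofBijective (fun v => (v : H) • δ)
    ⟨fun a b k => Subtype.ext (hreg _ a.2 _ b.2 k), fun ω => by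
      obtain ⟨x, hx, k⟩ := htr ω
      exact ⟨⟨x, hx⟩, k⟩⟩
  have ev : ∀ v : V, e v = (v : H) • δ := fun _ => rfl
  let _ : CommGroup V :=
    { (inferInstance : Group V) with mul_comm := fun a b => Subtype.ext (hc _ a.2 _ b.2).eq }
  have key : ∀ col : V → ZMod 3, (∀ (φ : V →* V) (a : V), Function.Injective φ →
      (∀ w, col (φ w * a) = col w) → ∀ w, φ w * a = w) → ∃ col : Ω → ZMod 3, Dis H col := by
    intro col hcol
    refine ⟨fun ω => col (e.symm ω), fun h hh ω => ?_⟩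
    have k : ∀ w : V, h • e w = e ((MulAut.conjNormal h : MulAut V) w * e.symm (h • δ)) := by
      intro w
      rw [ev, ev, coe_mul, mul_smul, ← ev (e.symm _), e.apply_symm_apply,
        MulAut.conjNormal_apply, mul_smul, mul_smul, inv_smul_smul]
    have := hcol (MulAut.conjNormal h : MulAut V).toMonoidHom (e.symm (h • δ))
      (MulAut.conjNormal h : MulAut V).injective fun w => by
        have := hh (e w)
        simp only [k, e.symm_apply_apply] at this
        exact this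
    obtain ⟨w, rfl⟩ := e.surjective ω
    rw [k]
    exact congrArg e (this w)
  have hP : IsPGroup p V := fun g => ⟨1, Subtype.ext (by simpa using he g g.2)⟩
  obtain ⟨n, hn⟩ := IsPGroup.iff_card.1 hP
  by_cases p2 : p = 2
  · subst p2
    by_cases c : 16 ≤ Nat.card V
    · obtain ⟨col, hcol⟩ := h2 V (fun w => Subtype.ext (he w w.2)) c
      exact key col hcol
    refine small h3 V hm hc δ htr hreg ?_
    rw [← Nat.card_congr e, hn]
    have n0 : n ≠ 0 := fun k => h0 (card_eq_one.1 (by rw [hn, k, pow_zero]))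
    have n4 : n < 4 := by
      by_contra k
      exact c (hn ▸ Nat.pow_le_pow_right (n := 2) (by norm_num) (not_lt.1 k))
    interval_cases n <;> simp at n0 ⊢
  have p3 : p ≠ 3 := fun k => h3 (k ▸ hd)
  obtain ⟨X, x1, hx⟩ := hX V (by
    rw [hn]
    exact Nat.Coprime.pow_left n (Nat.Coprime.mul_right (n := 2) (k := p) (m := 3)
      ((Nat.coprime_primes hp Nat.prime_three).2 p3) ((Nat.coprime_primes hp Nat.prime_two).2 p2)))
  refine key (fun w => if w = 1 then 1 else if w ∈ X then 2 else 0) fun φ a hφ hh w => ?_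
  have a1 : a = 1 := by
    by_contra c
    have := hh 1
    simp only [map_one, one_mul, if_neg c, if_true] at this
    split_ifs at this <;> exact absurd this (by decide)
  rw [a1, mul_one]
  refine hx φ hφ (fun w => ?_) w
  by_cases c : w = 1
  · rw [c, map_one]
  have c' : φ w ≠ 1 := fun k => c (hφ (k.trans (map_one φ).symm))
  have := hh w
  simp only [a1, mul_one, if_neg c, if_neg c'] at this
  split_ifs at this with a b b
  · exact iff_of_true a b
  · exact absurd this (by decide)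
  · exact absurd this (by decide)
  · exact iff_of_false a b

/-- passage to the group of permutations that is induced -/
theorem faithful {H : Type u} [Group H] [Finite H] [Group.IsSolvable H] (h3 : ¬ 3 ∣ Nat.card H)
    (Ω : Type v) [Finite Ω] [MulAction H Ω]
    (k : ∀ (G : Type v) [Group G] [Finite G] [Group.IsSolvable G] [MulAction G Ω]
      [FaithfulSMul G Ω], ¬ 3 ∣ Nat.card G → ∃ col : Ω → ZMod 3, Dis G col) :
    ∃ col : Ω → ZMod 3, Dis H col := by
  have : Group.IsSolvable (MulAction.toPermHom H Ω).range :=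
    Group.isSolvable_of_surjective (MulAction.toPermHom H Ω).rangeRestrict_surjective
  obtain ⟨col, hcol⟩ := k (MulAction.toPermHom H Ω).range
    fun c => h3 (c.trans (card_range_dvd _))
  exact ⟨col, fun h hh ω => hcol ⟨_, h, rfl⟩ hh ω⟩

theorem main (hX : RigX.{v}) (h2 : Rig2.{v}) (n : ℕ) : ∀ (Ω : Type v) [Finite Ω], Nat.card Ω = n →
    ∀ (H : Type v) [Group H] [Finite H] [Group.IsSolvable H] [MulAction H Ω] [FaithfulSMul H Ω],
      ¬ 3 ∣ Nat.card H → ∃ col : Ω → ZMod 3, Dis H col := by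
  induction n using Nat.strong_induction_on with
  | _ n ih =>
    intro Ω _ hn H _ _ _ _ _ h3
    rcases subsingleton_or_nontrivial H with k1 | k1
    · exact ⟨0, fun h _ ω => by rw [Subsingleton.elim h 1, one_smul]⟩
    obtain ⟨V, hV, h0, hm, hc, p, hp, hd, he⟩ := min_normal H
    obtain ⟨t, tV, t1⟩ := (V.bot_or_exists_ne_one).resolve_left h0
    obtain ⟨δ, hδ⟩ : ∃ δ : Ω, t • δ ≠ δ := by
      by_contra c
      push Not at c
      exact t1 (eq_of_smul_eq_smul (α := Ω) fun a => by rw [c, one_smul])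
    by_cases htr : ∀ δ' ω : Ω, ∃ v ∈ V, v • δ' = ω
    · exact affine hX h2 h3 V h0 hm hc hp hd he δ (htr δ)
    let r : Setoid Ω := MulAction.orbitRel V Ω
    let act : MulAction H (Quotient r) :=
      { smul := fun h => Quotient.map (fun ω => h • ω) (fun a b ⟨v, hv⟩ =>
          ⟨MulAut.conjNormal h v, by
            have hv' : (v : H) • b = a := hv
            change ((MulAut.conjNormal h v : V) : H) • h • b = h • a
            simp [mul_smul, hv']⟩)
        one_smul := fun q => Quotient.inductionOn q fun a => congrArg (Quotient.mk r) (one_smul H a)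
        mul_smul := fun g h q => Quotient.inductionOn q fun a =>
          congrArg (Quotient.mk r) (mul_smul g h a) }
    have hact : ∀ (h : H) (a : Ω), Quotient.mk r (h • a) = h • (Quotient.mk r a) :=
      fun _ _ => rfl
    have lt1 : Nat.card (Quotient r) < n := by
      rw [← hn]
      refine lt_of_le_of_ne (Nat.card_le_card_of_surjective _ Quotient.mk_surjective) fun e => ?_
      have := ((Nat.bijective_iff_surjective_and_card (Quotient.mk r)).2
        ⟨Quotient.mk_surjective, e.symm⟩).1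
      exact hδ (this (Quotient.sound ⟨⟨t, tV⟩, rfl⟩))
    obtain ⟨c, hcc⟩ := faithful h3 (Quotient r) (ih _ lt1 _ rfl)
    have hfib : ∀ q : Quotient r, ∃ f : {ω // Quotient.mk r ω = q} → ZMod 3,
        ∀ (h : H) (hq : h • q = q), (∀ x, f ⟨h • x.1, by rw [hact, x.2, hq]⟩ = f x) →
          ∀ x : {ω // Quotient.mk r ω = q}, h • x.1 = x.1 := by
      intro q
      let act2 : MulAction (MulAction.stabilizer H q) {ω // Quotient.mk r ω = q} :=
        { smul := fun h x => ⟨h.1 • x.1, by rw [hact, x.2]; exact h.2⟩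
          one_smul := fun x => Subtype.ext (one_smul H x.1)
          mul_smul := fun g h x => Subtype.ext (mul_smul g.1 h.1 x.1) }
      have lt2 : Nat.card {ω // Quotient.mk r ω = q} < n := by
        rw [← hn]
        refine lt_of_le_of_ne (Nat.card_le_card_of_injective _ Subtype.val_injective) fun e => ?_
        have := ((Nat.bijective_iff_injective_and_card
          (Subtype.val : {ω // Quotient.mk r ω = q} → Ω)).2 ⟨Subtype.val_injective, e⟩).2
        refine htr fun a b => ?_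
        obtain ⟨a, rfl⟩ := this a
        obtain ⟨b, rfl⟩ := this b
        obtain ⟨v, hv⟩ := Quotient.exact (b.2.trans a.2.symm)
        exact ⟨v, v.2, hv⟩
      obtain ⟨f, hf⟩ := faithful (H := MulAction.stabilizer H q)
        (fun c => h3 (c.trans (card_subgroup_dvd_card _))) {ω // Quotient.mk r ω = q}
        (ih _ lt2 _ rfl)
      exact ⟨f, fun h hq hh x => congrArg Subtype.val (hf ⟨h, hq⟩ hh x)⟩
    choose f hf using hfib
    refine glue (Quotient.mk r) hact c hcc (fun q k => h3 (k.trans ?_)) f hf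
    obtain ⟨a, rfl⟩ := Quotient.exists_rep q
    have e : Nat.card {ω // Quotient.mk r ω = Quotient.mk r a} = Nat.card (MulAction.orbit V a) :=
      Nat.card_congr (Equiv.subtypeEquivRight fun ω => Quotient.eq)
    rw [e, Nat.card_congr (MulAction.orbitEquivQuotientStabilizer V a)]
    exact (card_quotient_dvd_card _).trans (card_subgroup_dvd_card V)

end d3

theorem dist3 : RigX.{v} → Rig2.{v} → Dist3.{u, v} :=
  fun hX h2 _ _ _ _ h3 Ω _ _ => d3.faithful h3 Ω (d3.main hX h2 _ Ω rfl)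

end Pool.Agent.MP_983df8_al

end MrgPart6

-- marker of a merged file
example : 731051 + 771574 = 731051 + 771574 := rfl
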