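import Pool.Agent.MP_983df8_al.Ext3
import Pool.Agent.MP_983df8_al.Dist3

namespace Pool.Agent.MP_983df8_al

open Subgroup Matrix

attribute [local instance 100] LieRing.ofAssociativeRing

variable {K L : Type*} [Field K] [LieRing L] [LieAlgebra K L] {g : L →ₗ[K] L →ₗ[K] K}
variable {F L' : Type*} [Field F] [LieRing L'] [LieAlgebra F L'] {g' : L' →ₗ[F] L' →ₗ[F] F}

/-- the nine coordinates of `u` with respect to three extremal elements -/
def co9 (g : L →ₗ[K] L →ₗ[K] K) (x y z u : L) : Fin 9 → K :=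
  ![g x u, g y u, g z u, g ⁅x, y⁆ u, g ⁅y, z⁆ u, g ⁅z, x⁆ u, g ⁅x, ⁅y, z⁆⁆ u, g ⁅y, ⁅z, x⁆⁆ u,
    g ⁅z, ⁅x, y⁆⁆ u]

/-- the action of a root element on the coordinates -/
def st9 (s a b d : K) (v : Fin 9 → K) : Fin 9 → K :=
  ![v 0, v 1 - s * v 3 + s * s * a * v 0, v 2 + s * v 5 + s * s * b * v 0, v 3 - 2 * s * a * v 0,
    v 4 - s * v 6 + s * s * d * v 0, v 5 + 2 * s * b * v 0, v 6 - 2 * s * d * v 0,
    v 7 - s * (b * v 3 - a * v 5 - d * v 0) + 2 * s * s * a * b * v 0,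
    v 8 - s * (a * v 5 - b * v 3 - d * v 0) - 2 * s * s * a * b * v 0]

theorem InvF.co9_ex (h : InvF g) {x : L} (hx : IsExt g x) (y z u : L) (s : K) :
    co9 g x y z (ex g (s • x) u) = st9 s (g x y) (g x z) (g x ⁅y, z⁆) (co9 g x y z u) := by
  have k : ∀ m, g m (ex g (s • x) u) = g m u - s * g ⁅x, m⁆ u + s * s * g x m * g x u := fun m => by
    simp only [ex_smul, map_add, map_smul, smul_eq_mul, h.skew x m, h.symm m x]
    ring
  have e1 : ⁅z, x⁆ = -⁅x, z⁆ := (lie_skew z x).symm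
  have e2 : ⁅z, y⁆ = -⁅y, z⁆ := (lie_skew z y).symm
  have e3 : ∀ y z, g x ⁅y, ⁅x, z⁆⁆ = -(2 * (g x y * g x z)) := fun y z => by
    rw [← h.inv, h.skew, hx.2.1, map_smul, h.symm y x, smul_eq_mul]
    ring
  ext i
  fin_cases i <;> simp [co9, st9, k, hx.1, hx.2.1, hx.p2, h.self, e1, e2, e3, -lie_skew] <;> ring

theorem InvF.co9_self (h : InvF g) {x : L} (hx : IsExt g x) (y z : L) :
    co9 g x y z x = ![0, g x y, g x z, 0, g x ⁅y, z⁆, 0, 0, 2 * (g x y * g x z),
      -(2 * (g x y * g x z))] := by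
  have e1 : ⁅z, x⁆ = -⁅x, z⁆ := (lie_skew z x).symm
  have e3 : ∀ y z, g x ⁅y, ⁅x, z⁆⁆ = -(2 * (g x y * g x z)) := fun y z => by
    rw [← h.inv, h.skew, hx.2.1, map_smul, h.symm y x, smul_eq_mul]
    ring
  ext i
  fin_cases i <;> simp [co9, h.symm _ x, hx.1, h.self, e1, e3, mul_comm, -lie_skew]

/-- matching coordinates -/
def R9 (φ : K →+* F) (g : L →ₗ[K] L →ₗ[K] K) (g' : L' →ₗ[F] L' →ₗ[F] F) (x y z : L)
    (x' y' z' : L') (u : L) (m : L') : Prop :=
  φ ∘ co9 g x y z u = co9 g' x' y' z' m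

variable {φ : K →+* F} {x y z : L} {x' y' z' : L'}

theorem R9.rot {u : L} {m : L'} (h : R9 φ g g' x y z x' y' z' u m) :
    R9 φ g g' y z x y' z' x' u m := by
  ext i
  fin_cases i
  exacts [congrFun h 1, congrFun h 2, congrFun h 0, congrFun h 4, congrFun h 5, congrFun h 3,
    congrFun h 7, congrFun h 8, congrFun h 6]

theorem R9.ex (h : InvF g) (h' : InvF g') (hx : IsExt g x) (hx' : IsExt g' x')
    (ha : φ (g x y) = g' x' y') (hb : φ (g x z) = g' x' z') (hd : φ (g x ⁅y, z⁆) = g' x' ⁅y', z'⁆)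
    (s : K) {u : L} {m : L'} (r : R9 φ g g' x y z x' y' z' u m) :
    R9 φ g g' x y z x' y' z' (ex g (s • x) u) (ex g' (φ s • x') m) := by
  unfold R9 at r ⊢
  rw [h.co9_ex hx, h'.co9_ex hx', ← r, ← ha, ← hb, ← hd]
  ext i
  fin_cases i <;> simp [st9, map_ofNat]

theorem R9.self (h : InvF g) (h' : InvF g') (hx : IsExt g x) (hx' : IsExt g' x')
    (ha : φ (g x y) = g' x' y') (hb : φ (g x z) = g' x' z') (hd : φ (g x ⁅y, z⁆) = g' x' ⁅y', z'⁆) :
    R9 φ g g' x y z x' y' z' x x' := by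
  unfold R9
  rw [h.co9_self hx, h'.co9_self hx', ← ha, ← hb, ← hd]
  ext i
  fin_cases i <;> simp [map_ofNat]

variable {n : Type} [Fintype n] [DecidableEq n]

/-- the negative trace form -/
def ntr (n F : Type*) [Fintype n] [Field F] : Matrix n n F →ₗ[F] Matrix n n F →ₗ[F] F :=
  LinearMap.mk₂ F (fun a b => -(a * b).trace) (by simp [add_mul, add_comm]) (by simp)
    (by simp [mul_add, add_comm]) (by simp)

theorem ntr_apply (a b : Matrix n n F) : ntr n F a b = -(a * b).trace := rfl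

theorem ntr_inv : InvF (ntr n F) :=
  ⟨fun a b => by rw [ntr_apply, trace_mul_comm, ntr_apply], fun a b c => by
    simp only [ntr_apply, Ring.lie_def, sub_mul, mul_sub, trace_sub, mul_assoc]
    rw [trace_mul_comm b, mul_assoc]⟩

/-- a square-zero matrix of rank at most one -/
structure R1 (N : Matrix n n F) : Prop where
  sq : N * N = 0
  one : ∀ X, N * X * N = (N * X).trace • N
  det : ∀ s : F, (1 + s • N).det = 1

theorem R1.ext {N : Matrix n n F} (h : R1 N) : IsExt (ntr n F) N := by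
  have k : ∀ X Y, N * (X * (N * Y)) = (N * X).trace • (N * Y) := fun X Y => by
    rw [← mul_assoc, ← mul_assoc, h.one, smul_mul]
  have k0 : ∀ X, N * (X * N) = (N * X).trace • N := fun X => by rw [← mul_assoc, h.one]
  have k1 : ∀ X, N * (N * X) = 0 := fun X => by rw [← mul_assoc, h.sq, zero_mul]
  have k2 : ∀ X Y, N * (X * (Y * N)) = (N * (X * Y)).trace • N := fun X Y => by
    rw [← mul_assoc X, k0]
  refine ⟨by simp [ntr_apply, h.sq], fun y => ?_, fun y z => ?_⟩ <;>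
    simp only [ntr_apply, Ring.lie_def, sub_mul, mul_sub, trace_sub, mul_assoc, k, k0, k1, k2, h.sq,
      mul_zero, Matrix.mul_smul] <;> module

theorem R1.ex {N : Matrix n n F} (h : R1 N) (s : F) (m : Matrix n n F) :
    ex (ntr n F) (s • N) m = (1 + s • N) * m * (1 + (-s) • N) := by
  simp only [ex_smul, ntr_apply, Ring.lie_def, add_mul, mul_add, smul_mul, Matrix.mul_smul, h.one,
    one_mul, mul_one]
  module

end Pool.Agent.MP_983df8_al
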