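import Pool.Agent.MP_983df8_al.HallB
import Pool.Agent.MP_983df8_al.Defs5
import Pool.Agent.MP_983df8_al.ExtK
import Pool.Agent.MP_983df8_al.Dist3
import Pool.Agent.MP_983df8_al.Pin2

-- ======== part 0: formerly Pool.Agent.MP_983df8_al.BN1
section MrgPart0

namespace Pool.Agent.MP_983df8_al

open Subgroup

variable {S : Type*} [Group S] {B N : Subgroup S} {R : Set S} {g h n r s : S}

/-- same double coset -/
def DC (B : Subgroup S) (g h : S) : Prop := ∃ c ∈ B, ∃ d ∈ B, g = c * h * d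

theorem DC.refl (g : S) : DC B g g := ⟨1, one_mem _, 1, one_mem _, by simp⟩

theorem DC.symm (a : DC B g h) : DC B h g := by
  obtain ⟨c, hc, d, hd, rfl⟩ := a
  exact ⟨c⁻¹, inv_mem hc, d⁻¹, inv_mem hd, by group⟩

theorem DC.trans {k : S} (a : DC B g h) (b : DC B h k) : DC B g k := by
  obtain ⟨c, hc, d, hd, rfl⟩ := a
  obtain ⟨c', hc', d', hd', rfl⟩ := b
  exact ⟨c * c', mul_mem hc hc', d' * d, mul_mem hd' hd, by group⟩

theorem DC.inv (a : DC B g h) : DC B g⁻¹ h⁻¹ := by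
  obtain ⟨c, hc, d, hd, rfl⟩ := a
  exact ⟨d⁻¹, inv_mem hd, c⁻¹, inv_mem hc, by group⟩

theorem DC.left (hb : h ∈ B) (g : S) : DC B (h * g) g := ⟨h, hb, 1, one_mem _, by simp⟩

theorem DC.right (hb : h ∈ B) (g : S) : DC B (g * h) g := ⟨1, one_mem _, h, hb, by simp⟩

theorem DC.of_mem (a : g⁻¹ * h ∈ B) : DC B h g := by simpa using DC.right a g

theorem DC.mem (a : DC B g h) (b : h ∈ B) : g ∈ B := by
  obtain ⟨c, hc, d, hd, rfl⟩ := a
  exact mul_mem (mul_mem hc b) hd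

/-- galleries -/
inductive Gal (B : Subgroup S) (R : Set S) : ℕ → S → Prop
  | base {b} : b ∈ B → Gal B R 0 b
  | step {k b r g} : b ∈ B → r ∈ R → Gal B R k g → Gal B R (k + 1) (b * r * g)

theorem Gal.left {k : ℕ} (a : Gal B R k g) (hb : h ∈ B) : Gal B R k (h * g) := by
  cases a with
  | base c => exact .base (mul_mem hb c)
  | step c d e => simpa [mul_assoc] using Gal.step (mul_mem hb c) d e

theorem Gal.mul {k m : ℕ} (a : Gal B R k g) (b : Gal B R m h) : Gal B R (m + k) (g * h) := by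
  induction a with
  | base c => exact b.left c
  | step c d _ e => simpa [mul_assoc, add_assoc] using Gal.step c d e

/-- the gallery length -/
noncomputable def len (B : Subgroup S) (R : Set S) (g : S) : ℕ := sInf {k | Gal B R k g}

/-- a BN-pair -/
structure BN (B N : Subgroup S) (R : Set S) : Prop where
  sup : B ⊔ N = ⊤
  norm : ∀ n ∈ N, B ⊓ N ≤ conjBy B n
  gen : closure R ⊔ B ⊓ N = N
  sq : ∀ r ∈ R, r * r ∈ B
  thick : ∀ r ∈ R, ¬ B ≤ conjBy B r
  bn : ∀ r ∈ R, ∀ b ∈ B, ∀ n ∈ N, DC B (r * b * n) (r * n) ∨ DC B (r * b * n) n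

namespace BN

variable (H : BN B N R)
include H

theorem mem (hr : r ∈ R) : r ∈ N := H.gen.le (mem_sup_left (subset_closure hr))

theorem not_mem (hr : r ∈ R) : r ∉ B := fun a =>
  H.thick r hr fun _ b => mem_conjBy.2 (mul_mem (mul_mem a b) (inv_mem a))

theorem dc_inv (hr : r ∈ R) : DC B r⁻¹ r := DC.of_mem (by simpa using inv_mem (H.sq r hr))

theorem gal_inv {k : ℕ} (a : Gal B R k g) : Gal B R k g⁻¹ := by
  induction a with
  | base c => exact .base (inv_mem c)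
  | step c d _ e =>
    simpa [mul_assoc, add_comm] using e.mul (Gal.step (one_mem _) d (.base (mul_mem (inv_mem (H.sq _ d))
      (inv_mem c))))

theorem gal (g : S) : Gal B R (len B R g) g := by
  let Y : Subgroup S :=
    { carrier := {g | ∃ k, Gal B R k g}
      one_mem' := ⟨0, .base (one_mem _)⟩
      mul_mem' := fun ⟨_, a⟩ ⟨_, b⟩ => ⟨_, a.mul b⟩
      inv_mem' := fun ⟨_, a⟩ => ⟨_, H.gal_inv a⟩ }
  have a : B ≤ Y := fun b hb => ⟨0, .base hb⟩
  exact Nat.sInf_mem (s := {k | Gal B R k g}) ((H.sup.ge.trans (sup_le a (H.gen.ge.trans (sup_le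
    ((closure_le Y).2 fun r hr => ⟨1, by simpa using Gal.step (one_mem B) hr (.base (one_mem _))⟩)
    (inf_le_left.trans a))))) (mem_top g))

omit H in
theorem len_le {k : ℕ} (a : Gal B R k g) : len B R g ≤ k := Nat.sInf_le a

theorem len_inv (g : S) : len B R g⁻¹ = len B R g :=
  le_antisymm (len_le (H.gal_inv (H.gal g))) (by simpa using len_le (H.gal_inv (H.gal g⁻¹)))

theorem len_mul (g h : S) : len B R (g * h) ≤ len B R g + len B R h :=
  add_comm (len B R h) _ ▸ len_le ((H.gal g).mul (H.gal h))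

theorem len_zero : len B R g = 0 ↔ g ∈ B :=
  ⟨fun a => by have := H.gal g; rw [a] at this; cases this; assumption,
    fun a => Nat.le_zero.1 (len_le (.base a))⟩

theorem len_dc (a : DC B g h) : len B R g = len B R h := by
  have : ∀ g h, DC B g h → len B R g ≤ len B R h := by
    rintro _ h ⟨c, hc, d, hd, rfl⟩
    have a1 := H.len_mul (c * h) d
    have a2 := H.len_mul c h
    rw [H.len_zero.2 hc] at a2
    rw [H.len_zero.2 hd] at a1
    omega
  exact le_antisymm (this _ _ a) (this _ _ a.symm)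

theorem len_one (hr : r ∈ R) (a : DC B g r) : len B R g = 1 := by
  have a1 := len_le (Gal.step (one_mem B) hr (.base (one_mem _)))
  have a2 := mt H.len_zero.1 (H.not_mem hr)
  rw [H.len_dc a]
  simp only [one_mul, mul_one] at a1
  omega

theorem len_r (hr : r ∈ R) (a : DC B h r) (g : S) : len B R (h * g) ≤ len B R g + 1 := by
  have := H.len_mul h g
  rw [H.len_one hr a] at this
  omega

theorem len_r' (hr : r ∈ R) (a : DC B h r) (g : S) : len B R g ≤ len B R (h * g) + 1 := by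
  simpa using H.len_r hr (a.inv.trans (H.dc_inv hr)) (h * g)

theorem bn' (hr : r ∈ R) (hn : n ∈ N) (a : DC B h r) (b : DC B g n) :
    DC B (h * g) (r * n) ∨ DC B (h * g) n := by
  obtain ⟨c, hc, d, hd, rfl⟩ := a
  obtain ⟨c', hc', d', hd', rfl⟩ := b
  have e : DC B (c * r * d * (c' * n * d')) (r * (d * c') * n) := ⟨c, hc, d', hd', by group⟩
  exact (H.bn r hr _ (mul_mem hd hc') n hn).imp e.trans e.trans

theorem bruhat (g : S) : ∃ n ∈ N, DC B g n := by
  have := H.gal g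
  generalize len B R g = k at this
  induction this with
  | base c => exact ⟨1, one_mem _, by simpa using DC.left c 1⟩
  | step c d _ e =>
    obtain ⟨n, hn, a⟩ := e
    exact (H.bn' d hn (DC.left c _) a).elim (fun b => ⟨_, mul_mem (H.mem d) hn, b⟩)
      fun b => ⟨_, hn, b⟩

theorem desc0 {k : ℕ} (a : len B R g = k + 1) :
    ∃ r ∈ R, ∃ m ∈ N, len B R m = k ∧ ∀ n ∈ N, DC B n g → DC B (r * n) m := by
  have := H.gal g
  rw [a] at this
  cases this with
  | @step _ b r g' c d e =>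
    obtain ⟨m, hm, f⟩ := H.bruhat g'
    have a1 := len_le e
    have a2 := H.len_r d (DC.left c r) g'
    have a3 := H.len_dc f
    refine ⟨r, d, m, hm, by omega, fun n hn l => ?_⟩
    have := H.bn' d hn ((DC.left c r).inv.trans (H.dc_inv d)) l.symm
    rw [inv_mul_cancel_left] at this
    refine (this.resolve_right fun o => ?_).symm.trans f
    have := H.len_dc o
    have := H.len_dc l
    omega

theorem uniq {n' : S} (hn : n ∈ N) (hn' : n' ∈ N) (a : DC B n' n) : n⁻¹ * n' ∈ B := by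
  induction e : len B R n generalizing n n' with
  | zero => exact mul_mem (inv_mem (H.len_zero.1 e)) (a.mem (H.len_zero.1 e))
  | succ k ih =>
    obtain ⟨r, hr, m, hm, b, c⟩ := H.desc0 e
    simpa [mul_assoc] using mul_mem (inv_mem (ih hm (mul_mem (H.mem hr) hn) (c n hn (DC.refl _)) b))
      (ih hm (mul_mem (H.mem hr) hn') (c n' hn' a) b)

theorem desc (hn : n ∈ N) (a : n ∉ B) : ∃ r ∈ R, len B R (r * n) + 1 = len B R n := by
  obtain ⟨k, e⟩ := Nat.exists_eq_succ_of_ne_zero (mt H.len_zero.1 a)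
  obtain ⟨r, hr, m, hm, b, c⟩ := H.desc0 e
  exact ⟨r, hr, by rw [H.len_dc (c n hn (DC.refl _)), b, e]⟩

theorem desc' (hn : n ∈ N) (a : n ∉ B) : ∃ r ∈ R, len B R (n * r⁻¹) + 1 = len B R n := by
  obtain ⟨r, hr, b⟩ := H.desc (inv_mem hn) (mt inv_mem_iff.1 a)
  exact ⟨r, hr, by rwa [← H.len_inv, H.len_inv n, mul_inv_rev, inv_inv] at b⟩

theorem swap {m : S} (hn : n ∈ N) (hm : m ∈ N) (a : n⁻¹ * m ∈ B) : m * n⁻¹ ∈ B := by
  simpa [mul_assoc] using mem_conjBy.1 (H.norm n hn ⟨a, N.mul_mem (inv_mem hn) hm⟩)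

theorem bnr (hr : r ∈ R) (hn : n ∈ N) (a : DC B h r) (b : DC B g n) :
    DC B (g * h) (n * r) ∨ DC B (g * h) n := by
  have := H.bn' hr (inv_mem hn) (a.inv.trans (H.dc_inv hr)) b.inv
  refine this.imp (fun c => ?_) fun c => by simpa using c.inv
  have d := c.inv
  simp only [mul_inv_rev, inv_inv] at d
  exact d.trans (DC.of_mem (by simpa [mul_assoc] using inv_mem (H.sq r hr)))

theorem ne_self (hr : r ∈ R) (hn : n ∈ N) : ¬ DC B (r * n) n := fun a =>
  H.not_mem hr (by simpa using H.swap hn (mul_mem (H.mem hr) hn) (H.uniq hn (mul_mem (H.mem hr) hn) a))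

theorem cell (hr : r ∈ R) (hn : n ∈ N) (l : len B R n ≤ len B R (r * n)) (a : DC B h r)
    (b : DC B g n) : DC B (h * g) (r * n) := by
  induction e : len B R n generalizing n g with
  | zero =>
    exact (DC.right (b.mem (H.len_zero.1 e)) h).trans (a.trans (DC.right (H.len_zero.1 e) r).symm)
  | succ k ih =>
    refine (H.bn' hr hn a b).elim id fun c => ?_
    obtain ⟨s, hs, d⟩ := H.desc' hn (mt H.len_zero.2 (by omega))
    have m := mul_mem hn (inv_mem (H.mem hs))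
    obtain ⟨b1, f1, b2, f2, rfl⟩ := b
    have l1 := H.len_mul (r * (n * s⁻¹)) s
    rw [H.len_one hs (DC.refl _), mul_assoc, inv_mul_cancel_right] at l1
    have i := ih m (g := b1 * (n * s⁻¹)) (by omega) (DC.left f1 _) (by omega)
    have j := H.bnr hs hn (H.dc_inv hs) ((DC.right (inv_mem f2) _).trans c)
    simp only [mul_assoc, mul_inv_cancel_left, mul_inv_cancel, mul_one] at i j
    rcases j with j | j
    · exact (H.ne_self hr m ((i.symm.trans j).trans (DC.of_mem (by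
        simpa [mul_assoc] using H.sq s hs)))).elim
    have k1 := H.swap hn (mul_mem (H.mem hr) m) (H.uniq hn (mul_mem (H.mem hr) m) (i.symm.trans j))
    have k2 := mem_conjBy.1 (H.norm _ (inv_mem (H.mem hr)) ⟨k1, N.mul_mem (mul_mem (H.mem hr) m)
      (inv_mem hn)⟩)
    have := H.len_dc (DC.left (mul_mem k2 (inv_mem (H.sq r hr))) (r * n))
    simp only [mul_assoc, inv_mul_cancel_left, inv_inv, mul_inv_rev, mul_inv_cancel_left,
      inv_mul_cancel, mul_one] at this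
    omega

theorem exists_down (hr : r ∈ R) (hn : n ∈ N) (l : len B R (r * n) ≤ len B R n) :
    ∃ b ∈ B, DC B (r * b * n) n := by
  obtain ⟨b, hb, a⟩ := SetLike.not_le_iff_exists.1 (H.thick r hr)
  have c := (H.bn' hr (H.mem hr) (DC.right hb r) (H.dc_inv hr)).resolve_left fun c =>
    a (mem_conjBy.2 (c.mem (H.sq r hr)))
  have d : DC B (r * (r * n)) n := mul_assoc r r n ▸ DC.left (H.sq r hr) n
  have := H.cell hr (mul_mem (H.mem hr) hn) (H.len_dc d ▸ l) c (DC.refl _)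
  exact ⟨b, hb, by simpa [mul_assoc] using this.trans d⟩

theorem len_ne (hr : r ∈ R) (hn : n ∈ N) : len B R (r * n) ≠ len B R n := fun e => by
  obtain ⟨b, hb, a⟩ := H.exists_down hr hn e.le
  exact H.ne_self hr hn ((H.cell hr hn e.ge (DC.right hb r) (DC.refl _)).symm.trans a)

theorem fold (hr : r ∈ R) (hs : s ∈ R) (hn : n ∈ N) (l : len B R n ≤ len B R (r * n))
    (l' : len B R (r * (n * s)) ≤ len B R (n * s)) : (r * n)⁻¹ * (n * s) ∈ B := by
  have m := mul_mem hn (H.mem hs)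
  have m' := mul_mem (H.mem hr) hn
  obtain ⟨b, hb, a⟩ := H.exists_down hr m l'
  have := H.bnr hs m' (DC.refl _) (H.cell hr hn l (DC.right hb r) (DC.refl _))
  simp only [mul_assoc] at this a
  exact H.uniq m' m (a.symm.trans (this.resolve_left fun c => H.ne_self hr m (c.symm.trans a)))

theorem exch (hr : r ∈ R) {v u : S} (hv : v ∈ N) (hu : u ∈ N) (l : len B R v ≤ len B R (r * v))
    (l1 : len B R v + len B R u ≤ len B R (v * u)) (l2 : len B R (r * (v * u)) ≤ len B R (v * u)) :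
    ∃ u' ∈ N, len B R u' < len B R u ∧ v * u = r * v * u' := by
  induction e : len B R u generalizing u with
  | zero =>
    have a := H.len_dc (DC.right (H.len_zero.1 e) v)
    have b := H.len_dc (DC.right (H.len_zero.1 e) (r * v))
    have := H.len_ne hr hv
    rw [mul_assoc] at b
    omega
  | succ k ih =>
    obtain ⟨s, hs, d⟩ := H.desc' hu (mt H.len_zero.2 (by omega))
    have m := mul_mem hu (inv_mem (H.mem hs))
    have a1 := H.len_mul (v * (u * s⁻¹)) s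
    rw [H.len_one hs (DC.refl _), mul_assoc, inv_mul_cancel_right] at a1
    by_cases c : len B R (r * (v * (u * s⁻¹))) ≤ len B R (v * (u * s⁻¹))
    · obtain ⟨u', b1, b2, b3⟩ := ih m (by omega) c (by omega)
      have a2 := H.len_mul u' s
      have a3 := H.len_mul (r * v) (u' * s)
      rw [H.len_one hs (DC.refl _)] at a2
      refine ⟨u' * s, mul_mem b1 (H.mem hs), by omega, by rw [← mul_assoc, ← b3]; group⟩
    have := H.fold hr hs (mul_mem hv m) (by omega) (by simpa [mul_assoc] using l2)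
    refine ⟨u * s⁻¹ * _, mul_mem m (mul_mem (inv_mem (mul_mem (H.mem hr) (mul_mem hv m)))
      (mul_mem (mul_mem hv m) (H.mem hs))), ?_, by group⟩
    rw [H.len_dc (DC.right this _)]
    omega

theorem longest (hn : n ∈ N) (l : ∀ r ∈ R, len B R (r * n) ≤ len B R n) {v : S} (hv : v ∈ N) :
    ∃ u ∈ N, len B R v + len B R u ≤ len B R n ∧ n = v * u := by
  induction e : len B R v generalizing v with
  | zero =>
    exact ⟨v⁻¹ * n, mul_mem (inv_mem hv) hn, by
      rw [H.len_dc (DC.left (inv_mem (H.len_zero.1 e)) n), zero_add], by group⟩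
  | succ k ih =>
    obtain ⟨r, hr, d⟩ := H.desc hv (mt H.len_zero.2 (by omega))
    have a : DC B (r * (r * v)) v := mul_assoc r r v ▸ DC.left (H.sq r hr) v
    have m := mul_mem (H.mem hr) hv
    have a1 := H.len_dc a
    obtain ⟨u, b1, b2, rfl⟩ := ih m (by omega)
    obtain ⟨u', c1, c2, c3⟩ := H.exch hr m b1 (by omega) (by omega) (l r hr)
    have t := mem_conjBy.1 (H.norm _ (inv_mem hv) ⟨H.sq r hr, N.mul_mem (H.mem hr) (H.mem hr)⟩)
    refine ⟨_ * u', mul_mem (mul_mem (mul_mem (inv_mem hv) (mul_mem (H.mem hr) (H.mem hr)))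
      (inv_mem (inv_mem hv))) c1, ?_, by rw [c3]; group⟩
    rw [H.len_dc (DC.left t _)]
    omega

end BN

end Pool.Agent.MP_983df8_al

end MrgPart0

-- ======== part 1: formerly Pool.Agent.MP_983df8_al.BN2
section MrgPart1

namespace Pool.Agent.MP_983df8_al

open Subgroup

variable {S : Type*} [Group S] {B N : Subgroup S} {R : Set S} {g h n r r' s w x x' y c : S} {l : ℕ}

/-- a longest element -/
structure Top (B N : Subgroup S) (R : Set S) (l : ℕ) (w : S) : Prop where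
  mem : w ∈ N
  eq : len B R w = l
  le : ∀ g, len B R g ≤ l

/-- opposite chambers -/
def Opp (B : Subgroup S) (R : Set S) (l : ℕ) (x y : S) : Prop := len B R (x⁻¹ * y) = l

namespace BN

variable (H : BN B N R)
include H

theorem exists_top [Finite S] : ∃ l w, Top B N R l w := by
  obtain ⟨g, hg⟩ := Finite.exists_max (len B R)
  obtain ⟨n, hn, a⟩ := H.bruhat g
  exact ⟨_, n, hn, (H.len_dc a).symm, hg⟩

theorem top_inv (T : Top B N R l w) : Top B N R l w⁻¹ :=
  ⟨inv_mem T.mem, (H.len_inv w).trans T.eq, T.le⟩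

theorem top_of (T : Top B N R l w) (hn : n ∈ N) (a : ∀ r ∈ R, len B R (r * n) ≤ len B R n) :
    DC B n w := by
  obtain ⟨u, -, b, rfl⟩ := H.longest hn a T.mem
  have := T.le (w * u)
  exact DC.right (H.len_zero.1 (by have := T.eq; omega)) w

theorem dc_top (T : Top B N R l w) (a : len B R g = l) : DC B g w := by
  obtain ⟨n, hn, b⟩ := H.bruhat g
  exact b.trans (H.top_of T hn fun r _ => H.len_dc b ▸ a ▸ T.le _)

theorem opp_symm (a : Opp B R l x y) : Opp B R l y x := by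
  rwa [Opp, ← H.len_inv, mul_inv_rev, inv_inv]

theorem opp_congr {y' : S} (a : Opp B R l x y) (b : x⁻¹ * x' ∈ B) (c : y⁻¹ * y' ∈ B) :
    Opp B R l x' y' :=
  (H.len_dc ⟨_, inv_mem b, _, c, by group⟩).trans a

theorem conj_mem (hn : n ∈ N) (a : g ∈ B) (b : g ∈ N) : n * g * n⁻¹ ∈ B :=
  mem_conjBy.1 (H.norm n hn ⟨a, b⟩)

theorem exists_ty (T : Top B N R l w) (hr : r' ∈ R) : ∃ r ∈ R, DC B (w⁻¹ * r * w) r' := by
  have m := mul_mem T.mem (inv_mem (H.mem hr))
  by_cases a : ∀ r ∈ R, len B R (r * (w * r'⁻¹)) ≤ len B R (w * r'⁻¹)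
  · exact (H.not_mem hr (by simpa using H.uniq T.mem m (H.top_of T m a))).elim
  push Not at a
  obtain ⟨r, b, c⟩ := a
  have := H.fold b hr m c.le (by simpa [T.eq] using T.le _)
  exact ⟨r, b, by simpa [mul_assoc] using DC.left (inv_mem this) r'⟩

theorem ty_symm (T : Top B N R l w) (hr : r ∈ R) (hr' : r' ∈ R) (a : DC B (w⁻¹ * r * w) r') :
    DC B (w⁻¹⁻¹ * r' * w⁻¹) r := by
  have m := mul_mem (mul_mem (inv_mem T.mem) (H.mem hr)) T.mem
  have := H.conj_mem T.mem (H.uniq (H.mem hr') m a) (mul_mem (inv_mem (H.mem hr')) m)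
  exact (DC.of_mem (by simpa [mul_assoc] using this)).symm

/-- the minimal parabolic subgroups -/
def par (hr : r ∈ R) : Subgroup S where
  carrier := {g | g ∈ B ∨ DC B g r}
  one_mem' := Or.inl (one_mem _)
  mul_mem' := by
    rintro a b (c | c) (d | d)
    exacts [Or.inl (mul_mem c d), Or.inr ((DC.left c b).trans d), Or.inr ((DC.right d a).trans c),
      (H.bn' hr (H.mem hr) c d).imp_left fun e => e.mem (H.sq r hr)]
  inv_mem' := fun a => a.imp inv_mem fun b => b.inv.trans (H.dc_inv hr)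

theorem gate (T : Top B N R l w) (hr : r ∈ R) {z : S} (a : x⁻¹ * x' ∈ H.par hr)
    (b : x⁻¹ * z ∈ H.par hr) (c : ¬ Opp B R l x y) (d : ¬ Opp B R l x' y) (e : Opp B R l z y) :
    x⁻¹ * x' ∈ B := by
  obtain ⟨n, hn, f⟩ := H.bruhat (x⁻¹ * y)
  have b1 := (inv_mem b).resolve_left fun b1 => c (H.opp_congr e (by simpa using b1) (by simp))
  have b2 := (H.bn' hr hn b1 f).resolve_right fun b2 => c (by
    have := H.len_dc (b2.trans f.symm)
    simp only [mul_inv_rev, inv_inv, mul_assoc, mul_inv_cancel_left] at this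
    exact this.symm.trans e)
  refine inv_mem_iff.1 ((inv_mem a).resolve_right fun a1 => d ?_)
  have b3 := H.len_dc b2
  simp only [mul_inv_rev, inv_inv, mul_assoc, mul_inv_cancel_left] at b3
  have := H.len_dc (H.cell hr hn (b3 ▸ (T.le n).trans (Eq.ge e)) a1 f)
  simp only [mul_inv_rev, inv_inv, mul_assoc, mul_inv_cancel_left] at this
  exact this.trans (b3.symm.trans e)

theorem exists_not_opp (T : Top B N R l w) (hr : r ∈ R) (x y : S) :
    ∃ x', x⁻¹ * x' ∈ H.par hr ∧ ¬ Opp B R l x' y := by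
  by_cases a : Opp B R l x y
  · obtain ⟨c, hc, d, hd, e⟩ := H.dc_top T a
    refine ⟨x * c * r⁻¹, Or.inr (by simpa [mul_assoc] using (DC.left hc _).trans (H.dc_inv hr)),
      fun b => H.len_ne hr T.mem ((H.len_dc (DC.right hd _)).symm.trans ?_)⟩
    rw [T.eq, ← b, show y = x * (c * w * d) by rw [← e, mul_inv_cancel_left]]
    congr 1
    group
  · exact ⟨x, by simp, a⟩

theorem exists_opp (T : Top B N R l w) (hr : r ∈ R) (hr' : r' ∈ R) (t : DC B (w⁻¹ * r * w) r')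
    (a : Opp B R l c y) (b : c⁻¹ * x ∈ H.par hr) : ∃ y', y⁻¹ * y' ∈ H.par hr' ∧ Opp B R l x y' := by
  by_cases d : Opp B R l x y
  · exact ⟨y, by simp, d⟩
  have b1 := (inv_mem b).resolve_left fun b1 => d (H.opp_congr a (by simpa using inv_mem b1) (by simp))
  have b2 := H.bn' hr T.mem b1 (H.dc_top T a)
  simp only [mul_inv_rev, inv_inv, mul_assoc, mul_inv_cancel_left] at b2
  obtain ⟨p, hp, q, hq, e⟩ := b2.resolve_right fun b2 => d ((H.len_dc b2).trans T.eq)
  refine ⟨y * q⁻¹ * (w⁻¹ * r * w)⁻¹, Or.inr (by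
    simpa [mul_assoc] using (DC.left (inv_mem hq) _).trans (t.inv.trans (H.dc_inv hr'))), ?_⟩
  rw [Opp, ← mul_assoc, ← mul_assoc, e, ← T.eq, ← H.len_dc (DC.left hp w)]
  congr 1
  group

theorem exists_opp2 (T : Top B N R l w) (hr : r ∈ R) {z z' : S} (a : y⁻¹ * z ∈ H.par hr)
    (a' : y⁻¹ * z' ∈ H.par hr) (b : Opp B R l z c) (b' : Opp B R l z' x) :
    ∃ u, y⁻¹ * u ∈ H.par hr ∧ Opp B R l u c ∧ Opp B R l u x := by
  obtain ⟨d, hd, e⟩ := SetLike.not_le_iff_exists.1 (H.thick r hr)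
  have k : ∀ z c, y⁻¹ * z ∈ H.par hr → Opp B R l z c → ∀ u u', y⁻¹ * u ∈ H.par hr →
      y⁻¹ * u' ∈ H.par hr → u⁻¹ * u' ∉ B → Opp B R l u c ∨ Opp B R l u' c :=
    fun z c a b u u' f f' i => by
      by_contra j
      exact i (H.gate T hr (by simpa [mul_assoc] using mul_mem (inv_mem f) f') (by
        simpa [mul_assoc] using mul_mem (inv_mem f) a) (fun o => j (Or.inl o))
          (fun o => j (Or.inr o)) b)
  have m0 : y⁻¹ * y ∈ H.par hr := by simp
  have m1 : y⁻¹ * (y * r⁻¹) ∈ H.par hr := Or.inr (by simpa using H.dc_inv hr)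
  have m2 : y⁻¹ * (y * d * r⁻¹) ∈ H.par hr :=
    Or.inr (by simpa [mul_assoc] using (DC.left hd _).trans (H.dc_inv hr))
  have n1 : y⁻¹ * (y * r⁻¹) ∉ B := by simpa using H.not_mem hr
  have n2 : y⁻¹ * (y * d * r⁻¹) ∉ B := by
    simpa [mul_assoc, B.mul_mem_cancel_left hd] using H.not_mem hr
  have n3 : (y * r⁻¹)⁻¹ * (y * d * r⁻¹) ∉ B := by simpa [mul_assoc, mem_conjBy] using e
  have c1 := k z c a b _ _ m0 m1 n1
  have c2 := k z c a b _ _ m0 m2 n2
  have c3 := k z c a b _ _ m1 m2 n3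
  have d1 := k z' x a' b' _ _ m0 m1 n1
  have d2 := k z' x a' b' _ _ m0 m2 n2
  have d3 := k z' x a' b' _ _ m1 m2 n3
  grind

variable {β : MulAut S}

omit H in
theorem aut_dc (hβ : ∀ g, β g ∈ B ↔ g ∈ B) (a : DC B g h) : DC B (β g) (β h) := by
  obtain ⟨c, hc, d, hd, rfl⟩ := a
  exact ⟨_, (hβ c).2 hc, _, (hβ d).2 hd, by simp⟩

omit H in
theorem aut_symm (hβ : ∀ g, β g ∈ B ↔ g ∈ B) (g : S) : β⁻¹ g ∈ B ↔ g ∈ B := by
  rw [← hβ]
  simp

theorem aut_cell (hβ : ∀ g, β g ∈ B ↔ g ∈ B) (hr : r ∈ R) : ∃ r' ∈ R, DC B (β r) r' := by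
  obtain ⟨n, hn, a⟩ := H.bruhat (β r)
  obtain ⟨s, hs, b⟩ := H.desc hn fun c => H.not_mem hr ((hβ r).1 (a.mem c))
  obtain ⟨d, hd, p, hp, q, hq, e⟩ := H.exists_down hs hn (by omega)
  have m : β⁻¹ n ∈ H.par hr := Or.inr (by simpa using aut_dc (aut_symm hβ) a.symm)
  have k : ∀ g ∈ B, β⁻¹ g ∈ H.par hr := fun g f => Or.inl ((aut_symm hβ g).2 f)
  have := mul_mem (mul_mem (mul_mem (mul_mem (k p hp) m) (k q hq)) (inv_mem m)) (inv_mem (k d hd))
  rw [← map_mul, ← map_mul, ← e, map_mul, map_mul, mul_inv_cancel_right, mul_inv_cancel_right] at this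
  exact ⟨s, hs, by simpa using (aut_dc hβ (this.resolve_left fun f =>
    H.not_mem hs ((aut_symm hβ s).1 f))).symm⟩

theorem aut_len (hβ : ∀ g, β g ∈ B ↔ g ∈ B) (g : S) : len B R (β g) = len B R g := by
  have : ∀ β : MulAut S, (∀ g, β g ∈ B ↔ g ∈ B) → ∀ k g, Gal B R k g → len B R (β g) ≤ k :=
    fun β hβ k g a => by
      induction a with
      | base c => exact (H.len_zero.2 ((hβ _).2 c)).le
      | step c d _ e =>
        obtain ⟨s, hs, f⟩ := H.aut_cell hβ d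
        rw [map_mul, map_mul]
        exact (H.len_r hs ((DC.left ((hβ _).2 c) _).trans f) _).trans (by omega)
  exact le_antisymm (this β hβ _ _ (H.gal g)) (by simpa using this _ (aut_symm hβ) _ _ (H.gal (β g)))

theorem aut_opp (hβ : ∀ g, β g ∈ B ↔ g ∈ B) : Opp B R l (β x) (β y) ↔ Opp B R l x y := by
  rw [Opp, ← map_inv, ← map_mul, H.aut_len hβ, Opp]

theorem fix_gate (T : Top B N R l w) (hβ : ∀ g, β g ∈ B ↔ g ∈ B) (hr : r ∈ R) (t : DC B (β r) r)
    {z : S} (a : c⁻¹ * β c ∈ B) (b : y⁻¹ * β y ∈ B) (d : c⁻¹ * x ∈ H.par hr)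
    (e : ¬ Opp B R l x y) (f : c⁻¹ * z ∈ H.par hr) (i : Opp B R l z y) : x⁻¹ * β x ∈ B := by
  have m : β (c⁻¹ * x) ∈ H.par hr := d.imp (hβ _).2 fun j => (aut_dc hβ j).trans t
  exact H.gate T hr (by simpa [mul_assoc] using mul_mem (mul_mem (inv_mem d) (Or.inl a)) m)
    (by simpa [mul_assoc] using mul_mem (inv_mem d) f) e
    (fun j => e ((H.aut_opp hβ).1 (H.opp_congr j (by simp) b))) i

theorem rigid [IsSimpleGroup S] (T : Top B N R l w) (hB : B ≠ ⊤) (hβ : ∀ g, β g ∈ B ↔ g ∈ B)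
    (a : ∀ r ∈ R, ∀ x, DC B x r → x⁻¹ * β x ∈ B) (b : w⁻¹ * β w ∈ B) : β = 1 := by
  let F := fun c => c⁻¹ * β c ∈ B ∧ ∀ r (hr : r ∈ R) x, c⁻¹ * x ∈ H.par hr → x⁻¹ * β x ∈ B
  have t : ∀ r ∈ R, DC B (β r) r := fun r hr => DC.of_mem (a r hr r (DC.refl _))
  have A : ∀ c y, F c → y⁻¹ * β y ∈ B → Opp B R l c y → F y := fun c y f i o =>
    ⟨i, fun r' hr' y' j => by
      obtain ⟨r, hr, k⟩ := H.exists_ty T hr'
      obtain ⟨x, x1, x2⟩ := H.exists_not_opp T hr c y'
      obtain ⟨z, z1, z2⟩ := H.exists_opp T hr hr' k o x1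
      exact H.fix_gate T hβ hr' (t _ hr') i (f.2 r hr x x1) j (fun m => x2 (H.opp_symm m)) z1
        (H.opp_symm z2)⟩
  have C : ∀ k g, Gal B R k g → ∀ c y, F c → y⁻¹ * β y ∈ B → Opp B R l c y →
      (c * g)⁻¹ * β (c * g) ∈ B := fun k g j => by
    induction j with
    | base m =>
      exact fun c y f _ _ => by
        simpa [mul_assoc] using mul_mem (mul_mem (inv_mem m) f.1) ((hβ _).2 m)
    | @step _ b r g m hr _ ih =>
      intro c y f i o
      have p : c⁻¹ * (c * (b * r)) ∈ H.par hr := Or.inr (by simpa using DC.left m r)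
      obtain ⟨r', hr', k⟩ := H.exists_ty (H.top_inv T) hr
      obtain ⟨z, z1, z2⟩ := H.exists_opp T hr hr' (by
        simpa using H.ty_symm (H.top_inv T) hr' hr k) o p
      obtain ⟨u, u1, u2, u3⟩ := H.exists_opp2 T hr' (z := y) (by simp) z1 (H.opp_symm o)
        (H.opp_symm z2)
      have q := (A c y f i o).2 r' hr' u u1
      exact mul_assoc c _ g ▸ ih _ u (A u _ (A c u f q (H.opp_symm u2)) (f.2 r hr _ p) u3) q
        (H.opp_symm u3)
  have D : ∀ g, g⁻¹ * β g ∈ B := fun g => by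
    simpa using C _ g (H.gal g) 1 w ⟨by simp, fun r hr x j => j.elim (fun j => by
      simpa using mul_mem (inv_mem j) ((hβ _).2 j)) fun j => a r hr x (by simpa using j)⟩ b
      (by simpa [Opp] using T.eq)
  refine MulEquiv.ext fun g => (inv_mul_eq_one.1 ((B.normalCore_normal.eq_bot_or_eq_top.resolve_right
    fun e => hB (top_unique (e.ge.trans B.normalCore_le))).le fun h => ?_)).symm
  simpa [mul_assoc] using mul_mem (inv_mem (D (β⁻¹ h⁻¹))) (D (g * β⁻¹ h⁻¹))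

theorem exists_proj [Finite S] (T : Top B N R l w) (f : S → S) (a : ∀ r ∈ R, DC B (f r) r)
    (b : ∀ r ∈ R, ∀ s ∈ R, DC B s r → (f r)⁻¹ * f s ∈ B) :
    ∃ c, Opp B R l 1 c ∧ ∀ r ∈ R, ¬ Opp B R l (f r) c := by
  suffices ∀ A : Set S, A ⊆ R → ∃ c, Opp B R l 1 c ∧ ∀ r ∈ A, ¬ Opp B R l (f r) c from this R le_rfl
  intro A hA
  induction A, A.toFinite using Set.Finite.induction_on with
  | empty => exact ⟨w, by simpa [Opp] using T.eq, by simp⟩
  | @insert r A _ _ ih =>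
    obtain ⟨c, c1, c2⟩ := ih ((Set.subset_insert _ _).trans hA)
    have hr := hA (Set.mem_insert _ _)
    obtain ⟨r', hr', k⟩ := H.exists_ty (H.top_inv T) hr
    have k' : DC B (w⁻¹ * r * w) r' := by simpa using H.ty_symm (H.top_inv T) hr' hr k
    obtain ⟨y, y1, y2⟩ := H.exists_not_opp T hr' c (f r)
    obtain ⟨z, z1, z2⟩ := H.exists_opp (H.top_inv T) hr' hr k (H.opp_symm c1) y1
    refine ⟨y, by_contra fun o => H.not_mem hr ((a r hr).symm.mem (by
      simpa using H.gate T hr (x := 1) (Or.inr (by simpa using a r hr)) z1 o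
        (fun m => y2 (H.opp_symm m)) (H.opp_symm z2))), fun s hs o => ?_⟩
    have ks : ¬ DC B s r := fun m => y2 (H.opp_symm (H.opp_congr o
      (b s (hA hs) r hr m.symm) (by simp)))
    have hs' := hs.resolve_left fun m => ks (m ▸ DC.refl _)
    have hs := hA hs
    have y3 := y1.resolve_left fun m => c2 s hs' (H.opp_congr o (by simp) (by simpa using inv_mem m))
    have m1 := (H.bn' hs T.mem ((a s hs).inv.trans (H.dc_inv hs)) (H.dc_top T (by
      simpa [Opp] using c1))).resolve_right fun m => c2 s hs' ((H.len_dc m).trans T.eq)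
    have m0 := mul_mem (H.mem hs) T.mem
    have m2 := H.bnr hr' m0 y3 m1
    rw [mul_assoc, mul_inv_cancel_left] at m2
    have m3 := H.uniq T.mem (mul_mem m0 (H.mem hr')) ((m2.resolve_right fun m => c2 s hs'
      ((H.len_dc (m1.trans m.symm)).trans o)).symm.trans (H.dc_top T o))
    have m4 := H.uniq (H.mem hr') (mul_mem (mul_mem (inv_mem T.mem) (H.mem hr)) T.mem) k'
    have m5 := H.conj_mem T.mem (mul_mem m3 m4) (by
      simpa [mul_assoc] using mul_mem (inv_mem T.mem) (mul_mem (H.mem hs) (mul_mem (H.mem hr) T.mem)))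
    exact ks ((DC.of_mem (by simpa [mul_assoc] using m5)).trans (H.dc_inv hs)).symm

theorem apart (T : Top B N R l w) {b : S} (a : b ∈ B) (a' : w⁻¹ * b * w ∈ B) (hn : n ∈ N) :
    n⁻¹ * b * n ∈ B := by
  have hβ : ∀ g, MulAut.conj b g ∈ B ↔ g ∈ B := fun g => by
    simp [B.mul_mem_cancel_left a, B.mul_mem_cancel_right (inv_mem a), mul_assoc]
  have k : ∀ x, x⁻¹ * MulAut.conj b x ∈ B ↔ x⁻¹ * b * x ∈ B := fun x => by
    simp [B.mul_mem_cancel_right (inv_mem a), ← mul_assoc]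
  have t : ∀ r, DC B (MulAut.conj b r) r := fun r => ⟨b, a, _, inv_mem a, rfl⟩
  suffices n⁻¹ * b * n ∈ B ∧ (n * w)⁻¹ * b * (n * w) ∈ B from this.1
  induction e : len B R n generalizing n with
  | zero =>
    have c := H.len_zero.1 e
    have d := H.conj_mem (inv_mem T.mem) c hn
    exact ⟨mul_mem (mul_mem (inv_mem c) a) c, by
      simpa [mul_assoc] using mul_mem (mul_mem (inv_mem d) a') d⟩
  | succ j ih =>
    obtain ⟨r, hr, d⟩ := H.desc' hn (mt H.len_zero.2 (by omega))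
    obtain ⟨c1, c2⟩ := ih (mul_mem hn (inv_mem (H.mem hr))) (by omega)
    obtain ⟨r', hr', f⟩ := H.exists_ty (H.top_inv T) hr
    have o : Opp B R l (n * r⁻¹) (n * r⁻¹ * w) := by simpa [Opp, mul_assoc] using T.eq
    have q := H.len_ne hr T.mem
    refine ⟨(k _).1 (H.fix_gate T hβ hr (t r) ((k _).2 c1) ((k _).2 c2)
      (Or.inr (by simpa using DC.refl r)) (fun m => q ?_) (by simp) o),
      (k _).1 (H.fix_gate T hβ hr' (t r') ((k _).2 c2) ((k _).2 c1) (Or.inr (by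
        simpa [mul_assoc] using H.ty_symm (H.top_inv T) hr' hr f)) (fun m => q ?_)
          (by simp [mul_assoc]) (H.opp_symm o))⟩
    · rw [T.eq, ← m, ← H.len_dc (DC.left (inv_mem (H.sq r hr)) _)]
      simp [mul_assoc]
    · rw [T.eq, ← H.opp_symm m]
      simp [mul_assoc]

end BN

end Pool.Agent.MP_983df8_al

end MrgPart1

-- ======== part 2: formerly Pool.Agent.MP_983df8_al.ExtK2
section MrgPart2

namespace Pool.Agent.MP_983df8_al

open Subgroup Matrix

attribute [local instance 100] LieRing.ofAssociativeRing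

variable {K L : Type*} [Field K] [LieRing L] [LieAlgebra K L] {g : L →ₗ[K] L →ₗ[K] K}
variable {F : Type*} [Field F] {φ : K →+* F} {x y z : L} {n : Type} [Fintype n] [DecidableEq n]
variable {S : Type*} [Group S] {ρ : S →* Module.End K L} {E : Set L} {e : L → S}

/-- the underlying matrix -/
def cM : SpecialLinearGroup n F →* Matrix n n F := SpecialLinearGroup.coeMonoidHom

theorem cM_inj : Function.Injective (cM : SpecialLinearGroup n F → _) := Subtype.val_injective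

theorem cM_det (P : SpecialLinearGroup n F) : (cM P).det = 1 := P.2

/-- a transvection -/
def R1.sl {X : Matrix n n F} (hX : R1 X) (c : F) : SpecialLinearGroup n F := ⟨1 + c • X, hX.det c⟩

theorem R1.cM_sl {X : Matrix n n F} (hX : R1 X) (c : F) : cM (hX.sl c) = 1 + c • X := rfl

/-- pairs that preserve a relation -/
def presR (ρ : S →* Module.End K L) (R : L → Matrix n n F → Prop) :
    Subgroup (S × SpecialLinearGroup n F) where
  carrier := {w | ∀ u m, R u m ↔ R (ρ w.1 u) (cM w.2 * m * cM w.2⁻¹)}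
  one_mem' := fun u m => by simp
  mul_mem' := fun {a b} ha hb u m => by
    rw [hb, ha]
    simp [mul_assoc]
  inv_mem' := fun {a} ha u m => by
    rw [ha (ρ a⁻¹.1 u), Prod.fst_inv, rho_cancel, Prod.snd_inv, inv_inv, mul_assoc, mul_assoc,
      mul_assoc, ← map_mul, mul_inv_cancel, map_one, mul_one, ← mul_assoc, ← map_mul,
      mul_inv_cancel, map_one, one_mul]

theorem mem_pres {X : Matrix n n F} (hX : R1 X) (h : RS g ρ E e) (hx : x ∈ E)
    {R : L → Matrix n n F → Prop}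
    (hR : ∀ s u m, R u m → R (ex g (s • x) u) (ex (ntr n F) (φ s • X) m)) (s : K) :
    (e (s • x), hX.sl (φ s)) ∈ presR ρ R := fun u m => by
  have : (hX.sl (φ s))⁻¹ = hX.sl (-φ s) := inv_eq_of_mul_eq_one_left (cM_inj (by
    simp [hX.cM_sl, add_mul, mul_add, hX.sq]))
  simp only [this, h.ex _ (h.smul x hx s), hX.cM_sl, ← hX.ex]
  refine ⟨hR s u m, fun a => ?_⟩
  have := hR (-s) _ _ a
  rwa [← Module.End.mul_apply, h.ex_add (h.ext x hx), neg_add_cancel, zero_smul, ex_zero,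
    ← Module.End.mul_apply, ntr_inv.ex_add hX.ext, map_neg, neg_add_cancel, zero_smul, ex_zero]
    at this

theorem RS.transfer [Nonempty n] (h : RS g ρ E e) {J : Subgroup S} [Finite J] [Group.IsSolvable J]
    (hx : x ∈ E) (hy : y ∈ E) (hz : z ∈ E) {s t : K} (hj : e (s • x) * e y ∈ J)
    (hj' : e (t • x) * e z ∈ J) {X Y Z : Matrix n n F} (hX : R1 X) (hY : R1 Y) (hZ : R1 Z)
    (ha : φ (g x y) = ntr n F X Y) (hb : φ (g x z) = ntr n F X Z) (hc : φ (g y z) = ntr n F Y Z)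
    (hd : φ (g x ⁅y, z⁆) = ntr n F X ⁅Y, Z⁆)
    (nd : ∀ m, co9 (ntr n F) X Y Z m = 0 → ∃ c : F, m = c • 1)
    (cm : ∀ P, Commute P X → Commute P Y → Commute P Z → ∃ c : F, P = c • 1) :
    ∃ (Γ : Subgroup (S × SpecialLinearGroup n F)) (θ : Γ →* Matrix n n F), Finite Γ ∧
      Group.IsSolvable Γ ∧ (∀ γ, (θ γ).det = 1) ∧ (scal θ).index ∣ Nat.card J ∧
      ∃ γ γ', θ γ = (1 + φ s • X) * (1 + Y) ∧ θ γ' = (1 + φ t • X) * (1 + Z) := by
  have i := h.toInvF
  have i' := ntr_inv (n := n) (F := F)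
  have ha' := i.symm x y ▸ i'.symm X Y ▸ ha
  have hb' := i.symm x z ▸ i'.symm X Z ▸ hb
  have hc' := i.symm y z ▸ i'.symm Y Z ▸ hc
  have hd' := i.cyc x y z ▸ i'.cyc X Y Z ▸ hd
  have hd'' := i.cyc y z x ▸ i'.cyc Y Z X ▸ hd'
  let R := R9 φ g (ntr n F) x y z X Y Z
  have m1 := mem_pres hX h hx (R := R) fun s u m r => r.ex i i' (h.ext x hx) hX.ext ha hb hd s
  have m2 := mem_pres hY h hy (R := R) (fun s u m r =>
    (r.rot.ex i i' (h.ext y hy) hY.ext hc ha' hd' s).rot.rot) 1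
  have m3 := mem_pres hZ h hz (R := R) (fun s u m r =>
    (r.rot.rot.ex i i' (h.ext z hz) hZ.ext hb' hc' hd'' s).rot) 1
  let Γ := presR ρ R ⊓ J.comap (MonoidHom.fst _ _)
  let θ : Γ →* Matrix n n F :=
    cM.comp ((MonoidHom.snd _ _).comp Γ.subtype)
  let f : Γ →* J := ((MonoidHom.fst _ _).comp Γ.subtype).codRestrict J fun w => w.2.2
  have k : f.ker ≤ scal θ := fun w hw => by
    have a : w.1.1 = 1 := congrArg Subtype.val hw
    have b : ∀ u N, R1 N → R u N → Commute (cM w.1.2) N := fun u N hN r => by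
      have r' := (w.2.1 u N).1 r
      rw [a, map_one] at r'
      have c : cM w.1.2⁻¹ * cM w.1.2 = 1 := by rw [← map_mul, inv_mul_cancel, map_one]
      generalize cM w.1.2⁻¹ = Q, cM w.1.2 = P at r' c
      obtain ⟨c, e⟩ := nd (P * N * Q - N) (by
        ext i
        have := congrFun (r'.symm.trans r) i
        fin_cases i <;> simpa [co9, sub_eq_zero] using this)
      have e1 : P * N * Q * (P * N * Q) = 0 := by
        rw [mul_assoc, ← mul_assoc Q, ← mul_assoc Q, ‹Q * P = 1›, one_mul, mul_assoc, ← mul_assoc N, hN.sq, zero_mul, mul_zero]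
      rw [sub_eq_iff_eq_add] at e
      have e2 : c * c * c = 0 := by
        have := congrArg (· * (c • 1 - N - N)) e1
        simp only [e, add_mul, mul_add, mul_sub, smul_mul, Matrix.mul_smul, hN.sq, one_mul, mul_one,
          zero_mul, smul_smul, smul_zero] at this
        refine (smul_eq_zero.1 (?_ : _ • (1 : Matrix n n F) = 0)).resolve_right one_ne_zero
        linear_combination (norm := module) this
      have := congrArg (· * P) e
      simpa [Commute, SemiconjBy, mul_assoc, show c = 0 by simpa using e2, ‹Q * P = 1›] using this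
    exact cm _ (b x X hX (R9.self i i' (h.ext x hx) hX.ext ha hb hd))
      (b y Y hY (R9.self i i' (h.ext y hy) hY.ext hc ha' hd').rot.rot)
      (b z Z hZ (R9.self i i' (h.ext z hz) hZ.ext hb' hc' hd'').rot)
  have k1 : ∀ w : f.ker, w.1.1.1 = 1 := fun w => congrArg Subtype.val w.2
  have : Finite f.ker := by
    classical
    choose c hc using fun w : f.ker => k w.2
    refine Finite.of_injective (β := (Polynomial.nthRoots (Fintype.card n) (1 : F)).toFinset)
      (fun w => ⟨c w, ?_⟩) fun w w' e => Subtype.ext (Subtype.ext (Prod.ext ((k1 w).trans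
        (k1 w').symm) (cM_inj ((hc w).trans ((congrArg (·.1 • (1 : Matrix n n F)) e).trans
          (hc w').symm)))))
    rw [Multiset.mem_toFinset, Polynomial.mem_nthRoots Fintype.card_pos]
    simpa using (congrArg det (hc w)).symm.trans (cM_det w.1.1.2)
  have : Group.IsSolvable f.ker := Group.isSolvable_of_comm fun w w' => by
    obtain ⟨c, e⟩ := k w.2
    refine Subtype.ext (Subtype.ext (Prod.ext (by simp [k1]) (cM_inj ?_)))
    show θ (w * w') = θ (w' * w)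
    simp [e]
  refine ⟨Γ, θ, f.finite_iff_finite_ker_range.2 ⟨‹_›, inferInstance⟩,
    Group.isSolvable_of_ker_le_range f.ker.subtype f (by simp), fun w => cM_det w.1.2,
    (index_dvd_of_le k).trans (index_ker f ▸ card_subgroup_dvd_card _),
    ⟨_, mul_mem (m1 s) m2, by simpa using hj⟩, ⟨_, mul_mem (m1 t) m3, by simpa using hj'⟩, ?_, ?_⟩ <;>
  simp [θ, R1.cM_sl]

end Pool.Agent.MP_983df8_al

end MrgPart2

-- ======== part 3: formerly Pool.Agent.MP_983df8_al.ExtK3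
section MrgPart3

namespace Pool.Agent.MP_983df8_al

open Subgroup Matrix

attribute [local instance 100] LieRing.ofAssociativeRing

variable {K L : Type*} [Field K] [LieRing L] [LieAlgebra K L] {g : L →ₗ[K] L →ₗ[K] K}
variable {F : Type*} [Field F] {φ : K →+* F} {x y z : L}
variable {S : Type*} [Group S] {ρ : S →* Module.End K L} {E : Set L} {e : L → S}

theorem r1_vec {n : Type} [Fintype n] [DecidableEq n] (v w : n → F) (h : w ⬝ᵥ v = 0)
    {N : Matrix n n F} (e : N = vecMulVec v w) : R1 N := by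
  subst e
  refine ⟨by simp [vecMulVec_mul_vecMulVec, h], fun X => ?_, fun s => ?_⟩
  · rw [vecMulVec_mul, vecMulVec_mul_vecMulVec, trace_vecMulVec, dotProduct_comm]
    ext i j
    simp [vecMulVec_apply]
    ring
  · rw [← smul_vecMulVec, vecMulVec_eq Unit, det_one_add_replicateCol_mul_replicateRow]
    simp [h]

theorem m3_ext {X Y : M3 F} : X = Y ↔ (X 0 0 = Y 0 0 ∧ X 0 1 = Y 0 1 ∧ X 0 2 = Y 0 2) ∧
    (X 1 0 = Y 1 0 ∧ X 1 1 = Y 1 1 ∧ X 1 2 = Y 1 2) ∧
    X 2 0 = Y 2 0 ∧ X 2 1 = Y 2 1 ∧ X 2 2 = Y 2 2 := by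
  simp [← Matrix.ext_iff, Fin.forall_fin_succ]

theorem RS.K2 (h : RS g ρ E e) {p : ℕ} [Fact p.Prime] [CharP F p] {J : Subgroup S} [Finite J]
    [Group.IsSolvable J] (ho : Odd (Nat.card J)) (hp : ¬ p ∣ Nat.card J)
    (hx : x ∈ E) (hy : y ∈ E) (hz : z ∈ E) {s t : K} (hj : e (s • x) * e y ∈ J)
    (hj' : e (t • x) * e z ∈ J) (ha : φ (g x y) ≠ 0) {μ : F}
    (hc : φ (g y z) = φ (g x y) * φ (g x z) * μ * μ)
    (hd : φ (g x ⁅y, z⁆) = -(2 * φ (g x y) * φ (g x z) * μ)) :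
    φ (g x z) * (φ s - φ t - 2 * μ) = 0 ∧
      φ (g x y) * (φ (g x z) * (μ * μ + φ t * μ) + φ t) = φ s * φ (g x z) := by
  obtain ⟨Γ, θ, _, _, a1, a2, γ, γ', a3, a4⟩ := h.transfer (φ := φ) hx hy hz hj hj'
    (X := !![0, 1; 0, 0]) (Y := !![0, 0; -φ (g x y), 0])
    (Z := !![-(φ (g x z) * μ), φ (g x z) * μ * μ; -φ (g x z), φ (g x z) * μ])
    (r1_vec ![1, 0] ![0, 1] (by simp) (m2_ext.2 (by simp [vecMulVec_apply])))
    (r1_vec ![0, 1] ![-φ (g x y), 0] (by simp) (m2_ext.2 (by simp [vecMulVec_apply])))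
    (r1_vec ![μ, 1] ![-φ (g x z), φ (g x z) * μ] (by simp) (m2_ext.2 (by
      simp [vecMulVec_apply, mul_comm]))) (by simp [ntr_apply, trace_fin_two])
    (by simp [ntr_apply, trace_fin_two]) (by simp [ntr_apply, trace_fin_two, hc]; ring)
    (by simp [ntr_apply, trace_fin_two, hd, Ring.lie_def]; ring)
    (fun m hm => by
      have b0 := congrFun hm 0
      have b1 := congrFun hm 1
      have b2 := congrFun hm 3
      simp [co9, ntr_apply, trace_fin_two, Ring.lie_def, vecMul, dotProduct] at b0 b1 b2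
      exact ⟨m 0 0, by simp [m2_ext]; grind⟩)
    (fun P b0 b1 _ => by
      simp [Commute, SemiconjBy, m2_ext, m2_mul, vecMul, dotProduct] at b0 b1
      exact ⟨P 0 0, by simp [m2_ext]; grind⟩)
  have := (cliff2 a1 (ho.of_dvd_nat a2) (fun a => hp (a.trans a2)) γ γ').eq
  rw [a3, a4] at this
  simp [m2_ext, m2_mul] at this
  grind

theorem RS.K3 [IsAlgClosed F] (h : RS g ρ E e) {p : ℕ} [Fact p.Prime] [CharP F p] {J : Subgroup S}
    [Finite J] [Group.IsSolvable J] (ho : Odd (Nat.card J)) (hp : ¬ p ∣ Nat.card J)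
    (hx : x ∈ E) (hy : y ∈ E) (hz : z ∈ E) {s t : K} (hj : e (s • x) * e y ∈ J)
    (hj' : e (t • x) * e z ∈ J) (ha : φ (g x y) ≠ 0) (hb : φ (g x z) ≠ 0) (hs : φ s ≠ 0)
    (ht : φ t ≠ 0) {u v : F} (hc : φ (g y z) = -(u * v))
    (hd : φ (g x ⁅y, z⁆) = φ (g x z) * u - φ (g x y) * v)
    (hn : φ (g x z) * u + φ (g x y) * v ≠ 0) :
    3 ∣ Nat.card J ∧ (φ t = -φ s ∨ (φ t = φ s ∧ φ s * φ (g x y) = 3)) := by
  generalize ea : φ (g x y) = a at *
  generalize eb : φ (g x z) = b at *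
  have cm : ∀ P : M3 F, Commute P ((1 + φ s • !![0, 1, 1; 0, 0, 0; 0, 0, 0]) *
      (1 + !![0, 0, 0; -a, 0, u; 0, 0, 0])) → Commute P ((1 + φ t • !![0, 1, 1; 0, 0, 0; 0, 0, 0]) *
      (1 + !![0, 0, 0; 0, 0, 0; -b, v, 0])) → ∃ c : F, P = c • 1 := fun P b0 b1 => by
    simp [Commute, SemiconjBy, m3_ext, Matrix.mul_apply, Fin.sum_univ_three] at b0 b1
    have c1 : P 2 0 = 0 := by grind
    have c2 : P 2 1 = 0 := by grind
    have c3 : P 1 0 = 0 := by grind
    have c4 : P 1 2 = 0 := by grind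
    exact ⟨P 0 0, by simp [m3_ext]; grind⟩
  obtain ⟨Γ, θ, _, _, a1, a2, γ, γ', a3, a4⟩ := h.transfer (φ := φ) hx hy hz hj hj'
    (X := !![0, 1, 1; 0, 0, 0; 0, 0, 0]) (Y := !![0, 0, 0; -a, 0, u; 0, 0, 0])
    (Z := !![0, 0, 0; 0, 0, 0; -b, v, 0])
    (r1_vec ![1, 0, 0] ![0, 1, 1] (by simp) (m3_ext.2 (by simp [vecMulVec_apply])))
    (r1_vec ![0, 1, 0] ![-a, 0, u] (by simp) (m3_ext.2 (by simp [vecMulVec_apply])))
    (r1_vec ![0, 0, 1] ![-b, v, 0] (by simp) (m3_ext.2 (by simp [vecMulVec_apply])))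
    (by simp [ntr_apply, trace_fin_three, ea]) (by simp [ntr_apply, trace_fin_three, eb])
    (by simp [ntr_apply, trace_fin_three, hc])
    (by simp [ntr_apply, trace_fin_three, hd, Ring.lie_def]; ring)
    (fun m hm => by
      have k := congrFun hm
      simp [co9, ntr_apply, trace_fin_three, Ring.lie_def, vecMul, dotProduct, Fin.sum_univ_three,
        Fin.forall_fin_succ] at k
      obtain ⟨k1, k2, k3, k4, k5, k6, k7, k8, k9⟩ := k
      have c1 : m 1 1 + m 2 1 = m 1 2 + m 2 2 := by grind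
      have c2 : -a * m 0 2 + u * m 2 2 = u * (m 1 1 + m 2 1) := by grind
      have c3 : -b * m 0 1 + v * m 1 1 = v * (m 1 1 + m 2 1) := by grind
      have c4 : m 2 0 = 0 := by grind
      have c5 : m 2 1 = 0 := by grind
      have c6 : m 1 2 = 0 := by grind
      exact ⟨m 0 0, by simp [m3_ext]; grind⟩)
    fun P b0 b1 b2 => cm P (((Commute.one_right P).add_right (b0.smul_right _)).mul_right
      ((Commute.one_right P).add_right b1)) (((Commute.one_right P).add_right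
        (b0.smul_right _)).mul_right ((Commute.one_right P).add_right b2))
  obtain ⟨b1, A, b2, b3, b4⟩ := cliff3 a1 (ho.of_dvd_nat a2) (fun a => hp (a.trans a2))
    fun X hX => cm X (a3 ▸ (hX γ).symm) (a4 ▸ (hX γ').symm)
  have i1 : θ γ⁻¹ = (1 - !![0, 0, 0; -a, 0, u; 0, 0, 0]) *
      (1 - φ s • !![0, 1, 1; 0, 0, 0; 0, 0, 0]) := by
    refine left_inv_eq_right_inv (a := θ γ) (by rw [← map_mul, inv_mul_cancel, map_one]) ?_
    simp [a3, m3_ext, Matrix.mul_apply, Fin.sum_univ_three]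
    grind
  have i2 : θ γ'⁻¹ = (1 - !![0, 0, 0; 0, 0, 0; -b, v, 0]) *
      (1 - φ t • !![0, 1, 1; 0, 0, 0; 0, 0, 0]) := by
    refine left_inv_eq_right_inv (a := θ γ') (by rw [← map_mul, inv_mul_cancel, map_one]) ?_
    simp [a4, m3_ext, Matrix.mul_apply, Fin.sum_univ_three]
    grind
  have c1 : γ * γ' ∉ A → φ t = -φ s := fun c => by
    have d1 := b4 _ c
    have d2 := b4 (γ'⁻¹ * γ⁻¹) fun d => c (by simpa using A.inv_mem d)
    rw [map_mul, a3, a4] at d1
    rw [map_mul, i1, i2] at d2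
    simp [trace_fin_three, Matrix.mul_apply, Fin.sum_univ_three] at d1 d2
    grind
  have c2 : γ⁻¹ * γ' ∉ A → φ t = φ s := fun c => by
    have d1 := b4 _ c
    have d2 := b4 (γ'⁻¹ * γ) fun d => c (by simpa using A.inv_mem d)
    rw [map_mul, i1, a4] at d1
    rw [map_mul, a3, i2] at d2
    simp [trace_fin_three, Matrix.mul_apply, Fin.sum_univ_three] at d1 d2
    grind
  refine ⟨b1.trans a2, ?_⟩
  by_cases c : γ ∈ A
  · refine Or.inl (c1 fun d => ?_)
    obtain ⟨k, hk⟩ := cm (θ γ) (a3 ▸ Commute.refl _) (a4 ▸ b3 _ c _ ((A.mul_mem_cancel_left c).1 d))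
    simp [a3, m3_ext, Matrix.mul_apply, Fin.sum_univ_three, ha] at hk
  by_cases d : γ⁻¹ * γ' ∈ A
  · exact Or.inl (c1 fun d' => c (b2 _ (by simpa [mul_assoc] using A.mul_mem d' (A.inv_mem d))))
  have := b4 _ c
  simp [a3, trace_fin_three, Matrix.mul_apply, Fin.sum_univ_three] at this
  exact Or.inr ⟨c2 d, by grind⟩

theorem RS.lemK (h : RS g ρ E e) {p : ℕ} [Fact p.Prime] [CharP K p] {J : Subgroup S}
    [Finite J] [Group.IsSolvable J] (ho : Odd (Nat.card J)) (hp : ¬ p ∣ Nat.card J)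
    (hx : x ∈ E) (hy : y ∈ E) (hz : z ∈ E) {s t : K} (hj : e (s • x) * e y ∈ J)
    (hj' : e (t • x) * e z ∈ J) (ha : g x y ≠ 0) (hb : g x z ≠ 0) (hs : s ≠ 0) (ht : t ≠ 0) :
    ((2 : K) = 0 → s = t) ∧ ((2 : K) ≠ 0 → (s = t → g y z ≠ 0 → 3 ∣ Nat.card J ∧ s * g x y = 3) ∧
      (s * g x y = 3 → t * g x z = 3 → t = s ∨ t = -s)) := by
  let φ := algebraMap K (AlgebraicClosure K)
  have i : ∀ {a b}, φ a = φ b ↔ a = b := φ.injective.eq_iff
  have := charP_of_injective_algebraMap (algebraMap K (AlgebraicClosure K)).injective p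
  have ha' := (map_ne_zero φ).2 ha
  have hb' := (map_ne_zero φ).2 hb
  have hs' := (map_ne_zero φ).2 hs
  obtain ⟨u, hu⟩ := IsAlgClosed.exists_root (k := AlgebraicClosure K) (Polynomial.C (φ (g x z)) *
    Polynomial.X ^ 2 + Polynomial.C (-φ (g x ⁅y, z⁆)) * Polynomial.X +
    Polynomial.C (φ (g x y) * φ (g y z))) (by rw [Polynomial.degree_quadratic hb']; decide)
  simp only [Polynomial.IsRoot, Polynomial.eval_add, Polynomial.eval_mul, Polynomial.eval_C,
    Polynomial.eval_pow, Polynomial.eval_X] at hu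
  simp only [← i, ne_eq, map_mul, map_neg, map_ofNat, map_zero]
  obtain ⟨v, hv⟩ : ∃ v, φ (g x ⁅y, z⁆) = φ (g x z) * u - φ (g x y) * v :=
    ⟨(φ (g x z) * u - φ (g x ⁅y, z⁆)) / φ (g x y), by field_simp; ring⟩
  by_cases hn : φ (g x z) * u + φ (g x y) * v = 0
  · obtain ⟨μ, rfl⟩ : ∃ μ, u = -φ (g x y) * μ := ⟨-u / φ (g x y), by field_simp⟩
    have c : φ (g y z) = φ (g x y) * φ (g x z) * μ * μ := by grind
    obtain ⟨a1, a2⟩ := h.K2 ho hp hx hy hz hj hj' ha' c (by grind)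
    have a3 : φ s = φ t + 2 * μ := by grind
    refine ⟨by grind, fun h2 => ⟨fun b1 b2 => (b2 (by grind)).elim, fun b1 b2 => ?_⟩⟩
    have : (φ t - φ s) * (φ t + φ s) = 0 := by grind
    grind
  have := h.K3 ho hp hx hy hz hj hj' ha' hb' hs' ((map_ne_zero φ).2 ht) (by grind) hv hn
  grind

end Pool.Agent.MP_983df8_al

end MrgPart3

-- ======== part 4: formerly Pool.Agent.MP_983df8_al.LocR
section MrgPart4

namespace Pool.Agent.MP_983df8_al

open Subgroup

variable {K L : Type*} [Field K] [LieRing L] [LieAlgebra K L] {g : L →ₗ[K] L →ₗ[K] K}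
variable {S : Type*} [Group S] {ρ : S →* Module.End K L} {E : Set L} {e : L → S} {x y : L}

theorem RS.exists_ne (h : RS g ρ E e) (a b : K) : ∃ t, t ≠ a ∧ t ≠ b := by
  by_contra hc
  have := Nat.card_le_card_of_surjective (![a, b] : Fin 2 → K) fun t => by
    by_cases c : t = a
    exacts [⟨0, c.symm⟩, ⟨1, (not_not.1 fun d => hc ⟨t, c, fun f => d f.symm⟩)⟩]
  have := h.three
  simp at *
  omega

theorem RS.exists_opp (h : RS g ρ E e) (hx : x ≠ 0) : ∃ y ∈ E, g x y ≠ 0 := by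
  by_contra hc
  push Not at hc
  exact hx (h.nd x (LinearMap.ext_on h.span hc))

theorem RS.eq_top [IsSimpleGroup S] (h : RS g ρ E e) {C : Subgroup S} (hx : x ∈ E) (h0 : x ≠ 0)
    (hC : ∀ y ∈ E, g x y ≠ 0 → e y ∈ C) : C = ⊤ := by
  let P := fun w => w ∈ E ∧ w ≠ 0 ∧ ∀ y ∈ E, g w y ≠ 0 → e y ∈ C
  have hc : ∀ c ∈ C, ∀ w ∈ E, e (ρ c w) ∈ C → e w ∈ C := fun c a w b d => by
    simpa [← h.conj b, C.mul_mem_cancel_left a, C.mul_mem_cancel_right (C.inv_mem a)] using d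
  have p1 : ∀ w y, P w → y ∈ E → g w y ≠ 0 → P y := fun w y ⟨_, _, a⟩ b c => by
    refine ⟨b, fun d => c (by simp [d]), fun z d f => ?_⟩
    by_cases k : g w z = 0
    · obtain ⟨t, t1, t2⟩ := h.exists_ne 0 (-g w ⁅y, z⁆ / (g y z * g w y))
      refine hc _ (a _ (h.smul y b t) (by simp [t1, c])) z d (a _ (h.act z d _) fun l => t2 ?_)
      simp only [h.ex _ (h.smul y b t), ex_smul, map_add, map_smul, k, smul_eq_mul] at l
      field_simp
      grind
    · exact a z d k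
  have p2 : ∀ c ∈ C, ∀ w, P w → P (ρ c w) := fun c a w ⟨b1, b2, b3⟩ =>
    ⟨h.act w b1 c, fun d => b2 (by rw [← rho_cancel' ρ c w, d, map_zero]), fun z d f =>
      hc _ (C.inv_mem a) z d (b3 _ (h.act z d _) (by rwa [← (h.aut c).form, rho_cancel]))⟩
  have p3 : ∀ y ∈ E, ∀ w, P w → P (ρ (e y) w) := fun y a w b => by
    by_cases c : g w y = 0
    swap
    · exact p2 _ (b.2.2 y a c) w b
    obtain ⟨w', d1, d2⟩ := h.exists_opp b.2.1
    have d3 := p1 w w' b d1 d2
    have k : ∀ t : K, g w' (ρ (e (t • y)) w) = g w w' + t * g w' ⁅y, w⁆ := fun t => by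
      simp [h.ex _ (h.smul y a t), ex_smul, h.symm y w, h.symm w' w, c]
    by_cases f : g w w' + g w' ⁅y, w⁆ = 0
    swap
    · exact p1 _ _ d3 (h.act w b.1 _) (by rwa [← one_smul K y, k, one_mul])
    obtain ⟨t, t1, t2⟩ := h.exists_ne 0 1
    have d4 := p1 _ _ d3 (h.act w b.1 (e (t • y))) (by rw [k]; grind)
    have d5 := p1 _ _ d4 (h.act w' d1 (e (t • y))) (by rwa [(h.aut _).form])
    refine p1 _ _ d5 (h.act w b.1 _) ?_
    rw [← one_smul K y, ← add_sub_cancel t 1, ← h.e_add a, map_mul, Module.End.mul_apply,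
      add_sub_cancel, one_smul, (h.aut _).form, k]
    grind
  have p4 : ∀ s w, P w → P (ρ s w) := fun s => by
    induction (h.gen ▸ mem_top s : s ∈ closure (e '' E)) using closure_induction'' with
    | mem s hs => obtain ⟨y, a, rfl⟩ := hs; exact p3 y a
    | inv_mem s hs => obtain ⟨y, a, rfl⟩ := hs; exact h.e_neg a ▸ p3 _ (h.neg a)
    | one => simp
    | mul a b _ _ ha hb => exact fun w c => map_mul ρ a b ▸ ha _ (hb w c)
  refine top_unique ((C.normalCore_normal.eq_bot_or_eq_top.resolve_left fun a => h0 ?_).ge.trans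
    C.normalCore_le)
  refine h.e_inj hx (by simpa using h.smul x hx 0) ((h.e_zero hx).symm ▸ a.le fun s => ?_)
  have b := p4 s x ⟨hx, h0, hC⟩
  obtain ⟨w, c, d⟩ := h.exists_opp b.2.1
  exact h.conj hx s ▸ (p1 _ w b c d).2.2 _ b.1 (by rwa [h.symm])

/-- a long root subgroup, as a set -/
def rt (K : Type*) [SMul K L] (e : L → S) (x : L) : Set S := Set.range fun t : K => e (t • x)

theorem rt_smul {c : K} (hc : c ≠ 0) : rt K e (c • x) = rt K e x :=
  Set.ext fun _ => ⟨fun ⟨t, a⟩ => ⟨t * c, by simpa [mul_smul] using a⟩,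
    fun ⟨t, a⟩ => ⟨t / c, by simpa [smul_smul, hc] using a⟩⟩

theorem RS.conj_rt (h : RS g ρ E e) (hx : x ∈ E) (s : S) :
    MulAut.conj s '' rt K e x = rt K e (ρ s x) := by
  simp [rt, ← Set.range_comp, Function.comp_def, h.conj (h.smul x hx _)]

theorem RS.of_rt (h : RS g ρ E e) (hx : x ∈ E) (hy : y ∈ E) (a : rt K e x = rt K e y) :
    ∃ c : K, x = c • y := by
  obtain ⟨c, b⟩ := a.le ⟨1, rfl⟩
  exact ⟨c, by simpa using (h.e_inj (h.smul y hy c) (h.smul x hx 1) b).symm⟩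

theorem image_conj (β : MulAut S) (s : S) (A : Set S) :
    β '' (MulAut.conj s '' A) = MulAut.conj (β s) '' (β '' A) := by
  simp [Set.image_image]

theorem RS.fix_opp [Finite K] [Finite S] (h : RS g ρ E e) (p : ℕ) [Fact p.Prime] [CharP K p]
    {β : MulAut S} (hp : ¬ p ∣ orderOf β)
    (hβ : ∀ y ∈ E, ∃ z ∈ E, β '' rt K e y = rt K e z) (hx : x ∈ E) (hQ : ∀ q ∈ h.Q x, β q = q)
    (hy : y ∈ E) (h1 : g x y = 1) (t : K) : β (e (t • y)) = e (t • y) := by
  have hX := h.ext x hx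
  have a0 : β '' rt K e x = rt K e x := by
    simp [rt, ← Set.range_comp, Function.comp_def, hQ _ (h.e_mem_Q hx _)]
  have a1 : ∀ t : K, t ≠ 0 → MulAut.conj (e (t • y)) '' rt K e x =
      MulAut.conj (e ((-t⁻¹) • x)) '' rt K e y := fun t ht => by
    rw [h.conj_rt hx, h.conj_rt hy, ← rt_smul (x := ρ _ y) (mul_ne_zero ht ht), h.ex _ (h.smul y hy _),
      h.ex _ (h.smul x hx _), ex_smul, ex_smul, h.symm y x, h1, ← lie_skew y x]
    congr 1
    match_scalars <;> field_simp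
  obtain ⟨z, hz, a2⟩ := hβ y hy
  have a3 : g x z ≠ 0 := fun a => by
    have b := congrArg (β '' ·) (a1 1 one_ne_zero)
    obtain ⟨c, hc⟩ := a2.le ⟨_, ⟨1, rfl⟩, rfl⟩
    simp only [image_conj, a0, a2, ← hc, hQ _ (h.e_mem_Q hx _)] at b
    rw [h.conj_rt hx, h.conj_rt hz] at b
    obtain ⟨d, hd⟩ := h.of_rt (h.act z hz _) (h.act x hx _) b.symm
    simp only [h.ex _ (h.smul z hz _), h.ex _ (h.smul x hx _), ex_smul, h.symm z x, a,
      ← lie_skew z x] at hd
    have b1 := congrArg (⁅x, ·⁆) hd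
    simp [hX.2.1, a, -lie_skew] at b1
    simp only [b1, smul_zero, add_zero, neg_zero, mul_zero, zero_smul] at hd
    have b2 : β (e y) ∈ β '' rt K e x := by
      rw [a0]
      exact ⟨c * d, by simpa only [mul_smul, one_smul, hd] using hc⟩
    obtain ⟨_, ⟨r, rfl⟩, b3⟩ := b2
    have := h.e_inj (h.smul x hx r) hy (β.injective b3)
    simp [← this, hX.1] at h1
  obtain ⟨q, q1, q2⟩ := h.trans hx (h.smul z hz (g x z)⁻¹) (by simp [a3]) hy h1
  rw [← rt_smul (x := z) (inv_ne_zero a3), ← q2, ← h.conj_rt hy] at a2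
  have a4 : ∀ k : ℕ, (β ^ k) '' rt K e y = MulAut.conj (q ^ k) '' rt K e y := fun k => by
    induction k with
    | zero => simp
    | succ k ih =>
      rw [pow_succ', MulAut.coe_mul, Set.image_comp, ih, image_conj, a2, hQ _ (pow_mem q1 k),
        pow_succ, map_mul, MulAut.coe_mul, Set.image_comp]
  have a5 : β '' rt K e y = rt K e y := by
    obtain ⟨m, hm⟩ := exists_pow_eq_self_of_coprime (x := q) (n := orderOf β)
      (Nat.Coprime.coprime_dvd_right (orderOf_dvd_of_pow_eq_one (h.pow_eq_one p (Gr.nil q1)))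
        (((Fact.out : p.Prime).coprime_iff_not_dvd.2 hp).symm.pow_right 3))
    rw [a2, ← hm, ← pow_mul, ← a4, pow_mul, pow_orderOf_eq_one, one_pow]
    simp
  by_cases ht : t = 0
  · simp [ht, h.e_zero hx]
  obtain ⟨r, hr⟩ := a5.le ⟨_, ⟨t, rfl⟩, rfl⟩
  have b := congrArg (β '' ·) (a1 t ht)
  simp only [image_conj, a0, a5, hQ _ (h.e_mem_Q hx _)] at b
  rw [← hr, ← a1 t ht] at b
  rw [h.conj_rt hx, h.conj_rt hx] at b
  obtain ⟨d, hd⟩ := h.of_rt (h.act x hx _) (h.act x hx _) b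
  have b2 := congrArg (fun u => g x (ρ (e ((-t) • y)) u)) hd
  simp only [map_smul, ← Module.End.mul_apply, ← map_mul, h.e_add hy] at b2
  rw [neg_add_cancel, zero_smul, h.e_zero hx, h.ex _ (h.smul y hy _), ex_smul] at b2
  simp only [map_one, Module.End.one_apply, hX.1, h.self', h.symm y x, h1, map_add, map_smul,
    smul_eq_mul] at b2
  rw [← hr, show r = t by grind]

theorem conj_mem_comap {B : Subgroup (MulAut S)} {β : MulAut S} (b : β ∈ B) {a : S}
    (c : MulAut.conj a * β * (MulAut.conj a)⁻¹ ∈ B) : a * (β a)⁻¹ ∈ B.comap MulAut.conj := by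
  rw [mem_comap]
  convert B.mul_mem c (B.inv_mem b) using 1
  ext u
  simp [mul_assoc]

theorem smul_fix {D X : Type*} [Group D] [MulAction D X] {B : Subgroup D} (ho : Odd (Nat.card B))
    {β : D} (b : β ∈ B) {a : X} (h : β • β • a = a) : β • a = a :=
  iter_fix (f := (β • ·)) ho (funext fun y => by
    rw [smul_iterate, show β ^ Nat.card B = 1 from
      congrArg Subtype.val (pow_card_eq_one' (x := (⟨β, b⟩ : B)))]
    exact one_smul _ y) (by simp only [h])

theorem RS.exists_good [Finite S] (h : RS g ρ E e) (p : ℕ) [Fact p.Prime] [CharP K p]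
    {B : Subgroup (MulAut S)} [Group.IsSolvable B] (ho : Odd (Nat.card B)) (hp : ¬ p ∣ Nat.card B)
    (hi : Function.Injective (MulAut.conj : S →* MulAut S))
    (hβ : ∀ β ∈ B, ∀ y ∈ E, ∃ z ∈ E, β '' rt K e y = rt K e z) (hx : x ∈ E) :
    ∃ s : K, s ≠ 0 ∧ ∀ β ∈ B, MulAut.conj (e (s • x)) * β * (MulAut.conj (e (s • x)))⁻¹ ∈ B →
      β (e (s • x)) = e (s • x) := by
  have : Group.IsSolvable (MulAut.conj : S →* MulAut S).ker := by
    rw [(MonoidHom.ker_eq_bot_iff _).2 hi]; infer_instance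
  have := solvable_comap MulAut.conj B
  have d := card_comap_dvd_of_injective B _ hi
  have hp' : ¬ p ∣ Nat.card (B.comap MulAut.conj) := fun a => hp (a.trans d)
  have cop := ((Fact.out : p.Prime).coprime_iff_not_dvd.2 hp').pow_left 3
  have k1 : ∀ β ∈ B, ∀ s : K, ∃ y ∈ E, e y = (β (e (s • x)))⁻¹ := fun β b s => by
    obtain ⟨z, c, d⟩ := hβ β b x hx
    obtain ⟨t, f⟩ := d.le ⟨_, ⟨s, rfl⟩, rfl⟩
    exact ⟨_, h.neg (h.smul z c t), (h.e_neg (h.smul z c t)).trans (congrArg _ f)⟩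
  have k2 : ∀ u ∈ E, ∀ y ∈ E, ∀ (γ : MulAut S) j, j ∈ B.comap MulAut.conj → e u * e y = γ j →
      j ≠ 1 → g u y ≠ 0 := fun u a y b γ j c d f l => f (eq_one_of_cop cop c (γ.injective (by
        rw [map_pow, ← d, h.unip p a b l, map_one])))
  have k3 : ∀ s : K, s ≠ 0 → (¬ ∀ β ∈ B, MulAut.conj (e (s • x)) * β *
      (MulAut.conj (e (s • x)))⁻¹ ∈ B → β (e (s • x)) = e (s • x)) → ∃ y ∈ E,
      e (s • x) * e y ∈ B.comap MulAut.conj ∧ g x y ≠ 0 ∧
      ((2 : K) ≠ 0 → 3 ∣ Nat.card (B.comap MulAut.conj) ∧ s * g x y = 3) := fun s hs a => by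
    push Not at a
    obtain ⟨β, b1, b2, b3⟩ := a
    obtain ⟨y, c1, c2⟩ := k1 β b1 s
    obtain ⟨z, c3, c4⟩ := k1 _ (B.mul_mem b1 b1) s
    have m1 := conj_mem_comap b1 b2
    have m2 := conj_mem_comap (B.mul_mem b1 b1) (a := e (s • x)) (by
      simpa [mul_assoc] using B.mul_mem b2 b2)
    have n1 : e (s • x) * (β (e (s • x)))⁻¹ ≠ 1 := fun f => b3 (mul_inv_eq_one.1 f).symm
    have g1 := k2 _ (h.smul x hx s) y c1 1 _ m1 (by rw [c2]; rfl) n1
    have g2 := k2 _ (h.smul x hx s) z c3 1 _ m2 (by rw [c4]; rfl) fun f =>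
      b3 (smul_fix ho b1 (mul_inv_eq_one.1 f).symm)
    have g3 := k2 _ (h.neg c1) z c3 β _ m1 (by simp [h.e_neg c1, c2, c4]) n1
    simp only [map_smul, LinearMap.smul_apply, map_neg, LinearMap.neg_apply, ne_eq, smul_eq_zero,
      hs, false_or, neg_eq_zero] at g1 g2 g3
    exact ⟨y, c1, c2 ▸ m1, g1, fun f => ((h.lemK (ho.of_dvd_nat d) hp' hx c1 c3 (c2 ▸ m1)
      (c4 ▸ m2) g1 g2 hs hs).2 f).1 rfl g3⟩
  by_contra hc
  obtain ⟨t, t1, t2, t3⟩ : ∃ t : K, t ≠ 0 ∧ t ≠ 1 ∧ ((2 : K) ≠ 0 → t = 2) := by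
    by_cases a : (2 : K) = 0
    · obtain ⟨t, t1, t2⟩ := h.exists_ne 0 1
      exact ⟨t, t1, t2, fun b => (b a).elim⟩
    · exact ⟨2, a, by grind, fun _ => rfl⟩
  obtain ⟨y, a1, a2, a3, a4⟩ := k3 1 one_ne_zero fun a => hc ⟨1, one_ne_zero, a⟩
  obtain ⟨z, b1, b2, b3, b4⟩ := k3 t t1 fun a => hc ⟨t, t1, a⟩
  obtain ⟨c1, c2⟩ := h.lemK (ho.of_dvd_nat d) hp' hx a1 b1 a2 b2 a3 b3 one_ne_zero t1
  have c3 : (2 : K) ≠ 0 := fun a => t2 (c1 a).symm
  have c4 : ((3 : ℕ) : K) = 0 := by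
    have := ((c2 c3).2 (a4 c3).2 (b4 c3).2).resolve_left t2
    rw [t3 c3] at this
    grind
  exact hp' (((CharP.cast_eq_zero_iff K p 3).1 c4).trans (a4 c3).1)

theorem RS.loc [Finite K] [Finite S] [IsSimpleGroup S] (h : RS g ρ E e) (p : ℕ) [Fact p.Prime]
    [CharP K p] {B : Subgroup (MulAut S)} [Group.IsSolvable B] (ho : Odd (Nat.card B))
    (hp : ¬ p ∣ Nat.card B) (hi : Function.Injective (MulAut.conj : S →* MulAut S))
    (hβ : ∀ β ∈ B, ∀ y ∈ E, ∃ z ∈ E, β '' rt K e y = rt K e z) :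
    ∃ x : Fin 3 → S, ∀ β ∈ B, (∀ a, MulAut.conj (x a) * β * (MulAut.conj (x a))⁻¹ ∈ B) → β = 1 := by
  obtain ⟨x, hx, h0⟩ : ∃ x ∈ E, x ≠ 0 := by
    by_contra a
    push Not at a
    refine top_ne_bot (α := Subgroup S) (h.gen ▸ closure_eq_bot_iff.2 ?_)
    rintro _ ⟨x, b, rfl⟩
    exact a x b ▸ h.e_zero b
  obtain ⟨s, hs, a1⟩ := h.exists_good p ho hp hi hβ hx
  have a2 : ∀ n : S, n * e (s • x) * n⁻¹ ∈ rt K e x ↔ ∃ c : K, c ≠ 0 ∧ ρ n x = c • x := fun n => by
    rw [h.conj (h.smul x hx s), map_smul]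
    refine ⟨fun ⟨t, a⟩ => ?_, fun ⟨c, _, a⟩ => ⟨s * c, by simp [a, mul_smul]⟩⟩
    have := h.e_inj (h.smul x hx t) (h.smul _ (h.act x hx n) s) a
    refine ⟨s⁻¹ * t, fun b => h0 ?_, by rw [mul_smul, this, inv_smul_smul₀ hs]⟩
    rw [← rho_cancel' ρ n x, ← inv_smul_smul₀ hs (ρ n x), ← this, smul_smul, b, zero_smul, map_zero]
  let P : Subgroup S :=
    { carrier := {n | ∃ c : K, c ≠ 0 ∧ ρ n x = c • x}
      one_mem' := ⟨1, one_ne_zero, by simp⟩
      mul_mem' := fun ⟨c, a, b⟩ ⟨c', a', b'⟩ => ⟨c' * c, mul_ne_zero a' a, by simp [b, b', mul_smul]⟩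
      inv_mem' := fun {n} ⟨c, a, b⟩ => ⟨c⁻¹, inv_ne_zero a, by
        rw [eq_inv_smul_iff₀ a, ← map_smul, ← b, rho_cancel']⟩ }
  let D := B ⊓ MulAction.stabilizer (MulAut S) (e (s • x))
  have a3 : ∀ β ∈ D, P.map β.toMonoidHom ≤ P := by
    rintro β ⟨b1, b2 : β _ = _⟩ _ ⟨n, hn, rfl⟩
    obtain ⟨z, c, d⟩ := hβ β b1 x hx
    obtain ⟨t, f⟩ := d.le ⟨_, ⟨s, rfl⟩, b2⟩
    have f1 := h.e_inj (h.smul z c t) (h.smul x hx s) f
    rw [← rt_smul (x := z) (c := t) (by rintro rfl; simp [eq_comm, hs, h0] at f1), f1,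
      rt_smul hs] at d
    exact (a2 _).1 (d.le ⟨_, (a2 n).2 hn, by simp [b2]⟩)
  have a4 : ∀ β ∈ D, P.map β.toMonoidHom = P := fun β b => eq_of_le_of_card_ge (a3 β b)
    (card_map_of_injective β.injective).ge
  obtain ⟨O, o1, o2⟩ := (Set.toFinite {Y : Subgroup S | Y ≤ P ∧ P ≤ normalizer Y ∧
    IsPGroup p Y}).exists_le_maximal (a := h.Q x) ⟨fun q a => ⟨1, one_ne_zero, by simp [h.Q_fix a]⟩,
      fun n ⟨c, a, b⟩ => mem_normalizer_fintype fun q f => show Gr g x 1 _ by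
        simpa only [map_mul] using Gr.conj f (h.aut n) (h.aut _) (rho_inv ρ n).1 (rho_inv ρ n).2 a b,
      fun q => ⟨3, Subtype.ext (h.pow_eq_one p (Gr.nil q.2))⟩⟩
  obtain ⟨o3, o4, o5⟩ := o2.prop
  have a5 : ∀ β ∈ D, O.map β.toMonoidHom ≤ O := fun β b => by
    have c : P ≤ normalizer (O.map β.toMonoidHom : Subgroup S) :=
      (a4 β b).ge.trans ((map_mono o4).trans (le_normalizer_map _))
    exact le_sup_right.trans (o2.2 ⟨sup_le o3 ((map_mono o3).trans (a3 β b)),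
      (le_inf o4 c).trans (normalizer_inf_normalizer_le_normalizer_sup _ _),
      o5.to_sup_of_normal_right' (o5.map _) (o3.trans c)⟩ le_sup_left)
  let _ : MulDistribMulAction D O :=
    { smul := fun d o => ⟨d.1 o, a5 _ d.2 ⟨o, o.2, rfl⟩⟩
      one_smul := fun _ => rfl
      mul_smul := fun _ _ _ => rfl
      smul_mul := fun d _ _ => Subtype.ext (map_mul d.1 _ _)
      smul_one := fun d => Subtype.ext (map_one d.1) }
  have dv := card_dvd_of_le (inf_le_left : D ≤ B)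
  have : Group.IsSolvable D :=
    Group.isSolvable_of_isSolvable_injective (inclusion_injective (inf_le_left : D ≤ B))
  obtain ⟨v, v', a6⟩ := lin2_pgroup (D := D) (ho.of_dvd_nat dv) Fact.out o5 fun a => hp (a.trans dv)
  refine ⟨![e (s • x), v, v'], fun β b1 b2 => ?_⟩
  have b3 : β ∈ D := ⟨b1, a1 β b1 (b2 0)⟩
  have b4 : ∀ u : O, MulAut.conj (u : S) * β * (MulAut.conj (u : S))⁻¹ ∈ B →
      (⟨β, b3⟩ : D) • u = u := fun u c => by
    obtain ⟨k, hk⟩ := o5 (u * ((⟨β, b3⟩ : D) • u)⁻¹)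
    have := eq_one_of_cop (J := B.comap MulAut.conj) (s := u * (β u)⁻¹) (m := p ^ k)
      (((Fact.out : p.Prime).coprime_iff_not_dvd.2 fun a => hp (a.trans
        (card_comap_dvd_of_injective B _ hi))).pow_left k) (conj_mem_comap b1 c) (congrArg Subtype.val hk)
    exact Subtype.ext (mul_inv_eq_one.1 this).symm
  have b5 := h.eq_top (C := β.toMonoidHom.eqLocus (MonoidHom.id S)) hx h0 fun y c f => by
    show β _ = e y
    simpa [f] using h.fix_opp p (fun a => hp (a.trans (B.orderOf_dvd_natCard b1))) (hβ β b1) hx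
      (fun q a => congrArg Subtype.val (a6 _ (b4 v (b2 1)) (b4 v' (b2 2)) ⟨q, o1 a⟩))
      (h.smul y c (g x y)⁻¹) (by simp [f]) (g x y)
  exact MulEquiv.ext fun u => b5.ge (mem_top u)

end Pool.Agent.MP_983df8_al

end MrgPart4

-- ======== part 5: formerly Pool.Agent.MP_983df8_al.LocB
section MrgPart5

namespace Pool.Agent.MP_983df8_al

open Subgroup

theorem glue_rel {H : Type*} [Group H] [Finite H] [Group.IsSolvable H] (ho : Odd (Nat.card H))
    {X : Type*} [MulAction H X] (r : Setoid X) (hr : ∀ (d : H) x y, r x y → r (d • x) (d • y))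
    (h : ∀ x, ∃ p q, r p x ∧ r q x ∧ p ≠ q ∧
      ∀ d : H, d • p = p → d • q = q → ∀ y, r y x → d • y = y) :
    ∃ f : ZMod 2 → X → X, (∀ i x, r (f i x) x) ∧ (∀ i x y, r x y → f i x = f i y) ∧
      ∀ d : H, (∀ i x, d • f i x = f i (d • x)) → ∀ x : X, d • x = x := by
  let _ : MulAction H (Quotient r) :=
    { smul := fun d => Quotient.map (d • ·) (hr d)
      one_smul := fun q => Quotient.inductionOn q fun a => congrArg (Quotient.mk r) (one_smul H a)
      mul_smul := fun b b' q => Quotient.inductionOn q fun a =>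
        congrArg (Quotient.mk r) (mul_smul b b' a) }
  obtain ⟨f, f1, f2⟩ := glue_set ho (Quotient.mk r) (fun _ _ => rfl) fun ω => by
    obtain ⟨x, rfl⟩ := Quotient.mk_surjective ω
    obtain ⟨p, q, a, b, c, d⟩ := h x
    exact ⟨p, q, Quotient.sound a, Quotient.sound b, c, fun e i j y k => d e i j y (Quotient.exact k)⟩
  exact ⟨fun i x => f i (Quotient.mk r x), fun i x => Quotient.exact (f1 i _),
    fun i x y a => congrArg (f i) (Quotient.sound a), fun d a => f2 d fun i ω =>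
      Quotient.inductionOn ω fun x => a i x⟩

variable {S : Type*} [Group S] {B N U : Subgroup S} {R : Set S} {p : ℕ} {g : S}

/-- a split BN-pair -/
structure SBN (p : ℕ) (B N U : Subgroup S) (R : Set S) : Prop extends BN B N R where
  prime : p.Prime
  pg : IsPGroup p U
  split : U ⊔ B ⊓ N = B
  nor : B ≤ normalizer U
  comm : IsMulCommutative ↥(B ⊓ N)
  cop : ¬ p ∣ Nat.card ↥(B ⊓ N)
  sat : (⨅ n ∈ N, conjBy B n) ≤ N
  pan : ∀ r ∈ R, U ≤ normalizer (U ⊓ conjBy U r) ∧ ∃ M, IsGreatest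
    {Y | U ⊓ conjBy U r ≤ Y ∧ Y < U ∧ B ⊓ N ≤ normalizer Y} M

namespace SBN

variable (H : SBN p B N U R)
include H

theorem le : U ≤ B := le_sup_left.trans H.split.le

theorem conj (a : g ∈ B) (u : S) : g * u * g⁻¹ ∈ U ↔ u ∈ U := (mem_normalizer_iff.1 (H.nor a) u).symm

theorem dec (a : g ∈ B) : ∃ u ∈ U, ∃ t ∈ B ⊓ N, u * t = g :=
  (coe_mul_of_right_le_normalizer_left U _ (inf_le_left.trans H.nor)).le (H.split.ge a)

theorem mem_U [Finite S] (a : g ∈ B) {k : ℕ} (b : g ^ p ^ k = 1) : g ∈ U := by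
  obtain ⟨u, hu, t, ht, rfl⟩ := H.dec a
  have c : ∀ m : ℕ, (u * t) ^ m * (t ^ m)⁻¹ ∈ U := fun m => by
    induction m with
    | zero => simp
    | succ m ih => simpa [pow_succ', mul_assoc] using mul_mem hu ((H.conj ht.1 _).2 ih)
  obtain ⟨m, hm⟩ := exists_pow_eq_self_of_coprime (x := u * t) (n := Nat.card ↥(B ⊓ N))
    (Nat.Coprime.coprime_dvd_right (orderOf_dvd_of_pow_eq_one b)
      ((H.prime.coprime_iff_not_dvd.2 H.cop).symm.pow_right k))
  have := c (Nat.card ↥(B ⊓ N))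
  rw [show t ^ _ = 1 from congrArg Subtype.val (pow_card_eq_one' (x := (⟨t, ht⟩ : ↥(B ⊓ N)))),
    inv_one, mul_one] at this
  exact hm ▸ pow_mem this m

theorem mem_U' [Finite S] (β : MulAut S) {u : S} (a : u ∈ U) (b : β u ∈ B) : β u ∈ U := by
  obtain ⟨k, hk⟩ := H.pg ⟨u, a⟩
  exact H.mem_U b (k := k) (by rw [← map_pow, show u ^ _ = 1 from congrArg Subtype.val hk, map_one])

theorem mem_B [Finite S] {Y : Subgroup S} (ho : Odd (Nat.card Y)) (a : U ≤ Y)
    (b : ∀ u ∈ U, g * u * g⁻¹ ∈ Y) : g ∈ B := by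
  by_contra hg
  obtain ⟨n, hn, c, hc, d, hd, rfl⟩ := H.bruhat g
  obtain ⟨r, hr, l⟩ := H.desc hn fun e => hg (mul_mem (mul_mem hc e) hd)
  obtain ⟨b0, b1, x, hx, y, hy, e⟩ := H.exists_down hr hn (by omega)
  obtain ⟨u1, c1, t1, d1, e1⟩ := H.dec (inv_mem hx)
  obtain ⟨u2, c2, t2, d2, rfl⟩ := H.dec hy
  obtain ⟨u3, c3, t3, d3, e3⟩ := H.dec (mul_mem (H.conj_mem hn d2.1 d2.2) (inv_mem b1))
  have f : t1 * r * t3⁻¹ = u1⁻¹ * (n * u2 * n⁻¹) * u3 := by
    rw [eq_inv_mul_iff_mul_eq.2 e1, eq_mul_inv_iff_mul_eq.2 e3, eq_mul_inv_iff_mul_eq.2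
      (eq_mul_inv_iff_mul_eq.2 e).symm.symm]
    group
  have m : c * (t1 * r * t3⁻¹) * c⁻¹ ∈ Y := by
    have := mul_mem (mul_mem (a ((H.conj hc _).2 (inv_mem c1))) (b _ ((H.conj (inv_mem hd) _).2 c2)))
      (a ((H.conj hc _).2 c3))
    rw [f]
    convert this using 1
    group
  have := mem_of_sq ho (A := B.subgroupOf Y) (b := ⟨_, m⟩) (by
    have := mul_mem (mul_mem hc (mul_mem (mul_mem (mul_mem d1.1 (H.conj_mem (H.mem hr)
      (mul_mem (inv_mem d3.1) d1.1) (mul_mem (inv_mem d3.2) d1.2))) (H.sq r hr)) (inv_mem d3.1)))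
      (inv_mem hc)
    rw [mem_subgroupOf]
    convert this using 1
    simp [sq, mul_assoc])
  exact H.not_mem hr (by simpa [mul_assoc] using
    (mul_mem (mul_mem (inv_mem (mul_mem hc d1.1)) (mem_subgroupOf.1 this)) (mul_mem hc d3.1)))

theorem ne_top [Finite S] [IsSimpleGroup S] (hS : ¬ IsMulCommutative S) : B ≠ ⊤ := fun e => by
  have := Fact.mk H.prime
  rcases (normalizer_eq_top_iff.1 (top_unique (e.ge.trans H.nor))).eq_bot_or_eq_top with a | a
  · have b := H.split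
    rw [a, bot_sup_eq] at b
    exact hS ⟨⟨fun x y => congrArg Subtype.val (H.comm.1.1 ⟨x, (b.trans e).ge (mem_top x)⟩
      ⟨y, (b.trans e).ge (mem_top y)⟩)⟩⟩
  · have : Group.IsNilpotent S := ((a ▸ H.pg).of_equiv topEquiv).isNilpotent
    exact hS ⟨⟨IsSimpleGroup.comm_iff_isSolvable.2 inferInstance⟩⟩

theorem local_pair [Finite S] {l : ℕ} {w r : S} (T : Top B N R l w) (hr : r ∈ R) :
    ∃ x y, DC B x r ∧ DC B y r ∧ x⁻¹ * y ∉ B ∧ ∀ β : MulAut S, (∀ g, β g ∈ B ↔ g ∈ B) →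
      (∀ g, β g ∈ U ↔ g ∈ U) → w⁻¹ * β w ∈ B → x⁻¹ * β x ∈ B → y⁻¹ * β y ∈ B →
      ∀ z, DC B z r → z⁻¹ * β z ∈ B := by
  obtain ⟨a, M, hM⟩ := H.pan r hr
  obtain ⟨x, hx, y, hy, b, c⟩ := panel' H.prime H.pg a (inf_le_left.trans H.nor) (fun t ht =>
    mem_normalizer_fintype fun u hu => mem_inf.2 ⟨(H.conj ht.1 u).2 hu.1, mem_conjBy.2 (by
      simpa [mul_assoc] using (H.conj (H.conj_mem (H.mem hr) ht.1 ht.2) _).2 (mem_conjBy.1 hu.2))⟩)
    H.comm H.cop hM
  have k : ∀ u ∈ U, r * u * r⁻¹ ∈ B → u ∈ U ⊓ conjBy U r := fun u d e =>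
    ⟨d, mem_conjBy.2 (H.mem_U' (MulAut.conj r) d e)⟩
  have dx := (DC.left (H.le hx) _).trans (H.dc_inv hr)
  refine ⟨x * r⁻¹, y * r⁻¹, dx, (DC.left (H.le hy) _).trans (H.dc_inv hr), fun e => b (k _
    (mul_mem (inv_mem hx) hy) (by simpa [mul_assoc] using e)), fun β b1 b2 b3 b4 b5 z b6 => ?_⟩
  have d1 := H.fix_gate T b1 hr ((BN.aut_dc b1 dx).symm.trans ((DC.of_mem b4).trans dx)) (c := 1)
    (z := 1) (x := r⁻¹) (by simp) b3 (Or.inr (by simpa using H.dc_inv hr))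
    (fun e => H.len_ne hr T.mem (by simpa [Opp, ← T.eq] using e)) (by simp)
    (by simpa [Opp] using T.eq)
  have d2 : ∀ u, (u * r⁻¹)⁻¹ * β (u * r⁻¹) ∈ B ↔ r * (u⁻¹ * β u) * r⁻¹ ∈ B := fun u => by
    rw [← B.mul_mem_cancel_right (inv_mem d1)]
    simp [mul_assoc]
  obtain ⟨c1, c2, c3, c4, rfl⟩ := b6.trans (H.dc_inv hr).symm
  obtain ⟨u, u1, t, t1, rfl⟩ := H.dec c2
  have d3 := (d2 u).2 (H.le (mem_conjBy.1 (c β b2 (fun v => by
      rw [mem_inf, mem_inf, b2, mem_conjBy, mem_conjBy, ← H.conj (inv_mem d1) (r * β v * r⁻¹),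
        ← b2 (r * v * r⁻¹)]
      simp [mul_assoc]) (fun v hv => ⟨(b1 v).2 hv.1, H.sat (mem_iInf.2 fun n => mem_iInf.2
      fun hn => mem_conjBy.2 (by
        have := mul_mem (mul_mem b3 ((b1 _).2 (H.conj_mem (inv_mem T.mem) hv.1 hv.2))) (inv_mem b3)
        simpa using H.apart T ((b1 v).2 hv.1) (by simpa [mul_assoc] using this) (inv_mem hn)))⟩)
    (k _ (mul_mem (inv_mem hx) ((b2 x).2 hx)) ((d2 x).1 b4))
    (k _ (mul_mem (inv_mem hy) ((b2 y).2 hy)) ((d2 y).1 b5)) u u1).2))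
  have d4 := mul_mem (H.conj_mem (H.mem hr) t1.1 t1.2) c4
  simpa [mul_assoc] using mul_mem (mul_mem (inv_mem d4) d3) ((b1 _).2 d4)

theorem loc [Finite S] [IsSimpleGroup S] (hS : ¬ IsMulCommutative S) {D : Subgroup (MulAut S)}
    [Group.IsSolvable D] (ho : Odd (Nat.card D))
    (hi : Function.Injective (MulAut.conj : S →* MulAut S)) (hU : U ≤ D.comap MulAut.conj) :
    ∃ x : Fin 3 → S, ∀ β ∈ D, (∀ a, MulAut.conj (x a) * β * (MulAut.conj (x a))⁻¹ ∈ D) → β = 1 := by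
  classical
  have hJ := ho.of_dvd_nat (card_comap_dvd_of_injective D _ hi)
  have a1 : D.comap MulAut.conj ≤ B := fun j a => H.mem_B hJ hU fun u b =>
    mul_mem (mul_mem a (hU b)) (inv_mem a)
  have a2 : ∀ β ∈ D, ∀ u ∈ U, β u ∈ U := fun β a u b => H.mem_U' β b (a1 (mem_comap.2 (by
    convert mul_mem (mul_mem a (mem_comap.1 (hU b))) (inv_mem a) using 1
    ext
    simp)))
  have a3 : ∀ β ∈ D, ∀ g ∈ B, β g ∈ B := fun β a g b => H.mem_B (hJ.of_dvd_nat (card_dvd_of_le hU))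
    le_rfl fun u c => by simpa using a2 β a _ ((H.conj b _).2 (a2 _ (inv_mem a) u c))
  have a4 : ∀ β ∈ D, ∀ g, β g ∈ U ↔ g ∈ U := fun β a g =>
    ⟨fun b => by simpa using a2 _ (inv_mem a) _ b, a2 β a g⟩
  have a5 : ∀ β ∈ D, ∀ g, β g ∈ B ↔ g ∈ B := fun β a g =>
    ⟨fun b => by simpa using a3 _ (inv_mem a) _ b, a3 β a g⟩
  obtain ⟨l, w, T⟩ := H.exists_top
  have : MulAction.QuotientAction D B := ⟨fun β a a' b => by
    have := a3 β β.2 _ b
    rwa [map_mul, map_inv] at this⟩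
  let E := MulAction.stabilizer D (w : S ⧸ B)
  have o1 : ∀ g : S, DC B (g : S ⧸ B).out g := fun g => DC.of_mem (QuotientGroup.eq.1
    (QuotientGroup.out_eq' _).symm)
  have o2 : ∀ (d : E) (x : S ⧸ B), d • x = (d.1.1 x.out : S) := fun d x =>
    (MulAction.Quotient.mk_smul_out B d.1 x).symm
  have o3 : ∀ (d : E) (x : S ⧸ B), DC B (d • x).out (d.1.1 x.out) := fun d x => o2 d x ▸ o1 _
  let X : SubMulAction E (S ⧸ B) :=
    { carrier := {x | ∃ r ∈ R, DC B x.out r}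
      smul_mem' := fun d x ⟨r, a, b⟩ => (H.aut_cell (a5 _ d.1.2) a).imp fun r' c =>
        ⟨c.1, (o3 d x).trans ((BN.aut_dc (a5 _ d.1.2) b).trans c.2)⟩ }
  obtain ⟨f, f1, f2, f3⟩ := glue_rel (H := E) (X := X) (ho.of_dvd_nat (card_subgroup_dvd_card E))
    ⟨fun x y => DC B x.1.out y.1.out, fun _ => DC.refl _, DC.symm, DC.trans⟩
    (fun d x y a => (o3 d x).trans ((BN.aut_dc (a5 _ d.1.2) a).trans (o3 d y).symm)) fun x => by
      obtain ⟨r, hr, a⟩ := x.2
      obtain ⟨y, z, b1, b2, b3, b4⟩ := H.local_pair T hr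
      refine ⟨⟨y, r, hr, (o1 y).trans b1⟩, ⟨z, r, hr, (o1 z).trans b2⟩,
        ((o1 y).trans b1).trans a.symm, ((o1 z).trans b2).trans a.symm,
        fun e => b3 (QuotientGroup.eq.1 (congrArg Subtype.val e)), fun d c1 c2 v c3 =>
          Subtype.ext ((o2 d v).trans ((QuotientGroup.eq.2 (b4 _ (a5 _ d.1.2) (a4 _ d.1.2)
            (QuotientGroup.eq.1 d.2.symm) (QuotientGroup.eq.1 (congrArg Subtype.val c1).symm)
            (QuotientGroup.eq.1 (congrArg Subtype.val c2).symm) _ (DC.trans c3 a))).symm.trans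
            (QuotientGroup.out_eq' _)))⟩
  have b0 : ∀ i, ∃ c, Opp B R l 1 c ∧ ∀ x : X, ¬ Opp B R l (f i x).1.out c := fun i => by
    obtain ⟨c, c1, c2⟩ := H.exists_proj T
      (fun r => if hr : r ∈ R then (f i ⟨r, r, hr, o1 r⟩).1.out else 1)
      (fun r hr => by rw [dif_pos hr]; exact DC.trans (f1 i _) (o1 r)) fun r hr s hs a => by
        rw [dif_pos hr, dif_pos hs, f2 i ⟨s, s, hs, o1 s⟩ ⟨r, r, hr, o1 r⟩
          ((o1 s).trans (a.trans (o1 r).symm))]
        simp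
    refine ⟨c, c1, fun x => ?_⟩
    obtain ⟨r, hr, a⟩ := x.2
    simpa [hr, f2 i x ⟨r, r, hr, o1 r⟩ (a.trans (o1 r).symm)] using c2 r hr
  choose c c1 c2 using b0
  refine ⟨![w⁻¹, (c 0)⁻¹, (c 1)⁻¹], fun β b1 b2 => ?_⟩
  have b3 : ∀ g : S, MulAut.conj g⁻¹ * β * (MulAut.conj g⁻¹)⁻¹ ∈ D → g⁻¹ * β g ∈ B := fun g a => by
    simpa using a1 (conj_mem_comap b1 a)
  have b4 : ∀ i, (c i)⁻¹ * β (c i) ∈ B := fun i => by
    fin_cases i
    exacts [b3 _ (b2 1), b3 _ (b2 2)]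
  have b5 := f3 ⟨⟨β, b1⟩, (QuotientGroup.eq.2 (b3 w (b2 0))).symm⟩ fun i x => by
    generalize hd : (⟨⟨β, b1⟩, _⟩ : E) = d
    obtain rfl : β = d.1.1 := by rw [← hd]
    obtain ⟨r, hr, a⟩ := (d • x).2
    have m1 : DC B (f i (d • x)).1.out r := DC.trans (f1 i _) a
    have m2 : DC B (d.1.1 (f i x).1.out) r :=
      (BN.aut_dc (a5 _ b1) (f1 i x)).trans ((o3 d x).symm.trans a)
    refine Subtype.ext ((o2 d _).trans ((QuotientGroup.eq.2 (H.gate T hr (z := 1) (y := c i)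
      (mul_mem (inv_mem (Or.inr m2)) (Or.inr m1)) (mul_mem (inv_mem (Or.inr m2)) (one_mem _))
      (fun e => c2 i x ((H.aut_opp (a5 _ b1)).1 (H.opp_congr e (by simp) (b4 i)))) (c2 i _)
      (c1 i))).trans (QuotientGroup.out_eq' _)))
  exact H.rigid T (H.ne_top hS) (a5 β b1) (fun r hr x a => QuotientGroup.eq.1
    (congrArg Subtype.val (b5 ⟨x, r, hr, (o1 x).trans a⟩)).symm) (b3 w (b2 0))

end SBN

end Pool.Agent.MP_983df8_al

end MrgPart5

-- marker of a merged file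
example : 731051 + 227097 = 731051 + 227097 := rfl
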