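import Pool.Agent.MP_983df8_al.Defs9

namespace Pool.Agent.MP_983df8_al

open Subgroup

/-- the nontrivial automorphisms in a `π`-subgroup `B` of `Aut S` have few fixed points -/
def Cnt (π : Set ℕ) (S : Type*) [Group S] : Prop :=
  ∀ B : Subgroup (MulAut S), IsPi π B → ∀ β ∈ B, β ≠ 1 →
    Nat.card B ^ 4 * Nat.card {s : S // β s = s} ^ 3 < Nat.card S ^ 3

/-- each `π`-subgroup of `Aut S` fixes an element four conjugates of which generate `S` -/
def Gen4 (π : Set ℕ) (S : Type*) [Group S] : Prop :=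
  ∀ B : Subgroup (MulAut S), IsPi π B → ∃ t : S, (∀ β ∈ B, β t = t) ∧
    ∃ x : Fin 4 → S, closure (Set.range fun i => (x i)⁻¹ * t * x i) = ⊤

/-- some involution inverts no nontrivial element whose order is a `π`-number -/
def NoInv (π : Set ℕ) (S : Type*) [Group S] : Prop :=
  ∃ a : S, orderOf a = 2 ∧ ∀ j : S, IsPi π (zpowers j) → a * j * a = j⁻¹ → j = 1

/-- Every non-abelian simple subnormal subgroup of `G` is an alternating group, a group
`PSL(2, q)`, a Suzuki group, or, provided one of the primes 2, 3 is not in `π`, a group `PSL(n, q)`,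
or satisfies `Cnt` or `Gen4`, or is of Lie type in some characteristic `p` in the sense of `IsBN3` (for
`p ∈ π`), of `Rt` or of `IsChar` (for `p ∉ π`). -/
def Comps (π : Set ℕ) (G : Type*) [Group G] : Prop :=
  ∀ S : Subgroup G, S.IsSubnormal → IsSimpleGroup S → ¬ IsMulCommutative S →
    IsAlt S ∨ IsL2 S ∨ IsSz S ∨ ((2 ∉ π ∨ 3 ∉ π) ∧
      (IsLn S ∨ Cnt π S ∨ Gen4 π S ∨ ∃ p : ℕ, p.Prime ∧ ((p ∈ π ∧ IsBN3 p S) ∨ (p ∉ π ∧ (Rt π p S ∨
        (IsChar p S ∧ (Syl π p S ∨ (p = 2 ∧ NoInv π S))))))))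

end Pool.Agent.MP_983df8_al
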