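import Pool.Agent.MP_983df8_al.Defs8

namespace Pool.Agent.MP_983df8_al

open Subgroup

/-- at most one prime `r` of `π` divides the order of `Aut S`, and each automorphism of order `r`
fixes an element of order `p` -/
def Syl (π : Set ℕ) (p : ℕ) (S : Type*) [Group S] : Prop :=
  ∃ r : ℕ, (∀ s : ℕ, s.Prime → s ∈ π → s ∣ Nat.card (MulAut S) → s = r) ∧
    ∀ β : MulAut S, orderOf β = r → ∃ u : S, orderOf u = p ∧ β u = u

/-- there is an involution `a` with `(a * β a) ^ 12 = 1` for all `π`-automorphisms `β` -/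
def Tr (π : Set ℕ) (S : Type*) [Group S] : Prop :=
  ∃ a : S, orderOf a = 2 ∧ ∀ β : MulAut S, IsPi π (zpowers β) → (a * β a) ^ 12 = 1

/-- the `π`-subgroups of `S` are abelian, and each `π`-subgroup of `Aut S` without nontrivial inner
automorphisms fixes an element of order `p` -/
def Ab (π : Set ℕ) (p : ℕ) (S : Type*) [Group S] : Prop :=
  (∀ A : Subgroup S, IsPi π A → IsMulCommutative A) ∧ ∀ D : Subgroup (MulAut S), IsPi π D →
    D ⊓ (MulAut.conj : S →* MulAut S).range = ⊥ → ∃ u : S, orderOf u = p ∧ ∀ β ∈ D, β u = u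

/-- `S` acts faithfully on a Lie algebra over a finite field of characteristic `p` with at least
three elements, and is generated by the long root elements `exp x`, `x` extremal; if `p < 5`
automorphisms whose order is a `π`-number permute the long root subgroups; if `2 ∈ π` the field has
more than 32 elements, the dimension is above three, and for `p = 3` the extremal elements are
rigid -/
def Rt (π : Set ℕ) (p : ℕ) (S : Type*) [Group S] : Prop :=
  ∃ (K L : Type) (_ : Field K) (_ : Finite K) (_ : CharP K p) (_ : LieRing L) (_ : LieAlgebra K L)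
    (g : L →ₗ[K] L →ₗ[K] K) (ρ : S →* Module.End K L) (E : Set L) (e : L → S),
    3 ≤ Nat.card K ∧ IsForm g ∧ Function.Injective ρ ∧ Submodule.span K E = ⊤ ∧
    closure (e '' E) = ⊤ ∧ IsExpSet g ρ E e ∧ (p < 5 → PiStable π K E e) ∧
    (2 ∈ π → 32 < Nat.card K ∧ 3 < Module.finrank K L ∧ (p = 3 → Rigid g E))

/-- Every non-abelian simple subnormal subgroup of `G` is an alternating group, a group
`PSL(2, q)`, a Suzuki group, or, provided one of the primes 2, 3 is not in `π`, a group `PSL(n, q)`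
or of Lie type in some characteristic `p` in the sense of `IsBN3` (for `p ∈ π`), of `Rt` or of
`IsChar` (for `p ∉ π`). -/
def Soc (π : Set ℕ) (G : Type*) [Group G] : Prop :=
  ∀ S : Subgroup G, S.IsSubnormal → IsSimpleGroup S → ¬ IsMulCommutative S →
    IsAlt S ∨ IsL2 S ∨ IsSz S ∨ ((2 ∉ π ∨ 3 ∉ π) ∧
      (IsLn S ∨ ∃ p : ℕ, p.Prime ∧ ((p ∈ π ∧ IsBN3 p S) ∨ (p ∉ π ∧ (Rt π p S ∨ (IsChar p S ∧
        (Syl π p S ∨ (p = 2 ∧ 3 ∉ π ∧ Tr π S) ∨ (2 ∉ π ∧ Ab π p S))))))))

end Pool.Agent.MP_983df8_al
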