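import Pool.Agent.MP_983df8_al.Dist3

/-! Rigid subsets and colourings of abelian groups. -/

namespace Pool.Agent.MP_983df8_al

open Subgroup

universe u

namespace Rig

/-- the coordinates of the points of the chain -/
def cx (i : ℕ) (b : Bool) (n : ℕ) : ℤ :=
  (if i = n then 1 else 0) + if b = true ∧ i + 1 = n then 2 else 0

/-- the points of the chain -/
def px {W : Type*} [CommGroup W] (e : ℕ → W) (i : ℕ) (b : Bool) : W :=
  e i * if b = true then e (i + 1) ^ 2 else 1

theorem irred6 (W : Type*) [CommGroup W] [Finite W] (hW : (Nat.card W).Coprime 6) :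
    ∃ (m : ℕ) (e : ℕ → W), closure (e '' {i | i < m}) = ⊤ ∧ ∀ a < m, ∃ H : Subgroup W,
      (∀ i b, i < m → (b = true → i + 1 < m) →
        ((px e i b : W) : W ⧸ H) = (e a : W ⧸ H) ^ cx i b a) ∧
      ∀ y z : ℤ, (e a : W ⧸ H) ^ y = (e a : W ⧸ H) ^ z → ¬(y - z) ∣ 36 := by
  obtain ⟨m, e, h1, h2⟩ := exists_irred W
  refine ⟨m, e, h1, fun a ha => ⟨closure (e '' {i | i < m ∧ i ≠ a}), fun i b hi hb => ?_,
    fun y z h ⟨k, hk⟩ => h2 a ha ((QuotientGroup.eq_one_iff _).1 ?_)⟩⟩
  · have k : ∀ i < m, (e i : W ⧸ closure (e '' {i | i < m ∧ i ≠ a})) =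
        (e a : W ⧸ closure (e '' {i | i < m ∧ i ≠ a})) ^ (if i = a then 1 else 0 : ℤ) := by
      intro i hi
      split_ifs with h
      · rw [h, zpow_one]
      · rw [zpow_zero]
        exact (QuotientGroup.eq_one_iff _).2
          (Subgroup.subset_closure (Set.mem_image_of_mem e ⟨hi, h⟩))
    rw [px, cx, QuotientGroup.mk_mul, zpow_add, k i hi]
    cases b
    · simp
    · rw [if_pos rfl, QuotientGroup.mk_pow, k _ (hb rfl)]
      by_cases c : i + 1 = a <;> simp [c, zpow_ofNat]
  · refine orderOf_eq_one_iff.1 (Nat.eq_one_of_dvd_coprimes (hW.pow_right 2)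
      (orderOf_dvd_of_pow_eq_one ?_) (orderOf_dvd_of_pow_eq_one ?_))
    · rw [← QuotientGroup.mk_pow, pow_card_eq_one', QuotientGroup.mk_one]
    · rw [← zpow_natCast, show ((6 ^ 2 : ℕ) : ℤ) = (y - z) * k from hk, zpow_mul, zpow_sub, h,
        mul_inv_cancel, one_zpow]

theorem five {d : ℤ} (h : ¬d ∣ 36) (h1 : -2 ≤ d) (h2 : d ≤ 6) : d = 0 ∨ d = 5 := by
  interval_cases d <;> simp_all

/-- the edges of an asymmetric system of triples -/
def Tri (x y z : ℕ) : Prop := x ≠ y ∧ x ≠ z ∧ y ≠ z ∧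
  ((x ≤ y + 2 ∧ y ≤ x + 2 ∧ x ≤ z + 2 ∧ z ≤ x + 2 ∧ y ≤ z + 2 ∧ z ≤ y + 2) ∨ x + y + z = 4)

theorem asym {n : ℕ} (hn : 5 ≤ n) {s : ℕ → ℕ} (h1 : ∀ i ≤ n, s i ≤ n)
    (h2 : ∀ i ≤ n, ∀ j ≤ n, s i = s j → i = j)
    (h3 : ∀ a ≤ n, ∀ b ≤ n, ∀ c ≤ n, Tri a b c → Tri (s a) (s b) (s c)) : ∀ i ≤ n, s i = i := by
  have top : s n = n := by
    obtain ⟨j, hj, e⟩ := Finset.surjOn_of_injOn_of_card_le (s := Finset.Iic n) (t := Finset.Iic n) s
      (fun i hi => by simpa using h1 i (by simpa using hi))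
      (fun i hi j hj => h2 i (by simpa using hi) j (by simpa using hj)) le_rfl
      (show n ∈ (Finset.Iic n : Set ℕ) by simp)
    have hj : j ≤ n := by simpa using hj
    have two : ∀ u ≤ n, ∀ v ≤ n, ∀ v' ≤ n, v ≠ v' → Tri j u v → Tri j u v' → False := by
      intro u hu v hv v' hv' k t t'
      have a1 := h3 j hj u hu v hv t
      have a2 := h3 j hj u hu v' hv' t'
      have a3 := h2 v hv v' hv'
      have := h1 u hu
      have := h1 v hv
      have := h1 v' hv'
      unfold Tri at a1 a2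
      omega
    by_contra c
    have c' : j ≠ n := fun k => c (k ▸ e.trans k.symm)
    by_cases c0 : j = 0
    · exact two 1 (by omega) 2 (by omega) 3 (by omega) (by omega) (by unfold Tri; omega)
        (by unfold Tri; omega)
    by_cases c1 : j = 1
    · exact two 0 (by omega) 2 (by omega) 3 (by omega) (by omega) (by unfold Tri; omega)
        (by unfold Tri; omega)
    exact two (j - 1) (by omega) (j - 2) (by omega) (j + 1) (by omega) (by omega)
      (by unfold Tri; omega) (by unfold Tri; omega)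
  have ed : ∀ i, i + 2 ≤ n → Tri (s i) (s (i + 1)) (s (i + 2)) := fun i hi =>
    h3 i (by omega) _ (by omega) _ hi (by unfold Tri; omega)
  obtain ⟨k, rfl⟩ : ∃ k, n = k + 4 := ⟨n - 4, by omega⟩
  have nxt : s (k + 3) = k + 3 := by
    have a2 : Tri (s (k + 2)) (s (k + 3)) (s (k + 4)) := ed (k + 2) le_rfl
    have a1 : Tri (s (k + 1)) (s (k + 2)) (s (k + 3)) := ed (k + 1) (by omega)
    have a0 : Tri (s k) (s (k + 1)) (s (k + 2)) := ed k (by omega)
    have b0 := h2 k (by omega) (k + 3) (by omega)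
    have b1 := h2 (k + 1) (by omega) (k + 4) le_rfl
    have := h1 (k + 2) (by omega)
    have := h1 (k + 3) (by omega)
    unfold Tri at a0 a1 a2
    omega
  have all : ∀ d, ∀ i ≤ k + 4, k + 3 ≤ i + d → s i = i := by
    intro d
    induction d with
    | zero =>
      intro i hi h
      obtain rfl | rfl : i = k + 3 ∨ i = k + 4 := by omega
      exacts [nxt, top]
    | succ d ih =>
      intro i hi h
      by_cases c : k + 3 ≤ i + d
      · exact ih i hi c
      have a := ed i (by omega)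
      rw [ih (i + 1) (by omega) (by omega), ih (i + 2) (by omega) (by omega)] at a
      have b := h1 i hi
      have b' : i + 3 ≤ k + 4 → s i = i + 3 → i = i + 3 := fun k3 e =>
        h2 i hi (i + 3) k3 (e.trans (ih (i + 3) k3 (by omega)).symm)
      unfold Tri at a
      omega
  exact fun i hi => all (k + 3) i hi (by omega)

/-- the binary space of dimension four -/
abbrev B4 : Type := Bool × Bool × Bool × Bool

def ad (x y : B4) : B4 := (xor x.1 y.1, xor x.2.1 y.2.1, xor x.2.2.1 y.2.2.1, xor x.2.2.2 y.2.2.2)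

def num (x : B4) : ℕ := x.1.toNat + 2 * x.2.1.toNat + 4 * x.2.2.1.toNat + 8 * x.2.2.2.toNat

def col4 (x : B4) : ZMod 3 :=
  if num x ∈ [0, 1, 2, 4] then 0 else if num x ∈ [3, 5, 9, 10, 11, 13] then 1 else 2

def stp (b : Bool) (p q x : B4) : B4 := if b = true then ad (ad x p) q else x

def aff (p0 p1 p2 p3 p4 w : B4) : B4 :=
  stp w.2.2.2 p0 p4 (stp w.2.2.1 p0 p3 (stp w.2.1 p0 p2 (stp w.1 p0 p1 p0)))

theorem four : ∀ p0, col4 p0 = 0 → ∀ p1, col4 p1 = 0 → ∀ p2, col4 p2 = 0 → ∀ p3, col4 p3 = 0 →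
    ∀ p4, (∀ w, col4 (aff p0 p1 p2 p3 p4 w) = col4 w) → ∀ w, aff p0 p1 p2 p3 p4 w = w := by
  decide +kernel

theorem rigid4 (g : B4 → B4) (h : ∀ x y z, g (ad (ad x y) z) = ad (ad (g x) (g y)) (g z))
    (hc : ∀ w, col4 (g w) = col4 w) (w : B4) : g w = w := by
  have k : ∀ b q x, g (stp b (false, false, false, false) q x) =
      stp b (g (false, false, false, false)) (g q) (g x) := fun b q x => by
    cases b
    · rfl
    · exact h _ _ _
  have e : ∀ w, g w = aff (g (false, false, false, false)) (g (true, false, false, false))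
      (g (false, true, false, false)) (g (false, false, true, false))
      (g (false, false, false, true)) w := fun w => by
    rw [aff, ← k, ← k, ← k, ← k]
    exact congrArg g (by revert w; decide)
  rw [e]
  exact four _ (hc _) _ (hc _) _ (hc _) _ (hc _) _ (fun w => by rw [← e, hc]) w

end Rig

open Rig

theorem rigX : RigX.{u} := by
  intro W _ _ hW
  obtain ⟨m, e, hgen, hirr⟩ := irred6 W hW
  have p0 : ∀ i, px e i false = e i := fun i => by simp [px]
  have tri : ∀ i b j c k d, i < m → (b = true → i + 1 < m) → j < m → (c = true → j + 1 < m) →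
      k < m → (d = true → k + 1 < m) → px e i b * px e j c ^ 2 = px e k d →
      b = false ∧ c = false ∧ j = i + 1 := by
    intro i b j c k d hi hb hj hc hk hd h
    have co : ∀ n < m, cx i b n + cx j c n * 2 - cx k d n = 0 ∨
        cx i b n + cx j c n * 2 - cx k d n = 5 := fun n hn => by
      obtain ⟨H, b1, b2⟩ := hirr n hn
      have := congrArg (fun w : W => (w : W ⧸ H)) h
      simp only [QuotientGroup.mk_mul, QuotientGroup.mk_pow] at this
      rw [b1 i b hi hb, b1 j c hj hc, b1 k d hk hd, ← zpow_natCast, ← zpow_mul, ← zpow_add] at this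
      refine five (b2 _ _ this) ?_ ?_ <;> unfold cx <;> split_ifs <;> omega
    have a1 := co j hj
    have a2 := co k hk
    have a3 := fun h => co (j + 1) (hc h)
    unfold cx at a1 a2 a3
    cases b <;> cases c <;> cases d <;>
      simp only [Bool.false_eq_true, false_and, true_and, if_false, if_true, forall_const,
        and_self, Bool.true_eq_false] at a1 a2 a3 ⊢ <;> omega
  have inj : ∀ i < m, ∀ j < m, e i = e j → i = j := fun i hi j hj h => by
    obtain ⟨H, b1, b2⟩ := hirr i hi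
    have := b2 _ _ ((b1 i false hi nofun).symm.trans
      ((congrArg (fun w : W => (w : W ⧸ H)) (by rw [p0, p0, h])).trans (b1 j false hj nofun)))
    by_contra c
    simp [cx, Ne.symm c] at this
  refine ⟨{w | ∃ i b, i < m ∧ (b = true → i + 1 < m) ∧ px e i b = w}, ?_, fun φ _ hφ w => ?_⟩
  · rintro ⟨i, b, hi, hb, h⟩
    obtain ⟨H, b1, b2⟩ := hirr i hi
    have := b2 _ 0 ((b1 i b hi hb).symm.trans (by rw [h]; simp))
    simp [cx] at this
  have mem : ∀ i < m, ∃ j b, j < m ∧ (b = true → j + 1 < m) ∧ px e j b = φ (e i) :=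
    fun i hi => (hφ _).2 ⟨i, false, hi, nofun, p0 i⟩
  have step : ∀ i, i + 1 < m → ∃ s, s + 1 < m ∧ φ (e i) = e s ∧ φ (e (i + 1)) = e (s + 1) := by
    intro i hi
    obtain ⟨j, b, a1, a2, a3⟩ := mem i (by omega)
    obtain ⟨j', b', c1, c2, c3⟩ := mem (i + 1) hi
    obtain ⟨k, d, d1, d2, d3⟩ := (hφ _).2 ⟨i, true, by omega, fun _ => hi, rfl⟩
    obtain ⟨rfl, rfl, rfl⟩ := tri j b j' b' k d a1 a2 c1 c2 d1 d2 (by
      rw [a3, c3, d3, px, if_pos rfl, map_mul, map_pow])
    exact ⟨j, c1, by rw [← a3, p0], by rw [← c3, p0]⟩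
  refine MonoidHom.eqOn_closure (g := MonoidHom.id W) ?_ (hgen ▸ mem_top w)
  rintro _ ⟨i, hi, rfl⟩
  have hi : i < m := hi
  by_cases c : 1 < m
  · obtain ⟨s, s1, s0, -⟩ := step 0 c
    have all : ∀ i < m, s + i < m ∧ φ (e i) = e (s + i) := by
      intro i
      induction i with
      | zero => exact fun _ => ⟨by omega, s0⟩
      | succ i ih =>
        intro hi
        obtain ⟨t, t1, t2, t3⟩ := step i hi
        obtain ⟨u1, u2⟩ := ih (by omega)
        obtain rfl := inj _ (by omega) _ u1 (t2.symm.trans u2)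
        exact ⟨t1, t3⟩
    have := (all (m - 1) (by omega)).1
    have h0 : s = 0 := by omega
    simpa [h0] using (all i hi).2
  · obtain ⟨j, b, a1, a2, a3⟩ := mem i hi
    obtain rfl : j = i := by omega
    cases b
    · exact a3.symm.trans (p0 j)
    · exact absurd (a2 rfl) (by omega)

theorem rig2 : Rig2.{u} := by
  classical
  intro W _ _ h2 hW
  obtain ⟨m, e, hgen, hirr⟩ := exists_irred W
  have sq : ∀ w : W, w * w = 1 := fun w => by rw [← pow_two, h2]
  have af : ∀ (φ : W →* W) (a x y z : W), φ (x * y * z) * a = φ x * a * (φ y * a) * (φ z * a) := by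
    intro φ a x y z
    rw [map_mul, map_mul, mul_mul_mul_comm (φ x), sq a, mul_one, mul_assoc]
  by_cases hm : m ≤ 4
  · let t : Bool → W → W := fun b w => if b = true then w else 1
    have tx : ∀ b c w, t (xor b c) w = t b w * t c w := fun b c w => by
      cases b <;> cases c <;> simp [t, sq]
    let E : B4 → W := fun x => t x.1 (e 0) * t x.2.1 (e 1) * (t x.2.2.1 (e 2) * t x.2.2.2 (e 3))
    have Ea : ∀ x y, E (ad x y) = E x * E y := fun x y => by
      simp only [E, ad, tx]
      ac_rfl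
    have su : Function.Surjective E := fun w => by
      have hw : w ∈ closure (e '' {i | i < m}) := hgen ▸ mem_top w
      induction hw using closure_induction with
      | mem x hx =>
        obtain ⟨i, hi, rfl⟩ := hx
        have hi : i < 4 := lt_of_lt_of_le hi hm
        interval_cases i
        exacts [⟨(true, false, false, false), by simp [E, t]⟩,
          ⟨(false, true, false, false), by simp [E, t]⟩,
          ⟨(false, false, true, false), by simp [E, t]⟩,
          ⟨(false, false, false, true), by simp [E, t]⟩]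
      | one => exact ⟨(false, false, false, false), by simp [E, t]⟩
      | mul x y _ _ hx hy =>
        obtain ⟨x, rfl⟩ := hx
        obtain ⟨y, rfl⟩ := hy
        exact ⟨_, Ea x y⟩
      | inv x _ hx => rwa [inv_eq_of_mul_eq_one_right (sq x)]
    let Q := Equiv.ofBijective E (su.bijective_of_nat_card_le (by simpa using hW))
    refine ⟨fun w => col4 (Q.symm w), fun φ a _ hc w => ?_⟩
    obtain ⟨x, rfl⟩ := su w
    have k : ∀ x, E (Q.symm x) = x := Q.apply_symm_apply
    have := rigid4 (fun x => Q.symm (φ (E x) * a)) (fun x y z => Q.injective (by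
      change E _ = E _
      rw [k, Ea, Ea, Ea, Ea, k, k, k, af]))
      (fun x => (hc (E x)).trans (congrArg col4 (Q.symm_apply_apply x))) x
    rw [← k (φ (E x) * a)]
    exact congrArg E this
  let P : ℕ → W := fun i => if i = 0 then 1 else e (i - 1)
  have can : ∀ x ≤ m, ∀ y ≤ m, ∀ z ≤ m, ∀ a ≤ m, ∀ b ≤ m, ∀ c ≤ m, x ≠ y → x ≠ z →
      P x * P y * P z = P a * P b * P c → x = 0 ∨ x = a ∨ x = b ∨ x = c := by
    intro x hx y hy z hz a ha b hb c hc n1 n2 h
    by_contra k
    have mm : ∀ i ≤ m, x ≠ i → P i ∈ closure (e '' {i | i < m ∧ i ≠ x - 1}) := fun i hi n => by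
      simp only [P]
      split_ifs with c
      · exact one_mem _
      · exact Subgroup.subset_closure ⟨i - 1, ⟨by omega, by omega⟩, rfl⟩
    refine hirr (x - 1) (by omega) ?_
    rw [show e (x - 1) = P x from (if_neg (by omega)).symm, eq_mul_inv_of_mul_eq
      (eq_mul_inv_of_mul_eq h)]
    exact mul_mem (mul_mem (mul_mem (mul_mem (mm a ha (by omega)) (mm b hb (by omega)))
      (mm c hc (by omega))) (inv_mem (mm z hz n2))) (inv_mem (mm y hy n1))
  have p0 : P 0 = 1 := rfl
  have nr : ∀ x ≤ m, ∀ y ≤ m, ∀ z ≤ m, x ≠ y → x ≠ z → y ≠ z → ¬∃ i ≤ m, P i = P x * P y * P z := by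
    rintro x hx y hy z hz n1 n2 n3 ⟨i, hi, h⟩
    have h' : P x * P y * P z = P i * P 0 * P 0 := by rw [p0, mul_one, mul_one, h]
    have a1 := can x hx y hy z hz i hi 0 (by omega) 0 (by omega) n1 n2 h'
    have a2 := can y hy x hx z hz i hi 0 (by omega) 0 (by omega) n1.symm n3
      (by rw [← h']; ac_rfl)
    have a3 := can z hz x hx y hy i hi 0 (by omega) 0 (by omega) n2.symm n3.symm
      (by rw [← h']; ac_rfl)
    omega
  let col : W → ZMod 3 := fun w => if ∃ i ≤ m, P i = w then 0 else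
    if ∃ x ≤ m, ∃ y ≤ m, ∃ z ≤ m, Tri x y z ∧ P x * P y * P z = w then 1 else 2
  refine ⟨col, fun φ a hφ hc w => ?_⟩
  have red : ∀ i, ∃ j, i ≤ m → j ≤ m ∧ P j = φ (P i) * a := fun i => by
    by_cases hi : i ≤ m
    · have := hc (P i)
      simp only [col, if_pos (⟨i, hi, rfl⟩ : ∃ j ≤ m, P j = P i)] at this
      by_contra c
      rw [if_neg fun ⟨j, k⟩ => c ⟨j, fun _ => k⟩] at this
      split_ifs at this <;> exact absurd this (by decide)
    · exact ⟨0, fun k => absurd k hi⟩
  choose s hs using red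
  have pi : ∀ i ≤ m, ∀ j ≤ m, P i = P j → i = j := fun i hi j hj h => by
    by_contra c
    have a1 := fun n => can i hi 0 (by omega) 0 (by omega) j hj 0 (by omega) 0 (by omega) n n
      (by rw [h])
    have a2 := fun n => can j hj 0 (by omega) 0 (by omega) i hi 0 (by omega) 0 (by omega) n n
      (by rw [h])
    omega
  have si : ∀ i ≤ m, ∀ j ≤ m, s i = s j → i = j := fun i hi j hj h =>
    pi i hi j hj (hφ (mul_right_cancel ((hs i hi).2.symm.trans (h ▸ (hs j hj).2))))
  have id := asym (n := m) (by omega) (fun i hi => (hs i hi).1) si fun x hx y hy z hz t => by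
    have n1 : s x ≠ s y := fun k => t.1 (si x hx y hy k)
    have n2 : s x ≠ s z := fun k => t.2.1 (si x hx z hz k)
    have n3 : s y ≠ s z := fun k => t.2.2.1 (si y hy z hz k)
    obtain ⟨x1, x2⟩ := hs x hx
    obtain ⟨y1, y2⟩ := hs y hy
    obtain ⟨z1, z2⟩ := hs z hz
    have := hc (P x * P y * P z)
    rw [af, ← x2, ← y2, ← z2] at this
    simp only [col, if_neg (nr x hx y hy z hz t.1 t.2.1 t.2.2.1), if_neg (nr _ x1 _ y1 _ z1 n1 n2 n3),
      if_pos (⟨x, hx, y, hy, z, hz, t, rfl⟩ : ∃ x' ≤ m, ∃ y' ≤ m, ∃ z' ≤ m, Tri x' y' z' ∧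
        P x' * P y' * P z' = P x * P y * P z)] at this
    obtain ⟨u, hu, v, hv, r, hr, t', h⟩ : ∃ x' ≤ m, ∃ y' ≤ m, ∃ z' ≤ m, Tri x' y' z' ∧
        P x' * P y' * P z' = P (s x) * P (s y) * P (s z) := by
      by_contra c
      rw [if_neg c] at this
      exact absurd this (by decide)
    have a1 := can u hu v hv r hr _ x1 _ y1 _ z1 t'.1 t'.2.1 h
    have a2 := can v hv u hu r hr _ x1 _ y1 _ z1 t'.1.symm t'.2.2.1 (by rw [← h]; ac_rfl)
    have a3 := can r hr u hu v hv _ x1 _ y1 _ z1 t'.2.1.symm t'.2.2.1.symm (by rw [← h]; ac_rfl)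
    have b1 := can _ x1 _ y1 _ z1 u hu v hv r hr n1 n2 h.symm
    have b2 := can _ y1 _ x1 _ z1 u hu v hv r hr n1.symm n3 (by rw [h]; ac_rfl)
    have b3 := can _ z1 _ x1 _ y1 u hu v hv r hr n2.symm n3.symm (by rw [h]; ac_rfl)
    generalize s x = x', s y = y', s z = z' at *
    have c1 : u = x' ∨ u = y' ∨ u = z' := by unfold Tri at t'; omega
    have c2 : v = x' ∨ v = y' ∨ v = z' := by unfold Tri at t'; omega
    have c3 : r = x' ∨ r = y' ∨ r = z' := by unfold Tri at t'; omega
    clear a1 a2 a3 b1 b2 b3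
    unfold Tri at t' ⊢
    omega
  have fx : ∀ i ≤ m, φ (P i) * a = P i := fun i hi => by rw [← (hs i hi).2, id i hi]
  have a1 : a = 1 := by simpa [p0] using fx 0 (by omega)
  rw [a1, mul_one]
  refine MonoidHom.eqOn_closure (g := MonoidHom.id W) ?_ (hgen ▸ mem_top w)
  rintro _ ⟨i, hi, rfl⟩
  simpa [a1, P] using fx (i + 1) hi

end Pool.Agent.MP_983df8_al
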