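import Pool.Agent.MP_983df8_al.Defs5

namespace Pool.Agent.MP_983df8_al

/-- an element of `E` opposite to `x` is determined by its bracket with `x` -/
def Rigid {K L : Type*} [Field K] [LieRing L] [LieAlgebra K L] (g : L →ₗ[K] L →ₗ[K] K)
    (E : Set L) : Prop :=
  ∀ x ∈ E, ∀ y ∈ E, ∀ z ∈ E, g x y = 1 → ⁅x, y⁆ = ⁅x, z⁆ → y = z

/-- the groups generated by `U` and `U ^ r` are insoluble or of order divisible by three -/
def Wild {S : Type*} [Group S] (U : Subgroup S) (R : Set S) : Prop :=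
  ∀ r ∈ R, ¬ Group.IsSolvable ↥(U ⊔ conjBy U r) ∨ 3 ∣ Nat.card ↥(U ⊔ conjBy U r)

end Pool.Agent.MP_983df8_al
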