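import Pool.Agent.MP_983df8_al.Defs7

namespace Pool.Agent.MP_983df8_al

open Subgroup

/-- the unipotent matrices of Suzuki -/
def szU {K : Type*} [Field K] (θ : K →+* K) (a b : K) : Matrix (Fin 4) (Fin 4) K :=
  !![1, a, a * θ a + b, a * a * θ a + a * b + θ b; 0, 1, θ a, b; 0, 0, 1, a; 0, 0, 0, 1]

/-- the antidiagonal matrix -/
def szW (K : Type*) [Field K] : Matrix (Fin 4) (Fin 4) K :=
  !![0, 0, 0, 1; 0, 0, 1, 0; 0, 1, 0, 0; 1, 0, 0, 0]

/-- `S` is isomorphic to a Suzuki group `Sz(q)`, `q ≥ 8` -/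
def IsSz (S : Type*) [Group S] : Prop :=
  ∃ (K : Type) (_ : Field K) (_ : Finite K) (θ : K →+* K), (∀ x, θ (θ x) = x * x) ∧
    8 ≤ Nat.card K ∧ Nonempty (S ≃* Submonoid.closure {m | m = szW K ∨ ∃ a b, m = szU θ a b})

/-- characteristic `p` type: for a `p`-subgroup `V ≠ 1`, an automorphism of order prime to `p` that
fixes `O_p(N(V))` elementwise is trivial -/
def IsChar (p : ℕ) (S : Type*) [Group S] : Prop :=
  ∀ V : Subgroup S, V ≠ ⊥ → IsPGroup p V → ∀ β : MulAut S, ¬ p ∣ orderOf β →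
    (∀ x : normalizer (V : Set S), x ∈ OPi {p} (normalizer (V : Set S)) → β x = x) → β = 1

end Pool.Agent.MP_983df8_al
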