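import Pool.Agent.MP_983df8_al.Sl2
import Pool.Agent.MP_983df8_al.LocB
import Pool.Agent.MP_983df8_al.Dist3
import Pool.Agent.MP_983df8_al.Defs6
import Pool.Agent.MP_983df8_al.Defs8

-- ======== part 0: formerly Pool.Agent.MP_983df8_al.Spec7
section MrgPart0

/-! Statements for the case `2 ∈ π`, `3 ∉ π`, second part. -/

namespace Pool.Agent.MP_983df8_al

universe u v w

/-- the fundamental subalgebra is unique -/
def Uniq : Prop := ∀ (K : Type w) (L : Type v) [Field K] [LieRing L] [LieAlgebra K L]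
  (g : L →ₗ[K] L →ₗ[K] K) (S : Type u) [Group S] (ρ : S →* Module.End K L) (E : Set L) (e : L → S),
  RS g ρ E e → Rigid g E → (2 : K) ≠ 0 → ∀ (p : ℕ) [Fact p.Prime] [CharP K p] (J : Subgroup S)
  [Finite J] [Group.IsSolvable J], ¬ 3 ∣ Nat.card J → ¬ p ∣ Nat.card J →
  ∀ x ∈ E, ∀ y ∈ E, ∀ z ∈ E, g x y = 1 → g x z ≠ 0 → ∀ s a t : K, s ≠ 0 → a ≠ 0 → t ≠ 0 →
    e (s • x) * e (a • y) ∈ J → e (t • x) * e z ∈ J → z ∈ sl K x y

/-- a generic trace -/
def GenTr {K : Type*} [Field K] (τ : K) : Prop := τ ≠ 0 ∧ τ ≠ 2 ∧ τ ≠ -2 ∧ τ ≠ -1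

/-- commuting tori of two fundamental subgroups -/
def Tori : Prop := ∀ (K : Type w) (L : Type v) [Field K] [LieRing L] [LieAlgebra K L]
  (g : L →ₗ[K] L →ₗ[K] K) (x y x' y' : L) (σ σ' : Module.End K L) (M M' : M2 K),
  Hyp g x y → Hyp g x' y' → AutF g σ → AutF g σ' → Mt g x y σ M → Mt g x' y' σ' M' →
  Commute σ σ' → GenTr M.trace → GenTr M'.trace →
    x' ∈ sl K x y ∨ ∀ u, qd (M.trace ^ 2 - 2) σ u = 0 → g x' u = 0

/-- a good root element -/
def NoPair : Prop := ∀ (K : Type w) (L : Type v) [Field K] [Finite K] [LieRing L] [LieAlgebra K L]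
  (g : L →ₗ[K] L →ₗ[K] K) (S : Type u) [Group S] [Finite S] [IsSimpleGroup S]
  (ρ : S →* Module.End K L) (E : Set L) (e : L → S),
  RS g ρ E e → Rigid g E → (2 : K) ≠ 0 → 32 < Nat.card K → 3 < Module.finrank K L →
  ∀ (p : ℕ) [Fact p.Prime] [CharP K p] (J : Subgroup S) [Group.IsSolvable J],
    ¬ 3 ∣ Nat.card J → ¬ p ∣ Nat.card J → ∃ x ∈ E, x ≠ 0 ∧ ∀ y ∈ E, e x * e y ∈ J → g x y = 0

/-- a base of size two in the unipotent radical -/
def Heis : Prop := ∀ (K : Type w) (L : Type v) [Field K] [Finite K] [LieRing L] [LieAlgebra K L]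
  (g : L →ₗ[K] L →ₗ[K] K) (S : Type u) [Group S] [Finite S]
  (ρ : S →* Module.End K L) (E : Set L) (e : L → S) (h : RS g ρ E e),
  Rigid g E → (2 : K) ≠ 0 → 32 < Nat.card K →
  ∀ (p : ℕ) [Fact p.Prime] [CharP K p] (D : Subgroup (MulAut S)) [Group.IsSolvable D],
    ¬ 3 ∣ Nat.card D → ¬ p ∣ Nat.card D →
    (∀ β ∈ D, ∀ y ∈ E, ∃ z ∈ E, β '' rt K e y = rt K e z) →
    ∀ x ∈ E, ∀ y ∈ E, g x y = 1 → (∀ β ∈ D, β (e x) = e x) →
      (∀ β ∈ D, ∀ q ∈ h.Q x, β q ∈ h.Q x) ∧ ∃ v ∈ h.Q x, ∃ v' ∈ h.Q x,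
        ∀ β ∈ D, β v = v → β v' = v' → ∀ q ∈ h.Q x, β q = q

/-- the local problem in the defining characteristic -/
def LocBN : Prop := ∀ (S : Type u) [Group S] [Finite S] [IsSimpleGroup S],
  ¬ IsMulCommutative S → ∀ (p : ℕ) (B N U : Subgroup S) (R : Set S), SBN p B N U R → Wild U R →
  ∀ (D : Subgroup (MulAut S)) [Group.IsSolvable D], ¬ 3 ∣ Nat.card D →
    Function.Injective (MulAut.conj : S →* MulAut S) → U ≤ D.comap MulAut.conj →
    ∃ x : Fin 3 → S, ∀ β ∈ D,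
      (∀ a, MulAut.conj (x a) * β * (MulAut.conj (x a))⁻¹ ∈ D) → β = 1

/-- gluing over the components with three colours -/
def Glue3 : Prop := ∀ (G : Type u) [Group G] [Finite G], RadicalTrivial G →
  ∀ (H : Subgroup G) [Group.IsSolvable H], ¬ 3 ∣ Nat.card H →
    (∀ S, IsComp S → LocG (Fin 3) H S ∨ ((autOf H S).comap MulAut.conj ≠ ⊤ ∧
      ∃ x : Fin 3 → S, ∀ β ∈ autOf H S,
        (∀ a, MulAut.conj (x a) * β * (MulAut.conj (x a))⁻¹ ∈ autOf H S) → β = 1)) →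
    ∃ X : Fin 3 → G, ∀ k ∈ H, (∀ a, X a * k * (X a)⁻¹ ∈ H) → k = 1

end Pool.Agent.MP_983df8_al

end MrgPart0

-- ======== part 1: formerly Pool.Agent.MP_983df8_al.Heis
section MrgPart1

/-! A base of size two in the unipotent radical. -/

namespace Pool.Agent.MP_983df8_al

universe u v w

attribute [-simp] lie_skew lie_lie

namespace hs

open Subgroup

variable {K L : Type*} [Field K] [LieRing L] [LieAlgebra K L] {g : L →ₗ[K] L →ₗ[K] K}
variable {S : Type*} [Group S] {ρ : S →* Module.End K L} {E : Set L} {e : L → S} {x y : L}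

/-- the projection along `x` -/
def pr (g : L →ₗ[K] L →ₗ[K] K) (x y : L) : Module.End K L := 1 - (g y).smulRight x

theorem pr_apply (u : L) : pr g x y u = u - g y u • x := rfl

/-- the vector of an element of the radical -/
def V (g : L →ₗ[K] L →ₗ[K] K) (ρ : S →* Module.End K L) (x y : L) (q : S) : L :=
  pr g x y (ρ q ⁅x, y⁆ - ⁅x, y⁆)

/-- the Weyl element -/
def nn (e : L → S) (x y : L) (t : K) : S := e (t • x) * e (t⁻¹ • y) * e (t • x)

theorem pr_four (H : Hyp g x y) {u : L} (a : u ∈ Fl g x 4) : pr g x y u = 0 := by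
  obtain ⟨c, rfl⟩ := mem_Fl4.1 a
  simp [pr_apply, H.yx]

theorem h_two (H : Hyp g x y) : ⁅x, y⁆ ∈ Fl g x 2 := mem_Fl2.2 ⟨H.gxh, 2, H.xh.symm⟩

theorem pr_gr (H : Hyp g x y) {l : K} {σ : Module.End K L} (a : Gr g x l σ) (hl : l ≠ 0) {u : L}
    (b : u ∈ Fl g x 3) : pr g x y (σ u) = l • pr g x y u := by
  have := pr_four H (a 3 u b)
  rw [map_sub, map_smul, map_smul, sub_eq_zero, pow_succ l 2, mul_smul] at this
  exact smul_right_injective L (pow_ne_zero 2 hl) this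

theorem gr_two (H : Hyp g x y) {l : K} {σ : Module.End K L} (a : Gr g x l σ) (hl : l ≠ 0) :
    σ ⁅x, y⁆ - ⁅x, y⁆ ∈ Fl g x 3 := by
  have := Submodule.smul_mem _ (l ^ 2)⁻¹ (a 2 _ (h_two H))
  rwa [← smul_sub, inv_smul_smul₀ (pow_ne_zero 2 hl)] at this

/-- an automorphism in the radical that fixes the pair is trivial -/
theorem eq_one (H : Hyp g x y) {σ : Module.End K L} (a : AutF g σ) (b : Gr g x 1 σ) (c : σ y = y) :
    σ = 1 := by
  have d : σ x = x := by simpa using b.apply one_ne_zero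
  have k : ∀ u (t : K), g y u = 0 → t • x = σ u - u → σ u = u := fun u t h1 h2 => by
    have := congrArg (g y) h2
    rw [map_sub, map_smul, H.yx, h1, ← c, a.form, h1] at this
    rw [show t = 0 by simpa using this, zero_smul] at h2
    exact (sub_eq_zero.1 h2.symm)
  refine H.ext d c (by rw [a.lie, c, d]; rfl) (fun v hv => ?_) fun m hm => ?_
  · obtain ⟨t, ht⟩ := mem_Fl4.1 (b 3 v (mem_Fl3.2 ⟨-⁅y, v⁆, by simp [H.g1_gxy hv], 0, by
      simp [hv.lxy]⟩))
    have := k v t hv.gy (by simpa using ht)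
    exact ⟨this, by rw [a.lie, c, this]; rfl⟩
  · obtain ⟨u, h1, t, ht⟩ := mem_Fl3.1 (b 2 m (mem_Fl2.2 ⟨hm.gx, 0, by simp [hm.lx]⟩))
    simp only [one_pow, one_smul] at ht
    have h2 : ⁅y, σ m⁆ = 0 := by rw [← c, ← a.lie, hm.ly, map_zero]
    have h3 := congrArg (fun z => ⁅x, ⁅y, z⁆⁆) ht
    simp only [lie_add, lie_sub, lie_smul, h2, hm.ly, H.hx.p2, h1, H.one, Hyp.lyx (x := x) (y := y),
      lie_neg, H.xh, lie_zero] at h3
    refine k m (g x ⁅y, u⁆ - t) hm.gy (ht ▸ ?_)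
    linear_combination (norm := module) h3

section

variable (h : RS g ρ E e) (H : Hyp g x y) (hx : x ∈ E)
include h H

theorem V_mul {q q' : S} (a : q ∈ h.Q x) (b : q' ∈ h.Q x) :
    V g ρ x y (q * q') = V g ρ x y q + V g ρ x y q' := by
  have := pr_gr H a one_ne_zero (gr_two H b one_ne_zero)
  simp only [V, map_mul, Module.End.mul_apply, map_sub, one_smul] at this ⊢
  linear_combination (norm := module) this

omit H in
theorem conj_Q {l : K} {s q : S} (a : Gr g x l (ρ s)) (hl : l ≠ 0) (b : q ∈ h.Q x) :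
    s * q * s⁻¹ ∈ h.Q x := show Gr g x 1 _ by
  simpa only [map_mul] using Gr.conj b (h.aut s) (h.aut _) (rho_inv ρ s).1 (rho_inv ρ s).2
    (pow_ne_zero 2 hl) (a.apply hl)

theorem V_act {l : K} {s q : S} (a : Gr g x l (ρ s)) (hl : l ≠ 0) (b : q ∈ h.Q x) :
    V g ρ x y (s * q * s⁻¹) = l • V g ρ x y q := by
  have c := gr_two H (a.inv hl (h.aut _) (rho_inv ρ s).1 (rho_inv ρ s).2) (inv_ne_zero hl)
  have d := pr_four H ((h.aut s).Fl_mem (pow_ne_zero 2 hl) (a.apply hl) _ (b 3 _ c))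
  have f := pr_gr H a hl (gr_two H b one_ne_zero)
  simp only [V, map_mul, Module.End.mul_apply, map_sub, one_smul, one_pow, rho_cancel] at d f ⊢
  linear_combination (norm := module) d + f

include hx

theorem V_e (t : K) : V g ρ x y (e (t • x)) = 0 := by
  rw [V, h.ex _ (h.smul x hx t), ex_smul, H.xh, H.gxh]
  exact pr_four H (mem_Fl4.2 ⟨t * 2, by module⟩)

theorem V_mul_e {q : S} (a : q ∈ h.Q x) (t : K) : V g ρ x y (q * e (t • x)) = V g ρ x y q := by
  rw [V_mul h H a (h.e_mem_Q hx t), V_e h H hx, add_zero]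

theorem e_inj {s t : K} (a : e (s • x) = e (t • x)) : s = t :=
  smul_left_injective K (fun c => by simpa [c] using H.one)
    (h.e_inj (h.smul x hx s) (h.smul x hx t) a)

omit H in
theorem e_pow (t : K) (k : ℕ) : e (t • x) ^ k = e ((k * t) • x) := by
  induction k with
  | zero => simp [h.e_zero hx]
  | succ k ih => rw [pow_succ, ih, h.e_add hx]; congr 2; push_cast; ring

theorem ker (hy : y ∈ E) (hr : Rigid g E) {q : S} (a : q ∈ h.Q x) (b : V g ρ x y q = 0) :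
    ∃ t : K, q = e (t • x) := by
  obtain ⟨c, hc⟩ : ∃ c : K, ρ q ⁅x, y⁆ = ⁅x, y⁆ + c • x :=
    ⟨_, sub_eq_iff_eq_add'.1 (sub_eq_zero.1 b)⟩
  have m := mul_mem a (h.e_mem_Q hx (-(c / 2)))
  have d : ρ (q * e ((-(c / 2)) • x)) ⁅x, y⁆ = ⁅x, y⁆ := by
    have := H.two
    rw [map_mul, Module.End.mul_apply, h.ex _ (h.smul x hx _), ex_smul, H.xh, H.gxh]
    simp only [map_add, map_smul, hc, h.Q_fix a]
    match_scalars <;> field_simp
    ring
  have f := hr x hx y hy _ (h.act y hy (q * e ((-(c / 2)) • x))) H.one (by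
    rw [← d, (h.aut _).lie, h.Q_fix m])
  have := h.inj ((eq_one H (h.aut _) m f.symm).trans (map_one ρ).symm)
  exact ⟨c / 2, by rw [eq_inv_of_mul_eq_one_left this, ← h.e_neg (h.smul x hx _), neg_smul, neg_neg]⟩

theorem ker' (hy : y ∈ E) (hr : Rigid g E) {q q' : S} (a : q ∈ h.Q x) (b : q' ∈ h.Q x)
    (c : V g ρ x y q' = V g ρ x y q) : ∃ t : K, q' = q * e (t • x) := by
  have d := V_mul h H a (mul_mem (inv_mem a) b)
  rw [mul_inv_cancel_left, c, left_eq_add] at d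
  obtain ⟨t, ht⟩ := ker h H hx hy hr (mul_mem (inv_mem a) b) d
  exact ⟨t, inv_mul_eq_iff_eq_mul.1 ht⟩

omit H in
theorem rho_nn (hy : y ∈ E) (t : K) : ρ (nn e x y t) = wl g x y t := by
  simp only [nn, map_mul, h.ex _ (h.smul x hx _), h.ex _ (h.smul y hy _), wl]

theorem gr_nn (hy : y ∈ E) {l : K} (hl : l ≠ 0) :
    Gr g x l (ρ (nn e x y l * nn e x y (-1 : K))) := by
  rw [map_mul, rho_nn h hx hy, rho_nn h hx hy]
  exact (h.gr_wl H.hx H.hy H.one hl).1

/-- transport of the fundamental subgroup -/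
theorem trans (hy : y ∈ E) {β : MulAut S} (hβ : ∀ y ∈ E, ∃ z ∈ E, β '' rt K e y = rt K e z)
    (fx : β (e x) = e x) : ∃ f : K →+ K, (∀ t, β (e (t • x)) = e (f t • x)) ∧ f 1 = 1 ∧
      ∀ l, l ≠ 0 → f l ≠ 0 ∧ Gr g x (f l) (ρ (β (nn e x y l * nn e x y (-1 : K)))) := by
  have x0 : x ≠ 0 := fun c => by simpa [c] using H.one
  have a0 : β '' rt K e x = rt K e x := by
    obtain ⟨z, c, d⟩ := hβ x hx
    obtain ⟨t, f⟩ := d.le ⟨_, ⟨1, rfl⟩, show β (e ((1 : K) • x)) = e x by rwa [one_smul]⟩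
    have f1 := h.e_inj (h.smul z c t) hx f
    rwa [← rt_smul (x := z) (c := t) (by rintro rfl; simp [eq_comm, x0] at f1), f1] at d
  choose f0 hf using fun t : K => show ∃ s : K, e (s • x) = β (e (t • x)) from
    a0.le ⟨_, ⟨t, rfl⟩, rfl⟩
  let f : K →+ K := AddMonoidHom.mk' f0 fun s t => e_inj h H hx (by
    rw [← h.e_add hx, hf, hf, hf, ← map_mul, h.e_add hx])
  have f1 : f 1 = 1 := e_inj h H hx ((hf 1).trans (by simpa using fx))
  have f2 : ∀ l, l ≠ 0 → f l ≠ 0 := fun l hl c => hl (e_inj h H hx (β.injective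
    ((hf l).symm.trans ((congrArg (fun t => e (t • x)) (c.trans (map_zero f).symm)).trans (hf 0)))))
  obtain ⟨z, hz, a2⟩ := hβ y hy
  have a1 : ∀ z ∈ E, β '' rt K e y = rt K e z → ∀ t : K, t ≠ 0 → ∃ b c : K,
      β (nn e x y t) = e (f t • x) * e (b • z) * e (f t • x) ∧ ρ (β (nn e x y t)) x = c • z :=
    fun z hz a2 t ht => by
      obtain ⟨b, hb⟩ := a2.le ⟨_, ⟨t⁻¹, rfl⟩, rfl⟩
      have c := h.conj_rt hx (nn e x y t)
      rw [rho_nn h hx hy, (h.wl_xy H.hx H.hy H.one ht).1,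
        rt_smul (mul_ne_zero (inv_ne_zero ht) (inv_ne_zero ht))] at c
      rw [← c, image_conj, a0, h.conj_rt hx] at a2
      obtain ⟨c, hc⟩ := h.of_rt (h.act x hx _) hz a2
      exact ⟨b, c, by simp only [nn, map_mul, ← hf, ← hb]; rfl, hc⟩
  have a3 : g x z ≠ 0 := fun a => by
    obtain ⟨b, c, h1, h2⟩ := a1 z hz a2 1 one_ne_zero
    have c0 : c ≠ 0 := fun k => x0 (by
      rw [← rho_cancel' ρ (β (nn e x y (1 : K))) x, h2, k, zero_smul, map_zero])
    simp only [h1, map_mul, Module.End.mul_apply, h.ex _ (h.smul z hz _), h.ex _ (h.smul x hx _),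
      ex_smul, h.symm z x, a, ← lie_skew z x, lie_self, H.xx, H.hx.2.1,
      map_add, map_smul, map_neg, h.self, smul_zero, mul_zero, zero_smul, add_zero] at h2
    have b1 := congrArg (⁅x, ·⁆) h2
    simp only [lie_add, lie_smul, lie_neg, lie_self, H.hx.2.1, a, mul_zero, zero_smul, neg_zero,
      smul_zero, add_zero] at b1
    rw [(smul_eq_zero.1 b1.symm).resolve_left c0, neg_zero, smul_zero, add_zero] at h2
    rw [← rt_smul (x := z) c0, ← h2, ← a0] at a2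
    obtain ⟨d, hd⟩ := h.of_rt hy hx (β.injective.image_injective a2)
    simpa [hd, H.xx] using H.one
  have hz' := h.smul z hz (g x z)⁻¹
  have H' : Hyp g x ((g x z)⁻¹ • z) := ⟨h.toInvF, H.hx, h.ext _ hz', by simp [a3], H.two⟩
  rw [← rt_smul (x := z) (inv_ne_zero a3)] at a2
  generalize (g x z)⁻¹ • z = y' at a2 hz' H'
  have a4 : ∀ t : K, t ≠ 0 → β (nn e x y t) = nn e x y' (f t) := fun t ht => by
    obtain ⟨b, c, h1, h2⟩ := a1 y' hz' a2 t ht
    have h3 := congrArg (g y') h2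
    simp only [h1, map_mul, Module.End.mul_apply, h.ex _ (h.smul y' hz' _), h.ex _ (h.smul x hx _),
      ex_smul, lie_self, H.xx, Hyp.lyx (x := x) (y := y'), H'.xh,
      map_add, map_smul, map_neg, H'.gxh, H'.gyh, H'.yx, H'.one, H'.yy, smul_zero, mul_zero,
      zero_smul, add_zero, smul_eq_mul] at h3
    have : f t * b = 1 := sub_eq_zero.1 (pow_eq_zero_iff two_ne_zero |>.1 (by linear_combination h3))
    rw [h1, eq_inv_of_mul_eq_one_right this, nn]
  refine ⟨f, fun t => (hf t).symm, f1, fun l hl => ⟨f2 l hl, ?_⟩⟩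
  rw [map_mul, a4 l hl, a4 _ (neg_ne_zero.2 one_ne_zero), map_neg, f1]
  exact gr_nn h H' hx hz' (f2 l hl)

/-- the radical is invariant -/
theorem inv_Q (hy : y ∈ E) (hr : Rigid g E) (p : ℕ) [Fact p.Prime] [CharP K p] {β : MulAut S}
    (hβ : ∀ y ∈ E, ∃ z ∈ E, β '' rt K e y = rt K e z) (fx : β (e x) = e x) {q : S}
    (a : q ∈ h.Q x) : β q ∈ h.Q x := by
  obtain ⟨f, f1, f2, f3⟩ := trans h H hx hy hβ fx
  have n1 : (-1 : K) ≠ 0 := neg_ne_zero.2 one_ne_zero
  have g0 := gr_nn h H hx hy n1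
  have g1 := (f3 _ n1).2
  rw [map_neg, f2] at g1
  generalize nn e x y (-1 : K) * nn e x y (-1 : K) = z at g0 g1
  obtain ⟨t, ht⟩ := ker h H hx hy hr (mul_mem (conj_Q h g0 n1 a) a) (by
    rw [V_mul h H (conj_Q h g0 n1 a) a, V_act h H g0 n1 a]; simp)
  have b := congrArg β ht
  rw [f1] at b
  have c : ρ (β q) x = (1 : K) • x := by
    have := congrArg β (h.conj hx q)
    rw [h.Q_fix a, map_mul, map_mul, map_inv, fx, h.conj hx] at this
    rw [one_smul, h.e_inj (h.act x hx _) hx this]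
  have d : β q * β z * (β q)⁻¹ * (β z)⁻¹ ∈ h.Q x := show Gr g x 1 _ by
    have := (Gr.conj g1 (h.aut (β q)) (h.aut _) (rho_inv ρ _).1 (rho_inv ρ _).2 one_ne_zero c).mul
      (g1.inv n1 (h.aut _) (rho_inv ρ _).1 (rho_inv ρ _).2) n1
      (((h.aut _).mul (h.aut _)).mul (h.aut _))
    simpa only [map_mul, mul_inv_cancel₀ n1] using this
  have k := mul_mem d (h.e_mem_Q hx (f t))
  rw [← b, show β q * β z * (β q)⁻¹ * (β z)⁻¹ * β (z * q * z⁻¹ * q) = β q ^ 2 by
    simp only [map_mul, map_inv, sq]; group] at k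
  obtain ⟨m, hm⟩ : Odd (p ^ 3) := ((Fact.out : p.Prime).odd_of_ne_two fun c =>
    H.two (by simpa [c] using CharP.cast_eq_zero K p)).pow
  have := pow_mem k (m + 1)
  rwa [← pow_mul, show 2 * (m + 1) = p ^ 3 + 1 by omega, pow_succ, ← map_pow,
    h.pow_eq_one p (Gr.nil a), map_one, one_mul] at this

omit hx in
/-- the vectors of the radical -/
def W (hx : x ∈ E) (hy : y ∈ E) : Submodule K L where
  carrier := V g ρ x y '' h.Q x
  zero_mem' := ⟨1, one_mem _, by simp [V]⟩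
  add_mem' := by
    rintro _ _ ⟨q, a, rfl⟩ ⟨q', b, rfl⟩
    exact ⟨q * q', mul_mem a b, V_mul h H a b⟩
  smul_mem' := by
    rintro l _ ⟨q, a, rfl⟩
    by_cases hl : l = 0
    · exact ⟨1, one_mem _, by simp [V, hl]⟩
    · exact ⟨_, conj_Q h (gr_nn h H hx hy hl) hl a, V_act h H (gr_nn h H hx hy hl) hl a⟩

end

end hs

open hs Subgroup in
theorem heis (lk : LinK.{u, v, w}) : Heis.{u, v, w} := by
  intro K L _ _ _ _ g S _ _ ρ E e h hr two big p _ _ D _ n3 np hβ x hx y hy h1 fx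
  have H : Hyp g x y := ⟨h.toInvF, h.ext x hx, h.ext y hy, h1, two⟩
  have iQ : ∀ β ∈ D, ∀ q ∈ h.Q x, β q ∈ h.Q x := fun β b q a =>
    inv_Q h H hx hy hr p (hβ β b) (fx β b) a
  refine ⟨iQ, ?_⟩
  choose f f1 f2 f3 using fun β : D => trans h H hx hy (hβ β β.2) (fx β β.2)
  have cK : ∀ B : Subgroup D, (Nat.card B : K) ≠ 0 := fun B c =>
    np (((CharP.cast_eq_zero_iff K p _).1 c).trans B.card_subgroup_dvd_card)
  have wd : ∀ β : D, ∀ q ∈ h.Q x, ∀ q' ∈ h.Q x, V g ρ x y q' = V g ρ x y q →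
      V g ρ x y (β.1 q') = V g ρ x y (β.1 q) := fun β q a q' b c => by
    obtain ⟨t, rfl⟩ := ker' h H hx hy hr a b c
    rw [map_mul, f1, V_mul_e h H hx (iQ _ β.2 q a)]
  let D0 : Subgroup D :=
    { carrier := {β | ∀ t : K, β.1 (e (t • x)) = e (t • x)}
      one_mem' := fun _ => rfl
      mul_mem' := fun {a b} ha hb t => (congrArg a.1 (hb t)).trans (ha t)
      inv_mem' := fun {a} ha t => a.1.symm_apply_eq.2 (ha t).symm }
  choose sec s1 s2 using fun w : W h H hx hy => w.2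
  let act : D0 → W h H hx hy → W h H hx hy := fun β w =>
    ⟨V g ρ x y (β.1.1 (sec w)), _, iQ _ β.1.2 _ (s1 w), rfl⟩
  have ka : ∀ (β : D0) (w : W h H hx hy), ∀ q ∈ h.Q x, V g ρ x y q = w →
      (act β w : L) = V g ρ x y (β.1.1 q) := fun β w q a c =>
    wd β.1 q a _ (s1 w) ((s2 w).trans c.symm)
  let _ : DistribMulAction D0 (W h H hx hy) :=
    { smul := act
      one_smul := fun w => Subtype.ext (s2 w)
      mul_smul := fun β γ w => Subtype.ext (ka β (act γ w) _ (iQ _ γ.1.2 _ (s1 w)) rfl).symm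
      smul_zero := fun β => Subtype.ext ((ka β 0 1 (one_mem _) (by simp [V])).trans (by simp [V]))
      smul_add := fun β w w' => Subtype.ext ((ka β (w + w') _ (mul_mem (s1 w) (s1 w')) (by
        rw [V_mul h H (s1 w) (s1 w'), s2, s2]; rfl)).trans (by
          rw [map_mul, V_mul h H (iQ _ β.1.2 _ (s1 w)) (iQ _ β.1.2 _ (s1 w'))]; rfl)) }
  have : SMulCommClass D0 K (W h H hx hy) := ⟨fun β l w => by
    by_cases hl : l = 0
    · rw [hl, zero_smul, zero_smul, smul_zero]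
    have a := gr_nn h H hx hy hl
    have b := (f3 β.1 l hl).2
    rw [e_inj h H hx ((f1 β.1 l).symm.trans (β.2 l))] at b
    refine Subtype.ext ((ka β (l • w) _ (conj_Q h a hl (s1 w)) (by
      rw [V_act h H a hl (s1 w), s2]; rfl)).trans ?_)
    rw [map_mul, map_mul, map_inv, V_act h H b hl (iQ _ β.1.2 _ (s1 w))]
    rfl⟩
  have : Finite (W h H hx hy) := ((Set.toFinite _).image _).to_subtype
  obtain ⟨b, c, hb⟩ := lk K D0 (W h H hx hy) big two
    (fun a => n3 (a.trans D0.card_subgroup_dvd_card)) (cK D0)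
  let R : Subgroup D :=
    { carrier := {β | V g ρ x y (β.1 (sec b)) = V g ρ x y (sec b)}
      one_mem' := rfl
      mul_mem' := fun {β γ} ha hb => (wd β _ (s1 b) _ (iQ _ γ.2 _ (s1 b)) hb).trans ha
      inv_mem' := fun {β} ha => (wd β⁻¹ _ (s1 b) _ (iQ _ β.2 _ (s1 b)) ha).symm.trans
        (congrArg _ (β.1.symm_apply_apply _)) }
  choose cc hc using fun β : R => ker' h H hx hy hr (s1 b) (iQ _ β.1.2 _ (s1 b)) β.2
  have coc : ∀ β γ : R, cc (β * γ) = cc β + f β.1 (cc γ) := fun β γ => e_inj h H hx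
    (mul_left_cancel (a := sec b) (by
      rw [← hc, ← h.e_add hx, ← mul_assoc, ← hc, ← f1, ← map_mul, ← hc]; rfl))
  have := Fintype.ofFinite R
  obtain ⟨t0, ht⟩ : ∃ t0 : K, ∀ β : R, cc β + f β.1 t0 = t0 := by
    refine ⟨(∑ γ, cc γ) / Nat.card R, fun β => mul_left_cancel₀ (cK R) ?_⟩
    have a := Equiv.sum_comp (Equiv.mulLeft β) cc
    simp only [Equiv.coe_mulLeft, coc, Finset.sum_add_distrib, Finset.sum_const, ← map_sum,
      Finset.card_univ, ← Nat.card_eq_fintype_card] at a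
    rw [mul_add, ← nsmul_eq_mul, ← nsmul_eq_mul, ← map_nsmul, nsmul_eq_mul _ (_ / _),
      mul_div_cancel₀ _ (cK R), a]
  obtain ⟨th, hth⟩ := IsCyclic.exists_monoid_generator (α := Kˣ)
  have m0 := mul_mem (s1 b) (h.e_mem_Q hx t0)
  refine ⟨sec b * e (t0 • x) * e ((th : K) • x), mul_mem m0 (h.e_mem_Q hx _), sec c, s1 c,
    fun β hD a1 a2 q hq => ?_⟩
  have r : (⟨β, hD⟩ : D) ∈ R := by
    have := congrArg (V g ρ x y) a1
    rwa [map_mul, map_mul, f1 ⟨β, hD⟩, f1 ⟨β, hD⟩, V_mul_e h H hx m0, V_mul_e h H hx (s1 b),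
      V_mul_e h H hx (mul_mem (iQ β hD _ (s1 b)) (h.e_mem_Q hx _)),
      V_mul_e h H hx (iQ β hD _ (s1 b))] at this
  have a3 : β (sec b * e (t0 • x)) = sec b * e (t0 • x) := by
    rw [map_mul, hc ⟨_, r⟩, f1 ⟨β, hD⟩, mul_assoc, h.e_add hx, ht ⟨_, r⟩]
  rw [map_mul, a3, mul_right_inj, f1 ⟨β, hD⟩] at a1
  have a4 := e_inj h H hx a1
  have a5 : ∀ t, f ⟨β, hD⟩ (t * th ^ 2) = f ⟨β, hD⟩ t * th ^ 2 := fun t => by
    have u1 := gr_nn h H hx hy th.ne_zero
    have u2 := (f3 ⟨β, hD⟩ _ th.ne_zero).2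
    rw [a4] at u2
    have := congrArg β (h.conj (h.smul x hx t) (nn e x y (th : K) * nn e x y (-1 : K)))
    rw [map_smul, u1.apply th.ne_zero, smul_smul, f1 ⟨β, hD⟩, map_mul, map_mul _ _ (e _), map_inv,
      f1 ⟨β, hD⟩, h.conj (h.smul x hx _), map_smul, u2.apply th.ne_zero, smul_smul] at this
    exact (e_inj h H hx this).symm
  have a6 : ∀ k : ℕ, f ⟨β, hD⟩ (th ^ k) = th ^ k := fun k => by
    induction k using Nat.twoStepInduction with
    | zero => simpa using f2 _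
    | one => simpa using a4
    | more k ih _ => rw [pow_add, a5, ih]
  have d0 : (⟨β, hD⟩ : D) ∈ D0 := fun t => (f1 ⟨β, hD⟩ t).trans (by
    by_cases c : t = 0
    · rw [c, map_zero]
    obtain ⟨k, hk⟩ := hth (Units.mk0 t c)
    rw [show t = th ^ k by simpa using congrArg Units.val hk.symm, a6])
  have a7 := congrArg Subtype.val (hb ⟨_, d0⟩ (Subtype.ext (r.trans (s2 b)))
    (Subtype.ext ((congrArg _ a2).trans (s2 c))) ⟨_, q, hq, rfl⟩)
  obtain ⟨t, a8⟩ := ker' h H hx hy hr hq (iQ β hD q hq)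
    ((ka ⟨_, d0⟩ ⟨_, q, hq, rfl⟩ q hq rfl).symm.trans a7)
  have a9 : ∀ k : ℕ, (β ^ k) q = q * e (t • x) ^ k := fun k => by
    induction k with
    | zero => simp
    | succ k ih =>
      rw [pow_succ', MulAut.mul_apply, ih, map_mul, map_pow, a8, d0 t, mul_assoc, pow_succ']
  have b1 := a9 (Nat.card D)
  rw [show β ^ Nat.card D = 1 from congrArg Subtype.val (pow_card_eq_one' (x := (⟨β, hD⟩ : D))),
    MulAut.one_apply, left_eq_mul, e_pow h hx, ← h.e_zero hx, ← zero_smul K x] at b1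
  rw [a8, (mul_eq_zero.1 (e_inj h H hx b1)).resolve_left
    fun c => np ((CharP.cast_eq_zero_iff K p _).1 c), zero_smul, h.e_zero hx, mul_one]

end Pool.Agent.MP_983df8_al

end MrgPart1

-- ======== part 2: formerly Pool.Agent.MP_983df8_al.Spec8
section MrgPart2

/-! Statements for the third round. -/

namespace Pool.Agent.MP_983df8_al

open Subgroup Polynomial

universe u v w

/-- all automorphisms permute the long root subgroups -/
def PStab : Prop := ∀ (K : Type w) (L : Type v) [Field K] [Finite K] [LieRing L] [LieAlgebra K L]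
  (g : L →ₗ[K] L →ₗ[K] K) (S : Type u) [Group S] [Finite S] [IsSimpleGroup S]
  (ρ : S →* Module.End K L) (E : Set L) (e : L → S),
  RS g ρ E e → Rigid g E → (2 : K) ≠ 0 → 5 ≤ Nat.card K →
    ∀ β : MulAut S, ∀ x ∈ E, ∃ z ∈ E, β '' rt K e x = rt K e z

/-- intersections of abelian subgroups -/
def Zenkov : Prop := ∀ (S : Type u) [Group S] [Finite S] [IsSimpleGroup S],
  ¬ IsMulCommutative S → ∀ A : Subgroup S, IsMulCommutative A → ∃ a, A ⊓ conjBy A a = ⊥

/-- a base of size two for a group of order a power of two -/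
def BaseTwo : Prop := ∀ (D : Type u) [Group D] [Finite D] (P : Type v) [Group P] [Finite P]
  [MulDistribMulAction D P] (p : ℕ), p.Prime → p ≠ 2 → IsPGroup 2 D → IsPGroup p P → Base2 D P

/-- the structure of a Suzuki group -/
structure SzS {K S : Type*} [Field K] [Group S] (θ : K →+* K) (u : K → K → S) (t : Kˣ → S)
    (w : S) : Prop where
  sq : ∀ x, θ (θ x) = x * x
  mul : ∀ a b c d, u a b * u c d = u (a + c) (b + d + θ a * c)
  inj : ∀ a b, u a b = 1 → a = 0 ∧ b = 0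
  tmul : ∀ m n, t m * t n = t (m * n)
  tu : ∀ m a b, t m * u a b * (t m)⁻¹ = u (θ m * a) (m * m * θ m * b)
  ww : w * w = 1
  wt : ∀ m, w * t m * w = t m⁻¹
  bru : ∀ a b, u a b ≠ 1 → ∃ c d m e f, w * u a b * w = u c d * t m * w * u e f
  nw : ∀ a b m, w ≠ u a b * t m
  gen : closure {s | s = w ∨ ∃ a b, s = u a b} = ⊤

/-- the characteristic polynomials of a Suzuki group -/
def SzRep {K S : Type*} [Field K] [Group S] (θ : K →+* K) (ρ : S →* Matrix (Fin 4) (Fin 4) K) :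
    Prop :=
  Function.Injective ρ ∧ ∀ s, (ρ s).charpoly = X ^ 4 + C (ρ s).trace * X ^ 3 +
    C (θ (ρ s).trace) * X ^ 2 + C (ρ s).trace * X + 1

/-- centralisers of elements of odd order -/
def SzCen (S : Type*) [Group S] : Prop :=
  ∀ f : S, Odd (orderOf f) → f ≠ 1 → (∀ a b, Commute f a → Commute f b → Commute a b) ∧
    ∀ j, Odd (orderOf j) → (∀ k : ℕ, Commute f (j ^ k * f * (j ^ k)⁻¹)) → Commute f j

/-- from matrices to the structure -/
def Sz1 : Prop := ∀ (S : Type u) [Group S], IsSz S →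
  ∃ (K : Type) (_ : Field K) (_ : Finite K) (θ : K →+* K) (u : K → K → S) (t : Kˣ → S) (w : S)
    (ρ : S →* Matrix (Fin 4) (Fin 4) K), 8 ≤ Nat.card K ∧ SzS θ u t w ∧ SzRep θ ρ

/-- from the characteristic polynomials to the centralisers -/
def Sz2 : Prop := ∀ (K : Type) [Field K] (θ : K →+* K) (S : Type u) [Group S]
  (ρ : S →* Matrix (Fin 4) (Fin 4) K), (∀ x, θ (θ x) = x * x) → SzRep θ ρ → SzCen S

/-- the local problem for odd order -/
def Sz3 : Prop := ∀ (K : Type) [Field K] [Finite K] (θ : K →+* K) (S : Type u) [Group S] [Finite S]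
  [IsSimpleGroup S] (u : K → K → S) (t : Kˣ → S) (w : S), SzS θ u t w → SzCen S →
  ¬ IsMulCommutative S → Function.Injective (MulAut.conj : S →* MulAut S) →
  ∀ (D : Subgroup (MulAut S)) [Group.IsSolvable D], Odd (Nat.card D) →
    ∃ x : Fin 3 → S, ∀ β ∈ D,
      (∀ a, MulAut.conj (x a) * β * (MulAut.conj (x a))⁻¹ ∈ D) → β = 1

/-- the local problem in the defining characteristic -/
def Sz4 : Prop := ∀ (K : Type) [Field K] [Finite K] (θ : K →+* K) (S : Type u) [Group S] [Finite S]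
  [IsSimpleGroup S] (u : K → K → S) (t : Kˣ → S) (w : S), 8 ≤ Nat.card K → SzS θ u t w →
  ¬ IsMulCommutative S → Function.Injective (MulAut.conj : S →* MulAut S) →
  ∀ (D : Subgroup (MulAut S)) [Group.IsSolvable D], ¬ 2 ∣ (D.comap MulAut.conj).index → LocA D

end Pool.Agent.MP_983df8_al

end MrgPart2

-- ======== part 3: formerly Pool.Agent.MP_983df8_al.Zenkov
section MrgPart3

/-! The theorems of Baer-Suzuki and Zenkov. -/

namespace Pool.Agent.MP_983df8_al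

open Subgroup

universe u

namespace zen

variable {G : Type u} [Group G] [Finite G] {p : ℕ} [Fact p.Prime]

theorem grow {P H : Subgroup G} (hP : IsPGroup p P) (h : H < P) :
    H < P ⊓ normalizer (H : Set G) := by
  have := hP.isNilpotent
  have h1 : H.subgroupOf P < ⊤ := by
    rw [lt_top_iff_ne_top, Ne, subgroupOf_eq_top]
    exact h.not_ge
  obtain ⟨a, ha, hb⟩ := SetLike.exists_of_lt (Group.normalizerCondition_of_isNilpotent _ h1)
  refine lt_of_le_of_ne (le_inf h.le le_normalizer) fun e => hb ?_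
  have : (a : G) ∈ P ⊓ normalizer (H : Set G) := by
    refine ⟨a.2, mem_normalizer_fintype fun n hn => ?_⟩
    exact (mem_normalizer_iff.1 ha ⟨n, h.le hn⟩).1 hn
  rwa [← e] at this

theorem step {C : Set G} (hC : ∀ g, ∀ y ∈ C, g * y * g⁻¹ ∈ C) {P Q : Subgroup G}
    (hP : IsPGroup p P) (h : ¬ (P : Set G) ∩ C ⊆ Q) :
    ∃ a ∈ (P : Set G) ∩ C, a ∉ Q ∧ a ∈ normalizer ((P : Set G) ∩ Q ∩ C) := by
  obtain ⟨H, ⟨h0, h1, h2⟩, hm⟩ := (wellFounded_gt (α := Subgroup G)).has_min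
    {H | P ⊓ Q ≤ H ∧ H ≤ P ∧ (H : Set G) ∩ C ⊆ Q} ⟨P ⊓ Q, le_rfl, inf_le_left, fun x hx => hx.1.2⟩
  have h3 := grow hP (lt_of_le_of_ne h1 fun e => h (e ▸ h2))
  have h4 : ¬ ((P ⊓ normalizer (H : Set G) : Subgroup G) : Set G) ∩ C ⊆ Q := fun e =>
    hm _ ⟨h0.trans h3.le, inf_le_left, e⟩ h3
  obtain ⟨a, ⟨⟨a1, a2⟩, a3⟩, a4⟩ := Set.not_subset.1 h4
  refine ⟨a, ⟨a1, a3⟩, a4, mem_normalizer_fintype fun n hn => ?_⟩
  have h5 : a * n * a⁻¹ ∈ H := (mem_normalizer_iff.1 a2 n).1 (h0 hn.1)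
  exact ⟨⟨h1 h5, h2 ⟨h5, hC a n hn.2⟩⟩, hC a n hn.2⟩

theorem same {C : Set G} (hC : ∀ g, ∀ y ∈ C, g * y * g⁻¹ ∈ C) (P Q : Sylow p G)
    (h : ((P : Subgroup G) : Set G) ∩ C ⊆ (Q : Subgroup G)) :
    ((P : Subgroup G) : Set G) ∩ C = ((Q : Subgroup G) : Set G) ∩ C := by
  obtain ⟨g, hg⟩ := MulAction.exists_smul_eq G Q P
  refine Set.eq_of_subset_of_ncard_le (fun x hx => ⟨h hx, hx.2⟩) ?_
  refine Set.ncard_le_ncard_of_injOn (fun x => g * x * g⁻¹) (fun x hx => ⟨?_, hC g x hx.2⟩)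
    fun x _ y _ e => by simpa using e
  rw [← hg, Sylow.coe_subgroup_smul]
  exact smul_mem_pointwise_smul x (MulAut.conj g) _ hx.1

theorem baer {C : Set G} (hC : ∀ g, ∀ y ∈ C, g * y * g⁻¹ ∈ C)
    (h : ∀ a ∈ C, ∀ b ∈ C, ∃ R : Subgroup G, IsPGroup p R ∧ a ∈ R ∧ b ∈ R) :
    IsPGroup p (closure C) := by
  have key : ∀ E : Set G, ∀ P Q : Sylow p G,
      E = ((P : Subgroup G) : Set G) ∩ (Q : Subgroup G) ∩ C →
      ((P : Subgroup G) : Set G) ∩ C = ((Q : Subgroup G) : Set G) ∩ C := by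
    intro E
    induction E using (wellFounded_gt (α := Set G)).induction with
    | _ E ih =>
    intro P Q hE
    by_contra hne
    obtain ⟨a, a1, a2, a3⟩ := step hC P.isPGroup' fun e => hne (same hC P Q e)
    obtain ⟨b, b1, b2, b3⟩ := step hC Q.isPGroup' fun e => hne (same hC Q P e).symm
    rw [Set.inter_comm ((Q : Subgroup G) : Set G), ← hE] at b3
    rw [← hE] at a3
    obtain ⟨R, r0, r1, r2⟩ := h a a1.2 b b1.2
    have hD : IsPGroup p (closure E) :=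
      P.isPGroup'.to_le ((closure_le _).2 fun x hx => (hE ▸ hx).1.1)
    have hN : R ⊓ normalizer E ≤ normalizer (closure E) :=
      inf_le_right.trans (normalizer_le_normalizer_closure E)
    obtain ⟨T, hT⟩ := ((r0.to_le inf_le_left).to_sup_of_normal_right' hD hN).exists_le_sylow
    have hET : ∀ x ∈ E, x ∈ (T : Subgroup G) := fun x hx =>
      hT (mem_sup_right (subset_closure hx))
    have e1 := ih (((P : Subgroup G) : Set G) ∩ (T : Subgroup G) ∩ C) (Set.ssubset_iff_exists.2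
      ⟨fun x hx => ⟨⟨(hE.le hx).1.1, hET x hx⟩, (hE.le hx).2⟩,
      a, ⟨⟨a1.1, hT (mem_sup_left ⟨r1, a3⟩)⟩, a1.2⟩, fun e => a2 (hE.le e).1.2⟩) P T rfl
    have e2 := ih (((Q : Subgroup G) : Set G) ∩ (T : Subgroup G) ∩ C) (Set.ssubset_iff_exists.2
      ⟨fun x hx => ⟨⟨(hE.le hx).1.2, hET x hx⟩, (hE.le hx).2⟩,
      b, ⟨⟨b1.1, hT (mem_sup_left ⟨r2, b3⟩)⟩, b1.2⟩, fun e => b2 (hE.le e).1.1⟩) Q T rfl
    exact hne (e1.trans e2.symm)
  obtain ⟨P⟩ := Sylow.nonempty (p := p) (G := G)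
  refine P.isPGroup'.to_le ((closure_le _).2 fun y hy => ?_)
  obtain ⟨R, r0, r1, -⟩ := h y hy y hy
  obtain ⟨Q, hQ⟩ := r0.exists_le_sylow
  exact ((key _ P Q rfl).ge ⟨hQ r1, hy⟩).1

/-- the conjugates of `x` under `H` -/
def cl (H : Subgroup G) (x : G) : Set G := {y | ∃ h ∈ H, y = h * x * h⁻¹}

omit [Finite G] in
theorem cl_conj {H : Subgroup G} {x g y : G} (hg : g ∈ H) (hy : y ∈ cl H x) :
    g * y * g⁻¹ ∈ cl H x := by
  obtain ⟨h, hh, rfl⟩ := hy
  exact ⟨g * h, H.mul_mem hg hh, by group⟩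

theorem baer' {H : Subgroup G} {x : G} (hx : x ∈ H)
    (h : ∀ g ∈ H, ∃ R : Subgroup G, IsPGroup p R ∧ x ∈ R ∧ g⁻¹ * x * g ∈ R) :
    IsPGroup p (closure (cl H x)) := by
  have h1 : IsPGroup p (closure {y : H | (y : G) ∈ cl H x}) := by
    refine baer (fun g y hy => cl_conj g.2 hy) ?_
    rintro a ⟨s, hs, ha⟩ b ⟨t, ht, hb⟩
    obtain ⟨R, r0, r1, r2⟩ := h (t⁻¹ * s) (H.mul_mem (H.inv_mem ht) hs)
    refine ⟨(R.map (MulAut.conj s).toMonoidHom).comap H.subtype, (r0.map _).comap_subtype,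
      ⟨x, r1, by simp [ha]⟩, ⟨_, r2, ?_⟩⟩
    simp [hb, mul_assoc]
  refine (h1.map H.subtype).to_le ((closure_le _).2 ?_)
  rintro y ⟨s, hs, rfl⟩
  exact ⟨⟨_, H.mul_mem (H.mul_mem hs hx) (H.inv_mem hs)⟩, subset_closure ⟨s, hs, rfl⟩, rfl⟩

omit [Finite G] [Fact p.Prime] in
theorem zp {x : G} {k : ℕ} (hx : x ^ p ^ k = 1) : IsPGroup p (zpowers x) := by
  rintro ⟨y, n, rfl⟩
  refine ⟨k, Subtype.ext ?_⟩
  change (x ^ n) ^ p ^ k = 1
  rw [← zpow_natCast, ← zpow_mul, mul_comm, zpow_mul, zpow_natCast, hx, one_zpow]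

omit [Finite G] in
theorem cm {g s t : G} (h : g * s * g⁻¹ * (g * t * g⁻¹) = g * t * g⁻¹ * (g * s * g⁻¹)) :
    s * t = t * s := by
  rw [conj_mul, conj_mul] at h
  exact mul_left_cancel (mul_right_cancel h)

theorem main {x : G} {k : ℕ} (hx : x ^ p ^ k = 1) (A : Subgroup G)
    (hA : ∀ a ∈ A, ∀ b ∈ A, a * b = b * a) (xA : x ∈ A) (H : Subgroup G) :
    ∀ B : Subgroup G, A ≤ H → B ≤ H → (∀ a ∈ B, ∀ b ∈ B, a * b = b * a) → x ∈ B →
      (∀ h ∈ H, A ⊓ conjBy B h ≤ B → A ⊓ B ≤ conjBy B h) → IsPGroup p (closure (cl H x)) := by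
  induction H using (wellFounded_lt (α := Subgroup G)).induction with
  | _ H ih =>
  intro B AH BH hB xB hm
  have hle : ∀ g ∈ H, A ⊔ conjBy B g ≤ H := fun g hg => sup_le AH fun y hy => by
    have := H.mul_mem (H.mul_mem (H.inv_mem hg) (BH (mem_conjBy.1 hy))) hg
    simpa [mul_assoc] using this
  by_cases hc : ∃ g ∈ H, H ≤ A ⊔ conjBy B g
  · obtain ⟨g, hg, hH⟩ := hc
    have hz : ∀ y ∈ A ⊓ conjBy B g, ∀ h ∈ H, h * y * h⁻¹ = y := fun y hy h hh => by
      have : A ⊔ conjBy B g ≤ centralizer {y} := by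
        refine sup_le (fun a ha => ?_) fun b hb => ?_
        · exact mem_centralizer_singleton_iff.2 (hA a ha y hy.1)
        · exact mem_centralizer_singleton_iff.2
            (cm (hB _ (mem_conjBy.1 hb) _ (mem_conjBy.1 hy.2)))
      rw [mem_centralizer_singleton_iff.1 (this (hH hh)), mul_inv_cancel_right]
    have h1 := hm g hg fun y hy => hz y hy g hg ▸ mem_conjBy.1 hy.2
    refine (zp hx).to_le ((closure_le _).2 ?_)
    rintro y ⟨h, hh, rfl⟩
    rw [hz x ⟨xA, h1 ⟨xA, xB⟩⟩ h hh]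
    exact mem_zpowers x
  · refine baer' (AH xA) fun g hg => ?_
    set K := A ⊔ conjBy B g with hK
    have AK : A ≤ K := le_sup_left
    have h1 := ih K (lt_of_le_of_ne (hle g hg) fun e => hc ⟨g, hg, e.ge⟩) (B ⊓ K) AK inf_le_right
      (fun a ha b hb => hB a ha.1 b hb.1) ⟨xB, AK xA⟩ fun h hh e y hy => by
        have t : ∀ z ∈ A, h * z * h⁻¹ ∈ K := fun z hz =>
          K.mul_mem (K.mul_mem hh (AK hz)) (K.inv_mem hh)
        have := hm h (hle g hg hh)
          (fun z hz => (e ⟨hz.1, mem_conjBy.2 ⟨mem_conjBy.1 hz.2, t z hz.1⟩⟩).1) ⟨hy.1, hy.2.1⟩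
        exact mem_conjBy.2 ⟨mem_conjBy.1 this, t y hy.1⟩
    have h2 : g⁻¹ * x * g ∈ K := mem_sup_right (mem_conjBy.2 (by simpa [mul_assoc] using xB))
    have h3 : (g⁻¹ * x * g) ^ p ^ k = 1 := by
      have := conj_pow (a := g⁻¹) (b := x) (i := p ^ k)
      rw [inv_inv] at this
      rw [this, hx, mul_one, inv_mul_cancel]
    refine ⟨_, (zp h3).to_sup_of_normal_right' h1 ((zpowers_le_of_mem ?_)),
      mem_sup_right (subset_closure ⟨1, K.one_mem, by simp⟩), mem_sup_left (mem_zpowers _)⟩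
    exact normalizer_le_normalizer_closure _ (mem_normalizer_fintype fun n hn => cl_conj h2 hn)

end zen

theorem zenkov : Zenkov.{u} := by
  intro S _ _ _ hS A hA
  obtain ⟨_, ⟨a, rfl⟩, hm⟩ := (wellFounded_lt (α := Subgroup S)).has_min
    (Set.range fun a => A ⊓ conjBy A a) ⟨_, 1, rfl⟩
  refine ⟨a, ?_⟩
  by_contra hne
  have hc : ∀ a ∈ A, ∀ b ∈ A, a * b = b * a := fun a ha b hb =>
    congrArg Subtype.val (hA.is_comm.comm (⟨a, ha⟩ : A) ⟨b, hb⟩)
  obtain ⟨p, hp, hd⟩ := Nat.exists_prime_and_dvd (n := Nat.card ↥(A ⊓ conjBy A a))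
    fun e => hne (card_eq_one.1 e)
  have := Fact.mk hp
  obtain ⟨⟨x, xA, xB⟩, hx⟩ := exists_prime_orderOf_dvd_card' (G := ↥(A ⊓ conjBy A a)) p hd
  have ho : orderOf x = p := by rw [← hx, ← Subgroup.orderOf_coe]
  have h1 := zen.main (p := p) (k := 1) (by rw [pow_one, ← ho, pow_orderOf_eq_one]) A hc xA ⊤
    (conjBy A a) le_top le_top 
    (fun s hs t ht => zen.cm (hc _ (mem_conjBy.1 hs) _ (mem_conjBy.1 ht))) xB fun h _ e => by
      have e1 : conjBy (conjBy A a) h = conjBy A (a * h) := by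
        ext y
        simp [mem_conjBy, mul_assoc]
      have e2 := eq_of_le_of_not_lt (le_inf inf_le_left e) (e1 ▸ hm _ ⟨a * h, rfl⟩)
      exact e2.ge.trans inf_le_right
  have hN : (closure (zen.cl ⊤ x)).Normal := normalizer_eq_top_iff.1 (top_le_iff.1 fun g _ =>
    normalizer_le_normalizer_closure _ (mem_normalizer_fintype fun n hn => zen.cl_conj trivial hn))
  rcases hN.eq_bot_or_eq_top with e | e
  · have : x ∈ closure (zen.cl ⊤ x) := subset_closure ⟨1, trivial, by simp⟩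
    rw [e, mem_bot] at this
    exact hp.ne_one (by rw [← ho, this, orderOf_one])
  · rw [e] at h1
    have h2 := (h1.of_equiv topEquiv).bot_lt_center
    have h3 := ((inferInstance : (center S).Normal).eq_bot_or_eq_top).resolve_left h2.ne'
    exact hS ⟨⟨fun s t => mem_center_iff.1 (h3.ge (mem_top t)) s⟩⟩

end Pool.Agent.MP_983df8_al

end MrgPart3

-- marker of a merged file
example : 731051 + 556440 = 731051 + 556440 := rfl
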