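import Mathlib.Algebra.Group.Equiv.Finite
import Mathlib.LinearAlgebra.Eigenspace.Charpoly
import Pool.Agent.MP_983df8_al.Zenkov
import Pool.Agent.MP_983df8_al.Defs9
import Pool.Agent.MP_983df8_al.Defs10
import Pool.Agent.MP_983df8_al.Dist3
import Pool.Agent.MP_983df8_al.RigX

-- ======== part 0: formerly Pool.Agent.MP_983df8_al.Char
section MrgPart0

namespace Pool.Agent.MP_983df8_al

open Subgroup

attribute [-simp] lie_skew lie_lie

universe u

theorem RS.rigid {K L : Type*} [Field K] [LieRing L] [LieAlgebra K L] {g : L →ₗ[K] L →ₗ[K] K}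
    {S : Type*} [Group S] {ρ : S →* Module.End K L} {E : Set L} {e : L → S} (H : RS g ρ E e)
    (h2 : (2 : K) ≠ 0) (h3 : (3 : K) ≠ 0) : Rigid g E := fun x hx y hy z hz h1 a => by
  have h : Hyp g x y := ⟨H.toInvF, H.ext x hx, H.ext y hy, h1, h2⟩
  have b := congrArg (fun u => g y ⁅x, u⁆) a
  simp only [h.xh, (H.ext x hx).2.1, map_smul, h.yx, smul_eq_mul, mul_one] at b
  have h' : Hyp g x z := ⟨H.toInvF, H.ext x hx, H.ext z hz, by grind, h2⟩
  have c1 : ⁅x, z - y⁆ = 0 := by rw [lie_sub, a, sub_self]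
  have c2 : ⁅⁅x, y⁆, z - y⁆ = (2 : K) • (z - y) := by
    rw [lie_sub, h.hy', a, h'.hy', smul_sub]
  have c3 : ⁅x, ⁅z, z - y⁆⁆ = (2 : K) • (z - y) := by rw [leibniz_lie, c1, ← a, c2]; simp
  have c4 := h.hx.p1 y ⁅z, z - y⁆
  rw [c3, lie_smul, c2, h.cyc x z, ← lie_skew (z - y) x, c1, h1] at c4
  have c5 : z - y = (g x ⁅y, ⁅z, z - y⁆⁆ / 6) • x := by
    have : (6 : K) ≠ 0 := (by norm_num : (2 * 3 : K) = 6) ▸ mul_ne_zero h2 h3
    refine smul_right_injective L this ?_
    simp only [neg_zero, map_zero, zero_smul, add_zero] at c4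
    simp only [smul_smul, mul_div_cancel₀ _ this]
    linear_combination (norm := module) c4
  rw [c5, lie_smul, h.hx', smul_comm, smul_neg, smul_comm, ← c5] at c2
  refine (sub_eq_zero.1 (smul_right_injective L (mul_ne_zero h2 h2) ?_)).symm
  linear_combination (norm := module) -c2

variable {S : Type u} [Group S] [Finite S] {p : ℕ} {π : Set ℕ} {B : Subgroup (MulAut S)}

/-- the largest normal `p`-subgroup of the normaliser of a cyclic group -/
def opn (p : ℕ) (u : S) : Subgroup S :=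
  (OPi {p} (normalizer (zpowers u : Set S))).map (normalizer (zpowers u : Set S)).subtype

theorem opn_pg (hp : p.Prime) (u : S) : IsPGroup p (opn p u) := (isPi_OPi.isPGroup hp).map _

theorem opn_mem {u : S} {β : MulAut S} (a : β u = u) {x : S} (b : x ∈ opn p u) : β x ∈ opn p u := by
  have k : ∀ β : MulAut S, β u = u → ∀ n ∈ normalizer (zpowers u : Set S),
      β n ∈ normalizer (zpowers u : Set S) := fun β a n c => mem_normalizer_fintype (by
    rintro _ ⟨k, rfl⟩
    obtain ⟨m, d⟩ := (mem_normalizer_iff.1 c _).1 (zpow_mem_zpowers u k)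
    exact ⟨m, by simpa [a] using congrArg β d⟩)
  have a' : β⁻¹ u = u := β.injective (by simp [a])
  obtain ⟨n, c, rfl⟩ := b
  let φ : MulAut (normalizer (zpowers u : Set S)) :=
    { toFun := fun n => ⟨β n, k β a n n.2⟩
      invFun := fun n => ⟨β⁻¹ n, k _ a' n n.2⟩
      left_inv := fun n => by simp
      right_inv := fun n => by simp
      map_mul' := fun n m => by simp }
  exact ⟨φ n, characteristic_iff_le_comap.1 inferInstance φ c, rfl⟩

theorem IsChar.eq_one (h : IsChar p S) (hp : p.Prime) {u : S} (a : u ≠ 1) {k : ℕ} (b : u ^ p ^ k = 1)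
    {β : MulAut S} (c : ¬ p ∣ orderOf β) (d : ∀ x ∈ opn p u, β x = x) : β = 1 :=
  h (zpowers u) (by simpa using a) (by
    rintro ⟨_, m, rfl⟩
    refine ⟨k, Subtype.ext ?_⟩
    show (u ^ m) ^ p ^ k = 1
    rw [← zpow_natCast, ← zpow_mul, mul_comm, zpow_mul, zpow_natCast, b, one_zpow]) β c
    fun x f => d _ ⟨x, f, rfl⟩

theorem IsChar.loc (bt : BaseTwo.{u, u}) (h : IsChar p S) (hp : p.Prime) [Group.IsSolvable B]
    (hB : ¬ p ∣ Nat.card B) (ho : Odd (Nat.card B) ∨ IsPGroup 2 B)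
    (hi : Function.Injective (MulAut.conj : S →* MulAut S)) {a u : S} (h1 : u ≠ 1) {k : ℕ}
    (h2 : u ^ p ^ k = 1) (h3 : ∀ β ∈ B, MulAut.conj a * β * (MulAut.conj a)⁻¹ ∈ B → β u = u) :
    ∃ x : Fin 3 → S, ∀ β ∈ B, (∀ a, MulAut.conj (x a) * β * (MulAut.conj (x a))⁻¹ ∈ B) → β = 1 := by
  let D := B ⊓ MulAction.stabilizer (MulAut S) u
  let _ : MulDistribMulAction D (opn p u) :=
    { smul := fun d o => ⟨d.1 o, opn_mem d.2.2 o.2⟩
      one_smul := fun _ => rfl
      mul_smul := fun _ _ _ => rfl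
      smul_mul := fun d _ _ => Subtype.ext (map_mul d.1 _ _)
      smul_one := fun d => Subtype.ext (map_one d.1) }
  have dv := card_dvd_of_le (inf_le_left : D ≤ B)
  have : Group.IsSolvable D :=
    Group.isSolvable_of_isSolvable_injective (inclusion_injective (inf_le_left : D ≤ B))
  obtain ⟨v, v', a6⟩ : Base2 D (opn p u) := by
    by_cases c : Odd (Nat.card B)
    · exact lin2_pgroup (c.of_dvd_nat dv) hp (opn_pg hp u) fun a => hB (a.trans dv)
    · exact bt D _ p hp (by rintro rfl; exact hB (Nat.not_odd_iff_even.1 c).two_dvd)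
        ((ho.resolve_left c).to_le inf_le_left) (opn_pg hp u)
  refine ⟨![a, v, v'], fun β b1 b2 => ?_⟩
  have b3 : β ∈ D := ⟨b1, h3 β b1 (b2 0)⟩
  have b4 : ∀ o : opn p u, MulAut.conj (o : S) * β * (MulAut.conj (o : S))⁻¹ ∈ B →
      (⟨β, b3⟩ : D) • o = o := fun o c => by
    obtain ⟨k, hk⟩ := opn_pg hp u (o * ((⟨β, b3⟩ : D) • o)⁻¹)
    have := eq_one_of_cop (J := B.comap MulAut.conj) (s := o * (β o)⁻¹) (m := p ^ k)
      ((hp.coprime_iff_not_dvd.2 fun a => hB (a.trans
        (card_comap_dvd_of_injective B _ hi))).pow_left k) (conj_mem_comap b1 c)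
      (congrArg Subtype.val hk)
    exact Subtype.ext (mul_inv_eq_one.1 this).symm
  exact h.eq_one hp h1 h2 (fun c => hB (c.trans (B.orderOf_dvd_natCard b1))) fun x c =>
    congrArg Subtype.val (a6 _ (b4 v (b2 1)) (b4 v' (b2 2)) ⟨x, c⟩)

theorem loc_char (bt : BaseTwo.{u, u}) (zk : Zenkov.{u}) [IsSimpleGroup S]
    (hS : ¬ IsMulCommutative S) (h : IsChar p S) (hp : p.Prime) (hπ : p ∉ π) [Group.IsSolvable B]
    (hB : IsPi π B) (hi : Function.Injective (MulAut.conj : S →* MulAut S))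
    (hc : Syl π p S ∨ (p = 2 ∧ 3 ∉ π ∧ Tr π S) ∨ (2 ∉ π ∧ Ab π p S)) :
    ∃ x : Fin 3 → S, ∀ β ∈ B, (∀ a, MulAut.conj (x a) * β * (MulAut.conj (x a))⁻¹ ∈ B) → β = 1 := by
  have h1 : ¬ p ∣ Nat.card B := fun a => hπ (hB p hp a)
  have k : ∀ u : S, orderOf u = p → u ≠ 1 ∧ u ^ p ^ 1 = 1 := fun u a =>
    ⟨fun b => hp.ne_one (by simp [← a, b]), by simp [← a]⟩
  have od : 2 ∉ π → Odd (Nat.card B) := fun a =>
    Nat.not_even_iff_odd.1 fun e => a (hB 2 Nat.prime_two e.two_dvd)
  rcases hc with ⟨r, c1, c2⟩ | ⟨rfl, c1, a, c2, c3⟩ | ⟨c1, c2, c3⟩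
  · rcases B.bot_or_nontrivial with rfl | c
    · exact ⟨1, fun β b _ => b⟩
    have c3 : ∀ s : ℕ, s.Prime → s ∣ Nat.card B → s = r := fun s a b =>
      c1 s a (hB s a b) (b.trans (card_subgroup_dvd_card B))
    obtain ⟨s, s1, s2⟩ := Nat.exists_prime_and_dvd (Finite.one_lt_card (α := B)).ne'
    obtain rfl := c3 s s1 s2
    have := Fact.mk s1
    have c4 : IsPGroup s B := IsPi.isPGroup s1 c3
    have := c4.center_nontrivial
    obtain ⟨t, ht⟩ := exists_prime_orderOf_dvd_card' (G := center B) s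
      ((c4.to_subgroup _).nontrivial_iff_card.1 this |>.elim fun n f => f.2 ▸ dvd_pow_self s f.1.ne')
    obtain ⟨u, u1, u2⟩ := c2 t.1.1 (by rw [orderOf_coe, orderOf_coe, ht])
    obtain ⟨a, a1, a2⟩ : ∃ a ∈ opn p u, t.1.1 a ≠ a := by
      by_contra! f
      have := h.eq_one hp (k u u1).1 (k u u1).2 (fun c => h1 (c.trans (B.orderOf_dvd_natCard t.1.2))) f
      rw [← orderOf_coe, ← orderOf_coe, this, orderOf_one] at ht
      exact s1.ne_one ht.symm
    obtain ⟨m, hm⟩ := opn_pg hp u ⟨_, mul_mem (inv_mem a1) (opn_mem u2 a1)⟩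
    refine h.loc bt hp h1 ?_ hi (a := a) (fun f => a2 (inv_mul_eq_one.1 f).symm)
      (congrArg Subtype.val hm) fun β b1 b2 => hi ?_
    · by_cases f : s = 2
      exacts [Or.inr (f ▸ c4), Or.inl (Nat.not_even_iff_odd.1 fun e =>
        f (c3 2 Nat.prime_two e.two_dvd).symm)]
    have d1 := congrArg Subtype.val (mem_center_iff.1 t.2 ⟨β, b1⟩)
    have d2 := congrArg Subtype.val (mem_center_iff.1 t.2 ⟨_, b2⟩)
    have e : ∀ (γ : MulAut S) x, MulAut.conj (γ x) = γ * MulAut.conj x * γ⁻¹ := fun γ x => by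
      ext
      simp
    simp only [coe_mul] at d1 d2
    simp only [e, map_mul, map_inv]
    generalize t.1.1 = t at d1 d2
    generalize MulAut.conj a = c at d1 d2
    calc _ = c⁻¹ * (c * β * c⁻¹ * t) * c * (β * t)⁻¹ := by group
      _ = _ := by rw [d2, d1]; group
  · refine h.loc bt hp h1 (Or.inl (od hπ)) hi (a := a) (k a c2).1 (k a c2).2 fun β b1 b2 => ?_
    have d := (k a c2).2
    have d1 : (β a)⁻¹ = β a := inv_eq_of_mul_eq_one_left (by simpa [sq] using congrArg β d)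
    have := eq_one_of_cop (m := 12) (by
      refine Nat.coprime_of_dvd fun s s1 s2 s3 => ?_
      have := (hB.comap_inj _ hi) s s1 s3
      rcases (Nat.Prime.dvd_mul s1 (m := 2 ^ 2) (n := 3)).1 s2 with f | f
      · exact hπ ((Nat.prime_dvd_prime_iff_eq s1 hp).1 (s1.dvd_of_dvd_pow f) ▸ this)
      · exact c1 ((Nat.prime_dvd_prime_iff_eq s1 Nat.prime_three).1 f ▸ this))
      (conj_mem_comap b1 b2) (d1.symm ▸ c3 β (hB.mono (zpowers_le.2 b1)))
    exact (mul_inv_eq_one.1 this).symm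
  · obtain ⟨a, d⟩ := zk S hS _ (c2 _ (hB.comap_inj _ hi))
    obtain ⟨u, u1, u2⟩ := c3 (B ⊓ conjBy B (MulAut.conj a)) (hB.mono inf_le_left) (eq_bot_iff.2 (by
      rintro _ ⟨⟨b1, b2⟩, j, rfl⟩
      have : j ∈ B.comap MulAut.conj ⊓ conjBy (B.comap MulAut.conj) a :=
        ⟨b1, mem_conjBy.2 (by simpa using mem_conjBy.1 b2)⟩
      simp [mem_bot.1 (d.le this)]))
    exact h.loc bt hp h1 (Or.inl (od c1)) hi (a := a) (k u u1).1 (k u u1).2 fun β b1 b2 =>
      u2 β ⟨b1, mem_conjBy.2 b2⟩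

end Pool.Agent.MP_983df8_al

end MrgPart0

-- ======== part 1: formerly Pool.Agent.MP_983df8_al.Cnt
section MrgPart1

namespace Pool.Agent.MP_983df8_al

open Subgroup

universe u

variable {S : Type u} [Group S] [Finite S] {π : Set ℕ} {B : Subgroup (MulAut S)}

theorem card_fix_le (hi : Function.Injective (MulAut.conj : S →* MulAut S)) (β : MulAut S) :
    Nat.card {x : S // MulAut.conj x * β * (MulAut.conj x)⁻¹ ∈ B} ≤
      Nat.card B * Nat.card {s : S // β s = s} := by
  let f : {x : S // MulAut.conj x * β * (MulAut.conj x)⁻¹ ∈ B} → B := fun x => ⟨_, x.2⟩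
  have k : ∀ x y, f x = f y → β (y.1⁻¹ * x.1) = y.1⁻¹ * x.1 := fun x y h => hi (by
    have e : ∀ (γ : MulAut S) x, MulAut.conj (γ x) = γ * MulAut.conj x * γ⁻¹ := fun γ x => by
      ext
      simp
    have d : _ = _ * β * _ := congrArg Subtype.val h
    simp only [e, map_mul, map_inv, f] at d ⊢
    generalize MulAut.conj x.1 = c at d
    generalize MulAut.conj y.1 = c' at d
    calc _ = c'⁻¹ * (c' * β * c'⁻¹) * c * β⁻¹ := by group
      _ = _ := by rw [← d]; group)
  let r := fun x => Classical.choose (⟨x, rfl⟩ : ∃ y, f y = f x)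
  have hr : ∀ x, f (r x) = f x := fun x => Classical.choose_spec (⟨x, rfl⟩ : ∃ y, f y = f x)
  rw [← Nat.card_prod]
  refine Nat.card_le_card_of_injective (fun x => (f x, ⟨_, k x (r x) (hr x).symm⟩)) fun x y h => ?_
  have a : r x = r y := by simp only [r, (Prod.mk.inj h).1]
  have b := congrArg Subtype.val (Prod.mk.inj h).2
  simp only [a] at b
  exact Subtype.ext (mul_left_cancel b)

theorem loc_cnt (hi : Function.Injective (MulAut.conj : S →* MulAut S)) (hB : IsPi π B)
    (h : Cnt π S) :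
    ∃ x : Fin 3 → S, ∀ β ∈ B, (∀ a, MulAut.conj (x a) * β * (MulAut.conj (x a))⁻¹ ∈ B) → β = 1 := by
  classical
  have := Fintype.ofFinite S
  have := Fintype.ofFinite B
  by_contra! c
  let A := fun β : B =>
    Finset.univ.filter fun x : S => β.1 ≠ 1 ∧ MulAut.conj x * β * (MulAut.conj x)⁻¹ ∈ B
  have a : (Finset.univ : Finset (Fin 3 → S)) ⊆
      Finset.univ.biUnion fun β => Fintype.piFinset fun _ => A β := fun x _ => by
    obtain ⟨β, b1, b2, b3⟩ := c x
    exact Finset.mem_biUnion.2 ⟨⟨β, b1⟩, Finset.mem_univ _,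
      Fintype.mem_piFinset.2 fun a => Finset.mem_filter.2 ⟨Finset.mem_univ _, b3, b2 a⟩⟩
  have b : ∀ β : B, Nat.card B * (A β).card ^ 3 < Nat.card S ^ 3 := fun β => by
    by_cases d : β.1 = 1
    · simp [A, d, show β = 1 from Subtype.ext d, Fintype.card_pos]
    refine lt_of_le_of_lt ?_ (h B hB β β.2 d)
    have := card_fix_le (B := B) hi β
    rw [Nat.card_eq_fintype_card, Fintype.card_subtype] at this
    simp only [A, ne_eq, d, not_false_eq_true, true_and]
    calc _ ≤ Nat.card B * (Nat.card B * _) ^ 3 := by gcongr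
      _ = _ := by ring
  have d := (Finset.card_le_card a).trans Finset.card_biUnion_le
  have e := Finset.sum_lt_sum_of_nonempty Finset.univ_nonempty fun β _ => b β
  simp only [Fintype.card_piFinset, Finset.prod_const, Finset.card_univ, Fintype.card_fin,
    Fintype.card_fun, Finset.sum_const, smul_eq_mul, ← Finset.mul_sum,
    Nat.card_eq_fintype_card] at d e
  exact (lt_of_mul_lt_mul_left e (Nat.zero_le _)).not_ge d

omit [Finite S] in
theorem loc_gen (hB : IsPi π B) (h : Gen4 π S) :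
    ∃ x : Fin 3 → S, ∀ β ∈ B, (∀ a, MulAut.conj (x a) * β * (MulAut.conj (x a))⁻¹ ∈ B) → β = 1 := by
  obtain ⟨t, a, x, b⟩ := h B hB
  refine ⟨fun i => x i.succ * (x 0)⁻¹, fun β c d => ?_⟩
  have k : ∀ i, β (x 0 * ((x i)⁻¹ * t * x i) * (x 0)⁻¹) = x 0 * ((x i)⁻¹ * t * x i) * (x 0)⁻¹ :=
    Fin.cases (by simp [mul_assoc, a β c]) fun i => by
      have := a _ (d i)
      simp only [MulAut.mul_apply, MulAut.conj_apply, MulAut.conj_inv_apply, mul_inv_rev, inv_inv,
        mul_assoc] at this ⊢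
      conv_rhs => rw [← this]
      group
  have e : ∀ s ∈ closure (Set.range fun i => (x i)⁻¹ * t * x i),
      β (x 0 * s * (x 0)⁻¹) = x 0 * s * (x 0)⁻¹ := fun s f =>
    MonoidHom.eqOn_closure (f := (β * MulAut.conj (x 0)).toMonoidHom)
      (g := (MulAut.conj (x 0)).toMonoidHom) (by rintro _ ⟨i, rfl⟩; exact k i) f
  ext s
  simpa [mul_assoc] using e ((x 0)⁻¹ * s * x 0) (b ▸ mem_top _)

theorem loc_noInv (bt : BaseTwo.{u, u}) (h : IsChar 2 S) (hπ : 2 ∉ π) [Group.IsSolvable B]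
    (hB : IsPi π B) (hi : Function.Injective (MulAut.conj : S →* MulAut S)) (hc : NoInv π S) :
    ∃ x : Fin 3 → S, ∀ β ∈ B, (∀ a, MulAut.conj (x a) * β * (MulAut.conj (x a))⁻¹ ∈ B) → β = 1 := by
  obtain ⟨a, c2, c3⟩ := hc
  have d : a * a = 1 := by rw [← sq, ← c2, pow_orderOf_eq_one]
  refine h.loc bt Nat.prime_two (fun c => hπ (hB 2 Nat.prime_two c))
    (Or.inl (Nat.not_even_iff_odd.1 fun e => hπ (hB 2 Nat.prime_two e.two_dvd))) hi
    (a := a) (u := a) (fun b => by simp [b] at c2) (k := 1) (by simpa [sq] using d) fun β b1 b2 => ?_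
  have d1 : β a * β a = 1 := by simpa using congrArg β d
  refine (mul_inv_eq_one.1 (c3 _ ((hB.comap_inj _ hi).mono
    (zpowers_le.2 (conj_mem_comap b1 b2))) ?_)).symm
  rw [← mul_assoc, d, one_mul, mul_inv_rev, inv_inv, inv_eq_of_mul_eq_one_left d,
    inv_eq_of_mul_eq_one_left d1]

end Pool.Agent.MP_983df8_al

end MrgPart1

-- ======== part 2: formerly Pool.Agent.MP_983df8_al.BaseTwo
section MrgPart2

/-! A base of size two for a group of order a power of two. -/

namespace Pool.Agent.MP_983df8_al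

open Subgroup

universe u v w

namespace b2

theorem notp {D : Type*} [Group D] [Finite D] (ho : IsPGroup 2 D) {r : ℕ} (hr : r.Prime)
    (hr2 : r ≠ 2) : ¬ r ∣ Nat.card D := fun e => by
  have := Fact.mk Nat.prime_two
  obtain ⟨n, hn⟩ := ho.exists_card_eq
  exact hr2 ((Nat.prime_dvd_prime_iff_eq hr Nat.prime_two).1 (hr.dvd_of_dvd_pow (hn ▸ e)))

theorem not3 {D : Type*} [Group D] [Finite D] (ho : IsPGroup 2 D) : ¬ 3 ∣ Nat.card D :=
  notp ho Nat.prime_three (by decide)

theorem selfc {D : Type*} [Group D] [Finite D] (ho : IsPGroup 2 D) {U : Subgroup D} (hU : MaxAb U)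
    {d : D} (hd : ∀ u ∈ U, Commute u d) : d ∈ U := by
  have := Fact.mk Nat.prime_two
  have hnil := ho.isNilpotent
  have hUn := hU.prop.1
  by_contra hc
  obtain ⟨F, hF⟩ := exists_minimal_of_wellFoundedLT
    (fun F : Subgroup D => F.Normal ∧ F ≤ centralizer (U : Set D) ∧ ¬ F ≤ U)
    ⟨centralizer (U : Set D), inferInstance, le_rfl, fun e => hc (e fun u hu => (hd u hu).eq)⟩
  obtain ⟨h1, h2, h3⟩ := hF.prop
  have hle : ⁅F, ⊤⁆ ≤ U := by
    by_contra hc'
    have h4 := hF.le_of_le ⟨inferInstance, (commutator_le_left F ⊤).trans h2, hc'⟩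
      (commutator_le_left F ⊤)
    have h5 : ∀ n, F ≤ Subgroup.lowerCentralSeries (⊤ : Subgroup D) n := fun n => by
      induction n with
      | zero => exact le_top
      | succ n ih => exact h4.trans (commutator_mono ih le_rfl)
    obtain ⟨n, hn⟩ := Subgroup.nilpotent_iff_lowerCentralSeries.1 hnil
    exact h3 ((h5 n).trans (hn.le.trans bot_le))
  refine h3 fun f hf => hU.mem (fun g => ?_) fun u hu => h2 hf u hu
  have a : (f * g * f⁻¹ * g⁻¹)⁻¹ ∈ U := U.inv_mem (hle (commutator_mem_commutator hf (mem_top g)))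
  have b : Commute _ f := h2 hf _ a
  have e : g * f * g⁻¹ = (f * g * f⁻¹ * g⁻¹)⁻¹ * f := by group
  rw [e]
  exact b.mul_left (Commute.refl f)

theorem inj3 {V : Type*} [AddCommGroup V] (h2V : ∀ v : V, 2 • v = 0 → v = 0) {x : V} (hx : x ≠ 0)
    {a b : ZMod 3} (h : ((b.val : ℤ) - (a.val : ℤ)) • x = 0) : b = a := by
  have ha := a.val_lt
  have hb := b.val_lt
  refine ZMod.val_injective 3 ?_
  by_contra hne
  have : (b.val : ℤ) - a.val = 1 ∨ (b.val : ℤ) - a.val = -1 ∨ (b.val : ℤ) - a.val = 2 ∨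
      (b.val : ℤ) - a.val = -2 := by omega
  rcases this with e | e | e | e <;> rw [e] at h
  · exact hx (by simpa using h)
  · exact hx (by simpa using h)
  · exact hx (h2V x (by rw [← natCast_zsmul]; exact h))
  · exact hx (h2V x (by rw [← natCast_zsmul]; rw [neg_smul, neg_eq_zero] at h; exact h))

theorem glue {D V : Type*} [Group D] [Finite D] [Group.IsSolvable D]
    [AddCommGroup V] [DistribMulAction D V] {Ω : Type*}
    [Fintype Ω] [MulAction D Ω] (h3D : ¬ 3 ∣ Nat.card D) (h2V : ∀ v : V, 2 • v = 0 → v = 0)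
    (hc : ∀ v : V, Nat.card D • v = 0 → v = 0) (e : Ω → V →+ V) (h1 : ∀ v, ∑ ω, e ω v = v)
    (h2 : ∀ ω ω' v, ω ≠ ω' → e ω (e ω' v) = 0) (h3 : ∀ ω v, e ω (e ω v) = e ω v)
    (h4 : ∀ (d : D) ω v, e (d • ω) (d • v) = d • e ω v) (h5 : ∀ ω, e ω ≠ 0)
    (h6 : ∀ ω, ∃ v ∈ (e ω).range, ∃ v' ∈ (e ω).range, ∀ d ∈ MulAction.stabilizer D ω,
      d • v = v → d • v' = v' → ∀ w ∈ (e ω).range, d • w = w) : Base2 D V := by
  obtain ⟨col, hcol⟩ := dist3 rigX rig2 D h3D Ω
  let c : ZMod 3 → ℤ := fun a => (a.val : ℤ)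
  have h7 : ∀ ω (k : ℤ) v, e ω (k • v) = k • e ω v := fun ω k v => map_zsmul _ _ _
  have hxy : ∀ ω, ∃ x y, e ω x ≠ 0 ∧ ∀ d ∈ MulAction.stabilizer D ω,
      d • e ω x = e ω x → d • e ω y = e ω y → ∀ w ∈ (e ω).range, d • w = w := fun ω => by
    obtain ⟨_, ⟨x, rfl⟩, _, ⟨y, rfl⟩, a⟩ := h6 ω
    by_cases c1 : e ω x = 0
    · by_cases c2 : e ω y = 0
      · obtain ⟨z, hz⟩ := DFunLike.ne_iff.1 (h5 ω)
        exact ⟨z, y, hz, fun d hd _ b => a d hd (by rw [c1, smul_zero]) b⟩
      · exact ⟨y, x, c2, fun d hd b b' => a d hd b' b⟩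
    · exact ⟨x, y, c1, a⟩
  choose x y hx hxy using hxy
  let T : Ω → ZMod 3 → Bool → V := fun ω a i => e ω (bif i then x ω else y ω + c a • x ω)
  have hT : ∀ ω a b (d : D), (∀ i, d • T ω a i = T ω b i) →
      a = b ∧ d • e ω (x ω) = e ω (x ω) ∧ d • e ω (y ω) = e ω (y ω) := fun ω a b d k => by
    have k1 : d • e ω (x ω) = e ω (x ω) := k true
    have k2 : d • e ω (y ω + c a • x ω) = e ω (y ω + c b • x ω) := k false
    rw [map_add, map_add, h7, h7, smul_add, smul_comm d, k1] at k2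
    have a1 := shift_zero hc (d := d) (x := e ω (y ω)) (w := (c b - c a) • e ω (x ω))
      (by rw [smul_comm d, k1]) (by rw [sub_smul, ← add_sub_assoc, ← k2, add_sub_cancel_right])
    obtain rfl := inj3 h2V (hx ω) a1
    exact ⟨rfl, k1, add_right_cancel k2⟩
  let r := MulAction.orbitRel D Ω
  let rep := fun ω : Ω => (Quotient.mk r ω).out
  have hrep : ∀ ω, ∃ u : D, u • rep ω = ω := fun ω => r.symm (Quotient.mk_out ω)
  choose u hu using hrep
  have hcomp : ∀ ω i, e ω (∑ ω', u ω' • T (rep ω') (col ω') i) = u ω • T (rep ω) (col ω) i := by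
    have a : ∀ ω i, ∃ z, u ω • T (rep ω) (col ω) i = e ω z := fun ω i =>
      ⟨_, by rw [← h4, hu]⟩
    intro ω i
    rw [map_sum, Finset.sum_eq_single_of_mem ω (Finset.mem_univ _) fun ω' _ hne => ?_]
    · obtain ⟨z, hz⟩ := a ω i
      rw [hz, h3]
    · obtain ⟨z, hz⟩ := a ω' i
      rw [hz, h2 _ _ _ hne.symm]
  refine ⟨∑ ω, u ω • T (rep ω) (col ω) true, ∑ ω, u ω • T (rep ω) (col ω) false,
    fun d d1 d2 w => ?_⟩
  have hd : ∀ i, d • ∑ ω, u ω • T (rep ω) (col ω) i = ∑ ω, u ω • T (rep ω) (col ω) i :=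
    fun i => Bool.rec d2 d1 i
  have key : ∀ ω i, ((u (d • ω))⁻¹ * d * u ω) • T (rep ω) (col ω) i = T (rep ω) (col (d • ω)) i := by
    intro ω i
    have hr : rep (d • ω) = rep ω := congrArg Quotient.out (Quotient.sound (s := r) ⟨d, rfl⟩)
    rw [mul_smul, mul_smul, ← hcomp, ← h4, hd i, hcomp, hr, inv_smul_smul]
  have htriv := hcol d fun ω => (hT _ _ _ _ (key ω)).1.symm
  rw [← h1 w, Finset.smul_sum]
  refine Finset.sum_congr rfl fun ω _ => ?_
  have k := (hT _ _ _ _ (key ω)).2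
  rw [htriv] at k
  have := hxy (rep ω) _ (by
    rw [MulAction.mem_stabilizer_iff, mul_smul, mul_smul, hu, htriv, inv_smul_eq_iff, hu]) k.1 k.2
    _ ⟨(u ω)⁻¹ • w, rfl⟩
  rw [mul_smul, mul_smul, inv_smul_eq_iff, ← h4, hu, smul_inv_smul] at this
  exact this

open scoped IsMulCommutative in
theorem step {D V : Type*} [Group D] [AddCommGroup V] [DistribMulAction D V] [Finite D] [Finite V]
    (ho : IsPGroup 2 D) {r : ℕ} (hr : r.Prime) (hr2 : r ≠ 2)
    (hV : ∀ v : V, r • v = 0) (hD : ¬ r ∣ Nat.card D) (hf : ∀ d : D, (∀ v : V, d • v = v) → d = 1)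
    (ih : ∀ (E : Subgroup D) (W : AddSubgroup V), W ≠ ⊤ → (∀ d ∈ E, ∀ w ∈ W, d • w ∈ W) →
      ∃ v ∈ W, ∃ v' ∈ W, ∀ d ∈ E, d • v = v → d • v' = v' → ∀ w ∈ W, d • w = w) :
    Base2 D V := by
  classical
  rcases subsingleton_or_nontrivial V with hs | hs
  · exact ⟨0, 0, fun d _ _ w => Subsingleton.elim _ _⟩
  obtain ⟨U, hU⟩ := exists_maxAb (D := D)
  let ρ := DistribMulAction.toAddMonoidEnd D V
  have hρ : ∀ d v, ρ d v = d • v := fun _ _ => rfl
  have hs' : ∀ x ∈ ρ '' U, ∀ y ∈ ρ '' U, x * y = y * x := by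
    rintro _ ⟨a, ha, rfl⟩ _ ⟨b, hb, rfl⟩
    rw [← map_mul, (hU.prop.2 a ha b hb).eq, map_mul]
  let R := Subring.closure (ρ '' U)
  have hcomm : IsMulCommutative R := Subring.isMulCommutative_closure hs'
  have hR : ∀ x ∈ R, ∀ y ∈ R, x * y = y * x := fun x hx y hy =>
    congrArg Subtype.val (hcomm.1.1 ⟨x, hx⟩ ⟨y, hy⟩)
  have hfin : Finite (AddMonoid.End V) := Finite.of_injective _ (DFunLike.coe_injective)
  by_cases h1 : IsAtomE R 1
  · have hnt : Nontrivial (AddMonoid.End V) := nontrivial_of_ne _ _ h1.2.2.1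
    have hpow : ∀ x ∈ R, x ^ r ^ (Nat.card D).totient = x := fun x hx => closure_pow hs' hr
      (AddMonoidHom.ext fun v => (AddMonoid.End.natCast_apply r v).trans (hV v)) (by
        rintro _ ⟨a, -, rfl⟩
        rw [← map_pow]
        exact congrArg ρ ((pow_eq_pow_iff_modEq.2 ((Nat.ModEq.pow_totient
          (hr.coprime_iff_not_dvd.2 hD)).of_dvd (orderOf_dvd_natCard a))).trans (pow_one a))) hx
    obtain ⟨k, hk⟩ : ∃ k, r ^ (Nat.card D).totient = k + 2 := Nat.exists_eq_add_of_le'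
      (Nat.one_lt_pow (Nat.totient_pos.2 Nat.card_pos).ne' hr.one_lt)
    have hunit : ∀ x ∈ R, x ≠ 0 → x ^ k * x = 1 := fun x hx h0 => by
      have e := hpow x hx
      rw [hk] at e
      rcases h1.2.2.2 (x ^ (k + 1)) (R.pow_mem hx _) (by
        rw [← pow_add, show k + 1 + (k + 1) = (k + 2) + k by ring, pow_add, e, ← pow_succ'])
        with e' | e'
      · rw [pow_succ, ← mul_one (x ^ (k + 1)), e', zero_mul] at e
        exact absurd e.symm h0
      · rwa [mul_one, pow_succ] at e'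
    have : NoZeroDivisors R := ⟨fun {a b} hab => by
      by_cases ha : a = 0
      · exact Or.inl ha
      · refine Or.inr (Subtype.ext ?_)
        have := hunit a a.2 fun e => ha (Subtype.ext e)
        calc (b : AddMonoid.End V) = a ^ k * a * b := by rw [this, one_mul]
          _ = 0 := by rw [mul_assoc, show (a : AddMonoid.End V) * b = 0 from
            congrArg Subtype.val hab, mul_zero]⟩
    have : IsDomain R := NoZeroDivisors.to_isDomain R
    let ι : U →* R := (ρ.comp U.subtype).codRestrict R.toSubmonoid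
      fun u => Subring.subset_closure ⟨u, u.2, rfl⟩
    have hι : Function.Injective ι := by
      rw [injective_iff_map_eq_one]
      exact fun u hu => Subtype.ext (hf _ fun v => DFunLike.congr_fun (congrArg Subtype.val hu) v)
    have hfree : ∀ u ∈ U, ∀ v : V, u • v = v → u ≠ 1 → v = 0 := fun u hu v e hne => by
      have := hunit _ (R.sub_mem (Subring.subset_closure ⟨u, hu, rfl⟩) R.one_mem) fun e' =>
        hne (hf u fun v => DFunLike.congr_fun (sub_eq_zero.1 e') v)
      have e' := DFunLike.congr_fun this v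
      rw [AddMonoid.End.coe_mul, Function.comp_apply, show (ρ u - 1) v = 0 from sub_eq_zero.2 e,
        map_zero] at e'
      exact e'.symm
    obtain ⟨g, hg⟩ := (isCyclic_of_injective_ringHom ι hι).exists_monoid_generator
    obtain ⟨v, hv⟩ := exists_ne (0 : V)
    refine ⟨v, g.1 • v, fun d hd hd' w => ?_⟩
    have k1 : g.1⁻¹ * (d * g.1 * d⁻¹) = 1 := by
      by_contra hne
      refine hv (hfree _ (U.mul_mem (U.inv_mem g.2) (hU.prop.1.conj_mem _ g.2 d)) v ?_ hne)
      rw [mul_smul, mul_smul, mul_smul, inv_smul_eq_iff.2 hd.symm, hd', inv_smul_smul]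
    have k2 : Commute g.1 d := by
      rw [inv_mul_eq_one, eq_mul_inv_iff_mul_eq] at k1
      exact k1
    have k3 : d ∈ U := selfc ho hU fun u hu => by
      obtain ⟨k, hk⟩ := hg ⟨u, hu⟩
      have : u = g.1 ^ k := (congrArg Subtype.val hk).symm
      rw [this]
      exact k2.pow_left k
    have k4 : d = 1 := by
      by_contra hne
      exact hv (hfree d k3 v hd hne)
    rw [k4, one_smul]
  have hi : ∀ d : D, ρ d⁻¹ * ρ d = 1 := fun d => by rw [← map_mul, inv_mul_cancel, map_one]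
  have hi' : ∀ (d : D) x, ρ d⁻¹ * (ρ d * x) = x := fun d x => by rw [← mul_assoc, hi, one_mul]
  have hi2 : ∀ (d : D) x, ρ d * (ρ d⁻¹ * x) = x := fun d x => by simpa using hi' d⁻¹ x
  have hconj : ∀ (d : D), ∀ x ∈ R, ρ d * x * ρ d⁻¹ ∈ R := fun d x hx => by
    induction hx using Subring.closure_induction with
    | mem x hx =>
      obtain ⟨a, ha, rfl⟩ := hx
      exact Subring.subset_closure ⟨_, hU.prop.1.conj_mem a ha d, by simp only [map_mul]⟩
    | zero => simp
    | one => simp [← map_mul]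
    | add x y hx hy e e' => simpa only [mul_add, add_mul] using R.add_mem e e'
    | neg x hx e => simpa only [mul_neg, neg_mul] using R.neg_mem e
    | mul x y hx hy e e' => simpa only [mul_assoc, hi'] using R.mul_mem e e'
  have hat : ∀ (d : D) a, IsAtomE R a → IsAtomE R (ρ d * a * ρ d⁻¹) := fun d a ha => by
    refine ⟨hconj d a ha.1, by simp only [mul_assoc, hi']; rw [← mul_assoc a, ha.2.1], fun e => ?_,
      fun f f1 f2 => ?_⟩
    · have := congrArg (fun t => ρ d⁻¹ * t * ρ d) e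
      simp only [mul_assoc, hi', hi, mul_one, mul_zero, zero_mul] at this
      exact ha.2.2.1 this
    · refine (ha.2.2.2 _ (hconj d⁻¹ f f1) (by
        simp only [mul_assoc, inv_inv, hi2]; rw [← mul_assoc f, f2])).imp (fun e => ?_) fun e => ?_
      · have := congrArg (fun t => ρ d * t * ρ d⁻¹) e
        simpa only [mul_assoc, inv_inv, hi2, mul_zero, zero_mul] using this
      · have := congrArg (fun t => ρ d * t * ρ d⁻¹) e
        simpa only [mul_assoc, inv_inv, hi2] using this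
  let _ : MulAction D {a // IsAtomE R a} :=
    { smul := fun d a => ⟨_, hat d a.1 a.2⟩
      one_smul := fun a => Subtype.ext (by
        show ρ 1 * a.1 * ρ 1⁻¹ = a.1
        simp)
      mul_smul := fun c d a => Subtype.ext (by
        show ρ (c * d) * a.1 * ρ (c * d)⁻¹ = ρ c * (ρ d * a.1 * ρ d⁻¹) * ρ c⁻¹
        simp only [mul_inv_rev, map_mul, mul_assoc]) }
  have := Fintype.ofFinite {a // IsAtomE R a}
  have h4 : ∀ (d : D) (a : {a // IsAtomE R a}) v, (d • a).1 (d • v) = d • a.1 v := fun d a v => by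
    show d • a.1 (d⁻¹ • d • v) = _
    rw [inv_smul_smul]
  have := Fact.mk Nat.prime_two
  have := ho.isNilpotent
  refine glue (Ω := {a // IsAtomE R a}) (not3 ho)
    (cop_of hr hV fun e => hr2 ((Nat.prime_dvd_prime_iff_eq hr Nat.prime_two).1 e))
    (cop_of hr hV hD) (fun a => a.1) (fun v => ?_)
    (fun a b v hne => DFunLike.congr_fun (a.2.orth hR b.2 fun e => hne (Subtype.ext e)) v)
    (fun a v => DFunLike.congr_fun a.2.2.1 v) h4 (fun a => a.2.2.2.1) fun a => ih _ _ (fun e => ?_) ?_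
  · exact (AddMonoidHom.finsetSum_apply _ _ v).symm.trans (DFunLike.congr_fun (sum_atomE hR) v)
  · refine h1 ((?_ : a.1 = 1) ▸ a.2)
    refine AddMonoidHom.ext fun v => ?_
    obtain ⟨y, rfl⟩ := AddMonoidHom.range_eq_top.1 e v
    exact DFunLike.congr_fun a.2.2.1 y
  · rintro d hd _ ⟨y, rfl⟩
    have := h4 d a y
    rw [MulAction.mem_stabilizer_iff.1 hd] at this
    exact ⟨d • y, this⟩

theorem range {D : Type*} [Group D] {V : Type v} [AddCommGroup V] [DistribMulAction D V] [Finite D]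
    (ho : IsPGroup 2 D)
    (h : ∀ (E : Type v) [Group E] [Finite E] [DistribMulAction E V],
      IsPGroup 2 E → (∀ d : E, (∀ v : V, d • v = v) → d = 1) → Base2 E V) : Base2 D V := by
  let ρ := (DistribMulAction.toAddMonoidEnd D V).toHomUnits
  have := Finite.of_surjective _ ρ.rangeRestrict_surjective
  obtain ⟨v, v', hv⟩ := h ρ.range (ho.of_surjective _ ρ.rangeRestrict_surjective)
    fun d hd => Subtype.ext (Units.ext (AddMonoidHom.ext hd))
  exact ⟨v, v', fun d => hv (ρ.rangeRestrict d)⟩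

theorem aux {r : ℕ} (hr : r.Prime) (hr2 : r ≠ 2) (n : ℕ) :
    ∀ (V : Type v) [AddCommGroup V] [Finite V], Nat.card V = n → (∀ v : V, r • v = 0) →
    ∀ (D : Type v) [Group D] [Finite D] [DistribMulAction D V],
      IsPGroup 2 D → (∀ d : D, (∀ v : V, d • v = v) → d = 1) → Base2 D V := by
  induction n using Nat.strong_induction_on with
  | _ n ih =>
    intro V _ _ hn hV D _ _ _ ho hf
    refine step ho hr hr2 hV (notp ho hr hr2) hf fun E W hW hE => ?_
    let _ : DistribMulAction E W :=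
      { smul := fun d w => ⟨d.1 • w.1, hE _ d.2 _ w.2⟩
        one_smul := fun w => Subtype.ext (one_smul D w.1)
        mul_smul := fun c d w => Subtype.ext (mul_smul c.1 d.1 w.1)
        smul_zero := fun d => Subtype.ext (smul_zero d.1)
        smul_add := fun d v w => Subtype.ext (smul_add d.1 v.1 w.1) }
    obtain ⟨v, v', hv⟩ := range (D := E) (V := W) (ho.to_subgroup E)
      (ih _ (hn ▸ lt_of_le_of_ne (AddSubgroup.card_le_card_addGroup W)
        fun e => hW (AddSubgroup.eq_top_of_card_eq W e)) W rfl fun w => Subtype.ext (hV w.1))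
    exact ⟨v, v.2, v', v'.2, fun d hd e e' w hw =>
      congrArg Subtype.val (hv ⟨d, hd⟩ (Subtype.ext e) (Subtype.ext e') ⟨w, hw⟩)⟩

theorem lin {D V : Type*} [Group D] [AddCommGroup V] [DistribMulAction D V] [Finite D] [Finite V]
    (ho : IsPGroup 2 D) {r : ℕ} (hr : r.Prime) (hr2 : r ≠ 2) (hV : ∀ v : V, r • v = 0) :
    Base2 D V :=
  range ho (aux hr hr2 _ V rfl hV)

end b2

theorem baseTwo : BaseTwo.{u, v} := by
  intro D _ _ P _ _ _ p hp hp2 ho hP
  have hD := b2.notp ho hp hp2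
  let ψ := MulDistribMulAction.toMulAut D P
  let φ : D → P ⧸ frattini P →* P ⧸ frattini P := fun d => QuotientGroup.map _ _
    (ψ d).toMonoidHom (characteristic_iff_le_comap.1 inferInstance _)
  let _ : CommGroup (P ⧸ frattini P) := { (inferInstance : Group (P ⧸ frattini P)) with
    mul_comm := fun a b => by
      obtain ⟨a, rfl⟩ := QuotientGroup.mk_surjective a
      obtain ⟨b, rfl⟩ := QuotientGroup.mk_surjective b
      refine QuotientGroup.eq.2 ?_
      simpa [mul_assoc] using (frattini_elem hp hP b⁻¹ a⁻¹).1 }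
  let _ : DistribMulAction D (Additive (P ⧸ frattini P)) :=
    { smul := fun d w => Additive.ofMul (φ d w.toMul)
      one_smul := fun w => by
        obtain ⟨a, rfl⟩ := QuotientGroup.mk_surjective (s := frattini P) w
        exact congrArg (QuotientGroup.mk (s := frattini P)) (one_smul D a)
      mul_smul := fun c d w => by
        obtain ⟨a, rfl⟩ := QuotientGroup.mk_surjective (s := frattini P) w
        exact congrArg (QuotientGroup.mk (s := frattini P)) (mul_smul c d a)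
      smul_zero := fun d => map_one (φ d)
      smul_add := fun d => map_mul (φ d) }
  obtain ⟨v, v', hv⟩ := b2.lin (V := Additive (P ⧸ frattini P)) ho hp hp2 (fun v => by
    obtain ⟨a, rfl⟩ := QuotientGroup.mk_surjective (s := frattini P) v
    exact (QuotientGroup.eq_one_iff (a ^ p)).2 (frattini_elem hp hP a a).2)
  obtain ⟨a, rfl⟩ := QuotientGroup.mk_surjective (s := frattini P) v
  obtain ⟨b, rfl⟩ := QuotientGroup.mk_surjective (s := frattini P) v'
  refine ⟨a, b, fun d h1 h2 => DFunLike.congr_fun (aut_eq_one hp hP (σ := ψ d) (M := frattini P)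
    (fun e => hD (e.trans ((orderOf_map_dvd ψ d).trans (orderOf_dvd_natCard d)))) (fun x => ?_)
    fun k hk => ?_)⟩
  · exact QuotientGroup.eq.1 (hv d (congrArg (QuotientGroup.mk (s := frattini P)) h1)
      (congrArg (QuotientGroup.mk (s := frattini P)) h2) (QuotientGroup.mk x)).symm
  · have := frattini_nongenerating (K := (ψ d ^ k).toMonoidHom.eqLocus (MonoidHom.id P))
      (eq_top_iff.2 fun x _ => by
        obtain ⟨y, y1, y2⟩ := hk x
        simpa using mul_mem (mem_sup_left (show y ∈ (ψ d ^ k).toMonoidHom.eqLocus (MonoidHom.id P)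
          from y1)) (inv_mem (mem_sup_right y2)))
    exact MulEquiv.ext fun x => (this.ge (mem_top x) :)

end Pool.Agent.MP_983df8_al

end MrgPart2

-- ======== part 3: formerly Pool.Agent.MP_983df8_al.Sz2
section MrgPart3

/-! From the characteristic polynomials of a Suzuki group to its centralisers. -/

namespace Pool.Agent.MP_983df8_al

open Polynomial Function Module

universe u

namespace sz2

section

variable {F V : Type} [Field F] [AddCommGroup V] [Module F V]

/-- eigenvectors of a diagonal map with different entries -/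
theorem eig (b : Basis (Fin 4) F V) {l : Fin 4 → F} (hl : Injective l) {A : End F V}
    (hA : ∀ i, A (b i) = l i • b i) {m : F} {w : V} (h : A w = m • w) :
    (∀ i, m = l i → ∃ c : F, w = c • b i) ∧ ∃ (i : Fin 4) (c : F), w = c • b i := by
  have e : ∀ i, b.repr w i ≠ 0 → m = l i := fun i n => by
    have k : b.coord i ∘ₗ A = l i • b.coord i := b.ext fun j => by
      by_cases q : j = i <;> simp [hA, q]
    have := DFunLike.congr_fun k w
    simp only [LinearMap.comp_apply, h, map_smul, LinearMap.smul_apply, smul_eq_mul] at this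
    exact mul_right_cancel₀ n this
  have e' : ∀ i, m = l i → ∃ c : F, w = c • b i := fun i q => ⟨b.repr w i, b.ext_elem fun j => by
    by_cases r : i = j
    · simp [r]
    · simpa [r] using of_not_not fun n => r (hl (q.symm.trans (e j n)))⟩
  refine ⟨e', ?_⟩
  by_cases z : ∃ i, b.repr w i ≠ 0
  · exact z.imp fun i n => e' i (e i n)
  · exact ⟨0, 0, b.ext_elem fun j => by simpa using of_not_not fun n => z ⟨j, n⟩⟩

theorem core {S : Type u} [Group S] (σ : S →* End F V) (hσ : Injective σ)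
    (h : ∀ f : S, Odd (orderOf f) → f ≠ 1 → ∃ (b : Basis (Fin 4) F V) (l : Fin 4 → F),
      Injective l ∧ ∀ i, σ f (b i) = l i • b i) : SzCen S := by
  have h3 : ∀ g : S, orderOf g ≠ 3 := fun g e => by
    obtain ⟨b, l, hl, hb⟩ := h g (e ▸ by decide) fun k => by simp [k] at e
    have k : ∀ i, l i ∈ nthRoots 3 (1 : F) := fun i => by
      have : σ (g ^ 3) (b i) = l i ^ 3 • b i := by simp [pow_succ, hb, smul_smul, mul_assoc]
      rw [← e, pow_orderOf_eq_one, e, map_one, End.one_apply] at this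
      exact (mem_nthRoots (by decide)).2
        (smul_left_injective F (b.ne_zero i) (this.symm.trans (one_smul _ _).symm))
    classical
    have := (Finset.card_le_card_of_injOn (s := Finset.univ) l
      (fun i _ => Multiset.mem_toFinset.2 (k i)) hl.injOn).trans
      ((Multiset.toFinset_card_le _).trans (card_nthRoots 3 1))
    simp at this
  intro f ho h1
  obtain ⟨b, l, hl, hb⟩ := h f ho h1
  have d : ∀ a, Commute f a → ∀ i, ∃ c : F, σ a (b i) = c • b i := fun a ha i =>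
    (eig b hl hb (m := l i) (by
      rw [← End.mul_apply, ← map_mul, ha.eq, map_mul, End.mul_apply, hb, map_smul])).1 i rfl
  have c : ∀ a a', (∀ i, ∃ c : F, σ a (b i) = c • b i) → (∀ i, ∃ c : F, σ a' (b i) = c • b i) →
      Commute a a' := fun a a' p q => hσ (b.ext fun i => by
    obtain ⟨x, hx⟩ := p i
    obtain ⟨y, hy⟩ := q i
    simp only [map_mul, End.mul_apply, hx, hy, map_smul, smul_smul, mul_comm])
  refine ⟨fun a a' p q => c a a' (d a p) (d a' q), fun j oj hj => ?_⟩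
  have : ∀ i, ∃ (k : Fin 4) (c : F), σ j⁻¹ (b i) = c • b k := fun i => by
    obtain ⟨m, hm⟩ := d _ (hj 1) i
    refine (eig b hl hb (m := m) ?_).2
    rw [← map_smul, ← hm, ← End.mul_apply, ← End.mul_apply, ← map_mul, ← map_mul]
    congr 2
    group
  choose s hs using this
  have it : ∀ n i, ∃ c : F, σ (j⁻¹ ^ n) (b i) = c • b (s^[n] i) := fun n i => by
    induction n with
    | zero => exact ⟨1, by simp⟩
    | succ n ih =>
      obtain ⟨x, hx⟩ := ih
      obtain ⟨y, hy⟩ := hs (s^[n] i)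
      exact ⟨x * y, by rw [pow_succ', map_mul, End.mul_apply, hx, map_smul, hy, smul_smul,
        iterate_succ_apply']⟩
  have fx : ∀ i, s i = i := fun i => by
    have p : IsPeriodicPt s (orderOf j) i := by
      obtain ⟨x, hx⟩ := it (orderOf j) i
      rw [inv_pow, pow_orderOf_eq_one, inv_one, map_one, End.one_apply] at hx
      by_contra n
      have := congrArg (b.repr · i) hx
      simp [Finsupp.single_eq_of_ne' n] at this
    have q := p.minimalPeriod_dvd
    have q0 := p.minimalPeriod_pos oj.pos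
    have q4 : minimalPeriod s i ≤ 4 := minimalPeriod_le_card
    have q2 := (Odd.of_dvd_nat oj q).not_two_dvd_nat
    have q3 : minimalPeriod s i ≠ 3 := fun e =>
      h3 _ (orderOf_pow_orderOf_div oj.pos.ne' (e ▸ q))
    exact minimalPeriod_eq_one_iff_isFixedPt.1 (by omega)
  exact Commute.inv_right_iff.1 (c _ _ (fun i => ⟨_, hb i⟩) fun i => by simpa only [fx] using hs i)

end

theorem sep {K : Type} [Field K] (h2 : (2 : K) = 0) {t s : K} (ht : t ≠ 0) (hs : s ≠ 0) :
    (X ^ 4 + C t * X ^ 3 + C s * X ^ 2 + C t * X + 1 : K[X]).Separable := by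
  have e2 : (2 : K[X]) = 0 := by rw [← map_ofNat C 2, h2, map_zero]
  have ha : C s⁻¹ * C s = 1 := by rw [← map_mul, inv_mul_cancel₀ hs, map_one]
  have hb : C t⁻¹ * C t = 1 := by rw [← map_mul, inv_mul_cancel₀ ht, map_one]
  have d : derivative (X ^ 4 + C t * X ^ 3 + C s * X ^ 2 + C t * X + 1 : K[X]) =
      C t * (X ^ 2 + 1) := by
    simp only [derivative_add, derivative_X_pow, derivative_C_mul, derivative_X, derivative_one,
      Nat.cast_ofNat, map_ofNat, Nat.add_one_sub_one]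
    linear_combination (2 * X ^ 3 + C t * X ^ 2 + C s * X) * e2
  refine ⟨C s⁻¹, C s⁻¹ * C t⁻¹ * (X ^ 2 + 1 + C t * X + C s), ?_⟩
  rw [d]
  linear_combination C s⁻¹ * (X ^ 2 + 1 + C t * X + C s) * (X ^ 2 + 1) * hb + ha +
    C s⁻¹ * (X ^ 4 + C t * X ^ 3 + C s * X ^ 2 + C t * X + 1 + X ^ 2) * e2

end sz2

theorem sz2 : Sz2.{u} := by
  rintro K _ θ S _ ρ hθ ⟨hρ, hc⟩
  have h2 : (2 : K) = 0 := by
    have := hθ 2
    rw [map_ofNat, map_ofNat] at this
    linear_combination -this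
  let φ := algebraMap K (AlgebraicClosure K)
  let T := Matrix.toLinAlgEquiv' (R := AlgebraicClosure K) (n := Fin 4)
  refine sz2.core (T.toMulEquiv.toMonoidHom.comp (φ.mapMatrix.toMonoidHom.comp ρ))
    (T.injective.comp ((Matrix.map_injective φ.injective).comp hρ)) fun f ho h1 => ?_
  have ht : (ρ f).trace ≠ 0 := fun e => h1 (by
    have k := (ρ f).aeval_self_charpoly
    simp only [hc, e, map_zero, zero_mul, add_zero, map_add, map_pow, aeval_X, map_one] at k
    have k2 : (1 + 1 : Matrix (Fin 4) (Fin 4) K) = 0 := by rw [← two_smul K, h2, zero_smul]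
    have k4 : f ^ 2 ^ 2 = 1 := hρ (by
      rw [map_pow, map_one]
      exact add_right_cancel (k.trans k2.symm))
    exact orderOf_eq_one_iff.1 ((ho.coprime_two_right.pow_right 2).eq_one_of_dvd
      (orderOf_dvd_of_pow_eq_one k4)))
  have sp : (ρ f).charpoly.Separable := hc f ▸ sz2.sep h2 ht ((map_ne_zero θ).2 ht)
  have cd := card_rootSet_eq_natDegree sp (IsAlgClosed.splits ((ρ f).charpoly.map φ))
  rw [Matrix.charpoly_natDegree_eq_dim, Fintype.card_fin] at cd
  let e := (Fintype.equivFinOfCardEq cd).symm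
  have il : Injective fun i => (e i).1 := Subtype.val_injective.comp e.injective
  have ev : ∀ i, ∃ v, End.HasEigenvector ((ρ f).map φ).toLin' (e i).1 v := fun i => by
    refine ((End.hasEigenvalue_iff_isRoot_charpoly _ _).2 ?_).exists_hasEigenvector
    rw [Matrix.charpoly_toLin', Matrix.charpoly_map, IsRoot.def, eval_map_algebraMap]
    exact aeval_eq_zero_of_mem_rootSet (e i).2
  choose v hv using ev
  refine ⟨basisOfLinearIndependentOfCardEqFinrank
    (End.eigenvectors_linearIndependent' _ _ il v hv) (by simp), _, il, fun i => ?_⟩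
  rw [coe_basisOfLinearIndependentOfCardEqFinrank]
  exact (hv i).apply_eq_smul

end Pool.Agent.MP_983df8_al

end MrgPart3

-- ======== part 4: formerly Pool.Agent.MP_983df8_al.Sz3
section MrgPart4

/-! The local problem for soluble groups of odd order acting on a Suzuki group. -/

namespace Pool.Agent.MP_983df8_al

open Subgroup

universe u v w

namespace sz3

variable {K S : Type*} [Field K] [Group S] {θ : K →+* K} {u : K → K → S} {t : Kˣ → S} {w : S}
  (h : SzS θ u t w)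

include h

theorem two (x : K) : x + x = 0 := by
  have a := h.sq 2
  rw [map_ofNat, map_ofNat] at a
  linear_combination -x * a

theorem u0 : u 0 0 = 1 := by
  have a := h.mul 0 0 0 0
  simpa using a

theorem t1 : t 1 = 1 := by
  have a := h.tmul 1 1
  simpa using a

theorem uinv (a b : K) : (u a b)⁻¹ = u a (b + θ a * a) := by
  refine inv_eq_of_mul_eq_one_right ?_
  rw [h.mul, two h, ← u0 h]
  congr 1
  linear_combination two h b + two h (θ a * a)

theorem tinv (m : Kˣ) : (t m)⁻¹ = t m⁻¹ :=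
  inv_eq_of_mul_eq_one_right (by rw [h.tmul, mul_inv_cancel, t1 h])

theorem winv : w⁻¹ = w := inv_eq_of_mul_eq_one_right h.ww

/-- the unipotent subgroup -/
def U : Subgroup S where
  carrier := {s | ∃ a b, s = u a b}
  one_mem' := ⟨0, 0, (u0 h).symm⟩
  mul_mem' := by
    rintro _ _ ⟨a, b, rfl⟩ ⟨c, d, rfl⟩
    exact ⟨_, _, h.mul a b c d⟩
  inv_mem' := by
    rintro _ ⟨a, b, rfl⟩
    exact ⟨_, _, uinv h a b⟩

theorem tU (m : Kˣ) {x : S} (hx : x ∈ U h) : t m * x * (t m)⁻¹ ∈ U h := by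
  obtain ⟨a, b, rfl⟩ := hx
  exact ⟨_, _, h.tu m a b⟩

/-- the Borel subgroup -/
def B : Subgroup S where
  carrier := {s | ∃ x ∈ U h, ∃ m, s = x * t m}
  one_mem' := ⟨1, one_mem _, 1, by simp [t1 h]⟩
  mul_mem' := by
    rintro _ _ ⟨x, hx, m, rfl⟩ ⟨y, hy, n, rfl⟩
    exact ⟨_, mul_mem hx (tU h m hy), m * n, by simp [← h.tmul, mul_assoc]⟩
  inv_mem' := by
    rintro _ ⟨x, hx, m, rfl⟩
    exact ⟨_, tU h m⁻¹ (inv_mem hx), m⁻¹, by simp [← tinv h]⟩

theorem UB {x : S} (hx : x ∈ U h) : x ∈ B h := ⟨x, hx, 1, by simp [t1 h]⟩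

theorem tB (m : Kˣ) : t m ∈ B h := ⟨1, one_mem _, m, by simp⟩

theorem wB : w ∉ B h := by
  rintro ⟨_, ⟨a, b, rfl⟩, m, e⟩
  exact h.nw a b m e

theorem BU {g x : S} (hg : g ∈ B h) (hx : x ∈ U h) : g * x * g⁻¹ ∈ U h := by
  obtain ⟨y, hy, m, rfl⟩ := hg
  simpa [mul_assoc] using mul_mem (mul_mem hy (tU h m hx)) (inv_mem hy)

theorem four {x : S} (hx : x ∈ U h) : x ^ 4 = 1 := by
  obtain ⟨a, b, rfl⟩ := hx
  rw [show 4 = 2 * 2 from rfl, pow_mul, sq, sq, h.mul, two h a, h.mul, two h, two h, mul_zero,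
    add_zero, u0 h]

theorem bru' {x : S} (hx : x ∈ U h) (h1 : x ≠ 1) : ∃ b ∈ B h, ∃ y ∈ U h, w * x * w = b * w * y := by
  obtain ⟨a, b, rfl⟩ := hx
  obtain ⟨c, d, m, e, f, k⟩ := h.bru a b h1
  exact ⟨_, ⟨_, ⟨c, d, rfl⟩, m, rfl⟩, _, ⟨e, f, rfl⟩, k⟩

theorem bruhat (g : S) : g ∈ B h ∨ ∃ b ∈ B h, ∃ y ∈ U h, g = b * w * y := by
  have k : ∀ x : S, (x ∈ B h ∨ ∃ b ∈ B h, ∃ y ∈ U h, x = b * w * y) → ∀ s : S, s = w ∨ s ∈ U h →
      (x * s ∈ B h ∨ ∃ b ∈ B h, ∃ y ∈ U h, x * s = b * w * y) := by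
    rintro x (hx | ⟨b, hb, y, hy, rfl⟩) s (hs | hs)
    · exact Or.inr ⟨x, hx, 1, one_mem _, by simp [hs]⟩
    · exact Or.inl (mul_mem hx (UB h hs))
    · by_cases c : y = 1
      · exact Or.inl (by simpa [c, hs, mul_assoc, h.ww] using hb)
      · obtain ⟨b', hb', y', hy', e⟩ := bru' h hy c
        exact Or.inr ⟨_, mul_mem hb hb', y', hy', by
          rw [hs, mul_assoc b, mul_assoc b, e]; simp [mul_assoc]⟩
    · exact Or.inr ⟨b, hb, _, mul_mem hy hs, mul_assoc _ _ _⟩
  have hg : g ∈ closure {s | s = w ∨ ∃ a b, s = u a b} := h.gen ▸ mem_top g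
  induction hg using closure_induction_right with
  | one => exact Or.inl (one_mem _)
  | mul_right x _ s hs ih => exact k x ih s hs
  | mul_inv_cancel x _ s hs ih =>
    exact k x ih _ (hs.imp (fun e => by rw [e, winv h]) fun e => (U h).inv_mem e)

theorem ti0 {x : S} (hx : x ∈ U h) (e : w * x * w ∈ B h) : x = 1 := by
  by_contra c
  obtain ⟨b, hb, y, hy, k⟩ := bru' h hx c
  rw [k] at e
  exact wB h (by simpa [mul_assoc] using mul_mem (mul_mem (inv_mem hb) e) (inv_mem (UB h hy)))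

theorem ti {g x : S} (hx : x ∈ U h) (h1 : x ≠ 1) (e : g * x * g⁻¹ ∈ B h) : g ∈ B h := by
  refine (bruhat h g).resolve_right ?_
  rintro ⟨b, hb, y, hy, rfl⟩
  have := ti0 h (mul_mem (mul_mem hy hx) (inv_mem hy)) (by
    simpa [mul_assoc, winv h] using mul_mem (mul_mem (inv_mem hb) e) hb)
  exact h1 (by simpa using this)

theorem z1 : u 0 1 ≠ 1 := fun e => one_ne_zero (h.inj 0 1 e).2

theorem zz : u 0 1 * u 0 1 = 1 := by
  rw [h.mul, two h, two h, mul_zero, add_zero, u0 h]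

theorem cen {g : S} (e : g * u 0 1 = u 0 1 * g) : g ∈ U h := by
  obtain ⟨_, ⟨a, b, rfl⟩, m, rfl⟩ := ti h (g := g) ⟨0, 1, rfl⟩ (z1 h) (by
    rw [e, mul_inv_cancel_right]; exact UB h ⟨0, 1, rfl⟩)
  have c : u a b * u 0 1 = u 0 1 * u a b := by simp [h.mul, add_comm]
  have d : t m * u 0 1 * (t m)⁻¹ * u 0 1 = 1 := by
    rw [mul_assoc, ← mul_assoc (u 0 1), ← c, mul_assoc, mul_right_inj] at e
    rw [e, mul_inv_cancel_right, zz h]
  rw [h.tu, h.mul] at d
  have d1 : (m : K) * m * θ m = 1 := by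
    linear_combination (h.inj _ _ d).2 - two h 1
  have d2 := congrArg θ d1
  rw [map_mul, map_mul, h.sq, map_one] at d2
  have d3 : θ m = θ 1 := by
    rw [map_one]
    linear_combination d2 - θ m * d1
  have d4 : m = 1 := Units.ext (θ.injective d3)
  exact ⟨a, b, by rw [d4, t1 h, mul_one]⟩

theorem keep {β : MulAut S} (f : ∀ x ∈ U h, β x = x) {g : S} (hg : g ∈ B h) : β g ∈ B h := by
  have a := BU h hg ⟨0, 1, rfl⟩
  refine ti h ⟨0, 1, rfl⟩ (z1 h) (UB h ?_)
  rwa [← f _ a, map_mul, map_mul, map_inv, f _ ⟨0, 1, rfl⟩] at a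

theorem rig [IsSimpleGroup S] {β : MulAut S} {k : ℕ} (hk : Odd k) (hβ : β ^ k = 1)
    (f : ∀ x ∈ U h, β x = x) : β = 1 := by
  have f' : ∀ x ∈ U h, β⁻¹ x = x := fun x hx => by
    conv_lhs => rw [← f x hx]
    simp
  obtain ⟨b, hb, y, hy, e⟩ := (bruhat h (β w)).resolve_left fun a =>
    wB h (by simpa using keep h f' a)
  have p : ∀ n : ℕ, ∃ c ∈ B h, (β ^ n) w = c * w * y ^ n := fun n => by
    induction n with
    | zero => exact ⟨1, one_mem _, by simp⟩
    | succ n ih =>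
      obtain ⟨c, hc, e'⟩ := ih
      refine ⟨_, mul_mem (keep h f hc) hb, ?_⟩
      rw [pow_succ', MulAut.mul_apply, e', map_mul, map_mul, e, f _ (pow_mem hy n), pow_succ']
      simp [mul_assoc]
  obtain ⟨c, hc, e'⟩ := p k
  have y1 : y ^ k = 1 := ti0 h (pow_mem hy k) (by
    rw [hβ, MulAut.one_apply, mul_assoc, ← inv_mul_eq_iff_eq_mul] at e'
    rw [← e', mul_assoc, h.ww, mul_one]
    exact inv_mem hc)
  have y2 : y = 1 := orderOf_eq_one_iff.1 (Nat.eq_one_of_dvd_coprimes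
    ((Nat.coprime_two_left.2 hk).pow_left 2) (orderOf_dvd_of_pow_eq_one (four h hy))
    (orderOf_dvd_of_pow_eq_one y1))
  have D : ∀ g, β g * g⁻¹ ∈ B h := fun g => by
    rcases bruhat h g with a | ⟨b', hb', y', hy', rfl⟩
    · exact mul_mem (keep h f a) (inv_mem a)
    · rw [map_mul, map_mul, e, y2, f _ hy']
      simpa [mul_assoc] using mul_mem (mul_mem (keep h f hb') hb) (inv_mem hb')
  refine MulEquiv.ext fun g => mul_inv_eq_one.1
    (((B h).normalCore_normal.eq_bot_or_eq_top.resolve_right fun a =>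
      wB h ((B h).normalCore_le (a.ge (mem_top w)))).le fun x => ?_)
  simpa [mul_assoc] using mul_mem (inv_mem (D x)) (D (x * g))

omit h in
theorem good [Finite S] [IsSimpleGroup S] (hC : SzCen S) (hS : ¬ IsMulCommutative S)
    (J : Subgroup S) [Group.IsSolvable J] (ho : ∀ j ∈ J, Odd (orderOf j)) {z : S} (hz : z ≠ 1) :
    ∃ g : S, ∀ j ∈ J, g * z * g⁻¹ * j * (g * z * g⁻¹)⁻¹ = j⁻¹ → j = 1 := by
  by_contra hc
  push Not at hc
  obtain ⟨j0, hj0, -, n0⟩ := hc 1
  have : Group.IsSolvable (⊤ : Subgroup J) :=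
    Group.isSolvable_of_isSolvable_injective (⊤ : Subgroup J).subtype_injective
  obtain ⟨F, f1, -, f3, f4⟩ := exists_layer (E := (⊤ : Subgroup J)) (U := ⊥) fun a =>
    n0 (congrArg Subtype.val (mem_bot.1 (a (mem_top ⟨j0, hj0⟩))))
  obtain ⟨f, hf, nf⟩ := SetLike.not_le_iff_exists.1 f3
  have nf' : (f : S) ≠ 1 := fun a => nf (mem_bot.2 (Subtype.ext a))
  obtain ⟨c1, c2⟩ := hC f (ho f f.2) nf'
  have c3 : ∀ j ∈ J, Commute (f : S) j := fun j hj => c2 j (ho j hj) fun k => by
    have a := mem_bot.1 (f4 f hf _ (f1.conj_mem f hf (⟨j, hj⟩ ^ k)))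
    rw [mul_inv_eq_one, mul_inv_eq_iff_eq_mul] at a
    exact congrArg Subtype.val a
  have c4 : ∀ g x : S, x ∈ centralizer {(f : S)} →
      g * z * g⁻¹ * x * (g * z * g⁻¹)⁻¹ ∈ centralizer {(f : S)} := fun g x hx => by
    obtain ⟨j, hj, e, nj⟩ := hc g
    rw [mem_centralizer_singleton_iff] at hx ⊢
    have a : Commute j x := c1 j x (c3 j hj) hx.symm
    have b : Commute j⁻¹ (g * z * g⁻¹ * x * (g * z * g⁻¹)⁻¹) := e ▸ a.conj _
    exact (hC j (ho j hj) nj).1 _ _ (by simpa using b.inv_left) (c3 j hj).symm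
  have c5 : normalClosure {z} ≤ normalizer (centralizer {(f : S)} : Subgroup S) := by
    refine (closure_le _).2 fun a ha => ?_
    obtain ⟨_, rfl, k⟩ := Group.mem_conjugatesOfSet_iff.1 ha
    obtain ⟨g, rfl⟩ := isConj_iff.1 k
    exact mem_normalizer_fintype (c4 g)
  have c6 : (centralizer {(f : S)}).Normal := normalizer_eq_top_iff.1 (top_unique
    ((((normalClosure_normal (s := {z})).eq_bot_or_eq_top).resolve_left fun a =>
      hz (mem_bot.1 (a.le (subset_normalClosure rfl)))).ge.trans c5))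
  have c7 := c6.eq_bot_or_eq_top.resolve_left fun a =>
    nf' (mem_bot.1 (a.le (mem_centralizer_singleton_iff.2 rfl)))
  have c8 : ∀ a : S, Commute (f : S) a := fun a =>
    (mem_centralizer_singleton_iff.1 (c7.ge (mem_top a))).symm
  exact hS ⟨⟨fun a b => c1 a b (c8 a) (c8 b)⟩⟩

end sz3

open sz3 in
theorem sz3 : Sz3.{u} := by
  intro K _ _ θ S _ _ _ u t w h hC hS hi D _ ho
  have : Group.IsSolvable (MulAut.conj : S →* MulAut S).ker := by
    rw [(MonoidHom.ker_eq_bot_iff _).2 hi]; infer_instance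
  have := solvable_comap MulAut.conj D
  have oJ := ho.of_dvd_nat (card_comap_dvd_of_injective D _ hi)
  obtain ⟨g, hg⟩ := good hC hS (D.comap MulAut.conj)
    (fun j hj => oJ.of_dvd_nat (Subgroup.orderOf_dvd_natCard _ hj)) (z1 h)
  obtain ⟨a, ha⟩ : ∃ a, a = g * u 0 1 * g⁻¹ := ⟨_, rfl⟩
  rw [← ha] at hg
  have aa : a⁻¹ = a := inv_eq_of_mul_eq_one_right (by simp [ha, mul_assoc, ← mul_assoc (u 0 1), zz h])
  let P := centralizer {a}
  have p1 : ∀ x, x ∈ P ↔ g⁻¹ * x * g ∈ U h := fun x => by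
    rw [mem_centralizer_singleton_iff]
    refine ⟨fun e => cen h ?_, fun ⟨c, d, e⟩ => ?_⟩
    · have := congrArg (fun y => g⁻¹ * y * g) e
      simpa [ha, mul_assoc] using this
    · have c : u c d * u 0 1 = u 0 1 * u c d := by simp [h.mul, add_comm]
      have := congrArg (fun y => g * y * g⁻¹) c
      simpa [ha, ← e, mul_assoc] using this
  have p2 : ∀ x ∈ P, x ^ 2 ^ 2 = 1 := fun x hx => by
    have := four h ((p1 x).1 hx)
    rw [show g⁻¹ * x * g = g⁻¹ * x * g⁻¹⁻¹ by rw [inv_inv], conj_pow] at this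
    exact conj_eq_one_iff.1 this
  let D0 := D ⊓ MulAction.stabilizer (MulAut S) a
  let _ : MulDistribMulAction D0 P :=
    { smul := fun d o => ⟨d.1 o, mem_centralizer_singleton_iff.2 (by
        have e : d.1 a = a := d.2.2
        simpa only [map_mul, e] using congrArg d.1 (mem_centralizer_singleton_iff.1 o.2))⟩
      one_smul := fun _ => rfl
      mul_smul := fun _ _ _ => rfl
      smul_mul := fun d _ _ => Subtype.ext (map_mul d.1 _ _)
      smul_one := fun d => Subtype.ext (map_one d.1) }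
  have dv := ho.of_dvd_nat (card_dvd_of_le (inf_le_left : D0 ≤ D))
  have : Group.IsSolvable D0 :=
    Group.isSolvable_of_isSolvable_injective (inclusion_injective (inf_le_left : D0 ≤ D))
  obtain ⟨v, v', a6⟩ := lin2_pgroup (D := D0) (P := P) dv Nat.prime_two
    (fun x => ⟨2, Subtype.ext (p2 x x.2)⟩) dv.not_two_dvd_nat
  refine ⟨![a, v, v'], fun β b1 b2 => ?_⟩
  have b0 : β a = a := (mul_inv_eq_one.1 (hg _ (conj_mem_comap b1 (b2 0)) (by
    show a * (a * (β a)⁻¹) * a⁻¹ = (a * (β a)⁻¹)⁻¹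
    have a2 : a * a = 1 := by nth_rw 1 [← aa]; exact inv_mul_cancel a
    rw [← map_inv, aa, mul_inv_rev, ← map_inv, aa, ← mul_assoc, a2, one_mul]))).symm
  have b3 : β ∈ D0 := ⟨b1, b0⟩
  have b4 : ∀ y : P, MulAut.conj (y : S) * β * (MulAut.conj (y : S))⁻¹ ∈ D →
      (⟨β, b3⟩ : D0) • y = y := fun y c => by
    have := eq_one_of_cop (J := D.comap MulAut.conj) (s := y * (β y)⁻¹) (m := 2 ^ 2)
      ((Nat.coprime_two_left.2 oJ).pow_left 2) (conj_mem_comap b1 c)
      (p2 _ (y * ((⟨β, b3⟩ : D0) • y)⁻¹).2)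
    exact Subtype.ext (mul_inv_eq_one.1 this).symm
  have b5 := rig h (β := (MulAut.conj g)⁻¹ * β * (MulAut.conj g)⁻¹⁻¹) ho (by
    rw [conj_pow, show β ^ Nat.card D = 1 from
      congrArg Subtype.val (pow_card_eq_one' (x := (⟨β, b1⟩ : D)))]
    simp) fun x hx => by
    have e : β (g * x * g⁻¹) = g * x * g⁻¹ := congrArg Subtype.val
      (a6 _ (b4 v (b2 1)) (b4 v' (b2 2)) ⟨g * x * g⁻¹, (p1 _).2 (by simpa [mul_assoc] using hx)⟩)
    rw [inv_inv, MulAut.mul_apply, MulAut.mul_apply, MulAut.conj_apply, e]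
    simp [mul_assoc]
  exact conj_eq_one_iff.1 b5

end Pool.Agent.MP_983df8_al

end MrgPart4

-- ======== part 5: formerly Pool.Agent.MP_983df8_al.Sz4
section MrgPart5

/-! Suzuki groups: the local problem in the defining characteristic. -/

namespace Pool.Agent.MP_983df8_al

open Subgroup

universe u

namespace sz4

variable {K S : Type*} [Field K] [Group S] {θ : K →+* K} {u : K → K → S} {t : Kˣ → S} {w : S}

theorem map (H : SzS θ u t w) (φ : S ≃* S) :
    SzS θ (fun a b => φ (u a b)) (fun m => φ (t m)) (φ w) where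
  sq := H.sq
  mul a b c d := by rw [← map_mul, H.mul]
  inj a b h := H.inj a b (φ.map_eq_one_iff.1 h)
  tmul m n := by rw [← map_mul, H.tmul]
  tu m a b := by rw [← map_inv, ← map_mul, ← map_mul, H.tu]
  ww := by rw [← map_mul, H.ww, map_one]
  wt m := by rw [← map_mul, ← map_mul, H.wt]
  bru a b h := by
    obtain ⟨c, d, m, e, f, k⟩ := H.bru a b fun k => h (by rw [k, map_one])
    exact ⟨c, d, m, e, f, by simpa only [map_mul] using congrArg φ k⟩
  nw a b m h := H.nw a b m (φ.injective (by rw [h, map_mul]))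
  gen := by
    have := congrArg (Subgroup.map φ.toMonoidHom) H.gen
    rw [MonoidHom.map_closure, map_top_of_surjective _ φ.surjective] at this
    refine top_unique (this.ge.trans (closure_mono ?_))
    rintro _ ⟨s, rfl | ⟨a, b, rfl⟩, rfl⟩
    exacts [Or.inl rfl, Or.inr ⟨a, b, rfl⟩]

variable (H : SzS θ u t w)
include H

theorem two (x : K) : x + x = 0 := by
  have := H.sq (x + 1)
  rw [map_add, map_add, H.sq, H.sq] at this
  linear_combination -this

theorem sq_one {x : K} (h : x * x = 1) : x = 1 :=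
  θ.injective (θ.injective (by rw [H.sq, h, map_one, map_one]))

theorem u0 : u 0 0 = 1 := by
  have := H.mul 0 0 0 0
  simpa using this

theorem t1 : t 1 = 1 := by
  have := H.tmul 1 1
  simpa using this

theorem uinv (a b : K) : (u a b)⁻¹ = u a (b + θ a * a) := by
  refine inv_eq_of_mul_eq_one_right ?_
  rw [H.mul, two H, ← u0 H]
  congr 1
  linear_combination two H b + two H (θ a * a)

theorem tinv (m : Kˣ) : (t m)⁻¹ = t m⁻¹ :=
  inv_eq_of_mul_eq_one_right (by rw [H.tmul, mul_inv_cancel, t1 H])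

theorem winv : w⁻¹ = w := inv_eq_of_mul_eq_one_right H.ww

theorem uinj {a b c d : K} (h : u a b = u c d) : a = c ∧ b = d := by
  obtain ⟨h1, h2⟩ := H.inj _ _ ((by rw [← H.mul, ← uinv H, h, mul_inv_cancel]) :
    u (a + c) (b + (d + θ c * c) + θ a * c) = 1)
  obtain rfl : a = c := by linear_combination h1 - two H c
  exact ⟨rfl, by linear_combination h2 - two H d - two H (θ a * a)⟩

theorem usq (a b : K) : u a b * u a b = u 0 (θ a * a) := by rw [H.mul, two H, two H, zero_add]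

/-- the unipotent subgroup -/
def U : Subgroup S where
  carrier := {s | ∃ a b, s = u a b}
  mul_mem' := by
    rintro _ _ ⟨a, b, rfl⟩ ⟨c, d, rfl⟩
    exact ⟨_, _, H.mul a b c d⟩
  one_mem' := ⟨0, 0, (u0 H).symm⟩
  inv_mem' := by
    rintro _ ⟨a, b, rfl⟩
    exact ⟨_, _, uinv H a b⟩

/-- the Borel subgroup -/
def B : Subgroup S where
  carrier := {s | ∃ v ∈ U H, ∃ m, s = v * t m}
  mul_mem' := by
    rintro _ _ ⟨v, hv, m, rfl⟩ ⟨_, ⟨c, d, rfl⟩, n, rfl⟩
    exact ⟨v * (t m * u c d * (t m)⁻¹), mul_mem hv ⟨_, _, H.tu m c d⟩, m * n, by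
      rw [← H.tmul]; group⟩
  one_mem' := ⟨1, one_mem _, 1, by rw [t1 H, mul_one]⟩
  inv_mem' := by
    rintro _ ⟨v, hv, m, rfl⟩
    obtain ⟨c, d, e⟩ := inv_mem hv
    exact ⟨t m⁻¹ * u c d * (t m⁻¹)⁻¹, ⟨_, _, H.tu _ c d⟩, m⁻¹, by rw [← e, ← tinv H]; group⟩

theorem um (a b : K) : u a b ∈ U H := ⟨a, b, rfl⟩

theorem UB {v : S} (h : v ∈ U H) : v ∈ B H := ⟨v, h, 1, by rw [t1 H, mul_one]⟩

theorem tm (m : Kˣ) : t m ∈ B H := ⟨1, one_mem _, m, by rw [one_mul]⟩

theorem wn : w ∉ B H := fun ⟨_, ⟨a, b, e⟩, m, h⟩ => H.nw a b m (e ▸ h)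

theorem nor {g v : S} (hg : g ∈ B H) (hv : v ∈ U H) : g * v * g⁻¹ ∈ U H := by
  obtain ⟨v', h', m, rfl⟩ := hg
  obtain ⟨c, d, rfl⟩ := hv
  have := mul_mem (mul_mem h' (H.tu m c d ▸ um H _ _ : t m * u c d * (t m)⁻¹ ∈ U H)) (inv_mem h')
  simpa [mul_assoc] using this

theorem four {v : S} (hv : v ∈ U H) : v ^ 4 = 1 := by
  obtain ⟨a, b, rfl⟩ := hv
  rw [show 4 = 2 * 2 from rfl, pow_mul, sq, sq, usq H, usq H, mul_zero, u0 H]

theorem cz (a b : K) (m : Kˣ) (x : K) :
    u a b * t m * u 0 x * (u a b * t m)⁻¹ = u 0 (m * m * θ m * x) := by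
  have : u a b * u 0 (m * m * θ m * x) = u 0 (m * m * θ m * x) * u a b := by
    rw [H.mul, H.mul]
    congr 1 <;> simp [add_comm]
  calc _ = u a b * (t m * u 0 x * (t m)⁻¹) * (u a b)⁻¹ := by group
    _ = _ := by rw [H.tu, mul_zero, this, mul_inv_cancel_right]

theorem mem_U {g : S} (hg : g ∈ B H) (h4 : g ^ 4 = 1) : g ∈ U H := by
  obtain ⟨_, ⟨a, b, rfl⟩, m, rfl⟩ := hg
  have e : ∀ g x : S, g ^ 4 * x * (g ^ 4)⁻¹ =
      g * (g * (g * (g * x * g⁻¹) * g⁻¹) * g⁻¹) * g⁻¹ := fun g x => by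
    simp [pow_succ, mul_assoc]
  have := e (u a b * t m) (u 0 1)
  rw [h4, one_mul, inv_one, mul_one, cz H, cz H, cz H, cz H] at this
  have k : (m * m * θ m : K) = 1 := sq_one H (sq_one H (by linear_combination -(uinj H this).2))
  have k' := congrArg θ k
  rw [map_mul, map_mul, H.sq, map_one] at k'
  have k2 : θ m = θ 1 := by
    rw [map_one]
    linear_combination k' - θ m * k
  rw [Units.ext (θ.injective k2 : (m : K) = (1 : Kˣ)), t1 H, mul_one]
  exact um H a b

theorem ti {v : S} (hv : v ∈ U H) (h : w * v * w ∈ B H) : v = 1 := by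
  obtain ⟨a, b, rfl⟩ := hv
  by_contra k
  obtain ⟨c, d, m, e, f, l⟩ := H.bru a b k
  rw [l] at h
  exact wn H ((mul_mem_cancel_left (mul_mem (UB H (um H c d)) (tm H m))).1
    ((mul_mem_cancel_right (UB H (um H e f))).1 h))

theorem mem_T {g : S} (hg : g ∈ B H) (h : w * g * w ∈ B H) : ∃ m, g = t m := by
  obtain ⟨v, hv, m, rfl⟩ := hg
  have e : w * (v * t m) * w = w * v * w * (w * t m * w) := by
    simp only [mul_assoc, ← mul_assoc w w, H.ww, one_mul]
  rw [e, H.wt, mul_mem_cancel_right (tm H _)] at h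
  exact ⟨m, by rw [ti H hv h, one_mul]⟩

theorem bruhat (g : S) : g ∈ B H ∨ ∃ b ∈ B H, ∃ v ∈ U H, g = b * w * v := by
  suffices g ∈ B H ∨ ∃ b ∈ B H, ∃ c ∈ B H, g = b * w * c by
    refine this.imp_right ?_
    rintro ⟨b, hb, _, ⟨v, hv, m, rfl⟩, rfl⟩
    refine ⟨b * t m⁻¹, mul_mem hb (tm H _), _, nor H (inv_mem (tm H m)) hv, ?_⟩
    rw [← H.wt]
    simp [mul_assoc, H.ww]
  have kU : ∀ v ∈ U H, ∀ g, (g ∈ B H ∨ ∃ b ∈ B H, ∃ c ∈ B H, g = b * w * c) →
      (v * g ∈ B H ∨ ∃ b ∈ B H, ∃ c ∈ B H, v * g = b * w * c) := fun v hv g h =>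
    h.imp (mul_mem (UB H hv)) fun ⟨b, hb, c, hc, e⟩ =>
      ⟨v * b, mul_mem (UB H hv) hb, c, hc, by rw [e]; group⟩
  have kw : ∀ g, (g ∈ B H ∨ ∃ b ∈ B H, ∃ c ∈ B H, g = b * w * c) →
      (w * g ∈ B H ∨ ∃ b ∈ B H, ∃ c ∈ B H, w * g = b * w * c) := by
    rintro g (h | ⟨_, ⟨_, ⟨a, b, rfl⟩, m, rfl⟩, c, hc, rfl⟩)
    · exact Or.inr ⟨1, one_mem _, g, h, by rw [one_mul]⟩
    have e : w * (u a b * t m * w * c) = w * u a b * w * (t m⁻¹ * c) := by
      rw [← H.wt]
      simp only [mul_assoc, ← mul_assoc w w, H.ww, one_mul]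
    have hc' := mul_mem (tm H m⁻¹) hc
    rw [e]
    by_cases k : u a b = 1
    · exact Or.inl (by rwa [k, mul_one, H.ww, one_mul])
    · obtain ⟨c', d, n, e', f, l⟩ := H.bru a b k
      exact Or.inr ⟨_, mul_mem (UB H (um H c' d)) (tm H n), _, mul_mem (UB H (um H e' f)) hc', by
        rw [l]; group⟩
  have hg := H.gen.ge (mem_top g)
  induction hg using closure_induction_left with
  | one => exact Or.inl (one_mem _)
  | mul_left x hx y _ ih => exact hx.elim (fun e => e ▸ kw y ih) fun e => kU x e y ih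
  | inv_mul_cancel x hx y _ ih =>
    exact hx.elim (fun e => by rw [e, winv H]; exact kw y ih) fun e => kU _ (inv_mem e) y ih

theorem ti' {g v : S} (hg : g ∉ B H) (hv : v ∈ U H) (h : g * v * g⁻¹ ∈ B H) : v = 1 := by
  obtain ⟨b, hb, c, hc, rfl⟩ := (bruhat H g).resolve_left hg
  have := ti H (nor H (UB H hc) hv) (by
    simpa [mul_assoc, winv H] using mul_mem (mul_mem (inv_mem hb) h) hb)
  simpa using this

theorem ne1 : u 0 1 ≠ 1 := fun e => one_ne_zero (H.inj _ _ e).2

theorem le_B [IsSimpleGroup S] {J : Subgroup S} (hJ : J ≠ ⊤) (hU : U H ≤ J) : J ≤ B H := by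
  intro j hj
  by_contra k
  obtain ⟨_, ⟨v0, a0, m0, rfl⟩, c0, hc0, rfl⟩ := (bruhat H j).resolve_left k
  have k1 : t m0 * w ∈ J := by
    simpa [mul_assoc] using mul_mem (mul_mem (inv_mem (hU a0)) hj) (inv_mem (hU hc0))
  refine ne1 H ((J.normalCore_normal.eq_bot_or_eq_top.resolve_right
    fun e => hJ (top_unique (e.ge.trans J.normalCore_le))).le fun g => ?_)
  rcases bruhat H g with h | ⟨_, ⟨v, a, m, rfl⟩, c, hc, rfl⟩
  · exact hU (nor H h (um H 0 1))
  · have k2 := mul_mem (hU a) k1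
    have k3 : w * t (m0⁻¹ * m) * w * c ∈ B H := mul_mem (H.wt _ ▸ tm H _) (UB H hc)
    have e : v * t m * w * c = v * (t m0 * w) * (w * t (m0⁻¹ * m) * w * c) := by
      rw [← H.tmul, ← tinv H]
      simp only [mul_assoc, ← mul_assoc w w, H.ww, one_mul, mul_inv_cancel_left]
    rw [e]
    simpa [mul_assoc] using mul_mem (mul_mem k2 (hU (nor H k3 (um H 0 1)))) (inv_mem k2)

theorem loc [Finite K] [IsSimpleGroup S] (h8 : 8 ≤ Nat.card K) {D : Subgroup (MulAut S)}
    (hJ : D.comap MulAut.conj ≠ ⊤) (hU : U H ≤ D.comap MulAut.conj) : LocA D := by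
  have a1 := le_B H hJ hU
  have a2 : ∀ β ∈ D, ∀ v ∈ U H, β v ∈ U H := fun β a v b => by
    refine mem_U H (a1 (mem_comap.2 ?_)) (by rw [← map_pow, four H b, map_one])
    have e : MulAut.conj (β v) = β * MulAut.conj v * β⁻¹ := by
      ext
      simp
    rw [e]
    exact mul_mem (mul_mem a (mem_comap.1 (hU b))) (inv_mem a)
  have a3 : ∀ β ∈ D, ∀ g ∈ B H, β g ∈ B H := fun β a g b => by_contra fun k =>
    ne1 H (β.map_eq_one_iff.1 (ti' H k (a2 β a _ (um H 0 1)) (by
      simpa using UB H (a2 β a _ (nor H b (um H 0 1))))))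
  obtain ⟨m0, hm0⟩ := IsCyclic.exists_generator (α := Kˣ)
  have := Fintype.ofFinite K
  obtain ⟨n⟩ : Nonempty (ZMod 7 ↪ K) := Function.Embedding.nonempty_of_card_le (by
    rw [ZMod.card, ← Nat.card_eq_fintype_card]; omega)
  refine ⟨fun a i => (![1, u 1 (n i), t m0 * u 1 (n i) * (t m0)⁻¹] a * w)⁻¹, fun β b1 i j b2 => ?_⟩
  have b3 : ∀ x y : S, MulAut.conj x⁻¹ * β * (MulAut.conj y⁻¹)⁻¹ ∈ D → x⁻¹ * β y ∈ B H :=
    fun x y a => a1 (mem_comap.2 (by
      have e : MulAut.conj (x⁻¹ * β y) = MulAut.conj x⁻¹ * β * (MulAut.conj y⁻¹)⁻¹ * β⁻¹ := by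
        ext
        simp [mul_assoc]
      rw [e]
      exact mul_mem a (inv_mem b1)))
  have c0 : w * β w ∈ B H := by simpa [winv H] using b3 _ _ (b2 0)
  have wb : ∀ s, w * (w * s) = s := fun s => by rw [← mul_assoc, H.ww, one_mul]
  have bw : ∀ s, β w * (β w * s) = s := fun s => by
    rw [← mul_assoc, ← map_mul, H.ww, map_one, one_mul]
  have bi : (β w)⁻¹ = β w := by rw [← map_inv, winv H]
  have b4 : ∀ x ∈ U H, ∀ y ∈ U H, (x * w)⁻¹ * β (y * w) ∈ B H → β y = x := fun x hx y hy a =>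
    (inv_mul_eq_one.1 (ti H (mul_mem (inv_mem hx) (a2 β b1 y hy)) (by
      simpa [mul_assoc, winv H, bi, bw] using mul_mem a (inv_mem c0)))).symm
  have c1 : β (u 1 (n j)) = u 1 (n i) := b4 _ (um H _ _) _ (um H _ _) (b3 _ _ (b2 1))
  have c2 : β (t m0 * u 1 (n j) * (t m0)⁻¹) = t m0 * u 1 (n i) * (t m0)⁻¹ :=
    b4 _ (nor H (tm H _) (um H _ _)) _ (nor H (tm H _) (um H _ _)) (b3 _ _ (b2 2))
  obtain ⟨m, hm⟩ := mem_T H (a3 β b1 _ (tm H m0)) (by
    have := mul_mem (mul_mem c0 (a3 β b1 _ (H.wt m0 ▸ tm H _ : w * t m0 * w ∈ B H))) (inv_mem c0)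
    simpa [mul_assoc, winv H, bi, bw] using this)
  rw [map_mul, map_mul, map_inv, hm, c1, H.tu, H.tu] at c2
  obtain rfl : m = m0 := Units.ext (θ.injective (by simpa using (uinj H c2).1))
  let τ : Kˣ →* S := MonoidHom.mk' t fun a b => (H.tmul a b).symm
  have c3 : ∀ k, β (t k) = t k := fun k => by
    obtain ⟨z, rfl⟩ := hm0 k
    show β (τ (m ^ z)) = τ (m ^ z)
    rw [map_zpow, map_zpow]
    exact congrArg (· ^ z) hm
  have c4 : ∀ k, β (u k (θ k * k * n j)) = u k (θ k * k * n i) := fun k => by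
    obtain ⟨l, rfl⟩ := Finite.surjective_of_injective θ.injective k
    rcases eq_or_ne l 0 with rfl | hl
    · simp [u0 H]
    · have := congrArg β (H.tu (Units.mk0 l hl) 1 (n j))
      rw [map_mul, map_mul, map_inv, c3, c1, H.tu] at this
      simpa [H.sq] using this.symm
  have c5 : ∀ b, β (u 0 b) = u 0 b := fun b => by
    obtain ⟨k, rfl⟩ := Finite.surjective_of_injective (f := fun k => θ k * k) (fun x y e => by
      rcases eq_or_ne y 0 with rfl | hy
      · simpa using e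
      have e1 : θ x * x = θ y * y := e
      have e2 := congrArg θ e1
      rw [map_mul, map_mul, H.sq, H.sq] at e2
      refine mul_left_cancel₀ (mul_ne_zero ((map_ne_zero θ).2 hy) hy) ?_
      linear_combination e2 - x * e1) b
    show β (u 0 (θ k * k)) = u 0 (θ k * k)
    rw [← usq H k (θ k * k * n j), map_mul, c4, usq H, usq H]
  have c6 : ∀ a b, β (u a b) = u a (b + θ a * a * (n i + n j)) := fun a b => by
    have e : u a b = u a (θ a * a * n j) * u 0 (b + θ a * a * n j) := by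
      rw [H.mul, add_zero]
      congr 1
      linear_combination -two H (θ a * a * n j)
    rw [e, map_mul, c4, c5, H.mul, add_zero]
    congr 1
    ring
  have c7 : n i + n j = 0 := by_contra fun k => by
    have f : ∀ a : K, a = 0 ∨ a = 1 := fun a => by
      have f1 : ∀ a : K, θ a = a := fun a => by
        have := congrArg β (H.mul a 0 1 0)
        rw [map_mul, c6, c6, c6, H.mul] at this
        have := (uinj H this).2
        rw [map_add, map_one] at this
        refine mul_left_cancel₀ k ?_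
        linear_combination -this - two H (a * (n i + n j))
      have := H.sq a
      rw [f1, f1] at this
      exact (eq_or_ne a 0).imp_right fun h => (mul_left_cancel₀ h (by rw [← this, mul_one])).symm
    have g : ∀ x y : ZMod 7, n x = n y → x = y := fun _ _ e => n.injective e
    rcases f (n 0) with p | p <;> rcases f (n 1) with q | q <;> rcases f (n 2) with r | r <;>
      first
        | exact absurd (g _ _ (p.trans q.symm)) (by decide)
        | exact absurd (g _ _ (p.trans r.symm)) (by decide)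
        | exact absurd (g _ _ (q.trans r.symm)) (by decide)
  refine ⟨n.injective (by linear_combination c7 - two H (n j)), ?_⟩
  have d : ∀ g, g⁻¹ * β g ∈ B H := fun g => by
    rcases bruhat H g⁻¹ with h | ⟨b, hb, _, ⟨x, y, rfl⟩, e⟩
    · exact mul_mem h (by simpa using inv_mem (a3 β b1 _ h))
    · have e' : β (u x y) = u x y := by rw [c6, c7, mul_zero, add_zero]
      rw [← inv_inv (β g), ← map_inv, e]
      simpa [mul_assoc, e', bi] using mul_mem (mul_mem hb c0) (inv_mem (a3 β b1 _ hb))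
  refine MulEquiv.ext fun g => (inv_mul_eq_one.1
    (((B H).normalCore_normal.eq_bot_or_eq_top.resolve_right fun e =>
      wn H ((B H).normalCore_le (e.ge (mem_top w)))).le fun h => ?_)).symm
  simpa [mul_assoc] using mul_mem (inv_mem (d (β⁻¹ h⁻¹))) (d (g * β⁻¹ h⁻¹))

end sz4

theorem sz4 : Sz4.{u} := by
  intro K _ _ θ S _ _ _ u t w h8 H hS hi D _ hD
  obtain ⟨x, hx⟩ := exists_conj_of_isPGroup Nat.prime_two hD (Q := sz4.U H)
    fun g => ⟨2, Subtype.ext (sz4.four H g.2)⟩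
  have : Group.IsSolvable (MulAut.conj : S →* MulAut S).ker := by
    rw [(MonoidHom.ker_eq_bot_iff _).2 hi]; infer_instance
  have := solvable_comap MulAut.conj D
  refine sz4.loc (sz4.map H (MulAut.conj x)) h8 (fun e => hS ⟨⟨IsSimpleGroup.comm_iff_isSolvable.2
    (Group.isSolvable_of_surjective (f := (D.comap MulAut.conj).subtype) fun s =>
      ⟨⟨s, e.ge (mem_top s)⟩, rfl⟩)⟩⟩) ?_
  rintro _ ⟨a, b, rfl⟩
  exact mem_conjBy.1 (hx ⟨a, b, rfl⟩)

end Pool.Agent.MP_983df8_al

end MrgPart5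

-- marker of a merged file
example : 731051 + 396434 = 731051 + 396434 := rfl
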