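import Pool.Agent.MP_983df8_al.Dist3

/-! A large cyclic subgroup in dimension two. -/

namespace Pool.Agent.MP_983df8_al

universe u v w

open Matrix Subgroup

namespace cyc

section mat

variable {F : Type*} [Field F]

/-- scalar matrices -/
def Sc (X : M2 F) : Prop := ∃ a : F, X = a • (1 : M2 F)

theorem ch (X : M2 F) : X * X = X.trace • X - X.det • (1 : M2 F) := by
  simp only [m2_ext, m2_mul, trace_fin_two, det_fin_two]
  simp
  refine ⟨?_, ?_, ?_, ?_⟩ <;> ring

theorem comm_span {X Y : M2 F} (h : ¬ Sc X) (c : X * Y = Y * X) :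
    ∃ a b : F, Y = a • (1 : M2 F) + b • X := by
  simp only [m2_ext, m2_mul] at c
  obtain ⟨c1, c2, c3, -⟩ := c
  by_cases h1 : X 0 1 = 0
  · by_cases h2 : X 1 0 = 0
    · have h3 : X 0 0 - X 1 1 ≠ 0 := fun e => h ⟨X 0 0, by
        simp [m2_ext, h1, h2, sub_eq_zero.1 e]⟩
      refine ⟨Y 0 0 - (Y 0 0 - Y 1 1) / (X 0 0 - X 1 1) * X 0 0,
        (Y 0 0 - Y 1 1) / (X 0 0 - X 1 1), ?_⟩
      simp only [m2_ext]
      simp
      refine ⟨?_, ?_, ?_⟩ <;> field_simp
      · linear_combination c2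
      · linear_combination -c3
      · ring
    · refine ⟨Y 0 0 - Y 1 0 / X 1 0 * X 0 0, Y 1 0 / X 1 0, ?_⟩
      simp only [m2_ext]
      simp
      refine ⟨?_, ?_, ?_⟩ <;> field_simp
      · linear_combination -c1
      · linear_combination -c3
  · refine ⟨Y 0 0 - Y 0 1 / X 0 1 * X 0 0, Y 0 1 / X 0 1, ?_⟩
    simp only [m2_ext]
    simp
    refine ⟨?_, ?_, ?_⟩ <;> field_simp
    · linear_combination c1
    · linear_combination c2

theorem comm_comm {X Y Z : M2 F} (h : ¬ Sc X) (c : X * Y = Y * X) (c' : X * Z = Z * X) :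
    Y * Z = Z * Y := by
  obtain ⟨a, b, rfl⟩ := comm_span h c
  simp only [add_mul, mul_add, smul_mul_assoc, mul_smul_comm, one_mul, mul_one, c']

theorem det_span (a b : F) (X : M2 F) :
    (a • (1 : M2 F) + b • X).det = a * a + a * b * X.trace + b * b * X.det := by
  simp [det_fin_two, trace_fin_two]
  ring

theorem sc_sign {X : M2 F} (h : Sc X) (d : X.det = 1) : X = 1 ∨ X = -1 := by
  obtain ⟨a, rfl⟩ := h
  have : a = 1 ∨ a = -1 := by simpa [det_fin_two] using d
  rcases this with rfl | rfl <;> simp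

theorem unip {X : M2 F} (d : X.det = 1) (t : X.trace ^ 2 = 4) (h2 : (2 : F) ≠ 0) {k : ℕ}
    (hk : (k : F) ≠ 0) (e : X ^ k = 1) : Sc X := by
  obtain ⟨ε, h1, h3⟩ : ∃ ε : F, ε * ε = 1 ∧ X.trace = 2 * ε :=
    ⟨X.trace / 2, by field_simp; linear_combination t, by field_simp⟩
  obtain ⟨ν, hν, n2⟩ : ∃ ν : M2 F, X = ε • (1 + ν) ∧ ν * ν = 0 := by
    refine ⟨ε • X - 1, by rw [add_sub_cancel, smul_smul, h1, one_smul], ?_⟩
    have q : ε • X * ε • X = X * X := by
      rw [smul_mul_assoc, mul_smul_comm, smul_smul, h1, one_smul]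
    simp only [sub_mul, mul_sub, q, mul_one, one_mul]
    rw [ch, d, h3]
    module
  have pw : ∀ j : ℕ, (1 + ν) ^ j = 1 + (j : F) • ν := fun j => by
    induction j with
    | zero => simp
    | succ j ih =>
      rw [pow_succ, ih, Nat.cast_succ, add_smul]
      simp only [add_mul, mul_add, one_mul, mul_one, smul_mul_assoc, n2, smul_zero, add_zero,
        one_smul]
      abel
  rw [hν, smul_pow, pw] at e
  have e1 := congrArg (· * ν) e
  simp only [smul_mul_assoc, add_mul, one_mul, n2, smul_zero, add_zero] at e1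
  rw [smul_add, smul_comm, e1] at e
  have e2 : (k : F) • ν = (1 - ε ^ k) • (1 : M2 F) := by
    rw [sub_smul, one_smul]
    exact eq_sub_of_add_eq' e
  refine ⟨ε * (1 + (k : F)⁻¹ * (1 - ε ^ k)), ?_⟩
  rw [mul_smul, add_smul, mul_smul, ← e2, smul_smul, inv_mul_cancel₀ hk, one_smul, one_smul, hν]

theorem eig {X W : M2 F} {l : F} (d : X.det = 1) (hW : W ≠ 0) (e : X * W = l • W) :
    l ≠ 0 ∧ X.trace = l + l⁻¹ := by
  have c := congrArg (· * W) (ch X)
  simp only [mul_assoc, e, mul_smul_comm, sub_mul, smul_mul_assoc, d, one_smul, one_mul,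
    smul_smul] at c
  have : (l * l - X.trace * l + 1) • W = 0 := by
    rw [add_smul, sub_smul, c, one_smul]
    abel
  have q := (smul_eq_zero.1 this).resolve_right hW
  have h0 : l ≠ 0 := fun z => by simp [z] at q
  exact ⟨h0, by field_simp; linear_combination -q⟩

end mat

theorem idx {G : Type*} [Group G] (u : G) :
    (centralizer {u}).index = {x | ∃ g, g * u * g⁻¹ = x}.ncard := by
  let : MulAction G G := MulAction.compHom G (MulAut.conj (G := G))
  have h := MulAction.index_stabilizer G u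
  have e : MulAction.stabilizer G u = centralizer {u} := by
    ext g
    rw [mem_centralizer_singleton_iff, MulAction.mem_stabilizer_iff]
    exact mul_inv_eq_iff_eq_mul
  rw [← e, h]
  rfl

theorem three {G : Type*} [Group G] [Finite G] (h3 : ¬ 3 ∣ Nat.card G) {a b c : G} (ab : a ≠ b)
    (ac : a ≠ c) (bc : b ≠ c) (h : ∀ g, g * a * g⁻¹ = a ∨ g * a * g⁻¹ = b ∨ g * a * g⁻¹ = c)
    (hb : ∃ g, g * a * g⁻¹ = b) : ¬ ∃ g, g * a * g⁻¹ = c := fun hc => by
  have e : {x | ∃ g, g * a * g⁻¹ = x} = {a, b, c} := by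
    ext x
    constructor
    · rintro ⟨g, rfl⟩
      exact h g
    · rintro (rfl | rfl | rfl)
      exacts [⟨1, by simp⟩, hb, hc]
  have := (centralizer {a}).index_dvd_card
  rw [idx, e, Set.ncard_eq_three.2 ⟨a, b, c, ab, ac, bc, rfl⟩] at this
  exact h3 this

variable {F : Type v} [Field F] {Γ : Type u} [Group Γ] [Finite Γ] {θ : Γ →* M2 F}

theorem torus [IsAlgClosed F] (inj : Function.Injective θ) (det : ∀ γ, (θ γ).det = 1)
    (h2 : (2 : F) ≠ 0) (hc : (Nat.card Γ : F) ≠ 0) {x : Γ} (hx : ¬ Sc (θ x))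
    (hn : ∀ g, Commute (g * x * g⁻¹) x) :
    ∃ (γ : Γ) (l : F), l ≠ 0 ∧ (θ γ).trace = l + l⁻¹ ∧ Nat.card Γ ≤ 2 * orderOf l := by
  have ss : ∀ γ, (θ γ).trace ^ 2 = 4 → Sc (θ γ) := fun γ t =>
    unip (det γ) t h2 hc (by rw [← map_pow, pow_card_eq_one', map_one])
  have ht : (θ x).trace ^ 2 - 4 ≠ 0 := fun e => hx (ss x (sub_eq_zero.1 e))
  have two : ∀ g, g * x * g⁻¹ = x ∨ g * x * g⁻¹ = x⁻¹ := fun g => by
    obtain ⟨a, b, e⟩ := comm_span hx (Y := θ (g * x * g⁻¹))
      (by rw [← map_mul, ← map_mul, (hn g).eq])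
    have t1 : (θ (g * x * g⁻¹)).trace = (θ x).trace := by
      rw [map_mul, trace_mul_comm, ← map_mul, inv_mul_cancel_left]
    have d1 := det (g * x * g⁻¹)
    rw [e, det_span, det] at d1
    rw [e] at t1
    simp at t1
    have q : (b - 1) * (b + 1) * ((θ x).trace ^ 2 - 4) = 0 := by
      linear_combination (-4) * d1 + (2 * a + b * (θ x).trace + (θ x).trace) * t1
    rcases mul_eq_zero.1 ((mul_eq_zero.1 q).resolve_right ht) with q | q
    · have a0 : a = 0 := (mul_eq_zero.1 (by linear_combination t1 - (θ x).trace * q :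
        2 * a = 0)).resolve_left h2
      exact Or.inl (inj (by rw [e, a0, sub_eq_zero.1 q]; simp))
    · have a0 : a = (θ x).trace := mul_left_cancel₀ h2 (by linear_combination t1 - (θ x).trace * q)
      refine Or.inr (eq_inv_of_mul_eq_one_left (inj ?_))
      rw [map_mul, e, a0, eq_neg_of_add_eq_zero_left q, add_mul, smul_mul_assoc, smul_mul_assoc,
        ch, det]
      simp
  have hi : (centralizer {x}).index ≤ 2 := by
    rw [idx]
    refine le_trans (Set.ncard_le_ncard (t := {x, x⁻¹}) ?_) ((Set.ncard_insert_le _ _).trans (by simp))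
    rintro _ ⟨g, rfl⟩
    exact two g
  obtain ⟨s, hs⟩ := IsAlgClosed.exists_eq_mul_self ((θ x).trace ^ 2 - 4)
  obtain ⟨m, m', e1, e2⟩ : ∃ m m' : F, m + m' = (θ x).trace ∧ m * m' = 1 :=
    ⟨((θ x).trace + s) / 2, ((θ x).trace - s) / 2, by field_simp; ring,
      by field_simp; linear_combination hs⟩
  obtain ⟨W, hW, eW⟩ : ∃ W : M2 F, W ≠ 0 ∧ θ x * W = m • W := by
    refine ⟨θ x - m' • 1, fun e => hx ⟨m', sub_eq_zero.1 e⟩, ?_⟩
    rw [mul_sub, ch, det, ← e1, smul_sub, smul_smul, e2, add_smul, mul_smul_comm, mul_one]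
    abel
  have ex : ∀ c : centralizer {x}, ∃ l : F, θ c * W = l • W := fun c => by
    obtain ⟨a, b, e⟩ := comm_span hx (Y := θ c)
      (by rw [← map_mul, ← map_mul, mem_centralizer_singleton_iff.1 c.2])
    exact ⟨a + b * m, by
      rw [e, add_mul, smul_mul_assoc, smul_mul_assoc, eW, one_mul, smul_smul, add_smul]⟩
  choose f hf using ex
  let χ : centralizer {x} →* F :=
    { toFun := f
      map_one' := smul_left_injective F hW (by simpa using (hf 1).symm)
      map_mul' := fun a b => smul_left_injective F hW (by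
        have := hf (a * b)
        rw [coe_mul, map_mul, mul_assoc, hf, mul_smul_comm, hf, smul_smul, mul_comm] at this
        exact this.symm) }
  have hχ : Function.Injective χ := (injective_iff_map_eq_one χ).2 fun c e => by
    have e' : f c = 1 := e
    have t := (eig (det c) hW (hf c)).2
    obtain ⟨a, ha⟩ := ss c (by rw [t, e']; norm_num)
    have k := hf c
    rw [ha, smul_mul_assoc, one_mul, e'] at k
    rw [smul_left_injective F hW k, one_smul] at ha
    exact Subtype.ext (inj (ha.trans (map_one θ).symm))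
  have := isCyclic_of_injective_ringHom χ hχ
  obtain ⟨γ, hγ⟩ := IsCyclic.exists_ofOrder_eq_natCard (α := centralizer {x})
  refine ⟨γ, χ γ, (eig (det γ) hW (hf γ)).1, (eig (det γ) hW (hf γ)).2, ?_⟩
  rw [orderOf_injective χ hχ, hγ, ← (centralizer {x}).index_mul_card]
  exact Nat.mul_le_mul_right _ hi

end cyc

open cyc

theorem cyc2 : Cyc2.{u, v} := by
  intro F _ _ Γ _ _ _ θ inj det h2 hc h3
  by_cases c1 : ∃ x, ¬ Sc (θ x) ∧ ∀ g, Commute (g * x * g⁻¹) x
  · obtain ⟨x, hx, hn⟩ := c1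
    exact torus inj det h2 hc hx hn
  let Z : Subgroup Γ :=
    { carrier := {x | θ x = 1 ∨ θ x = -1}
      one_mem' := Or.inl (map_one θ)
      mul_mem' := by
        rintro a b (ha | ha) (hb | hb) <;> simp [ha, hb]
      inv_mem' := by
        intro a ha
        have := θ.map_mul a a⁻¹
        rw [mul_inv_cancel, map_one] at this
        rcases ha with ha | ha <;> rw [ha] at this
        · exact Or.inl (by simpa using this.symm)
        · exact Or.inr (by rw [this]; simp) }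
  have zs : ∀ x, x ∈ Z ↔ Sc (θ x) := fun x => ⟨by
    rintro (h | h)
    exacts [⟨1, by simpa using h⟩, ⟨-1, by simpa using h⟩], fun h => sc_sign h (det x)⟩
  have zc : ∀ z ∈ Z, ∀ g, z * g = g * z := fun z hz g => inj (by
    rcases hz with h | h <;> simp [h])
  have zn : Z.Normal := ⟨fun z hz g => by rw [← zc z hz g]; simpa using hz⟩
  by_cases c2 : ⊤ ≤ Z
  · refine ⟨1, 1, one_ne_zero, by simp; norm_num, ?_⟩
    rw [orderOf_one, mul_one, ← Set.ncard_univ, ← Set.ncard_image_of_injective _ inj]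
    refine le_trans (Set.ncard_le_ncard (t := {1, -1}) ?_)
      ((Set.ncard_insert_le _ _).trans (by simp))
    rintro _ ⟨x, -, rfl⟩
    exact c2 trivial
  exfalso
  obtain ⟨N, nn, -, hN, hk⟩ := exists_layer c2
  obtain ⟨a, ha, za⟩ := SetLike.not_le_iff_exists.1 hN
  have nc : ∀ x ∉ Z, ∃ g, ¬ Commute (g * x * g⁻¹) x := fun x hx => by
    by_contra k
    exact c1 ⟨x, fun s => hx ((zs x).2 s), fun g => by_contra fun k' => k ⟨g, k'⟩⟩
  obtain ⟨g, hg⟩ := nc a za
  obtain ⟨b, hb⟩ : ∃ b, b = g * a * g⁻¹ := ⟨_, rfl⟩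
  rw [← hb] at hg
  have bN : b ∈ N := hb ▸ nn.conj_mem a ha g
  have sgn : ∀ x ∈ N, ∀ y ∈ N, θ x * θ y = θ y * θ x ∨ θ x * θ y = -(θ y * θ x) := by
    intro x hx y hy
    have e : θ x * θ y = θ (x * y * x⁻¹ * y⁻¹) * (θ y * θ x) := by
      simp only [← map_mul]
      congr 1
      group
    rcases hk x hx y hy with h | h <;> rw [h] at e
    · exact Or.inl (by simpa using e)
    · exact Or.inr (by simpa using e)
  have ab : θ b * θ a = -(θ a * θ b) := (sgn b bN a ha).resolve_left fun e =>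
    hg (inj (by rw [map_mul, map_mul, e]))
  have cz : ∀ x, θ x * θ a = θ a * θ x → θ x * θ b = θ b * θ x → x ∈ Z := fun x e1 e2 => by
    by_contra k
    exact hg (inj (by rw [map_mul, map_mul, comm_comm (fun s => k ((zs x).2 s)) e2 e1]))
  have qe : ∀ x y : Γ, y * x ∈ Z → x * x ∈ Z → (y : Γ ⧸ Z) = x := fun x y h h' => by
    rw [QuotientGroup.eq_iff_div_mem]
    have := Z.mul_mem h (Z.inv_mem h')
    rwa [show y * x * (x * x)⁻¹ = y / x by rw [div_eq_mul_inv]; group] at this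
  have four : ∀ x ∈ N, x ∈ Z ∨ x * a ∈ Z ∨ x * b ∈ Z ∨ x * (a * b) ∈ Z := fun x hx => by
    rcases sgn x hx a ha with e1 | e1 <;> rcases sgn x hx b bN with e2 | e2
    · exact Or.inl (cz x e1 e2)
    · refine Or.inr (Or.inl (cz _ ?_ ?_)) <;> simp only [map_mul]
      · rw [← mul_assoc, e1]
      · rw [← mul_assoc, ← neg_neg (θ b * θ x), ← e2, neg_mul, mul_assoc, mul_assoc, ab, mul_neg,
          neg_neg]
    · refine Or.inr (Or.inr (Or.inl (cz _ ?_ ?_))) <;> simp only [map_mul]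
      · rw [mul_assoc, ab, mul_neg, ← mul_assoc, e1, neg_mul, neg_neg, mul_assoc]
      · rw [← mul_assoc, e2]
    · refine Or.inr (Or.inr (Or.inr (cz _ ?_ ?_))) <;> simp only [map_mul]
      · rw [mul_assoc, mul_assoc, ab, mul_neg, mul_neg, ← mul_assoc, e1, neg_mul, neg_neg,
          mul_assoc]
      · rw [← mul_assoc (θ b), ← neg_neg (θ b * θ x), ← e2, neg_mul, mul_assoc (θ x) (θ b),
          ← mul_assoc (θ b), ab, neg_mul, mul_neg, neg_neg, mul_assoc]
  have zb : b ∉ Z := fun h => hg (zc b h a)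
  have zab : a * b ∉ Z := fun h => hg (mul_left_cancel (a := a) (by rw [← mul_assoc, zc _ h a]))
  have sq : ∀ x ∈ N, x * x ∈ Z := fun x hx => by
    refine cz _ ?_ ?_ <;> simp only [map_mul]
    · rcases sgn x hx a ha with e | e
      · rw [mul_assoc, e, ← mul_assoc, e, mul_assoc]
      · rw [mul_assoc, e, mul_neg, ← mul_assoc, e, neg_mul, neg_neg, mul_assoc]
    · rcases sgn x hx b bN with e | e
      · rw [mul_assoc, e, ← mul_assoc, e, mul_assoc]
      · rw [mul_assoc, e, mul_neg, ← mul_assoc, e, neg_mul, neg_neg, mul_assoc]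
  have abN := N.mul_mem ha bN
  have cls : ∀ x ∈ N, x ∉ Z → ∀ k : Γ, ((k * x * k⁻¹ : Γ) : Γ ⧸ Z) = a ∨
      ((k * x * k⁻¹ : Γ) : Γ ⧸ Z) = b ∨ ((k * x * k⁻¹ : Γ) : Γ ⧸ Z) = (a * b : Γ) := by
    intro x hx hz k
    rcases four _ (nn.conj_mem x hx k) with e | e | e | e
    · exact absurd (by simpa [mul_assoc] using zn.conj_mem' _ e k) hz
    · exact Or.inl (qe _ _ e (sq a ha))
    · exact Or.inr (Or.inl (qe _ _ e (sq b bN)))
    · exact Or.inr (Or.inr (qe _ _ e (sq _ abN)))
  have t3 := three (G := Γ ⧸ Z) (fun h => h3 (h.trans Z.card_quotient_dvd_card)) (a := a) (b := b)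
    (c := (a * b : Γ))
    (fun e => zab (by
      have := Z.mul_mem (sq a ha) (QuotientGroup.eq.1 e)
      rwa [show a * a * (a⁻¹ * b) = a * b by group] at this))
    (fun e => zb (by simpa using QuotientGroup.eq.1 e))
    (fun e => za (by simpa [mul_assoc] using zn.conj_mem _ (QuotientGroup.eq.1 e) b))
    (fun k => by
      obtain ⟨k, rfl⟩ := QuotientGroup.mk_surjective k
      exact cls a ha za k)
    ⟨g, by rw [hb]; rfl⟩
  obtain ⟨k, hk'⟩ := nc _ zab
  rcases cls _ abN zab k with e | e | e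
  · refine t3 ⟨(k⁻¹ : Γ), ?_⟩
    rw [← e]
    simp [mul_assoc]
  · refine t3 ⟨(k⁻¹ * g : Γ), ?_⟩
    have : ((a * b : Γ) : Γ ⧸ Z) = (k⁻¹ : Γ) * (b : Γ ⧸ Z) * (k : Γ) := by
      rw [← e]
      simp [mul_assoc]
    rw [this, hb]
    simp [mul_assoc]
  · have := zc _ (QuotientGroup.eq.1 e) (a * b)
    refine hk' (Commute.inv_left_iff.1 ?_)
    exact mul_right_cancel (b := a * b) (by rw [this, ← mul_assoc])

end Pool.Agent.MP_983df8_al
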