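import Mathlib.Algebra.Lie.OfAssociative
import Mathlib.LinearAlgebra.RootSystem.Finite.G2
import Pool.Agent.MP_983df8_al.Defs10

namespace Pool.Agent.MP_983df8_al

open Subgroup TensorProduct

/-- the `h i` (`i` simple) and the `e a` form a Chevalley basis of the Lie ring `L` -/
def IsChevBasis {ι M N L : Type} [Finite ι] [AddCommGroup M] [Module ℚ M] [AddCommGroup N]
    [Module ℚ N] [LieRing L] (P : RootPairing ι ℚ M N) [P.IsCrystallographic] (b : P.Base)
    (e h : ι → L) : Prop :=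
  LinearIndependent ℤ (Sum.elim (fun i : b.support => h i) e) ∧
  Submodule.span ℤ (Set.range (Sum.elim (fun i : b.support => h i) e)) = ⊤ ∧
  ∀ a c, ⁅h a, h c⁆ = 0 ∧ ⁅h a, e c⁆ = P.pairingIn ℤ c a • e c ∧
    (P.root c = -P.root a → ⁅e a, e c⁆ = h a) ∧ ∀ d, P.root d = P.root c + P.root a →
      ∃ n : ℤ, n.natAbs = P.chainBotCoeff a c + 1 ∧ ⁅e a, e c⁆ = n • e d

/-- the root element `exp (t ad x)` on `K ⊗ L`, where `d k` is `(ad x) ^ k / k !` -/
noncomputable def xr (K : Type) [CommRing K] {L : Type} [AddCommGroup L]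
    (d : ℕ → Module.End ℤ L) (t : K) : Module.End K (K ⊗[ℤ] L) :=
  ∑ᶠ k : ℕ, t ^ k • (d k).baseChange K

/-- the group generated by the elements of `U` and of `V` that commute with `s`, where `U`, `V` are
generated by the positive and the negative root elements -/
def twisted {ι K W : Type} [Field K] [AddCommGroup W] [Module K W] (x : ι → K → Module.End K W)
    (pos : ι → Prop) (s : W → W) : Submonoid (Module.End K W) :=
  Submonoid.closure {u | (u ∈ Submonoid.closure {y | ∃ a t, pos a ∧ y = x a t} ∨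
    u ∈ Submonoid.closure {y | ∃ a t, ¬ pos a ∧ y = x a t}) ∧ ∀ v, u (s v) = s (u v)}

/-- `S` is a Chevalley group or a Steinberg group, for a root system of rank at least two, over a
field with `q` elements; `q > 2`, or the characteristic lies in `π` and the rank is above two; the
characteristic lies in `π`, or `2 ∉ π`, or `q > 32` (type not `G₂` in characteristic three) -/
def IsLie (π : Set ℕ) (S : Type*) [Group S] : Prop :=
  ∃ (ι M N L K : Type) (_ : Finite ι) (_ : AddCommGroup M) (_ : Module ℚ M) (_ : AddCommGroup N)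
    (_ : Module ℚ N) (_ : LieRing L) (_ : Field K) (_ : Finite K) (P : RootPairing ι ℚ M N)
    (_ : P.IsCrystallographic) (b : P.Base) (e h : ι → L) (d : ι → ℕ → Module.End ℤ L)
    (τ : Equiv.Perm ι) (γ : L ≃ₗ⁅ℤ⁆ L) (θ : RingAut K),
    P.IsRootSystem ∧ P.IsReduced ∧ P.IsIrreducible ∧ 1 < b.support.card ∧ IsChevBasis P b e h ∧
    (∀ a k, k.factorial • d a k = LieAlgebra.ad ℤ L (e a) ^ k) ∧
    (∀ a, γ (e a) = e (τ a) ∨ γ (e a) = -e (τ a)) ∧
    (∀ i ∈ b.support, τ i ∈ b.support ∧ γ (e i) = e (τ i)) ∧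
    orderOf τ = orderOf θ ∧ orderOf θ ≤ 3 ∧
    (2 < Nat.card {t // θ t = t} ∨ ringChar K ∈ π ∧ 2 < b.support.card) ∧
    (ringChar K ∈ π ∨ 2 ∉ π ∨ 32 < Nat.card {t // θ t = t} ∧ (ringChar K = 3 → P.IsNotG2)) ∧
    Nonempty (S ≃* twisted (fun a => xr K (d a)) b.IsPos
      (TensorProduct.map θ.toAddMonoidHom.toIntLinearMap γ.toLinearMap))

/-- Every non-abelian simple subnormal subgroup of `G` is an alternating group, a group
`PSL(2, q)`, a Suzuki group, or, provided one of the primes 2, 3 is not in `π`, a group `PSL(n, q)`,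
a Chevalley or Steinberg group as in `IsLie`, or satisfies `Cnt`, `Gen4`, `IsBN3` or `IsChar`. -/
def Known (π : Set ℕ) (G : Type*) [Group G] : Prop :=
  ∀ S : Subgroup G, S.IsSubnormal → IsSimpleGroup S → ¬ IsMulCommutative S →
    IsAlt S ∨ IsL2 S ∨ IsSz S ∨ ((2 ∉ π ∨ 3 ∉ π) ∧
      (IsLn S ∨ IsLie π S ∨ Cnt π S ∨ Gen4 π S ∨ ∃ p : ℕ, p.Prime ∧ ((p ∈ π ∧ IsBN3 p S) ∨
        (p ∉ π ∧ IsChar p S ∧ (Syl π p S ∨ (p = 2 ∧ NoInv π S))))))

end Pool.Agent.MP_983df8_al
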