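import Pool.Agent.MP_983df8_al.Defs11
import Pool.Agent.MP_983df8_al.Defs12

namespace Pool.Agent.MP_983df8_al

open Subgroup TensorProduct

universe u

/-- `γ` is a graph automorphism for the symmetry `τ` of the simple roots `Δ` -/
def IsGraph {ι L : Type} [LieRing L] (Δ : Finset ι) (e : ι → L) (τ : Equiv.Perm ι)
    (γ : L ≃ₗ⁅ℤ⁆ L) : Prop :=
  (∀ a, γ (e a) = e (τ a) ∨ γ (e a) = -e (τ a)) ∧ ∀ i ∈ Δ, τ i ∈ Δ ∧ γ (e i) = e (τ i)

/-- the map `θ ⊗ γ` on `K ⊗ L` -/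
noncomputable def tw {K L : Type} [Field K] [LieRing L] (θ : RingAut K) (γ : L ≃ₗ⁅ℤ⁆ L) :
    K ⊗[ℤ] L → K ⊗[ℤ] L :=
  TensorProduct.map θ.toAddMonoidHom.toIntLinearMap γ.toLinearMap

/-- `S` is the group `twisted` over a finite field of characteristic `p` with an automorphism of
order `n` that fixes `q` elements -/
def IsTw {ι L : Type} [LieRing L] (e : ι → L) (pos : ι → Prop) (γ : L ≃ₗ⁅ℤ⁆ L) (n p q : ℕ)
    (S : Type*) [Group S] : Prop :=
  ∃ (K : Type) (_ : Field K) (_ : Finite K) (θ : RingAut K) (d : ι → ℕ → Module.End ℤ L),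
    (∀ a k, k.factorial • d a k = LieAlgebra.ad ℤ L (e a) ^ k) ∧ n = orderOf θ ∧ p = ringChar K ∧
    q = Nat.card {t // θ t = t} ∧ Nonempty (S ≃* twisted (fun a => xr K (d a)) pos (tw θ γ))

/-- `S` is a Chevalley group or a Steinberg group, for an irreducible root system of rank `l ≥ 2`,
over a field with `q` elements of characteristic `p`. If `p ∈ π` then `q > 2` or `l > 2`. If
`p ∉ π` then `Syl` holds, or `2 ∉ π` and (`q > 2` or `3 ∉ π`), or `q > 32` (type not `G₂` if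
`p = 3`). -/
def LieType (π : Set ℕ) (S : Type*) [Group S] : Prop :=
  ∃ (ι M N L : Type) (_ : Finite ι) (_ : AddCommGroup M) (_ : Module ℚ M) (_ : AddCommGroup N)
    (_ : Module ℚ N) (_ : LieRing L) (P : RootPairing ι ℚ M N) (_ : P.IsCrystallographic)
    (b : P.Base) (e h : ι → L) (τ : Equiv.Perm ι) (γ : L ≃ₗ⁅ℤ⁆ L) (p q : ℕ),
    P.IsRootSystem ∧ P.IsReduced ∧ P.IsIrreducible ∧ 1 < b.support.card ∧ IsChevBasis P b e h ∧
    IsGraph b.support e τ γ ∧ orderOf τ ≤ 3 ∧ IsTw e b.IsPos γ (orderOf τ) p q S ∧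
    ((p ∈ π ∧ (2 < q ∨ 2 < b.support.card)) ∨ (p ∉ π ∧
      (Syl π p S ∨ (2 ∉ π ∧ (2 < q ∨ 3 ∉ π)) ∨ (32 < q ∧ (p = 3 → P.IsNotG2)))))

/-- the simple groups treated -/
def Cls (π : Set ℕ) (S : Type*) [Group S] : Prop :=
  IsAlt S ∨ IsL2 S ∨ IsSz S ∨ ((2 ∉ π ∨ 3 ∉ π) ∧
    (IsLn S ∨ LieType π S ∨ Cnt π S ∨ Gen4 π S ∨ ∃ p : ℕ, p.Prime ∧ p ∈ π ∧ IsBN3 p S))

/-- every non-abelian simple subnormal subgroup of `G` is in `Cls` -/
def Socle (π : Set ℕ) (G : Type*) [Group G] : Prop :=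
  ∀ S : Subgroup G, S.IsSubnormal → IsSimpleGroup S → ¬ IsMulCommutative S → Cls π S

/-- In every homomorphic image of `G`, each non-abelian simple subnormal subgroup `S` is a
`π`-group, or `π` omits a prime below eight, the `π`-subgroups of `Aut S` are soluble and `S` is in
`Cls`. -/
def Factors (π : Set ℕ) (G : Type u) [Group G] : Prop :=
  ∀ (Q : Type u) [Group Q] (f : G →* Q), Function.Surjective f →
    ∀ S : Subgroup Q, S.IsSubnormal → IsSimpleGroup S → ¬ IsMulCommutative S →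
      IsPi π S ∨ ((∃ p : ℕ, p.Prime ∧ p < 8 ∧ p ∉ π) ∧
        (∀ A : Subgroup (MulAut S), IsPi π A → Group.IsSolvable A) ∧ Cls π S)

end Pool.Agent.MP_983df8_al
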