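import Mathlib.LinearAlgebra.Dimension.Finrank
import Pool.Agent.MP_983df8_al.Defs6

namespace Pool.Agent.MP_983df8_al

open Subgroup

/-- automorphisms whose order is a `π`-number permute the root subgroups `e (K x)`, `x ∈ E` -/
def PiStable (π : Set ℕ) (K : Type*) {L S : Type*} [SMul K L] [Group S] (E : Set L) (e : L → S) :
    Prop :=
  ∀ β : MulAut S, IsPi π (zpowers β) → ∀ x ∈ E, ∃ y ∈ E,
    β '' Set.range (fun t : K => e (t • x)) = Set.range fun t : K => e (t • y)

/-- `S` acts faithfully on a Lie algebra over a finite field of characteristic `p` with at least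
three elements, and is generated by the long root elements `exp x`, `x` extremal; automorphisms
whose order is a `π`-number permute the long root subgroups; if `2 ∈ π` the field has more than 32
elements, the dimension is above three and the extremal elements are rigid -/
def IsRoot3 (π : Set ℕ) (p : ℕ) (S : Type*) [Group S] : Prop :=
  ∃ (K L : Type) (_ : Field K) (_ : Finite K) (_ : CharP K p) (_ : LieRing L) (_ : LieAlgebra K L)
    (g : L →ₗ[K] L →ₗ[K] K) (ρ : S →* Module.End K L) (E : Set L) (e : L → S),
    3 ≤ Nat.card K ∧ IsForm g ∧ Function.Injective ρ ∧ Submodule.span K E = ⊤ ∧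
    closure (e '' E) = ⊤ ∧ IsExpSet g ρ E e ∧ PiStable π K E e ∧
    (2 ∈ π → 32 < Nat.card K ∧ 3 < Module.finrank K L ∧ Rigid g E)

/-- `S` has a saturated split BN-pair of characteristic `p` in which, for each simple reflection
`r`, the group `U ∩ U ^ r` is normal in `U`, `T = B ∩ N` acts irreducibly on the Frattini
quotient of `U / (U ∩ U ^ r)`, and `U`, `U ^ r` generate a group that is insoluble or of order
divisible by three -/
def IsBN3 (p : ℕ) (S : Type*) [Group S] : Prop :=
  ∃ (B N U : Subgroup S) (R : Set S), IsTits B N R ∧ IsSplit p B N U ∧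
    (∀ r ∈ R, Irr (B ⊓ N) U (U ⊓ conjBy U r)) ∧ Wild U R

/-- Every non-abelian simple subnormal subgroup of `G` is an alternating group, a group
`PSL(2, q)`, or, provided one of the primes 2, 3 is not in `π`, a group `PSL(n, q)` or of Lie type
in some characteristic `p` in the sense of `IsBN3` (for `p ∈ π`) or `IsRoot3` (for `p ∉ π`). -/
def SocleAll (π : Set ℕ) (G : Type*) [Group G] : Prop :=
  ∀ S : Subgroup G, S.IsSubnormal → IsSimpleGroup S → ¬ IsMulCommutative S →
    IsAlt S ∨ IsL2 S ∨ ((2 ∉ π ∨ 3 ∉ π) ∧
      (IsLn S ∨ ∃ p : ℕ, p.Prime ∧ ((p ∈ π ∧ IsBN3 p S) ∨ (p ∉ π ∧ IsRoot3 π p S))))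

end Pool.Agent.MP_983df8_al
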