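import Mathlib.LinearAlgebra.Matrix.ProjectiveSpecialLinearGroup
import Mathlib.Algebra.CharP.Defs
import Pool.Agent.MP_983df8_al.Defs2

namespace Pool.Agent.MP_983df8_al

/-- `S` is isomorphic to `PSL(n, q)`, `n ≥ 2`, in a characteristic outside `π`; for `n = 2` the
field has at least seven and not nine elements. -/
def IsLinOut (π : Set ℕ) (S : Type*) [Group S] : Prop :=
  ∃ (n : ℕ) (K : Type) (_ : Field K) (_ : Finite K), 2 ≤ n ∧ ringChar K ∉ π ∧
    (n = 2 → 7 ≤ Nat.card K ∧ Nat.card K ≠ 9) ∧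
    Nonempty (S ≃* Matrix.ProjectiveSpecialLinearGroup (Fin n) K)

/-- Every non-abelian simple subnormal subgroup of `G` is an alternating group or, provided
`2 ∉ π`, a linear group in a characteristic outside `π`. -/
def SocleOut (π : Set ℕ) (G : Type*) [Group G] : Prop :=
  ∀ S : Subgroup G, S.IsSubnormal → IsSimpleGroup S → ¬ IsMulCommutative S →
    IsAlt S ∨ (2 ∉ π ∧ IsLinOut π S)

end Pool.Agent.MP_983df8_al
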