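import Mathlib.Algebra.Lie.OfAssociative
import Mathlib.RingTheory.Flat.TorsionFree
import Mathlib.RingTheory.SimpleRing.Principal
import Pool.Agent.MP_983df8_al.Defs5

namespace Pool.Agent.MP_983df8_al

variable {K L : Type*} [Field K] [LieRing L] [LieAlgebra K L] {g : L →ₗ[K] L →ₗ[K] K}

/-- a symmetric invariant form -/
structure InvF (g : L →ₗ[K] L →ₗ[K] K) : Prop where
  symm : ∀ a b, g a b = g b a
  inv : ∀ a b c, g ⁅a, b⁆ c = g a ⁅b, c⁆

theorem InvF.skew (h : InvF g) (a b c : L) : g ⁅a, b⁆ c = -g b ⁅a, c⁆ := by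
  rw [← lie_skew, map_neg, LinearMap.neg_apply, h.inv]

theorem InvF.cyc (h : InvF g) (a b c : L) : g a ⁅b, c⁆ = g b ⁅c, a⁆ := by
  rw [h.symm, h.inv]

theorem InvF.self (h : InvF g) (a b : L) : g a ⁅a, b⁆ = 0 := by
  rw [← h.inv, lie_self, map_zero, LinearMap.zero_apply]

theorem InvF.self' (h : InvF g) (a b : L) : g a ⁅b, a⁆ = 0 := by
  rw [h.cyc, lie_self, map_zero]

theorem IsExt.p1 {x : L} (hx : IsExt g x) (y z : L) :
    ⁅⁅x, y⁆, ⁅x, z⁆⁆ = g x ⁅y, z⁆ • x + g x z • ⁅x, y⁆ - g x y • ⁅x, z⁆ := hx.2.2 y z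

theorem IsExt.p2 {x : L} (hx : IsExt g x) (y z : L) :
    ⁅x, ⁅y, ⁅x, z⁆⁆⁆ = g x ⁅y, z⁆ • x - g x z • ⁅x, y⁆ - g x y • ⁅x, z⁆ := by
  rw [leibniz_lie, hx.p1, hx.2.1, lie_smul, ← lie_skew y x]
  module

theorem IsExt.smul {x : L} (hx : IsExt g x) (t : K) : IsExt g (t • x) := by
  refine ⟨by simp [hx.1], fun y => ?_, fun y z => ?_⟩
  · simp only [smul_lie, lie_smul, hx.2.1, map_smul, LinearMap.smul_apply, smul_eq_mul]
    module
  · simp only [smul_lie, lie_smul, hx.p1, map_smul, LinearMap.smul_apply, smul_eq_mul]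
    module

/-- the exponential of an extremal element -/
def ex (g : L →ₗ[K] L →ₗ[K] K) (x : L) : Module.End K L :=
  1 + LieAlgebra.ad K L x + (g x).smulRight x

theorem ex_apply (x y : L) : ex g x y = y + ⁅x, y⁆ + g x y • x := rfl

theorem ex_smul (t : K) (x y : L) : ex g (t • x) y = y + t • ⁅x, y⁆ + (t * t * g x y) • x := by
  simp only [ex_apply, smul_lie, map_smul, LinearMap.smul_apply, smul_eq_mul, smul_smul]
  module

/-- `σ` preserves the bracket and the form -/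
structure AutF (g : L →ₗ[K] L →ₗ[K] K) (σ : Module.End K L) : Prop where
  lie : ∀ a b, σ ⁅a, b⁆ = ⁅σ a, σ b⁆
  form : ∀ a b, g (σ a) (σ b) = g a b

theorem AutF.mul {σ τ : Module.End K L} (h : AutF g σ) (h' : AutF g τ) : AutF g (σ * τ) :=
  ⟨fun a b => by simp [h.lie, h'.lie], fun a b => by simp [h.form, h'.form]⟩

theorem InvF.ex_aut (h : InvF g) {x : L} (hx : IsExt g x) : AutF g (ex g x) := by
  refine ⟨fun a b => ?_, fun a b => ?_⟩
  · have e : ⁅⁅x, a⁆, x⁆ = -((2 * g x a) • x) := by rw [← hx.2.1, lie_skew]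
    simp only [ex_apply, add_lie, lie_add, smul_lie, lie_smul, lie_self, hx.p1, hx.2.1, e,
      leibniz_lie x a b, ← lie_skew a x]
    module
  · simp only [ex_apply, map_add, map_smul, LinearMap.add_apply, LinearMap.smul_apply, smul_eq_mul,
      h.skew x a, hx.2.1, h.self, hx.1, h.symm a x, lie_self, map_zero]
    ring

theorem InvF.ex_add (h : InvF g) {x : L} (hx : IsExt g x) (s t : K) :
    ex g (s • x) * ex g (t • x) = ex g ((s + t) • x) := by
  ext y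
  simp only [Module.End.mul_apply, ex_smul, lie_add, lie_smul, lie_self, hx.2.1, map_add, map_smul,
    h.self, hx.1, smul_eq_mul]
  module

theorem ex_zero : ex g 0 = 1 := by
  ext y
  simp [ex_apply]

theorem AutF.ex {σ : Module.End K L} (h : AutF g σ) (x : L) : σ * ex g x = ex g (σ x) * σ := by
  ext y
  simp [ex_apply, h.lie, h.form]

theorem InvF.ex_inj (h : InvF g) (hn : ∀ a, g a = 0 → a = 0) {x y : L} (hx : IsExt g x)
    (e : ex g x = ex g y) : x = y := by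
  have e1 : ∀ a, ⁅x, a⁆ + g x a • x = ⁅y, a⁆ + g y a • y := fun a => by
    have := DFunLike.congr_fun e a
    simpa [ex_apply, add_assoc] using this
  have e2 : ∀ a, g x a * g x a = g y a * g y a := fun a => by
    simpa only [map_add, map_smul, h.self', h.symm a x, h.symm a y, zero_add, smul_eq_mul] using
      congrArg (g a) (e1 a)
  by_contra hne
  obtain ⟨a, ha⟩ := DFunLike.ne_iff.1 fun e' => hne (sub_eq_zero.1 (hn (x - y) e'))
  have e3 : y = -x := eq_neg_of_add_eq_zero_left (hn _ (LinearMap.ext fun b => by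
    have a1 := e2 a
    have a2 := e2 b
    have a3 := e2 (a + b)
    simp only [map_sub, map_add, LinearMap.sub_apply, LinearMap.add_apply,
      LinearMap.zero_apply] at ha a3 ⊢
    grind))
  subst e3
  have e4 : ∀ a, ((2 * 2 : K) * g x a) • x = 0 := fun a => by
    have := congrArg (⁅x, ·⁆) (e1 a)
    simp only [lie_add, lie_smul, lie_self, neg_lie, lie_neg, hx.2.1, smul_zero, neg_zero] at this
    linear_combination (norm := module) this
  have e5 := smul_eq_zero.1 (e4 a)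
  simp only [sub_neg_eq_add, map_add, LinearMap.add_apply, LinearMap.zero_apply] at ha
  rcases e5 with e5 | rfl
  · grind
  · simp at ha

theorem InvF.ex_unip (h : InvF g) {x y : L} (hx : IsExt g x) (hy : IsExt g y) (h0 : g x y = 0) :
    (ex g x * ex g y - 1) ^ 5 = 0 := by
  have h1 : g y x = 0 := (h.symm y x).trans h0
  let N := Submodule.span K {x, y, ⁅x, y⁆}
  have m1 : x ∈ N := Submodule.subset_span (by simp)
  have m2 : y ∈ N := Submodule.subset_span (by simp)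
  have m3 : ⁅x, y⁆ ∈ N := Submodule.subset_span (by simp)
  have e0 : ⁅y, x⁆ = -⁅x, y⁆ := (lie_skew y x).symm
  have e1 : ⁅y, ⁅x, y⁆⁆ = 0 := by rw [← lie_skew x y, lie_neg, hy.2.1, h1]; simp
  have e2 : ⁅x, ⁅x, y⁆⁆ = 0 := by rw [hx.2.1, h0]; simp
  have hX : ∀ a ∈ N, ⁅x, a⁆ ∈ N := fun a ha => by
    obtain ⟨r, s, t, rfl⟩ := Submodule.mem_span_triple.1 ha
    simpa [e2] using N.smul_mem s m3
  have hY : ∀ a ∈ N, ⁅y, a⁆ ∈ N := fun a ha => by
    obtain ⟨r, s, t, rfl⟩ := Submodule.mem_span_triple.1 ha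
    simpa [e1, e0, -lie_skew] using N.smul_mem r m3
  have x2 : ∀ a, ⁅x, ⁅x, a⁆⁆ ∈ N := fun a => hx.2.1 a ▸ N.smul_mem _ m1
  have y2 : ∀ a, ⁅y, ⁅y, a⁆⁆ ∈ N := fun a => hy.2.1 a ▸ N.smul_mem _ m2
  have x3 : ∀ a, ⁅x, ⁅y, ⁅x, a⁆⁆⁆ ∈ N := fun a => by
    rw [hx.p2, h0, zero_smul, sub_zero]
    exact N.sub_mem (N.smul_mem _ m1) (N.smul_mem _ m3)
  have y3 : ∀ a, ⁅y, ⁅x, ⁅y, a⁆⁆⁆ ∈ N := fun a => by
    rw [hy.p2, h1, zero_smul, sub_zero]
    exact N.sub_mem (N.smul_mem _ m2) (N.smul_mem _ (hY _ m1))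
  set D := ex g x * ex g y - 1 with hD
  have d : ∀ a, D a = ⁅y, a⁆ + ⁅x, a⁆ + ⁅x, ⁅y, a⁆⁆ + (g y a • (y + ⁅x, y⁆) +
      (g x a + g x ⁅y, a⁆) • x) := fun a => by
    simp only [hD, LinearMap.sub_apply, Module.End.mul_apply, ex_apply, lie_add, lie_smul, map_add,
      map_smul, h0, Module.End.one_apply]
    module
  have d0 : D ⁅x, y⁆ = 0 := by simp [d, e1, e2, h.self, h.self']
  have d1 : ∀ a ∈ N, D a ∈ N ∧ D (D a) = 0 := fun a ha => by
    obtain ⟨r, s, t, rfl⟩ := Submodule.mem_span_triple.1 ha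
    have a1 : D x = -⁅x, y⁆ := by simp [d, h1, hx.1, h.self, e0, e2, -lie_skew]
    have a2 : D y = ⁅x, y⁆ := by simp [d, h0, hy.1]
    simp only [map_add, map_smul, a1, a2, d0, map_neg, neg_zero, smul_zero, add_zero, and_true]
    exact N.add_mem (N.smul_mem _ (N.neg_mem m3)) (N.smul_mem _ m3)
  have d2 : ∀ a b c, a - b ∈ N → ⁅y, b⁆ + ⁅x, b⁆ + ⁅x, ⁅y, b⁆⁆ - c ∈ N → D a - c ∈ N :=
    fun a b c a1 a2 => by
      have := N.add_mem (N.add_mem (d1 _ a1).1 a2) (N.add_mem (N.smul_mem (g y b) (N.add_mem m2 m3))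
        (N.smul_mem (g x b + g x ⁅y, b⁆) m1))
      rw [map_sub, d b] at this
      convert this using 1
      abel
  ext a
  have a1 := d2 a a _ (by simp) (by rw [sub_self]; exact N.zero_mem)
  have a2 := d2 _ _ (⁅x, ⁅y, a⁆⁆ + ⁅y, ⁅x, a⁆⁆) a1 (by
    have := N.add_mem (N.add_mem (N.add_mem (N.add_mem (N.add_mem (N.add_mem (x2 a) (y2 a))
      (x2 ⁅y, a⁆)) (y3 a)) (x3 a)) (hX _ (y2 a))) (x3 ⁅y, a⁆)
    simp only [lie_add]
    convert this using 1
    abel)
  have a3 := d2 _ _ 0 a2 (by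
    simp only [lie_add, sub_zero]
    exact N.add_mem (N.add_mem (N.add_mem (y3 a) (y2 _)) (N.add_mem (x2 _) (x3 a)))
      (N.add_mem (x3 _) (hX _ (y2 _))))
  simpa [pow_succ] using (d1 _ (sub_zero (D (D (D a))) ▸ a3)).2

end Pool.Agent.MP_983df8_al
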