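import Mathlib.RingTheory.Henselian
import Mathlib.RingTheory.RegularLocalRing.Defs
import Pool.Agent.MP_983df8_al.Ext

namespace Pool.Agent.MP_983df8_al

variable {K L : Type*} [Field K] [LieRing L] [LieAlgebra K L] {g : L →ₗ[K] L →ₗ[K] K}

/-- the filtration defined by an extremal element -/
def Fl (g : L →ₗ[K] L →ₗ[K] K) (x : L) : ℕ → Submodule K L
  | 0 => ⊤
  | 1 => LinearMap.ker (g x)
  | 2 => LinearMap.ker (g x) ⊓ (K ∙ x).comap (LieAlgebra.ad K L x)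
  | 3 => (LinearMap.ker (g x)).map (LieAlgebra.ad K L x) ⊔ K ∙ x
  | 4 => K ∙ x
  | _ => ⊥

variable {x y : L}

theorem mem_Fl1 {a : L} : a ∈ Fl g x 1 ↔ g x a = 0 := Iff.rfl

theorem mem_Fl2 {a : L} : a ∈ Fl g x 2 ↔ g x a = 0 ∧ ∃ c : K, c • x = ⁅x, a⁆ := by
  simp [Fl, Submodule.mem_span_singleton]

theorem mem_Fl3 {a : L} : a ∈ Fl g x 3 ↔ ∃ u, g x u = 0 ∧ ∃ c : K, ⁅x, u⁆ + c • x = a := by
  simp [Fl, Submodule.mem_sup, Submodule.mem_span_singleton]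

theorem mem_Fl4 {a : L} : a ∈ Fl g x 4 ↔ ∃ c : K, c • x = a := Submodule.mem_span_singleton

theorem mem_Fl5 {a : L} {k : ℕ} : a ∈ Fl g x (k + 5) ↔ a = 0 := Iff.rfl

theorem InvF.Fl_le (h : InvF g) (hx : IsExt g x) (k : ℕ) : Fl g x (k + 1) ≤ Fl g x k := by
  intro a ha
  rcases k with _ | _ | _ | _ | _ | k
  · trivial
  · exact ha.1
  · obtain ⟨u, h1, c, rfl⟩ := mem_Fl3.1 ha
    exact mem_Fl2.2 ⟨by simp [h.self, hx.1], 0, by simp [hx.2.1, h1]⟩
  · exact Submodule.mem_sup_right ha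
  · exact mem_Fl5.1 ha ▸ zero_mem _
  · exact ha

theorem AutF.Fl_mem {σ : Module.End K L} (hσ : AutF g σ) {c : K} (hc : c ≠ 0) (e : σ x = c • x)
    (k : ℕ) {a : L} (ha : a ∈ Fl g x k) : σ a ∈ Fl g x k := by
  have h1 : ∀ a, g x a = 0 → g x (σ a) = 0 := fun a h => by
    simpa [e, h, hc] using hσ.form x a
  have h2 : ∀ a, ⁅x, σ a⁆ = c⁻¹ • σ ⁅x, a⁆ := fun a => by
    rw [hσ.lie, e, smul_lie, inv_smul_smul₀ hc]
  rcases k with _ | _ | _ | _ | _ | k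
  · trivial
  · exact h1 a ha
  · obtain ⟨a1, d, a2⟩ := mem_Fl2.1 ha
    exact mem_Fl2.2 ⟨h1 a a1, d, by rw [h2, ← a2, map_smul, e, smul_comm d, inv_smul_smul₀ hc]⟩
  · obtain ⟨u, a1, d, rfl⟩ := mem_Fl3.1 ha
    exact mem_Fl3.2 ⟨c • σ u, by simp [h1 u a1], d * c, by
      rw [lie_smul, h2, smul_inv_smul₀ hc, map_add, map_smul, e, smul_smul]⟩
  · obtain ⟨d, rfl⟩ := mem_Fl4.1 ha
    exact mem_Fl4.2 ⟨d * c, by rw [map_smul, e, smul_smul]⟩
  · rw [mem_Fl5.1 ha, map_zero]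
    exact zero_mem _

/-- `σ` acts on the `k`-th factor of the filtration as the scalar `l ^ (k - 2)` -/
def Gr (g : L →ₗ[K] L →ₗ[K] K) (x : L) (l : K) (σ : Module.End K L) : Prop :=
  ∀ k, ∀ a ∈ Fl g x k, l ^ 2 • σ a - l ^ k • a ∈ Fl g x (k + 1)

theorem Gr.apply {l : K} {σ : Module.End K L} (h : Gr g x l σ) (hl : l ≠ 0) : σ x = l ^ 2 • x :=
  smul_right_injective L (pow_ne_zero 2 hl) (by
    simpa only [sub_eq_zero, smul_smul, ← pow_add] using
      mem_Fl5.1 (h 4 x (Submodule.mem_span_singleton_self x)))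

theorem Gr.mul {l m : K} {σ τ : Module.End K L} (h : Gr g x l σ) (h' : Gr g x m τ) (hl : l ≠ 0)
    (hσ : AutF g σ) : Gr g x (l * m) (σ * τ) := fun k a ha => by
  have := add_mem (Submodule.smul_mem _ (l ^ 2) (hσ.Fl_mem (pow_ne_zero 2 hl) (h.apply hl) _
    (h' k a ha))) (Submodule.smul_mem _ (m ^ k) (h k a ha))
  convert this using 1
  simp only [Module.End.mul_apply, map_sub, map_smul, mul_pow]
  module

theorem Gr.conj {l c : K} {σ τ τ' : Module.End K L} (h : Gr g x l σ) (hτ : AutF g τ)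
    (hτ' : AutF g τ') (e : τ * τ' = 1) (e' : τ' * τ = 1) (hc : c ≠ 0) (ec : τ x = c • x) :
    Gr g x l (τ * σ * τ') := fun k a ha => by
  have b : τ' x = c⁻¹ • x := by
    rw [eq_inv_smul_iff₀ hc, ← map_smul, ← ec, ← Module.End.mul_apply, e', Module.End.one_apply]
  have := hτ.Fl_mem hc ec _ (h k _ (hτ'.Fl_mem (inv_ne_zero hc) b k ha))
  rwa [map_sub, map_smul, map_smul, ← Module.End.mul_apply τ τ', e] at this

theorem Gr.inv {l : K} {σ σ' : Module.End K L} (h : Gr g x l σ) (hl : l ≠ 0) (hσ' : AutF g σ')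
    (e : σ * σ' = 1) (e' : σ' * σ = 1) : Gr g x l⁻¹ σ' := fun k a ha => by
  have b : σ' x = (l ^ 2)⁻¹ • x := by
    rw [eq_inv_smul_iff₀ (pow_ne_zero 2 hl), ← map_smul, ← h.apply hl, ← Module.End.mul_apply, e',
      Module.End.one_apply]
  have := Submodule.smul_mem _ (-(l ^ k)⁻¹ * (l ^ 2)⁻¹)
    (h k _ (hσ'.Fl_mem (inv_ne_zero (pow_ne_zero 2 hl)) b k ha))
  rw [← Module.End.mul_apply σ σ', e] at this
  convert this using 1
  simp only [Module.End.one_apply, inv_pow]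
  match_scalars <;> field_simp

theorem Gr.nil {σ : Module.End K L} (h : Gr g x 1 σ) : (σ - 1) ^ 5 = 0 := by
  have : ∀ k a, ((σ - 1) ^ k) a ∈ Fl g x k := fun k a => by
    induction k with
    | zero => trivial
    | succ k ih => simpa [pow_succ'] using h k _ ih
  exact LinearMap.ext fun a => mem_Fl5.1 (this 5 a)

theorem gr_of {l : K} {σ : Module.End K L} (hσ : AutF g σ) (h0 : σ x = l ^ 2 • x)
    (h1 : ∀ v ∈ Fl g x 3, σ v - l • v ∈ Fl g x 4) (h2 : ∀ a ∈ Fl g x 2, σ a - a ∈ Fl g x 3) :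
    Gr g x l σ := fun k a ha => by
  have h3 : g x (l ^ 2 • σ a) = g x a := by simpa [h0] using hσ.form x a
  rcases k with _ | _ | _ | _ | _ | k
  · simp [mem_Fl1, -map_smul, h3]
  · obtain ⟨c, hc⟩ := mem_Fl4.1 (h1 _ (mem_Fl3.2 ⟨a, ha, 0, rfl⟩))
    refine mem_Fl2.2 ⟨by rw [map_sub, h3, map_smul, mem_Fl1.1 ha]; simp, c, ?_⟩
    simpa [hσ.lie, h0] using hc
  · simpa only [smul_sub] using Submodule.smul_mem _ (l ^ 2) (h2 a ha)
  · simpa only [smul_sub, smul_smul, pow_succ l 2] using Submodule.smul_mem _ (l ^ 2) (h1 a ha)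
  · obtain ⟨c, rfl⟩ := mem_Fl4.1 ha
    refine mem_Fl5.2 ?_
    rw [map_smul, h0]
    module
  · simp [mem_Fl5.1 ha]

theorem InvF.gr_ex (h : InvF g) (hx : IsExt g x) (t : K) : Gr g x 1 (ex g (t • x)) := by
  refine gr_of (h.ex_aut (hx.smul t)) (by simp [ex_smul, hx.1]) (fun v hv => ?_) fun a ha => ?_
  · obtain ⟨u, a1, c, rfl⟩ := mem_Fl3.1 hv
    simp [ex_smul, hx.2.1, a1, h.self, hx.1]
  · obtain ⟨a1, c, a2⟩ := mem_Fl2.1 ha
    exact mem_Fl3.2 ⟨0, by simp, t * c, by simp [ex_smul, a1, ← a2, smul_smul]⟩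

/-- the Weyl elements of a hyperbolic pair -/
def wl (g : L →ₗ[K] L →ₗ[K] K) (x y : L) (t : K) : Module.End K L :=
  ex g (t • x) * ex g (t⁻¹ • y) * ex g (t • x)

theorem InvF.wl_aut (h : InvF g) (hx : IsExt g x) (hy : IsExt g y) (t : K) : AutF g (wl g x y t) :=
  ((h.ex_aut (hx.smul _)).mul (h.ex_aut (hy.smul _))).mul (h.ex_aut (hx.smul _))

theorem InvF.wl_xy (h : InvF g) (hx : IsExt g x) (hy : IsExt g y) (h1 : g x y = 1) {t : K}
    (ht : t ≠ 0) : wl g x y t x = (t⁻¹ * t⁻¹) • y ∧ wl g x y t y = (t * t) • x := by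
  have e0 : ⁅y, x⁆ = -⁅x, y⁆ := (lie_skew y x).symm
  have e1 : ⁅y, ⁅x, y⁆⁆ = -((2 : K) • y) := by
    rw [← lie_skew x y, lie_neg, hy.2.1, h.symm, h1, mul_one]
  constructor <;>
    simp only [wl, Module.End.mul_apply, ex_smul, lie_add, lie_smul, lie_neg, lie_self, map_add,
      map_smul, map_neg, hx.1, hy.1, hx.2.1, h.self, h.self', h.symm y x, h1, e0, e1,
      smul_eq_mul, map_zero, lie_zero] <;> match_scalars <;> field_simp <;> ring

theorem InvF.gr_wl (h : InvF g) (hx : IsExt g x) (hy : IsExt g y) (h1 : g x y = 1) {l : K}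
    (hl : l ≠ 0) : Gr g x l (wl g x y l * wl g x y (-1)) ∧
      l ^ 2 • (wl g x y l * wl g x y (-1)) y = y := by
  have a1 := h.wl_xy hx hy h1 hl
  have a2 := h.wl_xy hx hy h1 (neg_ne_zero.2 (one_ne_zero' K))
  have h2 : g y x = 1 := (h.symm y x).trans h1
  have e0 : ⁅y, x⁆ = -⁅x, y⁆ := (lie_skew y x).symm
  have e1 : ⁅y, ⁅x, y⁆⁆ = -((2 : K) • y) := by
    rw [← lie_skew x y, lie_neg, hy.2.1, h2, mul_one]
  have b0 : (wl g x y l * wl g x y (-1)) x = l ^ 2 • x := by simp [a1, a2, sq]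
  have b1 : ∀ v ∈ Fl g x 3, (wl g x y l * wl g x y (-1)) v - l • v ∈ Fl g x 4 := fun v hv => by
    obtain ⟨u, c1, c, rfl⟩ := mem_Fl3.1 hv
    obtain ⟨v, hv⟩ : ∃ v, v = ⁅x, u⁆ - g y ⁅x, u⁆ • x := ⟨_, rfl⟩
    have v1 : ⁅x, v⁆ = 0 := by simp [hv, hx.2.1, c1]
    have v2 : g x v = 0 := by simp [hv, h.self, hx.1]
    have v3 : g y v = 0 := by simp [hv, h2]
    have v4 : ⁅x, ⁅y, v⁆⁆ = -v := by
      simp only [hv, lie_sub, lie_smul, hx.p2, c1, h1, e0, lie_neg, hx.2.1, h.cyc x y u,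
        ← lie_skew u x, map_neg]
      module
    have v5 : g x ⁅y, v⁆ = 0 := by rw [h.cyc, ← lie_skew, v1]; simp
    have : (wl g x y l * wl g x y (-1)) v = l • v := by
      simp only [wl, Module.End.mul_apply, ex_smul, lie_add, lie_smul, lie_neg, map_add,
        map_smul, map_neg, v1, v2, v3, v4, v5, hy.2.1, h.self, smul_zero, add_zero, mul_zero,
        zero_smul, smul_eq_mul, neg_zero]
      match_scalars <;> field_simp <;> ring
    rw [eq_sub_iff_add_eq.1 hv |>.symm, map_add, map_add, map_smul, map_smul, this, b0]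
    exact mem_Fl4.2 ⟨(g y ⁅x, u⁆ + c) * (l ^ 2 - l), by module⟩
  refine ⟨gr_of ((h.wl_aut hx hy _).mul (h.wl_aut hx hy _)) b0 b1 fun a ha => ?_, by
    simp [a1, a2, smul_smul, sq, mul_assoc, hl]⟩
  obtain ⟨c1, k, c2⟩ := mem_Fl2.1 ha
  obtain ⟨b, hb⟩ : ∃ b, b = a - g y a • x := ⟨_, rfl⟩
  have d1 : ⁅x, b⁆ = k • x := by simp [hb, c2]
  have d2 : g x b = 0 := by simp [hb, c1, hx.1]
  have d3 : g y b = 0 := by simp [hb, h2]
  have d4 : g x (⁅y, b⁆ + k • y) = 0 := by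
    rw [map_add, h.cyc, ← lie_skew, d1]
    simp [h1, h2]
  obtain ⟨v, hv⟩ : ∃ v, v = ⁅x, ⁅y, b⁆ + k • y⁆ := ⟨_, rfl⟩
  have v0 : v ∈ Fl g x 3 := mem_Fl3.2 ⟨_, d4, 0, by simp [hv]⟩
  have f1 : ⁅x, b + v⁆ = k • x := by rw [lie_add, d1, hv, hx.2.1, d4]; simp
  have f2 : ⁅y, b + v⁆ = -(k • y) := by
    simp only [hv, lie_add, lie_smul, hy.p2, d1, d3, h2, e1, map_smul, smul_eq_mul]
    module
  have f3 : g x (b + v) = 0 := by simp [d2, hv, h.self]
  have f4 : g y (b + v) = 0 := by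
    rw [map_add, d3, hv, lie_add, map_add, h.cyc y x, ← lie_skew ⁅y, b⁆ y, hy.2.1, d3,
      lie_smul, map_smul, h.self']
    simp
  have f5 : ∀ t : K, t ≠ 0 → wl g x y t (b + v) = b + v - k • ⁅x, y⁆ := fun t ht => by
    generalize b + v = z at f1 f2 f3 f4
    simp only [wl, Module.End.mul_apply, ex_smul, lie_add, lie_smul, lie_neg, lie_self, map_add,
      map_smul, map_neg, hx.1, hx.2.1, h.self, h1, h2, e0, f1, f2, f3, f4, smul_eq_mul, map_zero,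
      lie_zero]
    match_scalars <;> field_simp <;> ring
  have f6 : (wl g x y l * wl g x y (-1)) (b + v) = b + v := by
    rw [Module.End.mul_apply, f5 _ (neg_ne_zero.2 one_ne_zero), map_sub, f5 l hl, map_smul,
      (h.wl_aut hx hy l).lie, a1.1, a1.2, smul_lie, lie_smul, e0]
    match_scalars <;> field_simp <;> ring
  have := sub_mem (Submodule.smul_mem _ (g y a * (l ^ 2 - 1)) (h.Fl_le hx 3
    (Submodule.mem_span_singleton_self x))) (add_mem (h.Fl_le hx 3 (b1 v v0))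
      (Submodule.smul_mem _ (l - 1) v0))
  convert this using 1
  generalize g y a = c at hb
  rw [show a = (b + v) - v + c • x by rw [hb]; abel, map_add, map_sub, f6, map_smul, b0]
  module

end Pool.Agent.MP_983df8_al
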