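import Mathlib.Algebra.Order.Ring.Star
import Mathlib.FieldTheory.Finite.Basic
import Pool.Agent.MP_983df8_al.Ext2

namespace Pool.Agent.MP_983df8_al

open Subgroup

variable {K L : Type*} [Field K] [LieRing L] [LieAlgebra K L] {g : L →ₗ[K] L →ₗ[K] K}
variable {S : Type*} [Group S] {ρ : S →* Module.End K L} {E : Set L} {e : L → S} {x y : L}

/-- a group generated by long root elements -/
structure RS (g : L →ₗ[K] L →ₗ[K] K) (ρ : S →* Module.End K L) (E : Set L) (e : L → S) : Prop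
    extends InvF g where
  three : 3 ≤ Nat.card K
  nd : ∀ a, g a = 0 → a = 0
  inj : Function.Injective ρ
  span : Submodule.span K E = ⊤
  gen : closure (e '' E) = ⊤
  ext : ∀ x ∈ E, IsExt g x
  smul : ∀ x ∈ E, ∀ t : K, t • x ∈ E
  act : ∀ x ∈ E, ∀ s, ρ s x ∈ E
  ex : ∀ x ∈ E, ρ (e x) = ex g x

theorem rho_inv (ρ : S →* Module.End K L) (s : S) : ρ s * ρ s⁻¹ = 1 ∧ ρ s⁻¹ * ρ s = 1 := by
  simp [← map_mul]

theorem rho_cancel (ρ : S →* Module.End K L) (s : S) (a : L) : ρ s (ρ s⁻¹ a) = a :=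
  DFunLike.congr_fun (rho_inv ρ s).1 a

theorem rho_cancel' (ρ : S →* Module.End K L) (s : S) (a : L) : ρ s⁻¹ (ρ s a) = a :=
  DFunLike.congr_fun (rho_inv ρ s).2 a

theorem RS.aut (h : RS g ρ E e) (s : S) : AutF g (ρ s) := by
  induction (h.gen ▸ mem_top s : s ∈ closure (e '' E)) using closure_induction with
  | mem s hs => obtain ⟨x, hx, rfl⟩ := hs; exact h.ex x hx ▸ h.ex_aut (h.ext x hx)
  | one => exact ⟨by simp, by simp⟩
  | mul a b _ _ ha hb => exact map_mul ρ a b ▸ ha.mul hb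
  | inv a _ ha =>
    refine ⟨fun u v => ?_, fun u v => by rw [← ha.form, rho_cancel, rho_cancel]⟩
    rw [← rho_cancel' ρ a ⁅ρ a⁻¹ u, ρ a⁻¹ v⁆, ha.lie, rho_cancel, rho_cancel]

theorem RS.conj (h : RS g ρ E e) (hx : x ∈ E) (s : S) : s * e x * s⁻¹ = e (ρ s x) := h.inj (by
  rw [map_mul, map_mul, h.ex x hx, (h.aut s).ex, h.ex _ (h.act x hx s), mul_assoc, (rho_inv ρ s).1,
    mul_one])

theorem RS.e_add (h : RS g ρ E e) (hx : x ∈ E) (s t : K) :
    e (s • x) * e (t • x) = e ((s + t) • x) := h.inj (by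
  rw [map_mul, h.ex _ (h.smul x hx _), h.ex _ (h.smul x hx _), h.ex _ (h.smul x hx _),
    h.ex_add (h.ext x hx)])

theorem RS.e_zero (h : RS g ρ E e) (hx : x ∈ E) : e 0 = 1 := h.inj (by
  rw [h.ex _ (by simpa using h.smul x hx 0), ex_zero, map_one])

theorem RS.neg (h : RS g ρ E e) (hx : x ∈ E) : -x ∈ E := by simpa using h.smul x hx (-1)

theorem RS.e_neg (h : RS g ρ E e) (hx : x ∈ E) : e (-x) = (e x)⁻¹ :=
  eq_inv_of_mul_eq_one_left (by simpa [h.e_zero hx] using h.e_add hx (-1) 1)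

theorem RS.e_inj (h : RS g ρ E e) (hx : x ∈ E) (hy : y ∈ E) (a : e x = e y) : x = y :=
  h.ex_inj h.nd (h.ext x hx) (by rw [← h.ex x hx, a, h.ex y hy])

theorem RS.pow_eq_one (h : RS g ρ E e) (p : ℕ) [Fact p.Prime] [CharP K p] {s : S}
    (a : (ρ s - 1) ^ 5 = 0) : s ^ p ^ 3 = 1 := by
  rcases subsingleton_or_nontrivial (Module.End K L) with b | b
  · exact h.inj (Subsingleton.elim _ _)
  have h2 := (Fact.out : p.Prime).two_le
  have := charP_of_injective_algebraMap (algebraMap K (Module.End K L)).injective p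
  refine h.inj ?_
  rw [map_pow, map_one, ← sub_eq_zero, ← one_pow (p ^ 3),
    ← sub_pow_char_pow_of_commute _ _ (Commute.one_right _),
    pow_eq_zero_of_le (le_trans (by norm_num) (Nat.pow_le_pow_left h2 3)) a]

theorem RS.unip (h : RS g ρ E e) (p : ℕ) [Fact p.Prime] [CharP K p] (hx : x ∈ E) (hy : y ∈ E)
    (a : g x y = 0) : (e x * e y) ^ p ^ 3 = 1 :=
  h.pow_eq_one p (by rw [map_mul, h.ex x hx, h.ex y hy, h.ex_unip (h.ext x hx) (h.ext y hy) a])

/-- the unipotent radical of the stabiliser of an extremal point -/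
def RS.Q (h : RS g ρ E e) (x : L) : Subgroup S where
  carrier := {s | Gr g x 1 (ρ s)}
  one_mem' := fun k a _ => by simp
  mul_mem' := fun {a b} ha hb => by
    simpa only [Set.mem_setOf_eq, map_mul, mul_one] using Gr.mul ha hb one_ne_zero (h.aut a)
  inv_mem' := fun {a} ha => by
    simpa only [Set.mem_setOf_eq, inv_one] using
      Gr.inv ha one_ne_zero (h.aut _) (rho_inv ρ a).1 (rho_inv ρ a).2

theorem RS.Q_fix (h : RS g ρ E e) {s : S} (hs : s ∈ h.Q x) : ρ s x = x := by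
  simpa using Gr.apply hs one_ne_zero

theorem RS.e_mem_Q (h : RS g ρ E e) (hx : x ∈ E) (t : K) : e (t • x) ∈ h.Q x :=
  show Gr g x 1 _ from h.ex _ (h.smul x hx t) ▸ h.gr_ex (h.ext x hx) t

theorem RS.exists_h (h : RS g ρ E e) (hx : x ∈ E) (hy : y ∈ E) (h1 : g x y = 1) {l : K}
    (hl : l ≠ 0) : ∃ s, Gr g x l (ρ s) ∧ l ^ 2 • ρ s y = y :=
  ⟨e (l • x) * e (l⁻¹ • y) * e (l • x) * (e ((-1 : K) • x) * e ((-1 : K)⁻¹ • y) * e ((-1 : K) • x)),
    by simpa only [map_mul, h.ex _ (h.smul x hx _), h.ex _ (h.smul y hy _), wl] using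
      h.gr_wl (h.ext x hx) (h.ext y hy) h1 hl⟩

theorem RS.trick [Finite K] (h : RS g ρ E e) (hx : x ∈ E) (hy : y ∈ E) (h1 : g x y = 1) {z : L}
    (hz : z ∈ E) (h2 : g x z = 1) {k : ℕ} {l : K} (hl : l ≠ 0) (hk : l ^ k ≠ 1)
    (h3 : z - y ∈ Fl g x k) : ∃ q ∈ h.Q x, z - ρ q y ∈ Fl g x (k + 1) := by
  have hle := h.Fl_le (h.ext x hx) k
  let P := fun w => w ∈ Fl g x k ∧ ∃ q ∈ h.Q x, y + w - ρ q y ∈ Fl g x (k + 1)
  have hadd : ∀ w w', P w → P w' → P (w + w') := by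
    rintro w w' ⟨a1, q, a2, a3⟩ ⟨b1, q', b2, b3⟩
    refine ⟨add_mem a1 b1, q * q', mul_mem a2 b2, ?_⟩
    have := sub_mem (add_mem a3 ((h.aut q).Fl_mem one_ne_zero (by simpa using h.Q_fix a2) _ b3))
      (a2 k w' b1)
    convert this using 1
    simp only [map_mul, Module.End.mul_apply, map_sub, map_add]
    module
  have hmul : ∀ m : K, m ≠ 0 → ∀ w, P w → P (m ^ k • w) := by
    rintro m hm w ⟨a1, q, a2, a3⟩
    obtain ⟨s, s1, s2⟩ := h.exists_h hx hy h1 hm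
    refine ⟨Submodule.smul_mem _ _ a1, s * q * s⁻¹, ?_, ?_⟩
    · simpa only [RS.Q, mem_mk, Submonoid.mem_mk, Subsemigroup.mem_mk, Set.mem_setOf_eq, map_mul]
        using Gr.conj a2 (h.aut s) (h.aut _) (rho_inv ρ s).1 (rho_inv ρ s).2 (pow_ne_zero 2 hm)
          (s1.apply hm)
    have b : ρ s⁻¹ y = m ^ 2 • y := by rw [← rho_cancel' ρ s (m ^ 2 • y), map_smul (ρ s), s2]
    have := sub_mem (Submodule.smul_mem _ (m ^ 2)
      ((h.aut s).Fl_mem (pow_ne_zero 2 hm) (s1.apply hm) _ a3)) (s1 k w a1)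
    convert this using 1
    simp only [map_mul, Module.End.mul_apply, map_sub, map_add, b, map_smul, smul_sub, smul_add, s2]
    module
  have h0 : P 0 := ⟨zero_mem _, 1, one_mem _, by simp⟩
  have hn : ∀ (n : ℕ) w, P w → P (n • w) := fun n w a => by
    induction n with
    | zero => simpa using h0
    | succ n ih => exact succ_nsmul w n ▸ hadd _ _ ih a
  obtain ⟨p, hp⟩ := CharP.exists K
  have hneg : ∀ w, P w → P (-w) := fun w a => by
    obtain ⟨n, rfl⟩ := Nat.exists_eq_succ_of_ne_zero (CharP.char_is_prime K p).ne_zero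
    have : (n + 1) • w = 0 := by rw [← Nat.cast_smul_eq_nsmul K, CharP.cast_eq_zero, zero_smul]
    exact eq_neg_of_add_eq_zero_left (succ_nsmul w n ▸ this) ▸ hn n w a
  have hc : ∀ (n : ℕ) w, P w → P ((1 - l ^ k) ^ n • w) := fun n w a => by
    induction n with
    | zero => simpa using a
    | succ n ih =>
      have := hadd _ _ ih (hneg _ (hmul l hl _ ih))
      convert this using 1
      module
  obtain ⟨s, s1, s2⟩ := h.exists_h hx hy h1 hl
  obtain ⟨t, t1, t2⟩ := h.exists_h hx hz h2 hl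
  have b : ρ s⁻¹ y = l ^ 2 • y := by rw [← rho_cancel' ρ s (l ^ 2 • y), map_smul (ρ s), s2]
  have a : P ((1 - l ^ k) • (z - y)) := ⟨Submodule.smul_mem _ _ h3, t * s⁻¹, by
    simpa only [RS.Q, mem_mk, Submonoid.mem_mk, Subsemigroup.mem_mk, Set.mem_setOf_eq, map_mul,
      mul_inv_cancel₀ hl] using t1.mul (s1.inv hl (h.aut _) (rho_inv ρ s).1 (rho_inv ρ s).2) hl
      (h.aut t), by
    convert t1 k _ h3 using 1
    simp only [map_mul, Module.End.mul_apply, map_sub, b, map_smul, smul_sub, t2]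
    module⟩
  obtain ⟨n, hn⟩ : ∃ n, Nat.card K = n + 2 := Nat.exists_eq_add_of_le' (by have := h.three; omega)
  have := Fintype.ofFinite K
  have c := FiniteField.pow_card_sub_one_eq_one _ (sub_ne_zero.2 hk.symm)
  rw [← Nat.card_eq_fintype_card, hn] at c
  have := (hc n _ a).2
  rwa [smul_smul, ← pow_succ, show (1 - l ^ k) ^ (n + 1) = 1 from c, one_smul, add_sub_cancel]
    at this

theorem RS.trans [Finite K] (h : RS g ρ E e) (hx : x ∈ E) {z : L} (hz : z ∈ E) (h2 : g x z = 1)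
    (hy : y ∈ E) (h1 : g x y = 1) : ∃ q ∈ h.Q x, ρ q y = z := by
  have hX := h.ext x hx
  obtain ⟨l, l0, l1⟩ : ∃ l : K, l ≠ 0 ∧ l ≠ 1 := by
    by_contra hc
    have := Nat.card_le_card_of_surjective (![0, 1] : Fin 2 → K) fun a => by
      by_cases b : a = 0
      exacts [⟨0, b.symm⟩, ⟨1, (not_not.1 fun c => hc ⟨a, b, fun d => c d.symm⟩)⟩]
    have := h.three
    simp at *
    omega
  have l2 : (2 : K) = 0 → l ^ 2 ≠ 1 := fun a b => l1 (by grind)
  have hH : ∀ w ∈ E, g x w = 1 → ⁅⁅x, w⁆, w⁆ = (2 : K) • w := fun w hw a => by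
    rw [← lie_skew, ← lie_skew x w, lie_neg, neg_neg, (h.ext w hw).2.1, h.symm, a, mul_one]
  have step : ∀ k, 1 ≤ k → k ≤ 4 → ∀ y ∈ E, g x y = 1 → z - y ∈ Fl g x k →
      ∃ q ∈ h.Q x, z - ρ q y ∈ Fl g x (k + 1) := fun k k1 k2 y hy h1 h3 => by
    interval_cases k
    · exact h.trick hx hy h1 hz h2 l0 (by rwa [pow_one]) h3
    · by_cases c : (2 : K) = 0
      · exact h.trick hx hy h1 hz h2 l0 (l2 c) h3
      obtain ⟨-, κ, a⟩ := mem_Fl2.1 h3
      refine ⟨_, h.e_mem_Q hx (κ / 2), ?_⟩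
      have w1 := h.act y hy (e ((κ / 2) • x))
      have w2 : g x (ρ (e ((κ / 2) • x)) y) = 1 := by
        rw [← h1, ← (h.aut (e ((κ / 2) • x))).form x y, h.Q_fix (h.e_mem_Q hx _)]
      have w3 : ⁅x, ρ (e ((κ / 2) • x)) y⁆ = ⁅x, z⁆ := by
        rw [h.ex _ (h.smul x hx _), ex_smul, eq_sub_iff_add_eq'.1 (a.trans (lie_sub _ _ _)) |>.symm]
        simp only [lie_add, lie_smul, hX.2.1, h1, lie_self]
        match_scalars <;> field_simp <;> ring
      generalize ρ (e ((κ / 2) • x)) y = w at w1 w2 w3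
      have w4 : ⁅x, z - w⁆ = 0 := by rw [lie_sub, w3, sub_self]
      refine mem_Fl3.2 ⟨(2 : K)⁻¹ • ⁅z, z - w⁆, by rw [map_smul, h.cyc, ← lie_skew, w4]; simp, 0, ?_⟩
      rw [lie_smul, leibniz_lie, w4, lie_sub, hH z hz h2, ← w3, hH w w1 w2]
      simp [← smul_sub, c]
    · by_cases c : (3 : K) = 0
      · exact h.trick hx hy h1 hz h2 (l := -1) (by simp) (by grind) h3
      obtain ⟨u, a1, d, a2⟩ := mem_Fl3.1 h3
      have w3 : ⁅x, y⁆ = ⁅x, z⁆ := by
        rw [eq_comm, ← sub_eq_zero, ← lie_sub, ← a2]; simp [hX.2.1, a1]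
      have w4 := congrArg (⁅⁅x, y⁆, ·⁆) a2
      simp only [lie_add, lie_sub, lie_smul, hX.p1, a1, h1, ← lie_skew ⁅x, y⁆ x, hX.2.1,
        hH y hy h1] at w4
      rw [w3, hH z hz h2] at w4
      refine ⟨1, one_mem _, mem_Fl4.2 ⟨(g x ⁅y, u⁆ - d) / 3, smul_right_injective L c ?_⟩⟩
      simp only [map_one, Module.End.one_apply, smul_smul, mul_div_cancel₀ _ c]
      linear_combination (norm := module) w4 + a2
    · by_cases c : (2 : K) = 0
      · exact h.trick hx hy h1 hz h2 l0 (fun b => l1 (by grind)) h3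
      obtain ⟨d, a⟩ := mem_Fl4.1 h3
      have := (h.ext z hz).1
      rw [← eq_sub_iff_add_eq.1 a] at this
      simp only [map_add, map_smul, LinearMap.add_apply, LinearMap.smul_apply, hX.1, h1,
        h.symm y x, (h.ext y hy).1, smul_eq_mul] at this
      exact ⟨1, one_mem _, mem_Fl5.2 (by simp [← a, show d = 0 by grind])⟩
  have : ∀ k ≤ 4, ∃ q ∈ h.Q x, z - ρ q y ∈ Fl g x (k + 1) := fun k hk => by
    induction k with
    | zero => exact ⟨1, one_mem _, mem_Fl1.2 (by simp [h1, h2])⟩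
    | succ k ih =>
      obtain ⟨q, a1, a2⟩ := ih (by omega)
      obtain ⟨q', a3, a4⟩ := step (k + 1) (by omega) hk _ (h.act y hy q)
        (by rw [← h1, ← (h.aut q).form x y, h.Q_fix a1]) a2
      exact ⟨q' * q, mul_mem a3 a1, by rwa [map_mul]⟩
  obtain ⟨q, a1, a2⟩ := this 4 le_rfl
  exact ⟨q, a1, (sub_eq_zero.1 (mem_Fl5.1 a2)).symm⟩

end Pool.Agent.MP_983df8_al
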