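import Pool.Agent.MP_983df8_al.Zenkov

/-! A good root element. -/

namespace Pool.Agent.MP_983df8_al

attribute [-simp] lie_skew lie_lie

universe u v w

namespace np

section
variable {K L : Type*} [Field K] [LieRing L] [LieAlgebra K L] {g : L →ₗ[K] L →ₗ[K] K}
variable {S : Type*} [Group S] {ρ : S →* Module.End K L} {E : Set L} {e : L → S} {x y : L}
variable {σ : Module.End K L} {M : M2 K}

theorem x_mem : x ∈ sl K x y := Submodule.subset_span (by simp)

theorem y_mem : y ∈ sl K x y := Submodule.subset_span (by simp)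

theorem h_mem : ⁅x, y⁆ ∈ sl K x y := Submodule.subset_span (by simp)

theorem sl_lie (H : Hyp g x y) {u v : L} (a : u ∈ sl K x y) (b : v ∈ sl K x y) :
    ⁅u, v⁆ ∈ sl K x y := by
  obtain ⟨r, s, t, rfl⟩ := mem_sl.1 a
  obtain ⟨r', s', t', rfl⟩ := mem_sl.1 b
  refine mem_sl.2 ⟨2 * (r * t' - t * r'), 2 * (t * s' - s * t'), r * s' - s * r', ?_⟩
  simp only [add_lie, lie_add, smul_lie, lie_smul, lie_self, Hyp.lyx (x := x) (y := y), H.xh, H.yh,
    H.hx', H.hy']
  module

theorem ex_mem (H : Hyp g x y) {u v : L} (a : u ∈ sl K x y) (b : v ∈ sl K x y) :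
    ex g u v ∈ sl K x y :=
  add_mem (add_mem b (sl_lie H a b)) (Submodule.smul_mem _ _ a)

theorem back (h : RS g ρ E e) {z : L} (hz : z ∈ E) (u : L) : ex g (-z) (ex g z u) = u := by
  rw [← h.ex z hz, ← h.ex _ (h.neg hz), h.e_neg hz, rho_cancel']

theorem ideal [IsSimpleGroup S] (h : RS g ρ E e) (H : Hyp g x y) (hx : x ∈ E)
    (a : ∀ w ∈ E, g x w ≠ 0 → w ∈ sl K x y) : Module.finrank K L ≤ 3 := by
  have x0 : x ≠ 0 := fun b => by simpa [b] using H.one
  let C : Subgroup S :=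
    { carrier := {s | ∀ u, ρ s u ∈ sl K x y ↔ u ∈ sl K x y}
      one_mem' := fun u => by simp
      mul_mem' := fun {s t} hs ht u => by rw [map_mul, Module.End.mul_apply, hs, ht]
      inv_mem' := fun {s} hs u => by rw [← hs, rho_cancel] }
  have c1 : C = ⊤ := h.eq_top hx x0 fun z hz b u => by
    rw [h.ex z hz]
    exact ⟨fun d => back h hz u ▸ ex_mem H (neg_mem (a z hz b)) d, ex_mem H (a z hz b)⟩
  have c2 : ∀ z ∈ E, ∀ u ∈ sl K x y, ex g z u ∈ sl K x y := fun z hz u hu =>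
    h.ex z hz ▸ (c1.ge (Subgroup.mem_top (e z)) u).2 hu
  have c3 : ∀ w ∈ E, w ∈ sl K x y := fun w hw => by
    by_contra n
    have d1 : ∀ u ∈ sl K x y, g w u = 0 := fun u hu => by
      by_contra d
      have m := sub_mem (add_mem (c2 w hw u hu) (c2 _ (h.neg hw) u hu)) (add_mem hu hu)
      have q : ex g w u + ex g (-w) u - (u + u) = (2 * g w u) • w := by
        simp only [ex_apply, neg_lie, map_neg, LinearMap.neg_apply]
        module
      rw [q, Submodule.smul_mem_iff _ (mul_ne_zero H.two d)] at m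
      exact n m
    have d2 : ∀ u ∈ sl K x y, ⁅w, u⁆ = 0 := fun u hu => by
      have m := sub_mem (c2 w hw u hu) hu
      rw [ex_apply, d1 u hu, zero_smul, add_zero, add_sub_cancel_left] at m
      have k : ∀ v ∈ sl K x y, g v ⁅w, u⁆ = 0 := fun v hv => by
        rw [h.cyc, d1 _ (sl_lie H hu hv)]
      exact H.perp m (k _ x_mem) (k _ y_mem) (k _ h_mem)
    let D : Subgroup S :=
      { carrier := {s | ρ s w = w}
        one_mem' := by simp
        mul_mem' := fun {s t} hs ht => by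
          rw [Set.mem_ofPred_eq, map_mul, Module.End.mul_apply, ht, hs]
        inv_mem' := fun {s} hs => by
          have := rho_cancel' ρ s w
          rwa [hs] at this }
    have d3 : D = ⊤ := h.eq_top hx x0 fun z hz b => show ρ (e z) w = w by
      rw [h.ex z hz, ex_apply, h.symm, d1 z (a z hz b), ← lie_skew, d2 z (a z hz b)]
      simp
    have d4 : ∀ z ∈ E, ex g z w = w := fun z hz =>
      h.ex z hz ▸ (d3.ge (Subgroup.mem_top (e z)) : ρ (e z) w = w)
    obtain ⟨z, hz, d5⟩ := h.exists_opp (x := w) fun b => n (b ▸ zero_mem _)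
    have q : (2 * g z w) • z = 0 := by
      have b1 := d4 z hz
      have b2 := d4 _ (h.neg hz)
      simp only [ex_apply, neg_lie, map_neg, LinearMap.neg_apply] at b1 b2
      linear_combination (norm := module) b1 + b2
    rcases smul_eq_zero.1 q with q | q
    · exact mul_ne_zero H.two (h.symm w z ▸ d5) q
    · exact d5 (by simp [q])
  have c4 : Submodule.span K (Set.range ![x, y, ⁅x, y⁆]) = ⊤ := by
    refine top_unique (h.span.ge.trans (Submodule.span_le.2 fun w hw => ?_))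
    refine Submodule.span_mono ?_ (c3 w hw)
    rintro _ (rfl | rfl | rfl)
    exacts [⟨0, rfl⟩, ⟨1, rfl⟩, ⟨2, rfl⟩]
  simpa using finrank_le_of_span_eq_top c4

theorem exists_g1 [IsSimpleGroup S] (h : RS g ρ E e) (H : Hyp g x y) (hx : x ∈ E)
    (hr : 3 < Module.finrank K L) : ∃ v, G1 g x y v ∧ v ≠ 0 := by
  by_contra n
  push Not at n
  refine (ideal h H hx fun w hw b => ?_).not_gt hr
  obtain ⟨s, hs, v, v', m, h1, h2, h3, q⟩ := H.dec w
  rw [n v h1, n v' h2, lie_zero, add_zero, add_zero] at q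
  have k : ∀ u ∈ sl K x y, ⁅w, u⁆ ∈ sl K x y := fun u hu => by
    have z : ⁅m, u⁆ = 0 := by
      obtain ⟨r, s, t, rfl⟩ := mem_sl.1 hu
      rw [← lie_skew]
      simp [h3.lx, h3.ly, H.g0_h h3]
    rw [q, add_lie, z, add_zero]
    exact sl_lie H hs hu
  have := k _ (k _ x_mem)
  rwa [(h.ext w hw).2.1, Submodule.smul_mem_iff _ (mul_ne_zero H.two (h.symm w x ▸ b))] at this

theorem mt_pow (a : Mt g x y σ M) (n : ℕ) : Mt g x y (σ ^ n) (M ^ n) := by
  induction n with
  | zero => simpa using Mt.one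
  | succ n ih => simpa only [pow_succ] using ih.mul a

theorem exists_u (H : Hyp g x y) (a : Mt g x y σ M) (b : GenTr M.trace) :
    ∃ u, qd (M.trace ^ 2 - 2) σ u = 0 ∧ g x u ≠ 0 := by
  have d := a.det
  by_cases c : M 1 0 = 0
  · refine ⟨(M 1 1 - M 0 0) • y + M 0 1 • ⁅x, y⁆, ?_, ?_⟩
    · simp only [qd_apply, map_add, map_smul, a.sx, a.sy, a.sh, Matrix.trace_fin_two]
      match_scalars <;> grind
    · obtain ⟨-, b1, b2, -⟩ := b
      rw [Matrix.trace_fin_two] at b1 b2
      simp only [map_add, map_smul, H.one, H.gxh, smul_eq_mul]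
      grind
  · refine ⟨M 0 1 • x + M 1 0 • y, ?_, by simpa [H.xx, H.one] using c⟩
    simp only [qd_apply, map_add, map_smul, a.sx, a.sy, a.sh, Matrix.trace_fin_two]
    match_scalars <;> grind

theorem genTr {F : Type*} [Field F] (φ : K →+* F) {τ : K} {l : F} (l0 : l ≠ 0)
    (a : φ τ = l + l⁻¹) (b : 16 < orderOf l) : GenTr τ := by
  have k : ∀ n : ℕ, n ≠ 0 → n ≤ 16 → l ^ n ≠ 1 := fun n c d =>
    pow_ne_one_of_lt_orderOf c (d.trans_lt b)
  have i : l * l⁻¹ = 1 := mul_inv_cancel₀ l0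
  refine ⟨?_, ?_, ?_, ?_⟩ <;> rintro rfl
  · rw [map_zero] at a
    exact k 4 (by omega) (by omega) (by grind)
  · rw [map_ofNat] at a
    exact k 1 (by omega) (by omega) (by grind)
  · rw [map_neg, map_ofNat] at a
    exact k 2 (by omega) (by omega) (by grind)
  · rw [map_neg, map_one] at a
    exact k 3 (by omega) (by omega) (by grind)

theorem five {F : Type*} [Field F] [Algebra K F] (H : Hyp g x y) (a : Mt g x y σ M) {l : F}
    (l0 : l ≠ 0) (t : algebraMap K F M.trace = l + l⁻¹) (b : 16 < orderOf l) :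
    Five (Module.End.baseChangeHom K F L σ) := by
  refine ⟨l, l0, fun n c d => pow_ne_one_of_lt_orderOf c.ne' (d.trans_lt b), fun m hm => ?_⟩
  obtain ⟨v, hv⟩ := hm.exists_hasEigenvector
  have e1 := hv.apply_eq_smul
  have e0 : qd (M.trace ^ 2 - 2) σ * cb M.trace σ = 0 := LinearMap.ext fun u => (a.cb H u).2
  have e2 := DFunLike.congr_fun (congrArg (Module.End.baseChangeHom K F L) e0) v
  generalize Module.End.baseChangeHom K F L = Φ at e1 e2
  simp only [qd, cb, map_mul, map_sub, map_add, map_one, map_smul, map_zero, Module.End.mul_apply,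
    LinearMap.sub_apply, LinearMap.add_apply, Module.End.one_apply, LinearMap.zero_apply,
    ← algebraMap_smul F (_ : K) (Φ σ), LinearMap.smul_apply, e1, map_pow, map_ofNat, t] at e2
  have i : l * l⁻¹ = 1 := mul_inv_cancel₀ l0
  have e3 : ((m - l ^ 2) * (m - l⁻¹ ^ 2) * (m - 1) * (m - l) * (m - l⁻¹)) • v = 0 := by
    rw [← e2]
    match_scalars
    grind
  simp only [smul_eq_zero, hv.2, or_false, mul_eq_zero, sub_eq_zero] at e3
  rcases e3 with (((e3 | e3) | e3) | e3) | e3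
  · exact ⟨2, by omega, by omega, by rw [e3, zpow_ofNat]⟩
  · exact ⟨-2, by omega, by omega, by rw [e3, zpow_neg, zpow_ofNat, inv_pow]⟩
  · exact ⟨0, by omega, by omega, by rw [e3, zpow_zero]⟩
  · exact ⟨1, by omega, by omega, by rw [e3, zpow_one]⟩
  · exact ⟨-1, by omega, by omega, by rw [e3, zpow_neg, zpow_one]⟩

end

theorem torus (uq : Uniq.{u, v, w}) (cy : Cyc2.{u, w}) {K : Type w} {L : Type v} [Field K]
    [Finite K] [LieRing L] [LieAlgebra K L] {g : L →ₗ[K] L →ₗ[K] K} {S : Type u} [Group S]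
    [Finite S] [IsSimpleGroup S] {ρ : S →* Module.End K L} {E : Set L} {e : L → S}
    (h : RS g ρ E e) (hR : Rigid g E) (h2 : (2 : K) ≠ 0) (hK : 32 < Nat.card K)
    (hr : 3 < Module.finrank K L) (p : ℕ) [Fact p.Prime] [CharP K p] (J : Subgroup S)
    [Group.IsSolvable J] (h3 : ¬ 3 ∣ Nat.card J) (hp : ¬ p ∣ Nat.card J)
    (n : ∀ x ∈ E, x ≠ 0 → ∃ y ∈ E, e x * e y ∈ J ∧ g x y ≠ 0) {x : L} (hx : x ∈ E) (x0 : x ≠ 0) :
    ∃ (y : L) (t : J) (M : M2 K) (l : AlgebraicClosure K), Hyp g x y ∧ Mt g x y (ρ t) M ∧ l ≠ 0 ∧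
      algebraMap K _ M.trace = l + l⁻¹ ∧ 16 < orderOf l := by
  obtain ⟨y₁, a1, a2, a3⟩ := n x hx x0
  obtain ⟨y, hy, b1, b2⟩ : ∃ y ∈ E, g x y = 1 ∧ g x y₁ • y = y₁ :=
    ⟨_, h.smul y₁ a1 (g x y₁)⁻¹, by simp [a3], by simp [a3]⟩
  have H : Hyp g x y := ⟨h.toInvF, h.ext x hx, h.ext y hy, b1, h2⟩
  obtain ⟨v, v1, v0⟩ := exists_g1 h H hx hr
  let Γ : Subgroup J :=
    { carrier := {j | ∃ M, Mt g x y (ρ j) M}
      one_mem' := ⟨1, by simpa using Mt.one⟩
      mul_mem' := fun ⟨M, a⟩ ⟨M', b⟩ => ⟨M * M', by simpa using a.mul b⟩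
      inv_mem' := fun {j} ⟨M, a⟩ => by
        obtain ⟨k, hk⟩ := mem_powers_iff_mem_zpowers.2 (inv_mem (Subgroup.mem_zpowers j))
        exact ⟨M ^ k, by simpa [← hk] using mt_pow a k⟩ }
  choose θ hθ using fun j : Γ => (j.2 : ∃ M, Mt g x y (ρ (j : J)) M)
  let θ₀ : Γ →* M2 K :=
    { toFun := θ
      map_one' := (hθ 1).inj H (by simpa using Mt.one) v1 v0
      map_mul' := fun a b => (hθ (a * b)).inj H (by simpa using (hθ a).mul (hθ b)) v1 v0 }
  have c1 : ∀ s : K, ∃ (γ : Γ) (a b c : K), (s ≠ 0 → b ≠ 0) ∧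
      θ γ = !![1 - 0, s; -0, 1 + 0] * !![1 - c, a; -b, 1 + c] := fun s => by
    by_cases s0 : s = 0
    · exact ⟨1, 0, 0, 0, fun a => (a s0).elim, θ₀.map_one.trans (by simp [s0, Matrix.one_fin_two])⟩
    obtain ⟨z, d1, d2, d3⟩ := n _ (h.smul x hx s) (smul_ne_zero s0 x0)
    have d4 : g x z ≠ 0 := fun a => d3 (by simp [a])
    obtain ⟨a, b, c, rfl⟩ := mem_sl.1 (uq K L g S ρ E e h hR h2 p J h3 hp x hx y hy z d1 b1 d4 1
      (g x y₁) s one_ne_zero a3 s0 (by rwa [one_smul, b2]) d2)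
    have d5 : a * b = c * c := by
      have := (h.ext _ d1).1
      simp only [map_add, map_smul, LinearMap.add_apply, LinearMap.smul_apply, H.xx, H.yy, H.one,
        H.yx, H.gxh, H.gyh, H.ghx, H.ghy, H.ghh, smul_eq_mul] at this
      grind
    have d6 : Mt g x y (ex g (s • x)) !![1 - 0, s; -0, 1 + 0] := by
      simpa only [zero_smul, add_zero] using H.mt_ex (a := s) (b := 0) (c := 0) (by simp)
    have d7 := d6.mul (H.mt_ex d5)
    rw [← h.ex _ (h.smul x hx s), ← h.ex _ d1, ← map_mul] at d7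
    refine ⟨⟨⟨_, d2⟩, _, d7⟩, a, b, c, fun _ => ?_, (hθ _).inj H d7 v1 v0⟩
    simpa [H.xx, H.one, H.gxh] using d4
  choose f fa fb fc f1 f2 using c1
  have c2 : Function.Injective f := fun s s' a => by
    have b := (f2 s).symm.trans (a ▸ f2 s')
    have b1 := congrFun (congrFun b 0) 0
    have b2 := congrFun (congrFun b 1) 0
    have b3 := congrFun (congrFun b 1) 1
    simp [Matrix.mul_apply, Fin.sum_univ_two] at b1 b2 b3
    have := f1 s
    have := f1 s'
    grind
  have c3 := Nat.card_le_card_of_injective f c2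
  have dv := Γ.card_subgroup_dvd_card
  obtain ⟨γ, l, l0, l1, l2⟩ := cy (AlgebraicClosure K) Γ
    ((algebraMap K (AlgebraicClosure K)).mapMatrix.toMonoidHom.comp θ₀)
    (fun a b c => Subtype.ext (Subtype.ext (h.inj ((hθ a).uniq H
      ((Matrix.map_injective (algebraMap K (AlgebraicClosure K)).injective c : θ a = θ b) ▸
        hθ b)))))
    (fun γ => ((algebraMap K (AlgebraicClosure K)).map_det (θ γ)).symm.trans (by
      rw [Matrix.det_fin_two, (hθ γ).det, map_one]))
    (fun a => h2 ((algebraMap K (AlgebraicClosure K)).injective (by rw [map_ofNat, a, map_zero])))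
    (fun a => hp (((CharP.cast_eq_zero_iff _ p _).1 a).trans dv)) fun a => h3 (a.trans dv)
  refine ⟨y, γ, θ γ, l, H, hθ γ, l0, ?_, by omega⟩
  rw [← l1, Matrix.trace_fin_two, Matrix.trace_fin_two, map_add]
  rfl

end np

open np

theorem noPair : Uniq.{u, v, w} → Tori.{v, w} → Cyc2.{u, w} → HH.{u, max v w, w} →
    NoPair.{u, v, w} := by
  intro uq tr cy hh K L _ _ _ _ g S _ _ _ ρ E e h hR h2 hK hr p _ _ J _ h3 hp
  by_contra n
  push Not at n
  have T := fun x hx x0 => torus uq cy h hR h2 hK hr p J h3 hp n (x := x) hx x0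
  have : FiniteDimensional K L := Module.finite_of_finrank_pos (by omega)
  obtain ⟨x, hx, x0⟩ : ∃ x ∈ E, x ≠ 0 := by
    by_contra a
    push Not at a
    have : Subsingleton L := subsingleton_of_forall_eq 0 fun u =>
      (Submodule.span_eq_bot.2 a).le (h.span.ge Submodule.mem_top)
    rw [Module.finrank_zero_of_subsingleton] at hr
    omega
  obtain ⟨y, t, M, l, H, a1, a2, a3, a4⟩ := T x hx x0
  have c1 : ∀ w ∈ E, w ∉ sl K x y → ∀ u, qd (M.trace ^ 2 - 2) (ρ t) u = 0 → g w u = 0 := by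
    intro w hw m
    obtain ⟨y', t', M', l', H', b1, b2, b3, b4⟩ := T w hw fun a => m (a ▸ zero_mem _)
    have cm := hh (AlgebraicClosure K) _ J
      ((Module.End.baseChangeHom K (AlgebraicClosure K) L).toMonoidHom.comp (ρ.comp J.subtype))
      ((LinearMap.baseChangeHom_injective K L (AlgebraicClosure K)).comp
        (h.inj.comp J.subtype_injective))
      (fun a => hp ((CharP.cast_eq_zero_iff _ p _).1 a)) t t' (five H a1 a2 a3 a4)
      (five H' b1 b2 b3 b4)
    exact (tr K L g x y w y' _ _ M M' H H' (h.aut _) (h.aut _) a1 b1 (cm.map (ρ.comp J.subtype))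
      (genTr _ a2 a3 a4) (genTr _ b2 b3 b4)).resolve_left m
  obtain ⟨u, u1, u2⟩ := exists_u H a1 (genTr _ a2 a3 a4)
  refine (ideal h H hx fun w hw b => ?_).not_gt hr
  by_contra m
  have c2 : ∀ z ∈ E, z ∈ sl K x y → g (ex g z w) u = 0 := fun z hz a =>
    c1 _ (h.ex z hz ▸ h.act w hw (e z)) (fun c => m (back h hz w ▸ ex_mem H (neg_mem a) c)) u u1
  have d1 := c2 x hx x_mem
  have d2 := c2 _ (h.neg hx) (neg_mem x_mem)
  simp only [ex_apply, neg_lie, map_add, map_neg, map_smul, LinearMap.add_apply,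
    LinearMap.neg_apply, LinearMap.smul_apply, c1 w hw m u u1, smul_eq_mul] at d1 d2
  grind

end Pool.Agent.MP_983df8_al
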