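import Pool.Agent.MP_983df8_al.Zenkov

/-! Commuting tori of two fundamental subgroups. -/

namespace Pool.Agent.MP_983df8_al

attribute [-simp] lie_skew lie_lie

universe v w

namespace tori

variable {K L : Type*} [Field K] [LieRing L] [LieAlgebra K L] {g : L →ₗ[K] L →ₗ[K] K}
variable {x y : L} {σ σ' : Module.End K L} {M : M2 K}

theorem k2 {τ : K} (a : GenTr τ) : 2 - (τ ^ 2 - 2) ≠ 0 := fun e =>
  mul_ne_zero (sub_ne_zero.2 a.2.1) (sub_ne_zero.2 a.2.2.1) (by linear_combination -e)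

theorem kt {τ : K} (a : GenTr τ) : τ ^ 2 - 2 - τ ≠ 0 := fun e =>
  mul_ne_zero (sub_ne_zero.2 a.2.1) (sub_ne_zero.2 a.2.2.2) (by linear_combination e)

theorem sq {k : K} {u : L} (a : qd k σ u = 0) : σ (σ u) = k • σ u - u := by
  rw [qd_apply] at a
  linear_combination (norm := module) a

theorem qd_map {k : K} {u : L} (c : Commute σ' σ) (a : qd k σ u = 0) : qd k σ (σ' u) = 0 := by
  rw [← Module.End.mul_apply, ← (qd_comm c k).eq, Module.End.mul_apply, a, map_zero]

theorem cb_apply (τ : K) (u : L) :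
    cb τ σ u = σ (σ (σ u)) - (τ + 1) • σ (σ u) + (τ + 1) • σ u - u := by
  simp only [cb, Module.End.mul_apply, LinearMap.sub_apply, Module.End.one_apply, qd_apply, map_add,
    map_sub, map_smul]
  module

theorem of_smul {N : Submodule K L} {c : K} {u : L} (a : c ≠ 0) (b : c • u ∈ N) : u ∈ N :=
  (N.smul_mem_iff a).1 b

theorem ker_le (h : Hyp g x y) (a : Mt g x y σ M) (t : GenTr M.trace) {u : L}
    (b : qd (M.trace ^ 2 - 2) σ u = 0) : u ∈ sl K x y := by
  have e := sq b
  have p : (M.trace ^ 2 - 2 - 1) • σ u - u ∈ sl K x y := of_smul (kt t) (by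
    convert (a.cb h u).1 using 1
    simp only [cb_apply, e, map_sub, map_smul]
    module)
  refine of_smul (k2 t) ?_
  convert sub_mem (Submodule.smul_mem _ ((M.trace ^ 2 - 2) ^ 2 - (M.trace ^ 2 - 2) - 1) p)
    (Submodule.smul_mem _ (M.trace ^ 2 - 2 - 1) (a.mem p)) using 1
  simp only [e, map_sub, map_smul]
  module

theorem lie_co (h : Hyp g x y) (a b c r s t : K) :
    ⁅a • x + b • y + c • ⁅x, y⁆, r • x + s • y + t • ⁅x, y⁆⁆ =
      (2 * (a * t - c * r)) • x + (2 * (c * s - b * t)) • y + (a * s - b * r) • ⁅x, y⁆ := by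
  simp only [add_lie, lie_add, smul_lie, lie_smul, lie_self, Hyp.lyx (x := x) (y := y), h.xh, h.yh,
    h.hx', h.hy']
  module

theorem g_co (h : Hyp g x y) (a b c r s t : K) :
    g (a • x + b • y + c • ⁅x, y⁆) (r • x + s • y + t • ⁅x, y⁆) = a * s + b * r - 2 * c * t := by
  simp only [map_add, map_smul, LinearMap.add_apply, LinearMap.smul_apply, h.xx, h.yy, h.one, h.yx,
    h.gxh, h.gyh, h.ghx, h.ghy, h.ghh, smul_eq_mul]
  ring

theorem lie_mem (h : Hyp g x y) {u v : L} (a : u ∈ sl K x y) (b : v ∈ sl K x y) :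
    ⁅u, v⁆ ∈ sl K x y := by
  obtain ⟨_, _, _, rfl⟩ := mem_sl.1 a
  obtain ⟨_, _, _, rfl⟩ := mem_sl.1 b
  rw [lie_co h]
  exact sl_mem _ _ _

theorem span3 (h : Hyp g x y) {u v z : L} (a : u ∈ sl K x y) (b : v ∈ sl K x y)
    (c : z ∈ sl K x y) : (2 * (g u u * g v v - g u v * g u v)) • z =
      (2 * (g z u * g v v - g z v * g u v)) • u + (2 * (g z v * g u u - g z u * g u v)) • v +
        g z ⁅u, v⁆ • ⁅u, v⁆ := by
  obtain ⟨_, _, _, rfl⟩ := mem_sl.1 a
  obtain ⟨_, _, _, rfl⟩ := mem_sl.1 b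
  obtain ⟨_, _, _, rfl⟩ := mem_sl.1 c
  simp only [lie_co h, g_co h]
  module

theorem exists_u (h : Hyp g x y) (f : AutF g σ) (a : Mt g x y σ M) (t : GenTr M.trace) :
    ∃ u, qd (M.trace ^ 2 - 2) σ u = 0 ∧ g u u ≠ 0 := by
  have k : ∀ s ∈ sl K x y, g s (σ s) ≠ g s s → ∃ u, qd (M.trace ^ 2 - 2) σ u = 0 ∧ g u u ≠ 0 :=
    fun s hs e => ⟨σ s - s, by
      rw [map_sub, ← Module.End.mul_apply _ σ, ← (qd_comm (Commute.refl σ) _).eq,
        Module.End.mul_apply, a.qd2 hs, sub_self], fun e' => e (mul_left_cancel₀ h.two (by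
          simp only [map_sub, LinearMap.sub_apply, f.form, h.symm (σ s) s] at e'
          linear_combination -e'))⟩
  have mx : x ∈ sl K x y := by simpa using sl_mem (x := x) (y := y) (1 : K) 0 0
  have my : y ∈ sl K x y := by simpa using sl_mem (x := x) (y := y) (0 : K) 1 0
  by_cases a1 : M 1 0 = 0
  · by_cases a2 : M 0 1 = 0
    · refine k (x + y) (add_mem mx my) fun e => k2 t ?_
      have d := a.det
      simp only [map_add, LinearMap.add_apply, a.sx, a.sy, a1, a2, map_smul, h.xx, h.yy, h.one, h.yx,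
        h.gxh, h.gyh, smul_eq_mul] at e d
      rw [Matrix.trace_fin_two]
      linear_combination -e - 2 * d
    · refine k y my fun e => a2 ?_
      simpa [a.sy, h.yy, h.yx, h.gyh] using e
  · refine k x mx fun e => a1 ?_
    simpa [a.sx, h.xx, h.one, h.gxh] using e

theorem perp (f : AutF g σ) {τ : K} (t : GenTr τ) {z : L} (a : cb τ σ z = 0) {u : L}
    (b : qd (τ ^ 2 - 2) σ u = 0) : g z u = 0 := by
  have k : ∀ u, qd (τ ^ 2 - 2) σ u = 0 → g z u = (τ ^ 2 - 2 - 1) * g z (σ u) := fun u b => by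
    have e := congrArg (g · (σ (σ (σ u)))) a
    simp only [cb_apply, map_add, map_sub, map_smul, LinearMap.add_apply, LinearMap.sub_apply,
      LinearMap.smul_apply, f.form, map_zero, LinearMap.zero_apply, smul_eq_mul] at e
    simp only [sq b, map_sub, map_smul, smul_eq_mul] at e
    exact mul_left_cancel₀ (kt t) (by linear_combination e)
  have e := k _ (qd_map (Commute.refl σ) b)
  have e' := k u b
  rw [sq b, map_sub, map_smul, smul_eq_mul] at e
  have e1 : g z (σ u) = 0 := mul_left_cancel₀ (k2 t) (by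
    linear_combination e - (τ ^ 2 - 2 - 1) * e')
  rw [e', e1, mul_zero]

theorem cb_zero (h : Hyp g x y) (a : Mt g x y σ M) {s : K} (b : s ≠ M.trace ^ 2 - 2) {u : L}
    (c : qd s σ u = 0) : cb M.trace σ u = 0 := by
  have e1 := sq (a.cb h u).2
  have e2 := qd_map (cb_comm (Commute.refl σ) M.trace).symm c
  have e3 : σ (cb M.trace σ u) = 0 := (smul_eq_zero.1 (by
    linear_combination (norm := module) (sq e2).symm.trans e1)).resolve_left (sub_ne_zero.2 b)
  simpa [qd_apply, e3] using e2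

end tori

open tori in
theorem tori : Tori.{v, w} := by
  intro K L _ _ _ g x y x' y' σ σ' M M' h h' f f' a a' c t t'
  obtain ⟨u, u1, u2⟩ := exists_u h' f' a' t'
  obtain ⟨k, hk⟩ : ∃ k, k = M'.trace ^ 2 - 2 := ⟨_, rfl⟩
  have kk : 2 - k ≠ 0 := hk ▸ k2 t'
  have m : ∀ z, qd k σ' z = 0 → z ∈ sl K x' y' := fun z b => ker_le h' a' t' (hk ▸ b)
  rw [← hk] at u1
  have v1 := qd_map (Commute.refl σ') u1
  have e := sq u1
  have g1 : 2 * g u (σ' u) = k * g u u := by
    have := f'.form u (σ' u)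
    rw [e, map_sub, map_smul, f'.form, h'.symm (σ' u) u, smul_eq_mul] at this
    linear_combination -this
  have hD : 2 * (g u u * g (σ' u) (σ' u) - g u (σ' u) * g u (σ' u)) ≠ 0 := fun e' =>
    mul_ne_zero (mul_ne_zero kk (mul_ne_zero t'.1 t'.1)) (mul_ne_zero u2 u2) (by
      rw [f'.form] at e'
      have : M'.trace * M'.trace = k + 2 := by rw [hk]; ring
      rw [this]
      linear_combination 2 * e' + (2 * g u (σ' u) + k * g u u) * g1)
  have sp : ∀ z ∈ sl K x' y', ∃ r s q : K, z = r • u + s • σ' u + q • ⁅u, σ' u⁆ := fun z b => by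
    refine ⟨_, _, _, ((inv_smul_smul₀ hD z).symm.trans (by
      rw [span3 h' (m u u1) (m _ v1) b, smul_add, smul_add, smul_smul, smul_smul, smul_smul]))⟩
  have w1 : σ' ⁅u, σ' u⁆ = ⁅u, σ' u⁆ := by
    rw [f'.lie, e, lie_sub, lie_smul, lie_self, smul_zero, zero_sub, lie_skew]
  have s1 := qd_map c u1
  obtain ⟨r, s, q, e1⟩ := sp _ (m _ s1)
  have q0 : q • ⁅u, σ' u⁆ = 0 := by
    rw [e1, map_add, map_add, map_smul, map_smul, map_smul, u1, v1, qd_apply, w1, w1] at s1
    exact (smul_eq_zero.1 (by linear_combination (norm := module) s1)).resolve_left kk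
  rw [q0, add_zero] at e1
  have e2 : σ (σ' u) = (r + s * k) • σ' u - s • u := by
    rw [← Module.End.mul_apply, c.eq, Module.End.mul_apply, e1, map_add, map_smul, map_smul, e]
    module
  have d : r * r + r * s * k + s * s = 1 := mul_right_cancel₀ u2 (by
    have := f.form u u
    simp only [e1, map_add, map_smul, LinearMap.add_apply, LinearMap.smul_apply, f'.form,
      h'.symm (σ' u) u, smul_eq_mul] at this
    linear_combination this - r * s * g1)
  have w2 : σ ⁅u, σ' u⁆ = ⁅u, σ' u⁆ := by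
    rw [f.lie, e1, e2]
    simp only [add_lie, lie_sub, smul_lie, lie_smul, lie_self, ← lie_skew (σ' u) u]
    match_scalars
    linear_combination d
  have p1 : qd (2 * r + s * k) σ u = 0 := by
    simp only [qd_apply, e1, e2, map_add, map_smul]
    match_scalars <;> first | ring1 | linear_combination -d
  have p2 := qd_map c.symm p1
  obtain ⟨r', s', q', e3⟩ := sp x' (by simpa using sl_mem (x := x') (y := y') (1 : K) 0 0)
  by_cases b : 2 * r + s * k = M.trace ^ 2 - 2
  · rw [b] at p1 p2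
    have b1 := ker_le h a t p1
    have b2 := ker_le h a t p2
    exact .inl (e3 ▸ add_mem (add_mem (Submodule.smul_mem _ _ b1) (Submodule.smul_mem _ _ b2))
      (Submodule.smul_mem _ _ (lie_mem h b1 b2)))
  · refine .inr fun z => perp f t ?_
    rw [e3, map_add, map_add, map_smul, map_smul, map_smul, cb_zero h a b p1, cb_zero h a b p2,
      cb_apply, w2, w2, w2]
    module

end Pool.Agent.MP_983df8_al
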