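import Pool.Agent.MP_983df8_al.Sl2

namespace Pool.Agent.MP_983df8_al

open Subgroup Matrix

attribute [local instance 100] LieRing.ofAssociativeRing

variable {K L : Type*} [Field K] [LieRing L] [LieAlgebra K L] {g : L →ₗ[K] L →ₗ[K] K}
variable {F : Type*} [Field F] {φ : K →+* F} {x y z : L}
variable {S : Type*} [Group S] {ρ : S →* Module.End K L} {E : Set L} {e : L → S}

theorem cliff_three [IsAlgClosed F] (p : ℕ) [Fact p.Prime] [CharP F p] (h2 : (2 : F) ≠ 0)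
    {Γ : Type*} [Group Γ] [Finite Γ] [Group.IsSolvable Γ] {θ : Γ →* M3 F}
    (hd : ∀ g, (θ g).det = 1) (h3 : ¬ 3 ∣ (scal θ).index) (hp : ¬ p ∣ (scal θ).index)
    (hc : ∀ X : M3 F, (∀ g, θ g * X = X * θ g) → ∃ c : F, X = c • (1 : M3 F)) : False := by
  obtain ⟨N, f1, -, f3, f4⟩ := exists_layer (E := ⊤) (U := scal θ) fun e => by
    obtain ⟨c, a⟩ := hc (single 0 1 1) fun g => by
      obtain ⟨c, a⟩ := e (mem_top g)
      simp [a]
    simpa using congrFun (congrFun a 0) 1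
  obtain ⟨n, n1, n2⟩ := SetLike.not_le_iff_exists.1 f3
  refine cliff h2 θ (scal θ) (fun z a => a) h3 (n := n) (fun g => ?_)
    (fun a b => n2 (scal_of_unip hp b)) hc
  have m1 := f1.conj_mem n n1 g
  generalize g * n * g⁻¹ = m at m1
  obtain ⟨c, hc⟩ := f4 n n1 m m1
  have a1 : c ^ 3 = 1 := by simpa [hc] using hd (n * m * n⁻¹ * m⁻¹)
  have a2 : θ n * θ m = c • (θ m * θ n) := by
    rw [← map_mul, show n * m = n * m * n⁻¹ * m⁻¹ * (m * n) by group, map_mul, hc, smul_mul, one_mul,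
      map_mul]
  have a3 : ∀ k : ℕ, θ n ^ k * θ m = c ^ k • (θ m * θ n ^ k) := fun k => by
    induction k with
    | zero => simp
    | succ k ih =>
      rw [pow_succ', mul_assoc, ih, Matrix.mul_smul, ← mul_assoc, a2, smul_mul, smul_smul, mul_assoc,
        pow_succ c]
  obtain ⟨d, e⟩ := (scal θ).pow_index_mem n
  have a4 := congrArg (fun X => (θ m⁻¹ * X * θ (n ^ (scal θ).index)⁻¹) 0 0) (a3 (scal θ).index)
  rw [← map_pow, (show Commute (θ (n ^ (scal θ).index)) (θ m) from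
    e ▸ (Commute.one_left _).smul_left d).eq] at a4
  simp only [Matrix.mul_smul, smul_mul, ← map_mul, inv_mul_cancel_left, mul_inv_cancel,
    map_one] at a4
  have a5 : c = 1 := orderOf_eq_one_iff.1 (Nat.eq_one_of_dvd_coprimes
    ((Nat.prime_three.coprime_iff_not_dvd).2 h3) (orderOf_dvd_of_pow_eq_one a1)
    (orderOf_dvd_of_pow_eq_one (by simpa using a4.symm)))
  exact show _ * _ = _ * _ by simpa [a5] using a2

theorem RS.K3' [IsAlgClosed F] (h : RS g ρ E e) {p : ℕ} [Fact p.Prime] [CharP F p] {J : Subgroup S}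
    [Finite J] [Group.IsSolvable J] (h2 : (2 : F) ≠ 0) (h3 : ¬ 3 ∣ Nat.card J)
    (hp : ¬ p ∣ Nat.card J)
    (hx : x ∈ E) (hy : y ∈ E) (hz : z ∈ E) {s t : K} (hj : e (s • x) * e y ∈ J)
    (hj' : e (t • x) * e z ∈ J) (ha : φ (g x y) ≠ 0) (hb : φ (g x z) ≠ 0) (hs : φ s ≠ 0)
    (ht : φ t ≠ 0) {u v : F} (hc : φ (g y z) = -(u * v))
    (hd : φ (g x ⁅y, z⁆) = φ (g x z) * u - φ (g x y) * v) :
    φ (g x z) * u + φ (g x y) * v = 0 := by
  by_contra hn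
  generalize ea : φ (g x y) = a at *
  generalize eb : φ (g x z) = b at *
  have cm : ∀ P : M3 F, Commute P ((1 + φ s • !![0, 1, 1; 0, 0, 0; 0, 0, 0]) *
      (1 + !![0, 0, 0; -a, 0, u; 0, 0, 0])) → Commute P ((1 + φ t • !![0, 1, 1; 0, 0, 0; 0, 0, 0]) *
      (1 + !![0, 0, 0; 0, 0, 0; -b, v, 0])) → ∃ c : F, P = c • 1 := fun P b0 b1 => by
    simp [Commute, SemiconjBy, m3_ext, Matrix.mul_apply, Fin.sum_univ_three] at b0 b1
    have c1 : P 2 0 = 0 := by grind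
    have c2 : P 2 1 = 0 := by grind
    have c3 : P 1 0 = 0 := by grind
    have c4 : P 1 2 = 0 := by grind
    exact ⟨P 0 0, by simp [m3_ext]; grind⟩
  obtain ⟨Γ, θ, _, _, a1, a2, γ, γ', a3, a4⟩ := h.transfer (φ := φ) hx hy hz hj hj'
    (X := !![0, 1, 1; 0, 0, 0; 0, 0, 0]) (Y := !![0, 0, 0; -a, 0, u; 0, 0, 0])
    (Z := !![0, 0, 0; 0, 0, 0; -b, v, 0])
    (r1_vec ![1, 0, 0] ![0, 1, 1] (by simp) (m3_ext.2 (by simp [vecMulVec_apply])))
    (r1_vec ![0, 1, 0] ![-a, 0, u] (by simp) (m3_ext.2 (by simp [vecMulVec_apply])))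
    (r1_vec ![0, 0, 1] ![-b, v, 0] (by simp) (m3_ext.2 (by simp [vecMulVec_apply])))
    (by simp [ntr_apply, trace_fin_three, ea]) (by simp [ntr_apply, trace_fin_three, eb])
    (by simp [ntr_apply, trace_fin_three, hc])
    (by simp [ntr_apply, trace_fin_three, hd, Ring.lie_def]; ring)
    (fun m hm => by
      have k := congrFun hm
      simp [co9, ntr_apply, trace_fin_three, Ring.lie_def, vecMul, dotProduct, Fin.sum_univ_three,
        Fin.forall_fin_succ] at k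
      obtain ⟨k1, k2, k3, k4, k5, k6, k7, k8, k9⟩ := k
      have c1 : m 1 1 + m 2 1 = m 1 2 + m 2 2 := by grind
      have c2 : -a * m 0 2 + u * m 2 2 = u * (m 1 1 + m 2 1) := by grind
      have c3 : -b * m 0 1 + v * m 1 1 = v * (m 1 1 + m 2 1) := by grind
      have c4 : m 2 0 = 0 := by grind
      have c5 : m 2 1 = 0 := by grind
      have c6 : m 1 2 = 0 := by grind
      exact ⟨m 0 0, by simp [m3_ext]; grind⟩)
    fun P b0 b1 b2 => cm P (((Commute.one_right P).add_right (b0.smul_right _)).mul_right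
      ((Commute.one_right P).add_right b1)) (((Commute.one_right P).add_right
        (b0.smul_right _)).mul_right ((Commute.one_right P).add_right b2))
  exact cliff_three p h2 a1 (fun a => h3 (a.trans a2)) (fun a => hp (a.trans a2))
    fun X hX => cm X (a3 ▸ (hX γ).symm) (a4 ▸ (hX γ').symm)

theorem RS.degen (h : RS g ρ E e) {p : ℕ} [Fact p.Prime] [CharP K p] {J : Subgroup S}
    [Finite J] [Group.IsSolvable J] (h2 : (2 : K) ≠ 0) (h3 : ¬ 3 ∣ Nat.card J)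
    (hp : ¬ p ∣ Nat.card J)
    (hx : x ∈ E) (hy : y ∈ E) (hz : z ∈ E) {s t : K} (hj : e (s • x) * e y ∈ J)
    (hj' : e (t • x) * e z ∈ J) (ha : g x y ≠ 0) (hb : g x z ≠ 0) (hs : s ≠ 0) (ht : t ≠ 0) :
    g x ⁅y, z⁆ * g x ⁅y, z⁆ = 4 * g x y * g x z * g y z := by
  let φ := algebraMap K (AlgebraicClosure K)
  have := charP_of_injective_algebraMap (algebraMap K (AlgebraicClosure K)).injective p
  have ha' := (map_ne_zero φ).2 ha
  have hb' := (map_ne_zero φ).2 hb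
  obtain ⟨u, hu⟩ := IsAlgClosed.exists_root (k := AlgebraicClosure K) (Polynomial.C (φ (g x z)) *
    Polynomial.X ^ 2 + Polynomial.C (-φ (g x ⁅y, z⁆)) * Polynomial.X +
    Polynomial.C (φ (g x y) * φ (g y z))) (by rw [Polynomial.degree_quadratic hb']; decide)
  simp only [Polynomial.IsRoot, Polynomial.eval_add, Polynomial.eval_mul, Polynomial.eval_C,
    Polynomial.eval_pow, Polynomial.eval_X] at hu
  obtain ⟨v, hv⟩ : ∃ v, φ (g x ⁅y, z⁆) = φ (g x z) * u - φ (g x y) * v :=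
    ⟨(φ (g x z) * u - φ (g x ⁅y, z⁆)) / φ (g x y), by field_simp; ring⟩
  have := h.K3' (by simpa only [map_ofNat] using (map_ne_zero φ).2 h2) h3 hp hx hy hz hj hj' ha' hb'
    ((map_ne_zero φ).2 hs) ((map_ne_zero φ).2 ht) (by grind) hv
  refine φ.injective ?_
  simp only [map_mul, map_ofNat]
  grind

attribute [-simp] lie_skew lie_lie

theorem Hyp.rad (h : Hyp g x y) (h' : Hyp g x z) (a : g y z = 0) (b : g x ⁅y, z⁆ = 0) :
    ∃ R : Submodule K L, z - y ∈ R ∧ ⁅x, z⁆ - ⁅x, y⁆ ∈ R ∧ ∀ r ∈ R,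
      (⁅x, r⁆ ∈ R ∧ ⁅y, r⁆ ∈ R ∧ ⁅z, r⁆ ∈ R) ∧ g x r = 0 ∧ g y r = 0 ∧ g z r = 0 := by
  let R := Submodule.span K {z - y, ⁅x, z⁆ - ⁅x, y⁆, ⁅y, z⁆, ⁅x, ⁅y, z⁆⁆, ⁅y, ⁅x, z⁆⁆ + y + z}
  have m1 : z - y ∈ R := Submodule.subset_span (by simp)
  have m2 : ⁅x, z⁆ - ⁅x, y⁆ ∈ R := Submodule.subset_span (by simp)
  have m3 : ⁅y, z⁆ ∈ R := Submodule.subset_span (by simp)
  have m4 : ⁅x, ⁅y, z⁆⁆ ∈ R := Submodule.subset_span (by simp)
  have m5 : ⁅y, ⁅x, z⁆⁆ + y + z ∈ R := Submodule.subset_span (by simp)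
  have a' : g z y = 0 := (h.symm z y).trans a
  have e1 : ⁅z, y⁆ = -⁅y, z⁆ := (lie_skew z y).symm
  have e2 : ⁅z, x⁆ = -⁅x, z⁆ := (lie_skew z x).symm
  have b1 : g y ⁅x, z⁆ = 0 := by rw [← neg_eq_zero, ← h.skew, h.inv, b]
  have b2 : g z ⁅x, y⁆ = 0 := by rw [h.cyc, b]
  have b3 : g z ⁅y, x⁆ = 0 := by rw [Hyp.lyx, map_neg, b2, neg_zero]
  have c1 : ⁅z, ⁅x, y⁆⁆ = ⁅y, ⁅x, z⁆⁆ - ⁅x, ⁅y, z⁆⁆ := by
    rw [← lie_skew, lie_lie]; abel
  have c2 : ⁅y, ⁅x, ⁅y, z⁆⁆⁆ = -⁅y, z⁆ := by rw [h.hy.p2, b1, a, h.yx]; simp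
  have c3 : ⁅z, ⁅x, ⁅y, z⁆⁆⁆ = -⁅y, z⁆ := by
    rw [← neg_neg ⁅y, z⁆, ← e1, lie_neg, lie_neg, h'.hy.p2, b2, a', h'.yx]; simp [e1]
  have c4 : ⁅x, ⁅y, ⁅x, z⁆⁆⁆ = -⁅x, y⁆ - ⁅x, z⁆ := by rw [h.hx.p2, b, h.one, h'.one]; simp
  have c5 : ⁅z, ⁅y, ⁅x, z⁆⁆⁆ = -⁅y, z⁆ := by
    rw [← neg_neg ⁅x, z⁆, ← e2, lie_neg, lie_neg, h'.hy.p2, b3, a', h'.yx]; simp [e1]
  have c6 : ⁅z, ⁅y, z⁆⁆ = 0 := by rw [← neg_neg ⁅y, z⁆, ← e1, lie_neg, h'.hy.2.1, a']; simp
  have d1 : g x ⁅y, ⁅x, z⁆⁆ = -2 := by rw [← h.inv, ← h.inv, h.hx']; simp [h'.one]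
  have d2 : g y ⁅x, ⁅y, z⁆⁆ = 0 := by
    rw [← h.inv, Hyp.lyx, map_neg, LinearMap.neg_apply, ← h.inv, h.hy']; simp [a]
  have d3 : g z ⁅x, ⁅y, z⁆⁆ = 0 := by
    rw [← h.inv, e2, map_neg, LinearMap.neg_apply, h.symm, h.inv, h'.yh]; simp [a]
  have d4 : g z ⁅y, ⁅x, z⁆⁆ = 0 := by
    rw [← h.inv, e1, map_neg, LinearMap.neg_apply, h.inv, h'.yh]; simp [a]
  refine ⟨R, m1, m2, fun r hr => ?_⟩
  induction hr using Submodule.span_induction with
  | zero => simp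
  | add u v _ _ c d =>
    simp only [lie_add, map_add, c.2, d.2, add_zero, and_self, and_true]
    exact ⟨add_mem c.1.1 d.1.1, add_mem c.1.2.1 d.1.2.1, add_mem c.1.2.2 d.1.2.2⟩
  | smul t u _ c =>
    simp only [lie_smul, map_smul, c.2, smul_zero, and_self, and_true]
    exact ⟨R.smul_mem t c.1.1, R.smul_mem t c.1.2.1, R.smul_mem t c.1.2.2⟩
  | mem r c =>
    simp only [Set.mem_insert_iff, Set.mem_singleton_iff] at c
    rcases c with rfl | rfl | rfl | rfl | rfl <;>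
      simp only [lie_sub, lie_add, lie_self, map_sub, map_add, h.one, h'.one, h.yy, h'.yy, a, a', b,
        b1, b2, c1, c2, c3, c4, c5, c6, d1, d2, d3, d4, e1, h.xh, h'.xh, h.yh, h'.yh, h.gxh, h'.gxh,
        h.gyh, h'.gyh, h.self, h.self', h.hy.2.1, h.hx.2.1, sub_self, sub_zero, add_zero, mul_zero,
        zero_smul, zero_sub, neg_neg, zero_add, zero_mem, neg_mem_iff, m2, m3, m4, and_self,
        true_and, and_true]
    · exact ⟨by convert sub_mem m5 m1 using 1; module,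
        by convert sub_mem (sub_mem m4 m5) m1 using 1; module⟩
    · exact ⟨⟨by convert R.zero_mem using 1; abel, add_mem (neg_mem m3) (neg_mem m3)⟩, by ring⟩

end Pool.Agent.MP_983df8_al
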