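import Mathlib.RepresentationTheory.Basic
import Pool.Agent.MP_983df8_al.Uniq
import Pool.Agent.MP_983df8_al.Zenkov

namespace Pool.Agent.MP_983df8_al

open Subgroup Matrix

attribute [-simp] lie_skew lie_lie

universe u v w

namespace uq

variable {K L : Type*} [Field K] [LieRing L] [LieAlgebra K L] {g : L →ₗ[K] L →ₗ[K] K}
variable {x y z : L} {σ σ' : Module.End K L} {M M' : M2 K}
variable {S : Type*} [Group S] {ρ : S →* Module.End K L} {E : Set L} {e : L → S}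

theorem mt_pow (a : Mt g x y σ M) (n : ℕ) : Mt g x y (σ ^ n) (M ^ n) := by
  induction n with
  | zero => simpa using Mt.one
  | succ n ih => simpa only [pow_succ] using ih.mul a

theorem mt_x (h : Hyp g x y) (s : K) : Mt g x y (ex g (s • x)) !![1, s; 0, 1] := by
  simpa using h.mt_ex (a := s) (b := 0) (c := 0) (by simp)

theorem mt_y (h : Hyp g x y) (s : K) : Mt g x y (ex g (s • y)) !![1, 0; -s, 1] := by
  simpa using h.mt_ex (a := 0) (b := s) (c := 0) (by simp)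

theorem tr_ne (H : RS g ρ E e) (h : Hyp g x y) (p : ℕ) [Fact p.Prime] [CharP K p] {J : Subgroup S}
    [Finite J] (h3 : ¬ 3 ∣ Nat.card J) (hp : ¬ p ∣ Nat.card J) {j : S} (hj : j ∈ J)
    (a : Mt g x y (ρ j) M) (b : M 1 0 ≠ 0) : M.trace ≠ 2 ∧ M.trace ≠ -2 ∧ M.trace ≠ -1 := by
  have k1 : ∀ j ∈ J, ∀ M, Mt g x y (ρ j) M → ∀ m : ℕ, m.Coprime (Nat.card J) → M ^ m = 1 →
      M 1 0 = 0 := fun j hj M a m c d => by
    have f := (d ▸ mt_pow a m).uniq h Mt.one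
    rw [← map_pow, ← map_one ρ] at f
    have i := congrArg (g x) a.sx
    simpa [eq_one_of_cop c hj (H.inj f), h.xx, h.one, h.gxh] using i
  have k2 : ∀ j ∈ J, ∀ M, Mt g x y (ρ j) M → M.trace = 2 → M 1 0 = 0 := fun j hj M a c =>
    k1 j hj M a _ (((Fact.out : p.Prime).coprime_iff_not_dvd.2 hp).pow_left 2) (by
      rw [pow_char_sq (c := 1) (Commute.one_right _), one_pow]
      have d := a.det
      rw [trace_fin_two] at c
      have : (M - 1) * (M - 1) = 0 := by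
        simp [m2_ext, Matrix.mul_apply, Fin.sum_univ_two]
        grind
      rw [pow_three, this, mul_zero])
  have d := a.det
  refine ⟨fun c => b (k2 j hj M a c), fun c => b ?_, fun c => b (k1 j hj M a 3
    (Nat.prime_three.coprime_iff_not_dvd.2 h3) ?_)⟩
  · have := k2 _ (J.mul_mem hj hj) _ (map_mul ρ j j ▸ a.mul a) (by
      simp only [trace_fin_two, Matrix.mul_apply, Fin.sum_univ_two] at c ⊢
      grind)
    have t := h.two
    simp only [trace_fin_two, Matrix.mul_apply, Fin.sum_univ_two] at c this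
    grind
  · rw [trace_fin_two] at c
    simp [m2_ext, pow_three, Matrix.mul_apply, Fin.sum_univ_two]
    grind

theorem ker_le (h : Hyp g x y) (a : Mt g x y σ M)
    (b : M.trace ≠ 2 ∧ M.trace ≠ -2 ∧ M.trace ≠ -1) {u : L} (c : qd (M.trace ^ 2 - 2) σ u = 0) :
    u ∈ sl K x y := by
  have d := (a.cb h u).1
  generalize M.trace = τ at *
  have c1 : σ (σ u) = (τ ^ 2 - 2) • σ u - u := by
    rw [qd_apply] at c
    linear_combination (norm := module) c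
  have c2 : ((τ - 2) * (τ + 1) * (τ - 2) * (τ + 2)) • σ (σ u) = σ (cb τ σ u) - cb τ σ u := by
    simp only [cb, Module.End.mul_apply, LinearMap.sub_apply, qd_apply, Module.End.one_apply,
      map_add, map_sub, map_smul, c1]
    module
  have c3 : σ (σ u) ∈ sl K x y := (Submodule.smul_mem_iff _ (by grind)).1
    (c2 ▸ sub_mem (a.mem d) d)
  have c4 : σ u ∈ sl K x y := by
    have := sub_mem (Submodule.smul_mem _ (τ ^ 2 - 2) c3) (a.mem c3)
    rwa [congrArg σ c1, map_sub, map_smul, sub_sub_cancel] at this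
  have := sub_mem (Submodule.smul_mem _ (τ ^ 2 - 2) c4) c3
  rwa [c1, sub_sub_cancel] at this

theorem qd_ker (a : Mt g x y σ M) {r s t : K}
    (b : r * M 1 0 - s * M 0 1 + t * (M 1 1 - M 0 0) = 0) :
    qd (M.trace ^ 2 - 2) σ (r • x + s • y + t • ⁅x, y⁆) = 0 := by
  have d := a.det
  simp only [qd_apply, map_add, map_smul, a.sx, a.sy, a.sh, Matrix.trace_fin_two]
  match_scalars <;> grind

theorem exists_proj {Γ : Subgroup S} [Finite Γ] (hc : (Nat.card Γ : K) ≠ 0) {R : Submodule K L}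
    (hR : ∀ s ∈ Γ, ∀ r ∈ R, ρ s r ∈ R) : ∃ π : Module.End K L, (∀ u, π u ∈ R) ∧ (∀ r ∈ R, π r = r) ∧
      ∀ s ∈ Γ, Commute π (ρ s) := by
  have := Fintype.ofFinite Γ
  obtain ⟨f, hf⟩ := R.subtype.exists_leftInverse_of_injective R.ker_subtype
  refine ⟨(Nat.card Γ : K)⁻¹ • ∑ s : Γ, ρ s * (R.subtype ∘ₗ f) * ρ (s⁻¹ : Γ), fun u => ?_,
    fun r hr => ?_, fun s hs => Commute.smul_left ?_ _⟩
  · simp only [LinearMap.smul_apply, LinearMap.sum_apply]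
    exact R.smul_mem _ (R.sum_mem fun s _ => hR _ s.2 _ (f _).2)
  · simp only [LinearMap.smul_apply, LinearMap.sum_apply]
    have : ∀ s : Γ, (ρ s * (R.subtype ∘ₗ f) * ρ (s⁻¹ : Γ)) r = r := fun s => by
      have a : f (ρ (s : S)⁻¹ r) = _ := DFunLike.congr_fun hf ⟨_, hR _ (Γ.inv_mem s.2) r hr⟩
      simp [a, rho_cancel]
    simp only [this]
    simp [← Nat.cast_smul_eq_nsmul K, ← Nat.card_eq_fintype_card, hc]
  · rw [Commute, SemiconjBy, Finset.sum_mul, Finset.mul_sum,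
      ← Equiv.sum_comp (Equiv.mulLeft (⟨s, hs⟩ : Γ))]
    refine Finset.sum_congr rfl fun t _ => ?_
    simp [mul_assoc, ← map_mul ρ _ s]

theorem key (h : Hyp g x y) (h' : Hyp g x z) (a : Mt g x y σ M) (a' : Mt g x z σ' M')
    (b : M.trace ≠ 2 ∧ M.trace ≠ -2 ∧ M.trace ≠ -1)
    (b' : M'.trace ≠ 2 ∧ M'.trace ≠ -2 ∧ M'.trace ≠ -1) (c : M 1 0 ≠ 0) (c' : M' 1 0 ≠ 0)
    {R : Submodule K L} (m1 : z - y ∈ R) (m2 : ⁅x, z⁆ - ⁅x, y⁆ ∈ R) (hR : ∀ r ∈ R,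
      (⁅x, r⁆ ∈ R ∧ ⁅y, r⁆ ∈ R ∧ ⁅z, r⁆ ∈ R) ∧ g x r = 0 ∧ g y r = 0 ∧ g z r = 0)
    {π : Module.End K L} (p1 : ∀ u, π u ∈ R) (p2 : ∀ r ∈ R, π r = r) (p3 : Commute π σ)
    (p4 : Commute π σ') : ⁅x, y⁆ = ⁅x, z⁆ := by
  obtain ⟨r, s, t, d0, d1, d2⟩ : ∃ r s t : K, (s = 0 → t ≠ 0) ∧
      r * M 1 0 - s * M 0 1 + t * (M 1 1 - M 0 0) = 0 ∧
      r * M' 1 0 - s * M' 0 1 + t * (M' 1 1 - M' 0 0) = 0 := by
    by_cases f : M 0 1 * M' 1 0 = M' 0 1 * M 1 0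
    · exact ⟨M 0 1, M 1 0, 0, fun i => (c i).elim, by ring, by linear_combination f⟩
    · exact ⟨M 0 1 * (M' 1 1 - M' 0 0) - M' 0 1 * (M 1 1 - M 0 0),
        M 1 0 * (M' 1 1 - M' 0 0) - M' 1 0 * (M 1 1 - M 0 0), M' 0 1 * M 1 0 - M 0 1 * M' 1 0,
        fun _ i => f (by linear_combination -i), by ring, by ring⟩
  have k1 : π (r • x + s • y + t • ⁅x, y⁆) = 0 := h.perp (ker_le h a b (by
    rw [← Module.End.mul_apply, ← (qd_comm p3 _).eq, Module.End.mul_apply, qd_ker a d1, map_zero]))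
    (hR _ (p1 _)).2.1 (hR _ (p1 _)).2.2.1 ((h.inv _ _ _).trans (hR _ (hR _ (p1 _)).1.2.1).2.1)
  have k2 : π (r • x + s • z + t • ⁅x, z⁆) = 0 := h'.perp (ker_le h' a' b' (by
    rw [← Module.End.mul_apply, ← (qd_comm p4 _).eq, Module.End.mul_apply, qd_ker a' d2, map_zero]))
    (hR _ (p1 _)).2.1 (hR _ (p1 _)).2.2.2 ((h.inv _ _ _).trans (hR _ (hR _ (p1 _)).1.2.2).2.1)
  have k3 : s • (z - y) + t • (⁅x, z⁆ - ⁅x, y⁆) = 0 := by
    rw [← p2 _ (add_mem (R.smul_mem s m1) (R.smul_mem t m2)), ← sub_self (0 : L)]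
    nth_rw 1 [← k2]
    rw [← k1, ← map_sub]
    congr 1
    module
  have k4 := congrArg (⁅x, ·⁆) k3
  simp only [lie_add, lie_smul, lie_sub, h.xh, h'.xh, sub_self, smul_zero, add_zero, lie_zero,
    smul_eq_zero, sub_eq_zero] at k4
  exact (k4.elim (fun f => by simpa [f, d0 f, sub_eq_zero] using k3) id).symm

end uq

theorem uniq : Uniq.{u, v, w} := by
  intro K L _ _ _ g S _ ρ E e H hR h2 p _ _ J _ _ h3 hp x hx y hy z hz h1 hb s a t hs ha ht hj hj'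
  have hd := H.degen h2 h3 hp hx (H.smul y hy a) hz hj hj' (by simp [h1, ha]) hb hs ht
  have h : Hyp g x y := ⟨H.toInvF, H.ext x hx, H.ext y hy, h1, h2⟩
  obtain ⟨μ, hμ⟩ : ∃ μ, g x ⁅y, z⁆ = 2 * g x z * μ := ⟨g x ⁅y, z⁆ / (2 * g x z), by field_simp⟩
  obtain ⟨z', e1⟩ : ∃ z', z' = (g x z)⁻¹ • ρ (e (μ • x)) z := ⟨_, rfl⟩
  have hz' : z' ∈ E := e1 ▸ H.smul _ (H.act z hz _) _
  have e2 : e z = e ((-μ) • x) * e (g x z • z') * e (μ • x) := by
    rw [e1, smul_inv_smul₀ hb, ← H.conj hz, neg_smul, H.e_neg (H.smul x hx μ)]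
    group
  rw [H.ex _ (H.smul x hx _), ex_smul] at e1
  have h' : Hyp g x z' := ⟨H.toInvF, H.ext x hx, H.ext _ hz', by simp [e1, h.self, h.xx, hb], h2⟩
  have f1 : g y ⁅x, z⁆ = -g x ⁅y, z⁆ := by
    rw [← h.inv, Hyp.lyx, map_neg, LinearMap.neg_apply, h.inv]
  have f2 : g ⁅x, y⁆ ⁅x, z⁆ = -2 * g x z := by rw [← h.inv, h.hx']; simp
  obtain ⟨R, m1, m2, m3⟩ := h.rad h' (by
    simp only [smul_lie, map_smul, LinearMap.smul_apply, smul_eq_mul, h1] at hd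
    simp only [e1, map_smul, map_add, f1, h.yx, smul_eq_mul, hμ] at hd ⊢
    refine mul_eq_zero_of_right _ (mul_left_cancel₀ (mul_ne_zero (mul_ne_zero h2 h2)
      (mul_ne_zero (mul_ne_zero ha ha) hb)) ?_)
    linear_combination -hd) (by
    rw [← h.inv]
    simp only [e1, map_smul, map_add, f2, h.ghx, h.inv x y z, smul_eq_mul]
    grind)
  let Γ : Subgroup S :=
    { carrier := {s | ∀ r, ρ s r ∈ R ↔ r ∈ R}
      one_mem' := fun r => by simp
      mul_mem' := fun {a b} c d r => by rw [map_mul, Module.End.mul_apply, c, d]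
      inv_mem' := fun {a} c r => by rw [← c, rho_cancel] }
  have k : ∀ w ∈ E, (∀ r ∈ R, ⁅w, r⁆ ∈ R ∧ g w r = 0) → ∀ c : K, e (c • w) ∈ Γ := fun w hw d => by
    have k : ∀ c : K, ∀ r ∈ R, ρ (e (c • w)) r ∈ R := fun c r hr => by
      simpa [H.ex _ (H.smul w hw c), ex_smul, (d r hr).2] using add_mem hr (R.smul_mem c (d r hr).1)
    refine fun c r => ⟨fun f => ?_, k c r⟩
    simpa only [neg_smul, H.e_neg (H.smul w hw c), rho_cancel'] using k (-c) _ f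
  have k1 := k x hx fun r hr => ⟨(m3 r hr).1.1, (m3 r hr).2.1⟩
  have k2 := k y hy fun r hr => ⟨(m3 r hr).1.2.1, (m3 r hr).2.2.1⟩
  have k3 := k z' hz' fun r hr => ⟨(m3 r hr).1.2.2, (m3 r hr).2.2.2⟩
  have : Finite ↥(J ⊓ Γ) := Finite.of_injective _ (inclusion_injective inf_le_left)
  obtain ⟨π, p1, p2, p3⟩ := uq.exists_proj (ρ := ρ) (Γ := J ⊓ Γ) (R := R) (fun c => hp
    (((CharP.cast_eq_zero_iff K p _).1 c).trans (card_dvd_of_le inf_le_left)))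
    fun s c r => (c.2 r).2
  have t1 := (uq.mt_x h s).mul (uq.mt_y h a)
  have t2 := (uq.mt_x h' t).mul (((uq.mt_x h' (-μ)).mul (uq.mt_y h' (g x z))).mul (uq.mt_x h' μ))
  simp only [← H.ex _ (H.smul x hx _), ← H.ex _ (H.smul y hy _), ← H.ex _ (H.smul _ hz' _),
    ← map_mul, ← e2] at t1 t2
  have n1 := (by simp [Matrix.mul_apply, Fin.sum_univ_two, ha] :
    ((!![1, s; 0, 1] * !![1, 0; -a, 1] : M2 K) 1 0) ≠ 0)
  have n2 := (by simp [Matrix.mul_apply, Fin.sum_univ_two, hb] : ((!![1, t; 0, 1] *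
    (!![1, -μ; 0, 1] * !![1, 0; -g x z, 1] * !![1, μ; 0, 1]) : M2 K) 1 0) ≠ 0)
  have := hR x hx y hy z' hz' h1 (uq.key h h' t1 t2 (uq.tr_ne H h p h3 hp hj t1 n1)
    (uq.tr_ne H h' p h3 hp hj' t2 n2) n1 n2 m1 m2 m3 p1 p2 (p3 _ ⟨hj, Γ.mul_mem (k1 s) (k2 a)⟩)
    (p3 _ ⟨hj', Γ.mul_mem (k1 t) (e2 ▸ Γ.mul_mem (Γ.mul_mem (k1 _) (k3 _)) (k1 _))⟩))
  subst this
  have e3 : z = ex g ((-μ) • x) (g x z • y) := H.e_inj hz (by
    rw [← H.ex _ (H.smul x hx _)]; exact H.act _ (H.smul y hy _) _) (by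
    rw [← H.ex _ (H.smul x hx _), ← H.conj (H.smul y hy _), neg_smul, H.e_neg (H.smul x hx μ),
      inv_inv, ← H.e_neg (H.smul x hx μ), ← neg_smul, ← e2])
  exact e3 ▸ (uq.mt_x h _).mem (Submodule.smul_mem _ _ (by simpa using sl_mem (x := x) (y := y) (0 : K) 1 0))

end Pool.Agent.MP_983df8_al
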