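import Mathlib.LinearAlgebra.Eigenspace.Pi
import Mathlib.LinearAlgebra.Eigenspace.Semisimple
import Mathlib.RingTheory.RootsOfUnity.AlgebraicallyClosed
import Pool.Agent.MP_983df8_al.LocB
import Pool.Agent.MP_983df8_al.Dist3
import Pool.Agent.MP_983df8_al.Zenkov
import Pool.Agent.MP_983df8_al.Defs7
import Pool.Agent.MP_983df8_al.Uniq2
import Pool.Agent.MP_983df8_al.Tori
import Pool.Agent.MP_983df8_al.NoPair
import Pool.Agent.MP_983df8_al.RigX
import Pool.Agent.MP_983df8_al.PinK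
import Pool.Agent.MP_983df8_al.Cyc2

-- ======== part 0: formerly Pool.Agent.MP_983df8_al.FourLie
section MrgPart0

namespace Pool.Agent.MP_983df8_al

open Subgroup

variable {G : Type*} [Group G] {π : Set ℕ}

theorem IsPi.odd [Finite G] {K : Subgroup G} (h : IsPi π K) (h2 : 2 ∉ π) : Odd (Nat.card K) :=
  Nat.not_even_iff_odd.1 fun e => h2 (h 2 Nat.prime_two e.two_dvd)

theorem loc_lie {S : Type*} [Group S] [Finite S] [IsSimpleGroup S] (hS : ¬ IsMulCommutative S)
    {D : Subgroup (MulAut S)} [Group.IsSolvable D]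
    (hi : Function.Injective (MulAut.conj : S →* MulAut S)) (hD : IsPi π D)
    (hJ : IsHall π (D.comap MulAut.conj)) (h2 : 2 ∉ π) {p : ℕ} (hp : p.Prime)
    (h : (p ∈ π ∧ IsBN p S) ∨ (p ∉ π ∧ IsRoot p S)) :
    ∃ x : Fin 3 → S, ∀ β ∈ D, (∀ a, MulAut.conj (x a) * β * (MulAut.conj (x a))⁻¹ ∈ D) → β = 1 := by
  have ho := hD.odd h2
  rcases h with ⟨a, B, N, U, R, ⟨h1, h2, h3, h4⟩, ⟨h5, h6, h7, h8, h9, h10⟩, h11⟩ |
    ⟨a, K, L, _, _, _, _, _, g, ρ, E, e, h1, ⟨h2, h3, h4⟩, h5, h6, h7, h8, h9⟩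
  · have H : SBN p B N U R := ⟨⟨h1, h2, h3, fun r b => (h4 r b).1, fun r b => (h4 r b).2.1,
      fun r b c d n f => by
        obtain ⟨x, i, y, j, k⟩ := (h4 r b).2.2 c d n f
        exact k.imp (fun k => ⟨x, i, y, j, k⟩) fun k => ⟨x, i, y, j, k⟩⟩, hp, h5, h6, h7, h8, h9,
      h10, h11⟩
    obtain ⟨x, hx⟩ := exists_conj_of_isPGroup hp (hJ.2 p hp a) h5
    have : Group.IsSolvable (MulAut.conj (MulAut.conj x)).toMonoidHom.ker := by
      rw [(MonoidHom.ker_eq_bot_iff _).2 (MulEquiv.injective _)]; infer_instance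
    have : Group.IsSolvable (conjBy D (MulAut.conj x)) := solvable_comap _ D
    obtain ⟨y, hy⟩ := H.loc hS (D := conjBy D (MulAut.conj x))
      (ho.of_dvd_nat (card_comap_dvd_of_injective D _ (MulEquiv.injective _))) hi
      fun u b => mem_comap.2 (mem_conjBy.2 (by simpa using mem_comap.1 (mem_conjBy.1 (hx b))))
    refine ⟨fun a => x * y a * x⁻¹, fun β b c => ?_⟩
    have := hy ((MulAut.conj x)⁻¹ * β * MulAut.conj x) (mem_conjBy.2 (by simpa [mul_assoc] using b))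
      fun a => mem_conjBy.2 (by simpa [mul_assoc] using c a)
    rwa [mul_assoc, inv_mul_eq_one, eq_comm, mul_eq_right] at this
  · have := Fact.mk hp
    have H : RS g ρ E e := ⟨⟨h2, h3⟩, h1, h4, h5, h6, h7, fun x b => (h8 x b).1,
      fun x b => (h8 x b).2.1, fun x b => (h8 x b).2.2.1,
      fun x b => LinearMap.ext (h8 x b).2.2.2⟩
    exact H.loc p ho (fun b => a (hD p hp b)) hi fun β b =>
      h9 β (ho.of_dvd_nat (D.orderOf_dvd_natCard b))

theorem locG_lie [Finite G] {H S : Subgroup G} [Group.IsSolvable H] (hH : IsHall π H)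
    (hS : IsComp S) (h2 : 2 ∉ π) {p : ℕ} (hp : p.Prime)
    (h : (p ∈ π ∧ IsBN p S) ∨ (p ∉ π ∧ IsRoot p S)) : LocG2 (Fin 3) H S := by
  have := hS.2.1
  have : Group.IsSolvable (normalizer (S : Set G)).subtype.ker := by
    rw [ker_subtype]; infer_instance
  have : Group.IsSolvable (H.subgroupOf (normalizer (S : Set G))) := solvable_comap _ H
  have : Group.IsSolvable (autOf H S) :=
    Group.isSolvable_of_surjective (MonoidHom.subgroupMap_surjective _ _)
  have hle : H.subgroupOf S ≤ (autOf H S).comap MulAut.conj := fun s hs =>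
    ⟨⟨s, le_normalizer s.2⟩, hs, MulEquiv.ext fun _ => rfl⟩
  have a := (hH.1.autOf S).comap_inj _ hS.conj_inj
  exact (two_of_one ((hH.1.autOf S).odd h2) (fun e => hS.not_pi hH (a.of_dvd (by simp [e])))
    (loc_lie hS.2.2 hS.conj_inj (hH.1.autOf S) ⟨a, fun p hp hm hd =>
      (hH.subgroupOf hS.1).2 p hp hm (hd.trans (index_dvd_of_le hle))⟩ h2 hp h)).elim locG2_of_aut

theorem main_fourLie [Finite G] {H : Subgroup G} (hH : IsHall π H) [Group.IsSolvable H]
    (h2 : 2 ∉ π) (h : SocleLie π (G ⧸ Rad G)) :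
    ∃ x y z : G, OPi π G = H ⊓ conjBy H x ⊓ conjBy H y ⊓ conjBy H z := by
  have hH' := hH.map (QuotientGroup.mk' (Rad G)) (QuotientGroup.mk'_surjective _)
  have : Group.IsSolvable (H.map (QuotientGroup.mk' (Rad G))) :=
    Group.isSolvable_of_surjective (MonoidHom.subgroupMap_surjective _ H)
  exact red hH (glue2 radicalTrivial_quot (hH'.1.odd h2) fun S c => (h S c.1 c.2.1 c.2.2).elim
    (fun a => (locG_alt hH' c.1 a (Or.inl h2)).three.two)
    fun a => a.elim (fun a => (locG_Ln hH' c (Or.inl h2) a).two)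
      fun ⟨_, a, b⟩ => locG_lie hH' c h2 a b)

end Pool.Agent.MP_983df8_al

end MrgPart0

-- ======== part 1: formerly Pool.Agent.MP_983df8_al.LocR3
section MrgPart1

namespace Pool.Agent.MP_983df8_al

open Subgroup

universe u v w

theorem RS.loc3 (hN : NoPair.{u, v, w}) (hH : Heis.{u, v, w}) {K : Type w} {L : Type v} [Field K]
    [Finite K] [LieRing L] [LieAlgebra K L] {g : L →ₗ[K] L →ₗ[K] K} {S : Type u} [Group S]
    [Finite S] [IsSimpleGroup S] {ρ : S →* Module.End K L} {E : Set L} {e : L → S}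
    (h : RS g ρ E e) (hR : Rigid g E) (h2 : (2 : K) ≠ 0) (hq : 32 < Nat.card K)
    (hd : 3 < Module.finrank K L) (p : ℕ) [Fact p.Prime] [CharP K p] {B : Subgroup (MulAut S)}
    [Group.IsSolvable B] (h3 : ¬ 3 ∣ Nat.card B) (hp : ¬ p ∣ Nat.card B)
    (hi : Function.Injective (MulAut.conj : S →* MulAut S))
    (hβ : ∀ β ∈ B, ∀ y ∈ E, ∃ z ∈ E, β '' rt K e y = rt K e z) :
    ∃ x : Fin 3 → S, ∀ β ∈ B, (∀ a, MulAut.conj (x a) * β * (MulAut.conj (x a))⁻¹ ∈ B) → β = 1 := by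
  have : Group.IsSolvable (MulAut.conj : S →* MulAut S).ker := by
    rw [(MonoidHom.ker_eq_bot_iff _).2 hi]; infer_instance
  have := solvable_comap MulAut.conj B
  have d := card_comap_dvd_of_injective B _ hi
  have hp' : ¬ p ∣ Nat.card (B.comap MulAut.conj) := fun a => hp (a.trans d)
  have cop := ((Fact.out : p.Prime).coprime_iff_not_dvd.2 hp').pow_left 3
  obtain ⟨x, hx, h0, a0⟩ := hN K L g S ρ E e h hR h2 hq hd p (B.comap MulAut.conj)
    (fun a => h3 (a.trans d)) hp'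
  have a1 : ∀ β ∈ B, MulAut.conj (e x) * β * (MulAut.conj (e x))⁻¹ ∈ B → β (e x) = e x :=
    fun β b c => by
      obtain ⟨z, c1, c2⟩ := hβ β b x hx
      obtain ⟨t, f⟩ := c2.le ⟨_, ⟨1, rfl⟩, rfl⟩
      have m := conj_mem_comap b c
      have c3 := h.neg (h.smul z c1 t)
      simp only [one_smul] at f
      rw [← f, ← h.e_neg (h.smul z c1 t)] at m
      have := eq_one_of_cop cop m (h.unip p hx c3 (a0 _ c3 m))
      rw [h.e_neg (h.smul z c1 t), mul_inv_eq_one] at this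
      exact f.symm.trans this.symm
  obtain ⟨y, hy, h1⟩ := h.exists_opp h0
  let D := B ⊓ MulAction.stabilizer (MulAut S) (e x)
  have dv := card_dvd_of_le (inf_le_left : D ≤ B)
  have : Group.IsSolvable D :=
    Group.isSolvable_of_isSolvable_injective (inclusion_injective (inf_le_left : D ≤ B))
  obtain ⟨a2, v, hv, v', hv', a3⟩ := hH K L g S ρ E e h hR h2 hq p D (fun a => h3 (a.trans dv))
    (fun a => hp (a.trans dv)) (fun β b => hβ β b.1) x hx _ (h.smul y hy (g x y)⁻¹) (by simp [h1])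
    fun β b => b.2
  refine ⟨![e x, v, v'], fun β b1 b2 => ?_⟩
  have b3 : β ∈ D := ⟨b1, a1 β b1 (b2 0)⟩
  have b4 : ∀ u ∈ h.Q x, MulAut.conj u * β * (MulAut.conj u)⁻¹ ∈ B → β u = u := fun u c f =>
    (mul_inv_eq_one.1 (eq_one_of_cop cop (conj_mem_comap b1 f) (h.pow_eq_one p
      (Gr.nil (mul_mem c (inv_mem (a2 β b3 u c))))))).symm
  have b5 := h.eq_top (C := β.toMonoidHom.eqLocus (MonoidHom.id S)) hx h0 fun y c f => by
    show β _ = e y
    simpa [f] using h.fix_opp p (fun a => hp (a.trans (B.orderOf_dvd_natCard b1))) (hβ β b1) hx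
      (a3 β b3 (b4 v hv (b2 1)) (b4 v' hv' (b2 2)))
      (h.smul y c (g x y)⁻¹) (by simp [f]) (g x y)
  exact MulEquiv.ext fun u => b5.ge (mem_top u)

end Pool.Agent.MP_983df8_al

end MrgPart1

-- ======== part 2: formerly Pool.Agent.MP_983df8_al.LocB3
section MrgPart2

namespace Pool.Agent.MP_983df8_al

open Subgroup

universe u v

namespace b3

/-- gluing bases of size three along an invariant partition -/
theorem glue_set (hD : Dist3.{u, v}) {H : Type u} [Group H] [Finite H] [Group.IsSolvable H]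
    (ho : ¬ 3 ∣ Nat.card H) {X : Type*} {Ω : Type v} [Finite Ω]
    [MulAction H X] [MulAction H Ω] (τ : X → Ω) (hτ : ∀ (d : H) x, τ (d • x) = d • τ x)
    (h : ∀ ω, ∃ T : ZMod 3 → X, (∀ i, τ (T i) = ω) ∧ T 1 ≠ T 2 ∧
      ∀ d : H, (∀ i, d • T i = T i) → ∀ x, τ x = ω → d • x = x) :
    ∃ f : ZMod 3 → Ω → X, (∀ i ω, τ (f i ω) = ω) ∧
      ∀ d : H, (∀ i ω, d • f i ω = f i (d • ω)) → ∀ x : X, d • x = x := by
  obtain ⟨col, hcol⟩ := hD H ho Ω
  choose T h1 h2 h3 using h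
  let r := MulAction.orbitRel H Ω
  let rep := fun ω : Ω => (Quotient.mk r ω).out
  have hrep : ∀ ω, ∃ u : H, u • rep ω = ω := fun ω => r.symm (Quotient.mk_out ω)
  choose u hu using hrep
  refine ⟨fun i ω => u ω • T (rep ω) (i + col ω), fun i ω => by rw [hτ, h1, hu], fun d hd x => ?_⟩
  dsimp only at hd
  have key : ∀ ω i, ((u (d • ω))⁻¹ * d * u ω) • T (rep ω) i =
      T (rep ω) (i + (col (d • ω) - col ω)) := fun ω i => by
    have hr : rep (d • ω) = rep ω := congrArg Quotient.out (Quotient.sound (s := r) ⟨d, rfl⟩)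
    have := hd (i - col ω) ω
    rw [sub_add_cancel] at this
    rw [mul_smul, mul_smul, this, hr, inv_smul_smul, sub_add_eq_add_sub, add_sub_assoc]
  have sh : ∀ ω (n : H) (k : ZMod 3), (∀ i, n • T ω i = T ω (i + k)) →
      ∀ x, τ x = ω → n • x = x := fun ω n k a x b => by
    obtain ⟨m, hm⟩ := exists_pow_eq_self_of_coprime (x := n) (n := 3)
      ((Nat.prime_three.coprime_iff_not_dvd).2 fun c => ho (c.trans (orderOf_dvd_natCard n)))
    have : n ^ 3 ∈ MulAction.stabilizer H x := h3 ω _ (fun i => by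
      rw [pow_three, mul_smul, mul_smul, a, a, a,
        (by decide : ∀ i k : ZMod 3, i + k + k + k = i)]) x b
    exact hm ▸ pow_mem this m
  have htriv := hcol d fun ω => by
    by_contra hc
    have a : ∀ i, T (rep ω) i = T (rep ω) (i + (col (d • ω) - col ω)) := fun i =>
      (sh _ _ _ (key ω) _ (h1 _ i)).symm.trans (key ω i)
    rcases (by decide : ∀ k : ZMod 3, k ≠ 0 → 1 + k = 2 ∨ 2 + k = 1) _ (sub_ne_zero.2 hc) with e | e
    · exact h2 _ (e ▸ a 1)
    · exact h2 _ (e ▸ a 2).symm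
  have := sh _ _ _ (key (τ x)) ((u (τ x))⁻¹ • x) (by rw [hτ, inv_smul_eq_iff, hu])
  simpa [mul_smul, htriv] using this

theorem glue_rel (hD : Dist3.{u, v}) {H : Type u} [Group H] [Finite H] [Group.IsSolvable H]
    (ho : ¬ 3 ∣ Nat.card H) {X : Type v} [Finite X] [MulAction H X] (r : Setoid X)
    (hr : ∀ (d : H) x y, r x y → r (d • x) (d • y))
    (h : ∀ x, ∃ T : ZMod 3 → X, (∀ i, r (T i) x) ∧ T 1 ≠ T 2 ∧
      ∀ d : H, (∀ i, d • T i = T i) → ∀ y, r y x → d • y = y) :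
    ∃ f : ZMod 3 → X → X, (∀ i x, r (f i x) x) ∧ (∀ i x y, r x y → f i x = f i y) ∧
      ∀ d : H, (∀ i x, d • f i x = f i (d • x)) → ∀ x : X, d • x = x := by
  let _ : MulAction H (Quotient r) :=
    { smul := fun d => Quotient.map (d • ·) (hr d)
      one_smul := fun q => Quotient.inductionOn q fun a => congrArg (Quotient.mk r) (one_smul H a)
      mul_smul := fun b b' q => Quotient.inductionOn q fun a =>
        congrArg (Quotient.mk r) (mul_smul b b' a) }
  obtain ⟨f, f1, f2⟩ := glue_set hD ho (Quotient.mk r) (fun _ _ => rfl) fun ω => by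
    obtain ⟨x, rfl⟩ := Quotient.mk_surjective ω
    obtain ⟨T, a, b, c⟩ := h x
    exact ⟨T, fun i => Quotient.sound (a i), b, fun e i y k => c e i y (Quotient.exact k)⟩
  exact ⟨fun i x => f i (Quotient.mk r x), fun i x => Quotient.exact (f1 i _),
    fun i x y a => congrArg (f i) (Quotient.sound a), fun d a => f2 d fun i ω =>
      Quotient.inductionOn ω fun x => a i x⟩

/-- soluble of order prime to three -/
def Tame (Y : Type*) [Group Y] : Prop := Group.IsSolvable Y ∧ ¬ 3 ∣ Nat.card Y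

theorem Tame.of {A A' : Type*} [Group A] [Group A'] (h : Tame A') {Y : Subgroup A}
    (φ : Y →* A') (a : Function.Injective φ) : Tame Y :=
  have := h.1
  ⟨Group.isSolvable_of_isSolvable_injective a, fun b => h.2 (b.trans (card_dvd_of_injective φ a))⟩

theorem Tame.comap {A A' : Type*} [Group A] [Group A'] {Y : Subgroup A'} (h : Tame Y)
    (φ : A →* A') (a : Function.Injective φ) {Z : Subgroup A} (b : Z ≤ Y.comap φ) : Tame Z :=
  h.of ((φ.comp Z.subtype).codRestrict Y fun z => b z.2) fun _ _ e =>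
    Subtype.ext (a (congrArg Subtype.val e))

variable {S : Type u} [Group S] [Finite S] {B N U : Subgroup S} {R : Set S} {p : ℕ} {g : S}
  (H : SBN p B N U R)
include H

omit [Finite S] in
theorem mem_B (W : Wild U R) {Y : Subgroup S} (ho : Tame Y) (a : U ≤ Y)
    (b : ∀ u ∈ U, g * u * g⁻¹ ∈ Y) : g ∈ B := by
  by_contra hg
  obtain ⟨n, hn, c, hc, d, hd, rfl⟩ := H.bruhat g
  obtain ⟨r, hr, l⟩ := H.desc hn fun e => hg (mul_mem (mul_mem hc e) hd)
  obtain ⟨b0, b1, x, hx, y, hy, e⟩ := H.exists_down hr hn (by omega)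
  obtain ⟨u1, c1, t1, d1, e1⟩ := H.dec (inv_mem hx)
  obtain ⟨u2, c2, t2, d2, rfl⟩ := H.dec hy
  obtain ⟨u3, c3, t3, d3, e3⟩ := H.dec (mul_mem (H.conj_mem hn d2.1 d2.2) (inv_mem b1))
  have f : t1 * r * t3⁻¹ = u1⁻¹ * (n * u2 * n⁻¹) * u3 := by
    rw [eq_inv_mul_iff_mul_eq.2 e1, eq_mul_inv_iff_mul_eq.2 e3, eq_mul_inv_iff_mul_eq.2
      (eq_mul_inv_iff_mul_eq.2 e).symm.symm]
    group
  have m : c * (t1 * r * t3⁻¹) * c⁻¹ ∈ Y := by
    have := mul_mem (mul_mem (a ((H.conj hc _).2 (inv_mem c1))) (b _ ((H.conj (inv_mem hd) _).2 c2)))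
      (a ((H.conj hc _).2 c3))
    rw [f]
    simpa [mul_assoc] using this
  have := ho.comap (MulAut.conj (c * t1)).toMonoidHom (MulAut.conj _).injective
    (Z := U ⊔ conjBy U r) (sup_le (fun v hv => a ((H.conj (mul_mem hc d1.1) v).2 hv)) fun v hv => by
      have := mul_mem (mul_mem m (a ((H.conj (mul_mem (mul_mem hc d3.1) (inv_mem (H.sq r hr))) _).2
        (mem_conjBy.1 hv)))) (inv_mem m)
      simpa [mul_assoc] using this)
  exact (W r hr).elim (fun i => i this.1) this.2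

theorem triple {l : ℕ} {w r : S} (T : Top B N R l w) (hr : r ∈ R) :
    ∃ x y, DC B x r ∧ DC B y r ∧ x⁻¹ * y ∉ B ∧ ∀ β : MulAut S, (∀ g, β g ∈ B ↔ g ∈ B) →
      (∀ g, β g ∈ U ↔ g ∈ U) → r⁻¹⁻¹ * β r⁻¹ ∈ B → x⁻¹ * β x ∈ B → y⁻¹ * β y ∈ B →
      ∀ z, DC B z r → z⁻¹ * β z ∈ B := by
  obtain ⟨x, y, a1, a2, a3, a4⟩ := H.local_pair T hr
  refine ⟨x, y, a1, a2, a3, fun β b1 b2 b3 b4 b5 z b6 => ?_⟩
  obtain ⟨c, hc, d, hd, e⟩ := H.dc_top T ((H.aut_len b1 w).trans T.eq)
  obtain ⟨u, hu, t, ht, rfl⟩ := H.dec hc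
  have hu' := H.le hu
  let γ := MulAut.conj u⁻¹ * β
  have eγ : ∀ g, γ g = u⁻¹ * β g * u := fun g => by simp [γ]
  have c1 : ∀ g, γ g ∈ B ↔ g ∈ B := fun g => by
    rw [eγ, B.mul_mem_cancel_right hu', B.mul_mem_cancel_left (inv_mem hu'), b1]
  have c2 : ∀ g, γ g ∈ U ↔ g ∈ U := fun g => by
    rw [eγ, U.mul_mem_cancel_right hu, U.mul_mem_cancel_left (inv_mem hu), b2]
  have c3 : w⁻¹ * γ w ∈ B := by
    rw [eγ, e]
    simpa [mul_assoc] using mul_mem (mul_mem (H.conj_mem (inv_mem T.mem) ht.1 ht.2) hd) hu'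
  have c4 : DC B (γ r) r := DC.trans ⟨_, inv_mem hu', _, hu', eγ r⟩ (by
    simpa using (DC.of_mem b3).inv)
  have d1 := H.fix_gate T c1 hr c4 (c := 1)
    (z := 1) (x := r⁻¹) (by simp) c3 (Or.inr (by simpa using H.dc_inv hr))
    (fun e => H.len_ne hr T.mem (by simpa [Opp, ← T.eq] using e)) (by simp)
    (by simpa [Opp] using T.eq)
  have d2 : u⁻¹ ∈ U ⊓ conjBy U r := mem_inf.2 ⟨inv_mem hu, mem_conjBy.2 (H.mem_U' (MulAut.conj r) (inv_mem hu)
    (by simpa [eγ, mul_assoc] using mul_mem (mul_mem d1 (inv_mem hu')) (inv_mem b3)))⟩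
  have d3 : ∀ z, DC B z r → (z⁻¹ * γ z ∈ B ↔ z⁻¹ * β z ∈ B) := fun z a => by
    obtain ⟨c, hc, d, hd, e⟩ := a.trans (H.dc_inv hr).symm
    obtain ⟨v, hv, t, ht, rfl⟩ := H.dec hc
    have i := H.le (mem_conjBy.1 ((mem_normalizer_iff.1 ((H.pan r hr).1 (inv_mem hv)) _).1 d2).2)
    have j := mul_mem (H.conj_mem (H.mem hr) ht.1 ht.2) hd
    have k : z⁻¹ * u⁻¹ * z ∈ B := by
      rw [e]
      simpa [mul_assoc] using mul_mem (mul_mem (inv_mem j) i) j
    rw [eγ, ← mul_assoc, B.mul_mem_cancel_right hu', ← B.mul_mem_cancel_left (y := z⁻¹ * β z) k]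
    simp [mul_assoc]
  exact (d3 z b6).1 (a4 γ c1 c2 c3 ((d3 x a1).2 b4) ((d3 y a2).2 b5) z b6)

end b3

theorem locBN : Dist3.{u, u} → LocBN.{u} := by
  intro hD S _ _ _ hS p B N U R H W D _ ho hi hU
  classical
  have hJ : b3.Tame (D.comap MulAut.conj) := b3.Tame.comap ⟨inferInstance, ho⟩ _ hi le_rfl
  have a1 : D.comap MulAut.conj ≤ B := fun j a => b3.mem_B H W hJ hU fun u b =>
    mul_mem (mul_mem a (hU b)) (inv_mem a)
  have a2 : ∀ β ∈ D, ∀ u ∈ U, β u ∈ U := fun β a u b => H.mem_U' β b (a1 (mem_comap.2 (by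
    have e : MulAut.conj (β u) = β * MulAut.conj u * β⁻¹ := by
      ext
      simp
    exact e ▸ mul_mem (mul_mem a (mem_comap.1 (hU b))) (inv_mem a))))
  have a3 : ∀ β ∈ D, ∀ g ∈ B, β g ∈ B := fun β a g b => b3.mem_B H W
    (b3.Tame.comap ⟨inferInstance, ho⟩ _ hi hU)
    le_rfl fun u c => by simpa using a2 β a _ ((H.conj b _).2 (a2 _ (inv_mem a) u c))
  have a4 : ∀ β ∈ D, ∀ g, β g ∈ U ↔ g ∈ U := fun β a g =>
    ⟨fun b => by simpa using a2 _ (inv_mem a) _ b, a2 β a g⟩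
  have a5 : ∀ β ∈ D, ∀ g, β g ∈ B ↔ g ∈ B := fun β a g =>
    ⟨fun b => by simpa using a3 _ (inv_mem a) _ b, a3 β a g⟩
  obtain ⟨l, w, T⟩ := H.exists_top
  have : MulAction.QuotientAction D B := ⟨fun β a a' b => by
    have := a3 β β.2 _ b
    rwa [map_mul, map_inv] at this⟩
  have o1 : ∀ g : S, DC B (g : S ⧸ B).out g := fun g => DC.of_mem (QuotientGroup.eq.1
    (QuotientGroup.out_eq' _).symm)
  have o2 : ∀ (d : D) (x : S ⧸ B), d • x = (d.1 x.out : S) := fun d x =>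
    (MulAction.Quotient.mk_smul_out B d x).symm
  have o3 : ∀ (d : D) (x : S ⧸ B), DC B (d • x).out (d.1 x.out) := fun d x => o2 d x ▸ o1 _
  let X : SubMulAction D (S ⧸ B) :=
    { carrier := {x | ∃ r ∈ R, DC B x.out r}
      smul_mem' := fun d x ⟨r, a, b⟩ => (H.aut_cell (a5 _ d.2) a).imp fun r' c =>
        ⟨c.1, (o3 d x).trans ((BN.aut_dc (a5 _ d.2) b).trans c.2)⟩ }
  obtain ⟨f, f1, f2, f3⟩ := b3.glue_rel hD (H := D) (X := X) ho
    ⟨fun x y => DC B x.1.out y.1.out, fun _ => DC.refl _, DC.symm, DC.trans⟩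
    (fun d x y a => (o3 d x).trans ((BN.aut_dc (a5 _ d.2) a).trans (o3 d y).symm)) fun x => by
      obtain ⟨r, hr, a⟩ := x.2
      obtain ⟨y, z, b1, b2, b3, b4⟩ := b3.triple H T hr
      refine ⟨![⟨(r⁻¹ : S), r, hr, (o1 _).trans (H.dc_inv hr)⟩, ⟨y, r, hr, (o1 y).trans b1⟩,
        ⟨z, r, hr, (o1 z).trans b2⟩], fun i => ?_,
        fun e => b3 (QuotientGroup.eq.1 (congrArg Subtype.val e)), fun d c v c3 =>
          Subtype.ext ((o2 d v).trans ((QuotientGroup.eq.2 (b4 _ (a5 _ d.2) (a4 _ d.2)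
            (QuotientGroup.eq.1 (congrArg Subtype.val (c 0)).symm)
            (QuotientGroup.eq.1 (congrArg Subtype.val (c 1)).symm)
            (QuotientGroup.eq.1 (congrArg Subtype.val (c 2)).symm) _ (DC.trans c3 a))).symm.trans
            (QuotientGroup.out_eq' _)))⟩
      fin_cases i
      exacts [((o1 _).trans (H.dc_inv hr)).trans a.symm, ((o1 y).trans b1).trans a.symm,
        ((o1 z).trans b2).trans a.symm]
  have b0 : ∀ i, ∃ c, Opp B R l 1 c ∧ ∀ x : X, ¬ Opp B R l (f i x).1.out c := fun i => by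
    obtain ⟨c, c1, c2⟩ := H.exists_proj T
      (fun r => if hr : r ∈ R then (f i ⟨r, r, hr, o1 r⟩).1.out else 1)
      (fun r hr => by rw [dif_pos hr]; exact DC.trans (f1 i _) (o1 r)) fun r hr s hs a => by
        rw [dif_pos hr, dif_pos hs, f2 i ⟨s, s, hs, o1 s⟩ ⟨r, r, hr, o1 r⟩
          ((o1 s).trans (a.trans (o1 r).symm))]
        simp
    refine ⟨c, c1, fun x => ?_⟩
    obtain ⟨r, hr, a⟩ := x.2
    simpa [hr, f2 i x ⟨r, r, hr, o1 r⟩ (a.trans (o1 r).symm)] using c2 r hr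
  choose c c1 c2 using b0
  refine ⟨fun a => (c a)⁻¹, fun β b1 b2 => ?_⟩
  have b4 : ∀ i, (c i)⁻¹ * β (c i) ∈ B := fun i => by
    simpa using a1 (conj_mem_comap b1 (b2 i))
  have b5 := f3 ⟨β, b1⟩ fun i x => by
    generalize hd : (⟨β, b1⟩ : D) = d
    obtain rfl : β = d.1 := by rw [← hd]
    obtain ⟨r, hr, a⟩ := (d • x).2
    have m1 : DC B (f i (d • x)).1.out r := DC.trans (f1 i _) a
    have m2 : DC B (d.1 (f i x).1.out) r :=
      (BN.aut_dc (a5 _ b1) (f1 i x)).trans ((o3 d x).symm.trans a)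
    refine Subtype.ext ((o2 d _).trans ((QuotientGroup.eq.2 (H.gate T hr (z := 1) (y := c i)
      (mul_mem (inv_mem (Or.inr m2)) (Or.inr m1)) (mul_mem (inv_mem (Or.inr m2)) (one_mem _))
      (fun e => c2 i x ((H.aut_opp (a5 _ b1)).1 (H.opp_congr e (by simp) (b4 i)))) (c2 i _)
      (c1 i))).trans (QuotientGroup.out_eq' _)))
  have b6 : ∀ r ∈ R, ∀ x, DC B x r → x⁻¹ * β x ∈ B := fun r hr x a => QuotientGroup.eq.1
    (congrArg Subtype.val (b5 ⟨x, r, hr, (o1 x).trans a⟩)).symm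
  obtain ⟨k, hk, d, hd, e⟩ := H.dc_top T (g := c 0) (by simpa [Opp] using c1 0)
  have eγ : ∀ g, ((MulAut.conj k)⁻¹ * β * MulAut.conj k) g = k⁻¹ * β (k * g) * ((β k)⁻¹ * k) :=
    fun g => by simp [mul_assoc]
  have hk' := mul_mem (inv_mem (a3 β b1 k hk)) hk
  have := H.rigid T (H.ne_top hS) (β := (MulAut.conj k)⁻¹ * β * MulAut.conj k) (fun g => by
      rw [eγ, B.mul_mem_cancel_right hk', B.mul_mem_cancel_left (inv_mem hk), a5 β b1,
        B.mul_mem_cancel_left hk]) (fun r hr x a => by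
      rw [eγ]
      simpa [mul_assoc] using mul_mem (b6 r hr _ ((DC.left hk x).trans a)) hk') (by
      have := b4 0
      rw [e] at this
      rw [eγ]
      simpa [mul_assoc] using mul_mem (mul_mem (mul_mem hd this) (inv_mem (a3 β b1 d hd))) hk')
  rwa [mul_assoc, inv_mul_eq_one, eq_comm, mul_eq_right] at this

end Pool.Agent.MP_983df8_al

end MrgPart2

-- ======== part 3: formerly Pool.Agent.MP_983df8_al.Glue3
section MrgPart3

/-! Gluing over the components with three colours. -/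

namespace Pool.Agent.MP_983df8_al

open Subgroup

universe u

namespace g3

variable {G : Type u} [Group G]

/-- three inequivalent regular tuples in `R` for the action of the normaliser of `R` in `H` -/
def LocG3 (ι : Type) (H R : Subgroup G) : Prop :=
  ∃ x : ι → ZMod 3 → G, (∀ a i, x a i ∈ R) ∧ ∀ n ∈ H, ∀ i j, (∀ s ∈ R, n * s * n⁻¹ ∈ R) →
    (∀ a, ∃ n' ∈ H, ∀ s ∈ R,
      n' * s * n'⁻¹ = (x a i * n * (x a j)⁻¹) * s * (x a i * n * (x a j)⁻¹)⁻¹) →
    i = j ∧ ∀ s ∈ R, Commute n s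

theorem of_locG {ι : Type} {H R : Subgroup G} (h : LocG ι H R) : LocG3 ι H R := by
  obtain ⟨x, h1, h2⟩ := h
  exact ⟨fun a i => x a i.val, fun a i => h1 _ _, fun n hn i j a1 a2 => (h2 n hn _ _ a1 a2).imp_left
    ((by decide : ∀ i j : ZMod 3, (i.val : ZMod 7) = j.val → i = j) i j)⟩

theorem glue (hd : Dist3.{u, u}) [Finite G] (hR : RadicalTrivial G) {ι : Type} {H : Subgroup G}
    [Group.IsSolvable H] (ho : ¬ 3 ∣ Nat.card H) (hL : ∀ R, IsComp R → LocG3 ι H R) :
    ∃ X : ι → G, ∀ k ∈ H, (∀ a, X a * k * (X a)⁻¹ ∈ H) → k = 1 := by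
  let _ := compAct H
  have hmem : ∀ (h : H) (S : {S : Subgroup G // IsComp S}) (g : G),
      g ∈ (h • S).1 ↔ (h : G)⁻¹ * g * h ∈ S.1 := fun h S g => by
    show g ∈ S.1.map _ ↔ _
    rw [mem_map_equiv]
    rfl
  obtain ⟨col, hcol⟩ := hd H ho {S : Subgroup G // IsComp S}
  choose x hx hx' using fun R : {S : Subgroup G // IsComp S} => hL R.1 R.2
  let r := MulAction.orbitRel H {S : Subgroup G // IsComp S}
  let rep := fun S : {S : Subgroup G // IsComp S} => (Quotient.mk r S).out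
  have hrep : ∀ S, ∃ u : H, u • rep S = S := fun S => r.symm (Quotient.mk_out S)
  choose u hu using hrep
  have hu' : ∀ S g, g ∈ (rep S).1 → (u S : G) * g * (u S : G)⁻¹ ∈ S.1 := fun S g hg => by
    have := (hmem (u S) (rep S) ((u S : G) * g * (u S : G)⁻¹)).2 (by simpa [mul_assoc] using hg)
    rwa [hu] at this
  choose X hX using fun a => exists_glued
    (fun S => (u S : G) * x (rep S) a (col S) * (u S : G)⁻¹) fun S => hu' S _ (hx _ _ _)
  refine ⟨X, fun k hk hXk => ?_⟩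
  have key : ∀ S, col ((⟨k, hk⟩ : H) • S) = col S ∧
      ∀ s ∈ (rep S).1, Commute ((u ((⟨k, hk⟩ : H) • S) : G)⁻¹ * k * u S) s := by
    intro S
    set T := (⟨k, hk⟩ : H) • S with hT
    have hrT : rep T = rep S := congrArg Quotient.out (Quotient.sound (s := r) ⟨⟨k, hk⟩, rfl⟩)
    have hkS : ∀ g ∈ S.1, k * g * k⁻¹ ∈ T.1 := fun g hg =>
      (hmem _ S _).2 (by simpa [mul_assoc] using hg)
    refine hx' (rep S) _ (H.mul_mem (H.mul_mem (H.inv_mem (u T).2) hk) (u S).2) _ _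
      (fun s hs => ?_) fun a => ⟨(u T : G)⁻¹ * (X a * k * (X a)⁻¹) * u S,
        H.mul_mem (H.mul_mem (H.inv_mem (u T).2) (hXk a)) (u S).2, fun s hs => ?_⟩
    · have := hkS _ (hu' S s hs)
      rw [← hu T, hmem, hrT] at this
      simpa [mul_assoc] using this
    · have m1 := hu' S _ ((rep S).1.mul_mem ((rep S).1.mul_mem ((rep S).1.inv_mem
        (hx (rep S) a (col S))) hs) (hx (rep S) a (col S)))
      have e1 := hX a S _ m1
      have e2 := hX a T _ (hkS _ m1)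
      rw [hrT] at e2
      have e3 : (u S : G) * ((x (rep S) a (col S))⁻¹ * s * x (rep S) a (col S)) * (u S : G)⁻¹ =
          (X a)⁻¹ * (u S * s * (u S : G)⁻¹) * X a := by
        rw [mul_assoc (X a)⁻¹, eq_inv_mul_iff_mul_eq, ← mul_inv_eq_iff_eq_mul, e1]
        group
      calc _ = (u T : G)⁻¹ * (X a * (k * ((X a)⁻¹ * (u S * s * (u S : G)⁻¹) * X a) * k⁻¹) *
            (X a)⁻¹) * u T := by group
        _ = _ := by rw [← e3, e2]; group
  have htriv := hcol ⟨k, hk⟩ fun S => (key S).1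
  refine eq_one_of_centralizes hR fun S hS s hs => ?_
  have h1 := (key ⟨S, hS⟩).2 ((u ⟨S, hS⟩ : G)⁻¹ * s * u ⟨S, hS⟩)
    ((hmem _ _ _).1 (by rw [hu]; exact hs))
  rw [htriv] at h1
  have := congrArg (fun t => (u ⟨S, hS⟩ : G) * t * (u ⟨S, hS⟩ : G)⁻¹) h1.eq
  simpa [Commute, SemiconjBy, mul_assoc] using this

theorem locG3_of_aut [Finite G] {ι : Type} {H R : Subgroup G} (x : ι → ZMod 3 → R)
    (h : ∀ β ∈ autOf H R, ∀ i j,
      (∀ a, MulAut.conj (x a i) * β * (MulAut.conj (x a j))⁻¹ ∈ autOf H R) → i = j ∧ β = 1) :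
    LocG3 ι H R := by
  refine ⟨fun a i => x a i, fun a i => (x a i).2, fun n hn i j h1 h2 => ?_⟩
  have hn' : n ∈ normalizer (R : Set G) := mem_normalizer_fintype h1
  have := h (R.normalizerMonoidHom ⟨n, hn'⟩) ⟨⟨n, hn'⟩, hn, rfl⟩ i j fun a => by
    obtain ⟨n', a1, a2⟩ := h2 a
    have a3 : n' ∈ normalizer (R : Set G) := mem_normalizer_fintype fun s hs => by
      rw [a2 s hs]
      have := R.mul_mem (R.mul_mem (x a i).2 (h1 _ (R.mul_mem (R.mul_mem (R.inv_mem (x a j).2) hs)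
        (x a j).2))) (R.inv_mem (x a i).2)
      simpa [mul_assoc] using this
    refine ⟨⟨n', a3⟩, a1, ?_⟩
    ext s
    refine (a2 s s.2).trans ?_
    show _ = (x a i : G) * (n * ((x a j : G)⁻¹ * s * (x a j : G)) * n⁻¹) * (x a i : G)⁻¹
    group
  refine ⟨this.1, fun s hs => ?_⟩
  have e := congrArg Subtype.val (DFunLike.congr_fun this.2 (⟨s, hs⟩ : R))
  exact mul_inv_eq_iff_eq_mul.1 (show n * s * n⁻¹ = s from e)

theorem three_of_one {S : Type u} [Group S] {B : Subgroup (MulAut S)} (ho : ¬ 3 ∣ Nat.card B)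
    (hJ : B.comap MulAut.conj ≠ ⊤) (h : ∃ x : Fin 3 → S, ∀ β ∈ B,
      (∀ a, MulAut.conj (x a) * β * (MulAut.conj (x a))⁻¹ ∈ B) → β = 1) :
    ∃ x : ZMod 3 → ZMod 3 → S, ∀ β ∈ B, ∀ i j,
      (∀ a, MulAut.conj (x a i) * β * (MulAut.conj (x a j))⁻¹ ∈ B) → i = j ∧ β = 1 := by
  obtain ⟨T, h0, h⟩ : ∃ T : ZMod 3 → S, MulAut.conj (T 0) * (MulAut.conj (T 1))⁻¹ ∉ B ∧ ∀ β ∈ B,
      (∀ a, MulAut.conj (T a) * β * (MulAut.conj (T a))⁻¹ ∈ B) → β = 1 := by
    obtain ⟨x, h⟩ := h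
    by_cases a : MulAut.conj (x 0) * (MulAut.conj (x 1))⁻¹ ∈ B
    · obtain ⟨u, hu⟩ : ∃ u, u ∉ B.comap MulAut.conj := by simpa [eq_top_iff'] using hJ
      refine ⟨![x 0, u⁻¹ * x 0, x 2], ?_, fun β b c => h β b fun i => ?_⟩
      · show MulAut.conj (x 0) * (MulAut.conj (u⁻¹ * x 0))⁻¹ ∉ B
        simpa using hu
      have c0 : MulAut.conj (x 0) * β * (MulAut.conj (x 0))⁻¹ ∈ B := c 0
      fin_cases i
      exacts [c0, by simpa [mul_assoc] using B.mul_mem (B.mul_mem (B.inv_mem a) c0) a, c 2]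
    · exact ⟨x, a, h⟩
  refine ⟨fun a i => T (a + i), fun β b i j c => ?_⟩
  have d : ∀ a, MulAut.conj (T a) * β * (MulAut.conj (T (a + (j - i))))⁻¹ ∈ B := fun a => by
    simpa only [sub_add_cancel, show a - i + j = a + (j - i) by ring] using c (a - i)
  have e : β = 1 := by
    refine orderOf_eq_one_iff.1 (Nat.eq_one_of_dvd_coprimes
      (Nat.prime_three.coprime_iff_not_dvd.2 ho) (orderOf_dvd_of_pow_eq_one (h _ (B.pow_mem b 3)
        fun a => ?_)) (B.orderOf_dvd_natCard b))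
    have := B.mul_mem (B.mul_mem (d a) (d (a + (j - i)))) (d (a + (j - i) + (j - i)))
    rw [(by decide : ∀ a k : ZMod 3, a + k + k + k = a)] at this
    simpa [pow_succ, mul_assoc] using this
  refine ⟨by_contra fun n => h0 ?_, e⟩
  rcases (by decide : ∀ i j : ZMod 3, i ≠ j → 0 + (j - i) = 1 ∨ 1 + (j - i) = 0) i j n with k | k
  · simpa only [k, e, mul_one] using d 0
  · simpa only [k, e, mul_one, mul_inv_rev, inv_inv] using B.inv_mem (d 1)

end g3

theorem glue3 : Dist3.{u, u} → Glue3.{u} := fun hd _ _ _ hR H _ ho hL =>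
  g3.glue hd hR ho fun S hS => (hL S hS).elim g3.of_locG fun k =>
    (g3.three_of_one (fun t => ho (t.trans ((card_map_dvd _ _).trans
      (card_comap_dvd_of_injective H _ (subtype_injective _))))) k.1 k.2).elim
      fun x => g3.locG3_of_aut x

end Pool.Agent.MP_983df8_al

end MrgPart3

-- ======== part 4: formerly Pool.Agent.MP_983df8_al.LinK
section MrgPart4

/-! A base of size two over a large field: reduction to the primitive case. -/

namespace Pool.Agent.MP_983df8_al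

open Subgroup

universe u v w

namespace LinKa

theorem glue {K D V : Type*} [Field K] [Finite K] [Group D] [Finite D] [Group.IsSolvable D]
    [AddCommGroup V] [Module K V] [DistribMulAction D V] [SMulCommClass D K V] {Ω : Type*}
    [Fintype Ω] [MulAction D Ω] (hK : 32 < Nat.card K)
    (hc : ∀ v : V, Nat.card D • v = 0 → v = 0) (e : Ω → V →+ V) (h1 : ∀ v, ∑ ω, e ω v = v)
    (h2 : ∀ ω ω' v, ω ≠ ω' → e ω (e ω' v) = 0) (h3 : ∀ ω v, e ω (e ω v) = e ω v)
    (h4 : ∀ (d : D) ω v, e (d • ω) (d • v) = d • e ω v) (h5 : ∀ ω, e ω ≠ 0)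
    (h7 : ∀ ω (c : K) v, e ω (c • v) = c • e ω v)
    (h6 : ∀ ω, ∃ v ∈ (e ω).range, ∃ v' ∈ (e ω).range, ∀ d ∈ MulAction.stabilizer D ω,
      d • v = v → d • v' = v' → ∀ w ∈ (e ω).range, d • w = w) : Base2 D V := by
  obtain ⟨col, hcol⟩ := exists_distinguishing (H := D) Ω
  have := Fintype.ofFinite K
  obtain ⟨c⟩ : Nonempty (ZMod 7 ↪ K) := Function.Embedding.nonempty_of_card_le (by
    rw [ZMod.card, ← Nat.card_eq_fintype_card]
    omega)
  have hxy : ∀ ω, ∃ x y, e ω x ≠ 0 ∧ ∀ d ∈ MulAction.stabilizer D ω,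
      d • e ω x = e ω x → d • e ω y = e ω y → ∀ w ∈ (e ω).range, d • w = w := fun ω => by
    obtain ⟨_, ⟨x, rfl⟩, _, ⟨y, rfl⟩, a⟩ := h6 ω
    by_cases c1 : e ω x = 0
    · by_cases c2 : e ω y = 0
      · obtain ⟨z, hz⟩ := DFunLike.ne_iff.1 (h5 ω)
        exact ⟨z, y, hz, fun d hd _ b => a d hd (by rw [c1, smul_zero]) b⟩
      · exact ⟨y, x, c2, fun d hd b b' => a d hd b' b⟩
    · exact ⟨x, y, c1, a⟩
  choose x y hx hxy using hxy
  let T : Ω → ZMod 7 → Bool → V := fun ω a i => e ω (bif i then x ω else y ω + c a • x ω)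
  have hT : ∀ ω a b (d : D), (∀ i, d • T ω a i = T ω b i) →
      a = b ∧ d • e ω (x ω) = e ω (x ω) ∧ d • e ω (y ω) = e ω (y ω) := fun ω a b d k => by
    have k1 : d • e ω (x ω) = e ω (x ω) := k true
    have k2 : d • e ω (y ω + c a • x ω) = e ω (y ω + c b • x ω) := k false
    rw [map_add, map_add, h7, h7, smul_add, smul_comm d, k1] at k2
    have a1 := shift_zero hc (d := d) (x := e ω (y ω)) (w := (c b - c a) • e ω (x ω))
      (by rw [smul_comm d, k1]) (by rw [sub_smul, ← add_sub_assoc, ← k2, add_sub_cancel_right])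
    obtain rfl := c.injective (sub_eq_zero.1 ((smul_eq_zero.1 a1).resolve_right (hx ω)))
    exact ⟨rfl, k1, add_right_cancel k2⟩
  let r := MulAction.orbitRel D Ω
  let rep := fun ω : Ω => (Quotient.mk r ω).out
  have hrep : ∀ ω, ∃ u : D, u • rep ω = ω := fun ω => r.symm (Quotient.mk_out ω)
  choose u hu using hrep
  have hcomp : ∀ ω i, e ω (∑ ω', u ω' • T (rep ω') (col ω') i) = u ω • T (rep ω) (col ω) i := by
    have a : ∀ ω i, ∃ z, u ω • T (rep ω) (col ω) i = e ω z := fun ω i =>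
      ⟨_, by rw [← h4, hu]⟩
    intro ω i
    rw [map_sum, Finset.sum_eq_single_of_mem ω (Finset.mem_univ _) fun ω' _ hne => ?_]
    · obtain ⟨z, hz⟩ := a ω i
      rw [hz, h3]
    · obtain ⟨z, hz⟩ := a ω' i
      rw [hz, h2 _ _ _ hne.symm]
  refine ⟨∑ ω, u ω • T (rep ω) (col ω) true, ∑ ω, u ω • T (rep ω) (col ω) false,
    fun d d1 d2 w => ?_⟩
  have hd : ∀ i, d • ∑ ω, u ω • T (rep ω) (col ω) i = ∑ ω, u ω • T (rep ω) (col ω) i :=
    fun i => Bool.rec d2 d1 i
  have key : ∀ ω i, ((u (d • ω))⁻¹ * d * u ω) • T (rep ω) (col ω) i = T (rep ω) (col (d • ω)) i := by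
    intro ω i
    have hr : rep (d • ω) = rep ω := congrArg Quotient.out (Quotient.sound (s := r) ⟨d, rfl⟩)
    rw [mul_smul, mul_smul, ← hcomp, ← h4, hd i, hcomp, hr, inv_smul_smul]
  have htriv := hcol d fun ω => (hT _ _ _ _ (key ω)).1.symm
  rw [← h1 w, Finset.smul_sum]
  refine Finset.sum_congr rfl fun ω _ => ?_
  have k := (hT _ _ _ _ (key ω)).2
  rw [htriv] at k
  have := hxy (rep ω) _ (by
    rw [MulAction.mem_stabilizer_iff, mul_smul, mul_smul, hu, htriv, inv_smul_eq_iff, hu]) k.1 k.2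
    _ ⟨(u ω)⁻¹ • w, rfl⟩
  rw [mul_smul, mul_smul, inv_smul_eq_iff, ← h4, hu, smul_inv_smul] at this
  exact this

open scoped IsMulCommutative in
theorem step (hPin : PinK.{v, v, w}) {K : Type w} [Field K] [Finite K] {D V : Type v} [Group D]
    [Finite D] [Group.IsSolvable D] [AddCommGroup V] [Finite V] [Module K V] [DistribMulAction D V]
    [SMulCommClass D K V] (hK : 32 < Nat.card K) (h2K : (2 : K) ≠ 0) (h3D : ¬ 3 ∣ Nat.card D)
    (hDK : (Nat.card D : K) ≠ 0) (hf : ∀ d : D, (∀ v : V, d • v = v) → d = 1)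
    (ih : ∀ (E : Subgroup D) (W : Submodule K V), W ≠ ⊤ → (∀ d ∈ E, ∀ w ∈ W, d • w ∈ W) →
      ∃ v ∈ W, ∃ v' ∈ W, ∀ d ∈ E, d • v = v → d • v' = v' → ∀ w ∈ W, d • w = w) :
    Base2 D V := by
  classical
  rcases subsingleton_or_nontrivial V with hs | hs
  · exact ⟨0, 0, fun d _ _ w => Subsingleton.elim _ _⟩
  have hc : ∀ v : V, Nat.card D • v = 0 → v = 0 := fun v h =>
    (smul_eq_zero.1 ((Nat.cast_smul_eq_nsmul K _ v).trans h)).resolve_left hDK
  have := Fintype.ofFinite K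
  obtain ⟨r, hch, n, hr, hn⟩ := FiniteField.card' K
  have hV : ∀ v : V, r • v = 0 := fun v => by
    rw [← Nat.cast_smul_eq_nsmul K, CharP.cast_eq_zero, zero_smul]
  have hD : ¬ r ∣ Nat.card D := fun e => hDK ((CharP.cast_eq_zero_iff K r _).2 e)
  obtain ⟨U, hU⟩ := exists_maxAb (D := D)
  let σ := Module.toAddMonoidEnd K V
  let ρ := DistribMulAction.toAddMonoidEnd D V
  have hρ : ∀ d v, ρ d v = d • v := fun _ _ => rfl
  have hσ : ∀ (d : D) (c : K), ρ d * σ c = σ c * ρ d := fun d c =>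
    AddMonoidHom.ext fun v => smul_comm d c v
  have hs' : ∀ x ∈ ρ '' U ∪ Set.range σ, ∀ y ∈ ρ '' U ∪ Set.range σ, x * y = y * x := by
    rintro _ (⟨a, ha, rfl⟩ | ⟨a, rfl⟩) _ (⟨b, hb, rfl⟩ | ⟨b, rfl⟩)
    · rw [← map_mul, (hU.prop.2 a ha b hb).eq, map_mul]
    · exact hσ a b
    · exact (hσ b a).symm
    · rw [← map_mul, mul_comm, map_mul]
  let R := Subring.closure (ρ '' U ∪ Set.range σ)
  have hcomm : IsMulCommutative R := Subring.isMulCommutative_closure hs'
  have hR : ∀ x ∈ R, ∀ y ∈ R, x * y = y * x := fun x hx y hy =>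
    congrArg Subtype.val (hcomm.1.1 ⟨x, hx⟩ ⟨y, hy⟩)
  have hfin : Finite (AddMonoid.End V) := Finite.of_injective _ (DFunLike.coe_injective)
  by_cases h1 : IsAtomE R 1
  · have hnt : Nontrivial (AddMonoid.End V) := nontrivial_of_ne _ _ h1.2.2.1
    have hpow : ∀ x ∈ R, x ^ r ^ (n * (Nat.card D).totient) = x := fun x hx => closure_pow hs' hr
      (AddMonoidHom.ext fun v => (AddMonoid.End.natCast_apply r v).trans (hV v)) (by
        rintro _ (⟨a, -, rfl⟩ | ⟨a, rfl⟩)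
        · rw [← map_pow, pow_mul]
          exact congrArg ρ ((pow_eq_pow_iff_modEq.2 ((Nat.ModEq.pow_totient
            ((hr.coprime_iff_not_dvd.2 hD).pow_left n)).of_dvd (orderOf_dvd_natCard a))).trans
            (pow_one a))
        · rw [← map_pow, pow_mul, ← hn, FiniteField.pow_card_pow]) hx
    obtain ⟨k, hk⟩ : ∃ k, r ^ (n * (Nat.card D).totient) = k + 2 := Nat.exists_eq_add_of_le'
      (Nat.one_lt_pow (Nat.mul_pos n.pos (Nat.totient_pos.2 Nat.card_pos)).ne' hr.one_lt)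
    have hunit : ∀ x ∈ R, x ≠ 0 → x ^ k * x = 1 := fun x hx h0 => by
      have e := hpow x hx
      rw [hk] at e
      rcases h1.2.2.2 (x ^ (k + 1)) (R.pow_mem hx _) (by
        rw [← pow_add, show k + 1 + (k + 1) = (k + 2) + k by ring, pow_add, e, ← pow_succ'])
        with e' | e'
      · rw [pow_succ, ← mul_one (x ^ (k + 1)), e', zero_mul] at e
        exact absurd e.symm h0
      · rwa [mul_one, pow_succ] at e'
    have : NoZeroDivisors R := ⟨fun {a b} hab => by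
      by_cases ha : a = 0
      · exact Or.inl ha
      · refine Or.inr (Subtype.ext ?_)
        have := hunit a a.2 fun e => ha (Subtype.ext e)
        calc (b : AddMonoid.End V) = a ^ k * a * b := by rw [this, one_mul]
          _ = 0 := by rw [mul_assoc, show (a : AddMonoid.End V) * b = 0 from
            congrArg Subtype.val hab, mul_zero]⟩
    have : IsDomain R := NoZeroDivisors.to_isDomain R
    let ι : U →* R := (ρ.comp U.subtype).codRestrict R.toSubmonoid
      fun u => Subring.subset_closure (Or.inl ⟨u, u.2, rfl⟩)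
    have hι : Function.Injective ι := by
      rw [injective_iff_map_eq_one]
      exact fun u hu => Subtype.ext (hf _ fun v => DFunLike.congr_fun (congrArg Subtype.val hu) v)
    obtain ⟨N, hN⟩ := hU.exists_gs
    have hP : PS V U N := ⟨hN, fun u hu v e hne => ?_, ?_,
      fun A a1 a2 x hx hx' => hN.dual ι hι a1 a2 hx hx', hc⟩
    · obtain ⟨v, v', hv⟩ := hPin K D V U N hK h2K h3D hP
      exact ⟨v, v', fun d hd hd' w => by rw [hv d hd hd', one_smul]⟩
    · have := hunit _ (R.sub_mem (Subring.subset_closure (Or.inl ⟨u, hu, rfl⟩)) R.one_mem) fun e' =>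
        hne (hf u fun v => DFunLike.congr_fun (sub_eq_zero.1 e') v)
      have e' := DFunLike.congr_fun this v
      rw [AddMonoid.End.coe_mul, Function.comp_apply, show (ρ u - 1) v = 0 from sub_eq_zero.2 e,
        map_zero] at e'
      exact e'.symm
    · obtain ⟨g, hg⟩ := (isCyclic_of_injective_ringHom ι hι).exists_monoid_generator
      exact ⟨g, g.2, fun u hu => (hg ⟨u, hu⟩).imp fun k hk => (congrArg Subtype.val hk).symm⟩
  have hi : ∀ d : D, ρ d⁻¹ * ρ d = 1 := fun d => by rw [← map_mul, inv_mul_cancel, map_one]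
  have hi' : ∀ (d : D) x, ρ d⁻¹ * (ρ d * x) = x := fun d x => by rw [← mul_assoc, hi, one_mul]
  have hi2 : ∀ (d : D) x, ρ d * (ρ d⁻¹ * x) = x := fun d x => by simpa using hi' d⁻¹ x
  have hconj : ∀ (d : D), ∀ x ∈ R, ρ d * x * ρ d⁻¹ ∈ R := fun d x hx => by
    induction hx using Subring.closure_induction with
    | mem x hx =>
      obtain ⟨a, ha, rfl⟩ | ⟨a, rfl⟩ := hx
      · exact Subring.subset_closure (Or.inl ⟨_, hU.prop.1.conj_mem a ha d, by simp only [map_mul]⟩)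
      · refine Subring.subset_closure (Or.inr ⟨a, ?_⟩)
        rw [hσ, mul_assoc, ← map_mul, mul_inv_cancel, map_one, mul_one]
    | zero => simp
    | one => simp [← map_mul]
    | add x y hx hy e e' => simpa only [mul_add, add_mul] using R.add_mem e e'
    | neg x hx e => simpa only [mul_neg, neg_mul] using R.neg_mem e
    | mul x y hx hy e e' => simpa only [mul_assoc, hi'] using R.mul_mem e e'
  have hat : ∀ (d : D) a, IsAtomE R a → IsAtomE R (ρ d * a * ρ d⁻¹) := fun d a ha => by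
    refine ⟨hconj d a ha.1, by simp only [mul_assoc, hi']; rw [← mul_assoc a, ha.2.1], fun e => ?_,
      fun f f1 f2 => ?_⟩
    · have := congrArg (fun t => ρ d⁻¹ * t * ρ d) e
      simp only [mul_assoc, hi', hi, mul_one, mul_zero, zero_mul] at this
      exact ha.2.2.1 this
    · refine (ha.2.2.2 _ (hconj d⁻¹ f f1) (by
        simp only [mul_assoc, inv_inv, hi2]; rw [← mul_assoc f, f2])).imp (fun e => ?_) fun e => ?_
      · have := congrArg (fun t => ρ d * t * ρ d⁻¹) e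
        simpa only [mul_assoc, inv_inv, hi2, mul_zero, zero_mul] using this
      · have := congrArg (fun t => ρ d * t * ρ d⁻¹) e
        simpa only [mul_assoc, inv_inv, hi2] using this
  let _ : MulAction D {a // IsAtomE R a} :=
    { smul := fun d a => ⟨_, hat d a.1 a.2⟩
      one_smul := fun a => Subtype.ext (by
        show ρ 1 * a.1 * ρ 1⁻¹ = a.1
        simp)
      mul_smul := fun c d a => Subtype.ext (by
        show ρ (c * d) * a.1 * ρ (c * d)⁻¹ = ρ c * (ρ d * a.1 * ρ d⁻¹) * ρ c⁻¹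
        simp only [mul_inv_rev, map_mul, mul_assoc]) }
  have := Fintype.ofFinite {a // IsAtomE R a}
  have h4 : ∀ (d : D) (a : {a // IsAtomE R a}) v, (d • a).1 (d • v) = d • a.1 v := fun d a v => by
    show d • a.1 (d⁻¹ • d • v) = _
    rw [inv_smul_smul]
  have h7 : ∀ (a : {a // IsAtomE R a}) (c : K) v, a.1 (c • v) = c • a.1 v := fun a c v =>
    DFunLike.congr_fun (hR _ a.2.1 _ (Subring.subset_closure (Or.inr ⟨c, rfl⟩))) v
  refine glue (Ω := {a // IsAtomE R a}) hK hc (fun a => a.1) (fun v => ?_)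
    (fun a b v hne => DFunLike.congr_fun (a.2.orth hR b.2 fun e => hne (Subtype.ext e)) v)
    (fun a v => DFunLike.congr_fun a.2.2.1 v) h4 (fun a => a.2.2.2.1) h7 fun a =>
      ih _ (LinearMap.range (⟨⟨a.1, map_add a.1⟩, h7 a⟩ : V →ₗ[K] V)) (fun e => ?_) ?_
  · exact (AddMonoidHom.finsetSum_apply _ _ v).symm.trans (DFunLike.congr_fun (sum_atomE hR) v)
  · refine h1 ((?_ : a.1 = 1) ▸ a.2)
    refine AddMonoidHom.ext fun v => ?_
    obtain ⟨y, rfl⟩ := LinearMap.range_eq_top.1 e v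
    exact DFunLike.congr_fun a.2.2.1 y
  · rintro d hd _ ⟨y, rfl⟩
    have := h4 d a y
    rw [MulAction.mem_stabilizer_iff.1 hd] at this
    exact ⟨d • y, this⟩

theorem ne_of_dvd {K : Type*} [Field K] {a b : ℕ} (h : a ∣ b) (hb : (b : K) ≠ 0) :
    (a : K) ≠ 0 := fun e => by
  obtain ⟨k, rfl⟩ := h
  exact hb (by rw [Nat.cast_mul, e, zero_mul])

theorem range {K : Type w} [Field K] {D : Type*} [Group D] [Finite D] [Group.IsSolvable D]
    {V : Type v} [AddCommGroup V] [Module K V] [DistribMulAction D V] [SMulCommClass D K V]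
    (h3D : ¬ 3 ∣ Nat.card D) (hDK : (Nat.card D : K) ≠ 0)
    (h : ∀ (E : Type v) [Group E] [Finite E] [Group.IsSolvable E] [DistribMulAction E V]
      [SMulCommClass E K V], ¬ 3 ∣ Nat.card E → (Nat.card E : K) ≠ 0 →
      (∀ d : E, (∀ v : V, d • v = v) → d = 1) → Base2 E V) : Base2 D V := by
  let ρ := (DistribMulAction.toAddMonoidEnd D V).toHomUnits
  have := Finite.of_surjective _ ρ.rangeRestrict_surjective
  have := Group.isSolvable_of_surjective ρ.rangeRestrict_surjective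
  have : SMulCommClass ρ.range K V := ⟨by
    rintro ⟨_, g, rfl⟩ c v
    exact smul_comm g c v⟩
  obtain ⟨v, v', hv⟩ := h ρ.range (fun e => h3D (e.trans (card_range_dvd ρ)))
    (ne_of_dvd (card_range_dvd ρ) hDK)
    fun d hd => Subtype.ext (Units.ext (AddMonoidHom.ext hd))
  exact ⟨v, v', fun d => hv (ρ.rangeRestrict d)⟩

theorem aux (hPin : PinK.{v, v, w}) {K : Type w} [Field K] [Finite K] (hK : 32 < Nat.card K)
    (h2K : (2 : K) ≠ 0) (n : ℕ) : ∀ (V : Type v) [AddCommGroup V] [Finite V] [Module K V],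
    Nat.card V = n → ∀ (D : Type v) [Group D] [Finite D] [Group.IsSolvable D]
      [DistribMulAction D V] [SMulCommClass D K V], ¬ 3 ∣ Nat.card D → (Nat.card D : K) ≠ 0 →
      (∀ d : D, (∀ v : V, d • v = v) → d = 1) → Base2 D V := by
  induction n using Nat.strong_induction_on with
  | _ n ih =>
    intro V _ _ _ hn D _ _ _ _ _ h3D hDK hf
    refine step hPin hK h2K h3D hDK hf fun E W hW hE => ?_
    let _ : DistribMulAction E W :=
      { smul := fun d w => ⟨d.1 • w.1, hE _ d.2 _ w.2⟩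
        one_smul := fun w => Subtype.ext (one_smul D w.1)
        mul_smul := fun c d w => Subtype.ext (mul_smul c.1 d.1 w.1)
        smul_zero := fun d => Subtype.ext (smul_zero d.1)
        smul_add := fun d v w => Subtype.ext (smul_add d.1 v.1 w.1) }
    have : SMulCommClass E K W := ⟨fun d c w => Subtype.ext (smul_comm d.1 c w.1)⟩
    obtain ⟨v, v', hv⟩ := range (K := K) (D := E) (V := W)
      (fun e => h3D (e.trans (card_subgroup_dvd_card E)))
      (ne_of_dvd (card_subgroup_dvd_card E) hDK)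
      (ih _ (hn ▸ lt_of_le_of_ne (AddSubgroup.card_le_card_addGroup W.toAddSubgroup)
        fun e => hW (Submodule.toAddSubgroup_injective
          (AddSubgroup.eq_top_of_card_eq W.toAddSubgroup e))) W rfl)
    exact ⟨v, v.2, v', v'.2, fun d hd e e' w hw =>
      congrArg Subtype.val (hv ⟨d, hd⟩ (Subtype.ext e) (Subtype.ext e') ⟨w, hw⟩)⟩

end LinKa

theorem linK : PinK.{v, v, w} → LinK.{u, v, w} := fun hPin K _ _ D _ _ _ V _ _ _ _ _ hK h2K h3D hDK =>
  LinKa.range (K := K) (D := D) h3D hDK (LinKa.aux hPin hK h2K _ V rfl)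

end Pool.Agent.MP_983df8_al

end MrgPart4

-- ======== part 5: formerly Pool.Agent.MP_983df8_al.HHa
section MrgPart5

/-! Elements with five eigenvalues commute. -/

namespace Pool.Agent.MP_983df8_al

universe u v w

namespace hha

open Module Finset

variable {F : Type*} [Field F]

theorem zp {l : F} (h0 : l ≠ 0) (hl : ∀ k : ℕ, 0 < k → k ≤ 16 → l ^ k ≠ 1) {a b : ℤ}
    (h : l ^ a = l ^ b) (h1 : a - b ≤ 16) (h2 : b - a ≤ 16) : a = b := by
  have key : ∀ a b : ℤ, l ^ a = l ^ b → a - b ≤ 16 → ¬ b < a := fun a b h h1 h2 => by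
    obtain ⟨k, hk⟩ := Int.eq_ofNat_of_zero_le (a := a - b) (by omega)
    refine hl k (by omega) (by omega) ?_
    rw [← zpow_natCast, ← hk, zpow_sub₀ h0, h, div_self (zpow_ne_zero _ h0)]
  have := key a b h h1
  have := key b a h.symm h2
  omega

theorem shift {l : F} (h0 : l ≠ 0) (hl : ∀ k : ℕ, 0 < k → k ≤ 16 → l ^ k ≠ 1) {S : Set F}
    (hS : ∀ x ∈ S, ∃ k : ℤ, -4 ≤ k ∧ k ≤ 4 ∧ x = l ^ k) {x z : F} (hx : x ∈ S)
    (hz : ∀ y ∈ S, z * y ∈ S) : z = 1 := by
  obtain ⟨a, a1, a2, rfl⟩ := hS x hx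
  obtain ⟨b, b1, b2, hb⟩ := hS _ (hz _ hx)
  have hd : z = l ^ (b - a) := by
    rw [zpow_sub₀ h0, ← hb, mul_div_cancel_right₀ _ (zpow_ne_zero _ h0)]
  have key : ∀ i : ℕ, l ^ (a + i * (b - a)) ∈ S ∧ -4 ≤ a + i * (b - a) ∧ a + i * (b - a) ≤ 4 := by
    intro i
    induction i with
    | zero => simpa using ⟨hx, a1, a2⟩
    | succ i ih =>
      obtain ⟨h1, h2, h3⟩ := ih
      have e : a + ((i + 1 : ℕ) : ℤ) * (b - a) = (b - a) + (a + i * (b - a)) := by
        push_cast; ring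
      have h4 := hz _ h1
      rw [hd, ← zpow_add₀ h0] at h4
      obtain ⟨k, k1, k2, hk⟩ := hS _ h4
      have := zp h0 hl hk (by omega) (by omega)
      rw [e]
      exact ⟨h4, by omega, by omega⟩
  have := (key 9).2
  have e : b - a = 0 := by push_cast at this; omega
  rw [hd, e, zpow_zero]

variable {M : Type*} [AddCommGroup M] [Module F M] {Γ : Type*}

theorem indep (ρ : Γ → End F M) (A : Set Γ) (χ : ℕ → Γ → F) (s : Finset ℕ) (ψ : Γ → F)
    (hs : ∀ i ∈ s, ∃ a ∈ A, χ i a ≠ ψ a) : ∀ (x : M) (y : ℕ → M), (∀ a ∈ A, ρ a x = ψ a • x) →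
    (∀ i ∈ s, ∀ a ∈ A, ρ a (y i) = χ i a • y i) → x + ∑ i ∈ s, y i = 0 → x = 0 := by
  induction s using Finset.induction_on with
  | empty => intro x y _ _ h; simpa using h
  | insert j s hj ih =>
    intro x y hx hy h
    obtain ⟨a, ha, hne⟩ := hs j (mem_insert_self _ _)
    have h1 := congrArg (fun m => ρ a m - χ j a • m) h
    simp only [map_zero, smul_zero, sub_zero, sum_insert hj, map_add, map_sum, smul_add,
      smul_sum] at h1
    have h2 := ih (fun i hi => hs i (mem_insert_of_mem hi)) ((ψ a - χ j a) • x)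
      (fun i => (χ i a - χ j a) • y i) (fun b hb => by rw [map_smul, hx b hb, smul_comm])
      (fun i hi b hb => by rw [map_smul, hy i (mem_insert_of_mem hi) b hb, smul_comm]) (by
        rw [hx a ha, hy j (mem_insert_self _ _) a ha,
          sum_congr rfl fun i hi => hy i (mem_insert_of_mem hi) a ha] at h1
        simp only [sub_smul, sum_sub_distrib]
        rw [← h1]; abel)
    exact (smul_eq_zero.1 h2).resolve_left (sub_ne_zero.2 hne.symm)

variable [Group Γ]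

theorem wt [IsAlgClosed F] [FiniteDimensional F M] [Finite Γ] (hc : (Nat.card Γ : F) ≠ 0)
    {l : F} (h0 : l ≠ 0) (hl : ∀ k : ℕ, 0 < k → k ≤ 16 → l ^ k ≠ 1) (ρ : Γ → End F M)
    (τ : End F M) (t : Γ) (A : Set Γ) (hA : ∀ a ∈ A, t⁻¹ * a * t ∈ A)
    (hτ : ∀ a ∈ A, ∀ x, ρ a (τ x) = τ (ρ (t⁻¹ * a * t) x))
    (he : ∀ (m : F) (x : M), x ≠ 0 → τ x = m • x → ∃ k : ℤ, -4 ≤ k ∧ k ≤ 4 ∧ m = l ^ k)
    {ψ : Γ → F} {f : M} (hf : f ≠ 0) (hw : ∀ a ∈ A, ρ a f = ψ a • f) :
    ∀ a ∈ A, ψ (t⁻¹ * a * t) = ψ a := by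
  classical
  have hAi : ∀ i : ℕ, ∀ a ∈ A, (t ^ i)⁻¹ * a * t ^ i ∈ A := fun i => by
    induction i with
    | zero => simp
    | succ i ih =>
      intro a ha
      have := hA _ (ih a ha)
      simpa [pow_succ, mul_assoc] using this
  have hτi : ∀ i : ℕ, ∀ a ∈ A, ∀ x, ρ a ((τ ^ i) x) = (τ ^ i) (ρ ((t ^ i)⁻¹ * a * t ^ i) x) :=
    fun i => by
    induction i with
    | zero => simp
    | succ i ih =>
      intro a ha x
      rw [pow_succ, End.mul_apply, ih a ha, hτ _ (hAi i a ha), End.mul_apply]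
      simp [pow_succ, mul_assoc]
  let P : ℕ → Prop := fun i => ∀ a ∈ A, ψ ((t ^ i)⁻¹ * a * t ^ i) = ψ a
  have e : ∀ (i j : ℕ) (a : Γ), (t ^ (j + i))⁻¹ * a * t ^ (j + i) =
      (t ^ i)⁻¹ * ((t ^ j)⁻¹ * a * t ^ j) * t ^ i := fun i j a => by
    simp [pow_add, mul_assoc]
  have padd : ∀ i j, P i → P j → P (j + i) := fun i j hi hj a ha => by
    rw [e, hi _ (hAi j a ha), hj a ha]
  have psub : ∀ i j, P i → P (j + i) → P j := fun i j hi hj a ha => by
    rw [← hi _ (hAi j a ha), ← e, hj a ha]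
  have hn : 0 < orderOf t ∧ P (orderOf t) := ⟨orderOf_pos t, fun a _ => by simp⟩
  have hex : ∃ i, 0 < i ∧ P i := ⟨_, hn⟩
  obtain ⟨L, ⟨L0, PL⟩, Lm⟩ : ∃ L, (0 < L ∧ P L) ∧ ∀ i < L, ¬ (0 < i ∧ P i) :=
    ⟨_, Nat.find_spec hex, fun i hi => Nat.find_min hex hi⟩
  have pm : ∀ q, P (L * q) := fun q => by
    induction q with
    | zero => intro a _; simp
    | succ q ih => exact padd _ _ PL ih
  have hd : L ∣ orderOf t := by
    by_contra h
    refine Lm _ (Nat.mod_lt _ L0) ⟨Nat.pos_of_ne_zero fun h' => h (Nat.dvd_of_mod_eq_zero h'),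
      psub _ _ (pm (orderOf t / L)) ?_⟩
    rw [Nat.mod_add_div]; exact hn.2
  have hL : (L : F) ≠ 0 := fun h => hc (by
    obtain ⟨c, hc'⟩ := hd.trans (orderOf_dvd_natCard t)
    rw [hc', Nat.cast_mul, h, zero_mul])
  suffices h : L = 1 by
    intro a ha
    simpa [h] using PL a ha
  by_contra hne
  let V : Submodule F M :=
    { carrier := {x | ∀ a ∈ A, ρ a x = ψ a • x}
      add_mem' := fun hx hy a ha => by rw [map_add, hx a ha, hy a ha, smul_add]
      zero_mem' := fun a _ => by simp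
      smul_mem' := fun c x hx a ha => by rw [map_smul, hx a ha, smul_comm] }
  have hV : ∀ x ∈ V, (τ ^ L) x ∈ V := fun x hx a ha => by
    rw [hτi L a ha, hx _ (hAi L a ha), PL a ha, map_smul]
  have : Nontrivial V := ⟨⟨f, hw⟩, 0, fun h => hf (congrArg Subtype.val h)⟩
  obtain ⟨c, hc'⟩ := End.exists_eigenvalue ((τ ^ L).restrict hV)
  obtain ⟨x, hx⟩ := hc'.exists_hasEigenvector
  have x0 : (x : M) ≠ 0 := fun h => hx.2 (Subtype.ext h)
  have x1 : (τ ^ L) (x : M) = c • (x : M) := congrArg Subtype.val hx.apply_eq_smul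
  have hS : ∀ y ∈ {y : F | y ^ L = c}, ∃ k : ℤ, -4 ≤ k ∧ k ≤ 4 ∧ y = l ^ k := by
    intro y hy
    have hy' : y ^ L = c := hy
    obtain ⟨K, rfl⟩ : ∃ K, L = K + 1 := ⟨L - 1, by omega⟩
    by_cases y0 : y = 0
    · exfalso
      have c0 : c = 0 := by rw [← hy', y0]; simp
      have key : ∀ i : ℕ, (τ ^ i) (x : M) ≠ 0 := fun i => by
        induction i with
        | zero => simpa using x0
        | succ i ih =>
          intro h
          obtain ⟨k, -, -, hk⟩ := he 0 _ ih (by rw [← End.mul_apply, ← pow_succ', h, zero_smul])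
          exact zpow_ne_zero k h0 hk.symm
      exact key (K + 1) (by rw [x1, c0, zero_smul])
    refine he y (∑ i ∈ range (K + 1), (y ^ i)⁻¹ • (τ ^ i) (x : M)) (fun h => x0 ?_) ?_
    · rw [sum_range_succ', add_comm] at h
      simp only [pow_zero, inv_one, one_smul, End.one_apply] at h
      refine indep ρ A (fun i a => ψ ((t ^ (i + 1))⁻¹ * a * t ^ (i + 1))) (range K) ψ
        (fun i hi => ?_) _ _ x.2 (fun i _ a ha => ?_) h
      · by_contra hh
        push Not at hh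
        exact Lm (i + 1) (by have := mem_range.1 hi; omega) ⟨by omega, hh⟩
      · rw [map_smul, hτi _ a ha, x.2 _ (hAi _ a ha), map_smul, smul_comm]
    · have e1 : ∀ i : ℕ, τ ((y ^ i)⁻¹ • (τ ^ i) (x : M)) =
          y • ((y ^ (i + 1))⁻¹ • (τ ^ (i + 1)) (x : M)) := fun i => by
        rw [map_smul, smul_smul, ← End.mul_apply, ← pow_succ']
        congr 1
        rw [pow_succ]
        field_simp
      rw [map_sum, sum_congr rfl fun i _ => e1 i, ← smul_sum]
      congr 1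
      rw [sum_range_succ, sum_range_succ' _ K, x1, ← hy', smul_smul,
        inv_mul_cancel₀ (pow_ne_zero _ y0)]
      simp
  have : NeZero (L : F) := ⟨hL⟩
  have : NeZero L := ⟨by omega⟩
  obtain ⟨z, hz⟩ := HasEnoughRootsOfUnity.exists_primitiveRoot F L
  obtain ⟨y, hy⟩ := IsAlgClosed.exists_pow_nat_eq c L0
  refine hz.ne_one (by omega) (shift h0 hl hS (x := y) hy fun y hy => ?_)
  show (z * y) ^ L = c
  rw [mul_pow, hz.pow_eq_one, one_mul]; exact hy

theorem span [IsAlgClosed F] [FiniteDimensional F M] [Finite Γ] (hc : (Nat.card Γ : F) ≠ 0)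
    (θ : Γ →* End F M) (A : Set Γ) (hA : ∀ a ∈ A, ∀ b ∈ A, Commute a b) (p : Submodule F M)
    (hp : ∀ (ψ : Γ → F) (x : M), x ≠ 0 → (∀ a ∈ A, θ a x = ψ a • x) → x ∈ p) : p = ⊤ := by
  classical
  have hs : ∀ a : Γ, (θ a).IsSemisimple := fun a =>
    End.isSemisimple_of_squarefree_aeval_eq_zero
      (p := Polynomial.X ^ Nat.card Γ - Polynomial.C 1)
      (Polynomial.separable_X_pow_sub_C 1 hc one_ne_zero).squarefree
      (by rw [map_sub, map_pow, Polynomial.aeval_X, ← map_pow, pow_card_eq_one']; simp)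
  have h := End.iSup_iInf_maxGenEigenspace_eq_top_of_iSup_maxGenEigenspace_eq_top_of_commute
    (fun a : A => θ a) (fun a b _ => (hA _ a.2 _ b.2).map θ)
    fun a => End.iSup_maxGenEigenspace_eq_top _
  rw [eq_top_iff, ← h]
  refine iSup_le fun χ x hx => ?_
  by_cases x0 : x = 0
  · rw [x0]; exact p.zero_mem
  refine hp (fun a => if h : a ∈ A then χ ⟨a, h⟩ else 0) x x0 fun a ha => ?_
  have := (Submodule.mem_iInf _).1 hx ⟨a, ha⟩
  rw [(hs a).isFinitelySemisimple.maxGenEigenspace_eq_eigenspace] at this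
  simpa [ha] using End.mem_eigenspace_iff.1 this

theorem ext [IsAlgClosed F] [FiniteDimensional F M] [Finite Γ] (hc : (Nat.card Γ : F) ≠ 0)
    (θ : Γ →* End F M) (hθ : Function.Injective θ) (A : Set Γ)
    (hA : ∀ a ∈ A, ∀ b ∈ A, Commute a b) {a b : Γ} (ha : a ∈ A) (hb : b ∈ A)
    (h : ∀ (ψ : Γ → F) (x : M), x ≠ 0 → (∀ a ∈ A, θ a x = ψ a • x) → ψ a = ψ b) : a = b := by
  have := span hc θ A hA (LinearMap.eqLocus (θ a) (θ b)) fun ψ x x0 hx => by
    rw [LinearMap.mem_eqLocus, hx a ha, hx b hb, h ψ x x0 hx]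
  exact hθ (LinearMap.eqLocus_eq_top.1 this)

theorem cent [IsAlgClosed F] [FiniteDimensional F M] [Finite Γ] (hc : (Nat.card Γ : F) ≠ 0)
    (θ : Γ →* End F M) (hθ : Function.Injective θ) {t : Γ} (ht : Five (θ t)) (A : Set Γ)
    (hA : ∀ a ∈ A, ∀ b ∈ A, Commute a b) (hn : ∀ a ∈ A, t⁻¹ * a * t ∈ A) :
    ∀ a ∈ A, Commute a t := by
  obtain ⟨l, h0, hl, he⟩ := ht
  intro a ha
  have := ext hc θ hθ A hA (hn a ha) ha fun ψ x x0 hx =>
    wt hc h0 hl θ (θ t) t A hn (fun a _ x => by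
      rw [← End.mul_apply, ← End.mul_apply, ← map_mul, ← map_mul]; simp [mul_assoc])
      (fun m x x0 hx => by
        obtain ⟨i, i1, i2, hi⟩ := he m (End.hasEigenvalue_of_hasEigenvector
          ⟨End.mem_eigenspace_iff.2 hx, x0⟩)
        exact ⟨i, by omega, by omega, hi⟩) x0 hx a ha
  calc a * t = t * (t⁻¹ * a * t) := by group
    _ = t * a := by rw [this]

theorem mem [IsAlgClosed F] [FiniteDimensional F M] [Finite Γ] (hc : (Nat.card Γ : F) ≠ 0)
    (θ : Γ →* End F M) (hθ : Function.Injective θ) {U N : Subgroup Γ} (h : GS U N) {t : Γ}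
    (ht : Five (θ t)) : t ∈ U := by
  classical
  have hU : ∀ a ∈ U, ∀ b ∈ U, Commute a b := fun a ha b hb => h.cent a ha b (h.le hb)
  have c1 := cent hc θ hθ ht U hU fun a ha => h.nU.conj_mem' a ha t
  refine h.self t fun n hn => ?_
  have key : ∀ m ∈ N, t⁻¹ * m * t * n * (t⁻¹ * m * t)⁻¹ * n⁻¹ = m * n * m⁻¹ * n⁻¹ := by
    intro m hm
    obtain ⟨l, h0, hl, he⟩ := ht
    refine ext hc θ hθ U hU (h.comm _ (h.nN.conj_mem' m hm t) n hn) (h.comm m hm n hn)
      fun χ x x0 hx => ?_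
    have := Fintype.ofFinite U
    have hmul : ∀ a ∈ U, ∀ b ∈ U, χ (a * b) = χ a * χ b := fun a ha b hb => by
      have := hx _ (U.mul_mem ha hb)
      rw [map_mul, End.mul_apply, hx b hb, map_smul, hx a ha, smul_smul, mul_comm] at this
      exact (smul_left_injective F x0 this).symm
    have hone : χ 1 = 1 := by
      have := hx 1 U.one_mem
      rw [map_one, End.one_apply] at this
      exact smul_left_injective F x0 (this.symm.trans (one_smul F x).symm)
    set e : End F M := ∑ u : U, χ (u : Γ)⁻¹ • θ u with hedef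
    have e1 : e x = (Fintype.card U : F) • x := by
      rw [hedef, LinearMap.sum_apply, sum_congr rfl fun (u : U) _ => show
        (χ (u : Γ)⁻¹ • θ u) x = x by
          rw [LinearMap.smul_apply, hx _ u.2, smul_smul, ← hmul _ (U.inv_mem u.2) _ u.2,
            inv_mul_cancel, hone, one_smul]]
      simp [Nat.cast_smul_eq_nsmul]
    have e2 : ∀ g, (∀ u ∈ U, Commute u g) → θ g * e = e * θ g := fun g hg => by
      rw [hedef, mul_sum, sum_mul]
      refine sum_congr rfl fun u _ => ?_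
      rw [mul_smul_comm, smul_mul_assoc, ← map_mul, ← map_mul, (hg _ u.2).eq]
    have e3 : ∀ a ∈ U, θ a * e = χ a • e := fun a ha => by
      rw [hedef, mul_sum, smul_sum]
      refine Fintype.sum_equiv (Equiv.mulLeft (⟨a, ha⟩ : U)) _ _ fun u => ?_
      rw [mul_smul_comm, ← map_mul, smul_smul]
      have : χ (u : Γ)⁻¹ = χ a * χ (a * u)⁻¹ := by
        rw [← hmul _ ha _ (U.inv_mem (U.mul_mem ha u.2)), (hU _ ha _ u.2).eq]; simp
      simp [this]
    have cU : (Fintype.card U : F) ≠ 0 := fun hh => hc (by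
      obtain ⟨c, hc'⟩ := U.card_subgroup_dvd_card
      rw [hc', Nat.cast_mul, Nat.card_eq_fintype_card, hh, zero_mul])
    have f0 : θ n * e ≠ 0 := fun hh => by
      have h1 : θ n⁻¹ * (θ n * e) = e := by rw [← mul_assoc, ← map_mul]; simp
      rw [hh, mul_zero] at h1
      rw [← h1] at e1
      exact smul_ne_zero cU x0 e1.symm
    refine wt hc h0 hl (fun g => LinearMap.mulLeftRight F (θ g, θ g⁻¹))
      (LinearMap.mulLeftRight F (θ t, θ t⁻¹)) t N (fun a ha => h.nN.conj_mem' a ha t)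
      (fun a _ f => ?_) (fun c f f0 hf => ?_) (ψ := fun m => χ (m * n * m⁻¹ * n⁻¹)) f0
      (fun a ha => ?_) m hm
    · simp only [LinearMap.mulLeftRight_apply, ← mul_assoc, ← map_mul]
      simp only [mul_assoc, ← map_mul]
      simp [mul_assoc]
    · by_contra hcon
      refine f0 (LinearMap.ker_eq_top.1 (span hc θ {t} (by simp) _ fun ψ y y0 hy => ?_))
      by_contra hy0
      have h1 := hy t rfl
      obtain ⟨j, j1, j2, hj⟩ := he _ (End.hasEigenvalue_of_hasEigenvector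
        ⟨End.mem_eigenspace_iff.2 h1, y0⟩)
      have h2 : θ t * f = c • (f * θ t) := by
        rw [← smul_mul_assoc, ← hf, LinearMap.mulLeftRight_apply, mul_assoc, ← map_mul]; simp
      have h3 : θ t (f y) = (c * ψ t) • f y := by
        rw [← End.mul_apply, h2, LinearMap.smul_apply, End.mul_apply, h1, map_smul, smul_smul]
      obtain ⟨i, i1, i2, hi⟩ := he _ (End.hasEigenvalue_of_hasEigenvector
        ⟨End.mem_eigenspace_iff.2 h3, hy0⟩)
      refine hcon ⟨i - j, by omega, by omega, ?_⟩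
      rw [zpow_sub₀ h0, ← hi, hj, mul_div_cancel_right₀ _ (zpow_ne_zero _ h0)]
    · have hu := h.comm a ha n hn
      show θ a * (θ n * e) * θ a⁻¹ = _
      rw [mul_assoc, mul_assoc, ← e2 _ fun u hu => h.cent u hu _ (N.inv_mem ha), ← mul_smul_comm,
        ← e3 _ hu, ← mul_assoc, ← mul_assoc, ← mul_assoc, ← map_mul, ← map_mul, ← map_mul,
        ← (h.cent _ hu n hn).eq]
      simp
  have hc1 : n⁻¹ * (t * n * t⁻¹) ∈ U := h.self _ fun m hm => by
    have h1 := key m⁻¹ (N.inv_mem hm)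
    calc n⁻¹ * (t * n * t⁻¹) * m
        = n⁻¹ * m * (t * (t⁻¹ * m⁻¹ * t * n * (t⁻¹ * m⁻¹ * t)⁻¹ * n⁻¹) * t⁻¹) * (t * n * t⁻¹) := by
          group
      _ = n⁻¹ * m * (m⁻¹ * n * m⁻¹⁻¹ * n⁻¹) * (t * n * t⁻¹) := by
          rw [h1, ← (c1 _ (h.comm _ (N.inv_mem hm) n hn)).eq]; group
      _ = m * (n⁻¹ * (t * n * t⁻¹)) := by group
  refine (cent hc θ hθ ht {x | ∃ u ∈ U, x = n * u} ?_ ?_ n ⟨1, U.one_mem, by simp⟩).symm
  · rintro _ ⟨a, ha, rfl⟩ _ ⟨b, hb, rfl⟩
    exact ((Commute.refl n).mul_right (h.cent b hb n hn).symm).mul_left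
      ((h.cent a ha n hn).mul_right (hU a ha b hb))
  · rintro _ ⟨a, ha, rfl⟩
    refine ⟨(n⁻¹ * (t * n * t⁻¹))⁻¹ * a, U.mul_mem (U.inv_mem hc1) ha, ?_⟩
    have h2 := (c1 _ hc1).eq
    have h3 := (c1 a ha).eq
    have h4 : t⁻¹ * n * (t * (n⁻¹ * (t * n * t⁻¹))) = n := by rw [← h2]; group
    calc t⁻¹ * (n * a) * t = t⁻¹ * n * (a * t) := by group
      _ = t⁻¹ * n * (t * (n⁻¹ * (t * n * t⁻¹))) * ((n⁻¹ * (t * n * t⁻¹))⁻¹ * a) := by
          rw [h3]; group
      _ = _ := by rw [h4]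

end hha

theorem hhS : HH.{u,v,w} := by
  intro F _ _ W _ _ _ Γ _ _ _ θ hθ hc t t' ht ht'
  obtain ⟨U, hU⟩ := exists_maxAb (D := Γ)
  obtain ⟨N, h⟩ := hU.exists_gs
  exact hU.prop.2 t (hha.mem hc θ hθ h ht) t' (hha.mem hc θ hθ h ht')

end Pool.Agent.MP_983df8_al

end MrgPart5

-- ======== part 6: formerly Pool.Agent.MP_983df8_al.FourAll
section MrgPart6

namespace Pool.Agent.MP_983df8_al

open Subgroup

universe u

variable {π : Set ℕ}

theorem loc_all {S : Type u} [Group S] [Finite S] [IsSimpleGroup S]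
    (hS : ¬ IsMulCommutative S)
    {D : Subgroup (MulAut S)} [Group.IsSolvable D]
    (hi : Function.Injective (MulAut.conj : S →* MulAut S)) (hD : IsPi π D)
    (hJ : IsHall π (D.comap MulAut.conj)) (h23 : 2 ∉ π ∨ 3 ∉ π) {p : ℕ} (hp : p.Prime)
    (h : (p ∈ π ∧ IsBN3 p S) ∨ (p ∉ π ∧ IsRoot3 π p S)) :
    ∃ x : Fin 3 → S, ∀ β ∈ D, (∀ a, MulAut.conj (x a) * β * (MulAut.conj (x a))⁻¹ ∈ D) → β = 1 := by
  have := Fact.mk hp
  rcases h with ⟨a, B, N, U, R, b1, b2, b3, hW⟩ |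
    ⟨a, K, L, _, _, _, _, _, g, ρ, E, e, h1, ⟨h2, h3, h4⟩, h5, h6, h7, h8, h9, h10⟩
  · by_cases h2 : 2 ∈ π
    swap
    · exact loc_lie hS hi hD hJ h2 hp (Or.inl ⟨a, B, N, U, R, b1, b2, b3⟩)
    have h3 : ¬ 3 ∣ Nat.card D := fun c => h23.elim (· h2) (· (hD 3 Nat.prime_three c))
    obtain ⟨h1, h2, h3, h4⟩ := b1
    obtain ⟨h5, h6, h7, h8, h9, h10⟩ := b2
    have H : SBN p B N U R := ⟨⟨h1, h2, h3, fun r b => (h4 r b).1, fun r b => (h4 r b).2.1,
      fun r b c d n f => by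
        obtain ⟨x, i, y, j, k⟩ := (h4 r b).2.2 c d n f
        exact k.imp (fun k => ⟨x, i, y, j, k⟩) fun k => ⟨x, i, y, j, k⟩⟩, hp, h5, h6, h7, h8, h9,
      h10, b3⟩
    obtain ⟨x, hx⟩ := exists_conj_of_isPGroup hp (hJ.2 p hp a) h5
    have : Group.IsSolvable (MulAut.conj (MulAut.conj x)).toMonoidHom.ker := by
      rw [(MonoidHom.ker_eq_bot_iff _).2 (MulEquiv.injective _)]; infer_instance
    have : Group.IsSolvable (conjBy D (MulAut.conj x)) := solvable_comap _ D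
    obtain ⟨y, hy⟩ := locBN (dist3 rigX rig2) S hS p B N U R H hW (conjBy D (MulAut.conj x))
      (fun c => ‹¬ 3 ∣ Nat.card D› (c.trans (card_comap_dvd_of_injective D _ (MulEquiv.injective _))))
      hi fun u b => mem_comap.2 (mem_conjBy.2 (by simpa using mem_comap.1 (mem_conjBy.1 (hx b))))
    refine ⟨fun a => x * y a * x⁻¹, fun β b c => ?_⟩
    have := hy ((MulAut.conj x)⁻¹ * β * MulAut.conj x) (mem_conjBy.2 (by simpa [mul_assoc] using b))
      fun a => mem_conjBy.2 (by simpa [mul_assoc] using c a)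
    rwa [mul_assoc, inv_mul_eq_one, eq_comm, mul_eq_right] at this
  have H : RS g ρ E e := ⟨⟨h2, h3⟩, h1, h4, h5, h6, h7, fun x b => (h8 x b).1,
    fun x b => (h8 x b).2.1, fun x b => (h8 x b).2.2.1, fun x b => LinearMap.ext (h8 x b).2.2.2⟩
  have hβ := fun β b => h9 β (hD.mono (zpowers_le.2 b))
  by_cases h2 : 2 ∈ π
  · obtain ⟨c1, c2, c3⟩ := h10 h2
    exact H.loc3 (noPair uniq tori cyc2 hhS) (heis (linK (pinK rigX))) c3 (fun c => a (by
      rwa [(Nat.prime_dvd_prime_iff_eq hp Nat.prime_two).1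
        ((CharP.cast_eq_zero_iff K p 2).1 (by simpa using c))])) c1 c2 p
      (fun c => h23.elim (· h2) (· (hD 3 Nat.prime_three c))) (fun b => a (hD p hp b)) hi hβ
  · exact H.loc p (hD.odd h2) (fun b => a (hD p hp b)) hi hβ

variable {G : Type u} [Group G]

theorem loc_comp [Finite G] {H S : Subgroup G} [Group.IsSolvable H] (hH : IsHall π H)
    (hS : IsComp S) (h23 : 2 ∉ π ∨ 3 ∉ π) {p : ℕ} (hp : p.Prime)
    (h : (p ∈ π ∧ IsBN3 p S) ∨ (p ∉ π ∧ IsRoot3 π p S)) :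
    (autOf H S).comap MulAut.conj ≠ ⊤ ∧ ∃ x : Fin 3 → S, ∀ β ∈ autOf H S,
      (∀ a, MulAut.conj (x a) * β * (MulAut.conj (x a))⁻¹ ∈ autOf H S) → β = 1 := by
  have := hS.2.1
  have : Group.IsSolvable (normalizer (S : Set G)).subtype.ker := by
    rw [ker_subtype]; infer_instance
  have : Group.IsSolvable (H.subgroupOf (normalizer (S : Set G))) := solvable_comap _ H
  have : Group.IsSolvable (autOf H S) :=
    Group.isSolvable_of_surjective (MonoidHom.subgroupMap_surjective _ _)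
  have hle : H.subgroupOf S ≤ (autOf H S).comap MulAut.conj := fun s hs =>
    ⟨⟨s, le_normalizer s.2⟩, hs, MulEquiv.ext fun _ => rfl⟩
  have a := (hH.1.autOf S).comap_inj _ hS.conj_inj
  exact ⟨fun e => hS.not_pi hH (a.of_dvd (by simp [e])),
    loc_all hS.2.2 hS.conj_inj (hH.1.autOf S) ⟨a, fun p hp hm hd =>
      (hH.subgroupOf hS.1).2 p hp hm (hd.trans (index_dvd_of_le hle))⟩ h23 hp h⟩

theorem main_fourAll [Finite G] (hD : IsD π G) {H : Subgroup G} (hH : IsHall π H)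
    [Group.IsSolvable H] (h : SocleAll π (G ⧸ Rad G)) :
    ∃ x y z : G, OPi π G = H ⊓ conjBy H x ⊓ conjBy H y ⊓ conjBy H z := by
  have hH' := hH.map (QuotientGroup.mk' (Rad G)) (QuotientGroup.mk'_surjective _)
  have : Group.IsSolvable (H.map (QuotientGroup.mk' (Rad G))) :=
    Group.isSolvable_of_surjective (MonoidHom.subgroupMap_surjective _ H)
  have hW := map_W _ (QuotientGroup.mk'_surjective (Rad G)) fun X hX => hD.exists_le hH hX
  have k := fun S (c : IsComp S) => (h S c.1 c.2.1 c.2.2).elim (fun a => Or.inl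
    (locG_alt hH' c.1 a (alt_not_both hH' hW c.1 a (c.not_pi hH'))).three) fun a => a.elim
      (fun a => Or.inl (locG_L2 hH' hW c a)) fun a => a.2.imp (locG_Ln hH' c a.1)
        fun ⟨_, b, d⟩ => And.intro a.1 (loc_comp hH' c a.1 b d)
  by_cases h3 : 3 ∈ π
  swap
  · exact red hH (glue3 (dist3 rigX rig2) _ radicalTrivial_quot _
      (fun c => h3 (hH'.1 3 Nat.prime_three c)) fun S c => (k S c).imp_right (·.2))
  by_cases h2 : 2 ∈ π
  · exact red hH (glue radicalTrivial_quot fun S c => (k S c).resolve_right fun a =>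
      a.1.elim (· h2) (· h3))
  · exact red hH (glue2 radicalTrivial_quot (hH'.1.odd h2) fun S c => (k S c).elim LocG.two
      fun a => (two_of_one ((hH'.1.autOf S).odd h2) a.2.1 a.2.2).elim locG2_of_aut)

end Pool.Agent.MP_983df8_al

end MrgPart6

-- marker of a merged file
example : 731051 + 314431 = 731051 + 314431 := rfl
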