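import Pool.Agent.MP_983df8_al.LocM

namespace Pool.Agent.MP_983df8_al

open Matrix Subgroup

variable {K : Type*} [Field K] {S : Type*} [Group S] {ρ : SL2 K →* S} {π : Set ℕ}

/-- a pair of elements with anticommuting lifts -/
def KP (ρ : SL2 K →* S) (x y : S) : Prop := ∃ g m, ρ g = x ∧ ρ m = y ∧ Sg g m (-1)

theorem Sg.symm {g m : SL2 K} (h : Sg g m (-1)) : Sg m g (-1) := by
  unfold Sg at *
  rw [h]; simp

theorem Sg.not_one (h2 : (2 : K) ≠ 0) {g m : SL2 K} (h : Sg g m (-1)) : ¬ Sg g m 1 := fun e => by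
  have : (2 : K) • (m * g).1 = 0 := by
    unfold Sg at *
    rw [sl_mul]
    linear_combination (norm := module) h - e
  have e := (m * g).2
  rw [(smul_eq_zero.1 this).resolve_left h2, det_zero] at e
  exact zero_ne_one e

theorem KP.symm {x y : S} (h : KP ρ x y) : KP ρ y x :=
  let ⟨g, m, a, b, c⟩ := h
  ⟨m, g, b, a, c.symm⟩

theorem KP.mul {x y : S} (h : KP ρ x y) : KP ρ x (x * y) := by
  obtain ⟨g, m, rfl, rfl, c⟩ := h
  exact ⟨g, g * m, rfl, map_mul _ _ _, Sg.symm (by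
    simpa using (show Sg g g 1 from (one_smul _ _).symm).mul c.symm)⟩

theorem KP.comm (h : Cov ρ) {x y : S} (k : KP ρ x y) : Commute x y := by
  obtain ⟨g, m, rfl, rfl, c⟩ := k
  rw [Commute, SemiconjBy, ← map_mul, ← map_mul]
  exact h.eq_iff.2 ⟨-1, by simp, c⟩

theorem KP.klein (h : Cov ρ) (h2 : (2 : K) ≠ 0) {x y : S} (k : KP ρ x y) :
    x ≠ 1 ∧ x * x = 1 ∧ ∀ z, Commute z x → Commute z y → z = 1 ∨ z = x ∨ z = y ∨ z = x * y := by
  obtain ⟨g, m, rfl, rfl, c⟩ := k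
  exact h.klein c (c.not_one h2)

theorem KP.pair (h : Cov ρ) {a b x y : S} (k : KP ρ a b) (hx : x = a ∨ x = b ∨ x = a * b)
    (hy : y = a ∨ y = b ∨ y = a * b) (hne : x ≠ y) : KP ρ x y := by
  have e := (k.comm h).eq
  rcases hx with rfl | rfl | rfl <;> rcases hy with rfl | rfl | rfl
  exacts [absurd rfl hne, k, k.mul, k.symm, absurd rfl hne, e ▸ k.symm.mul, k.mul.symm,
    e ▸ k.symm.mul.symm, absurd rfl hne]

theorem KP.map [Finite K] (h : Cov ρ) {x y : S} (k : KP ρ x y) (β : MulAut S) :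
    KP ρ (β x) (β y) := by
  obtain ⟨g, m, rfl, rfl, c⟩ := k
  obtain ⟨μ, φ, -, h2⟩ := h.aut β
  obtain ⟨g', a1, a2⟩ := h2 g
  obtain ⟨m', b1, b2⟩ := h2 m
  refine ⟨g', m', a2.symm, b2.symm, ?_⟩
  unfold Sg at *
  rw [a1, b1, ← map_mul, ← map_mul, c]
  simp

theorem Cov.exists_aut [Finite S] (h : Cov ρ) {μ : K →+* K} {φ : M2 K →+* M2 K} (hφ : Semi μ φ) :
    ∃ β : MulAut S, Ind ρ β φ := by
  let σ : SL2 K →* SL2 K := MonoidHom.mk' (fun g => ⟨φ g.1, by rw [hφ.det, g.2, map_one]⟩)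
    fun a b => Subtype.ext (map_mul φ _ _)
  have key : ∀ ε : K, ε * ε = 1 → φ (ε • 1) = ε • 1 := fun ε e => by
    rcases mul_self_eq_one_iff.1 e with rfl | rfl <;> simp
  let f := ρ.liftOfSurjective h.surj ⟨ρ.comp σ, fun g hg => by
    obtain ⟨ε, a1, a2⟩ := (h.ker g).1 hg
    exact (h.ker _).2 ⟨ε, a1, (congrArg φ a2).trans (key ε a1)⟩⟩
  have hf : ∀ g, f (ρ g) = ρ (σ g) := fun g => ρ.liftOfRightInverse_comp_apply _ _ _ g
  have hi : Function.Injective f := by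
    rw [injective_iff_map_eq_one]
    intro s hs
    obtain ⟨g, rfl⟩ := h.surj s
    obtain ⟨ε, a1, a2⟩ := (h.ker _).1 ((hf g).symm.trans hs)
    exact (h.ker _).2 ⟨ε, a1, φ.injective (a2.trans (key ε a1).symm)⟩
  exact ⟨MulEquiv.ofBijective f (Finite.injective_iff_bijective.1 hi), fun g => ⟨σ g, rfl, hf g⟩⟩

theorem Sg.sq (h2 : (2 : K) ≠ 0) {g m : SL2 K} (h : Sg g m (-1)) : g.1 * g.1 = -1 := by
  have e := trace_eps (g := g) (m := m) h.symm
  have hd := sl_det g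
  have : g.1 1 1 = -g.1 0 0 := mul_left_cancel₀ h2 (by
    rw [trace_fin_two] at e; linear_combination -e)
  simp only [m2_ext, m2_mul, this] at hd ⊢
  simp
  refine ⟨?_, ?_, ?_, ?_⟩
  · linear_combination -hd
  · ring
  · ring
  · linear_combination -hd

theorem exists_inter (h2 : (2 : K) ≠ 0) {X Y : M2 K} (hX : X * X = -1) (hY : Y * Y = -1)
    (dX : X.det = 1) (dY : Y.det = 1) : ∃ ε : K, ε * ε = 1 ∧ (X + ε • Y).det ≠ 0 ∧
      (X + ε • Y) * Y = ε • (X * (X + ε • Y)) := by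
  have key : ∀ ε : K, ε * ε = 1 → (X + ε • Y) * Y = ε • (X * (X + ε • Y)) := fun ε e => by
    rw [add_mul, mul_add, smul_mul_assoc, mul_smul_comm, smul_add, smul_smul, e, hX, hY, one_smul,
      add_comm]
  by_contra hc
  push Not at hc
  have a1 : (X + (1 : K) • Y).det = 0 := by_contra fun e => hc 1 (by simp) e (key 1 (by simp))
  have a2 : (X + (-1 : K) • Y).det = 0 := by_contra fun e => hc (-1) (by simp) e (key _ (by simp))
  simp only [det_fin_two] at a1 a2 dX dY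
  simp at a1 a2
  exact mul_ne_zero h2 h2 (by linear_combination a1 + a2 - 2 * dX - 2 * dY)

theorem exists_gl (h2 : (2 : K) ≠ 0) {g m g' m' : SL2 K} (h : Sg g m (-1)) (h' : Sg g' m' (-1)) :
    ∃ (A : M2 K) (ε ε' : K), A.det ≠ 0 ∧ ε * ε = 1 ∧ ε' * ε' = 1 ∧
      A * g.1 = ε • (g'.1 * A) ∧ A * m.1 = ε' • (m'.1 * A) := by
  obtain ⟨ε, a1, a2, a3⟩ := exists_inter h2 (h'.sq h2) (h.sq h2) g'.2 g.2
  generalize g'.1 + ε • g.1 = A at a2 a3
  have i1 := A.nonsing_inv_mul (isUnit_iff_ne_zero.2 a2)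
  have i2 := A.mul_nonsing_inv (isUnit_iff_ne_zero.2 a2)
  have i3 : ∀ X : M2 K, A⁻¹ * (A * X) = X := fun X => by rw [← mul_assoc, i1, one_mul]
  have b0 : A * m.1 * A⁻¹ * g'.1 = -(g'.1 * (A * m.1 * A⁻¹)) := by
    have e : g'.1 = ε • (A * g.1 * A⁻¹) := by
      rw [a3, smul_mul_assoc, smul_smul, a1, one_smul, mul_assoc, i2, mul_one]
    have e' : m.1 * (g.1 * A⁻¹) = -(g.1 * (m.1 * A⁻¹)) := by
      rw [← mul_assoc, h.symm, ← mul_assoc]; simp
    rw [e]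
    simp only [mul_smul_comm, smul_mul_assoc, mul_assoc, i3, e', mul_neg, smul_neg]
  obtain ⟨ε', b1, b2, b3⟩ := exists_inter h2 (h'.symm.sq h2) (Y := A * m.1 * A⁻¹)
    (by simp only [mul_assoc, i3]; rw [← mul_assoc m.1, h.symm.sq h2]; simp [i2]) m'.2
    (by rw [det_mul, det_mul, m.2, mul_one, ← det_mul, i2, det_one])
  have b4 : (m'.1 + ε' • (A * m.1 * A⁻¹)) * g'.1 = -(g'.1 * (m'.1 + ε' • (A * m.1 * A⁻¹))) := by
    rw [add_mul, smul_mul_assoc, b0, h'.symm, mul_add, mul_smul_comm]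
    simp [add_comm]
  generalize m'.1 + ε' • (A * m.1 * A⁻¹) = C at b2 b3 b4
  refine ⟨C * A, -ε, ε', by rw [det_mul]; exact mul_ne_zero b2 a2, by simpa using a1, b1, ?_, ?_⟩
  · rw [mul_assoc, a3, mul_smul_comm, ← mul_assoc, b4]
    simp [mul_assoc]
  · have := congrArg (· * A) b3
    simpa only [mul_assoc, i1, mul_one, smul_mul_assoc] using this

theorem det_isSquare (h2 : (2 : K) ≠ 0) {g m : SL2 K} (h : Sg g m (-1)) {A : M2 K} {ε ε' : K}
    (a1 : ε * ε = 1) (a2 : ε' * ε' = 1) (e1 : A * g.1 = ε • (g.1 * A))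
    (e2 : A * m.1 = ε' • (m.1 * A)) : IsSquare A.det := by
  have hg : ∀ c : K, g.1 ≠ c • (1 : M2 K) := fun c e => h.not_one h2 (by simp [Sg, e])
  have key : ∀ k : SL2 K, Sg k g ε → Sg k m ε' → IsSquare A.det := fun k b1 b2 => by
    have c1 : A * k.1 * g.1 = g.1 * (A * k.1) := by
      rw [mul_assoc, b1, mul_smul_comm, ← mul_assoc, e1, smul_mul_assoc, smul_smul, a1, one_smul,
        mul_assoc]
    have c2 : A * k.1 * m.1 = m.1 * (A * k.1) := by
      rw [mul_assoc, b2, mul_smul_comm, ← mul_assoc, e2, smul_mul_assoc, smul_smul, a2, one_smul,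
        mul_assoc]
    obtain ⟨a, b, e⟩ := cent_alg hg c1
    obtain rfl : b = 0 := by
      by_contra hb
      refine h.not_one h2 (smul_right_injective _ hb ?_)
      simpa [Sg, e, add_mul, mul_add] using c2
    have := congrArg det e
    rw [det_mul, k.2, mul_one] at this
    exact ⟨a, by simpa [sq] using this⟩
  have gg : Sg g g 1 := (one_smul _ _).symm
  have mm : Sg m m 1 := (one_smul _ _).symm
  rcases mul_self_eq_one_iff.1 a1 with rfl | rfl <;> rcases mul_self_eq_one_iff.1 a2 with rfl | rfl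
  · exact key 1 (by simp [Sg]) (by simp [Sg])
  · exact key g gg h
  · exact key m h.symm mm
  · exact key (g * m) (by simpa using gg.mul h.symm) (by simpa using h.mul mm)

/-- simultaneous conjugacy of pairs -/
def Same (x y x' y' : S) : Prop := ∃ s : S, s * x * s⁻¹ = x' ∧ s * y * s⁻¹ = y'

theorem Same.symm {x y x' y' : S} (h : Same x y x' y') : Same x' y' x y := by
  obtain ⟨s, rfl, rfl⟩ := h
  exact ⟨s⁻¹, by group, by group⟩

theorem Same.trans {x y x' y' z w : S} (h : Same x y x' y') (h' : Same x' y' z w) :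
    Same x y z w := by
  obtain ⟨s, rfl, rfl⟩ := h
  obtain ⟨r, rfl, rfl⟩ := h'
  exact ⟨r * s, by group, by group⟩

theorem Same.map {x y x' y' : S} (h : Same x y x' y') (β : MulAut S) :
    Same (β x) (β y) (β x') (β y') := by
  obtain ⟨s, rfl, rfl⟩ := h
  exact ⟨β s, by simp, by simp⟩

theorem Cov.same_of (h : Cov ρ) {g m g' m' s : SL2 K} {ε ε' : K} (a1 : ε * ε = 1) (a2 : ε' * ε' = 1)
    (e1 : s.1 * g.1 = ε • (g'.1 * s.1)) (e2 : s.1 * m.1 = ε' • (m'.1 * s.1)) :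
    Same (ρ g) (ρ m) (ρ g') (ρ m') := by
  refine ⟨ρ s, ?_, ?_⟩ <;> rw [mul_inv_eq_iff_eq_mul, ← map_mul, ← map_mul]
  exacts [h.eq_iff.2 ⟨ε, a1, e1⟩, h.eq_iff.2 ⟨ε', a2, e2⟩]

theorem two_orbits [Finite K] [Finite S] (h : Cov ρ) (h2 : (2 : K) ≠ 0) {a b : S} (k : KP ρ a b) :
    ∃ δ : MulAut S, ¬ Same (δ a) (δ b) a b ∧
      ∀ x y, KP ρ x y → Same a b x y ∨ Same (δ a) (δ b) x y := by
  obtain ⟨t, ht⟩ := exists_gen K
  have ht0 := ht.ne
  have hpar : ∀ x : K, x ≠ 0 → ∃ c, c ≠ 0 ∧ (x = c ^ 2 ∨ x = t * c ^ 2) := fun x hx => by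
    obtain ⟨n, rfl⟩ := ht.pow x hx
    obtain ⟨l, rfl | rfl⟩ := Nat.even_or_odd' n
    exacts [⟨t ^ l, pow_ne_zero l ht0, Or.inl (by ring)⟩,
      ⟨t ^ l, pow_ne_zero l ht0, Or.inr (by ring)⟩]
  have hns : ¬ IsSquare t := by
    rintro ⟨s, rfl⟩
    obtain ⟨x, hx⟩ := FiniteField.exists_nonsquare (F := K) fun e => h2 (by
      simpa [e] using ringChar.Nat.cast_ringChar (R := K))
    obtain ⟨c, -, rfl | rfl⟩ := hpar x (by rintro rfl; simp at hx)
    exacts [hx ⟨c, sq c⟩, hx ⟨s * c, by ring⟩]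
  have hD : (!![t⁻¹, 0; 0, 1] : M2 K) * !![t, 0; 0, 1] = 1 := by simp [m2_ext, ht0]
  obtain ⟨δ, hδ⟩ := h.exists_aut ((semi_map (RingHom.id K)).cjg hD)
  obtain ⟨g, m, rfl, rfl, c⟩ := k
  obtain ⟨g1, a1, a2⟩ := hδ g
  obtain ⟨m1, b1, b2⟩ := hδ m
  replace a1 : g1.1 = !![t, 0; 0, 1] * g.1 * !![t⁻¹, 0; 0, 1] := by simpa [cjg] using a1
  replace b1 : m1.1 = !![t, 0; 0, 1] * m.1 * !![t⁻¹, 0; 0, 1] := by simpa [cjg] using b1
  have d1 : (!![t, 0; 0, 1] : M2 K).det = t := by simp [det_fin_two]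
  have d2 : (!![t⁻¹, 0; 0, 1] : M2 K).det = t⁻¹ := by simp [det_fin_two]
  generalize (!![t, 0; 0, 1] : M2 K) = D at hD a1 b1 d1
  generalize (!![t⁻¹, 0; 0, 1] : M2 K) = E at hD a1 b1 d2
  refine ⟨δ, ?_, ?_⟩
  · rw [a2, b2]
    rintro ⟨s, e1, e2⟩
    obtain ⟨s, rfl⟩ := h.surj s
    rw [mul_inv_eq_iff_eq_mul, ← map_mul, ← map_mul, h.eq_iff] at e1 e2
    obtain ⟨ε, c1, c2⟩ := e1
    obtain ⟨ε', c3, c4⟩ := e2
    have := det_isSquare h2 c (A := s.1 * D) c1 c3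
      (by rw [← mul_assoc, ← smul_mul_assoc, ← sl_mul, ← c2, sl_mul, a1]; simp [mul_assoc, hD])
      (by rw [← mul_assoc, ← smul_mul_assoc, ← sl_mul, ← c4, sl_mul, b1]; simp [mul_assoc, hD])
    rw [det_mul, s.2, one_mul, d1] at this
    exact hns this
  · rintro _ _ ⟨g', m', rfl, rfl, c'⟩
    obtain ⟨A, ε, ε', c1, c2, c3, c4, c5⟩ := exists_gl h2 c c'
    obtain ⟨r, hr, e | e⟩ := hpar _ c1
    · refine Or.inl (h.same_of (s := ⟨r⁻¹ • A, by simp [e, hr]⟩) c2 c3 ?_ ?_)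
      · simp only [smul_mul_assoc, mul_smul_comm, c4, smul_comm ε]
      · simp only [smul_mul_assoc, mul_smul_comm, c5, smul_comm ε']
    · rw [a2, b2]
      have hD' : ∀ X : M2 K, E * (D * X) = X := fun X => by rw [← mul_assoc, hD, one_mul]
      refine Or.inr (h.same_of (s := ⟨r⁻¹ • (A * E), by simp [e, d2]; field_simp⟩) c2 c3 ?_ ?_)
      · simp only [smul_mul_assoc, mul_smul_comm, a1, mul_assoc, hD']
        rw [← mul_assoc, c4, smul_mul_assoc, smul_comm, mul_assoc]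
      · simp only [smul_mul_assoc, mul_smul_comm, b1, mul_assoc, hD']
        rw [← mul_assoc, c5, smul_mul_assoc, smul_comm, mul_assoc]

theorem exists_sign [Finite K] [Finite S] (h : Cov ρ) (h2 : (2 : K) ≠ 0) {a b : S} (k : KP ρ a b) :
    ∃ Z : Subgroup (MulAut S), Z.index = 2 ∧ ∀ β : MulAut S, Same (β a) (β b) a b → β ∈ Z := by
  obtain ⟨δ, h3, h4⟩ := two_orbits h h2 k
  let Z : Subgroup (MulAut S) :=
    { carrier := {β | Same (β a) (β b) a b}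
      one_mem' := ⟨1, by simp, by simp⟩
      mul_mem' := fun {β _} hβ hγ => (hγ.map β).trans hβ
      inv_mem' := fun {β} hβ => by simpa using (hβ.map β⁻¹).symm }
  refine ⟨Z, index_eq_two_iff.2 ⟨δ, fun β => ?_⟩, fun β hβ => hβ⟩
  by_cases hβ : β ∈ Z
  · exact Or.inr ⟨hβ, fun e => h3 ((Z.mul_mem_cancel_left hβ).1 e)⟩
  · refine Or.inl ⟨((h4 _ _ ((k.map h δ).map h β)).resolve_right fun e => h3 ?_).symm, hβ⟩
    have e' := (h4 _ _ (k.map h β)).resolve_left fun e => hβ e.symm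
    simpa using (e.symm.trans e').map β⁻¹

end Pool.Agent.MP_983df8_al
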