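import Pool.Agent.MP_983df8_al.LocP

namespace Pool.Agent.MP_983df8_al

open Matrix Matrix.SpecialLinearGroup

section Avg

variable {D V : Type*} [Group D] [AddCommGroup V] [DistribMulAction D V]

theorem exists_avg (F : Subgroup D) [Finite F] (W : AddSubgroup V) (u : V)
    (h : ∀ d ∈ F, d • u - u ∈ W) : ∃ z, (∀ d ∈ F, d • z = z) ∧ z - Nat.card F • u ∈ W := by
  have := Fintype.ofFinite F
  refine ⟨∑ d : F, d.1 • u, fun d hd => ?_, ?_⟩
  · rw [Finset.smul_sum, ← Equiv.sum_comp (Equiv.mulLeft (⟨d, hd⟩ : F)) fun e : F => e.1 • u]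
    exact Finset.sum_congr rfl fun e _ => (mul_smul d e.1 u).symm
  · rw [Nat.card_eq_fintype_card, ← Finset.card_univ, ← Finset.sum_const, ← Finset.sum_sub_distrib]
    exact sum_mem fun d _ => h _ d.2

theorem mem_of_nsmul {r : ℕ} (hr : r.Prime) (hV : ∀ v : V, r • v = 0) {n : ℕ} (hn : ¬ r ∣ n)
    (W : AddSubgroup V) {y : V} (h : n • y ∈ W) : y ∈ W :=
  (QuotientAddGroup.eq_zero_iff y).1 (cop_of (V := V ⧸ W) hr (fun v => by
    obtain ⟨v, rfl⟩ := QuotientAddGroup.mk_surjective v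
    rw [← QuotientAddGroup.mk_nsmul, hV, QuotientAddGroup.mk_zero]) hn _
    ((QuotientAddGroup.eq_zero_iff _).2 h))

theorem rob_line [Finite D] [Group.IsSolvable D] [Finite V] [Nontrivial V] {r : ℕ} (hr : r.Prime)
    (hV : ∀ v : V, r • v = 0) (hD : ¬ r ∣ Nat.card D) (L : V → AddSubgroup V) (h1 : ∀ x, x ∈ L x)
    (h2 : ∀ x, x ≠ 0 → ∃ y, y ∉ L x)
    (h3 : ∀ (d : D) x, x ≠ 0 → d • x = x → ∀ y ∈ L x, d • y ∈ L x) :
    ∃ T : ZMod 7 → Fin 3 → V, (∀ a, T a 1 ∉ L (T a 0)) ∧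
      (∀ a (d : D), (∀ i, d • T a i = T a i) → ∀ w : V, d • w = w) ∧
      ∀ a b, ∀ d : D, (∀ i, d • T a i = T b i) → a = b := by
  obtain ⟨x, y, z, h0, h⟩ : ∃ x y z : V, x ≠ 0 ∧
      ∀ d : D, d • x = x → d • y = y → d • z = z → ∀ w : V, d • w = w := by
    obtain ⟨v, hv⟩ := lin3 (D := D) hr hV hD
    by_cases e : ∃ i, v i ≠ 0
    · obtain ⟨i, hi⟩ := e
      refine ⟨v i, v (i + 1), v (i + 2), hi, fun d a b c => hv d fun j => ?_⟩
      obtain e | e | e := (by decide : ∀ i j : Fin 3, j = i ∨ j = i + 1 ∨ j = i + 2) i j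
      exacts [e ▸ a, e ▸ b, e ▸ c]
    · push Not at e
      obtain ⟨x, hx⟩ := exists_ne (0 : V)
      exact ⟨x, 0, 0, hx, fun d _ _ _ => hv d fun j => by simp [e]⟩
  obtain ⟨y, z, hy, h⟩ : ∃ y z : V, y ∉ L x ∧
      ∀ d : D, d • x = x → d • y = y → d • z = z → ∀ w : V, d • w = w := by
    by_cases a : y ∈ L x
    swap
    · exact ⟨y, z, a, h⟩
    obtain ⟨u, hu⟩ := h2 x h0
    let F : Subgroup D :=
      { carrier := {d | d • x = x ∧ d • u - u ∈ L x}
        mul_mem' := fun {c d} hc hd => ⟨by rw [mul_smul, hd.1, hc.1], by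
          simpa [mul_smul, smul_sub] using (L x).add_mem (h3 c x h0 hc.1 _ hd.2) hc.2⟩
        one_mem' := by simp
        inv_mem' := fun {c} hc => ⟨inv_smul_eq_iff.2 hc.1.symm, by
          simpa [smul_sub] using (L x).neg_mem (h3 c⁻¹ x h0 (inv_smul_eq_iff.2 hc.1.symm) _ hc.2)⟩ }
    have hF : ¬ r ∣ Nat.card F := fun e => hD (e.trans F.card_subgroup_dvd_card)
    obtain ⟨w, w1, w2⟩ := exists_avg F (L x) u fun d hd => hd.2
    refine ⟨y + w, z, fun e => hu (mem_of_nsmul hr hV hF _ ?_), fun d e1 e2 e3 => h d e1 ?_ e3⟩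
    · simpa using (L x).sub_mem ((L x).sub_mem e a) w2
    · rw [smul_add, w1 d ⟨e1, mem_of_nsmul hr hV hF _ ?_⟩] at e2
      · exact add_right_cancel e2
      have := (L x).sub_mem ((L x).add_mem ((L x).sub_mem a (h3 d x h0 e1 _ a)) w2)
        (h3 d x h0 e1 _ w2)
      convert this using 1
      rw [smul_sub d, smul_sub, smul_comm d (Nat.card F) u, eq_sub_of_add_eq' e2]
      abel
  obtain ⟨T, ⟨t1, t2⟩, t3⟩ := rob_pair' (cop_of hr hV hD) (E := ⊤) (W := ⊤) (x := x) (y := y) (z := z)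
    trivial trivial trivial h0 (fun e => hy (e ▸ zero_mem _)) (fun e => hy (e ▸ h1 x))
    (fun e => hy (e ▸ neg_mem (h1 x))) fun d _ a b c w _ => h d a b c w
  refine ⟨T, fun a => ?_, fun a d e w => (t1 a).2 d trivial e w trivial, t2⟩
  obtain ⟨e, k, e'⟩ := t3 a
  rw [e, e']
  exact fun b => hy (by simpa using (L x).sub_mem b (nsmul_mem (h1 x) k))

end Avg

variable {ι K : Type*} [Fintype ι] [DecidableEq ι] [Field K]
variable {S : Type*} [Group S] {ρ : SLn ι K →* S} {β : MulAut S} {μ : K →+* K}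
variable {A B : Matrix ι ι K} {p : ℕ} [Fact p.Prime] [CharP K p] {J : Subgroup S}

theorem eq_one_of_pow {s : S} (hJ : ¬ p ∣ Nat.card J) (hs : s ∈ J) (h : s ^ p = 1) : s = 1 := by
  by_contra hne
  exact hJ ((orderOf_eq_prime h hne).symm.dvd.trans (J.orderOf_dvd_natCard hs))

theorem CovN.not_dvd [Finite K] (h : CovN ρ) (hJ : ¬ p ∣ Nat.card J) {L : Subgroup (SLn ι K)}
    (hL : ∀ g ∈ L, ρ g ∈ J) : ¬ p ∣ Nat.card L := fun e => by
  obtain ⟨g, hg⟩ := exists_prime_orderOf_dvd_card' p e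
  have e1 : g.1 ^ p = 1 := congrArg Subtype.val (hg ▸ pow_orderOf_eq_one g)
  obtain ⟨c, hc⟩ := (h.ker g).1 (eq_one_of_pow hJ (hL _ g.2) (by rw [← map_pow, e1, map_one]))
  obtain ⟨o⟩ : Nonempty ι := Fintype.card_pos_iff.1 (by have := h.three; omega)
  have e2 := congrArg (fun y : SLn ι K => y.1 o o) e1
  simp only [coe_pow, hc, _root_.smul_pow, one_pow, Matrix.smul_apply, coe_one, one_apply_eq,
    smul_eq_mul, mul_one] at e2
  obtain rfl : c = 1 := frobenius_inj K p (by simpa [frobenius_def] using e2)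
  rw [show g = 1 from Subtype.ext (Subtype.ext (by simpa using hc)), orderOf_one] at hg
  exact (Fact.out : p.Prime).ne_one hg.symm

theorem Tv.pow_char {g : SLn ι K} {v f : ι → K} (h : Tv g v f) : g ^ p = 1 :=
  (h.pow p).eq_one_iff.2 (Or.inr (by simp))

/-- elements moving vectors inside `W` -/
def inW (ρ : SLn ι K →* S) (J : Subgroup S) (W : AddSubgroup (ι → K)) : Subgroup (SLn ι K) where
  carrier := {g | ρ g ∈ J ∧ ∀ u : ι → K, g • u - u ∈ W}
  mul_mem' {a b} ha hb := ⟨map_mul ρ a b ▸ J.mul_mem ha.1 hb.1, fun u => by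
    simpa [mul_smul] using W.add_mem (ha.2 (b • u)) (hb.2 u)⟩
  one_mem' := by simp
  inv_mem' {a} ha := ⟨map_inv ρ a ▸ J.inv_mem ha.1, fun u => by
    simpa using W.neg_mem (ha.2 (a⁻¹ • u))⟩

theorem CovN.plus_dep [Finite K] (h : CovN ρ) (hJ : ¬ p ∣ Nat.card J) {v v' : ι → K}
    {f g : Fin 3 → ι → K} {x y : Fin 3 → SLn ι K} (hx : ∀ a, Tv (x a) v (f a))
    (hy : ∀ a, Tv (y a) v' (g a)) (hf : ¬ Dep (f 0) (f 1)) (hj : ∀ a, ρ (x a * (y a)⁻¹) ∈ J) :
    Dep v v' := by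
  by_contra hv
  let L := inW ρ J (Submodule.span K {v, v'}).toAddSubgroup
  have hn : ((Nat.card L : ℕ) : K) ≠ 0 := fun e =>
    h.not_dvd hJ (L := L) (fun g hg => hg.1) ((CharP.cast_eq_zero_iff K p _).1 e)
  have act : ∀ a u, (x a * (y a)⁻¹) • u - u =
      (f a ⬝ᵥ u - (g a ⬝ᵥ u) * (f a ⬝ᵥ v')) • v + (-(g a ⬝ᵥ u)) • v' := fun a u => by
    show (x a * (y a)⁻¹).1 *ᵥ u - u = _
    rw [sn_mul, ← mulVec_mulVec, (hy a).inv.act, (hx a).act]
    simp only [dotProduct_add, dotProduct_smul, neg_dotProduct, smul_eq_mul]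
    module
  have key : ∀ u, ∃ t : K, ∀ a, (Nat.card L : K) * (f a ⬝ᵥ u) + t * (f a ⬝ᵥ v') = 0 := fun u => by
    obtain ⟨z, z1, z2⟩ := exists_avg L _ u fun d hd => hd.2 u
    obtain ⟨s, t, e⟩ := Submodule.mem_span_pair.1 z2
    refine ⟨t, fun a => ?_⟩
    have e1 := act a z
    rw [z1 _ ⟨hj a, fun u => act a u ▸ Submodule.mem_span_pair.2 ⟨_, _, rfl⟩⟩, sub_self] at e1
    obtain ⟨w, w1, w2⟩ := exists_dual hv 1 0
    obtain ⟨w', w3, w4⟩ := exists_dual hv 0 1
    have e2 := congrArg (· ⬝ᵥ w) e1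
    have e3 := congrArg (· ⬝ᵥ w') e1
    simp only [add_dotProduct, smul_dotProduct, w1, w2, w3, w4, zero_dotProduct, smul_eq_mul] at e2 e3
    have e4 := congrArg (f a ⬝ᵥ ·) e
    simp only [dotProduct_add, dotProduct_sub, dotProduct_smul, (hx a).dot, smul_eq_mul,
      ← Nat.cast_smul_eq_nsmul K] at e4
    linear_combination e4 - e2 + (f a ⬝ᵥ v') * e3
  obtain ⟨u, u1, u2⟩ := exists_dual hf 1 0
  obtain ⟨u', u3, u4⟩ := exists_dual hf 0 1
  obtain ⟨t, ht⟩ := key u
  obtain ⟨t', ht'⟩ := key u'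
  have a1 := ht 0
  have a2 := ht 1
  have a3 := ht' 1
  simp only [u1, u2, u4, mul_one, mul_zero, zero_add] at a1 a2 a3
  exact hn (mul_self_eq_zero.1 (by
    linear_combination (Nat.card L : K) * a1 - t * (f 0 ⬝ᵥ v') * a3 + t' * (f 0 ⬝ᵥ v') * a2))

theorem Rp.faith (h : CovN ρ) (a : Rp ρ β μ A B) (o : ι)
    (hf : ∀ g f, Tv g (Pi.single o 1) f → β (ρ g) = ρ g) :
    ∃ s v f, Tv s v f ∧ β = MulAut.conj (ρ s) := by
  have key : ∀ k, k ≠ o → ∀ s l m, A l o * (μ s * B k m) =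
      (if l = o then 1 else 0) * if m = k then s else 0 := fun k hk s l m => by
    obtain ⟨t, b, e⟩ := a.tv (tv_x hk.symm s)
    rw [hf _ _ (tv_x hk.symm s)] at e
    rw [← h.tv_eq (tv_x hk.symm s) b e, col_single, row_single] at b
    simpa [vecMulVec_apply, Pi.single_apply] using
      congrArg (fun X : Matrix ι ι K => X l m) (add_left_cancel (b.symm.trans (tv_x hk.symm s)))
  obtain ⟨k, hk, -⟩ := exists_third_idx h.three o o
  have e1 : A o o * B k k = 1 := by simpa using key k hk 1 o k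
  have e0 := left_ne_zero_of_mul_eq_one e1
  obtain ⟨s, hs⟩ := exists_tv (v := Pi.single o (1 : K))
    (f := fun m => if m = o then 0 else A o m / A o o) (by simp)
  refine ⟨s, _, _, hs, a.eq_conj h (fun x => ?_) (c := A o o) (Matrix.ext fun l m => ?_)⟩
  · have := key k hk x o k
    simp only [if_true, one_mul] at this
    linear_combination this - μ x * e1
  rw [hs, Matrix.smul_apply, Matrix.add_apply, vecMulVec_apply, one_apply, smul_eq_mul]
  by_cases e : l = o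
  · by_cases e' : m = o
    · simp [e, e']
    · simp [e, e', Ne.symm e', mul_div_cancel₀ _ e0]
  · have := congrArg (fun X : Matrix ι ι K => A o o * X l m) a.1
    simp only [mul_apply, Finset.mul_sum, ← mul_assoc] at this
    rw [Finset.sum_eq_single_of_mem l (Finset.mem_univ _) fun n _ hn => by
      rw [show A o o * B l n = 0 by simpa [hn] using key l e 1 o n, zero_mul],
      show A o o * B l l = 1 by simpa using key l e 1 o l, one_mul] at this
    simpa [e, one_apply] using this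

theorem mem_comap_of {Bg : Subgroup (MulAut S)} (hβ : β ∈ Bg) {x y : S}
    (h : MulAut.conj x * β * (MulAut.conj y)⁻¹ ∈ Bg) : x * (β y)⁻¹ ∈ Bg.comap MulAut.conj := by
  have : MulAut.conj (x * (β y)⁻¹) = MulAut.conj x * β * (MulAut.conj y)⁻¹ * β⁻¹ := by
    ext; simp [mul_assoc]
  exact Subgroup.mem_comap.2 (this ▸ Bg.mul_mem h (Bg.inv_mem hβ))

theorem locN_cop [Finite K] [Finite S] (h : CovN ρ) {Bg : Subgroup (MulAut S)} [Group.IsSolvable Bg]
    (hB : ¬ p ∣ Nat.card Bg) (hJ : ¬ p ∣ Nat.card (Bg.comap MulAut.conj))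
    (hm : (∀ β ∈ Bg, ∃ μ A B, Rp ρ β μ A B) ∨ ∀ (v φ : ι → K) (f w : Fin 3 → ι → K)
      (x y : Fin 3 → SLn ι K), (∀ a, Tv (x a) v (f a)) → (∀ a, Tv (y a) (w a) φ) →
      ¬ Dep (f 0) (f 1) → v ≠ 0 → ¬ ∀ a, ρ (x a * (y a)⁻¹) ∈ Bg.comap MulAut.conj) :
    LocA Bg := by
  obtain ⟨o⟩ : Nonempty ι := Fintype.card_pos_iff.1 (by have := h.three; omega)
  set v : ι → K := Pi.single o 1 with hv
  have v0 : v ≠ 0 := by simp [hv]
  let V : AddSubgroup (ι → K) :=
    { carrier := {f | f ⬝ᵥ v = 0}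
      add_mem' := fun {a b} (ha : _ = _) (hb : _ = _) => by
        show _ = _
        rw [add_dotProduct, ha, hb, add_zero]
      zero_mem' := zero_dotProduct v
      neg_mem' := fun {a} (ha : _ = _) => by
        show _ = _
        rw [neg_dotProduct, ha, neg_zero] }
  choose t ht using fun f : V => exists_tv (v := v) f.2
  have inj : ∀ f f', ρ (t f) = ρ (t f') → f = f' := fun f f' e =>
    Subtype.ext ((ht f).inj (h.tv_eq (ht f') (ht f) e.symm ▸ ht f') v0)
  have add : ∀ f f', ρ (t (f + f')) = ρ (t f) * ρ (t f') := fun f f' => by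
    rw [← map_mul, (ht _).eq ((ht f).mul (ht f'))]
  let D0 : Submonoid (MulAut S) :=
    { carrier := {β | β ∈ Bg ∧ (∃ μ A B, Rp ρ β μ A B) ∧ ∀ f, ∃ f', β (ρ (t f)) = ρ (t f')}
      mul_mem' := fun {a b} ⟨a1, ⟨_, _, _, a2⟩, a3⟩ ⟨b1, ⟨_, _, _, b2⟩, b3⟩ =>
        ⟨Bg.mul_mem a1 b1, ⟨_, _, _, a2.mul b2⟩, fun f => (b3 f).elim fun f' e =>
          (a3 f').imp fun f'' e' => by rw [MulAut.mul_apply, e, e']⟩
      one_mem' := ⟨Bg.one_mem, ⟨_, _, _, by simpa using rp_conj (ρ := ρ) 1⟩, fun f => ⟨f, rfl⟩⟩ }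
  let D : Subgroup (MulAut S) :=
    { D0 with
      inv_mem' := fun {a} ha => by
        rw [inv_eq_of_mul_eq_one_left (show a ^ (orderOf a - 1) * a = 1 by
          rw [← pow_succ, Nat.sub_add_cancel (orderOf_pos a), pow_orderOf_eq_one])]
        exact D0.pow_mem ha _ }
  have hD : D ≤ Bg := fun _ ha => ha.1
  choose act hact using fun d : D => d.2.2.2
  let _ : DistribMulAction D V :=
    { smul := act
      one_smul := fun f => inj _ _ (hact 1 f).symm
      mul_smul := fun c d f => inj _ _ (by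
        show ρ (t (act _ f)) = ρ (t (act c (act d f)))
        rw [← hact, ← hact, ← hact]; rfl)
      smul_zero := fun d => inj _ _ (by
        show ρ (t (act _ 0)) = _
        rw [← hact, (ht 0).eq (tv_one v), map_one, map_one])
      smul_add := fun d f f' => inj _ _ (by
        show ρ (t (act _ _)) = ρ (t (act d f + act d f'))
        rw [← hact, add, add, map_mul, hact, hact]) }
  have hact' : ∀ (d : D) f, d.1 (ρ (t f)) = ρ (t (d • f)) := hact
  have : Group.IsSolvable D :=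
    Group.isSolvable_of_isSolvable_injective (Subgroup.inclusion_injective hD)
  obtain ⟨f0, a1, a2, -⟩ := exists_perp h.three v v
  have : Nontrivial V := ⟨⟨f0, (dotProduct_comm _ _).trans a2⟩, 0, fun e => a1 (congrArg Subtype.val e)⟩
  obtain ⟨T, t1, t2, t3⟩ := rob_line (D := D) (V := V) (Fact.out : p.Prime)
    (fun f => Subtype.ext (funext fun i => by simp)) (fun e => hB (e.trans (Subgroup.card_dvd_of_le hD)))
    (fun x => { carrier := {y | Dep x.1 y.1}
                add_mem' := fun {a b} ha hb i j => by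
                  simp only [AddSubgroup.coe_add, Pi.add_apply]
                  linear_combination ha i j + hb i j
                zero_mem' := fun i j => by simp
                neg_mem' := fun {a} ha i j => by
                  simp only [AddSubgroup.coe_neg, Pi.neg_apply]
                  linear_combination - ha i j })
    (fun x i j => mul_comm _ _)
    (fun x hx => (exists_indep h.three v fun e => hx (Subtype.ext e)).elim
      fun y hy => ⟨⟨y, hy.1⟩, hy.2⟩)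
    fun d x hx e y hy => by
      obtain ⟨μ, A, B, a⟩ := d.2.2.1
      have key : ∀ y : V, Tv (t (d • y)) (A *ᵥ (μ ∘ v)) ((μ ∘ y.1) ᵥ* B) := fun y => by
        obtain ⟨s, b, e⟩ := a.tv (ht y)
        exact h.tv_eq (ht _) b ((hact' d y).symm.trans e) ▸ b
      obtain ⟨c, hc⟩ := Dep.exists hy fun e => hx (Subtype.ext e)
      have k1 := key x
      have k2 := key y
      rw [e] at k1
      rw [hc, show μ ∘ (c • x.1) = μ c • (μ ∘ x.1) from funext fun i => map_mul μ _ _,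
        smul_vecMul, Tv, vecMulVec_smul, add_left_cancel (k1.symm.trans (ht x)),
        ← vecMulVec_smul] at k2
      exact show Dep x.1 (d • y).1 from (ht _).inj k2 v0 ▸ dep_smul' x.1 (μ c)
  refine ⟨fun a i => ρ (t (T i a)), fun β hβ i j hc => ?_⟩
  have hc' := fun a => mem_comap_of hβ (hc a)
  obtain ⟨μ, A, B, a⟩ : ∃ μ A B, Rp ρ β μ A B := by
    obtain ⟨μ, A, B, a | a⟩ := h.rp_or_rm β
    · exact ⟨_, _, _, a⟩
    refine hm.elim (fun e => e β hβ) fun e => ?_
    choose y y1 y2 using fun b => a.tv (ht (T j b))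
    exact absurd (fun b => by simpa only [y2, map_mul, map_inv] using hc' b)
      (e v _ _ _ _ y (fun b => ht (T i b)) y1 (t1 i) v0)
  choose y y1 y2 using fun f => a.tv (ht f)
  have hd := h.plus_dep hJ (fun b => ht (T i b)) (fun b => y1 (T j b)) (t1 i)
    fun b => by simpa only [y2, map_mul, map_inv] using hc' b
  have hβ' : β ∈ D := ⟨hβ, ⟨_, _, _, a⟩, fun f => ((y1 f).of_dep hd v0).elim fun f' e =>
    ⟨⟨f', e.dot⟩, (y2 f).trans (congrArg ρ (e.eq (ht ⟨f', e.dot⟩)))⟩⟩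
  have k : ∀ b, (⟨β, hβ'⟩ : D) • T j b = T i b := fun b => inj _ _ (by
    have := hc' b
    rw [hact' ⟨β, hβ'⟩] at this
    refine (mul_inv_eq_one.1 (eq_one_of_pow hJ this ?_)).symm
    rw [← map_inv, ← map_mul, ← map_pow, ((ht _).mul (ht _).inv).pow_char, map_one])
  obtain rfl := t3 _ _ _ k
  obtain ⟨s, _, _, b, rfl⟩ := a.faith h o fun g f e => by
    obtain ⟨f', rfl⟩ : ∃ f', g = t f' := ⟨_, e.eq (ht ⟨f, e.dot⟩)⟩
    rw [hact' ⟨β, hβ'⟩, t2 _ _ k]
  exact ⟨rfl, by rw [eq_one_of_pow hJ hβ (by rw [← map_pow, b.pow_char, map_one]), map_one]⟩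

end Pool.Agent.MP_983df8_al
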