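import Pool.Agent.MP_983df8_al.MRig
import Pool.Agent.MP_983df8_al.Red

-- ======== part 0: formerly Pool.Agent.MP_983df8_al.LocL
section MrgPart0

namespace Pool.Agent.MP_983df8_al

open Matrix

variable {K : Type*} [Field K] {S : Type*} [Group S] {ρ : SL2 K →* S} {B : Subgroup (MulAut S)}

/-- seven inequivalent regular triples -/
def LocA (B : Subgroup (MulAut S)) : Prop :=
  ∃ x : Fin 3 → ZMod 7 → S, ∀ β ∈ B, ∀ i j,
    (∀ a, MulAut.conj (x a i) * β * (MulAut.conj (x a j))⁻¹ ∈ B) → i = j ∧ β = 1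

theorem Cov.eq_one (h : Cov ρ) {β : MulAut S} {φ : M2 K →+* M2 K} (hI : Ind ρ β φ)
    (e : ∀ X, φ X = X) : β = 1 := by
  ext s
  obtain ⟨g, rfl⟩ := h.surj s
  obtain ⟨g', e1, e2⟩ := hI g
  rw [e2, Subtype.ext (e1.trans (e _)), MulAut.one_apply]

theorem Ind.comp {β β' : MulAut S} {φ φ' : M2 K →+* M2 K} (h : Ind ρ β φ) (h' : Ind ρ β' φ') :
    Ind ρ (β * β') (φ.comp φ') := fun g => by
  obtain ⟨a, a1, a2⟩ := h' g
  obtain ⟨b, b1, b2⟩ := h a
  exact ⟨b, by rw [b1, a1]; rfl, by rw [MulAut.mul_apply, a2, b2]⟩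

theorem cent_alg {g m : M2 K} (hg : ∀ c : K, g ≠ c • (1 : M2 K)) (h : m * g = g * m) :
    ∃ a b : K, m = a • (1 : M2 K) + b • g := by
  simp only [m2_ext, m2_mul] at h
  obtain ⟨h1, h2, h3, h4⟩ := h
  by_cases a1 : g 1 0 = 0
  · by_cases a2 : g 0 1 = 0
    · have a3 : g 0 0 - g 1 1 ≠ 0 := fun e => hg (g 0 0) (by
        simp [m2_ext, a1, a2, sub_eq_zero.1 e])
      refine ⟨m 0 0 - (m 0 0 - m 1 1) / (g 0 0 - g 1 1) * g 0 0, (m 0 0 - m 1 1) / (g 0 0 - g 1 1), ?_⟩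
      rw [a2] at h2
      rw [a1] at h3
      simp [m2_ext, a1, a2]
      refine ⟨mul_left_cancel₀ a3 (by linear_combination -h2),
        mul_left_cancel₀ a3 (by linear_combination h3), by field_simp; ring⟩
    · refine ⟨m 0 0 - m 0 1 / g 0 1 * g 0 0, m 0 1 / g 0 1, ?_⟩
      simp [m2_ext]
      refine ⟨?_, ?_, ?_⟩ <;> field_simp
      · linear_combination -h1
      · linear_combination -h2
  · refine ⟨m 0 0 - m 1 0 / g 1 0 * g 0 0, m 1 0 / g 1 0, ?_⟩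
    simp [m2_ext]
    refine ⟨?_, ?_, ?_⟩ <;> field_simp
    · linear_combination h1
    · linear_combination h3

theorem Cov.not_scalar (h : Cov ρ) {g : SL2 K} (hg : ρ g ≠ 1) (c : K) : g.1 ≠ c • (1 : M2 K) :=
  fun e => hg ((h.ker g).2 ⟨c, by simpa [e, sq] using g.2, e⟩)

/-- `B` normalises the centraliser of `g` -/
def InvB (ρ : SL2 K →* S) (B : Subgroup (MulAut S)) (g : SL2 K) : Prop :=
  ∀ β ∈ B, ∃ m : SL2 K, β (ρ g) = ρ m ∧ Commute m g

/-- `B` fixes the algebra generated by `X`, read on all conjugates -/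
def Fam (ρ : SL2 K →* S) (B : Subgroup (MulAut S)) (X : M2 K) : Prop :=
  ∀ β μ φ, Semi μ φ → Ind ρ β φ → ∀ s t : SL2 K,
    MulAut.conj (ρ s⁻¹) * β * (MulAut.conj (ρ t⁻¹))⁻¹ ∈ B →
      Maps φ (t.1 * X * (t⁻¹).1) (s.1 * X * (s⁻¹).1)

theorem sl_conj_lin (s : SL2 K) (a b : K) (X : M2 K) :
    s.1 * (a • (1 : M2 K) + b • X) * (s⁻¹).1 = a • (1 : M2 K) + b • (s.1 * X * (s⁻¹).1) := by
  rw [mul_add, add_mul, mul_smul_comm, mul_smul_comm, smul_mul_assoc, smul_mul_assoc, mul_one,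
    ← sl_mul, mul_inv_cancel]
  rfl

theorem Cov.fam (h : Cov ρ) {g : SL2 K} (hg : ρ g ≠ 1) (hI : InvB ρ B g) {a b : K} (hb : b ≠ 0)
    {X : M2 K} (e : g.1 = a • (1 : M2 K) + b • X) : Fam ρ B X := by
  intro β μ φ h1 h2 s t hB
  obtain ⟨m, m1, m2⟩ := hI _ hB
  obtain ⟨c, d, m3⟩ := cent_alg (h.not_scalar hg) (congrArg Subtype.val m2.eq)
  obtain ⟨g', a1, a2⟩ := h2 (t * g * t⁻¹)
  obtain ⟨ε, -, a3⟩ := h.eq_iff.1 (show ρ g' = ρ (s * m * s⁻¹) by
    rw [← a2, map_mul ρ _ s⁻¹, map_mul ρ s, ← m1]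
    simp [mul_assoc])
  refine Maps.of_left h1 (X := (t * g * t⁻¹).1) (a := -(b⁻¹ * a)) (b := b⁻¹)
    (Maps.of_right (Y := (s * g * s⁻¹).1) ⟨ε * c, ε * d, ?_⟩ (a := a) (b := b) ?_) ?_
  · rw [← a1, a3, sl_mul, sl_mul, m3, sl_conj_lin, smul_add, smul_smul, smul_smul]; rfl
  · rw [sl_mul, sl_mul, e, sl_conj_lin]
  · rw [sl_mul, sl_mul, e, sl_conj_lin, smul_add, smul_smul, smul_smul, inv_mul_cancel₀ hb]
    simp

theorem Fam.self {X : M2 K} (h : Fam ρ B X) {β μ φ} (h1 : Semi μ φ) (h2 : Ind ρ β φ) (hβ : β ∈ B) :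
    Maps φ X X := by
  simpa using h β μ φ h1 h2 1 1 (by simpa using hβ)

theorem loc_zero [Finite K] (h : Cov ρ) (h7 : 7 ≤ Nat.card K)
    (hB : ∀ s : S, MulAut.conj s ∈ B → s = 1) : LocA B := by
  obtain ⟨t, ht⟩ := exists_gen K
  obtain ⟨c, hc⟩ := exists_seven h7
  refine ⟨fun a i => ρ (![uu 1, hh t ht.ne, uu (c i)] a), fun β hβ i j e => ?_⟩
  have key : ∀ x y : S, MulAut.conj x * β * (MulAut.conj y)⁻¹ ∈ B → β y = x := fun x y e => by
    refine (mul_inv_eq_one.1 (hB _ ?_)).symm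
    convert B.mul_mem e (B.inv_mem hβ) using 1
    ext z
    simp [mul_assoc]
  obtain ⟨μ, φ, h1, h2⟩ := h.aut β
  obtain ⟨a, a1, a2⟩ := h2 (uu 1)
  obtain ⟨b, b1, b2⟩ := h2 (hh t ht.ne)
  obtain ⟨ε, a3, a4⟩ := h.eq_iff.1 (a2.symm.trans (key _ _ (e 0)))
  obtain ⟨ε', b3, b4⟩ := h.eq_iff.1 (b2.symm.trans (key _ _ (e 1)))
  obtain rfl := h.eq_one h2 (h1.zero_rigid ht h7 a3 (a1.symm.trans a4)
    (left_ne_zero_of_mul_eq_one b3) (b1.symm.trans b4))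
  exact ⟨(hc (h.uu_inj (key _ _ (e 2)))).symm, rfl⟩

theorem loc_ss_odd [Finite K] (h : Cov ρ) (h7 : 7 ≤ Nat.card K) (h9 : Nat.card K ≠ 9)
    (h2 : (2 : K) ≠ 0) {n : K} (hn : n ≠ 0) (hF : Fam ρ B !![0, -n; 1, 0]) : LocA B := by
  obtain ⟨t, ht⟩ := exists_gen K
  obtain ⟨c, hc⟩ := exists_seven h7
  obtain ⟨a, b, hab⟩ := norm_surj hn t⁻¹
  have ht0 := ht.ne
  field_simp at hab
  let r : SL2 K := ⟨!![t * a, -(t * b * n); b, a], by
    rw [det_fin_two_of]; linear_combination hab⟩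
  have hr : r.1 * !![0, -n; 1, 0] * (r⁻¹).1 = (0 : K) • (1 : M2 K) +
      t⁻¹ • !![0, -(t ^ 2 * n); 1, 0] := by
    simp only [sl_inv, r, m2_ext, m2_mul]
    simp
    refine ⟨?_, ?_, ?_, ?_⟩ <;> field_simp
    · ring
    · linear_combination -hab
    · linear_combination hab
    · ring
  have hu : ∀ x : K, (uu x).1 * !![0, -n; 1, 0] * ((uu x)⁻¹).1 = !![x, -n - x ^ 2; 1, -x] :=
    fun x => by simp [uu_inv, m2_ext]; ring
  refine ⟨fun a i => ρ (![r, uu 1, uu (c i)] a)⁻¹, fun β hβ i j e => ?_⟩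
  obtain ⟨μ, φ, h1, h3⟩ := h.aut β
  have m1 := hF β μ φ h1 h3 _ _ (e 0)
  have m2 := hF β μ φ h1 h3 _ _ (e 1)
  have m3 := hF β μ φ h1 h3 _ _ (e 2)
  simp only [cons_val_zero, cons_val_one, cons_val, hu] at m1 m2 m3
  have hφ := h1.odd_rigid ht h7 h9 h2 hn (hF.self h1 h3 hβ)
    ((m1.of_right hr).of_left h1 (a := 0) (b := t) (by rw [hr]; simp [smul_smul, ht0]))
    (by simpa using m2)
  refine ⟨hc ?_, h.eq_one h3 hφ⟩
  obtain ⟨x, y, e⟩ := m3
  rw [hφ, m2_ext] at e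
  simp at e
  obtain ⟨e1, -, rfl, e4⟩ := e
  exact mul_left_cancel₀ h2 (by linear_combination e4 - e1)

theorem loc_ss_even [Finite K] (h : Cov ρ) (h7 : 7 ≤ Nat.card K) (h2 : (2 : K) = 0) {n : K}
    (hF : Fam ρ B !![0, n; 1, 1]) : LocA B := by
  obtain ⟨t, ht⟩ := exists_gen K
  obtain ⟨c, hc, hc0⟩ := exists_seven' h7 h2
  have hu : (uu t).1 * !![0, n; 1, 1] * ((uu t)⁻¹).1 = t • (1 : M2 K) +
      (1 : K) • !![0, n + t + t ^ 2; 1, 1] := by
    simp [uu_inv, m2_ext]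
    constructor
    · linear_combination -t ^ 2 * h2
    · linear_combination -t * h2
  have hd : ∀ (x : K) (hx : x ≠ 0), (hh x hx).1 * !![0, n; 1, 1] * ((hh x hx)⁻¹).1 =
      !![0, x ^ 2 * n; (x ^ 2)⁻¹, 1] := fun x hx => by
    simp [sl_inv, m2_ext, hx]
    constructor <;> ring
  refine ⟨fun a i => ρ (![uu t, hh t ht.ne, hh (c i) (hc0 i)] a)⁻¹, fun β hβ i j e => ?_⟩
  obtain ⟨μ, φ, h1, h3⟩ := h.aut β
  have m1 := hF β μ φ h1 h3 _ _ (e 0)
  have m2 := hF β μ φ h1 h3 _ _ (e 1)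
  have m3 := hF β μ φ h1 h3 _ _ (e 2)
  simp only [cons_val_zero, cons_val_one, cons_val, hd] at m1 m2 m3
  have hφ := h1.even_rigid ht h7 h2 (hF.self h1 h3 hβ)
    ((m1.of_right hu).of_left h1 (a := -t) (b := 1) (by rw [hu]; simp)) m2
  refine ⟨hc ?_, h.eq_one h3 hφ⟩
  obtain ⟨x, y, e⟩ := m3
  rw [hφ, m2_ext] at e
  simp at e
  obtain ⟨rfl, -, e3, e4⟩ := e
  rw [zero_add] at e4
  rw [← e4, one_mul, _root_.inv_inj] at e3
  exact sub_eq_zero.1 (pow_eq_zero_iff (n := 2) (by norm_num) |>.1 (by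
    linear_combination -e3 + (c j ^ 2 - c i * c j) * h2))

theorem loc_par [Finite K] (h : Cov ρ) (hF : Fam ρ B !![0, 1; 0, 0]) (y z : ZMod 7 → K)
    (hyz : ∀ β ∈ B, ∀ μ φ l, Ind ρ β φ → Diag μ φ l → ∀ i j, y i = l * μ (y j) →
      z i = l * μ (z j) → i = j ∧ β = 1) : LocA B := by
  have hu : ∀ x : K, (uu x * ww).1 * !![0, 1; 0, 0] * ((uu x * ww)⁻¹).1 = (0 : K) • (1 : M2 K) +
      (-1 : K) • !![x, -x ^ 2; 1, -x] := fun x => by
    simp only [sl_inv, sl_mul, m2_ext, m2_mul]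
    simp [sq]
  refine ⟨fun a i => ρ (uu (![0, y i, z i] a) * ww)⁻¹, fun β hβ i j e => ?_⟩
  obtain ⟨μ, φ, h1, h3⟩ := h.aut β
  have m := fun a => ((hF β μ φ h1 h3 _ _ (e a)).of_right (hu _)).of_left h1 (a := 0) (b := -1)
    (X' := !![![0, y j, z j] a, -![0, y j, z j] a ^ 2; 1, -![0, y j, z j] a]) (by rw [hu]; simp)
  obtain ⟨l, hl⟩ := h1.par (hF.self h1 h3 hβ) (by simpa using m 0)
  exact hyz β hβ μ φ l h3 hl i j (hl.pt (m 1)) (hl.pt (m 2))

theorem Cov.diag_one (h : Cov ρ) {μ φ} {l : K} (h1 : Ind ρ 1 φ) (h2 : Diag μ φ l) (x : K) :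
    l * μ x = x := by
  obtain ⟨g, a1, a2⟩ := h1 (uu x)
  rw [show g = uu (l * μ x) from Subtype.ext (by rw [a1, h2.2]; simp)] at a2
  exact (h.uu_inj a2).symm

theorem loc_par_odd [Finite K] (h : Cov ρ) (h7 : 7 ≤ Nat.card K) (h2 : (2 : K) ≠ 0)
    (hF : Fam ρ B !![0, 1; 0, 0]) (hB : ∀ β ∈ B, β ^ 2 = 1 → β = 1) : LocA B := by
  obtain ⟨t, ht⟩ := exists_gen K
  have ht0 := ht.ne
  have ht4 := ht.pow_ne h7 (k := 4) (by norm_num) (by norm_num)
  obtain ⟨f⟩ := Function.Embedding.nonempty_of_card_le (α := ZMod 7) (β := Fin 2 × Fin 2 × Fin 2)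
    (by simp)
  let σ : Fin 2 → K := ![1, -1]
  let τ : Fin 2 → K := ![t, t⁻¹]
  have s1 : ∀ (μ : K →+* K) a, μ (σ a) = σ a := fun μ a => by fin_cases a <;> simp [σ]
  have s2 : ∀ a, σ a * σ a = 1 := fun a => by fin_cases a <;> simp [σ]
  have s3 : Function.Injective σ := fun a b e => by
    fin_cases a <;> fin_cases b <;> simp [σ] at e ⊢
    · exact h2 (by linear_combination e)
    · exact h2 (by linear_combination -e)
  refine loc_par h hF (fun i => σ (f i).1) (fun i => σ (f i).2.1 * τ (f i).2.2)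
    fun β hβ μ φ l h1 hl i j e1 e2 => ?_
  have hl1 : μ l = l := by
    rw [s1] at e1
    have : l = σ (f i).1 * σ (f j).1 := by rw [e1, mul_assoc, s2, mul_one]
    rw [this, map_mul, s1, s1]
  have hl2 : l * l = 1 := by
    have := s2 (f i).1
    rw [s1] at e1
    rw [e1] at this
    linear_combination this - l ^ 2 * s2 (f j).1
  have e3 : μ (τ (f j).2.2 ^ 2) = τ (f i).2.2 ^ 2 := by
    rw [map_mul, s1] at e2
    rw [map_pow]
    have := congrArg (fun x => x * x) e2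
    linear_combination -this + τ (f i).2.2 ^ 2 * s2 (f i).2.1 -
      μ (τ (f j).2.2) ^ 2 * (σ (f j).2.1 ^ 2 * hl2 + s2 (f j).2.1)
  have hμ := ht.eq_id (μ := μ.comp μ) (by
    generalize (f i).2.2 = a, (f j).2.2 = b at e3
    rw [RingHom.comp_apply]
    fin_cases a <;> fin_cases b <;> simp only [τ, cons_val_zero, cons_val_one, Fin.zero_eta,
      Fin.mk_one, inv_pow, map_inv₀, _root_.inv_inj] at e3
    · rw [e3, e3]
    · rw [inv_eq_iff_eq_inv] at e3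
      rw [e3, map_inv₀, e3, inv_inv]
    · rw [e3, map_inv₀, e3, inv_inv]
    · rw [e3, e3])
  obtain rfl := hB β hβ (sq β ▸ h.eq_one (h1.comp h1) fun X => by
    rw [RingHom.comp_apply, hl.2, hl.2]
    simp only [RingHom.comp_apply] at hμ
    simp [m2_ext, hμ, hl1, ← mul_assoc, hl2, ← mul_inv])
  rw [h.diag_one h1 hl] at e1 e2
  refine ⟨f.injective (Prod.ext (s3 e1) ?_), rfl⟩
  have e4 : (f i).2.2 = (f j).2.2 := by
    have := congrArg (fun x => x * x) e2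
    have e5 : τ (f i).2.2 ^ 2 = τ (f j).2.2 ^ 2 := by
      linear_combination this - τ (f i).2.2 ^ 2 * s2 (f i).2.1 + τ (f j).2.2 ^ 2 * s2 (f j).2.1
    generalize (f i).2.2 = a, (f j).2.2 = b at e5
    fin_cases a <;> fin_cases b <;> simp [τ] at e5 ⊢ <;> field_simp at e5
    exacts [ht4 e5, ht4 e5.symm]
  refine Prod.ext (s3 (mul_right_cancel₀ (b := τ (f j).2.2) ?_ (by rwa [e4] at e2))) e4
  generalize (f j).2.2 = b
  fin_cases b <;> simp [τ, ht0]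

theorem loc_par_even [Finite K] (h : Cov ρ) (h7 : 7 ≤ Nat.card K) (h2 : (2 : K) = 0)
    (hF : Fam ρ B !![0, 1; 0, 0])
    (hB : ∀ a ha, MulAut.conj (ρ (hh a ha)) ∈ B → a = 1) : LocA B := by
  obtain ⟨t, ht⟩ := exists_gen K
  obtain ⟨c, hc, hc0⟩ := exists_seven' h7 h2
  refine loc_par h hF c (fun i => c i * t) fun β hβ μ φ l h1 hl i j e1 e2 => ?_
  have hμ := ht.eq_id (μ := μ) (by
    rw [map_mul, ← mul_assoc, ← e1] at e2
    rw [map_pow, ← mul_left_cancel₀ (hc0 i) e2])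
  obtain ⟨s, rfl⟩ := FiniteField.isSquare_of_char_two
    (CharP.ringChar_of_prime_eq_zero Nat.prime_two (by simpa using h2)) l
  have hs := left_ne_zero_of_mul hl.1
  obtain rfl := hB s hs (by
    convert hβ using 1
    ext x
    obtain ⟨g, rfl⟩ := h.surj x
    obtain ⟨g', a1, a2⟩ := h1 g
    rw [a2, MulAut.conj_apply, ← map_inv, ← map_mul, ← map_mul]
    refine congrArg ρ (Subtype.ext ?_)
    rw [a1, hl.2]
    simp only [sl_mul, sl_inv, m2_ext, m2_mul, hμ]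
    simp
    refine ⟨?_, ?_, ?_, ?_⟩ <;> field_simp)
  exact ⟨hc (by simpa [hμ] using e1), h.eq_one h1 (hl.eq_id hμ (one_mul 1))⟩

end Pool.Agent.MP_983df8_al

end MrgPart0

-- ======== part 1: formerly Pool.Agent.MP_983df8_al.LocM
section MrgPart1

namespace Pool.Agent.MP_983df8_al

open Matrix Subgroup

variable {K : Type*} [Field K] {S : Type*} [Group S] {ρ : SL2 K →* S} {B : Subgroup (MulAut S)}
  {π : Set ℕ}

/-- normal forms of non-scalar matrices -/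
def NF (X : M2 K) : Prop :=
  ∃ a b : K, b ≠ 0 ∧ (X = a • (1 : M2 K) + b • !![0, 1; 0, 0] ∨
    ((2 : K) ≠ 0 ∧ ∃ n : K, n ≠ 0 ∧ X = a • (1 : M2 K) + b • !![0, -n; 1, 0]) ∨
    ((2 : K) = 0 ∧ ∃ n : K, X = a • (1 : M2 K) + b • !![0, n; 1, 1]))

theorem exists_nf [Finite K] {g : SL2 K} (hg : ∀ c : K, g.1 ≠ c • (1 : M2 K)) :
    ∃ s : SL2 K, NF (s * g * s⁻¹).1 := by
  have cj : ∀ (s g : SL2 K), (∃ s' : SL2 K, NF (s' * (s * g * s⁻¹) * s'⁻¹).1) →
      ∃ s' : SL2 K, NF (s' * g * s'⁻¹).1 := fun s g ⟨s', h⟩ =>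
    ⟨s' * s, by simpa only [_root_.mul_inv_rev, mul_assoc] using h⟩
  have k1 : ∀ g : SL2 K, g.1 1 0 ≠ 0 → g.1 0 1 = 0 → g.1 0 0 = g.1 1 1 →
      ∃ s : SL2 K, NF (s * g * s⁻¹).1 := fun g h1 h2 h3 =>
    ⟨ww, g.1 0 0, -g.1 1 0, neg_ne_zero.2 h1, Or.inl (by
      simp only [sl_mul, sl_inv, m2_ext, m2_mul]
      simp [h2, h3])⟩
  have k2 : ∀ g : SL2 K, g.1 1 0 ≠ 0 → ∃ s : SL2 K, NF (s * g * s⁻¹).1 := fun g h1 => by
    have hu : ∀ e : K, (uu e * g * (uu e)⁻¹).1 = !![g.1 0 0 + e * g.1 1 0,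
        g.1 0 1 + e * (g.1 1 1 - g.1 0 0) - e ^ 2 * g.1 1 0; g.1 1 0, g.1 1 1 - e * g.1 1 0] :=
      fun e => by
        simp only [sl_mul, sl_inv, m2_ext, m2_mul]
        simp
        constructor <;> ring
    by_cases h2 : (2 : K) = 0
    · have hsq := FiniteField.isSquare_of_char_two
        (CharP.ringChar_of_prime_eq_zero Nat.prime_two (by simpa using h2 : ((2 : ℕ) : K) = 0))
      by_cases h3 : g.1 0 0 = g.1 1 1
      · obtain ⟨e, he⟩ := hsq (g.1 0 1 / g.1 1 0)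
        field_simp at he
        refine cj (uu e) g (k1 _ ?_ ?_ ?_) <;> rw [hu] <;> simp [h1, h3]
        · linear_combination he
        · linear_combination e * g.1 1 0 * h2
      · have h4 : g.1 1 1 - g.1 0 0 ≠ 0 := sub_ne_zero.2 (Ne.symm h3)
        obtain ⟨e, he⟩ := hsq (g.1 1 0 / (g.1 1 1 - g.1 0 0))
        have h5 : e ≠ 0 := by
          rintro rfl
          simp [h1, h4] at he
        field_simp at he
        refine ⟨hh e h5, g.1 0 0, _, h4, Or.inr (Or.inr ⟨h2,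
          e ^ 2 * g.1 0 1 / (g.1 1 1 - g.1 0 0), ?_⟩)⟩
        simp only [sl_mul, sl_inv, m2_ext, m2_mul]
        simp
        refine ⟨?_, ?_, ?_, ?_⟩ <;> field_simp
        linear_combination he
    · obtain ⟨e, he⟩ : ∃ e, g.1 0 0 + e * g.1 1 0 = g.1 1 1 - e * g.1 1 0 :=
        ⟨(g.1 1 1 - g.1 0 0) / (2 * g.1 1 0), by field_simp; ring⟩
      refine cj (uu e) g ?_
      have a1 : (uu e * g * (uu e)⁻¹).1 1 0 ≠ 0 := by
        rw [hu]; simpa using h1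
      have a2 : (uu e * g * (uu e)⁻¹).1 0 0 = (uu e * g * (uu e)⁻¹).1 1 1 := by
        rw [hu]; simpa using he
      generalize uu e * g * (uu e)⁻¹ = k at a1 a2
      by_cases h3 : k.1 0 1 = 0
      · exact k1 k a1 h3 a2
      · refine ⟨1, k.1 0 0, _, a1, Or.inr (Or.inl ⟨h2, -k.1 0 1 / k.1 1 0,
          div_ne_zero (neg_ne_zero.2 h3) a1, ?_⟩)⟩
        simp [m2_ext, a2]
        field_simp
  by_cases h1 : g.1 1 0 = 0
  · by_cases h2 : g.1 0 1 = 0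
    · refine cj (vv 1) g (k2 _ fun e => hg (g.1 0 0) ?_)
      simp only [sl_mul, sl_inv, m2_mul] at e
      simp [h1, h2] at e
      simp [m2_ext, h1, h2]
      linear_combination -e
    · refine cj ww g (k2 _ ?_)
      simp only [sl_mul, sl_inv, m2_mul]
      simpa using h2
  · exact k2 g h1

theorem exists_dihedral [Finite S] {d w : S} (hw : w * w = 1) (hd : w * d * w⁻¹ = d⁻¹)
    (h1 : IsPi π (zpowers d)) (h2 : 2 ∈ π) : ∃ X : Subgroup S, IsPi π X ∧ d ∈ X ∧ w ∈ X := by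
  have hw' : w⁻¹ = w := inv_eq_of_mul_eq_one_right hw
  have key : ∀ y ∈ zpowers d, w * y * w = y⁻¹ := by
    rintro _ ⟨k, rfl⟩
    conv_lhs => rw [← hw']
    rw [← inv_inv w, hw', hw', ← _root_.inv_zpow, ← hd, conj_zpow, hw']
  have sq : ∀ x, x * w ∈ zpowers d → x * x = 1 := fun x hx => by
    have := key _ hx
    rw [mul_assoc, mul_assoc, hw, mul_one, eq_inv_iff_mul_eq_one, ← mul_assoc,
      mul_eq_one_iff_eq_inv, hw', mul_assoc, mul_eq_left] at this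
    exact this
  let X : Subgroup S :=
    { carrier := {x | x ∈ zpowers d ∨ x * w ∈ zpowers d}
      one_mem' := Or.inl (one_mem _)
      mul_mem' := by
        rintro x y (hx | hx) (hy | hy)
        · exact Or.inl (mul_mem hx hy)
        · exact Or.inr (mul_assoc x y w ▸ mul_mem hx hy)
        · refine Or.inr ?_
          have := mul_mem hx (key y hy ▸ inv_mem hy)
          rwa [mul_assoc, ← mul_assoc w, ← mul_assoc w, hw, one_mul, ← mul_assoc] at this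
        · refine Or.inl ?_
          have := mul_mem hx (key _ hy ▸ inv_mem hy)
          rwa [mul_assoc w, mul_assoc y, hw, mul_one, mul_assoc, ← mul_assoc w, hw, one_mul] at this
      inv_mem' := by
        rintro x (hx | hx)
        · exact Or.inl (inv_mem hx)
        · exact Or.inr (by rwa [inv_eq_of_mul_eq_one_right (sq x hx)]) }
  refine ⟨X, isPi_of_orderOf ?_, Or.inl (mem_zpowers d), Or.inr (hw ▸ one_mem _)⟩
  rintro x (hx | hx) hp
  · exact h1.orderOf_mem hx hp dvd_rfl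
  · rwa [(Nat.prime_dvd_prime_iff_eq hp Nat.prime_two).1
      (orderOf_dvd_of_pow_eq_one ((pow_two x).trans (sq x hx)))]

theorem exists_fixed [Finite S] (h3 : ¬ 3 ∣ Nat.card B) {a b : S} (hab : Commute a b)
    (ha : a * a = 1) (ha1 : a ≠ 1) (hO : ∀ β ∈ B, β a = a ∨ β a = b ∨ β a = a * b) :
    ∃ z, z ≠ 1 ∧ (z = a ∨ ∃ β ∈ B, z = a * β a) ∧ ∀ β ∈ B, β z = z := by
  by_cases h : ∀ β ∈ B, β a = a
  · exact ⟨a, ha1, Or.inl rfl, h⟩
  push Not at h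
  obtain ⟨γ, hγ, hne⟩ := h
  have h1 : MulAction.orbit B a ⊆ {a, b, a * b} := by
    rintro _ ⟨β, rfl⟩
    exact hO β β.2
  have h2 : (MulAction.orbit B a).ncard ≤ 2 := by
    have e1 := (Set.ncard_le_ncard h1).trans ((Set.ncard_insert_le _ _).trans
      (Nat.succ_le_succ ((Set.ncard_insert_le _ _).trans_eq (by rw [Set.ncard_singleton]))))
    have e2 : (MulAction.orbit B a).ncard ∣ Nat.card B :=
      MulAction.index_stabilizer B a ▸ index_dvd_card _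
    have : (MulAction.orbit B a).ncard ≠ 3 := fun e => h3 (e ▸ e2)
    omega
  have h4 : {a, γ a} = MulAction.orbit B a := Set.eq_of_subset_of_ncard_le (by
    rintro _ (rfl | rfl)
    exacts [MulAction.mem_orbit_self _, ⟨⟨γ, hγ⟩, rfl⟩]) (by rwa [Set.ncard_pair hne.symm])
  have hc : Commute a (γ a) := by
    rcases hO γ hγ with e | e | e <;> rw [e]
    exacts [hab, (Commute.refl a).mul_right hab]
  refine ⟨a * γ a, fun e => hne (mul_left_cancel (e.trans ha.symm)), Or.inr ⟨γ, hγ, rfl⟩,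
    fun β hβ => ?_⟩
  have e1 : β a ∈ ({a, γ a} : Set S) := h4 ▸ ⟨⟨β, hβ⟩, rfl⟩
  have e2 : β (γ a) ∈ ({a, γ a} : Set S) := h4 ▸ ⟨⟨β * γ, B.mul_mem hβ hγ⟩, rfl⟩
  have e3 : β (γ a) ≠ β a := fun e => hne (β.injective e)
  rw [map_mul]
  rcases e1 with e1 | e1 <;> rcases e2 with e2 | e2 <;> rw [e1, e2] at e3 ⊢
  exacts [absurd rfl e3, hc.eq.symm, absurd rfl e3]

theorem Cov.center (h : Cov ρ) {s : S} (hs : ∀ y, Commute s y) : s = 1 := by
  obtain ⟨x, rfl⟩ := h.cent_uu one_ne_zero (hs _)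
  obtain ⟨y, hy⟩ := h.cent_vv one_ne_zero (hs _)
  obtain ⟨ε, -, e⟩ := h.eq_iff.1 hy
  simp only [m2_ext, uu_val, vv_val] at e
  simp at e
  rw [e.2.1, uu_zero, map_one]

theorem Cov.conj_inj (h : Cov ρ) : Function.Injective (MulAut.conj : S →* MulAut S) := by
  rw [injective_iff_map_eq_one]
  exact fun s hs => h.center fun y => mul_inv_eq_iff_eq_mul.1 (DFunLike.congr_fun hs y)

/-- `k` and `g` commute up to the scalar `ε` -/
def Sg (k g : SL2 K) (ε : K) : Prop := k.1 * g.1 = ε • (g.1 * k.1)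

theorem Sg.mul {k k' g : SL2 K} {ε ε' : K} (h : Sg k g ε) (h' : Sg k' g ε') :
    Sg (k * k') g (ε * ε') := by
  unfold Sg at *
  rw [sl_mul, mul_assoc, h', mul_smul_comm, ← mul_assoc, h, smul_mul_assoc, smul_smul, mul_comm ε',
    mul_assoc]

theorem Cov.sg (h : Cov ρ) {k g : SL2 K} (e : Commute (ρ k) (ρ g)) : Sg k g 1 ∨ Sg k g (-1) := by
  obtain ⟨ε, h1, h2⟩ := h.eq_iff.1 ((map_mul ρ _ _).trans (e.eq.trans (map_mul ρ _ _).symm))
  rcases mul_self_eq_one_iff.1 h1 with rfl | rfl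
  exacts [Or.inl h2, Or.inr h2]

theorem Cov.klein (h : Cov ρ) {g m : SL2 K} (h1 : Sg g m (-1)) (h2 : ¬ Sg g m 1) :
    ρ g ≠ 1 ∧ ρ g * ρ g = 1 ∧ ∀ k, Commute k (ρ g) → Commute k (ρ m) →
      k = 1 ∨ k = ρ g ∨ k = ρ m ∨ k = ρ g * ρ m := by
  have hg : ∀ c : K, g.1 ≠ c • (1 : M2 K) := fun c e => h2 (by simp [Sg, e])
  have h0 : ∀ k, Sg k g 1 → Sg k m 1 → ρ k = 1 := fun k a1 a2 => by
    obtain ⟨a, b, e⟩ := cent_alg hg (a1.trans (one_smul _ _))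
    by_contra hc
    have hb : b ≠ 0 := fun e' => h.not_scalar hc a (by simpa [e'] using e)
    refine h2 (smul_right_injective _ hb ?_)
    simpa [Sg, e, add_mul, mul_add] using a2
  have gg : Sg g g 1 := (one_smul _ _).symm
  have mm : Sg m m 1 := (one_smul _ _).symm
  have mg : Sg m g (-1) := by
    unfold Sg at *
    rw [h1]; simp
  have a1 : ρ g * ρ g = 1 := by
    rw [← map_mul]
    exact h0 _ (by simpa using gg.mul gg) (by simpa using h1.mul h1)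
  have a2 : ρ m * ρ m = 1 := by
    rw [← map_mul]
    exact h0 _ (by simpa using mg.mul mg) (by simpa using mm.mul mm)
  refine ⟨fun e => ?_, a1, fun k b1 b2 => ?_⟩
  · obtain ⟨c, -, e⟩ := (h.ker g).1 e
    exact hg c e
  obtain ⟨k, rfl⟩ := h.surj k
  rcases h.sg b1 with c1 | c1 <;> rcases h.sg b2 with c2 | c2
  · exact Or.inl (h0 k c1 c2)
  · refine Or.inr (Or.inl (mul_right_cancel (a1.symm ▸ ?_ : _ * ρ g = _)))
    rw [← map_mul]
    exact h0 _ (by simpa using c1.mul gg) (by simpa using c2.mul h1)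
  · refine Or.inr (Or.inr (Or.inl (mul_right_cancel (a2.symm ▸ ?_ : _ * ρ m = _))))
    rw [← map_mul]
    exact h0 _ (by simpa using c1.mul mg) (by simpa using c2.mul mm)
  · refine Or.inr (Or.inr (Or.inr (mul_right_cancel (b := ρ m * ρ g) ?_)))
    rw [mul_assoc, ← mul_assoc (ρ m), a2, one_mul, a1, ← map_mul, ← map_mul]
    exact h0 _ (by simpa using c1.mul (mg.mul gg)) (by simpa using c2.mul (mm.mul h1))

theorem Fam.upper (h : Fam ρ B !![0, 1; 0, 0]) {m : SL2 K} (hm : MulAut.conj (ρ m) ∈ B) :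
    m.1 1 0 = 0 := by
  obtain ⟨a, b, e⟩ := h 1 (RingHom.id K) (RingHom.id _) ⟨fun _ _ => rfl, fun _ => rfl, fun _ => rfl⟩
    (fun g => ⟨g, rfl, rfl⟩) 1 m (by simpa using hm)
  simp only [sl_inv, m2_ext, m2_mul, RingHom.id_apply] at e
  simpa using e.2.2.1

theorem par_odd_not_two [Finite K] [Finite S] (h : Cov ρ) (h2 : (2 : K) ≠ 0)
    (hF : Fam ρ B !![0, 1; 0, 0]) (hJ : IsHall π (B.comap MulAut.conj)) : 2 ∉ π := fun hπ => by
  obtain ⟨a, b, hab⟩ := norm_surj (K := K) one_ne_zero (-1)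
  let j : SL2 K := ⟨!![a, b; b, -a], by rw [det_fin_two_of]; linear_combination -hab⟩
  have e1 : Sg ww j (-1) := by simp [Sg, j, m2_ext]
  have e2 : ¬ Sg ww j 1 := fun e => by
    simp [Sg, j, m2_ext] at e
    have a1 : b = 0 := mul_left_cancel₀ h2 (by linear_combination e.1.1)
    have a2 : a = 0 := mul_left_cancel₀ h2 (by linear_combination -e.1.2)
    simp [a1, a2] at hab
  have e3 : Sg j ww (-1) := by simp [Sg, j, m2_ext]
  have e4 : ¬ Sg j ww 1 := fun e => e2 (by unfold Sg at *; rw [one_smul] at *; exact e.symm)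
  have hc : Commute (ρ ww) (ρ j) := by
    rw [Commute, SemiconjBy, ← map_mul, ← map_mul]
    exact h.eq_iff.2 ⟨-1, by simp, e1⟩
  have hj := (h.klein e3 e4).2.1
  obtain ⟨X, x1, x2, x3⟩ := exists_dihedral (π := {2}) (d := ρ j) (h.klein e1 e2).2.1
    (by rw [hc.eq, mul_inv_cancel_right, inv_eq_of_mul_eq_one_right hj])
    (fun p hp hd => (Nat.prime_dvd_prime_iff_eq hp Nat.prime_two).1 (hd.trans (by
      rw [Nat.card_zpowers]
      exact orderOf_dvd_of_pow_eq_one ((pow_two _).trans hj)))) rfl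
  obtain ⟨x, hx⟩ := exists_conj_of_isPGroup Nat.prime_two (hJ.2 2 Nat.prime_two hπ)
    (x1.isPGroup Nat.prime_two)
  obtain ⟨s, rfl⟩ := h.surj x
  have a1 := hF.upper (m := s * j * s⁻¹) (by simpa using mem_conjBy.1 (hx x2))
  have a2 := hF.upper (m := s * ww * s⁻¹) (by simpa using mem_conjBy.1 (hx x3))
  have a3 : Sg (s * ww * s⁻¹) (s * j * s⁻¹) (-1) := by
    unfold Sg at *
    rw [← sl_mul, ← sl_mul, conj_mul, conj_mul, sl_mul, sl_mul, sl_mul, e1, sl_mul, sl_mul, sl_mul,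
      mul_smul_comm, smul_mul_assoc]
  have d1 := sl_det (s * j * s⁻¹)
  have d2 := sl_det (s * ww * s⁻¹)
  generalize s * j * s⁻¹ = j' at a1 a3 d1
  generalize s * ww * s⁻¹ = w' at a2 a3 d2
  have a4 := congrFun (congrFun a3 0) 0
  simp only [Matrix.smul_apply, m2_mul, a1, a2, smul_eq_mul] at a4 d1 d2
  exact h2 (by linear_combination j'.1 1 1 * w'.1 1 1 * a4 - 2 * w'.1 0 0 * w'.1 1 1 * d1 - 2 * d2)

theorem Cov.eq_top (h : Cov ρ) {L : Subgroup S}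
    (hU : ∀ x, ρ (uu x) ∈ L) {m : SL2 K} (hm : ρ m ∈ L) (hm' : m.1 1 0 ≠ 0) : L = ⊤ := by
  have hV : ∀ y, ρ (vv y) ∈ L := fun y => by
    have := L.mul_mem (L.mul_mem (hU (-(m.1 0 0 / m.1 1 0))) (L.mul_mem (L.mul_mem hm
      (hU (-y / m.1 1 0 ^ 2))) (L.inv_mem hm))) (hU (m.1 0 0 / m.1 1 0))
    rw [← map_inv, ← map_mul, ← map_mul, ← map_mul, ← map_mul] at this
    convert this using 2
    refine Subtype.ext ?_
    rw [sl_mul, sl_mul, conj_uu]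
    simp only [m2_ext, m2_mul]
    simp
    refine ⟨?_, ?_, ?_, ?_⟩ <;> field_simp <;> ring
  refine eq_top_iff.2 fun s _ => ?_
  obtain ⟨g, rfl⟩ := h.surj s
  exact sl_gen (fun g => ρ g ∈ L) hU hV (fun a b ha hb => map_mul ρ a b ▸ L.mul_mem ha hb) g

theorem trace_conj (s g : SL2 K) : (s⁻¹ * g * s).1.trace = g.1.trace := by
  rw [sl_mul, trace_mul_comm, ← sl_mul, mul_inv_cancel_left]

theorem exists_uu_le [Finite S] (ρ : SL2 K →* S) {p : ℕ} (hp : p.Prime) (h0 : (p : K) = 0)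
    {L : Subgroup S} (hL : ¬ p ∣ L.index) : ∃ x, ∀ y, ρ (uu y) ∈ conjBy L x := by
  obtain ⟨x, hx⟩ := exists_conj_of_isPGroup hp hL (Q := (MonoidHom.mk'
    (fun x : Multiplicative K => ρ (uu x.toAdd)) fun a b => by
      rw [toAdd_mul, uu_add, map_mul]).range) (by
    rintro ⟨_, y, rfl⟩
    refine ⟨1, Subtype.ext ?_⟩
    show ρ (uu _) ^ p ^ 1 = 1
    rw [pow_one, ← map_pow, uu_pow, h0, zero_mul, uu_zero, map_one])
  exact ⟨x, fun y => hx ⟨Multiplicative.ofAdd y, rfl⟩⟩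

theorem par_even_diag [Finite S] (h : Cov ρ) (h2 : (2 : K) = 0) (hπ : 2 ∈ π) {J : Subgroup S}
    (hJ : IsPi π J) (hW : ∀ X : Subgroup S, IsPi π X → ∃ L, IsHall π L ∧ X ≤ L)
    (hpi : ¬ IsPi π (⊤ : Subgroup S)) {a : K} (ha : a ≠ 0) (hm : ρ (hh a ha) ∈ J) : a = 1 := by
  have e : ww * hh a ha * ww⁻¹ = (hh a ha)⁻¹ := Subtype.ext (by simp [sl_inv])
  obtain ⟨X, x1, x2, x3⟩ := exists_dihedral (π := π) (d := ρ (hh a ha)) (w := ρ ww)
    (by rw [← map_mul, h.ker]; exact ⟨-1, by simp, by simp [sl_mul, m2_ext]⟩)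
    (by rw [← map_inv, ← map_mul, ← map_mul, e, map_inv]) (hJ.mono (zpowers_le.2 hm)) hπ
  obtain ⟨L, l1, l2⟩ := hW X x1
  obtain ⟨x, hx⟩ := exists_uu_le ρ Nat.prime_two (by simpa using h2) (l1.2 2 Nat.prime_two hπ)
  obtain ⟨s, rfl⟩ := h.surj x
  have key : ∀ m, ρ m ∈ X → (s⁻¹ * m * s).1 1 0 = 0 := fun m hm => by
    by_contra hc
    exact hpi (h.eq_top hx (mem_conjBy.2 (by simpa [mul_assoc] using l2 hm)) hc ▸ (l1.conjBy _).1)
  have a1 := key _ x2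
  have a2 := key _ x3
  have a3 : (s⁻¹ * ww * s) * (s⁻¹ * hh a ha * s) = (s⁻¹ * hh a ha * s)⁻¹ * (s⁻¹ * ww * s) := by
    rw [_root_.mul_inv_rev, _root_.mul_inv_rev, ← e]
    group
  have a4 := trace_conj s (hh a ha)
  have d2 := sl_det (s⁻¹ * ww * s)
  generalize s⁻¹ * hh a ha * s = m at a1 a3 a4
  generalize s⁻¹ * ww * s = w at a2 a3 d2
  have a5 := congrFun (congrFun (congrArg Subtype.val a3) 0) 0
  simp only [sl_mul, sl_inv, m2_mul, a1, a2] at a5 d2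
  simp [trace_fin_two] at a4 a5
  have a6 : a + a⁻¹ = 0 := by
    linear_combination -a4 + m.1 0 0 * h2 - w.1 1 1 * a5 + (m.1 0 0 - m.1 1 1) * d2
  field_simp at a6
  exact sub_eq_zero.1 (pow_eq_zero_iff (n := 2) (by norm_num) |>.1 (by
    linear_combination a6 - a * h2))

theorem loc_inv [Finite K] [Finite S] (h : Cov ρ) (h7 : 7 ≤ Nat.card K) (h9 : Nat.card K ≠ 9)
    (hB : IsPi π B) (hJ : IsHall π (B.comap MulAut.conj))
    (hW : ∀ X : Subgroup S, IsPi π X → ∃ L, IsHall π L ∧ X ≤ L) (hpi : ¬ IsPi π (⊤ : Subgroup S))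
    {g : SL2 K} (h1 : ρ g ≠ 1) (h2 : MulAut.conj (ρ g) ∈ B) (hI : InvB ρ B g) : LocA B := by
  obtain ⟨s, a, b, hb, hs⟩ := exists_nf (h.not_scalar h1)
  have h' := h.conj s⁻¹
  have e : ∀ m, (ρ.comp (MulAut.conj s⁻¹).toMonoidHom) (s * m * s⁻¹) = ρ m := fun m => by
    simp [mul_assoc]
  have hI' : InvB (ρ.comp (MulAut.conj s⁻¹).toMonoidHom) B (s * g * s⁻¹) := fun β hβ => by
    obtain ⟨m, m1, m2⟩ := hI β hβ
    exact ⟨s * m * s⁻¹, by rw [e, e, m1], m2.map (MulAut.conj s)⟩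
  rw [← e] at h1 h2
  generalize ρ.comp (MulAut.conj s⁻¹).toMonoidHom = ρ' at h' hI' h1 h2
  generalize s * g * s⁻¹ = k at hs hI' h1 h2
  rcases hs with hs | ⟨c1, n, hn, hs⟩ | ⟨c1, n, hs⟩
  · have hF := h'.fam h1 hI' hb hs
    by_cases c2 : (2 : K) = 0
    · refine loc_par_even h' h7 c2 hF fun a' ha hm => par_even_diag h' c2 ?_ hJ.1 hW hpi ha hm
      by_contra hπ
      refine h1 (hJ.1.eq_one Nat.prime_two hπ ?_ h2)
      have hd := sl_det k
      rw [← map_pow, h'.ker]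
      refine ⟨1, by simp, ?_⟩
      rw [sq, sl_mul]
      simp only [hs, m2_ext, m2_mul] at hd ⊢
      simp at hd ⊢
      exact ⟨hd, by linear_combination a * b * c2, hd⟩
    · exact loc_par_odd h' h7 c2 hF fun β hβ e =>
        hB.eq_one Nat.prime_two (par_odd_not_two h' c2 hF hJ) e hβ
  · exact loc_ss_odd h' h7 h9 c1 hn (h'.fam h1 hI' hb hs)
  · exact loc_ss_even h' h7 c1 (h'.fam h1 hI' hb hs)

theorem loc_L2 [Finite K] [Finite S] (h : Cov ρ) (h7 : 7 ≤ Nat.card K) (h9 : Nat.card K ≠ 9)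
    [Group.IsSolvable B] (hB : IsPi π B) (hJ : IsHall π (B.comap MulAut.conj))
    (hW : ∀ X : Subgroup S, IsPi π X → ∃ L, IsHall π L ∧ X ≤ L) (hpi : ¬ IsPi π (⊤ : Subgroup S))
    (hK : 2 ∈ π → 3 ∈ π → ∀ g m : SL2 K, Sg g m (-1) → ¬ Sg g m 1 → ∀ T : Set S, ρ g ∈ T → ρ m ∈ T →
      (∀ x ∈ T, MulAut.conj x ∈ B) → (∀ x ∈ T, ∀ y ∈ T, Commute x y) →
      (∀ β ∈ B, ∀ x ∈ T, β x ∈ T) → False) : LocA B := by
  by_cases h0 : ∀ s : S, MulAut.conj s ∈ B → s = 1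
  · exact loc_zero h h7 h0
  push Not at h0
  obtain ⟨s0, s1, s2⟩ := h0
  have hconj : ∀ (β : MulAut S) (s : S), MulAut.conj (β s) = β * MulAut.conj s * β⁻¹ :=
    fun β s => by ext x; simp
  have : ((MulAut.conj : S →* MulAut S).range.subgroupOf B).Normal := ⟨by
    rintro β ⟨s, hs⟩ γ
    exact ⟨γ.1 s, by rw [hconj, hs]; rfl⟩⟩
  obtain ⟨F, f1, f2, f3, f4⟩ := exists_layer (U := ⊥)
    (E := (MulAut.conj : S →* MulAut S).range.subgroupOf B) fun e =>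
      s2 (h.conj_inj ((congrArg Subtype.val (mem_bot.1 (e (x := ⟨_, s1⟩) ⟨s0, rfl⟩))).trans
        (map_one _).symm))
  let T := (F.map B.subtype).comap MulAut.conj
  have t1 : ∀ x ∈ T, MulAut.conj x ∈ B := fun x hx => map_subtype_le F hx
  have t2 : ∀ x ∈ T, ∀ y ∈ T, Commute x y := by
    rintro x ⟨a, ha, ea⟩ y ⟨b, hb, eb⟩
    refine h.conj_inj ?_
    rw [map_mul, map_mul, ← ea, ← eb]
    exact congrArg Subtype.val (commutatorElement_eq_one_iff_commute.1 (f4 a ha b hb)).eq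
  have t3 : ∀ β ∈ B, ∀ x ∈ T, β x ∈ T := by
    rintro β hβ x ⟨a, ha, ea⟩
    exact ⟨_, f1.conj_mem a ha ⟨β, hβ⟩, by rw [hconj, ← ea]; rfl⟩
  by_cases hc : ∀ g m, ρ g ∈ T → ρ m ∈ T → Sg g m 1
  · obtain ⟨a, ha, ha'⟩ := SetLike.not_le_iff_exists.1 f3
    obtain ⟨x, hx⟩ := f2 ha
    obtain ⟨g, rfl⟩ := h.surj x
    have hg : ρ g ∈ T := ⟨a, ha, hx.symm⟩
    refine loc_inv h h7 h9 hB hJ hW hpi (fun e => ha' (Subtype.ext ?_)) (t1 _ hg) fun β hβ => ?_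
    · rw [e, map_one] at hx
      exact hx.symm
    · obtain ⟨m, hm⟩ := h.surj (β (ρ g))
      exact ⟨m, hm.symm, Subtype.ext ((hc m g (hm ▸ t3 β hβ _ hg) hg).trans (one_smul _ _))⟩
  push Not at hc
  obtain ⟨g, m, hg, hm, hgm⟩ := hc
  have hgm' := (h.sg (t2 _ hg _ hm)).resolve_left hgm
  obtain ⟨k1, k2, k3⟩ := h.klein hgm' hgm
  have h3 : 3 ∉ π := fun h3 => hK (by
    by_contra h2
    exact k1 (hJ.1.eq_one Nat.prime_two h2 ((pow_two _).trans k2) (t1 _ hg))) h3 g m hgm' hgm T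
    hg hm t1 t2 t3
  obtain ⟨z, z1, z2, z3⟩ := exists_fixed (B := B) (fun e => h3 (hB 3 Nat.prime_three e))
    (t2 _ hg _ hm) k2 k1 fun β hβ => (k3 _ (t2 _ (t3 β hβ _ hg) _ hg)
      (t2 _ (t3 β hβ _ hg) _ hm)).resolve_left fun e => k1 (β.injective (e.trans (map_one β).symm))
  obtain ⟨k, rfl⟩ := h.surj z
  refine loc_inv h h7 h9 hB hJ hW hpi z1 (t1 _ ?_) fun β hβ => ⟨k, z3 β hβ, Commute.refl k⟩
  rcases z2 with e | ⟨β, hβ, e⟩ <;> rw [e]
  exacts [hg, T.mul_mem hg (t3 β hβ _ hg)]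

end Pool.Agent.MP_983df8_al

end MrgPart1

-- marker of a merged file
example : 731051 + 723 = 731051 + 723 := rfl
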