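import Pool.Agent.MP_983df8_al.Red
import Pool.Agent.MP_983df8_al.LocM

namespace Pool.Agent.MP_983df8_al

open Matrix Matrix.SpecialLinearGroup

variable {ι K : Type*} [Fintype ι] [DecidableEq ι] [Field K]
variable {g g' : SLn ι K} {v f v' f' : ι → K}
variable {S : Type*} [Group S] {ρ : SLn ι K →* S} {β β' : MulAut S} {μ μ' : K →+* K}
variable {A B A' B' : Matrix ι ι K} {π : Set ℕ}

/-- `β` is induced by a semilinear map -/
def Rp (ρ : SLn ι K →* S) (β : MulAut S) (μ : K →+* K) (A B : Matrix ι ι K) : Prop :=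
  ∃ e : B * A = 1, ∀ g, β (ρ g) = ρ (sem μ A B e g)

/-- `β` is induced by a correlation -/
def Rm (ρ : SLn ι K →* S) (β : MulAut S) (μ : K →+* K) (A B : Matrix ι ι K) : Prop :=
  ∃ e : B * A = 1, ∀ g, β (ρ g) = ρ (sem μ A B e (tau g))

theorem CovN.rp_or_rm [Finite K] [Finite S] (h : CovN ρ) (β : MulAut S) :
    ∃ μ A B, Rp ρ β μ A B ∨ Rm ρ β μ A B := by
  obtain ⟨μ, A, B, e, a⟩ := (h.comp β).aut h
  exact ⟨μ, A, B, a.imp (fun a => ⟨e, a⟩) fun a => ⟨e, a⟩⟩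

theorem sem_one (e : B * A = 1) (e' : B' * A' = 1) : B'.map μ * B * (A * A'.map μ) = 1 := by
  rw [mul_assoc, ← mul_assoc B, e, one_mul, ← Matrix.map_mul, e',
    Matrix.map_one _ μ.map_zero μ.map_one]

theorem sem_sem (e : B * A = 1) (e' : B' * A' = 1) (g : SLn ι K) :
    sem μ A B e (sem μ' A' B' e' g) =
      sem (μ.comp μ') (A * A'.map μ) (B'.map μ * B) (sem_one e e') g := Subtype.ext (by
  simp only [sem_val, Matrix.map_mul, mul_assoc, Matrix.map_map, RingHom.coe_comp])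

theorem tr_one (e : B * A = 1) : Aᵀ * Bᵀ = 1 := by rw [← transpose_mul, e, transpose_one]

theorem Rp.mul (h : Rp ρ β μ A B) (h' : Rp ρ β' μ' A' B') :
    Rp ρ (β * β') (μ.comp μ') (A * A'.map μ) (B'.map μ * B) :=
  ⟨sem_one h.1 h'.1, fun g => by rw [MulAut.mul_apply, h'.2, h.2, sem_sem]⟩

theorem Rp.mul_rm (h : Rp ρ β μ A B) (h' : Rm ρ β' μ' A' B') :
    Rm ρ (β * β') (μ.comp μ') (A * A'.map μ) (B'.map μ * B) :=
  ⟨sem_one h.1 h'.1, fun g => by rw [MulAut.mul_apply, h'.2, h.2, sem_sem]⟩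

theorem Rm.mul_rp (h : Rm ρ β μ A B) (h' : Rp ρ β' μ' A' B') :
    Rm ρ (β * β') (μ.comp μ') (A * B'ᵀ.map μ) (A'ᵀ.map μ * B) :=
  ⟨sem_one h.1 (tr_one h'.1), fun g => by
    rw [MulAut.mul_apply, h'.2, h.2, tau_sem _ (tr_one h'.1), sem_sem]⟩

theorem Rm.mul (h : Rm ρ β μ A B) (h' : Rm ρ β' μ' A' B') :
    Rp ρ (β * β') (μ.comp μ') (A * B'ᵀ.map μ) (A'ᵀ.map μ * B) :=
  ⟨sem_one h.1 (tr_one h'.1), fun g => by
    rw [MulAut.mul_apply, h'.2, h.2, tau_sem _ (tr_one h'.1), sem_sem, tau_tau]⟩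

theorem rp_conj (s : SLn ι K) : Rp ρ (MulAut.conj (ρ s)) (RingHom.id K) s.1 (s⁻¹).1 :=
  ⟨sn_inv_mul s, fun g => by
    rw [MulAut.conj_apply, ← map_inv, ← map_mul, ← map_mul]
    exact congrArg ρ (Subtype.ext (by simp [sem_val]))⟩

theorem Rp.conj (h : Rp ρ β μ A B) (x y : SLn ι K) : ∃ B',
    Rp ρ (MulAut.conj (ρ x) * β * (MulAut.conj (ρ y))⁻¹) μ (x.1 * A * (y⁻¹).1.map μ) B' :=
  ⟨_, by simpa [-coe_inv] using ((rp_conj x).mul h).mul (rp_conj y⁻¹)⟩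

theorem Rm.conj (h : Rm ρ β μ A B) (x y : SLn ι K) : ∃ B',
    Rm ρ (MulAut.conj (ρ x) * β * (MulAut.conj (ρ y))⁻¹) μ (x.1 * A * y.1ᵀ.map μ) B' :=
  ⟨_, by simpa [-coe_inv] using ((rp_conj x).mul_rm h).mul_rp (rp_conj y⁻¹)⟩

theorem Rp.pow (h : Rp ρ β μ A B) (k : ℕ) : ∃ μ A B, Rp ρ (β ^ k) μ A B := by
  induction k with
  | zero => exact ⟨_, _, _, by simpa using rp_conj (ρ := ρ) 1⟩
  | succ k ih =>
    obtain ⟨_, _, _, ih⟩ := ih
    exact ⟨_, _, _, pow_succ β k ▸ ih.mul h⟩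

theorem Rm.odd (h : Rm ρ β μ A B) {k : ℕ} (hk : β ^ (2 * k + 1) = 1) :
    ∃ μ A B, Rp ρ β μ A B := by
  obtain ⟨_, _, _, a⟩ := (h.mul h).pow (k + 1)
  rw [← sq, ← pow_mul, mul_add, mul_one, pow_succ, hk, one_mul] at a
  exact ⟨_, _, _, a⟩

theorem Rp.tv (h : Rp ρ β μ A B) (a : Tv g v f) :
    ∃ g', Tv g' (A *ᵥ (μ ∘ v)) ((μ ∘ f) ᵥ* B) ∧ β (ρ g) = ρ g' :=
  ⟨_, a.sem h.1, h.2 g⟩

theorem Rm.tv (h : Rm ρ β μ A B) (a : Tv g v f) :
    ∃ g', Tv g' (A *ᵥ (μ ∘ f)) ((μ ∘ (-v)) ᵥ* B) ∧ β (ρ g) = ρ g' :=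
  ⟨_, a.tau.sem h.1, h.2 g⟩

theorem Rp.eq_conj (h : Rp ρ β μ A B) (hρ : CovN ρ) (h1 : ∀ x, μ x = x) {c : K} {s : SLn ι K}
    (h2 : A = c • s.1) : β = MulAut.conj (ρ s) := by
  ext y
  obtain ⟨g, rfl⟩ := hρ.surj y
  obtain ⟨e, h⟩ := h
  have e1 : (s⁻¹).1 = c • B := by
    rw [← one_mul (s⁻¹).1, ← e, h2, mul_assoc, smul_mul, sn_mul_inv, Matrix.mul_smul, mul_one]
  rw [h, MulAut.conj_apply, ← map_inv, ← map_mul, ← map_mul]
  refine congrArg ρ (Subtype.ext ?_)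
  rw [sem_val, sn_mul, sn_mul, e1, h2, show g.1.map μ = g.1 from Matrix.ext fun _ _ => h1 _,
    smul_mul, smul_mul, Matrix.mul_smul]

theorem cube_alg {R : Type*} [Ring R] [Algebra K R] {N M : R} {c : K} (hN : N * N = 0)
    (hM : M * M = 0) (h1 : N * (M * N) = c • N) (h2 : M * (N * M) = c • M) :
    (c = -3 → ((1 + N) * (1 + M)) ^ 3 = 1) ∧ (c = -2 → ((1 + N) * (1 + M)) ^ 4 = 1) ∧
      (c = 0 → (N + M + N * M) ^ 3 = 0) := by
  have a1 : ∀ Y, N * (N * Y) = 0 := fun Y => by rw [← mul_assoc, hN, zero_mul]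
  have a2 : ∀ Y, M * (M * Y) = 0 := fun Y => by rw [← mul_assoc, hM, zero_mul]
  have a3 : ∀ Y, N * (M * (N * Y)) = c • (N * Y) := fun Y => by
    rw [← mul_assoc M, ← mul_assoc, h1, smul_mul_assoc]
  have a4 : ∀ Y, M * (N * (M * Y)) = c • (M * Y) := fun Y => by
    rw [← mul_assoc N, ← mul_assoc, h2, smul_mul_assoc]
  refine ⟨?_, ?_, ?_⟩ <;> rintro rfl <;>
    simp only [pow_succ, pow_zero, mul_add, add_mul, mul_assoc, one_mul, mul_one, a1, a2, a3, a4,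
      hN, hM, h1, h2, mul_smul_comm, smul_mul_assoc, mul_zero, zero_mul, smul_zero, add_zero] <;>
    module

theorem IsPi.mem_of_pow [Finite S] {J : Subgroup S} (hJ : IsPi π J) {r k : ℕ} (hr : r.Prime) {s : S}
    (hs : s ∈ J) (h1 : s ≠ 1) (h : s ^ r ^ k = 1) : r ∈ π := by
  obtain ⟨j, -, hj⟩ := (Nat.dvd_prime_pow hr).1 (orderOf_dvd_of_pow_eq_one h)
  refine hJ.orderOf_mem hs hr (hj ▸ dvd_pow_self r ?_)
  rintro rfl
  exact h1 (orderOf_eq_one_iff.1 hj)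

theorem CovN.two_three [Finite S] (h : CovN ρ) {J : Subgroup S} (hJ : IsPi π J)
    (hp : ∀ r : ℕ, r.Prime → (r : K) = 0 → r ∈ π) (ht : ∀ (s : K) t, Tv t v (s • f) → ρ t ∈ J)
    (h0 : f ⬝ᵥ v = 0) (hx : Tv g' v' f') (hx' : ρ g' ∈ J) (a : f ⬝ᵥ v' ≠ 0) (b : f' ⬝ᵥ v ≠ 0) :
    2 ∈ π ∧ 3 ∈ π := by
  have key : ∀ c : K, c ≠ 0 → ∃ s ∈ J, s ≠ 1 ∧ (c = -3 → s ^ 3 ^ 1 = 1) ∧
      (c = -2 → s ^ 2 ^ 2 = 1) := fun c hc => by
    obtain ⟨t, e⟩ := exists_tv (v := v) (f := (c / ((f ⬝ᵥ v') * (f' ⬝ᵥ v))) • f) (by simp [h0])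
    have := cube_alg (N := vecMulVec v ((c / ((f ⬝ᵥ v') * (f' ⬝ᵥ v))) • f)) (M := vecMulVec v' f')
      (c := c) (by simp [vecMulVec_mul_vecMulVec, h0]) (by simp [vecMulVec_mul_vecMulVec, hx.dot])
      (by
        simp only [vecMulVec_mul_vecMulVec, smul_dotProduct, vecMulVec_smul, smul_smul, smul_eq_mul,
          mul_smul_comm, smul_mul_assoc]
        congr 1
        field_simp)
      (by
        simp only [vecMulVec_mul_vecMulVec, smul_dotProduct, vecMulVec_smul, smul_smul, smul_eq_mul,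
          mul_smul_comm, smul_mul_assoc]
        congr 1
        field_simp)
    rw [← e, ← hx, ← sn_mul] at this
    refine ⟨ρ (t * g'), map_mul ρ t g' ▸ J.mul_mem (ht _ t e) hx', fun e' => ?_,
      fun e' => by rw [← map_pow, show (t * g') ^ 3 ^ 1 = 1 from Subtype.ext (this.1 e'), map_one],
      fun e' => by rw [← map_pow, show (t * g') ^ 2 ^ 2 = 1 from Subtype.ext (this.2.1 e'), map_one]⟩
    obtain ⟨d, hd⟩ := (h.ker _).1 e'
    have := congrArg (fun X => f' ⬝ᵥ X *ᵥ v') hd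
    simp only [sn_mul, ← mulVec_mulVec, hx.act, e.act, hx.dot, zero_smul, add_zero, smul_mulVec,
      one_mulVec, dotProduct_add, dotProduct_smul, smul_dotProduct, smul_eq_mul, mul_zero,
      zero_add] at this
    simp [hc, a, b] at this
  constructor
  · by_cases e : ((2 : ℕ) : K) = 0
    · exact hp 2 Nat.prime_two e
    obtain ⟨s, a1, a2, -, a3⟩ := key (-2) (neg_ne_zero.2 (by simpa using e))
    exact hJ.mem_of_pow Nat.prime_two a1 a2 (a3 rfl)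
  · by_cases e : ((3 : ℕ) : K) = 0
    · exact hp 3 Nat.prime_three e
    obtain ⟨s, a1, a2, a3, -⟩ := key (-3) (neg_ne_zero.2 (by simpa using e))
    exact hJ.mem_of_pow Nat.prime_three a1 a2 (a3 rfl)

theorem CovN.upper [Finite S] [LinearOrder ι] (h : CovN ρ) {J : Subgroup S} (hJ : IsPi π J)
    (hp : ∀ r : ℕ, r.Prime → (r : K) = 0 → r ∈ π) (h23 : 2 ∉ π ∨ 3 ∉ π)
    (hU : ∀ u ∈ UU ι K, ρ u ∈ J) (e : B * A = 1)
    (ht : ∀ a b, a < b → ∀ (s : K) t, Tv t (A.col a) (s • B.row b) → ρ t ∈ J) :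
    A.IsUpperTriangular := by
  intro i j hij
  induction j using WellFoundedLT.induction generalizing i with
  | _ j ih =>
    by_contra hne
    have hij' : j < i := hij
    obtain ⟨b, b1, b2⟩ : ∃ b, j < b ∧ B b j ≠ 0 := by
      by_contra hcon
      push Not at hcon
      have e1 : ∀ k, j < k → (A * B) k j = A k j * B j j := fun k hk => by
        rw [mul_apply, Finset.sum_eq_single_of_mem j (Finset.mem_univ _) fun l _ hl => ?_]
        rcases hl.lt_or_gt with c | c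
        · rw [ih l c (c.trans hk), zero_mul]
        · rw [hcon l c, mul_zero]
      have e2 : (A * B) j j = A j j * B j j := by
        rw [mul_apply, Finset.sum_eq_single_of_mem j (Finset.mem_univ _) fun l _ hl => ?_]
        rcases hl.lt_or_gt with c | c
        · rw [ih l c c, zero_mul]
        · rw [hcon l c, mul_zero]
      have e3 := e1 i hij'
      rw [mul_eq_one_comm.1 e, one_apply_ne hij'.ne', eq_comm, mul_eq_zero, or_iff_right hne] at e3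
      rw [mul_eq_one_comm.1 e, one_apply_eq, e3, mul_zero] at e2
      exact one_ne_zero e2
    have := h.two_three hJ hp (ht j b b1) (by
        have := congrFun (congrFun e b) j
        rwa [one_apply_ne b1.ne'] at this)
      (tv_x hij'.ne 1) (hU _ (x_mem_UU hij' 1)) (by simpa using b2) (by simpa using hne)
    tauto

end Pool.Agent.MP_983df8_al
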