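import Mathlib.LinearAlgebra.Matrix.Permutation
import Pool.Agent.MP_983df8_al.LocN

namespace Pool.Agent.MP_983df8_al

open Matrix Matrix.SpecialLinearGroup

variable {ι K : Type*} [Fintype ι] [DecidableEq ι] [Field K]
variable {S : Type*} [Group S] {ρ : SLn ι K →* S} {β : MulAut S} {μ : K →+* K}
variable {A B W W' : Matrix ι ι K} {π : Set ℕ} {r : Equiv.Perm ι}

/-- monomial matrices with permutation `r` -/
def Anti (r : Equiv.Perm ι) (W : Matrix ι ι K) : Prop :=
  (∀ i j, j ≠ r i → W i j = 0) ∧ ∀ i, W i (r i) ≠ 0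

omit [DecidableEq ι] in
theorem Anti.mul_left (h : Anti r W) (M : Matrix ι ι K) (i j : ι) :
    (W * M) i j = W i (r i) * M (r i) j := by
  rw [mul_apply, Finset.sum_eq_single_of_mem (r i) (Finset.mem_univ _) fun k _ hk => ?_]
  rw [h.1 i k hk, zero_mul]

omit [DecidableEq ι] in
theorem Anti.mul_right (h : Anti r W) (M : Matrix ι ι K) (i j : ι) :
    (M * W) i (r j) = M i j * W j (r j) := by
  rw [mul_apply, Finset.sum_eq_single_of_mem j (Finset.mem_univ _) fun k _ hk => ?_]
  rw [h.1 k _ fun e => hk (r.injective e).symm, mul_zero]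

omit [DecidableEq ι] in
theorem Anti.conj (h : Anti r W) (h' : Anti r W') {M : Matrix ι ι K} {i j : ι}
    (e : (W * M * W') i (r j) = 0) : M (r i) j = 0 := by
  rw [h'.mul_right, h.mul_left] at e
  simpa [h.2, h'.2] using e

omit [Fintype ι] [DecidableEq ι] in
theorem Anti.map (h : Anti r W) (μ : K →+* K) : Anti r (W.map μ) :=
  ⟨fun i j e => by rw [map_apply, h.1 i j e, map_zero], fun i => (map_ne_zero μ).2 (h.2 i)⟩

omit [Fintype ι] [DecidableEq ι] in
theorem Anti.transpose (h : Anti r W) (hr : ∀ i, r (r i) = i) : Anti r Wᵀ :=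
  ⟨fun i j e => h.1 j i fun e' => e (by rw [e', hr]), fun i => by simpa [hr] using h.2 (r i)⟩

theorem Anti.inv (h : Anti r W) (hr : ∀ i, r (r i) = i) (e : W' * W = 1) : Anti r W' := by
  have key := fun i j => h.mul_right W' i j
  rw [e] at key
  refine ⟨fun i j a => ?_, fun i a => ?_⟩
  · have := key i j
    rw [one_apply_ne fun e => a (by rw [e, hr])] at this
    simpa [h.2] using this
  · have := key i (r i)
    rw [hr, one_apply_eq, a, zero_mul] at this
    exact one_ne_zero this

theorem anti_of_zero (e : B * A = 1) (h : ∀ i j, j ≠ r i → A i j = 0) : Anti r A :=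
  ⟨h, fun i a => by
    have := congrArg (fun X : Matrix ι ι K => X i i) (mul_eq_one_comm.1 e)
    rw [one_apply_eq, mul_apply, Finset.sum_eq_zero fun k _ => ?_] at this
    · exact zero_ne_one this
    · by_cases c : k = r i
      · rw [c, a, zero_mul]
      · rw [h i k c, zero_mul]⟩

theorem exists_anti (r : Equiv.Perm ι) (o : ι) : ∃ w : SLn ι K, Anti r w.1 := by
  have hs : ((Equiv.Perm.sign r : ℤ) : K) * (Equiv.Perm.sign r : ℤ) = 1 := by
    rw [← Int.cast_mul, ← Units.val_mul, Int.units_mul_self]; simp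
  refine ⟨⟨diagonal (fun i => if i = o then ((Equiv.Perm.sign r : ℤ) : K) else 1) *
    r.permMatrix K, by simpa [det_permutation] using hs⟩, fun i j e => ?_, fun i => ?_⟩
  · simp [PEquiv.toMatrix_apply, Ne.symm e]
  · simp only [diagonal_mul, PEquiv.toMatrix_apply, Equiv.toPEquiv_apply, Option.mem_def, if_true,
      mul_one]
    split_ifs
    exacts [left_ne_zero_of_mul_eq_one hs, one_ne_zero]

variable [LinearOrder ι]

/-- the unitriangular matrix with prescribed entries -/
def un (e : ι → ι → K) : SLn ι K :=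
  ⟨of fun k l => if k = l then 1 else if k < l then e k l else 0, by
    rw [det_of_isUpperTriangular fun k l (h : l < k) => by simp [h.ne', h.not_gt]]
    simp⟩

theorem un_mem (e : ι → ι → K) : un e ∈ UU ι K :=
  ⟨fun k l (h : l < k) => by simp [un, h.ne', h.not_gt], fun k => by simp [un]⟩

theorem un_lt (e : ι → ι → K) {k l : ι} (h : k < l) : (un e).1 k l = e k l := by
  simp [un, h, h.ne]

theorem mem_conj_of_mem {Bg : Subgroup (MulAut S)} (hβ : β ∈ Bg) {s : S}
    (hs : s ∈ Bg.comap MulAut.conj) : β s ∈ Bg.comap MulAut.conj := by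
  have : MulAut.conj (β s) = β * MulAut.conj s * β⁻¹ := by ext; simp
  exact Subgroup.mem_comap.2 (this ▸ Bg.mul_mem (Bg.mul_mem hβ hs) (Bg.inv_mem hβ))

theorem exists_params (K : Type*) [Field K] [Finite K] : ∃ s c d : ZMod 7 → K,
    ((∀ i, s i = 1) ∨ ∀ a : K, a ≠ 0 → a = 1) ∧ ∀ i j, s i = s j → c i = c j → d i = d j → i = j := by
  have h2 : 1 < Nat.card K := Finite.one_lt_card
  by_cases h : ∀ a : K, a ≠ 0 → a = 1
  · obtain ⟨f, hf⟩ := exists_seven (K := K × K × K) (by simp only [Nat.card_prod]; nlinarith)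
    exact ⟨fun i => (f i).1, fun i => (f i).2.1, fun i => (f i).2.2, Or.inr h,
      fun i j a b c => hf (Prod.ext a (Prod.ext b c))⟩
  · push Not at h
    obtain ⟨a, a0, a1⟩ := h
    have := Fintype.ofFinite K
    have := Fintype.two_lt_card_iff.2 ⟨a, 0, 1, a0, a1, zero_ne_one⟩
    rw [← Nat.card_eq_fintype_card] at this
    obtain ⟨f, hf⟩ := exists_seven (K := K × K) (by simp only [Nat.card_prod]; nlinarith)
    exact ⟨fun _ => 1, fun i => (f i).1, fun i => (f i).2, Or.inl fun _ => rfl,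
      fun i j _ b c => hf (Prod.ext b c)⟩

omit [LinearOrder ι] in
theorem tv_x' {i j : ι} (h : i ≠ j) (s : K) :
    Tv (transvection h s) (Pi.single i s) (Pi.single j 1) := by
  have := tv_smul.2 (show Tv _ _ (s • Pi.single j 1) by simpa [← Pi.single_smul] using tv_x h s)
  rwa [← Pi.single_smul', smul_eq_mul, mul_one] at this

omit [LinearOrder ι] in
theorem col_single (A : Matrix ι ι K) (i : ι) (s : K) :
    A *ᵥ (μ ∘ Pi.single i s) = μ s • A.col i := by
  ext k
  simp [mulVec, dotProduct, Pi.single_apply, apply_ite μ, mul_comm]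

omit [LinearOrder ι] in
theorem row_single (A : Matrix ι ι K) (i : ι) (s : K) :
    (μ ∘ Pi.single i s) ᵥ* A = μ s • A.row i := by
  ext k
  simp [vecMul, dotProduct, Pi.single_apply, apply_ite μ]

theorem locN_par [Finite K] [Finite S] (h : CovN ρ) {Bg : Subgroup (MulAut S)}
    (hJ : IsPi π (Bg.comap MulAut.conj)) (hp : ∀ r : ℕ, r.Prime → (r : K) = 0 → r ∈ π)
    (h23 : 2 ∉ π ∨ 3 ∉ π) (hU : ∀ u ∈ UU ι K, ρ u ∈ Bg.comap MulAut.conj)
    (hr : ∀ i, r (r i) = i) (hr' : ∀ i j, r i < r j ↔ j < i) {o i1 i2 : ι} (ho : ∀ i, o ≤ i)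
    (h01 : o < i1) (h12 : i1 < i2) : LocA Bg := by
  have hs : ∀ (μ : K →+* K) (s : K), ∃ s', μ s' = s := fun μ =>
    Finite.injective_iff_surjective.1 μ.injective
  have k1 : ∀ β ∈ Bg, ∀ μ A B, Rp ρ β μ A B → A.IsUpperTriangular := fun β hβ μ A B a =>
    h.upper hJ hp h23 hU a.1 fun i j hij s t ht => by
      obtain ⟨s, rfl⟩ := hs μ s
      obtain ⟨t', b, e⟩ := a.tv (tv_x hij.ne s)
      rw [col_single, row_single, map_one, one_smul] at b
      rw [ht.eq b, ← e]
      exact mem_conj_of_mem hβ (hU _ (x_mem_UU hij s))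
  have k2 : ∀ β ∈ Bg, ∀ μ A B, Rm ρ β μ A B → ∀ i j, j < i → A i (r j) = 0 := fun β hβ μ A B a =>
    h.upper (A := A.submatrix id r) (B := B.submatrix r id) hJ hp h23 hU
      ((submatrix_mul_equiv B A r (Equiv.refl ι) r).trans (by rw [a.1, submatrix_one_equiv]))
      fun i j hij s t ht => by
      obtain ⟨s, rfl⟩ := hs μ s
      have hij' := (hr' j i).2 hij
      obtain ⟨t', b, e⟩ := a.tv (tv_x' hij'.ne (-s))
      rw [← Pi.single_neg, neg_neg, col_single, row_single, map_one, one_smul] at b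
      rw [ht.eq b, ← e]
      exact mem_conj_of_mem hβ (hU _ (x_mem_UU hij' (-s)))
  obtain ⟨w, hw⟩ := exists_anti (K := K) r o
  have hw' := hw.inv hr (sn_inv_mul w)
  obtain ⟨θ, hθ⟩ := exists_gen K
  obtain ⟨s, c, d, hs1, hs2⟩ := exists_params K
  let u : Fin 3 → ZMod 7 → SLn ι K := ![fun _ => 1,
    fun i => un fun k l => if k = o ∧ l = i1 then s i else if k = o ∧ l = i2 then c i else 1,
    fun i => un fun k l => if k = o ∧ l = i1 then θ else if k = o ∧ l = i2 then d i else 0]
  have hu : ∀ a i, u a i ∈ UU ι K := fun a i => by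
    fin_cases a
    exacts [one_mem _, un_mem _, un_mem _]
  have h02 := h01.trans h12
  refine ⟨fun a i => ρ (w * u a i), fun β hβ i j hB => ?_⟩
  obtain ⟨μ, A, B, a | a⟩ := h.rp_or_rm β
  · have b1 := k1 β hβ μ A B a
    have b2 : ∀ b k l, k < l → ((u b i).1 * A * ((u b j)⁻¹).1.map μ) k l = 0 := fun b k l hkl => by
      obtain ⟨B', e⟩ := a.conj (w * u b i) (w * u b j)
      have := k1 _ (hB b) _ _ _ e (show r l < r k from (hr' _ _).2 hkl)
      rw [_root_.mul_inv_rev, sn_mul, sn_mul, Matrix.map_mul, ← mul_assoc, mul_assoc w.1,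
        mul_assoc w.1] at this
      simpa only [hr] using hw.conj (hw'.map μ) this
    have b3 : ∀ k l, k ≠ l → A k l = 0 := fun k l hkl => hkl.lt_or_gt.elim
      (fun e => by simpa [u] using b2 0 k l e) fun e => b1 e
    have b4 : ∀ b k l, A k k * μ ((u b j).1 k l) = (u b i).1 k l * A l l := fun b k l => by
      have c1 : ((u b i).1 * A * ((u b j)⁻¹).1.map μ).IsUpperTriangular :=
        ((hu b i).1.mul b1).mul ((inv_mem (hu b j)).1.map μ)
      have c2 : (u b i).1 * A * ((u b j)⁻¹).1.map μ * (u b j).1.map μ = (u b i).1 * A := by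
        rw [mul_assoc, ← Matrix.map_mul, sn_inv_mul, Matrix.map_one _ μ.map_zero μ.map_one, mul_one]
      have c3 := congrArg (fun X : Matrix ι ι K => X k l) c2
      rw [mul_apply, Finset.sum_eq_single_of_mem k (Finset.mem_univ _) fun m _ hm => by
          rw [hm.lt_or_gt.elim (fun e => c1 e) (b2 b k m), zero_mul],
        up_diag ((hu b i).1.mul b1) ((inv_mem (hu b j)).1.map μ), up_diag (hu b i).1 b1,
        (hu b i).2, map_apply, (inv_mem (hu b j)).2, map_one, one_mul, mul_one, mul_apply,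
        Finset.sum_eq_single_of_mem l (Finset.mem_univ _) fun m _ hm => by
          rw [b3 m l hm, mul_zero]] at c3
      exact c3
    have b5 : ∀ k, A k k ≠ 0 := (anti_of_zero (r := 1) a.1 fun k l e => b3 k l (Ne.symm e)).2
    have b6 : ∀ k, A k k = A o o := by
      refine hs1.elim (fun e => ?_) fun e k => by rw [e _ (b5 k), e _ (b5 o)]
      have : ∀ k, k ≠ i2 → A k k = A o o := fun k hk => by
        rcases (ho k).eq_or_lt with rfl | e'
        · rfl
        · simpa [u, un_lt _ e', e, hk] using (b4 1 o k).symm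
      intro k
      by_cases hk : k = i2
      · rw [← this i1 h12.ne, hk]
        simpa [u, un_lt _ h12, h01.ne'] using (b4 1 i1 i2).symm
      · exact this k hk
    have b7 : ∀ b k l, μ ((u b j).1 k l) = (u b i).1 k l := fun b k l =>
      mul_left_cancel₀ (b5 o) (by rw [← b6 k, b4, b6 l, b6 k, mul_comm])
    have b8 : ∀ x, μ x = x := hθ.eq_id (by
      rw [map_pow, show μ θ = θ by simpa [u, un_lt _ h01] using b7 2 o i1])
    refine ⟨hs2 i j (by simpa [u, un_lt _ h01, b8] using (b7 1 o i1).symm)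
      (by simpa [u, un_lt _ h02, b8, h12.ne'] using (b7 1 o i2).symm)
      (by simpa [u, un_lt _ h02, b8, h12.ne'] using (b7 2 o i2).symm), ?_⟩
    rw [a.eq_conj h b8 (c := A o o) (s := 1) (Matrix.ext fun k l => ?_), map_one, map_one]
    by_cases e : k = l
    · simp [e, b6 l]
    · simp [e, b3 k l e]
  · exfalso
    have b2 : ∀ b k l, l < r k → ((u b i).1 * A * (u b j).1ᵀ.map μ) k l = 0 := fun b k l hkl => by
      obtain ⟨B', e⟩ := a.conj (w * u b i) (w * u b j)
      have := k2 _ (hB b) _ _ _ e _ _ hkl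
      rw [sn_mul, sn_mul, transpose_mul, Matrix.map_mul, ← mul_assoc, mul_assoc w.1,
        mul_assoc w.1] at this
      simpa only [hr] using hw.conj ((hw.transpose hr).map μ) this
    have b3 : Anti r A := anti_of_zero a.1 fun k l hkl => hkl.lt_or_gt.elim
      (fun e => by simpa [u] using b2 0 k l e) fun e => by
        simpa only [hr] using k2 β hβ μ A B a k (r l) ((hr' _ _).1 (by rwa [hr]))
    have b4 : r i1 ≠ o := fun e => (ho _).not_gt (e ▸ (hr' _ _).2 h12)
    have := b2 2 o (r i1) ((hr' _ _).2 h01)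
    rw [mul_apply, Finset.sum_eq_single_of_mem (r i1) (Finset.mem_univ _) fun m _ hm => by
      simp [u, un, b4, Ne.symm hm], b3.mul_right] at this
    simp [u, un_lt _ h01, hθ.ne, b3.2, (un_mem _).2] at this

end Pool.Agent.MP_983df8_al
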