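import Pool.Agent.MP_983df8_al.SL

namespace Pool.Agent.MP_983df8_al

open Matrix

variable {K : Type*} [Field K] {μ : K →+* K} {φ : M2 K →+* M2 K}

/-- `φ` maps `X` into the algebra generated by `Y` -/
def Maps (φ : M2 K →+* M2 K) (X Y : M2 K) : Prop := ∃ a b : K, φ X = a • (1 : M2 K) + b • Y

theorem Maps.of_left (h : Semi μ φ) {X X' Y : M2 K} (hm : Maps φ X Y) {a b : K}
    (e : X' = a • (1 : M2 K) + b • X) : Maps φ X' Y := by
  obtain ⟨c, d, e'⟩ := hm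
  exact ⟨μ a + μ b * c, μ b * d, by
    rw [e, map_add, h.smul, h.smul, map_one, e', smul_add, smul_smul, smul_smul, add_smul, add_assoc]⟩

theorem Maps.of_right {X Y Y' : M2 K} (hm : Maps φ X Y) {a b : K}
    (e : Y = a • (1 : M2 K) + b • Y') : Maps φ X Y' := by
  obtain ⟨c, d, e'⟩ := hm
  exact ⟨c + d * a, d * b, by rw [e', e, smul_add, smul_smul, smul_smul, add_smul, add_assoc]⟩

/-- `φ` is induced by a diagonal semilinear map -/
def Diag (μ : K →+* K) (φ : M2 K →+* M2 K) (l : K) : Prop :=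
  l ≠ 0 ∧ ∀ X, φ X = !![μ (X 0 0), l * μ (X 0 1); l⁻¹ * μ (X 1 0), μ (X 1 1)]

theorem Semi.diag (h : Semi μ φ) {l l' : K} (e : φ !![0, 1; 0, 0] = l • !![0, 1; 0, 0])
    (e' : φ !![0, 0; 1, 0] = l' • !![0, 0; 1, 0]) : Diag μ φ l ∧ l * l' = 1 := by
  have h1 := h.tr (!![0, 1; 0, 0] * !![0, 0; 1, 0])
  rw [map_mul, e, e'] at h1
  simp [trace_fin_two] at h1
  have hl : l ≠ 0 := left_ne_zero_of_mul_eq_one h1
  refine ⟨⟨hl, fun X => ?_⟩, h1⟩
  have : X = X 0 0 • (!![0, 1; 0, 0] * !![0, 0; 1, 0]) + X 0 1 • !![0, 1; 0, 0] +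
      X 1 0 • !![0, 0; 1, 0] + X 1 1 • (!![0, 0; 1, 0] * !![0, 1; 0, 0]) := by simp [m2_ext]
  conv_lhs => rw [this]
  simp only [map_add, h.smul, map_mul, e, e']
  rw [eq_inv_of_mul_eq_one_right h1]
  simp [hl, mul_comm]

theorem Diag.eq_id {l : K} (h : Diag μ φ l) (h1 : ∀ x, μ x = x) (h2 : l = 1) (X : M2 K) :
    φ X = X := by
  rw [h.2, h2]
  simp [h1, m2_ext]

theorem Semi.nil (h : Semi μ φ) {X Y : M2 K} (hX : X.det = 0) (hY : Y.det = 0) (hY' : Y.trace = 0)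
    (hm : Maps φ X Y) : ∃ l : K, φ X = l • Y := by
  obtain ⟨a, b, e⟩ := hm
  have := h.det X
  rw [e, hX, map_zero] at this
  simp only [det_fin_two, trace_fin_two] at this hY hY'
  simp at this
  obtain rfl : a = 0 := pow_eq_zero_iff (n := 2) (by norm_num) |>.1 (by
    linear_combination this - a * b * hY' - b ^ 2 * hY)
  exact ⟨b, by simpa using e⟩

theorem Semi.par (h : Semi μ φ) (h1 : Maps φ !![0, 1; 0, 0] !![0, 1; 0, 0])
    (h2 : Maps φ !![0, 0; 1, 0] !![0, 0; 1, 0]) : ∃ l, Diag μ φ l := by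
  obtain ⟨l, e⟩ := h.nil (by simp [det_fin_two]) (by simp [det_fin_two]) (by simp) h1
  obtain ⟨l', e'⟩ := h.nil (by simp [det_fin_two]) (by simp [det_fin_two]) (by simp) h2
  exact ⟨l, (h.diag e e').1⟩

theorem Diag.pt {l : K} (h : Diag μ φ l) {c c' : K}
    (hm : Maps φ !![c, -c ^ 2; 1, -c] !![c', -c' ^ 2; 1, -c']) : c' = l * μ c := by
  obtain ⟨a, b, e⟩ := hm
  rw [h.2, m2_ext] at e
  simp at e
  obtain ⟨e1, e2, rfl, e4⟩ := e
  have := h.1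
  field_simp at e1 e2 e4
  refine sub_eq_zero.1 (pow_eq_zero_iff (n := 2) (by norm_num) |>.1 ?_)
  linear_combination e2 - c' * e1 + c' * e4

theorem Semi.traceless (h : Semi μ φ) (h2 : (2 : K) ≠ 0) {X : M2 K} (hX : X.trace = 0)
    (hm : Maps φ X X) : ∃ l : K, φ X = l • X := by
  obtain ⟨a, b, e⟩ := hm
  have := h.tr X
  rw [e, hX, map_zero, trace_add, trace_smul, trace_smul, hX] at this
  simp [h2] at this
  exact ⟨b, by simpa [this] using e⟩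

theorem Semi.odd_rigid [Finite K] (h : Semi μ φ) {t : K} (ht : Gen t) (h7 : 7 ≤ Nat.card K)
    (h9 : Nat.card K ≠ 9) (h2 : (2 : K) ≠ 0) {n : K} (hn : n ≠ 0)
    (m0 : Maps φ !![0, -n; 1, 0] !![0, -n; 1, 0])
    (m1 : Maps φ !![0, -(t ^ 2 * n); 1, 0] !![0, -(t ^ 2 * n); 1, 0])
    (m2 : Maps φ !![1, -n - 1; 1, -1] !![1, -n - 1; 1, -1]) (X : M2 K) : φ X = X := by
  obtain ⟨l0, e0⟩ := h.traceless h2 (by simp) m0
  obtain ⟨l1, e1⟩ := h.traceless h2 (by simp) m1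
  obtain ⟨l2, e2⟩ := h.traceless h2 (by simp) m2
  have d0 := h.det !![0, -n; 1, 0]
  have d1 := h.det !![0, -(t ^ 2 * n); 1, 0]
  have d2 := h.tr (!![0, -n; 1, 0] * !![0, -(t ^ 2 * n); 1, 0])
  rw [e0] at d0
  rw [e1] at d1
  rw [map_mul, e0, e1] at d2
  simp [det_fin_two, trace_fin_two] at d0 d1 d2
  have hl : l0 ≠ 0 := by
    rintro rfl
    exact hn ((map_eq_zero μ).1 (by linear_combination -d0))
  have ht0 := ht.ne
  have key : (l0 - l1) * (l0 - l1 * t ^ 2) = 0 := mul_left_cancel₀ hn (by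
    linear_combination d0 + d1 + d2)
  obtain rfl : l0 = l1 := by
    refine sub_eq_zero.1 ((mul_eq_zero.1 key).resolve_right fun e => ht.not_inv h7 h9 h2 (μ := μ) ?_)
    rw [sub_eq_zero] at e
    subst e
    have : l1 ≠ 0 := left_ne_zero_of_mul hl
    rw [map_pow]
    refine mul_left_cancel₀ (a := l1 ^ 2 * t ^ 2 * n) (by positivity) ?_
    linear_combination μ t ^ 2 * d0 - d1
  have hμ := ht.eq_id (μ := μ) (mul_left_cancel₀ (a := l0 ^ 2 * n) (by positivity) (by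
    rw [map_pow]
    linear_combination μ t ^ 2 * d0 - d1))
  have a1 : (t ^ 2 - 1) * n ≠ 0 :=
    mul_ne_zero (sub_ne_zero.2 (ht.pow_ne h7 (by norm_num) (by norm_num))) hn
  have b1 : φ !![0, 1; 0, 0] = l0 • !![0, 1; 0, 0] := by
    have : (!![0, 1; 0, 0] : M2 K) = ((t ^ 2 - 1) * n)⁻¹ •
        (!![0, -n; 1, 0] - !![0, -(t ^ 2 * n); 1, 0]) := by
      rw [eq_inv_smul_iff₀ a1]; simp [m2_ext]; ring
    rw [this, h.smul, map_sub, e0, e1, hμ, ← smul_sub, smul_comm]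
  have b2 : φ !![0, 0; 1, 0] = l0 • !![0, 0; 1, 0] := by
    have : (!![0, 0; 1, 0] : M2 K) = !![0, -n; 1, 0] + n • !![0, 1; 0, 0] := by simp [m2_ext]
    rw [this, map_add, h.smul, e0, b1, hμ, smul_add, smul_comm]
  have hd := (h.diag b1 b2).1
  rw [hd.2, m2_ext] at e2
  simp at e2
  exact hd.eq_id hμ (inv_eq_one.1 (e2.2.2.1.trans e2.1.symm)) X

theorem Semi.trace_one (h : Semi μ φ) (h2 : (2 : K) = 0) {X : M2 K} (hX : X.trace = 1)
    (hm : Maps φ X X) : ∃ a : K, φ X = a • (1 : M2 K) + X := by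
  obtain ⟨a, b, e⟩ := hm
  have := h.tr X
  rw [e, hX, map_one, trace_add, trace_smul, trace_smul, hX] at this
  simp [h2] at this
  exact ⟨a, by simpa [this] using e⟩

theorem Semi.even_rigid [Finite K] (h : Semi μ φ) {t : K} (ht : Gen t) (h7 : 7 ≤ Nat.card K)
    (h2 : (2 : K) = 0) {n : K} (m0 : Maps φ !![0, n; 1, 1] !![0, n; 1, 1])
    (m1 : Maps φ !![0, n + t + t ^ 2; 1, 1] !![0, n + t + t ^ 2; 1, 1])
    (m2 : Maps φ !![0, t ^ 2 * n; (t ^ 2)⁻¹, 1] !![0, t ^ 2 * n; (t ^ 2)⁻¹, 1]) (X : M2 K) :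
    φ X = X := by
  obtain ⟨a0, e0⟩ := h.trace_one h2 (by simp) m0
  obtain ⟨a1, e1⟩ := h.trace_one h2 (by simp) m1
  obtain ⟨a2, e2⟩ := h.trace_one h2 (by simp) m2
  have ht0 := ht.ne
  have ht2 : 1 - t ^ 2 ≠ 0 := sub_ne_zero.2 (ht.pow_ne h7 (by norm_num) (by norm_num)).symm
  have ht1 : t + t ^ 2 ≠ 0 := fun e => ht2 (mul_left_cancel₀ ht0 (by linear_combination (1 - t) * e))
  obtain ⟨l, b1⟩ := h.nil (X := !![0, 1; 0, 0]) (Y := !![0, 1; 0, 0]) (by simp [det_fin_two])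
    (by simp [det_fin_two]) (by simp) (by
      have : (!![0, 1; 0, 0] : M2 K) = (t + t ^ 2)⁻¹ •
          (!![0, n + t + t ^ 2; 1, 1] - !![0, n; 1, 1]) := by
        rw [eq_inv_smul_iff₀ ht1]; simp [m2_ext]; ring
      refine ⟨μ (t + t ^ 2)⁻¹ * (a1 - a0), μ (t + t ^ 2)⁻¹ * (t + t ^ 2), ?_⟩
      conv_lhs => rw [this, h.smul, map_sub, e0, e1]
      simp only [m2_ext]
      simp
      exact Or.inl (by ring))
  have d0 := h.tr (!![0, 1; 0, 0] * !![0, n; 1, 1])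
  have d2 := h.tr (!![0, 1; 0, 0] * !![0, t ^ 2 * n; (t ^ 2)⁻¹, 1])
  rw [map_mul, b1, e0] at d0
  rw [map_mul, b1, e2] at d2
  simp only [trace_fin_two, m2_mul] at d0 d2
  simp at d0 d2
  subst d0
  have hμ := ht.eq_id (μ := μ) (by rw [map_pow]; simpa using d2.symm)
  have c2 : (!![0, 0; 0, 1] : M2 K) = (1 - t ^ 2)⁻¹ • (!![0, n; 1, 1] -
      t ^ 2 • !![0, t ^ 2 * n; (t ^ 2)⁻¹, 1] - (n - t ^ 4 * n) • !![0, 1; 0, 0]) := by
    rw [eq_inv_smul_iff₀ ht2]; simp [m2_ext, ht0]; ring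
  have b3 : φ !![0, 0; 0, 1] = ((1 - t ^ 2)⁻¹ * (a0 - t ^ 2 * a2)) • (1 : M2 K) + !![0, 0; 0, 1] := by
    conv_lhs => rw [c2]
    conv_rhs => rw [c2]
    simp only [h.smul, map_sub, e0, e2, b1, hμ]
    module
  have d3 := congrArg φ (show (!![0, 1; 0, 0] : M2 K) * !![0, 0; 0, 1] = !![0, 1; 0, 0] by
    simp only [m2_ext, m2_mul]; simp)
  rw [map_mul, b1, b3, m2_ext] at d3
  generalize (1 - t ^ 2)⁻¹ * (a0 - t ^ 2 * a2) = z at b3 d3
  simp only [m2_mul] at d3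
  simp at d3
  subst d3
  have b2 : φ !![0, 0; 1, 0] = a0 • (1 : M2 K) + !![0, 0; 1, 0] := by
    have : (!![0, 0; 1, 0] : M2 K) = !![0, n; 1, 1] - n • !![0, 1; 0, 0] - !![0, 0; 0, 1] := by
      simp [m2_ext]
    rw [this]
    simp only [h.smul, map_sub, e0, b1, b3, hμ]
    module
  have d4 := congrArg φ (show (!![0, 0; 1, 0] : M2 K) * !![0, 0; 0, 1] = 0 by simp [m2_ext])
  rw [map_mul, b2, b3, map_zero, m2_ext] at d4
  simp only [m2_mul] at d4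
  simp at d4
  subst d4
  exact (h.diag (l' := 1) b1 (by simpa using b2)).1.eq_id hμ rfl X

theorem Semi.zero_rigid [Finite K] (h : Semi μ φ) {t : K} (ht : Gen t) (h7 : 7 ≤ Nat.card K)
    {ε ε' : K} (h1 : ε * ε = 1) (e1 : φ !![1, 1; 0, 1] = ε • !![1, 1; 0, 1]) (h2 : ε' ≠ 0)
    (e2 : φ !![t, 0; 0, t⁻¹] = ε' • !![t, 0; 0, t⁻¹]) (X : M2 K) : φ X = X := by
  have ht0 := ht.ne
  have d0 := h.tr !![1, 1; 0, 1]
  rw [e1] at d0
  simp at d0
  obtain rfl : ε = 1 := sub_eq_zero.1 (pow_eq_zero_iff (n := 2) (by norm_num) |>.1 (by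
    linear_combination h1 - d0))
  have b1 : φ !![0, 1; 0, 0] = (1 : K) • !![0, 1; 0, 0] := by
    have : (!![0, 1; 0, 0] : M2 K) = !![1, 1; 0, 1] - 1 := by simp [m2_ext]
    rw [this, map_sub, e1, map_one, one_smul, one_smul]
  have d1 := congrArg φ (show (!![t, 0; 0, t⁻¹] : M2 K) * !![0, 1; 0, 0] =
    t ^ 2 • (!![0, 1; 0, 0] * !![t, 0; 0, t⁻¹]) by simp; field_simp)
  rw [h.smul, map_mul, map_mul, b1, e2, m2_ext] at d1
  simp at d1
  have hμ := ht.eq_id (μ := μ) (by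
    rw [map_pow]
    field_simp at d1
    exact d1.symm)
  have d2 := h.tr !![t, 0; 0, t⁻¹]
  rw [e2, hμ] at d2
  simp at d2
  have a1 : t + t⁻¹ ≠ 0 := fun e => ht.pow_ne h7 (k := 4) (by norm_num) (by norm_num) (by
    field_simp at e
    linear_combination (t ^ 2 - 1) * e)
  obtain rfl : ε' = 1 := mul_right_cancel₀ a1 (by linear_combination d2)
  have a2 : t - t⁻¹ ≠ 0 := fun e => ht.pow_ne h7 (k := 2) (by norm_num) (by norm_num) (by
    field_simp at e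
    linear_combination e)
  have b3 : φ !![1, 0; 0, 0] = !![1, 0; 0, 0] := by
    have : (!![1, 0; 0, 0] : M2 K) = (t - t⁻¹)⁻¹ • (!![t, 0; 0, t⁻¹] - t⁻¹ • 1) := by
      simp [m2_ext, a2]
    rw [this, h.smul, map_sub, h.smul, e2, hμ, hμ, map_one, one_smul]
  have b2 : φ !![0, 0; 1, 0] = φ !![0, 0; 1, 0] 1 0 • !![0, 0; 1, 0] := by
    have := congrArg φ (show (!![0, 0; 1, 0] : M2 K) =
      (1 - !![1, 0; 0, 0]) * !![0, 0; 1, 0] * !![1, 0; 0, 0] by simp only [m2_ext, m2_mul]; simp)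
    rw [map_mul, map_mul, map_sub, b3, map_one] at this
    generalize φ !![0, 0; 1, 0] = Y at this
    simp only [m2_ext, m2_mul] at this ⊢
    simp at this ⊢
    exact ⟨this.1, this.2.1, this.2.2⟩
  exact (h.diag b1 b2).1.eq_id hμ rfl X

end Pool.Agent.MP_983df8_al
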