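import Pool.Agent.MP_983df8_al.Zenkov

/-! All automorphisms permute the long root subgroups. -/

namespace Pool.Agent.MP_983df8_al

universe u v w

attribute [-simp] lie_skew lie_lie

namespace ps

open Subgroup hs Polynomial

variable {K L : Type*} [Field K] [LieRing L] [LieAlgebra K L] {g : L →ₗ[K] L →ₗ[K] K}
variable {S : Type*} [Group S] {ρ : S →* Module.End K L} {E : Set L} {e : L → S} {x y : L}

theorem pick [Finite K] (big : 5 ≤ Nat.card K) {f : K[X]} (a : f ≠ 0) (b : f.natDegree ≤ 4) :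
    ∃ t, f.eval t ≠ 0 :=
  f.exists_eval_ne_zero_of_natDegree_lt_card a (by
    rw [← Nat.cast_card]; exact_mod_cast (by omega : f.natDegree < Nat.card K))

theorem pick2 [Finite K] (big : 5 ≤ Nat.card K) {a : K} (b c d : K) (ha : a ≠ 0) :
    ∃ t, t ≠ d ∧ t ≠ 0 ∧ a + t * b + t * t * c ≠ 0 := by
  obtain ⟨t, ht⟩ := pick big (f := (X - C d) * X * (C a + X * C b + X * X * C c))
    (mul_ne_zero (mul_ne_zero (X_sub_C_ne_zero d) X_ne_zero) fun k => ha (by
      simpa using congrArg (eval 0) k)) (by compute_degree)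
  simp only [eval_mul, eval_add, eval_sub, eval_X, eval_C] at ht
  exact ⟨t, sub_ne_zero.1 (left_ne_zero_of_mul (left_ne_zero_of_mul ht)),
    right_ne_zero_of_mul (left_ne_zero_of_mul ht), right_ne_zero_of_mul ht⟩

/-- the elements opposite to `x` span -/
theorem span_opp [Finite K] [IsSimpleGroup S] (h : RS g ρ E e) (big : 5 ≤ Nat.card K) (hx : x ∈ E)
    (x0 : x ≠ 0) : Submodule.span K {z | z ∈ E ∧ g x z ≠ 0} = ⊤ := by
  set N := Submodule.span K {z | z ∈ E ∧ g x z ≠ 0}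
  have br : ∀ z ∈ E, g x z ≠ 0 → ∀ u ∈ E, ⁅u, z⁆ ∈ N := fun z hz a u hu => by
    have k : ∀ d : K, ∃ t, t ≠ d ∧ ⁅u, z⁆ + (t * g u z) • u ∈ N := fun d => by
      obtain ⟨t, t1, t2, t3⟩ := pick2 big (g x ⁅u, z⁆) (g u z * g x u) d a
      have m : ρ (e (t • u)) z ∈ N := Submodule.subset_span ⟨h.act z hz _, by
        rw [h.ex _ (h.smul u hu t), ex_smul]
        simpa only [map_add, map_smul, smul_eq_mul, mul_assoc] using t3⟩
      rw [h.ex _ (h.smul u hu t), ex_smul] at m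
      have := N.smul_mem t⁻¹ (N.sub_mem m (Submodule.subset_span ⟨hz, a⟩))
      refine ⟨t, t1, (congrArg (· ∈ N) ?_).mp this⟩
      match_scalars <;> field_simp
      ring
    obtain ⟨s, -, a1⟩ := k 0
    obtain ⟨t, a2, a3⟩ := k s
    have := N.smul_mem (t - s)⁻¹ (N.sub_mem (N.smul_mem t a1) (N.smul_mem s a3))
    have a4 := sub_ne_zero.2 a2
    refine (congrArg (· ∈ N) ?_).mp this
    match_scalars <;> field_simp
    ring
  let D : Subgroup S :=
    { carrier := {s | ∀ u, ρ s u - u ∈ N}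
      one_mem' := fun u => by simp
      mul_mem' := fun {a b} ha hb u => by
        simpa only [map_mul, Module.End.mul_apply, sub_add_sub_cancel] using
          N.add_mem (ha (ρ b u)) (hb u)
      inv_mem' := fun {a} ha u => by
        simpa only [rho_cancel, neg_sub] using N.neg_mem (ha (ρ a⁻¹ u)) }
  have top : D = ⊤ := h.eq_top hx x0 fun z hz a u => by
    rw [h.ex z hz, ex_apply, add_assoc, add_sub_cancel_left, ← lie_skew]
    refine N.add_mem (N.neg_mem ?_) (N.smul_mem _ (Submodule.subset_span ⟨hz, a⟩))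
    induction (h.span ▸ Submodule.mem_top : u ∈ Submodule.span K E) using
      Submodule.span_induction with
    | mem u hu => exact br z hz a u hu
    | zero => simp
    | add u v _ _ a b => exact add_lie u v z ▸ N.add_mem a b
    | smul t u _ a => exact smul_lie t u z ▸ N.smul_mem t a
  refine top_unique (h.span ▸ Submodule.span_le.2 fun u hu => ?_)
  by_cases u0 : u = 0
  · simp [u0]
  obtain ⟨w, w1, w2⟩ := h.exists_opp u0
  obtain ⟨l, -, l0, l1⟩ := pick2 big (a := -1) 0 1 0 (by simp)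
  obtain ⟨s, s1, -⟩ := h.exists_h hu (h.smul w w1 (g u w)⁻¹) (by simp [w2]) l0
  have := N.smul_mem (-1 + l * 0 + l * l * 1)⁻¹ ((top.ge (mem_top s) : s ∈ D) u)
  rw [s1.apply l0, show l ^ 2 • u - u = (-1 + l * 0 + l * l * 1) • u by module,
    inv_smul_smul₀ l1] at this
  exact this

section

variable (h : RS g ρ E e) (H : Hyp g x y)
include h H

theorem V_g1 {q : S} (a : q ∈ h.Q x) : G1 g x y (V g ρ x y q) := by
  obtain ⟨u, a1, c, a2⟩ := mem_Fl3.1 (gr_two H a one_ne_zero)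
  have b : g y ⁅x, u⁆ = -g x ⁅y, u⁆ := by rw [← h.inv, ← h.inv, Hyp.lyx]; simp
  rw [V, ← a2, pr_apply]
  refine ⟨by simp [H.hx.2.1, a1], by simp [H.xx, h.self], by simp [H.yx], ?_⟩
  simp only [lie_add, lie_sub, lie_smul, H.hx.p2, a1, H.one, Hyp.lyx (x := x) (y := y), lie_neg,
    H.xh, map_add, map_smul, H.yx, b, smul_eq_mul]
  module

omit h H in
theorem rho_h (q : S) : ∃ c : K, ρ q ⁅x, y⁆ = ⁅x, y⁆ + V g ρ x y q + c • x :=
  ⟨g y (ρ q ⁅x, y⁆ - ⁅x, y⁆), by rw [V, pr_apply]; abel⟩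

theorem V_inv {q : S} (a : q ∈ h.Q x) : V g ρ x y q⁻¹ = -V g ρ x y q := by
  have := V_mul h H (inv_mem a) a
  rw [inv_mul_cancel] at this
  exact eq_neg_of_add_eq_zero_left (this.symm.trans (by simp [V]))

theorem mu {q : S} (a : q ∈ h.Q x) {v : L} (b : G1 g x y v) :
    g y (ρ q v) = -g (V g ρ x y q) ⁅y, v⁆ := by
  obtain ⟨c, hc⟩ := rho_h (g := g) (ρ := ρ) (x := x) (y := y) q⁻¹
  have d := h.skew x (ρ q⁻¹ y) ⁅y, v⁆
  rw [b.lxy, map_neg, neg_neg, ← h.Q_fix (inv_mem a), ← (h.aut _).lie, hc, V_inv h H a] at d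
  rw [← rho_cancel ρ q y, (h.aut q).form, rho_cancel, ← d]
  simp [H.g1_gxy b, H.g1_ghy b]

theorem opp [Finite K] (hx : x ∈ E) (hy : y ∈ E) {z : L} (hz : z ∈ E) (a : g x z ≠ 0) :
    ∃ q ∈ h.Q x, z = g x z • ρ q y := by
  obtain ⟨q, b, c⟩ := h.trans hx (h.smul z hz (g x z)⁻¹) (by simp [a]) hy H.one
  exact ⟨q, b, by rw [c, smul_inv_smul₀ a]⟩

/-- the centre of the radical -/
theorem cen [Finite K] [IsSimpleGroup S] (big : 5 ≤ Nat.card K) (hx : x ∈ E) (hy : y ∈ E)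
    (hr : Rigid g E) {s : S} (a : s ∈ h.Q x) (b : ∀ q ∈ h.Q x, s * q = q * s) :
    s ∈ rt K e x := by
  have x0 : x ≠ 0 := fun c => by simpa [c] using H.one
  have sv := V_g1 h H a
  have k : ∀ q ∈ h.Q x, g y (ρ q (V g ρ x y s)) = 0 := fun q c => by
    have qv := V_g1 h H c
    obtain ⟨c1, e1⟩ := rho_h (g := g) (ρ := ρ) (x := x) (y := y) q
    obtain ⟨c2, e2⟩ := rho_h (g := g) (ρ := ρ) (x := x) (y := y) s
    have d := congrArg (fun t => g y (ρ t ⁅x, y⁆)) (b q c)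
    simp only [map_mul, Module.End.mul_apply, e1, e2, map_add, map_smul, h.Q_fix a, h.Q_fix c,
      mu h H a qv, mu h H c sv, sv.gy, qv.gy] at d
    have f : g (V g ρ x y s) ⁅y, V g ρ x y q⁆ = -g (V g ρ x y q) ⁅y, V g ρ x y s⁆ := by
      rw [← h.inv, h.symm, ← lie_skew, map_neg]
    rw [mu h H c sv]
    refine (mul_eq_zero.1 ?_).resolve_left H.two
    linear_combination -d - f
  obtain ⟨t, ht⟩ := ker h H hx hy hr a (h.nd _ (LinearMap.ext_on (span_opp h big hx x0)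
    fun z hz => by
      obtain ⟨q, c, d⟩ := opp h H hx hy hz.1 hz.2
      have : g (V g ρ x y s) (ρ q y) = 0 := by
        rw [h.symm, ← (h.aut q⁻¹).form, rho_cancel', k _ (inv_mem c)]
      rw [d, map_smul, this]
      simp))
  exact ⟨t, ht.symm⟩

/-- the centraliser of the radical -/
theorem cen' [Finite K] [IsSimpleGroup S] (big : 5 ≤ Nat.card K) (hx : x ∈ E) (hy : y ∈ E)
    (hr : Rigid g E) {s : S} (b : ∀ q ∈ h.Q x, s * q = q * s) : s ∈ rt K e x := by
  have x0 : x ≠ 0 := fun c => by simpa [c] using H.one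
  have fix : ∀ s : S, ∀ z ∈ E, s * e z = e z * s → ρ s z = z := fun s z hz c =>
    h.e_inj (h.act z hz s) hz (by rw [← h.conj hz, c, mul_inv_cancel_right])
  have sx := fix s x hx (b _ (by simpa using h.e_mem_Q hx 1))
  obtain ⟨q0, a0, a1⟩ := h.trans hx (h.act y hy s) (by
    rw [← H.one, ← (h.aut s).form x y, sx]) hy H.one
  obtain ⟨s', rfl⟩ : ∃ s', s = q0 * s' := ⟨q0⁻¹ * s, by group⟩
  have fx : ρ s' x = x := by
    rw [← rho_cancel' ρ q0 (ρ s' x), ← Module.End.mul_apply (ρ q0), ← map_mul, sx,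
      h.Q_fix (inv_mem a0)]
  have fy : ρ s' y = y := by
    rw [← rho_cancel' ρ q0 (ρ s' y), ← Module.End.mul_apply (ρ q0), ← map_mul, ← a1, rho_cancel']
  have fh : ρ s' ⁅x, y⁆ = ⁅x, y⁆ := by rw [(h.aut _).lie, fx, fy]
  have cm : ∀ q ∈ h.Q x, s' * q = q * s' := fun q c => by
    obtain ⟨t, ht⟩ := ker' h H hx hy hr c (mul_mem (mul_mem (inv_mem a0) c) a0) (by
      rw [V_mul h H (mul_mem (inv_mem a0) c) a0, V_mul h H (inv_mem a0) c, V_inv h H a0]; abel)
    have d : s' * q = q * e (t • x) * s' := by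
      rw [← ht, mul_assoc _ q0, mul_assoc, ← b q c]; group
    obtain ⟨c1, e1⟩ := rho_h (g := g) (ρ := ρ) (x := x) (y := y) q
    have f := congrArg (fun t => g ⁅x, y⁆ (ρ t y)) d
    have f1 : g ⁅x, y⁆ (ρ s' (ρ q y)) = g ⁅x, y⁆ (ρ q y) := by
      rw [← (h.aut s').form ⁅x, y⁆ (ρ q y), fh]
    simp only [map_mul, Module.End.mul_apply, fy, f1, h.ex _ (h.smul x hx t), ex_smul, map_add,
      map_smul, e1, h.Q_fix c, H.ghh, H.ghx, H.g1_gh (V_g1 h H c), smul_eq_mul] at f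
    have t0 : t = 0 := (mul_eq_zero.1 (by linear_combination f)).resolve_left H.two
    rw [d, t0, zero_smul, h.e_zero hx, mul_one]
  have top : centralizer {s'} = ⊤ := h.eq_top hx x0 fun z hz a => by
    obtain ⟨q, c, d⟩ := opp h H hx hy hz a
    have : ρ s' z = z := by
      rw [d, map_smul, ← Module.End.mul_apply, ← map_mul, cm q c, map_mul, Module.End.mul_apply, fy]
    rw [mem_centralizer_singleton_iff, mul_inv_eq_iff_eq_mul.1 (h.conj hz s'), this]
  obtain rfl : s' = 1 := h.inj (LinearMap.ext_on h.span fun z hz => by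
    rw [fix s' z hz (mem_centralizer_singleton_iff.1 (top.ge (mem_top _))).symm]; simp)
  rw [mul_one] at b ⊢
  exact cen h H big hx hy hr a0 b

end

/-- the centre of a set -/
def Zs (A : Set S) : Set S := {u | u ∈ A ∧ ∀ v ∈ A, u * v = v * u}

theorem image_Zs (β : MulAut S) (A : Set S) : β '' Zs A = Zs (β '' A) := by
  ext u
  constructor
  · rintro ⟨u, ⟨a, b⟩, rfl⟩
    refine ⟨⟨u, a, rfl⟩, ?_⟩
    rintro _ ⟨v, c, rfl⟩
    rw [← map_mul, b v c, map_mul]
  · rintro ⟨⟨u, a, rfl⟩, b⟩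
    exact ⟨u, ⟨a, fun v c => β.injective (by simpa using b _ ⟨v, c, rfl⟩)⟩, rfl⟩

end ps

open hs ps Subgroup in
theorem pStab : PStab.{u, v, w} := by
  intro K L _ _ _ _ g S _ _ _ ρ E e h hr two big β x hx
  by_cases x0 : x = 0
  · subst x0
    exact ⟨0, hx, by simp [rt, h.e_zero hx]⟩
  obtain ⟨y', y1, y2⟩ := h.exists_opp x0
  have hy := h.smul y' y1 (g x y')⁻¹
  have H : Hyp g x ((g x y')⁻¹ • y') := ⟨h.toInvF, h.ext x hx, h.ext _ hy, by simp [y2], two⟩
  obtain ⟨p, hp⟩ := CharP.exists K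
  have : Fact p.Prime := ⟨CharP.char_is_prime K p⟩
  have pQ : IsPGroup p (h.Q x) := fun q => ⟨3, Subtype.ext (h.pow_eq_one p (Gr.nil q.2))⟩
  obtain ⟨U, hU⟩ := pQ.exists_le_sylow
  have : Nontrivial U := ⟨⟨⟨_, hU (h.e_mem_Q hx 1)⟩, 1, fun c => one_ne_zero (e_inj h H hx
    ((congrArg Subtype.val c).trans (by simp [h.e_zero hx] : (1 : S) = e ((0 : K) • x))))⟩⟩
  have := U.isPGroup'.center_nontrivial
  obtain ⟨z, z1⟩ := exists_ne (1 : center U)
  have z2 : ∀ u ∈ U, (z.1.1 : S) * u = u * z.1.1 := fun u a =>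
    congrArg Subtype.val (mem_center_iff.1 z.2 ⟨u, a⟩).symm
  obtain ⟨t, ht⟩ := cen' h H big hx hy hr fun q a => z2 q (hU a)
  have t0 : t ≠ 0 := fun c => z1 (Subtype.ext (Subtype.ext (by
    rw [← ht]; simp [c, h.e_zero hx])))
  have fx : ∀ u ∈ U, ρ u x = x := fun u a => smul_right_injective L t0 (by
    have := h.conj (h.smul x hx t) u
    rw [show e (t • x) = z.1.1 from ht, ← z2 u a, mul_inv_cancel_right, ← ht] at this
    simpa using (h.e_inj (h.smul x hx t) (h.act _ (h.smul x hx t) u) this).symm)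
  have key : rt K e x = Zs (U : Set S) := by
    refine Set.ext fun s => ⟨?_, fun a => cen' h H big hx hy hr fun q b => a.2 q (hU b)⟩
    rintro ⟨r, rfl⟩
    refine ⟨hU (h.e_mem_Q hx r), fun u a => ?_⟩
    have := h.conj (h.smul x hx r) u
    rw [map_smul, fx u a] at this
    exact (mul_inv_eq_iff_eq_mul.1 this).symm
  obtain ⟨s, hs⟩ := MulAction.exists_smul_eq S U (β • U)
  have b : MulAut.conj s '' (U : Set S) = β '' (U : Set S) :=
    congrArg (fun P : Sylow p S => (P : Set S)) hs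
  exact ⟨ρ s x, h.act x hx s, by rw [← h.conj_rt hx, key, image_Zs, image_Zs, b]⟩

end Pool.Agent.MP_983df8_al
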