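import Pool.Agent.MP_983df8_al.Zenkov

/-! Row SZ1: the matrix computations in the Suzuki groups. -/

set_option linter.unnecessarySeqFocus false

namespace Pool.Agent.MP_983df8_al

open Subgroup Polynomial

universe u

namespace sz1

variable {K : Type*} [Field K] {θ : K →+* K}

lemma two (h : ∀ x, θ (θ x) = x * x) : (2 : K) = 0 := by
  have := h 2
  rw [map_ofNat, map_ofNat] at this
  linear_combination -this

lemma charP (h : ∀ x, θ (θ x) = x * x) : CharP K 2 := CharTwo.of_one_ne_zero_of_two_eq_zero one_ne_zero (two h)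

def T (θ : K →+* K) (m : Kˣ) : Matrix (Fin 4) (Fin 4) K :=
  !![m * θ m, 0, 0, 0; 0, m, 0, 0; 0, 0, (m : K)⁻¹, 0; 0, 0, 0, ((m : K) * θ m)⁻¹]

lemma UU (h : ∀ x, θ (θ x) = x * x) (a b c d : K) :
    szU θ a b * szU θ c d = szU θ (a + c) (b + d + θ a * c) := by
  have := charP h
  ext i j
  fin_cases i <;> fin_cases j <;> simp [szU, Matrix.mul_apply, Fin.sum_univ_four, h] <;> grind

lemma TT (m n : Kˣ) : T θ m * T θ n = T θ (m * n) := by
  ext i j
  fin_cases i <;> fin_cases j <;> simp [T, Matrix.mul_apply, Fin.sum_univ_four] <;> ring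

lemma TU (h : ∀ x, θ (θ x) = x * x) (m : Kˣ) (a b : K) :
    T θ m * szU θ a b = szU θ (θ m * a) (m * m * θ m * b) * T θ m := by
  have h1 := m.ne_zero
  have h2 : θ m ≠ 0 := (map_ne_zero θ).2 h1
  ext i j
  fin_cases i <;> fin_cases j <;> simp [T, szU, Matrix.mul_apply, Fin.sum_univ_four, h] <;>
    field_simp

lemma WW : szW K * szW K = 1 := by
  ext i j
  fin_cases i <;> fin_cases j <;> simp [szW, Matrix.mul_apply, Fin.sum_univ_four]

lemma WTW (m : Kˣ) : szW K * T θ m * szW K = T θ m⁻¹ := by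
  ext i j
  fin_cases i <;> fin_cases j <;> simp [T, szW, Matrix.mul_apply, Fin.sum_univ_four, mul_comm]

lemma N_ne (h : ∀ x, θ (θ x) = x * x) {a b : K} (hN : a * a * θ a + a * b + θ b = 0) :
    a = 0 ∧ b = 0 := by
  have := charP h
  have h1 := congrArg θ hN
  simp only [map_add, map_mul, h, map_zero] at h1
  have h2 : b * (a * θ a + b) = 0 := by grind
  have h3 : a * a * θ a = 0 → a = 0 := fun e => by simpa using e
  rcases mul_eq_zero.1 h2 with hb | hb
  · subst hb
    exact ⟨h3 (by simpa using hN), rfl⟩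
  · have h4 := congrArg θ hb
    simp only [map_add, map_mul, h, map_zero] at h4
    have ha : a = 0 := h3 (by grind)
    subst ha
    exact ⟨rfl, by simpa using hb⟩

lemma bru (h : ∀ x, θ (θ x) = x * x) (a b N : K) (m : Kˣ) (hN : N = a * a * θ a + a * b + θ b)
    (h0 : N ≠ 0) (hm : (m : K) = N / θ N) :
    szW K * szU θ a b * szW K = szU θ (b / N) (a / N) * T θ m * szW K *
      szU θ ((a * θ a + b) / N) (a / N + (a * θ a + b) / N * θ ((a * θ a + b) / N)) := by
  have := charP h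
  have h1 : θ N ≠ 0 := (map_ne_zero θ).2 h0
  have h2 : θ N = θ a * θ a * (a * a) + θ a * θ b + b * b := by
    rw [hN]; simp only [map_add, map_mul, h]
  ext i j
  fin_cases i <;> fin_cases j <;>
    simp [T, szU, szW, Matrix.mul_apply, Fin.sum_univ_four, h, hm] <;>
    generalize θ N = M at * <;> generalize θ a = α at * <;> generalize θ b = β at * <;>
    field_simp <;> subst hN h2 <;> grind

lemma cp4 {R : Type*} [CommRing R] (p q r s x y z k l o : R) :
    (!![p, q, r, s; x, y, z, 0; k, l, 0, 0; o, 0, 0, 0] : Matrix (Fin 4) (Fin 4) R).charpoly =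
      X ^ 4 - C (p + y) * X ^ 3 + C (p * y - q * x - r * k - s * o - z * l) * X ^ 2 -
        C (q * z * k + r * x * l - p * z * l - r * y * k - s * o * y) * X + C (s * z * l * o) := by
  simp [Matrix.charpoly, Matrix.det_succ_row_zero, Fin.sum_univ_succ, Matrix.charmatrix_apply,
    Fin.succAbove, Matrix.diagonal_apply]
  ring

lemma cp4' {R : Type*} [CommRing R] (p q r s y z k l o n : R) :
    (!![p, q, r, s; 0, y, z, k; 0, 0, l, o; 0, 0, 0, n] : Matrix (Fin 4) (Fin 4) R).charpoly =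
      X ^ 4 - C (p + y + l + n) * X ^ 3 +
        C (p * y + p * l + p * n + y * l + y * n + l * n) * X ^ 2 -
        C (p * y * l + p * y * n + p * l * n + y * l * n) * X + C (p * y * l * n) := by
  simp [Matrix.charpoly, Matrix.det_succ_row_zero, Fin.sum_univ_succ, Matrix.charmatrix_apply,
    Fin.succAbove, Matrix.diagonal_apply]
  ring

lemma shape (h : ∀ x, θ (θ x) = x * x) {e1 e2 e3 e4 t : K} (h1 : e1 = t) (h2 : e2 = θ t)
    (h3 : e3 = t) (h4 : e4 = 1) :
    (X ^ 4 - C e1 * X ^ 3 + C e2 * X ^ 2 - C e3 * X + C e4 : K[X]) =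
      X ^ 4 + C t * X ^ 3 + C (θ t) * X ^ 2 + C t * X + 1 := by
  have : C t + C t = (0 : K[X]) := by
    rw [← map_add, ← two_mul, two h, zero_mul, map_zero]
  rw [h1, h2, h3, h4, map_one]
  linear_combination (-X ^ 3 - X) * this

/-- the required form of the characteristic polynomial -/
def Good (θ : K →+* K) (A : Matrix (Fin 4) (Fin 4) K) : Prop :=
  A.charpoly = X ^ 4 + C A.trace * X ^ 3 + C (θ A.trace) * X ^ 2 + C A.trace * X + 1

lemma Good.comm {A B : Matrix (Fin 4) (Fin 4) K} (h : Good θ (A * B)) : Good θ (B * A) := by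
  unfold Good at *
  rwa [Matrix.charpoly_mul_comm, Matrix.trace_mul_comm]

lemma goodB (h : ∀ x, θ (θ x) = x * x) (a b : K) (m : Kˣ) : Good θ (szU θ a b * T θ m) := by
  have := charP h
  have h1 := m.ne_zero
  have h2 : θ m ≠ 0 := (map_ne_zero θ).2 h1
  unfold Good
  have e : szU θ a b * T θ m = !![m * θ m, a * m, (a * θ a + b) * (m : K)⁻¹,
      (a * a * θ a + a * b + θ b) * ((m : K) * θ m)⁻¹; 0, m, θ a * (m : K)⁻¹,
      b * ((m : K) * θ m)⁻¹; 0, 0, (m : K)⁻¹, a * ((m : K) * θ m)⁻¹;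
      0, 0, 0, ((m : K) * θ m)⁻¹] := by
    ext i j
    fin_cases i <;> fin_cases j <;> simp [T, szU, Matrix.mul_apply, Fin.sum_univ_four]
  rw [e, cp4']
  refine shape h ?_ ?_ ?_ ?_ <;> simp [Matrix.trace, Fin.sum_univ_four, h] <;>
    generalize θ m = M at * <;> field_simp <;> grind

lemma goodW (h : ∀ x, θ (θ x) = x * x) (a b : K) (m : Kˣ) :
    Good θ (szU θ a b * T θ m * szW K) := by
  have := charP h
  have h1 := m.ne_zero
  have h2 : θ m ≠ 0 := (map_ne_zero θ).2 h1
  unfold Good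
  have e : szU θ a b * T θ m * szW K = !![(a * a * θ a + a * b + θ b) * ((m : K) * θ m)⁻¹,
      (a * θ a + b) * (m : K)⁻¹, a * m, m * θ m; b * ((m : K) * θ m)⁻¹, θ a * (m : K)⁻¹, m, 0;
      a * ((m : K) * θ m)⁻¹, (m : K)⁻¹, 0, 0; ((m : K) * θ m)⁻¹, 0, 0, 0] := by
    ext i j
    fin_cases i <;> fin_cases j <;> simp [T, szU, szW, Matrix.mul_apply, Fin.sum_univ_four]
  rw [e, cp4]
  refine shape h ?_ ?_ ?_ ?_ <;> simp [Matrix.trace, Fin.sum_univ_four, h] <;>
    generalize θ m = M at * <;> field_simp <;> grind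

lemma U0 : szU θ 0 0 = 1 := by
  ext i j
  fin_cases i <;> fin_cases j <;> simp [szU]

lemma T1 : T θ 1 = 1 := by
  ext i j
  fin_cases i <;> fin_cases j <;> simp [T]

lemma Uinv (h : ∀ x, θ (θ x) = x * x) (a b : K) : szU θ a b * szU θ a (b + θ a * a) = 1 ∧
    szU θ a (b + θ a * a) * szU θ a b = 1 := by
  have := charP h
  constructor <;> rw [UU h, ← U0 (θ := θ)] <;> congr 1 <;> grind

lemma surj [Finite K] (h : ∀ x, θ (θ x) = x * x) (m : Kˣ) :
    ∃ b : K, b ≠ 0 ∧ (m : K) = θ b / θ (θ b) := by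
  have := charP h
  let f : Kˣ → Kˣ := fun b => Units.map (θ : K →* K) b / (b * b)
  have hf : ∀ b, (f b : K) = θ b / (b * b) := fun b => by simp [f]
  have : Function.Injective f := fun b c e => by
    have hb := b.ne_zero
    have hc := c.ne_zero
    have e1 := congrArg Units.val e
    rw [hf, hf] at e1
    have e2 : θ (b / c) = (b / c) * (b / c) := by
      have : θ c ≠ 0 := (map_ne_zero θ).2 hc
      rw [map_div₀]
      field_simp at e1 ⊢
      exact e1
    have e3 := congrArg θ e2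
    rw [h, map_mul, e2] at e3
    have e4 : ((b : K) / c) ≠ 0 := div_ne_zero hb hc
    have e5 : (b : K) / c = 1 := by
      generalize (b : K) / c = x at *
      have : x * x * (x + 1) ^ 2 = 0 := by grind
      have : x + 1 = 0 := by simpa [e4] using this
      grind
    exact Units.ext ((div_eq_one_iff_eq hc).1 e5)
  obtain ⟨b, rfl⟩ := Finite.surjective_of_injective this m
  exact ⟨b, b.ne_zero, by rw [hf, h]⟩

/-- the monoid of matrices -/
abbrev M (θ : K →+* K) : Submonoid (Matrix (Fin 4) (Fin 4) K) :=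
  Submonoid.closure {m | m = szW K ∨ ∃ a b, m = szU θ a b}

lemma W_mem : szW K ∈ M θ := Submonoid.subset_closure (Or.inl rfl)

lemma U_mem (a b : K) : szU θ a b ∈ M θ := Submonoid.subset_closure (Or.inr ⟨a, b, rfl⟩)

lemma T_mem [Finite K] (h : ∀ x, θ (θ x) = x * x) (m : Kˣ) : T θ m ∈ M θ := by
  obtain ⟨b, hb, hm⟩ := surj h m
  have e := bru h 0 b (θ b) m (by simp) ((map_ne_zero θ).2 hb) hm
  generalize b / θ b = c at e
  generalize 0 / θ b = d at e
  generalize (0 * θ 0 + b) / θ b = c' at e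
  generalize d + c' * θ c' = d' at e
  have : T θ m = szU θ c (d + θ c * c) * (szW K * szU θ 0 b * szW K) *
      szU θ c' (d' + θ c' * c') * szW K := by
    rw [e]
    simp only [mul_assoc]
    rw [← mul_assoc (szU θ c' d'), (Uinv h c' d').1, one_mul, WW, mul_one, ← mul_assoc,
      (Uinv h c d).2, one_mul]
  rw [this]
  exact mul_mem (mul_mem (mul_mem (U_mem _ _) (mul_mem (mul_mem W_mem (U_mem _ _)) W_mem))
    (U_mem _ _)) W_mem

lemma bru' (h : ∀ x, θ (θ x) = x * x) (a b : K) (hab : szU θ a b ≠ 1) : ∃ c d m e f,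
    szW K * szU θ a b * szW K = szU θ c d * T θ m * szW K * szU θ e f := by
  have h0 : a * a * θ a + a * b + θ b ≠ 0 := fun e => hab (by
    obtain ⟨rfl, rfl⟩ := N_ne h e
    exact U0)
  exact ⟨_, _, Units.mk0 _ (div_ne_zero h0 ((map_ne_zero θ).2 h0)), _, _,
    bru h a b _ _ rfl h0 rfl⟩

lemma bruhat (h : ∀ x, θ (θ x) = x * x) {x : Matrix (Fin 4) (Fin 4) K} (hx : x ∈ M θ) :
    ∃ a b m, x = szU θ a b * T θ m ∨ ∃ c d, x = szU θ a b * T θ m * szW K * szU θ c d := by
  induction hx using Submonoid.closure_induction_right with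
  | one => exact ⟨0, 0, 1, Or.inl (by rw [U0, T1, one_mul])⟩
  | mul_right x _ y hy ih =>
    obtain ⟨a, b, m, rfl | ⟨c, d, rfl⟩⟩ := ih
    · rcases hy with rfl | ⟨c, d, rfl⟩
      · exact ⟨a, b, m, Or.inr ⟨0, 0, by rw [U0, mul_one]⟩⟩
      · exact ⟨_, _, m, Or.inl (by rw [mul_assoc, TU h, ← mul_assoc, UU h])⟩
    · rcases hy with rfl | ⟨c', d', rfl⟩
      · by_cases e : szU θ c d = 1
        · exact ⟨a, b, m, Or.inl (by rw [e, mul_one, mul_assoc, WW, mul_one])⟩
        · obtain ⟨c', d', m', e', f', hb⟩ := bru' h c d e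
          exact ⟨_, _, m * m', Or.inr ⟨e', f', by
            rw [mul_assoc, mul_assoc, ← mul_assoc (szW K), hb, ← mul_assoc, ← mul_assoc,
              ← mul_assoc, mul_assoc _ (T θ m), TU h, ← mul_assoc, UU h, mul_assoc _ (T θ m), TT]⟩⟩
      · exact ⟨a, b, m, Or.inr ⟨_, _, by rw [mul_assoc, UU h]⟩⟩

lemma good (h : ∀ x, θ (θ x) = x * x) {x : Matrix (Fin 4) (Fin 4) K} (hx : x ∈ M θ) :
    Good θ x := by
  obtain ⟨a, b, m, rfl | ⟨c, d, rfl⟩⟩ := bruhat h hx
  · exact goodB h a b m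
  · refine Good.comm ?_
    rw [← mul_assoc, ← mul_assoc, UU h]
    exact goodW h _ _ m

end sz1

open sz1 in
theorem sz1 : Sz1.{u} := by
  rintro S _ ⟨K, _, _, θ, h, hK, ⟨e⟩⟩
  let ρ : S →* Matrix (Fin 4) (Fin 4) K := (M θ).subtype.comp e.toMonoidHom
  have hρ : Function.Injective ρ := Subtype.val_injective.comp e.injective
  have hs : ∀ x (hx : x ∈ M θ), ρ (e.symm ⟨x, hx⟩) = x := fun x hx => by simp [ρ]
  refine ⟨K, inferInstance, inferInstance, θ, fun a b => e.symm ⟨_, U_mem a b⟩,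
    fun m => e.symm ⟨_, T_mem h m⟩, e.symm ⟨_, W_mem⟩, ρ, hK,
    ⟨h, fun a b c d => hρ ?_, fun a b e1 => ?_, fun m n => hρ ?_,
      fun m a b => mul_inv_eq_iff_eq_mul.2 (hρ ?_), hρ ?_, fun m => hρ ?_, fun a b e1 => ?_,
      fun a b m e1 => ?_, ?_⟩, hρ, fun s => good h (e s).2⟩
  · simp only [map_mul, hs, sz1.UU h]
  · have e2 := congrArg ρ e1
    rw [hs, map_one] at e2
    exact ⟨by simpa [szU] using congrFun (congrFun e2 0) 1,
      by simpa [szU] using congrFun (congrFun e2 1) 3⟩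
  · simp only [map_mul, hs, TT]
  · simp only [map_mul, hs, TU h]
  · simp only [map_mul, hs, WW, map_one]
  · simp only [map_mul, hs, WTW]
  · obtain ⟨c, d, m, e', f, hb⟩ := bru' h a b fun e2 => e1 (hρ (by rw [hs, map_one, e2]))
    exact ⟨c, d, m, e', f, hρ (by simp only [map_mul, hs, hb])⟩
  · have e2 := congrArg ρ e1
    simp only [map_mul, hs] at e2
    simpa [szU, szW, T, Matrix.mul_apply, Fin.sum_univ_four] using congrFun (congrFun e2 3) 0
  · rw [eq_top_iff]
    intro s _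
    obtain ⟨⟨x, hx⟩, rfl⟩ := e.symm.surjective s
    induction hx using Submonoid.closure_induction with
    | mem x hx =>
      rcases hx with rfl | ⟨a, b, rfl⟩
      · exact subset_closure (Or.inl rfl)
      · exact subset_closure (Or.inr ⟨a, b, rfl⟩)
    | one => exact (map_one e.symm) ▸ one_mem _
    | mul x y hx hy ihx ihy =>
      have := mul_mem (ihx trivial) (ihy trivial)
      rwa [← map_mul] at this

end Pool.Agent.MP_983df8_al
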