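import Pool.Agent.MP_983df8_al.FourAll
import Pool.Agent.MP_983df8_al.Sz4
import Pool.Agent.MP_983df8_al.PStab
import Pool.Agent.MP_983df8_al.Zenkov
import Pool.Agent.MP_983df8_al.Sz1

namespace Pool.Agent.MP_983df8_al

open Subgroup

universe u

variable {π : Set ℕ}

theorem loc_rt {S : Type u} [Group S] [Finite S] [IsSimpleGroup S]
    (hS : ¬ IsMulCommutative S) {D : Subgroup (MulAut S)} [Group.IsSolvable D]
    (hi : Function.Injective (MulAut.conj : S →* MulAut S)) (hD : IsPi π D)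
    (hJ : IsHall π (D.comap MulAut.conj)) (h23 : 2 ∉ π ∨ 3 ∉ π) {p : ℕ} (hp : p.Prime)
    (a : p ∉ π) (h : Rt π p S) :
    ∃ x : Fin 3 → S, ∀ β ∈ D, (∀ a, MulAut.conj (x a) * β * (MulAut.conj (x a))⁻¹ ∈ D) → β = 1 := by
  obtain ⟨K, L, _, _, _, _, _, g, ρ, E, e, h1, h2, h5, h6, h7, h8, h9, h10⟩ := h
  have H : RS g ρ E e := ⟨⟨h2.1, h2.2.1⟩, h1, h2.2.2, h5, h6, h7, fun x b => (h8 x b).1,
    fun x b => (h8 x b).2.1, fun x b => (h8 x b).2.2.1, fun x b => LinearMap.ext (h8 x b).2.2.2⟩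
  have k : ∀ q : ℕ, q.Prime → p ≠ q → (q : K) ≠ 0 := fun q b c d =>
    c ((Nat.prime_dvd_prime_iff_eq hp b).1 ((CharP.cast_eq_zero_iff K p q).1 d))
  have r : 5 ≤ p → Rigid g E := fun b => H.rigid (by simpa using k 2 Nat.prime_two (by omega))
    (by simpa using k 3 Nat.prime_three (by omega))
  refine loc_all hS hi hD hJ h23 hp (Or.inr ⟨a, K, L, _, ‹_›, ‹_›, _, _, g, ρ, E, e, h1, h2, h5, h6, h7,
    h8, ?_, fun b => ⟨(h10 b).1, (h10 b).2.1, ?_⟩⟩)
  · refine (lt_or_ge p 5).elim h9 fun b β _ => pStab K L g S ρ E e H (r b)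
      (by simpa using k 2 Nat.prime_two (by omega)) (b.trans ?_) β
    have := Fintype.ofFinite K
    have := Fact.mk hp
    obtain ⟨n, -, c⟩ := FiniteField.card K p
    rw [Nat.card_eq_fintype_card, c]
    exact Nat.le_self_pow n.ne_zero p
  · by_cases c : p = 3
    · exact (h10 b).2.2 c
    have d : p ≠ 2 := fun d => a (d ▸ b)
    exact r (hp.five_le_of_ne_two_of_ne_three d c)

variable {G : Type u} [Group G]

theorem comp_hall [Finite G] {H S : Subgroup G} [Group.IsSolvable H] (hH : IsHall π H)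
    (hS : IsComp S) : Group.IsSolvable (autOf H S) ∧ (autOf H S).comap MulAut.conj ≠ ⊤ ∧
      IsHall π ((autOf H S).comap MulAut.conj) := by
  have : Group.IsSolvable (normalizer (S : Set G)).subtype.ker := by
    rw [ker_subtype]; infer_instance
  have : Group.IsSolvable (H.subgroupOf (normalizer (S : Set G))) := solvable_comap _ H
  have hle : H.subgroupOf S ≤ (autOf H S).comap MulAut.conj := fun s hs =>
    ⟨⟨s, le_normalizer s.2⟩, hs, MulEquiv.ext fun _ => rfl⟩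
  have a := (hH.1.autOf S).comap_inj _ hS.conj_inj
  exact ⟨Group.isSolvable_of_surjective (MonoidHom.subgroupMap_surjective _ _),
    fun e => hS.not_pi hH (a.of_dvd (by simp [e])), a, fun p hp hm hd =>
      (hH.subgroupOf hS.1).2 p hp hm (hd.trans (index_dvd_of_le hle))⟩

theorem main_max [Finite G] (hD : IsD π G) {H : Subgroup G}
    (hH : IsHall π H) [Group.IsSolvable H] (h : Comps π (G ⧸ Rad G)) :
    ∃ x y z : G, OPi π G = H ⊓ conjBy H x ⊓ conjBy H y ⊓ conjBy H z := by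
  have hH' := hH.map (QuotientGroup.mk' (Rad G)) (QuotientGroup.mk'_surjective _)
  have : Group.IsSolvable (H.map (QuotientGroup.mk' (Rad G))) :=
    Group.isSolvable_of_surjective (MonoidHom.subgroupMap_surjective _ H)
  have hW := map_W _ (QuotientGroup.mk'_surjective (Rad G)) fun X hX => hD.exists_le hH hX
  set J := H.map (QuotientGroup.mk' (Rad G))
  have k : ∀ S, IsComp S → LocG (Fin 3) J S ∨ (2 ∉ π ∨ 3 ∉ π) ∧
      (autOf J S).comap MulAut.conj ≠ ⊤ ∧ ∃ x : Fin 3 → S, ∀ β ∈ autOf J S,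
        (∀ a, MulAut.conj (x a) * β * (MulAut.conj (x a))⁻¹ ∈ autOf J S) → β = 1 := fun S c => by
    have := c.2.1
    obtain ⟨_, c1, c2⟩ := comp_hall hH' c
    have c3 := hH'.1.autOf S
    rcases h S c.1 c.2.1 c.2.2 with a | a | a | ⟨b, a | a | a | ⟨p, hp, a | ⟨d, a | ⟨a, e | ⟨rfl, e⟩⟩⟩⟩⟩
    · exact Or.inl (locG_alt hH' c.1 a (alt_not_both hH' hW c.1 a (c.not_pi hH'))).three
    · exact Or.inl (locG_L2 hH' hW c a)
    · obtain ⟨K, _, _, θ, u, t, w, ρ, a1, a2, a3⟩ := sz1 S a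
      by_cases h2 : 2 ∈ π
      · exact Or.inl ((sz4 K θ S u t w a1 a2 c.2.2 c.conj_inj _
          (c2.2 2 Nat.prime_two h2)).elim locG_of_aut)
      · exact Or.inr ⟨Or.inl h2, c1, sz3 K θ S u t w a2 (sz2 K θ S ρ a2.sq a3) c.2.2 c.conj_inj _
          (c3.odd h2)⟩
    · exact Or.inl (locG_Ln hH' c b a)
    · exact Or.inr ⟨b, c1, loc_cnt c.conj_inj c3 a⟩
    · exact Or.inr ⟨b, c1, loc_gen c3 a⟩
    · exact Or.inr ⟨b, c1, loc_all c.2.2 c.conj_inj c3 c2 b hp (Or.inl a)⟩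
    · exact Or.inr ⟨b, c1, loc_rt c.2.2 c.conj_inj c3 c2 b hp d a⟩
    · exact Or.inr ⟨b, c1, loc_char baseTwo zenkov c.2.2 a hp d c3 c.conj_inj (Or.inl e)⟩
    · exact Or.inr ⟨b, c1, loc_noInv baseTwo a d c3 c.conj_inj e⟩
  by_cases h3 : 3 ∈ π
  swap
  · exact red hH (glue3 (dist3 rigX rig2) _ radicalTrivial_quot _
      (fun c => h3 (hH'.1 3 Nat.prime_three c)) fun S c => (k S c).imp_right (·.2))
  by_cases h2 : 2 ∈ π
  · exact red hH (glue radicalTrivial_quot fun S c => (k S c).resolve_right fun a =>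
      a.1.elim (· h2) (· h3))
  · exact red hH (glue2 radicalTrivial_quot (hH'.1.odd h2) fun S c => (k S c).elim LocG.two
      fun a => (two_of_one ((hH'.1.autOf S).odd h2) a.2.1 a.2.2).elim locG2_of_aut)

end Pool.Agent.MP_983df8_al
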