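import Pool.Agent.MP_983df8_al.Dist3
import Pool.Agent.MP_983df8_al.Red

/-! A base of size two over a large field, primitive case. -/

namespace Pool.Agent.MP_983df8_al

open Subgroup

universe u v w

namespace PinK

section field

open Polynomial

variable {K : Type*} [Field K] [Finite K]

/-- a point of the conic that lies on none of a few lines -/
theorem exists_pt0 (h2 : (2 : K) ≠ 0) (L : List (K × K × K))
    (hL : ∀ p ∈ L, p.1 ≠ 0 ∨ p.2.1 ≠ 0 ∨ p.2.2 ≠ 0) (hc : 2 * L.length < Nat.card K) :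
    ∃ a b c : K, a * a + b * b + c * c = 0 ∧ ∀ p ∈ L, p.1 * a + p.2.1 * b + p.2.2 * c ≠ 0 := by
  have := Fintype.ofFinite K
  obtain ⟨r, hr⟩ := CharP.exists K
  have : NeZero r := ⟨CharP.char_ne_zero_of_finite K r⟩
  obtain ⟨a, b, hab⟩ := CharP.sq_add_sq K r (-1)
  rw [Int.cast_neg, Int.cast_one] at hab
  generalize (a : K) = α at hab
  generalize (b : K) = β at hab
  let f : K × K × K → K[X] := fun p => C (p.2.2 - (p.1 * α + p.2.1 * β)) * X ^ 2 +
    C (2 * (p.2.1 * α - p.1 * β)) * X + C (p.1 * α + p.2.1 * β + p.2.2)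
  have hf : ∀ p ∈ L, f p ≠ 0 := fun p hp e => by
    have e0 := congrArg (coeff · 0) e
    have e1 := congrArg (coeff · 1) e
    have e2 := congrArg (coeff · 2) e
    simp only [f, coeff_add, coeff_C_mul, coeff_X_pow, coeff_X, coeff_C, coeff_zero] at e0 e1 e2
    norm_num [h2] at e0 e1 e2
    have a3 : p.2.2 = 0 := mul_left_cancel₀ h2 (by linear_combination e0 + e2)
    rcases hL p hp with c | c | c
    · exact c (by linear_combination -α * e0 + β * e1 + p.1 * hab + α * a3)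
    · exact c (by linear_combination -β * e0 - α * e1 + p.2.1 * hab + β * a3)
    · exact c a3
  have hP : (L.map f).prod ≠ 0 := List.prod_ne_zero fun c => by
    obtain ⟨p, hp, e⟩ := List.mem_map.1 c
    exact hf p hp e
  have hd : (L.map f).prod.natDegree ≤ 2 * L.length := by
    refine (natDegree_list_prod_le _).trans ?_
    have := List.sum_le_card_nsmul ((L.map f).map natDegree) 2 fun x hx => by
      obtain ⟨q, hq, rfl⟩ := List.mem_map.1 hx
      obtain ⟨p, -, rfl⟩ := List.mem_map.1 hq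
      exact natDegree_quadratic_le
    simpa [mul_comm] using this
  obtain ⟨t, ht⟩ : ∃ t, (L.map f).prod.eval t ≠ 0 := by
    by_contra hc'
    push Not at hc'
    exact hP (eq_zero_of_natDegree_lt_card_of_eval_eq_zero _ Function.injective_id hc'
      (by rw [← Nat.card_eq_fintype_card]; omega))
  refine ⟨α * (1 - t ^ 2) - 2 * t * β, 2 * t * α + β * (1 - t ^ 2), 1 + t ^ 2,
    by linear_combination (1 + t ^ 2) ^ 2 * hab, fun p hp e => ht ?_⟩
  rw [eval_list_prod]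
  refine List.prod_eq_zero (List.mem_map.2 ⟨f p, List.mem_map_of_mem hp, ?_⟩)
  simp only [f, eval_add, eval_mul, eval_C, eval_pow, eval_X]
  linear_combination e

/-- a general point of the conic -/
structure Gen (a b c : K) : Prop where
  iso : a * a + b * b + c * c = 0
  ha : a ≠ 0
  hb : b ≠ 0
  hc : c ≠ 0
  two : ∀ e : K, e = 1 ∨ e = -1 → a + e * b ≠ 0 ∧ a + e * c ≠ 0 ∧ b + e * c ≠ 0
  three : ∀ e e' : K, e = 1 ∨ e = -1 → e' = 1 ∨ e' = -1 → a + e * b + e' * c ≠ 0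

theorem exists_gen (h2 : (2 : K) ≠ 0) (hK : 32 < Nat.card K) : ∃ a b c : K, Gen a b c := by
  obtain ⟨a, b, c, h0, h⟩ := exists_pt0 h2 [(1, 0, 0), (0, 1, 0), (0, 0, 1), (1, 1, 0), (1, 0, 1),
    (0, 1, 1), (1, -1, 0), (1, 0, -1), (0, 1, -1), (1, 1, 1), (1, 1, -1), (1, -1, 1), (1, -1, -1)]
    (by simp) (by simp only [List.length_cons, List.length_nil]; omega)
  simp only [List.forall_mem_cons, zero_mul, add_zero, zero_add] at h
  obtain ⟨h1, h2, h3, h4, h5, h6, h7, h8, h9, k1, k2, k3, k4, -⟩ := h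
  rw [one_mul] at h1 h2 h3 h4 h5 h6 h7 h8 h9 k1 k2 k3 k4
  refine ⟨a, b, c, h0, h1, h2, h3, ?_, ?_⟩
  · rintro e (rfl | rfl)
    exacts [⟨h4, h5, h6⟩, ⟨h7, h8, h9⟩]
  · rintro e e' (rfl | rfl) (rfl | rfl)
    exacts [k1, k2, k3, k4]

end field

variable {K : Type*} [Field K] {D V : Type*} [Group D] [AddCommGroup V] [Module K V]
  [DistribMulAction D V] [SMulCommClass D K V] {U N : Subgroup D}

/-- the operator `a x + b y + c x y` -/
def Eo (x y : D) (a b c : K) (v : V) : V := a • x • v + b • y • v + c • x • y • v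

theorem xxy {x y : D} {w : V} (hx : x • x • w = -w) (hxy : ∀ v : V, y • x • v = -(x • y • v)) :
    x • x • y • w = -(y • w) := by
  have h := hxy (x • w)
  rw [hxy w, hx, smul_neg, smul_neg, neg_neg] at h
  exact h.symm

theorem pol {x y : D} {w : V} (hx : x • x • w = -w) (hy : y • y • w = -w)
    (hxy : ∀ v : V, y • x • v = -(x • y • v)) (a b c a' b' c' : K) :
    Eo x y a b c (Eo x y a' b' c' w) + Eo x y a' b' c' (Eo x y a b c w) =
      -(2 * (a * a' + b * b' + c * c')) • w := by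
  simp only [Eo, smul_add, smul_comm (_ : D) (_ : K), hxy, hx, hy, xxy hx hxy, smul_neg, neg_neg]
  generalize x • y • w = w4
  generalize x • w = w2, y • w = w3
  module

omit [SMulCommClass D K V] in
theorem Eo_zero (x y : D) (a b c : K) : Eo x y a b c (0 : V) = 0 := by simp [Eo]

theorem orth (h2 : (2 : K) ≠ 0) {x y : D} {w : V} (hw : w ≠ 0) (hx : x • x • w = -w)
    (hy : y • y • w = -w) (hxy : ∀ v : V, y • x • v = -(x • y • v)) {a b c a' b' c' : K}
    (e : Eo x y a b c w = 0) (e' : Eo x y a' b' c' w = 0) : a * a' + b * b' + c * c' = 0 := by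
  have h := pol hx hy hxy a b c a' b' c'
  rw [e, e', Eo_zero, Eo_zero, add_zero] at h
  exact (mul_eq_zero.1 (neg_eq_zero.1 ((smul_eq_zero.1 h.symm).resolve_right hw))).resolve_left h2

/-- a signed permutation of `x`, `y`, `x y` that keeps the vector is trivial -/
theorem signs (h2 : (2 : K) ≠ 0) {x y s t : D} {w : V} (hw : w ≠ 0) (hx : x • x • w = -w)
    (hy : y • y • w = -w) (hxy : ∀ v : V, y • x • v = -(x • y • v)) {a b c e f : K}
    (hg : Gen a b c) (h0 : Eo x y a b c w = 0) (he : e = 1 ∨ e = -1) (hf : f = 1 ∨ f = -1)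
    (hs : s = x ∨ s = y ∨ s = x * y) (ht : t = x ∨ t = y ∨ t = x * y) (hst : s ≠ t)
    (h : a • e • s • w + b • f • t • w + c • (e * f) • s • t • w = 0) :
    e • s • w = x • w ∧ f • t • w = y • w := by
  have k : ∀ l : K, l ≠ 0 → 2 * (l * l) ≠ 0 := fun l hl => mul_ne_zero h2 (mul_ne_zero hl hl)
  have i := hg.iso
  have o : ∀ a' b' c' : K, a' • x • w + b' • y • w + c' • x • y • w = 0 →
      a * a' + b * b' + c * c' = 0 := fun _ _ _ => orth h2 hw hx hy hxy h0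
  have hef : e * f = 1 ∨ e * f = -1 := by
    rcases he with rfl | rfl <;> rcases hf with rfl | rfl <;> simp
  have e2 : e * e = 1 := by rcases he with rfl | rfl <;> simp
  have f2 : f * f = 1 := by rcases hf with rfl | rfl <;> simp
  rcases hs with hs | hs | hs <;> rcases ht with ht | ht | ht <;> rw [hs, ht] at h hst ⊢ <;>
    (try simp only [mul_smul x, hxy, hx, hy, xxy hx hxy, smul_neg, neg_neg] at h ⊢) <;>
    generalize x • y • w = w4 at h o ⊢ <;> generalize x • w = w2, y • w = w3 at h o ⊢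
  · exact absurd rfl hst
  · have h1 := o (a * e) (b * f) (c * (e * f)) (by rw [← h]; module)
    rcases he with rfl | rfl <;> rcases hf with rfl | rfl
    · simp
    · exact absurd (by linear_combination h1 + i) (k a hg.ha)
    · exact absurd (by linear_combination h1 + i) (k b hg.hb)
    · exact absurd (by linear_combination h1 + i) (k c hg.hc)
  · have h1 := o (a * e) (-(c * (e * f))) (b * f) (by rw [← h]; module)
    rcases he with rfl | rfl
    · exact absurd (by linear_combination 2 * h1) (k a hg.ha)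
    · exact absurd (by linear_combination 2 * h1 + 2 * i + 2 * c * c * f2) (k _ (hg.two f hf).2.2)
  · have h1 := o (b * f) (a * e) (-(c * (e * f))) (by rw [← h]; module)
    rcases he with rfl | rfl <;> rcases hf with rfl | rfl
    · exact absurd (by linear_combination 2 * h1 + 2 * i) (k _ (hg.two 1 (.inl rfl)).1)
    · exact absurd (by linear_combination 2 * h1) (k c hg.hc)
    · exact absurd (by linear_combination 2 * h1) (k c hg.hc)
    · exact absurd (by linear_combination 2 * h1 + 2 * i) (k _ (hg.two (-1) (.inr rfl)).1)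
  · exact absurd rfl hst
  · have h1 := o (c * (e * f)) (a * e) (b * f) (by rw [← h]; module)
    exact absurd (by
      linear_combination 4 * h1 + 2 * i + 2 * (b * b + 2 * b * c * f + c * c * f * f) * e2 +
        2 * c * c * f2) (k _ (hg.three e _ he hef))
  · have h1 := o (b * f) (c * (e * f)) (a * e) (by rw [← h]; module)
    exact absurd (by linear_combination 4 * h1 + 2 * i + 2 * c * c * e2 + 2 * b * b * f2)
      (k _ (hg.three f e hf he))
  · have h1 := o (-(c * (e * f))) (b * f) (a * e) (by rw [← h]; module)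
    rcases hf with rfl | rfl
    · exact absurd (by linear_combination 2 * h1) (k b hg.hb)
    · exact absurd (by linear_combination 2 * h1 + 2 * i + 2 * c * c * e2) (k _ (hg.two e he).2.1)
  · exact absurd rfl hst

theorem ck (h : GS U N) {a b : D} (ha : a ∈ N) (hb : b ∈ N) {i : ℕ} (hi : Commute (a ^ i) b) :
    (a * b * a⁻¹ * b⁻¹) ^ i = 1 := by
  have e := comm_pow_left (a := a) (b := b) (c := a * b * a⁻¹ * b⁻¹) (by group)
    (h.cent _ (h.comm _ ha _ hb) _ ha) i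
  rwa [hi.eq, right_eq_mul] at e

omit [SMulCommClass D K V] in
theorem sgn [Finite D] {h : PS V U N} {w : V} (hw : h.IsMaxV w) {s t : D} (ht : t ∈ h.cen w)
    (hst : s * t ∈ h.line w) (e1 : s • s • w = -w) (e2 : t • t • w = -w) :
    ∃ a ∈ h.line w, ∃ e : K, (e = 1 ∨ e = -1) ∧ s = t * a ∧ a • w = e • w := by
  have ha := mul_mem hst (inv_mem (PS.sq_mem hw ht))
  have hs : s = t * (s * t * (t ^ 2)⁻¹) := by
    rw [← mul_assoc, ← ht.2 _ hst]
    group
  generalize s * t * (t ^ 2)⁻¹ = a at ha hs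
  obtain ⟨a1, u, hu, e⟩ := id ha
  have hu2 : u ^ 2 = 1 := h.cancel (U.pow_mem hu 2) U.one_mem hw.1 (by
    rw [hs, mul_smul, mul_smul, smul_comm_of (a := a) (ht.2 _ ha), e,
      ← smul_comm_of (h.cent _ hu _ a1), e, ← mul_smul u, ← sq,
      ← smul_comm_of (h.cent _ (U.pow_mem hu 2) _ ht.1),
      ← smul_comm_of (h.cent _ (U.pow_mem hu 2) _ ht.1), e2, smul_neg, neg_inj] at e1
    rw [e1, one_smul])
  by_cases h1 : u = 1
  · exact ⟨a, ha, 1, .inl rfl, hs, by rw [e, h1, one_smul, one_smul]⟩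
  · exact ⟨a, ha, -1, .inr rfl, hs, by rw [e, h.neg_of_inv hu h1 hu2, neg_smul, one_smul]⟩

omit [SMulCommClass D K V] in
theorem noncomm (h2 : (2 : K) ≠ 0) {x y : D} {w : V} (hw : w ≠ 0)
    (hxy : ∀ v : V, y • x • v = -(x • y • v)) : ¬ Commute y x := fun e => by
  have h1 := hxy w
  rw [smul_comm_of e, eq_neg_iff_add_eq_zero, ← two_smul K, smul_eq_zero] at h1
  exact hw ((smul_eq_zero_iff_eq y).1 ((smul_eq_zero_iff_eq x).1 (h1.resolve_left h2)))

/-- a vector killed by a general operator pins the quaternion factor -/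
theorem pin_xy [Finite D] (h2 : (2 : K) ≠ 0) {h : PS V U N} {w : V} (hw : h.IsMaxV w) {x y : D}
    (hx : x ∈ h.cen w) (hy : y ∈ h.cen w) (ex : x • x • w = -w) (ey : y • y • w = -w)
    (hxy : ∀ v : V, y • x • v = -(x • y • v)) {a b c : K} (hg : Gen a b c)
    (h0 : Eo x y a b c w = 0) {g : D} (hgw : g • w = w) :
    g • x • w = x • w ∧ g • y • w = y • w := by
  have hne : ∀ {p q : D}, Commute (g * p * g⁻¹) (g * q * g⁻¹) → Commute p q := fun {p q} e => by
    have := congrArg (fun t => g⁻¹ * t * g) e.eq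
    simpa [Commute, SemiconjBy, mul_assoc] using this
  have hn := noncomm h2 hw.1 hxy
  have key : ∀ p ∈ h.cen w, g * p * g⁻¹ ∉ h.line w → p • p • w = -w →
      ∃ s, (s = x ∨ s = y ∨ s = x * y) ∧ s ∈ h.cen w ∧ ∃ a ∈ h.line w, ∃ e : K,
        (e = 1 ∨ e = -1) ∧ g * p * g⁻¹ = s * a ∧ a • w = e • w := fun p hp hp' ep => by
    have e1 : (g * p * g⁻¹) • (g * p * g⁻¹) • w = -w := by
      rw [conj_smul_eq hgw, mul_smul, mul_smul, inv_smul_smul, ep, smul_neg, hgw]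
    rcases PS.four hw hx hy hn (h.cen_fix hgw hp) with e | e | e | e
    · exact absurd e hp'
    · exact ⟨x, .inl rfl, hx, sgn hw hx e e1 ex⟩
    · exact ⟨y, .inr (.inl rfl), hy, sgn hw hy e e1 ey⟩
    · refine ⟨_, .inr (.inr rfl), mul_mem hx hy, sgn hw (mul_mem hx hy) e e1 ?_⟩
      simp only [mul_smul, hxy, ey, ex, smul_neg, neg_neg]
  obtain ⟨s, hs, sc, a1, ha1, e, he, e1, k1⟩ := key x hx
    (fun c => hn (hne (Commute.symm ((h.cen_fix hgw hy).2 _ c)))) ex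
  obtain ⟨t, ht, tc, a2, ha2, f, hf, e2, k2⟩ := key y hy
    (fun c => hn (hne ((h.cen_fix hgw hx).2 _ c))) ey
  have g1 : g • x • w = e • s • w := by rw [← conj_smul_eq hgw, e1, mul_smul, k1, smul_comm]
  have g2 : g • y • w = f • t • w := by rw [← conj_smul_eq hgw, e2, mul_smul, k2, smul_comm]
  have g3 : g • x • y • w = (e * f) • s • t • w := by
    calc _ = (g * x * g⁻¹) • g • y • w := by rw [mul_smul, mul_smul, inv_smul_smul]
      _ = _ := by
        rw [g2, e1, mul_smul, smul_comm a1, smul_comm_of (a := a1) (tc.2 _ ha1), k1, smul_comm t,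
          smul_smul f, smul_comm s, mul_comm]
  rw [g1, g2]
  refine signs h2 hw.1 ex ey hxy hg h0 he hf hs ht (fun c => hn (hne ?_)) ?_
  · rw [e1, e2, ← c]
    exact ((Commute.refl s).mul_right (Commute.symm (sc.2 _ ha1))).mul_left
      (Commute.mul_right (sc.2 _ ha2) (h.line_comm hw.1 ha2 ha1))
  · have := congrArg (g • ·) h0
    simpa only [Eo, smul_add, smul_comm g (_ : K), g1, g2, g3, smul_zero] using this

/-- the choice of the first vector -/
theorem pinA [Finite D] [Finite K] [Nontrivial V] (h2 : (2 : K) ≠ 0) (hK : 32 < Nat.card K)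
    (h : PS V U N) {u0 : D} (hu0 : u0 ∈ U) (hcyc : ∀ u ∈ U, ∃ k : ℕ, u = u0 ^ k) :
    ∃ w, h.IsMaxV w ∧ (∀ g : D, g • w = w → g • u0 • w = u0 • w →
      (∀ u ∈ U, Commute g u) ∧ ∀ b ∈ h.cen w, g • b • w = b • w) ∧
      (h.cen w ≤ h.line w ∨ ∃ z ∈ U, z ^ 2 = 1 ∧ ∃ t ∈ U, u0 = z * t ^ 2) := by
  have key : ∀ w : V, w ≠ 0 → ∀ g : D, g • w = w → g • u0 • w = u0 • w →
      (∀ u ∈ U, Commute g u) ∧ ∀ a ∈ h.line w, g • a • w = a • w := by
    intro w hw g hg e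
    have h1 : ∀ u ∈ U, Commute g u := fun u hu => by
      obtain ⟨k, rfl⟩ := hcyc u hu
      refine Commute.pow_right (mul_inv_eq_iff_eq_mul.1 ?_) k
      exact h.cancel (h.nU.conj_mem _ hu0 g) hu0 hw (by rw [conj_smul_eq hg, e])
    refine ⟨h1, ?_⟩
    rintro a ⟨-, u, hu, e'⟩
    rw [e', smul_comm_of (h1 u hu), hg]
  obtain ⟨w1, hw1⟩ := exists_ne (0 : V)
  obtain ⟨A, hA⟩ := exists_maximal_of_wellFoundedGT
    (fun A : Subgroup D => ∃ w ≠ 0, A = h.line w) ⟨_, w1, hw1, rfl⟩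
  obtain ⟨w, hw0, rfl⟩ := hA.prop
  have hw : h.IsMaxV w := ⟨hw0, fun w' h1 h2 => hA.le_of_ge ⟨w', h1, rfl⟩ h2⟩
  by_cases hle : h.cen w ≤ h.line w
  · exact ⟨w, hw, fun g hg e => ⟨(key w hw0 g hg e).1, fun b hb => (key w hw0 g hg e).2 b (hle hb)⟩,
      .inl hle⟩
  have hUB : U ≤ h.cen w := (h.le_line w).trans (h.line_le_cen hw0)
  obtain ⟨x0, hx0, hx'⟩ := SetLike.not_le_iff_exists.1 hle
  obtain ⟨y0, hy0, hn0⟩ := h.exists_noncomm hx0 hx'
  have hzU := h.comm _ hy0.1 _ hx0.1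
  have hz2 := h.comm_pow_eq hx0.1 hy0 (PS.sq_mem hw hx0)
  have hz1 : y0 * x0 * y0⁻¹ * x0⁻¹ ≠ 1 := fun e => hn0 (commutatorElement_eq_one_iff_commute.1 e)
  have hz0 : y0 * x0 = y0 * x0 * y0⁻¹ * x0⁻¹ * (x0 * y0) := by group
  generalize y0 * x0 * y0⁻¹ * x0⁻¹ = z at hzU hz2 hz1 hz0
  have hz := h.neg_of_inv hzU hz1 hz2
  obtain ⟨m, em⟩ := PS.exists_odd hw hu0 hcyc hx0 hx'
  obtain ⟨l, el⟩ := PS.exists_odd hw hu0 hcyc hy0 fun e => hn0 (hx0.2 _ e)
  obtain ⟨i, hi⟩ := hcyc z hzU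
  obtain ⟨j, rfl | rfl⟩ := Nat.even_or_odd' i
  · have h1 := PS.eigen hw (mul_mem hx0 hy0) Nat.prime_two (U.pow_mem hu0 (j + l + m + 1)) (by
      rw [mul_pow_comm hz0 (h.cent _ hzU _ hx0.1) (h.cent _ hzU _ hy0.1), mul_smul, mul_smul, el,
        ← smul_comm_of (h.cent _ (U.pow_mem hu0 _) _ (N.pow_mem hx0.1 2)), em, hi, ← mul_smul,
        ← mul_smul, ← pow_mul, ← pow_add, ← pow_add, ← pow_mul]
      congr 2
      rw [Nat.choose_self]
      ring)
    have e2 : x0 * y0 * x0 = x0 * (x0 * y0) := hx0.2 _ h1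
    exact absurd (mul_left_cancel (a := x0) (by rw [← mul_assoc, e2])) hn0
  have nrm : ∀ p ∈ h.cen w, ∀ k, p ^ 2 • w = u0 ^ (2 * k + 1) • w →
      ∃ t ∈ U, (t * p) • (t * p) • w = -w := fun p hp k e => by
    have ht := U.mul_mem (U.pow_mem hu0 j) (U.inv_mem (U.pow_mem hu0 k))
    refine ⟨_, ht, ?_⟩
    rw [← mul_smul, ← sq, (h.cent _ ht _ hp.1).mul_pow, mul_smul, e, ← mul_smul, ← hz, hi]
    congr 1
    group
  obtain ⟨t1, ht1, ex⟩ := nrm x0 hx0 m em
  obtain ⟨t2, ht2, ey⟩ := nrm y0 hy0 l el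
  have hx := mul_mem (hUB ht1) hx0
  have hy := mul_mem (hUB ht2) hy0
  have hxy : ∀ v : V, (t2 * y0) • (t1 * x0) • v = -((t1 * x0) • (t2 * y0) • v) := fun v => by
    rw [← hz]
    simp only [← mul_smul]
    congr 1
    rw [(h.cent _ ht1 _ hy0.1).symm.mul_mul_mul_comm, (h.cent _ ht2 _ hx0.1).symm.mul_mul_mul_comm,
      hz0, (h.cent _ ht2 _ (h.le ht1)).eq, ← mul_assoc,
      ← (h.cent _ hzU _ (h.le (U.mul_mem ht1 ht2))).eq, mul_assoc]
  generalize t1 * x0 = x at hx ex hxy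
  generalize t2 * y0 = y at hy ey hxy
  obtain ⟨a, b, c, hg⟩ := exists_gen h2 hK
  have hcom : ∀ p : D, Commute p x → Commute p y → ∀ v : V,
      p • Eo x y a b c v = Eo x y a b c (p • v) := fun p p1 p2 v => by
    simp only [Eo, smul_add, smul_comm p (_ : K), smul_comm_of p1, smul_comm_of p2]
  obtain ⟨w', hw', hx1, hy1, ex1, ey1, h0⟩ : ∃ w', h.IsMaxV w' ∧ x ∈ h.cen w' ∧ y ∈ h.cen w' ∧
      x • x • w' = -w' ∧ y • y • w' = -w' ∧ Eo x y a b c w' = 0 := by
    by_cases h0 : Eo x y a b c w = 0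
    · exact ⟨w, hw, hx, hy, ex, ey, h0⟩
    have hle : h.line w ≤ h.line (Eo x y a b c w) := fun p hp => by
      obtain ⟨p1, u, hu, e⟩ := id hp
      exact ⟨p1, u, hu, by rw [hcom p (hx.2 _ hp) (hy.2 _ hp), e,
        hcom u (h.cent _ hu _ hx.1) (h.cent _ hu _ hy.1)]⟩
    have he : h.line (Eo x y a b c w) = h.line w := le_antisymm (hw.2 _ h0 hle) hle
    have hs : ∀ p ∈ h.cen w, p • p • w = -w → p • p • Eo x y a b c w = -Eo x y a b c w :=
      fun p hp e => by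
        have hp2 := PS.sq_mem hw hp
        rw [← mul_smul, ← sq] at e ⊢
        rw [hcom _ (hx.2 _ hp2) (hy.2 _ hp2), e]
        simp only [Eo, smul_neg, neg_add]
    refine ⟨_, ⟨h0, fun v hv e => he ▸ hw.2 v hv (he ▸ e)⟩, by rwa [PS.cen, he],
      by rwa [PS.cen, he], hs x hx ex, hs y hy ey, ?_⟩
    have h1 := pol ex ey hxy a b c a b c
    rw [hg.iso, mul_zero, neg_zero, zero_smul, ← two_smul K] at h1
    exact (smul_eq_zero.1 h1).resolve_left h2
  refine ⟨w', hw', fun g hgw e => ?_, .inr ⟨z, hzU, hz2, _, U.inv_mem (U.pow_mem hu0 j), by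
    rw [hi]; group⟩⟩
  obtain ⟨k1, k2⟩ := key w' hw'.1 g hgw e
  obtain ⟨a1, a2⟩ := pin_xy h2 hw' hx1 hy1 ex1 ey1 hxy hg h0 hgw
  have hn := noncomm h2 hw.1 hxy
  refine ⟨k1, fun b hb => ?_⟩
  rcases PS.four hw' hx1 hy1 hn hb with e | e | e | e
  · exact k2 b e
  · exact PS.fix_of_mul hw' hgw k2 hx1 a1 e
  · exact PS.fix_of_mul hw' hgw k2 hy1 a2 e
  · exact PS.fix_of_mul hw' hgw k2 (mul_mem hx1 hy1) (h.fix_mul hgw hx1.1 hy1 a1 a2) e

theorem eig {a : D} {w : V} (hw : w ≠ 0) {s s' : K} (e : s • a • w = s' • w) {m : ℕ}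
    (ha : a ^ m = 1) : s ^ m = s' ^ m := by
  have h1 : ∀ j : ℕ, s ^ j • a ^ j • w = s' ^ j • w := fun j => by
    induction j with
    | zero => simp
    | succ j ih =>
      rw [pow_succ' s, pow_succ' a, mul_smul, mul_smul, ← smul_comm a, ih, smul_comm a,
        smul_comm s, e, smul_smul, pow_succ]
  have h2 := h1 m
  rw [ha, one_smul, ← sub_eq_zero, ← sub_smul, smul_eq_zero] at h2
  exact sub_eq_zero.1 (h2.resolve_right hw)

theorem sqc (h : GS U N) {x y : D} (hx : x ∈ N) (hy : y ∈ N) (hy2 : y ^ 2 ∈ U) :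
    ∃ c ∈ U, c ^ 2 = 1 ∧ (x⁻¹ * y) ^ 2 = c * ((x ^ 2)⁻¹ * y ^ 2) := by
  have hc := h.comm _ hy _ (N.inv_mem hx)
  refine ⟨_, hc, ck h hy (N.inv_mem hx) (h.cent _ hy2 _ (N.inv_mem hx)), ?_⟩
  rw [mul_pow_comm (c := y * x⁻¹ * y⁻¹ * x⁻¹⁻¹) (by group) (h.cent _ hc _ (N.inv_mem hx))
    (h.cent _ hc _ hy), Nat.choose_self, pow_one, inv_pow]

theorem oddc (h : GS U N) {x y : D} (hx : x ∈ N) (hy : y ∈ N) {k : ℕ} (hk : Odd k)
    (e : x ^ k = 1) (e' : y ^ k = 1) : (x⁻¹ * y) ^ k = 1 := by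
  have hc := h.comm _ hy _ (N.inv_mem hx)
  obtain ⟨j, rfl⟩ := hk
  rw [mul_pow_comm (c := y * x⁻¹ * y⁻¹ * x⁻¹⁻¹) (by group) (h.cent _ hc _ (N.inv_mem hx))
    (h.cent _ hc _ hy), inv_pow, e, e', Nat.choose_two_right, Nat.add_sub_cancel,
    Nat.mul_div_assoc _ (dvd_mul_right 2 j), pow_mul,
    ck h hy (N.inv_mem hx) (e' ▸ Commute.one_left _)]
  simp

/-- colourings of the two parts of an abelian group -/
theorem colours (rig : RigX.{u}) (Q : Type u) [CommGroup Q] [Finite Q] {k : ℕ}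
    (hk : k.Coprime 6) : ∃ (col : Q → Fin 5) (X : Set Q), ∀ φ : Q →* Q, Function.Injective φ →
      (∀ q, q ≠ 1 → q ^ 2 = 1 → col (φ q) = col q) →
      (∀ q, q ≠ 1 → q ^ k = 1 → (φ q ∈ X ↔ q ∈ X)) → ∀ q, q ^ 2 = 1 ∨ q ^ k = 1 → φ q = q := by
  classical
  have res : ∀ (n : ℕ) (φ : Q →* Q), Function.Injective φ →
      ∃ ψ : (powMonoidHom n : Q →* Q).ker →* (powMonoidHom n : Q →* Q).ker,
        Function.Injective ψ ∧ ∀ q, (ψ q : Q) = φ q := fun n φ hφ =>
    ⟨(φ.comp (powMonoidHom n : Q →* Q).ker.subtype).codRestrict _ fun q => by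
      have : (q : Q) ^ n = 1 := q.2
      show φ q ^ n = 1
      rw [← map_pow, this, map_one],
      fun a b e => Subtype.ext (hφ (congrArg Subtype.val e)), fun _ => rfl⟩
  obtain ⟨col, -, hc⟩ := exists_rigid0 (powMonoidHom 2 : Q →* Q).ker
  obtain ⟨X, -, hX⟩ := rig (powMonoidHom k : Q →* Q).ker (Nat.coprime_of_dvd fun p hp h1 h6 => by
    have := Fact.mk hp
    obtain ⟨q, hq⟩ := exists_prime_orderOf_dvd_card' p h1
    have h2 : p ∣ k := hq ▸ orderOf_dvd_of_pow_eq_one (Subtype.ext q.2)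
    exact hp.one_lt.ne' (Nat.eq_one_of_dvd_coprimes hk h2 h6))
  refine ⟨fun q => if h : q ∈ (powMonoidHom 2 : Q →* Q).ker then col ⟨q, h⟩ else 0, Subtype.val '' X,
    fun φ hφ h1 h2 q hq => ?_⟩
  rcases hq with hq | hq
  · obtain ⟨ψ, a1, a2⟩ := res 2 φ hφ
    refine (a2 ⟨q, hq⟩).symm.trans (congrArg Subtype.val (hc ψ a1 (fun r => ?_) ⟨q, hq⟩))
    by_cases e : r = 1
    · rw [e, map_one]
    · have a3 := h1 r (fun c => e (Subtype.ext c)) r.2
      rw [← a2] at a3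
      simpa only [dif_pos (ψ r).2, dif_pos r.2] using a3
  · obtain ⟨ψ, a1, a2⟩ := res k φ hφ
    refine (a2 ⟨q, hq⟩).symm.trans (congrArg Subtype.val (hX ψ a1 (fun r => ?_) ⟨q, hq⟩))
    by_cases e : r = 1
    · rw [e, map_one]
    · have a3 := h2 r (fun c => e (Subtype.ext c)) r.2
      rw [← a2] at a3
      simpa only [Subtype.val_injective.mem_set_image] using a3

/-- the normal form of squares -/
theorem exists_nu [Finite D] {h : PS V U N} {w : V} (hw : w ≠ 0) {u0 : D} (hu0 : u0 ∈ U)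
    (hcyc : ∀ u ∈ U, ∃ k : ℕ, u = u0 ^ k)
    (hP : h.cen w ≤ h.line w ∨ ∃ z ∈ U, z ^ 2 = 1 ∧ ∃ t ∈ U, u0 = z * t ^ 2) :
    ∃ ν ∈ U, (∀ u ∈ U, ∃ t ∈ U, u = t ^ 2 ∨ u = ν * t ^ 2) ∧
      ∀ a ∈ h.cen w, ∀ c ∈ U, c ^ 2 = 1 → a ^ 2 = c * ν → a ^ 4 = 1 := by
  have hc : ∀ a ∈ U, ∀ b ∈ U, Commute a b := fun a ha b hb => h.cent a ha b (h.le hb)
  have h0 : ∀ u ∈ U, ∃ t ∈ U, u = t ^ 2 ∨ u = u0 * t ^ 2 := fun u hu => by
    obtain ⟨i, rfl⟩ := hcyc u hu
    obtain ⟨j, rfl | rfl⟩ := Nat.even_or_odd' i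
    · exact ⟨_, U.pow_mem hu0 j, .inl (by group)⟩
    · exact ⟨_, U.pow_mem hu0 j, .inr (by group)⟩
  by_cases hz : ∃ z ∈ U, z ^ 2 = 1 ∧ ∃ t ∈ U, u0 = z * t ^ 2
  · obtain ⟨z, hz, h2, t, ht, e⟩ := hz
    refine ⟨z, hz, fun u hu => ?_, fun a _ c hc' c2 e' => ?_⟩
    · obtain ⟨s, hs, e' | e'⟩ := h0 u hu
      · exact ⟨s, hs, .inl e'⟩
      · exact ⟨_, U.mul_mem ht hs, .inr (by rw [e', e, (hc t ht s hs).mul_pow, mul_assoc])⟩
    · rw [show 4 = 2 * 2 from rfl, pow_mul, e', (hc c hc' z hz).mul_pow, c2, h2, mul_one]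
  · refine ⟨u0, hu0, h0, fun a ha c hc' c2 e' => (hz ?_).elim⟩
    obtain ⟨a1, u, hu, e⟩ := hP.resolve_right hz ha
    have h1 := h.cancel (U.mul_mem hc' hu0) (U.pow_mem hu 2) hw
      (by rw [← e', pow_smul_eq (h.cent _ hu _ a1) e])
    exact ⟨_, U.inv_mem hc', by rw [inv_pow, c2, inv_one], u, hu, by rw [← h1]; group⟩

end PinK

open PinK in
theorem pinK : RigX.{u} → PinK.{u, v, w} := by
  intro rig K _ _ D _ _ V _ _ _ _ _ U N hK h2 h3 h
  classical
  obtain ⟨u0, hu0, hcyc⟩ := h.cyc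
  obtain ⟨w, hw, hpin, hP⟩ := pinA h2 hK h hu0 hcyc
  have hw0 := hw.1
  obtain ⟨ν, hν, hR, hT⟩ := exists_nu hw0 hu0 hcyc hP
  obtain ⟨i, k, hk, hik⟩ := Nat.exists_eq_two_pow_mul_odd (Nat.card_pos (α := D)).ne'
  have hk2 : k.Coprime 2 := Nat.coprime_two_right.2 hk
  have hk6 : k.Coprime 6 := Nat.Coprime.mul_right hk2
    ((Nat.prime_three.coprime_iff_not_dvd.2 fun c => h3 (hik ▸ c.mul_left _)).symm)
  obtain ⟨θ, hθ⟩ := IsCyclic.exists_ofOrder_eq_natCard (α := Kˣ)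
  rw [Nat.card_units] at hθ
  have hUB : U ≤ h.cen w := (h.le_line w).trans (h.line_le_cen hw0)
  have hn : ((h.cen w).subgroupOf N).Normal := ⟨fun b hb n => h.cen_conj hw0 hb n.2⟩
  let Q := N ⧸ (h.cen w).subgroupOf N
  have := Fintype.ofFinite Q
  let _ : CommGroup Q := { (inferInstance : Group Q) with
    mul_comm := fun a b => by
      obtain ⟨a, rfl⟩ := QuotientGroup.mk_surjective a
      obtain ⟨b, rfl⟩ := QuotientGroup.mk_surjective b
      refine QuotientGroup.eq.2 (hUB ?_)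
      simpa [mul_assoc] using h.comm _ (N.inv_mem b.2) _ (N.inv_mem a.2) }
  obtain ⟨col, X, hcol⟩ := colours rig Q hk6
  have q1 : ∀ n : N, (n : Q) = 1 ↔ (n : D) ∈ h.cen w := fun n =>
    QuotientGroup.eq_one_iff (N := (h.cen w).subgroupOf N) n
  have hodd : ∀ q : Q, q ^ 2 = 1 → q ^ k = 1 → q = 1 := fun q a b => by
    simpa [hk2.symm.gcd_eq_one] using pow_gcd_eq_one.2 ⟨a, b⟩
  have rep : ∀ q : Q, ∃ x : N, (x : Q) = q ∧ (q ^ 2 = 1 → (x : D) ^ 2 = 1 ∨ (x : D) ^ 2 = ν) ∧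
      (q ^ k = 1 → (x : D) ^ k = 1) := fun q => by
    by_cases a0 : q = 1
    · exact ⟨1, a0.symm, fun _ => .inl (one_pow 2), fun _ => one_pow k⟩
    obtain ⟨n, rfl⟩ := QuotientGroup.mk_surjective q
    by_cases a1 : (n : Q) ^ k = 1
    · obtain ⟨e, e1, e2⟩ := Nat.chineseRemainder (hk2.pow_right i) 1 0
      refine ⟨n ^ e, ?_, fun a => absurd (hodd _ a a1) a0, fun _ => ?_⟩
      · rw [QuotientGroup.mk_pow, pow_eq_pow_of_modEq e1 a1, pow_one]
      · obtain ⟨j, rfl⟩ := (Nat.modEq_zero_iff_dvd).1 e2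
        rw [SubmonoidClass.coe_pow, ← pow_mul, mul_right_comm, ← hik, pow_mul, pow_card_eq_one',
          one_pow]
    by_cases a2 : (n : Q) ^ 2 = 1
    swap
    · exact ⟨n, rfl, fun a => absurd a a2, fun a => absurd a a1⟩
    obtain ⟨l, hl, e⟩ := h.exists_pow n.2 Nat.prime_two
    obtain ⟨t, ht, e'⟩ := hR _ e
    refine ⟨(⟨t, h.le ht⟩ : N)⁻¹ * n ^ l, ?_, fun _ => ?_, fun a => absurd a a1⟩
    · rw [QuotientGroup.mk_mul, QuotientGroup.mk_inv, (q1 ⟨t, h.le ht⟩).2 (hUB ht), inv_one,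
        one_mul, QuotientGroup.mk_pow,
        pow_eq_pow_of_modEq (show l ≡ 1 [MOD 2] by unfold Nat.ModEq; omega) a2, pow_one]
    · have c := (h.cent _ (U.inv_mem ht) _ (N.pow_mem n.2 l)).mul_pow 2
      refine e'.imp (fun e' => c.trans ?_) fun e' => c.trans ?_
      · rw [e', inv_pow, inv_mul_cancel]
      · rw [e', (h.cent _ hν _ (h.le (U.pow_mem ht 2))).eq, inv_pow, inv_mul_cancel_left]
  choose x0 r1 r2 r3 using rep
  let x : Q → D := fun q => x0 q
  have hx : ∀ q, x q ∈ N := fun q => (x0 q).2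
  have hxe : ∀ q (n : N), (x q)⁻¹ * n ∈ h.cen w ↔ q = n := fun q n =>
    (QuotientGroup.eq (s := (h.cen w).subgroupOf N)).symm.trans (by rw [r1])
  have hx1 : x 1 ∈ h.cen w := (q1 _).1 (r1 1)
  have hxU : ∀ q, q ^ 2 = 1 → x q ^ 2 ∈ U := fun q a =>
    (r2 q a).elim (fun e => e ▸ U.one_mem) fun e => e ▸ hν
  let s : Q → K := fun q => if q ^ 2 = 1 then (θ ^ (col q).1 : Kˣ) else
    if q ^ k = 1 then (if q ∈ X then -1 else 1) else 0
  let f : Q → V := fun q => if q = 1 then u0 • w else s q • x q • w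
  have hf : ∀ q, h.HasWt w (x q) (f q) := fun q => by
    simp only [f]
    split_ifs with a1
    · exact a1 ▸ (h.hasWt_self w (h.le hu0)).congr (h.le hu0) (mul_mem (inv_mem (hUB hu0)) hx1)
    · intro a ha u hu e
      rw [smul_comm a, smul_comm u, h.hasWt_self w (hx q) a ha u hu e]
  refine ⟨w, ∑ q, f q, fun g hg0 hg1 => h.eq_one_of_fix hw0 ?_⟩
  have := h.nN
  let φ : Q →* Q := QuotientGroup.map _ _ (MulAut.conjNormal (H := N) g).toMonoidHom
    fun b hb => by exact h.cen_fix hg0 hb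
  have hφ : Function.Injective φ := by
    rw [injective_iff_map_eq_one]
    intro q hq
    obtain ⟨n, rfl⟩ := QuotientGroup.mk_surjective q
    have := h.cen_fix (g := g⁻¹) (inv_smul_eq_iff.2 hg0.symm) ((q1 (MulAut.conjNormal g n)).1 hq)
    exact (q1 _).2 (by simpa [mul_assoc] using this)
  have hφx : ∀ q, (x (φ q))⁻¹ * (g * x q * g⁻¹) ∈ h.cen w := fun q =>
    (hxe (φ q) (MulAut.conjNormal g (x0 q))).2 ((congrArg φ (r1 q)).symm.trans rfl)
  have k1 : ∀ q, g • f q = f (φ q) := fun q => by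
    refine sub_eq_zero.1 (h.indep hw0 (x := fun q => x (φ q)) (fun q => hx _)
      (fun q q' e => hφ (((hxe _ (x0 (φ q'))).1 e).trans (r1 _))) Finset.univ
      (fun q => g • f q - f (φ q)) (fun q => (((hf q).conj hg0).congr (h.nN.conj_mem _ (hx q) g)
        (by simpa using inv_mem (hφx q))).sub (hf _)) ?_ q (Finset.mem_univ q))
    rw [Finset.sum_sub_distrib, ← Finset.smul_sum, hg1,
      (Finite.injective_iff_bijective.1 hφ).sum_comp, sub_self]
  obtain ⟨p1, p2⟩ := hpin g hg0 (by simpa [f] using k1 1)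
  have hpw : ∀ (q : Q) (n : ℕ), φ q ^ n = 1 ↔ q ^ n = 1 := fun q n => by
    rw [← map_pow, map_eq_one_iff φ hφ]
  have k2 : ∀ q, q ≠ 1 → s q • ((x (φ q))⁻¹ * (g * x q * g⁻¹)) • w = s (φ q) • w := fun q hq => by
    have a1 := k1 q
    simp only [f, if_neg hq, if_neg ((map_eq_one_iff φ hφ).not.2 hq)] at a1
    rw [mul_smul, conj_smul_eq hg0, ← smul_comm (x (φ q))⁻¹, ← smul_comm g, a1,
      smul_comm (x (φ q))⁻¹, inv_smul_smul]
  have k3 : ∀ q, q ^ 2 = 1 → ((x (φ q))⁻¹ * (g * x q * g⁻¹)) ^ 4 = 1 := fun q hq => by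
    have a1 : (g * x q * g⁻¹) ^ 2 = x q ^ 2 := by
      rw [conj_pow, (p1 _ (hxU q hq)).eq, mul_inv_cancel_right]
    obtain ⟨c, hc, c2, e⟩ := sqc h.toGS (hx (φ q)) (h.nN.conj_mem _ (hx q) g) (a1 ▸ hxU q hq)
    rw [a1] at e
    have ha := hφx q
    generalize (x (φ q))⁻¹ * (g * x q * g⁻¹) = a at e ha
    have a4 : a ^ 2 = c → a ^ 4 = 1 := fun e => by rw [show 4 = 2 * 2 from rfl, pow_mul, e, c2]
    rcases r2 q hq with b1 | b1 <;> rcases r2 _ ((hpw q 2).2 hq) with b2 | b2 <;>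
      rw [show x q ^ 2 = _ from b1, show x (φ q) ^ 2 = _ from b2] at e
    · exact a4 (by simpa using e)
    · refine inv_eq_one.1 (inv_pow a 4 ▸ hT _ (inv_mem ha) _ (U.inv_mem hc)
        (by rw [inv_pow, c2, inv_one]) ?_)
      rw [inv_pow, e, mul_one, mul_inv_rev, inv_inv,
        (h.cent _ hν _ (h.le (U.inv_mem hc))).eq]
    · exact hT a ha c hc c2 (by simpa using e)
    · exact a4 (by simpa using e)
  have k4 : ∀ q, q ≠ 1 → q ^ 2 = 1 → col (φ q) = col q := fun q hq a => by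
    have a1 := eig hw0 (k2 q hq) (k3 q a)
    simp only [s, if_pos a, if_pos ((hpw q 2).2 a), ← Units.val_pow_eq_pow_val, ← pow_mul] at a1
    have b1 := (col q).2
    have b2 := (col (φ q)).2
    have a2 := pow_injOn_Iio_orderOf (x := θ) (by rw [hθ, Set.mem_Iio]; omega)
      (by rw [hθ, Set.mem_Iio]; omega) (Units.ext a1)
    exact Fin.ext (by omega)
  have k5 : ∀ q, q ≠ 1 → q ^ k = 1 → (φ q ∈ X ↔ q ∈ X) := fun q hq a => by
    have a1 := eig hw0 (k2 q hq) (oddc h.toGS (hx (φ q)) (h.nN.conj_mem _ (hx q) g) hk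
      (r3 _ ((hpw q k).2 a)) (by rw [conj_pow, show x q ^ k = 1 from r3 q a]; group))
    have a2 : ¬ q ^ 2 = 1 := fun c => hq (hodd q c a)
    simp only [s, if_neg a2, if_neg ((hpw q 2).not.2 a2), if_pos a, if_pos ((hpw q k).2 a)] at a1
    by_cases b1 : q ∈ X <;> by_cases b2 : φ q ∈ X <;>
      simp only [b1, b2, if_true, if_false, hk.neg_one_pow, one_pow] at a1 ⊢
    · exact (h2 (by linear_combination -a1)).elim
    · exact (h2 (by linear_combination a1)).elim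
  have k6 := hcol φ hφ k4 k5
  have k7 : ∀ q, q ^ 2 = 1 ∨ q ^ k = 1 → ((x q)⁻¹ * (g * x q * g⁻¹)) • w = w := fun q hq => by
    by_cases a0 : q = 1
    · rw [mul_smul, conj_smul_eq hg0, a0, p2 _ hx1, inv_smul_smul]
    have a1 := k2 q a0
    rw [k6 q hq] at a1
    refine smul_right_injective V ?_ a1
    simp only [s]
    split_ifs with b1 b2
    exacts [Units.ne_zero _, neg_ne_zero.2 one_ne_zero, one_ne_zero, (hq.elim b1 b2).elim]
  intro n hn
  obtain ⟨l, hl, e⟩ := h.exists_pow hn Nat.prime_two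
  obtain ⟨q, hq, q', hq', e'⟩ : ∃ q : Q, q ^ 2 = 1 ∧ ∃ q' : Q, q' ^ k = 1 ∧
      q * q' = ((⟨n, hn⟩ : N) : Q) := by
    generalize hr : ((⟨n, hn⟩ : N) : Q) = r
    have a1 : (r ^ l) ^ 2 = 1 := by
      rw [← hr, ← QuotientGroup.mk_pow, ← QuotientGroup.mk_pow]
      exact (q1 _).2 (hUB e)
    have a2 : (r ^ k) ^ 2 ^ i = 1 := by
      rw [← hr, ← QuotientGroup.mk_pow, ← QuotientGroup.mk_pow]
      refine (q1 _).2 ?_
      show (n ^ k) ^ 2 ^ i ∈ h.cen w
      rw [← pow_mul, mul_comm, ← hik, pow_card_eq_one']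
      exact one_mem _
    have a3 : (r ^ k) ^ 2 = 1 := by
      have b1 : ((r ^ k) ^ 2) ^ l = 1 := by
        rw [pow_right_comm, pow_right_comm r, pow_right_comm _ k, a1, one_pow]
      have b2 : ((r ^ k) ^ 2) ^ 2 ^ i = 1 := by rw [pow_right_comm, a2, one_pow]
      simpa [((Nat.prime_two.coprime_iff_not_dvd.2 hl).symm.pow_right i).gcd_eq_one] using
        pow_gcd_eq_one.2 ⟨b1, b2⟩
    obtain ⟨j, hj⟩ := hk
    refine ⟨r ^ k, a3, (r ^ j)⁻¹ ^ 2, ?_, by rw [hj]; group⟩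
    rw [inv_pow, inv_pow, inv_eq_one, pow_right_comm, pow_right_comm r, pow_right_comm _ j, a3,
      one_pow]
  have hb := (hxe (q * q') (x0 q * x0 q')).2 (by rw [QuotientGroup.mk_mul, r1, r1])
  have hb' := (hxe _ ⟨n, hn⟩).2 e'
  have a1 := k7 q (.inl hq)
  have a2 := k7 q' (.inr hq')
  have a3 := k3 q hq
  rw [k6 q (.inl hq)] at a3
  have a4 := N.mul_mem (N.inv_mem (hx q)) (h.nN.conj_mem _ (hx q) g)
  have a5 : Commute ((x q)⁻¹ * (g * x q * g⁻¹)) (x q') := by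
    have b1 := ck h.toGS a4 (hx q') (a3 ▸ Commute.one_left _)
    have b2 := ck h.toGS (hx q') a4 ((show x q' ^ k = 1 from r3 q' hq') ▸ Commute.one_left _)
    rw [← commutatorElement_def] at b1 b2
    rw [← commutatorElement_inv, inv_pow, inv_eq_one] at b2
    refine commutatorElement_eq_one_iff_commute.1 ?_
    simpa [(hk2.pow_right 2).symm.gcd_eq_one] using pow_gcd_eq_one.2 ⟨b1, b2⟩
  have a6 : g • (x q * x q') • w = (x q * x q') • w := by
    rw [mul_smul (x q')⁻¹, inv_smul_eq_iff, conj_smul_eq hg0] at a2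
    calc _ = x q • ((x q)⁻¹ * (g * x q * g⁻¹)) • g • x q' • w := by
          simp only [← mul_smul]; congr 1; group
      _ = _ := by rw [a2, smul_comm_of a5, a1, mul_smul]
  have a7 := mul_mem (inv_mem hb) hb'
  have a8 := h.fix_mul hg0 (N.mul_mem (hx q) (hx q')) a7 a6 (p2 _ a7)
  rwa [show x q * x q' * (((x (q * q'))⁻¹ * ((x0 q * x0 q' : N) : D))⁻¹ *
    ((x (q * q'))⁻¹ * ((⟨n, hn⟩ : N) : D))) = n by
      simp only [x, coe_mul]; group] at a8

end Pool.Agent.MP_983df8_al
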