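import Mathlib.Tactic.Polynomial.Basic
import Pool.Agent.MP_983df8_al.LocB
import Pool.Agent.MP_983df8_al.Dist3

namespace Pool.Agent.MP_983df8_al

attribute [-simp] lie_skew lie_lie

variable {K L : Type*} [Field K] [LieRing L] [LieAlgebra K L] {g : L →ₗ[K] L →ₗ[K] K}
variable {x y v m : L} {σ σ' : Module.End K L} {M M' : M2 K}

/-- a hyperbolic pair in odd characteristic -/
structure Hyp (g : L →ₗ[K] L →ₗ[K] K) (x y : L) : Prop extends InvF g where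
  hx : IsExt g x
  hy : IsExt g y
  one : g x y = 1
  two : (2 : K) ≠ 0

/-- the part of degree one -/
structure G1 (g : L →ₗ[K] L →ₗ[K] K) (x y v : L) : Prop where
  lx : ⁅x, v⁆ = 0
  gx : g x v = 0
  gy : g y v = 0
  lxy : ⁅x, ⁅y, v⁆⁆ = -v

/-- the centraliser of the pair -/
structure G0 (g : L →ₗ[K] L →ₗ[K] K) (x y m : L) : Prop where
  lx : ⁅x, m⁆ = 0
  ly : ⁅y, m⁆ = 0
  gx : g x m = 0
  gy : g y m = 0

/-- the span of the pair -/
def sl (K : Type*) {L : Type*} [Field K] [LieRing L] [LieAlgebra K L] (x y : L) : Submodule K L :=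
  Submodule.span K {x, y, ⁅x, y⁆}

theorem mem_sl {u : L} : u ∈ sl K x y ↔ ∃ a b c : K, a • x + b • y + c • ⁅x, y⁆ = u :=
  Submodule.mem_span_triple

theorem sl_mem (a b c : K) : a • x + b • y + c • ⁅x, y⁆ ∈ sl K x y := mem_sl.2 ⟨a, b, c, rfl⟩

namespace Hyp

variable (h : Hyp g x y)
include h

theorem yx : g y x = 1 := (h.symm y x).trans h.one
theorem xx : g x x = 0 := h.hx.1
theorem yy : g y y = 0 := h.hy.1
omit h in
theorem lyx : ⁅y, x⁆ = -⁅x, y⁆ := (lie_skew y x).symm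
theorem xh : ⁅x, ⁅x, y⁆⁆ = (2 : K) • x := by rw [h.hx.2.1, h.one, mul_one]
theorem yh : ⁅y, ⁅x, y⁆⁆ = -((2 : K) • y) := by
  rw [← lie_skew x y, lie_neg, h.hy.2.1, h.yx, mul_one]
theorem hx' : ⁅⁅x, y⁆, x⁆ = -((2 : K) • x) := by rw [← lie_skew, h.xh]
theorem hy' : ⁅⁅x, y⁆, y⁆ = (2 : K) • y := by rw [← lie_skew, h.yh, neg_neg]
theorem gxh : g x ⁅x, y⁆ = 0 := h.self x y
theorem gyh : g y ⁅x, y⁆ = 0 := h.self' y x
theorem ghx : g ⁅x, y⁆ x = 0 := (h.symm _ _).trans h.gxh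
theorem ghy : g ⁅x, y⁆ y = 0 := (h.symm _ _).trans h.gyh
theorem ghh : g ⁅x, y⁆ ⁅x, y⁆ = -2 := by rw [h.inv, h.yh]; simp [h.one]

theorem g1_h (a : G1 g x y v) : ⁅⁅x, y⁆, v⁆ = -v := by rw [lie_lie, a.lxy, a.lx]; simp
theorem g1_gh (a : G1 g x y v) : g ⁅x, y⁆ v = 0 := by
  rw [← lie_skew, map_neg, LinearMap.neg_apply, h.inv, a.lx]; simp
theorem g1_yy (a : G1 g x y v) : ⁅y, ⁅y, v⁆⁆ = 0 := by rw [h.hy.2.1, a.gy]; simp
theorem g1_hy (a : G1 g x y v) : ⁅⁅x, y⁆, ⁅y, v⁆⁆ = ⁅y, v⁆ := by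
  rw [lie_lie, h.g1_yy a, a.lxy]; simp
theorem g1_gxy (a : G1 g x y v) : g x ⁅y, v⁆ = 0 := by rw [← h.inv, h.g1_gh a]
theorem g1_ghy (a : G1 g x y v) : g ⁅x, y⁆ ⁅y, v⁆ = 0 := by rw [← h.inv, h.hy']; simp [a.gy]
theorem g0_h (a : G0 g x y m) : ⁅⁅x, y⁆, m⁆ = 0 := by rw [lie_lie, a.lx, a.ly]; simp
theorem g0_gh (a : G0 g x y m) : g ⁅x, y⁆ m = 0 := by rw [h.inv, a.ly]; simp

theorem dec (u : L) : ∃ s ∈ sl K x y, ∃ v₁ v₂ m, G1 g x y v₁ ∧ G1 g x y v₂ ∧ G0 g x y m ∧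
    u = s + v₁ + ⁅y, v₂⁆ + m := by
  obtain ⟨w, hw⟩ : ∃ w, w = u - (g y u • x + g x u • y + (-g ⁅x, y⁆ u / 2) • ⁅x, y⁆) := ⟨_, rfl⟩
  have a1 : g x w = 0 := by simp [hw, h.xx, h.one, h.gxh]
  have a2 : g y w = 0 := by simp [hw, h.yy, h.yx, h.gyh]
  have a3 : g x ⁅y, w⁆ = 0 := by
    have := h.two
    rw [← h.inv]
    simp only [hw, map_sub, map_add, map_smul, h.ghx, h.ghy, h.ghh, smul_eq_mul]
    field_simp
    ring
  have a4 : g y ⁅x, w⁆ = 0 := by rw [← h.inv, lyx, map_neg, LinearMap.neg_apply, h.inv, a3, neg_zero]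
  have b1 : ⁅x, ⁅y, ⁅x, w⁆⁆⁆ = -⁅x, w⁆ := by rw [h.hx.p2, a1, a3, h.one]; simp
  have b2 : ⁅y, ⁅x, ⁅y, w⁆⁆⁆ = -⁅y, w⁆ := by rw [h.hy.p2, a2, a4, h.yx]; simp
  refine ⟨_, sl_mem (g y u) (g x u) (-g ⁅x, y⁆ u / 2), -⁅x, ⁅y, w⁆⁆, -⁅x, w⁆, w + ⁅x, ⁅y, w⁆⁆ + ⁅y, ⁅x, w⁆⁆,
    ⟨by simp [h.hx.2.1, a3], by simp [h.self], ?_, by simp [b2]⟩,
    ⟨by simp [h.hx.2.1, a1], by simp [h.self], by simp [a4], by simp [b1]⟩,
    ⟨by simp [h.hx.2.1, a3, b1], by simp [h.hy.2.1, a4, b2], ?_, ?_⟩, ?_⟩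
  · rw [map_neg, ← h.inv, lyx, map_neg, LinearMap.neg_apply, ← h.inv, h.hy']
    simp [a2]
  · rw [map_add, map_add, a1, h.self, ← h.inv, ← h.inv, h.hx']
    simp [a1]
  · rw [map_add, map_add, a2, h.self, ← h.inv, lyx, map_neg, LinearMap.neg_apply, ← h.inv, h.hy']
    simp [a2]
  · rw [lie_neg, hw]
    abel

theorem ext {W : Type*} [AddCommGroup W] [Module K W] {f f' : L →ₗ[K] W} (a : f x = f' x)
    (b : f y = f' y) (c : f ⁅x, y⁆ = f' ⁅x, y⁆)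
    (d : ∀ v, G1 g x y v → f v = f' v ∧ f ⁅y, v⁆ = f' ⁅y, v⁆) (e : ∀ m, G0 g x y m → f m = f' m) :
    f = f' := LinearMap.ext fun u => by
  obtain ⟨s, hs, v, w, m, h1, h2, h3, rfl⟩ := h.dec u
  obtain ⟨r, s, t, rfl⟩ := mem_sl.1 hs
  simp only [map_add, map_smul, a, b, c, (d v h1).1, (d w h2).2, e m h3]

theorem perp {u : L} (a : u ∈ sl K x y) (b : g x u = 0) (c : g y u = 0) (d : g ⁅x, y⁆ u = 0) :
    u = 0 := by
  obtain ⟨r, s, t, rfl⟩ := mem_sl.1 a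
  simp [h.xx, h.one, h.gxh, h.yy, h.yx, h.gyh, h.ghx, h.ghy, h.ghh, h.two] at b c d
  simp [b, c, d]

end Hyp

/-- `σ` acts as the matrix `M` of the fundamental `SL₂` -/
structure Mt (g : L →ₗ[K] L →ₗ[K] K) (x y : L) (σ : Module.End K L) (M : M2 K) : Prop where
  det : M 0 0 * M 1 1 - M 0 1 * M 1 0 = 1
  sx : σ x = (M 0 0 * M 0 0) • x + (M 1 0 * M 1 0) • y + (M 0 0 * M 1 0) • ⁅x, y⁆
  sy : σ y = (M 0 1 * M 0 1) • x + (M 1 1 * M 1 1) • y + (M 0 1 * M 1 1) • ⁅x, y⁆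
  sh : σ ⁅x, y⁆ = (2 * M 0 0 * M 0 1) • x + (2 * M 1 0 * M 1 1) • y +
    (M 0 0 * M 1 1 + M 0 1 * M 1 0) • ⁅x, y⁆
  s1 : ∀ v, G1 g x y v → σ v = M 0 0 • v - M 1 0 • ⁅y, v⁆ ∧ σ ⁅y, v⁆ = M 1 1 • ⁅y, v⁆ - M 0 1 • v
  s0 : ∀ m, G0 g x y m → σ m = m

theorem Mt.one : Mt g x y 1 1 := ⟨by simp, by simp, by simp, by simp, by simp, by simp⟩

theorem Mt.mul (a : Mt g x y σ M) (b : Mt g x y σ' M') : Mt g x y (σ * σ') (M * M') := by
  refine ⟨?_, ?_, ?_, ?_, fun v c => ⟨?_, ?_⟩, fun m c => by simp [a.s0 m c, b.s0 m c]⟩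
  · simp only [Matrix.mul_apply, Fin.sum_univ_two]
    linear_combination a.det + (M 0 0 * M 1 1 - M 0 1 * M 1 0) * b.det
  all_goals
    simp only [Matrix.mul_apply, Fin.sum_univ_two, Module.End.mul_apply, b.sx, b.sy, b.sh, map_add,
      map_smul, a.sx, a.sy, a.sh]
  any_goals simp only [(b.s1 v c).1, (b.s1 v c).2, map_sub, map_smul, (a.s1 v c).1, (a.s1 v c).2]
  all_goals module

theorem Mt.uniq (h : Hyp g x y) (a : Mt g x y σ M) (b : Mt g x y σ' M) : σ = σ' :=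
  h.ext (a.sx.trans b.sx.symm) (a.sy.trans b.sy.symm) (a.sh.trans b.sh.symm)
    (fun v c => ⟨(a.s1 v c).1.trans (b.s1 v c).1.symm, (a.s1 v c).2.trans (b.s1 v c).2.symm⟩)
    fun m c => (a.s0 m c).trans (b.s0 m c).symm

theorem Hyp.mt_ex (h : Hyp g x y) {a b c : K} (e : a * b = c * c) :
    Mt g x y (ex g (a • x + b • y + c • ⁅x, y⁆)) !![1 - c, a; -b, 1 + c] := by
  refine ⟨?_, ?_, ?_, ?_, fun v d => ⟨?_, ?_⟩, fun m d => ?_⟩ <;>
    simp only [ex_apply, add_lie, smul_lie, map_add, map_smul, LinearMap.add_apply,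
      LinearMap.smul_apply, lie_self, Hyp.lyx (x := x) (y := y), h.xx, h.yy, h.one, h.yx, h.xh, h.yh,
      h.hx', h.hy', h.gxh, h.gyh, h.ghx, h.ghy, h.ghh, smul_eq_mul, Matrix.of_apply,
      Matrix.cons_val', Matrix.cons_val_zero, Matrix.cons_val_one, Matrix.cons_val_fin_one]
  · linear_combination e
  · match_scalars <;> first | ring1 | linear_combination e
  · match_scalars <;> first | ring1 | linear_combination e
  · match_scalars <;> grind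
  · simp only [d.lx, d.gx, d.gy, h.g1_h d, h.g1_gh d]
    module
  · simp only [d.lxy, h.g1_yy d, h.g1_hy d, h.g1_gxy d, h.g1_ghy d, h.self]
    module
  · simp [d.lx, d.ly, d.gx, d.gy, h.g0_h d, h.g0_gh d]

theorem Mt.mem (a : Mt g x y σ M) {u : L} (b : u ∈ sl K x y) : σ u ∈ sl K x y := by
  obtain ⟨r, s, t, rfl⟩ := mem_sl.1 b
  simp only [map_add, map_smul, a.sx, a.sy, a.sh]
  exact add_mem (add_mem (Submodule.smul_mem _ _ (sl_mem _ _ _)) (Submodule.smul_mem _ _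
    (sl_mem _ _ _))) (Submodule.smul_mem _ _ (sl_mem _ _ _))

theorem Mt.inj (h : Hyp g x y) (a : Mt g x y σ M) (b : Mt g x y σ M') (c : G1 g x y v)
    (d : v ≠ 0) : M = M' := by
  have k : ∀ s t : K, s • v = t • ⁅y, v⁆ → s = 0 ∧ t = 0 := fun s t e => by
    have := congrArg (⁅x, ·⁆) e
    simp only [lie_smul, c.lx, c.lxy, smul_zero, smul_neg, zero_eq_neg, smul_eq_zero, d,
      or_false] at this
    simpa [this, d] using e
  have a1 := k (M 0 0 - M' 0 0) (M 1 0 - M' 1 0) (by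
    linear_combination (norm := module) (a.s1 v c).1.symm.trans (b.s1 v c).1)
  have a2 := k (M 0 1 - M' 0 1) (M 1 1 - M' 1 1) (by
    linear_combination (norm := module) (b.s1 v c).2.symm.trans (a.s1 v c).2)
  ext i j
  fin_cases i <;> fin_cases j
  exacts [sub_eq_zero.1 a1.1, sub_eq_zero.1 a2.1, sub_eq_zero.1 a1.2, sub_eq_zero.1 a2.2]

/-- a quadratic polynomial in `σ` -/
def qd (τ : K) (σ : Module.End K L) : Module.End K L := σ * σ - τ • σ + 1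

theorem qd_apply (τ : K) (u : L) : qd τ σ u = σ (σ u) - τ • σ u + u := rfl

theorem qd_comm (a : Commute σ' σ) (τ : K) : Commute σ' (qd τ σ) :=
  ((a.mul_right a).sub_right (a.smul_right τ)).add_right (Commute.one_right _)

theorem Mt.qd1 (a : Mt g x y σ M) (c : G1 g x y v) :
    qd M.trace σ v = 0 ∧ qd M.trace σ ⁅y, v⁆ = 0 := by
  constructor <;>
    simp only [qd_apply, (a.s1 v c).1, (a.s1 v c).2, map_sub, map_smul, Matrix.trace_fin_two] <;>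
    match_scalars <;> first | ring1 | linear_combination -a.det

theorem Mt.qd2 (a : Mt g x y σ M) {u : L} (b : u ∈ sl K x y) :
    σ (qd (M.trace ^ 2 - 2) σ u) = qd (M.trace ^ 2 - 2) σ u := by
  obtain ⟨r, s, t, rfl⟩ := mem_sl.1 b
  have d := a.det
  simp only [qd_apply, map_add, map_smul, map_sub, a.sx, a.sy, a.sh, Matrix.trace_fin_two]
  match_scalars <;> grind

/-- the cubic polynomial that kills the complement of `sl` -/
def cb (τ : K) (σ : Module.End K L) : Module.End K L := (σ - 1) * qd τ σ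

theorem cb_comm (a : Commute σ' σ) (τ : K) : Commute σ' (cb τ σ) :=
  (a.sub_right (Commute.one_right _)).mul_right (qd_comm a τ)

theorem Mt.cb (h : Hyp g x y) (a : Mt g x y σ M) (u : L) :
    cb M.trace σ u ∈ sl K x y ∧ qd (M.trace ^ 2 - 2) σ (cb M.trace σ u) = 0 := by
  obtain ⟨s, hs, v, w, m, h1, h2, h3, rfl⟩ := h.dec u
  have e : MP_983df8_al.cb M.trace σ (s + v + ⁅y, w⁆ + m) = qd M.trace σ (σ s - s) := by
    rw [map_add, map_add, map_add]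
    conv_lhs => enter [2]; rw [MP_983df8_al.cb, ((qd_comm (Commute.refl σ) _).sub_left
      (Commute.one_left _)).eq]
    conv_lhs => enter [1, 1, 1]; rw [MP_983df8_al.cb, ((qd_comm (Commute.refl σ) _).sub_left
      (Commute.one_left _)).eq]
    simp [MP_983df8_al.cb, (a.qd1 h1).1, (a.qd1 h2).2, a.s0 m h3]
  have b := sub_mem (a.mem hs) hs
  rw [e]
  refine ⟨add_mem (sub_mem (a.mem (a.mem b)) (Submodule.smul_mem _ _ (a.mem b))) b, ?_⟩
  rw [← Module.End.mul_apply, (qd_comm (qd_comm (Commute.refl σ) _).symm _).eq,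
    Module.End.mul_apply, map_sub (qd (M.trace ^ 2 - 2) σ), ← Module.End.mul_apply _ σ,
    ← (qd_comm (Commute.refl σ) _).eq, Module.End.mul_apply, a.qd2 hs, sub_self, map_zero]

end Pool.Agent.MP_983df8_al
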