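import Pool.Agent.MP_983df8_al.Dist3

namespace Pool.Agent.MP_983df8_al

open Subgroup

variable {G : Type*} [Group G] {π : Set ℕ}

open scoped IsMulCommutative in
theorem lin2_conj [Finite G] {M D : Subgroup G} [M.Normal] [IsMulCommutative M]
    [Group.IsSolvable D] (ho : Odd (Nat.card D)) {r : ℕ} (hr : r.Prime) (hM : ∀ m ∈ M, m ^ r = 1)
    (hD : ¬ r ∣ Nat.card D) :
    ∃ v : Fin 2 → G, (∀ i, v i ∈ M) ∧
      ∀ d ∈ D, (∀ i, Commute d (v i)) → ∀ w ∈ M, Commute d w := by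
  let _ : DistribMulAction D (Additive M) :=
    { smul := fun d w => Additive.ofMul (MulAut.conjNormal (d : G) w.toMul)
      one_smul := fun w => congrArg Additive.ofMul (Subtype.ext (by
        show (1 : G) * _ * (1 : G)⁻¹ = (w.toMul : G)
        simp))
      mul_smul := fun c d w => congrArg Additive.ofMul (Subtype.ext (by
        show ((c : G) * d) * _ * ((c : G) * d)⁻¹ = c * (d * _ * (d : G)⁻¹) * (c : G)⁻¹
        group))
      smul_zero := fun d => congrArg Additive.ofMul (map_one (MulAut.conjNormal (d : G)))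
      smul_add := fun d v w => congrArg Additive.ofMul
        (map_mul (MulAut.conjNormal (d : G)) v.toMul w.toMul) }
  obtain ⟨v, v', hv⟩ := lin2 (D := D) (V := Additive M) ho hr
    (fun v => congrArg Additive.ofMul (Subtype.ext (hM _ v.toMul.2) : v.toMul ^ r = 1)) hD
  refine ⟨![v.toMul, v'.toMul], fun i => ?_, fun d hd h w hw => ?_⟩
  · fin_cases i
    exacts [v.toMul.2, v'.toMul.2]
  have := hv ⟨d, hd⟩ (congrArg Additive.ofMul (Subtype.ext
    (mul_inv_eq_iff_eq_mul.2 (h 0).eq))) (congrArg Additive.ofMul (Subtype.ext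
    (mul_inv_eq_iff_eq_mul.2 (h 1).eq))) (Additive.ofMul ⟨w, hw⟩)
  exact mul_inv_eq_iff_eq_mul.1 (congrArg (fun t : Additive M => (t.toMul : G)) this)

theorem red2_step [Finite G] {H M : Subgroup G} [M.Normal] [IsMulCommutative M]
    [Group.IsSolvable H] (hH : IsHall π H) {r : ℕ} (hr : r.Prime) (hM : ∀ m ∈ M, m ^ r = 1)
    (ho : r ∉ π → Odd (Nat.card (H ⊓ (OPi π (G ⧸ M)).comap (QuotientGroup.mk' M) : Subgroup G)))
    (X : Fin 2 → G ⧸ M) (hX : ∀ k ∈ H.map (QuotientGroup.mk' M),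
      (∀ a, k ∈ conjBy (H.map (QuotientGroup.mk' M)) (X a)) → k ∈ OPi π (G ⧸ M)) :
    ∃ x : Fin 2 → G, ∀ k ∈ H, (∀ a, k ∈ conjBy H (x a)) → k ∈ OPi π G := by
  let L := (OPi π (G ⧸ M)).comap (QuotientGroup.mk' M)
  have hL : ∀ y : Fin 2 → G, (∀ a, y a ∈ M) → ∀ k ∈ H,
      (∀ a, k ∈ conjBy H ((X a).out * y a)) → k ∈ L := fun y hy k hk h =>
    hX _ ⟨k, hk, rfl⟩ fun a => mem_conjBy.2 ⟨_, mem_conjBy.1 (h a), by
      simp [(QuotientGroup.eq_one_iff _).2 (hy a)]⟩
  by_cases hπ : r ∈ π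
  · refine ⟨fun a => (X a).out * 1, fun k hk h => le_OPi inferInstance (isPi_OPi.comap _ ?_)
      (hL 1 (fun _ => M.one_mem) k hk h)⟩
    rw [QuotientGroup.ker_mk']
    refine isPi_of_orderOf fun m hm hp => ?_
    rwa [(Nat.prime_dvd_prime_iff_eq hp hr).1 (orderOf_dvd_of_pow_eq_one (hM m hm))]
  have hsup : ∀ E : Subgroup G, IsHall π E → ∀ d ∈ L, ∃ c ∈ M, c * d ∈ E := fun E hE d hd => by
    obtain ⟨e, he, h⟩ := (hE.map _ (QuotientGroup.mk'_surjective M)).OPi_le hd
    refine ⟨e * d⁻¹, (QuotientGroup.eq_one_iff _).1 ?_, by simpa using he⟩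
    rw [QuotientGroup.mk_mul, QuotientGroup.mk_inv, mul_inv_eq_one]
    exact h
  have hD : ¬ r ∣ Nat.card (H ⊓ L : Subgroup G) := fun e => hπ (hH.1.mono inf_le_left r hr e)
  have : Group.IsSolvable (H ⊓ L : Subgroup G) := Group.isSolvable_of_isSolvable_injective
    (f := inclusion inf_le_left) (inclusion_injective _)
  obtain ⟨v, hv, hv'⟩ := lin2_conj (ho hπ) hr hM hD
  have := fun a => compl_conj hr hM hD (fun d hd => hsup _ (hH.conjBy (X a).out) d hd.2)
    fun m hm h => (hH.conjBy _).1.eq_one hr hπ (hM m hm) h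
  choose m hm hm' using this
  refine ⟨fun a => (X a).out * (m a * v a), fun k hk h => ?_⟩
  have hkL := hL _ (fun a => M.mul_mem (hm a) (hv a)) k hk h
  have hc := hv' k ⟨hk, hkL⟩ fun a => by
    have a1 := mem_conjBy.1 (mem_conjBy.1 (hm' a ⟨hk, hkL⟩))
    have a2 := mem_conjBy.1 (h a)
    have a3 : v a * k * (v a)⁻¹ * k⁻¹ ∈ M := by
      rw [mul_assoc, mul_assoc, ← mul_assoc k]
      exact M.mul_mem (hv a) (‹M.Normal›.conj_mem _ (M.inv_mem (hv a)) k)
    have := (hH.conjBy ((X a).out * m a)).1.eq_one hr hπ (hM _ a3) (mem_conjBy.2 (by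
      simpa [mul_assoc] using H.mul_mem a2 (H.inv_mem a1)))
    exact (commutatorElement_eq_one_iff_commute.1 this).symm
  refine le_OPi (K := H ⊓ (L ⊓ centralizer (M : Set G))) ⟨fun k hk g => ?_⟩
    (hH.1.mono inf_le_left) ⟨hk, hkL, fun w hw => (hc w hw).symm.eq⟩
  have h1 : g * k * g⁻¹ ∈ L ⊓ centralizer (M : Set G) := Normal.conj_mem inferInstance k hk.2 g
  refine ⟨?_, h1⟩
  obtain ⟨c, c1, c2⟩ := hsup H hH _ h1.1
  have e1 : k ^ Nat.card H = 1 := orderOf_dvd_iff_pow_eq_one.1 (H.orderOf_dvd_natCard hk.1)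
  have e2 := orderOf_dvd_iff_pow_eq_one.1 (H.orderOf_dvd_natCard c2)
  rw [Commute.mul_pow (h1.2 c c1), conj_pow, e1, mul_one, mul_inv_cancel, mul_one] at e2
  obtain rfl : c = 1 := orderOf_eq_one_iff.1 (Nat.eq_one_of_dvd_coprimes
    (hr.coprime_iff_not_dvd.2 fun e => hπ (hH.1 r hr e))
    (orderOf_dvd_of_pow_eq_one (hM c c1)) (orderOf_dvd_of_pow_eq_one e2))
  simpa using c2

universe u

theorem red2_aux {Q : Type*} [Group Q] [Finite Q] (n : ℕ) : ∀ (G : Type u) [Group G] [Finite G],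
    Nat.card G = n → ∀ (H : Subgroup G) [Group.IsSolvable H] (f : G →* Q) [Group.IsSolvable f.ker],
      Function.Surjective f → IsHall π H → Odd (Nat.card (H ⊓ f.ker : Subgroup G)) →
      (∃ X : Fin 2 → Q, ∀ k ∈ H.map f, (∀ a, X a * k * (X a)⁻¹ ∈ H.map f) → k = 1) →
      ∃ x : Fin 2 → G, ∀ k ∈ H, (∀ a, k ∈ conjBy H (x a)) → k ∈ OPi π G := by
  induction n using Nat.strong_induction_on with
  | _ n ih =>
    rintro G _ _ hn H _ f _ hf hH ho ⟨X, hX⟩
    by_cases hk : f.ker = ⊥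
    · choose x hx using fun a => hf (X a)
      refine ⟨x, fun k hk' h => ?_⟩
      have := hX _ ⟨k, hk', rfl⟩ fun a => ⟨_, mem_conjBy.1 (h a), by simp [hx]⟩
      rw [← MonoidHom.mem_ker, hk, mem_bot] at this
      exact this ▸ one_mem _
    obtain ⟨M, m1, m2, m3, m4, r, hr, m5⟩ := exists_elem_ab hk
    let f' : G ⧸ M →* Q := QuotientGroup.lift M f m2
    have e : f'.comp (QuotientGroup.mk' M) = f := MonoidHom.ext fun _ => rfl
    have hf' : Function.Surjective f' := fun q => (hf q).elim fun g hg => ⟨g, hg⟩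
    have hH' := hH.map _ (QuotientGroup.mk'_surjective M)
    have : Group.IsSolvable (H.map (QuotientGroup.mk' M)) :=
      Group.isSolvable_of_surjective (MonoidHom.subgroupMap_surjective _ H)
    have : Group.IsSolvable f'.ker := by
      rw [QuotientGroup.ker_lift]
      exact Group.isSolvable_of_surjective (MonoidHom.subgroupMap_surjective _ _)
    have ho' : Odd (Nat.card (H.map (QuotientGroup.mk' M) ⊓ f'.ker : Subgroup (G ⧸ M))) := by
      refine ho.of_dvd_nat ((card_dvd_of_le (K := (H ⊓ f.ker).map (QuotientGroup.mk' M)) ?_).trans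
        (card_map_dvd _ _))
      rintro _ ⟨⟨g, hg, rfl⟩, hg'⟩
      exact ⟨g, ⟨hg, hg'⟩, rfl⟩
    obtain ⟨Y, hY⟩ := ih (Nat.card (G ⧸ M)) (by
        rw [← hn, ← M.index_mul_card]
        exact lt_mul_of_one_lt_right Nat.card_pos ((one_lt_card_iff_ne_bot M).2 m3))
      (G ⧸ M) rfl (H.map (QuotientGroup.mk' M)) f' hf' hH' ho' ⟨X, by rwa [map_map, e]⟩
    refine red2_step hH hr m5 (fun _ => ho.of_dvd_nat (card_dvd_of_le fun g hg => ⟨hg.1, ?_⟩)) Y hY
    refine hX _ ⟨g, hg.1, rfl⟩ fun a => ?_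
    obtain ⟨y, hy⟩ := hf' (X a)
    obtain ⟨k, hk, hk'⟩ := hH'.OPi_le ((OPi_normal π).conj_mem _ hg.2 y)
    refine ⟨k, hk, ?_⟩
    have := congrArg f' hk'
    rw [map_mul, map_mul, map_inv, hy] at this
    exact this

/-- three conjugates, alternating components above the radical -/
theorem main_three [Finite G] (hD : IsD π G) {H : Subgroup G} (hH : IsHall π H)
    [Group.IsSolvable H] (ho : Odd ((OPi π G).relIndex (H ⊓ Rad G))) (h2 : SocleAlt (G ⧸ Rad G)) :
    ∃ x y : G, OPi π G = H ⊓ conjBy H x ⊓ conjBy H y := by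
  have hH' := hH.map (QuotientGroup.mk' (Rad G)) (QuotientGroup.mk'_surjective _)
  have : Group.IsSolvable (H.map (QuotientGroup.mk' (Rad G))) :=
    Group.isSolvable_of_surjective (MonoidHom.subgroupMap_surjective _ H)
  have hW := map_W _ (QuotientGroup.mk'_surjective (Rad G)) fun X hX => hD.exists_le hH hX
  have hX := glue radicalTrivial_quot fun S h => locG_alt hH' h.1 (h2 S h.1 h.2.1 h.2.2)
    (alt_not_both hH' hW h.1 (h2 S h.1 h.2.1 h.2.2) (h.not_pi hH'))
  have hOR : OPi π G ≤ Rad G := le_Rad inferInstance (Group.isSolvable_of_isSolvable_injective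
    (f := inclusion hH.OPi_le) (inclusion_injective _))
  let f : G ⧸ OPi π G →* G ⧸ Rad G := QuotientGroup.lift _ (QuotientGroup.mk' (Rad G))
    (by rwa [QuotientGroup.ker_mk'])
  have e : f.comp (QuotientGroup.mk' (OPi π G)) = QuotientGroup.mk' (Rad G) :=
    MonoidHom.ext fun _ => rfl
  have : Group.IsSolvable (H.map (QuotientGroup.mk' (OPi π G))) :=
    Group.isSolvable_of_surjective (MonoidHom.subgroupMap_surjective _ H)
  have : Group.IsSolvable f.ker := by
    rw [QuotientGroup.ker_lift, QuotientGroup.ker_mk']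
    exact Group.isSolvable_of_surjective (MonoidHom.subgroupMap_surjective _ _)
  obtain ⟨Y, hY⟩ := red2_aux (π := π) _ (G ⧸ OPi π G) rfl (H.map (QuotientGroup.mk' (OPi π G))) f
    (fun q => (QuotientGroup.mk'_surjective _ q).elim fun g hg => ⟨g, hg⟩)
    (hH.map _ (QuotientGroup.mk'_surjective _)) (by
      have e1 := relIndex_ker (K := H ⊓ Rad G) (QuotientGroup.mk' (OPi π G))
      rw [QuotientGroup.ker_mk'] at e1
      refine (e1 ▸ ho).of_dvd_nat (card_dvd_of_le ?_)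
      rintro _ ⟨⟨g, hg, rfl⟩, hg'⟩
      exact ⟨g, ⟨hg, (QuotientGroup.eq_one_iff g).1 hg'⟩, rfl⟩) (by rwa [map_map, e])
  have hO : ∀ k ∈ OPi π (G ⧸ OPi π G), k = 1 := fun k hk => by
    obtain ⟨g, rfl⟩ := QuotientGroup.mk'_surjective _ k
    exact (QuotientGroup.eq_one_iff g).2 (le_OPi (K := (OPi π (G ⧸ OPi π G)).comap
      (QuotientGroup.mk' (OPi π G))) inferInstance
      (isPi_OPi.comap _ (by rw [QuotientGroup.ker_mk']; exact isPi_OPi)) hk)
  obtain ⟨x, hx⟩ := lift_glue Y fun k hk h => hO k (hY k hk fun a => mem_conjBy.2 (h a))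
  refine ⟨x 0, x 1, le_antisymm (le_inf (le_inf hH.OPi_le (hH.conjBy _).OPi_le)
    (hH.conjBy _).OPi_le) fun k hk => hx k hk.1.1 fun a => ?_⟩
  fin_cases a
  exacts [hk.1.2, hk.2]

end Pool.Agent.MP_983df8_al
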