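import Pool.Agent.MP_983df8_al.Three
import Pool.Agent.MP_983df8_al.DefsT

namespace Pool.Agent.MP_983df8_al

/-- one regular pair -/
def Reg2 {S : Type*} [Group S] (B : Subgroup (MulAut S)) : Prop :=
  ∃ x : Fin 2 → S, ∀ β ∈ B, (∀ a, MulAut.conj (x a) * β * (MulAut.conj (x a))⁻¹ ∈ B) → β = 1

section Swap

open Subgroup

theorem two_of_one2 {S : Type*} [Group S] {B : Subgroup (MulAut S)} (ho : Odd (Nat.card B))
    (hJ : B.comap MulAut.conj ≠ ⊤) (h : Reg2 B) :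
    ∃ x : Fin 2 → ZMod 2 → S, ∀ β ∈ B, ∀ i j,
      (∀ a, MulAut.conj (x a i) * β * (MulAut.conj (x a j))⁻¹ ∈ B) → i = j ∧ β = 1 := by
  obtain ⟨x, y, h0, h⟩ : ∃ x y : S, MulAut.conj (x * y⁻¹) ∉ B ∧ ∀ β ∈ B,
      MulAut.conj x * β * (MulAut.conj x)⁻¹ ∈ B → MulAut.conj y * β * (MulAut.conj y)⁻¹ ∈ B →
      β = 1 := by
    obtain ⟨x, h⟩ := h
    by_cases a : MulAut.conj (x 0 * (x 1)⁻¹) ∈ B
    · obtain ⟨u, hu⟩ : ∃ u, u ∉ B.comap MulAut.conj := by simpa [eq_top_iff'] using hJ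
      refine ⟨x 0, u⁻¹ * x 0, by simpa using hu, fun β b c _ => h β b fun i => ?_⟩
      fin_cases i
      exacts [c, by simpa [mul_assoc] using B.mul_mem (B.mul_mem (B.inv_mem a) c) a]
    · exact ⟨x 0, x 1, a, fun β b c d => h β b fun i => by fin_cases i <;> assumption⟩
  have k : ∀ β ∈ B, MulAut.conj x * β * (MulAut.conj y)⁻¹ ∈ B →
      MulAut.conj y * β * (MulAut.conj x)⁻¹ ∈ B → False := fun β b c d => by
    have := h _ (B.mul_mem b b) (by simpa [mul_assoc] using B.mul_mem c d)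
      (by simpa [mul_assoc] using B.mul_mem d c)
    have := eq_one_of_odd (c := β) ho (congrArg Subtype.val (pow_card_eq_one' (x := (⟨β, b⟩ : B))))
      (k := 1) (by simpa [sq] using this)
    exact h0 (by simpa [this] using c)
  refine ⟨fun a i => if i = 0 then ![x, y] a else ![y, x] a, fun β b i j c => ?_⟩
  have c0 := c 0
  have c1 := c 1
  fin_cases i <;> fin_cases j
  exacts [⟨rfl, h β b c0 c1⟩, (k β b c0 c1).elim, (k β b c1 c0).elim, ⟨rfl, h β b c1 c0⟩]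

end Swap

section Two

open Matrix

variable {K : Type*} [Field K] {S : Type*} [Group S] {ρ : SL2 K →* S} {B : Subgroup (MulAut S)}
  {π : Set ℕ}

theorem reg_zero [Finite K] (h : Cov ρ) (h7 : 7 ≤ Nat.card K)
    (hB : ∀ s : S, MulAut.conj s ∈ B → s = 1) : Reg2 B := by
  obtain ⟨t, ht⟩ := exists_gen K
  refine ⟨fun a => ρ (![uu 1, hh t ht.ne] a), fun β hβ e => ?_⟩
  have key : ∀ x y : S, MulAut.conj x * β * (MulAut.conj y)⁻¹ ∈ B → β y = x := fun x y e => by
    refine (mul_inv_eq_one.1 (hB _ ?_)).symm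
    convert B.mul_mem e (B.inv_mem hβ) using 1
    ext z
    simp [mul_assoc]
  obtain ⟨μ, φ, h1, h2⟩ := h.aut β
  obtain ⟨a, a1, a2⟩ := h2 (uu 1)
  obtain ⟨b, b1, b2⟩ := h2 (hh t ht.ne)
  obtain ⟨ε, a3, a4⟩ := h.eq_iff.1 (a2.symm.trans (key _ _ (e 0)))
  obtain ⟨ε', b3, b4⟩ := h.eq_iff.1 (b2.symm.trans (key _ _ (e 1)))
  exact h.eq_one h2 (h1.zero_rigid ht h7 a3 (a1.symm.trans a4)
    (left_ne_zero_of_mul_eq_one b3) (b1.symm.trans b4))

theorem reg_ss_odd [Finite K] (h : Cov ρ) (h7 : 7 ≤ Nat.card K) (h9 : Nat.card K ≠ 9)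
    (h2 : (2 : K) ≠ 0) {n : K} (hn : n ≠ 0) (hF : Fam ρ B !![0, -n; 1, 0]) : Reg2 B := by
  obtain ⟨t, ht⟩ := exists_gen K
  obtain ⟨a, b, hab⟩ := norm_surj hn t⁻¹
  have ht0 := ht.ne
  field_simp at hab
  let r : SL2 K := ⟨!![t * a, -(t * b * n); b, a], by
    rw [det_fin_two_of]; linear_combination hab⟩
  have hr : r.1 * !![0, -n; 1, 0] * (r⁻¹).1 = (0 : K) • (1 : M2 K) +
      t⁻¹ • !![0, -(t ^ 2 * n); 1, 0] := by
    rw [sl_inv r]
    simp only [r, m2_ext, m2_mul]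
    simp
    refine ⟨?_, ?_, ?_, ?_⟩ <;> field_simp
    · ring
    · linear_combination -hab
    · linear_combination hab
    · ring
  have hu : ∀ x : K, (uu x).1 * !![0, -n; 1, 0] * ((uu x)⁻¹).1 = !![x, -n - x ^ 2; 1, -x] :=
    fun x => by simp [uu_inv, m2_ext]; ring
  refine ⟨fun a => ρ (![r, uu 1] a)⁻¹, fun β hβ e => ?_⟩
  obtain ⟨μ, φ, h1, h3⟩ := h.aut β
  have m1 := hF β μ φ h1 h3 _ _ (e 0)
  have m2 := hF β μ φ h1 h3 _ _ (e 1)
  simp only [cons_val_zero, cons_val_one, cons_val, hu] at m1 m2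
  exact h.eq_one h3 (h1.odd_rigid ht h7 h9 h2 hn (hF.self h1 h3 hβ)
    ((m1.of_right hr).of_left h1 (a := 0) (b := t) (by rw [hr]; simp [smul_smul, ht0]))
    (by simpa using m2))

theorem reg_ss_even [Finite K] (h : Cov ρ) (h7 : 7 ≤ Nat.card K) (h2 : (2 : K) = 0) {n : K}
    (hF : Fam ρ B !![0, n; 1, 1]) : Reg2 B := by
  obtain ⟨t, ht⟩ := exists_gen K
  have hu : (uu t).1 * !![0, n; 1, 1] * ((uu t)⁻¹).1 = t • (1 : M2 K) +
      (1 : K) • !![0, n + t + t ^ 2; 1, 1] := by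
    simp [uu_inv, m2_ext]
    constructor
    · linear_combination -t ^ 2 * h2
    · linear_combination -t * h2
  have hd : ∀ (x : K) (hx : x ≠ 0), (hh x hx).1 * !![0, n; 1, 1] * ((hh x hx)⁻¹).1 =
      !![0, x ^ 2 * n; (x ^ 2)⁻¹, 1] := fun x hx => by
    simp [sl_inv, m2_ext, hx]
    constructor <;> ring
  refine ⟨fun a => ρ (![uu t, hh t ht.ne] a)⁻¹, fun β hβ e => ?_⟩
  obtain ⟨μ, φ, h1, h3⟩ := h.aut β
  have m1 := hF β μ φ h1 h3 _ _ (e 0)
  have m2 := hF β μ φ h1 h3 _ _ (e 1)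
  simp only [cons_val_zero, cons_val_one, cons_val, hd] at m1 m2
  exact h.eq_one h3 (h1.even_rigid ht h7 h2 (hF.self h1 h3 hβ)
    ((m1.of_right hu).of_left h1 (a := -t) (b := 1) (by rw [hu]; simp)) m2)

theorem nil_pow (a b : K) (k : ℕ) : (a • (1 : M2 K) + b • !![0, 1; 0, 0]) ^ (k + 1) =
    a ^ (k + 1) • (1 : M2 K) + (((k + 1 : ℕ) : K) * a ^ k * b) • !![0, 1; 0, 0] := by
  induction k with
  | zero => simp
  | succ k ih =>
    rw [pow_succ, ih]
    simp only [m2_ext, m2_mul]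
    simp
    exact ⟨by ring, by ring, by ring⟩

theorem reg_inv [Finite K] [Finite S] (h : Cov ρ) (h7 : 7 ≤ Nat.card K) (h9 : Nat.card K ≠ 9)
    (hJ : IsPi π (B.comap MulAut.conj)) (hp : ringChar K ∉ π)
    {g : SL2 K} (h1 : ρ g ≠ 1) (h2 : MulAut.conj (ρ g) ∈ B) (hI : InvB ρ B g) : Reg2 B := by
  obtain ⟨s, a, b, hb, hs⟩ := exists_nf (h.not_scalar h1)
  have h' := h.conj s⁻¹
  have e : ∀ m, (ρ.comp (MulAut.conj s⁻¹).toMonoidHom) (s * m * s⁻¹) = ρ m := fun m => by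
    simp [mul_assoc]
  have hI' : InvB (ρ.comp (MulAut.conj s⁻¹).toMonoidHom) B (s * g * s⁻¹) := fun β hβ => by
    obtain ⟨m, m1, m2⟩ := hI β hβ
    exact ⟨s * m * s⁻¹, by rw [e, e, m1], m2.map (MulAut.conj s)⟩
  rw [← e] at h1 h2
  generalize ρ.comp (MulAut.conj s⁻¹).toMonoidHom = ρ' at h' hI' h1 h2
  generalize s * g * s⁻¹ = k at hs hI' h1 h2
  rcases hs with hs | ⟨c1, n, hn, hs⟩ | ⟨c1, n, hs⟩
  · have hpr := CharP.char_is_prime K (ringChar K)
    refine absurd (hJ.eq_one hpr hp ?_ h2) h1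
    obtain ⟨j, hj⟩ : ∃ j, ringChar K = j + 1 := ⟨_, (Nat.succ_pred_eq_of_pos hpr.pos).symm⟩
    have hd := sl_det k
    have ha : a * a = 1 := by simpa [hs] using hd
    rw [← map_pow, h'.ker]
    refine ⟨a ^ (j + 1), by rw [← mul_pow, ha, one_pow], ?_⟩
    rw [Matrix.SpecialLinearGroup.coe_pow, hs, hj, nil_pow, ← hj, ringChar.Nat.cast_ringChar]
    simp
  · exact reg_ss_odd h' h7 h9 c1 hn (h'.fam h1 hI' hb hs)
  · exact reg_ss_even h' h7 c1 (h'.fam h1 hI' hb hs)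

open Subgroup in
theorem reg_L2 [Finite K] [Finite S] (h : Cov ρ) (h7 : 7 ≤ Nat.card K) (h9 : Nat.card K ≠ 9)
    [Group.IsSolvable B] (hJ : IsPi π (B.comap MulAut.conj)) (hp : ringChar K ∉ π) (h2 : 2 ∉ π) :
    Reg2 B := by
  by_cases h0 : ∀ s : S, MulAut.conj s ∈ B → s = 1
  · exact reg_zero h h7 h0
  push Not at h0
  obtain ⟨s0, s1, s2⟩ := h0
  have hconj : ∀ (β : MulAut S) (s : S), MulAut.conj (β s) = β * MulAut.conj s * β⁻¹ :=
    fun β s => by ext x; simp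
  have : ((MulAut.conj : S →* MulAut S).range.subgroupOf B).Normal := ⟨by
    rintro β ⟨s, hs⟩ γ
    exact ⟨γ.1 s, by rw [hconj, hs]; rfl⟩⟩
  obtain ⟨F, f1, f2, f3, f4⟩ := exists_layer (U := ⊥)
    (E := (MulAut.conj : S →* MulAut S).range.subgroupOf B) fun e =>
      s2 (h.conj_inj ((congrArg Subtype.val (mem_bot.1 (e (x := ⟨_, s1⟩) ⟨s0, rfl⟩))).trans
        (map_one _).symm))
  let T := (F.map B.subtype).comap MulAut.conj
  have t1 : ∀ x ∈ T, MulAut.conj x ∈ B := fun x hx => map_subtype_le F hx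
  have t2 : ∀ x ∈ T, ∀ y ∈ T, Commute x y := by
    rintro x ⟨a, ha, ea⟩ y ⟨b, hb, eb⟩
    refine h.conj_inj ?_
    rw [map_mul, map_mul, ← ea, ← eb]
    exact congrArg Subtype.val (commutatorElement_eq_one_iff_commute.1 (f4 a ha b hb)).eq
  have t3 : ∀ β ∈ B, ∀ x ∈ T, β x ∈ T := by
    rintro β hβ x ⟨a, ha, ea⟩
    exact ⟨_, f1.conj_mem a ha ⟨β, hβ⟩, by rw [hconj, ← ea]; rfl⟩
  by_cases hc : ∀ g m, ρ g ∈ T → ρ m ∈ T → Sg g m 1
  · obtain ⟨a, ha, ha'⟩ := SetLike.not_le_iff_exists.1 f3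
    obtain ⟨x, hx⟩ := f2 ha
    obtain ⟨g, rfl⟩ := h.surj x
    have hg : ρ g ∈ T := ⟨a, ha, hx.symm⟩
    refine reg_inv h h7 h9 hJ hp (fun e => ha' (Subtype.ext ?_)) (t1 _ hg) fun β hβ => ?_
    · rw [e, map_one] at hx
      exact hx.symm
    · obtain ⟨m, hm⟩ := h.surj (β (ρ g))
      exact ⟨m, hm.symm, Subtype.ext ((hc m g (hm ▸ t3 β hβ _ hg) hg).trans (one_smul _ _))⟩
  push Not at hc
  obtain ⟨g, m, hg, hm, hgm⟩ := hc
  obtain ⟨k1, k2, -⟩ := h.klein ((h.sg (t2 _ hg _ hm)).resolve_left hgm) hgm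
  exact absurd (hJ.eq_one Nat.prime_two h2 ((pow_two _).trans k2) (t1 _ hg)) k1

end Two

section Line

variable {D V : Type*} [Group D] [AddCommGroup V] [DistribMulAction D V]

theorem rob_line2 [Finite D] [Group.IsSolvable D] [Finite V] [Nontrivial V]
    (ho : Odd (Nat.card D)) {r : ℕ} (hr : r.Prime)
    (hV : ∀ v : V, r • v = 0) (hD : ¬ r ∣ Nat.card D) (L : V → AddSubgroup V)
    (h2 : ∀ x, x ≠ 0 → ∃ y, y ∉ L x)
    (h3 : ∀ (d : D) x, x ≠ 0 → d • x = x → ∀ y ∈ L x, d • y ∈ L x) :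
    ∃ x y : V, y ∉ L x ∧ ∀ d : D, d • x = x → d • y = y → ∀ w : V, d • w = w := by
  obtain ⟨x, y, h0, h⟩ : ∃ x y : V, x ≠ 0 ∧
      ∀ d : D, d • x = x → d • y = y → ∀ w : V, d • w = w := by
    obtain ⟨v, v', hv⟩ := lin2 (D := D) ho hr hV hD
    by_cases e : v = 0
    · by_cases e' : v' = 0
      · obtain ⟨x, hx⟩ := exists_ne (0 : V)
        exact ⟨x, 0, hx, fun d _ _ => hv d (by simp [e]) (by simp [e'])⟩
      · exact ⟨v', v, e', fun d a b => hv d b a⟩
    · exact ⟨v, v', e, hv⟩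
  by_cases a : y ∈ L x
  swap
  · exact ⟨x, y, a, h⟩
  obtain ⟨u, hu⟩ := h2 x h0
  let F : Subgroup D :=
    { carrier := {d | d • x = x ∧ d • u - u ∈ L x}
      mul_mem' := fun {c d} hc hd => ⟨by rw [mul_smul, hd.1, hc.1], by
        simpa [mul_smul, smul_sub] using (L x).add_mem (h3 c x h0 hc.1 _ hd.2) hc.2⟩
      one_mem' := by simp
      inv_mem' := fun {c} hc => ⟨inv_smul_eq_iff.2 hc.1.symm, by
        simpa [smul_sub] using (L x).neg_mem (h3 c⁻¹ x h0 (inv_smul_eq_iff.2 hc.1.symm) _ hc.2)⟩ }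
  have hF : ¬ r ∣ Nat.card F := fun e => hD (e.trans F.card_subgroup_dvd_card)
  obtain ⟨w, w1, w2⟩ := exists_avg F (L x) u fun d hd => hd.2
  refine ⟨x, y + w, fun e => hu (mem_of_nsmul hr hV hF _ ?_), fun d e1 e2 => h d e1 ?_⟩
  · simpa using (L x).sub_mem ((L x).sub_mem e a) w2
  · rw [smul_add, w1 d ⟨e1, mem_of_nsmul hr hV hF _ ?_⟩] at e2
    · exact add_right_cancel e2
    have := (L x).sub_mem ((L x).add_mem ((L x).sub_mem a (h3 d x h0 e1 _ a)) w2)
      (h3 d x h0 e1 _ w2)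
    convert this using 1
    rw [smul_sub d, smul_sub, smul_comm d (Nat.card F) u, eq_sub_of_add_eq' e2]
    abel

end Line

section Many

open Matrix Matrix.SpecialLinearGroup

variable {ι K : Type*} [Fintype ι] [DecidableEq ι] [Field K]
variable {S : Type*} [Group S] {ρ : SLn ι K →* S} {p : ℕ} [Fact p.Prime] [CharP K p]

theorem reg_cop [Finite K] [Finite S] (h : CovN ρ) {Bg : Subgroup (MulAut S)} [Group.IsSolvable Bg]
    (ho : Odd (Nat.card Bg)) (hB : ¬ p ∣ Nat.card Bg)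
    (hJ : ¬ p ∣ Nat.card (Bg.comap MulAut.conj)) : Reg2 Bg := by
  have hm : ∀ β ∈ Bg, ∃ μ A B, Rp ρ β μ A B := fun β hβ => by
    obtain ⟨μ, A, A', a | a⟩ := h.rp_or_rm β
    · exact ⟨_, _, _, a⟩
    obtain ⟨k, hk⟩ := ho.of_dvd_nat (Bg.orderOf_dvd_natCard hβ)
    exact a.odd (hk ▸ pow_orderOf_eq_one β)
  obtain ⟨o⟩ : Nonempty ι := Fintype.card_pos_iff.1 (by have := h.three; omega)
  set v : ι → K := Pi.single o 1 with hv
  have v0 : v ≠ 0 := by simp [hv]
  let V : AddSubgroup (ι → K) :=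
    { carrier := {f | f ⬝ᵥ v = 0}
      add_mem' := fun {a b} (ha : _ = _) (hb : _ = _) => by
        show _ = _
        rw [add_dotProduct, ha, hb, add_zero]
      zero_mem' := zero_dotProduct v
      neg_mem' := fun {a} (ha : _ = _) => by
        show _ = _
        rw [neg_dotProduct, ha, neg_zero] }
  choose t ht using fun f : V => exists_tv (v := v) f.2
  have inj : ∀ f f', ρ (t f) = ρ (t f') → f = f' := fun f f' e =>
    Subtype.ext ((ht f).inj (h.tv_eq (ht f') (ht f) e.symm ▸ ht f') v0)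
  have add : ∀ f f', ρ (t (f + f')) = ρ (t f) * ρ (t f') := fun f f' => by
    rw [← map_mul, (ht _).eq ((ht f).mul (ht f'))]
  let D0 : Submonoid (MulAut S) :=
    { carrier := {β | β ∈ Bg ∧ (∃ μ A B, Rp ρ β μ A B) ∧ ∀ f, ∃ f', β (ρ (t f)) = ρ (t f')}
      mul_mem' := fun {a b} ⟨a1, ⟨_, _, _, a2⟩, a3⟩ ⟨b1, ⟨_, _, _, b2⟩, b3⟩ =>
        ⟨Bg.mul_mem a1 b1, ⟨_, _, _, a2.mul b2⟩, fun f => (b3 f).elim fun f' e =>
          (a3 f').imp fun f'' e' => by rw [MulAut.mul_apply, e, e']⟩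
      one_mem' := ⟨Bg.one_mem, ⟨_, _, _, by simpa using rp_conj (ρ := ρ) 1⟩, fun f => ⟨f, rfl⟩⟩ }
  let D : Subgroup (MulAut S) :=
    { D0 with
      inv_mem' := fun {a} ha => by
        rw [inv_eq_of_mul_eq_one_left (show a ^ (orderOf a - 1) * a = 1 by
          rw [← pow_succ, Nat.sub_add_cancel (orderOf_pos a), pow_orderOf_eq_one])]
        exact D0.pow_mem ha _ }
  have hD : D ≤ Bg := fun _ ha => ha.1
  choose act hact using fun d : D => d.2.2.2
  let _ : DistribMulAction D V :=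
    { smul := act
      one_smul := fun f => inj _ _ (hact 1 f).symm
      mul_smul := fun c d f => inj _ _ (by
        show ρ (t (act _ f)) = ρ (t (act c (act d f)))
        rw [← hact, ← hact, ← hact]; rfl)
      smul_zero := fun d => inj _ _ (by
        show ρ (t (act _ 0)) = _
        rw [← hact, (ht 0).eq (tv_one v), map_one, map_one])
      smul_add := fun d f f' => inj _ _ (by
        show ρ (t (act _ _)) = ρ (t (act d f + act d f'))
        rw [← hact, add, add, map_mul, hact, hact]) }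
  have hact' : ∀ (d : D) f, d.1 (ρ (t f)) = ρ (t (d • f)) := hact
  have : Group.IsSolvable D :=
    Group.isSolvable_of_isSolvable_injective (Subgroup.inclusion_injective hD)
  obtain ⟨f0, a1, a2, -⟩ := exists_perp h.three v v
  have : Nontrivial V := ⟨⟨f0, (dotProduct_comm _ _).trans a2⟩, 0, fun e => a1 (congrArg Subtype.val e)⟩
  obtain ⟨X, Y, t1, t2⟩ := rob_line2 (D := D) (V := V)
    (ho.of_dvd_nat (Subgroup.card_dvd_of_le hD)) (Fact.out : p.Prime)
    (fun f => Subtype.ext (funext fun i => by simp)) (fun e => hB (e.trans (Subgroup.card_dvd_of_le hD)))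
    (fun x => { carrier := {y | Dep x.1 y.1}
                add_mem' := fun {a b} ha hb i j => by
                  simp only [AddSubgroup.coe_add, Pi.add_apply]
                  linear_combination ha i j + hb i j
                zero_mem' := fun i j => by simp
                neg_mem' := fun {a} ha i j => by
                  simp only [AddSubgroup.coe_neg, Pi.neg_apply]
                  linear_combination - ha i j })
    (fun x hx => (exists_indep h.three v fun e => hx (Subtype.ext e)).elim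
      fun y hy => ⟨⟨y, hy.1⟩, hy.2⟩)
    fun d x hx e y hy => by
      obtain ⟨μ, A, B, a⟩ := d.2.2.1
      have key : ∀ y : V, Tv (t (d • y)) (A *ᵥ (μ ∘ v)) ((μ ∘ y.1) ᵥ* B) := fun y => by
        obtain ⟨s, b, e⟩ := a.tv (ht y)
        exact h.tv_eq (ht _) b ((hact' d y).symm.trans e) ▸ b
      obtain ⟨c, hc⟩ := Dep.exists hy fun e => hx (Subtype.ext e)
      have k1 := key x
      have k2 := key y
      rw [e] at k1
      rw [hc, show μ ∘ (c • x.1) = μ c • (μ ∘ x.1) from funext fun i => map_mul μ _ _,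
        smul_vecMul, Tv, vecMulVec_smul, add_left_cancel (k1.symm.trans (ht x)),
        ← vecMulVec_smul] at k2
      exact show Dep x.1 (d • y).1 from (ht _).inj k2 v0 ▸ dep_smul' x.1 (μ c)
  refine ⟨fun a => ρ (t (![X, Y] a)), fun β hβ hc => ?_⟩
  let T : Fin 3 → V := ![X, Y, Y]
  have hc' : ∀ b, ρ (t (T b)) * (β (ρ (t (T b))))⁻¹ ∈ Bg.comap MulAut.conj := fun b => by
    fin_cases b
    exacts [mem_comap_of hβ (hc 0), mem_comap_of hβ (hc 1), mem_comap_of hβ (hc 1)]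
  obtain ⟨μ, A, B, a⟩ := hm β hβ
  choose y y1 y2 using fun f => a.tv (ht f)
  have hd := h.plus_dep hJ (fun b => ht (T b)) (fun b => y1 (T b)) t1
    fun b => by simpa only [y2, map_mul, map_inv] using hc' b
  have hβ' : β ∈ D := ⟨hβ, ⟨_, _, _, a⟩, fun f => ((y1 f).of_dep hd v0).elim fun f' e =>
    ⟨⟨f', e.dot⟩, (y2 f).trans (congrArg ρ (e.eq (ht ⟨f', e.dot⟩)))⟩⟩
  have k : ∀ b, (⟨β, hβ'⟩ : D) • T b = T b := fun b => inj _ _ (by
    have := hc' b
    rw [hact' ⟨β, hβ'⟩] at this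
    refine (mul_inv_eq_one.1 (eq_one_of_pow hJ this ?_)).symm
    rw [← map_inv, ← map_mul, ← map_pow, ((ht _).mul (ht _).inv).pow_char, map_one])
  obtain ⟨s, _, _, b, rfl⟩ := a.faith h o fun g f e => by
    obtain ⟨f', rfl⟩ : ∃ f', g = t f' := ⟨_, e.eq (ht ⟨f, e.dot⟩)⟩
    rw [hact' ⟨β, hβ'⟩, t2 _ (k 0) (k 1)]
  rw [eq_one_of_pow hJ hβ (by rw [← map_pow, b.pow_char, map_one]), map_one]

end Many

open Subgroup

variable {G : Type*} [Group G] {π : Set ℕ}

theorem locG_out [Finite G] {H S : Subgroup G} [Group.IsSolvable H] (hH : IsHall π H)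
    (hS : IsComp S) (h2 : 2 ∉ π) (hA : IsLinOut π S) : LocG2 (Fin 2) H S := by
  obtain ⟨n, K, _, _, hn, hp, h7, ⟨e⟩⟩ := hA
  have : Group.IsSolvable (normalizer (S : Set G)).subtype.ker := by
    rw [ker_subtype]; infer_instance
  have : Group.IsSolvable (H.subgroupOf (normalizer (S : Set G))) := solvable_comap _ H
  have : Group.IsSolvable (autOf H S) :=
    Group.isSolvable_of_surjective (MonoidHom.subgroupMap_surjective _ _)
  have hB := hH.1.autOf S
  have a := hB.comap_inj _ hS.conj_inj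
  have ho : Odd (Nat.card (autOf H S)) :=
    Nat.not_even_iff_odd.1 fun e => h2 (hB 2 Nat.prime_two e.two_dvd)
  refine (two_of_one2 ho (fun e => hS.not_pi hH (a.of_dvd (by simp [e]))) ?_).elim locG2_of_aut
  rcases hn.eq_or_lt with rfl | h3
  · exact reg_L2 (cov_psl.comp e.symm) (h7 rfl).1 (h7 rfl).2 a hp h2
  · have := Fact.mk (CharP.char_is_prime K (ringChar K))
    exact reg_cop (p := ringChar K) ((cov_psln (by rw [Fintype.card_fin]; exact h3)).comp e.symm) ho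
      (fun e => hp (hB _ this.out e)) fun e => hp (a _ this.out e)

/-- three conjugates: alternating components and linear components in cross characteristic -/
theorem main_threeL [Finite G] (hD : IsD π G) {H : Subgroup G} (hH : IsHall π H)
    [Group.IsSolvable H] (ho : Odd ((OPi π G).relIndex (H ⊓ Rad G)))
    (hA : SocleOut π (G ⧸ Rad G)) :
    ∃ x y : G, OPi π G = H ⊓ conjBy H x ⊓ conjBy H y := by
  by_cases h2 : 2 ∈ π
  · exact main_three hD hH ho fun S a b c => (hA S a b c).resolve_right fun d => d.1 h2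
  have hH' := hH.map (QuotientGroup.mk' (Rad G)) (QuotientGroup.mk'_surjective _)
  have : Group.IsSolvable (H.map (QuotientGroup.mk' (Rad G))) :=
    Group.isSolvable_of_surjective (MonoidHom.subgroupMap_surjective _ H)
  have odd : ∀ {Q : Type _} [Group Q] {K : Subgroup Q}, IsPi π K → Odd (Nat.card K) := fun h =>
    Nat.not_even_iff_odd.1 fun e => h2 (h 2 Nat.prime_two e.two_dvd)
  have hX := glue2 radicalTrivial_quot (odd hH'.1) fun S c => (hA S c.1 c.2.1 c.2.2).elim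
    (fun a => (locG_alt hH' c.1 a (Or.inl h2)).two) fun a => locG_out hH' c h2 a.2
  have : Group.IsSolvable (QuotientGroup.mk' (Rad G)).ker := by
    rw [QuotientGroup.ker_mk']; infer_instance
  obtain ⟨x, hx⟩ := red2_aux _ G rfl H _ (QuotientGroup.mk'_surjective _) hH
    (odd (hH.1.mono inf_le_left)) hX
  refine ⟨x 0, x 1, le_antisymm (le_inf (le_inf hH.OPi_le (hH.conjBy _).OPi_le)
    (hH.conjBy _).OPi_le) fun k hk => hx k hk.1.1 fun a => ?_⟩
  fin_cases a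
  exacts [hk.1.2, hk.2]

end Pool.Agent.MP_983df8_al
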